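import Pool.Agent.H.MP_0447ec_lc.LV.Base
import Pool.Agent.H.MP_0447ec_lc.PS.Sim

/-!
# Substitutions in extended Frege proofs, in polynomial time
-/

namespace Pool.Agent.H.MP_0447ec_lc.PS

open Pool.Agent.H.MP_0447ec_lc.PT

/-! ### Sizes -/

theorem sz_substK_le {A : Fm} {s : Nm → Fm} {K : ℕ} (h : ∀ x ∈ A.vars, sz (s x) ≤ K) :
    sz (A.subst s) ≤ sz A * (K + 1) := by
  induction A with
  | var w =>
    have h1 := h w rfl
    have h2 := sz_pos (Fm.var w)
    show sz (s w) ≤ _
    nlinarith
  | neg A ih =>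
    have := ih h
    rw [Fm.subst, sz_neg, sz_neg, Nat.add_mul]
    omega
  | and A B ih1 ih2 =>
    have h1 := ih1 (fun x hx => h x (Or.inl hx))
    have h2 := ih2 (fun x hx => h x (Or.inr hx))
    rw [Fm.subst, sz_and, sz_and, Nat.add_mul, Nat.add_mul]
    omega
  | or A B ih1 ih2 =>
    have h1 := ih1 (fun x hx => h x (Or.inl hx))
    have h2 := ih2 (fun x hx => h x (Or.inr hx))
    rw [Fm.subst, sz_or, sz_or, Nat.add_mul, Nat.add_mul]
    omega
  | imp A B ih1 ih2 =>
    have h1 := ih1 (fun x hx => h x (Or.inl hx))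
    have h2 := ih2 (fun x hx => h x (Or.inr hx))
    rw [Fm.subst, sz_imp, sz_imp, Nat.add_mul, Nat.add_mul]
    omega

theorem sz_le_of_mem_vars {A : Fm} {x : Nm} (hx : x ∈ A.vars) : sz x ≤ sz A :=
  (sz_mem_lt (mem_nms.2 hx)).le.trans (sz_nms_le A)

theorem vars_le_of_subs {A G : Fm} (h : G ∈ subs A) {x : Nm} (hx : x ∈ G.vars) : sz x ≤ sz A :=
  (sz_le_of_mem_vars hx).trans (sz_le_of_mem_subs h)

/-! ### Substitution is computable in polynomial time -/

section

variable {α β γ : Type} [Enc α] [Enc β] [Enc γ]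

theorem Poly.substOf {s : α → Nm → Fm} {G : α → Fm} (hG : Poly G)
    (hs : Poly (fun p : α × Nm => s p.1 p.2)) : Poly (fun a => (G a).subst (s a)) := by
  obtain ⟨P, hP⟩ := hs.sz_le
  have e : ∀ (s : Nm → Fm) (A : Fm), fmFold (fun w => s w)
      (fun A => Fm.neg A) (fun n A B => PS.conn n A B) A = A.subst s := by
    intro s A
    induction A with
    | var w => rfl
    | neg A ih => simp [fmFold, Fm.subst, ih]
    | and A B ih1 ih2 => simp [fmFold, Fm.subst, conn_two, ih1, ih2]
    | or A B ih1 ih2 => simp [fmFold, Fm.subst, conn_three, ih1, ih2]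
    | imp A B ih1 ih2 => simp [fmFold, Fm.subst, conn_four, ih1, ih2]
  have hb : PBdd (fun a : α => sz a + sz (G a) + 1) :=
    (PBdd.sz_self.add hG.sz_le).add (PBdd.const 1)
  have key := Poly.ofFold (gv := fun a w => s a w)
    (gn := fun _ A => Fm.neg A)
    (g2 := fun _ n A B => PS.conn n A B)
    (B := fun a => sz (G a) * (P.eval (sz a + sz (G a) + 1) + 1)) hG hs (by fun_prop)
    (by fun_prop)
    (hG.sz_le.mul ((hb.eval P).add (PBdd.const 1))) (by
      intro a A hA
      rw [e]
      refine (sz_substK_le (K := P.eval (sz a + sz (G a) + 1)) ?_).trans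
        (Nat.mul_le_mul_right _ (sz_le_of_mem_subs hA))
      intro x hx
      refine (hP (a, x)).trans (poly_mono P ?_)
      rw [sz_pair]
      have := vars_le_of_subs hA hx
      omega)
  simpa [e] using key

theorem tsub_eq_foldr (t : List (Nm × Fm)) (x : Nm) :
    tsub t x = t.foldr (fun p s => if p.1 = x then p.2 else s) (Fm.var x) := by
  induction t with
  | nil => rfl
  | cons p t ih => rw [tsub_cons, List.foldr_cons, ih]

theorem tsub_cases (t : List (Nm × Fm)) (x : Nm) :
    tsub t x = Fm.var x ∨ ∃ p ∈ t, tsub t x = p.2 := by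
  induction t with
  | nil => exact Or.inl rfl
  | cons p t ih =>
    rw [tsub_cons]
    split_ifs with h
    · exact Or.inr ⟨p, by simp, rfl⟩
    · rcases ih with ih | ⟨q, hq, ih⟩
      · exact Or.inl ih
      · exact Or.inr ⟨q, List.mem_cons_of_mem _ hq, ih⟩

theorem sz_tsub (t : List (Nm × Fm)) (x : Nm) : sz (tsub t x) ≤ sz t + sz x + 4 := by
  rcases tsub_cases t x with h | ⟨p, hp, h⟩
  · rw [h, sz_var]; omega
  · rw [h]
    have h1 := sz_mem_lt hp
    rw [sz_prod] at h1
    omega

@[fun_prop]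
theorem Poly.tsub {t : α → List (Nm × Fm)} {x : α → Nm} (ht : Poly t) (hx : Poly x) :
    Poly (fun a => tsub (t a) (x a)) := by
  have key := Poly.foldr (f := fun p : α × Fm × (Nm × Fm) =>
      if p.2.2.1 = x p.1 then p.2.2.2 else p.2.1) (l := t)
    (s0 := fun a => Fm.var (x a)) (B := fun a => sz (t a) + sz (x a) + 4)
    (by
      have h1 : Poly (fun p : α × Fm × (Nm × Fm) => decide (p.2.2.1 = x p.1)) := by fun_prop
      exact Poly.ite h1 (by fun_prop) (by fun_prop)) ht (by fun_prop)
    ((ht.sz_le.add hx.sz_le).add (PBdd.const 4)) (by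
      intro a l₁ l₂ h
      simp only
      rw [← tsub_eq_foldr]
      have h1 := sz_tsub l₂ (x a)
      have h2 : sz l₂ ≤ sz (t a) := by
        rw [h]; exact sz_sublist_le (List.sublist_append_right _ _)
      omega)
  refine (show (fun a => PS.tsub (t a) (x a)) = _ from ?_) ▸ key
  funext a
  exact tsub_eq_foldr _ _

@[fun_prop]
theorem Poly.substT {t : α → List (Nm × Fm)} {G : α → Fm} (ht : Poly t) (hG : Poly G) :
    Poly (fun a => (G a).subst (PS.tsub (t a))) :=
  Poly.substOf (s := fun a => PS.tsub (t a)) hG (by fun_prop)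

@[fun_prop]
theorem Poly.fn {L k : α → ℕ} {w : α → Nm} (hL : Poly L) (hk : Poly k) (hw : Poly w) :
    Poly (fun a => fn (L a) (k a) (w a)) := by
  unfold PS.fn
  fun_prop

end

/-! ### Substitutions in extended Frege proofs -/

theorem deriv_ext_subst {F : List Rule} {A : Fm} {s : Nm → Fm} {r : Nm → Nm}
    (hs : ∀ x, x ∉ A.vars → s x = Fm.var (r x))
    (hr : ∀ x, x ∉ A.vars → ∀ y, y ≠ x → r x ∉ (s y).vars) {π : List Fm}
    (h : Deriv (fun σ B => RuleStep F σ B ∨ ExtStep A σ B) π) :
    Deriv (fun σ B => RuleStep F σ B ∨ ExtStep (A.subst s) σ B) (π.map (Fm.subst s)) := by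
  have hv : ∀ (q : Nm), q ∉ A.vars → ∀ φ : Fm, q ∉ φ.vars → r q ∉ (φ.subst s).vars := by
    intro q hq φ hφ hc
    obtain ⟨y, hy, hyv⟩ := vars_subst hc
    exact hr q hq y (by rintro rfl; exact hφ hy) hyv
  induction h with
  | nil => exact Deriv.nil
  | @snoc σ B _ h2 ih =>
    rw [List.map_append, List.map_cons, List.map_nil]
    refine Deriv.snoc ih ?_
    rcases h2 with h2 | ⟨q, φ, hB, h3, h4, h5⟩
    · exact Or.inl (ruleStep_subst h2 s)
    · refine Or.inr ⟨r q, φ.subst s, ?_, hv q h5 φ h3, ?_, hv q h5 A h5⟩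
      · rw [hB]
        simp only [Fm.iff, Fm.subst, hs q h5]
      · intro C hC
        obtain ⟨C', hC', rfl⟩ := List.mem_map.1 hC
        exact hv q h5 C' (h4 C' hC')

/-- The substitution that is applied to an extended Frege proof of `A`. -/
def efT (t : List (Nm × Fm)) (L : ℕ) (A : Fm) (x : Nm) : Fm :=
  if x ∈ nms A then tsub t x else Fm.var (fn L 0 x)

/-- A bound for the lengths of the names. -/
def efL (t : List (Nm × Fm)) (A : Fm) : ℕ := (t.flatMap (fun e => nms e.2) ++ nms A).flatten.length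

/-- The result of a substitution in an extended Frege proof. -/
def efS (p : List (Nm × Fm) × List Fm) : List Fm :=
  p.2.map (Fm.subst (efT p.1 (efL p.1 (lastF p.2)) (lastF p.2)))

theorem efL_spec {t : List (Nm × Fm)} {A : Fm} {x y : Nm} (hx : x ∈ A.vars)
    (hy : y ∈ (tsub t x).vars) : y.length ≤ efL t A := by
  have h1 : y ∈ t.flatMap (fun e => nms e.2) ++ nms A := by
    rcases tsub_cases t x with h | ⟨p, hp, h⟩
    · rw [h] at hy
      simp only [Fm.vars, Set.mem_singleton_iff] at hy
      subst hy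
      exact List.mem_append_right _ (mem_nms.2 hx)
    · rw [h] at hy
      exact List.mem_append_left _ (List.mem_flatMap.2 ⟨p, hp, mem_nms.2 hy⟩)
  unfold efL
  rw [List.length_flatten]
  exact List.single_le_sum (by simp) _ (List.mem_map_of_mem h1)

theorem efT_subst (t : List (Nm × Fm)) (L : ℕ) (A : Fm) :
    A.subst (efT t L A) = A.subst (tsub t) :=
  Fm.subst_congr (fun x hx => by rw [efT, if_pos (mem_nms.2 hx)])

theorem efS_spec {F : List Rule} {t : List (Nm × Fm)} {π : List Fm} {A : Fm}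
    (h : ExtProof F A π) : ExtProof F (A.subst (tsub t)) (efS (t, π)) := by
  obtain ⟨h1, h2⟩ := h
  have hl : lastF π = A := lastF_eq h2
  have e : efS (t, π) = π.map (Fm.subst (efT t (efL t A) A)) := by
    rw [efS, hl]
  rw [e]
  refine ⟨?_, ?_⟩
  · rw [← efT_subst t (efL t A) A]
    refine deriv_ext_subst (r := fun x => fn (efL t A) 0 x) ?_ ?_ h1
    · intro x hx
      rw [efT, if_neg (fun h => hx (mem_nms.1 h))]
    · intro x _ y hy hc
      unfold efT at hc
      split_ifs at hc with h3
      · have h4 := efL_spec (mem_nms.1 h3) hc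
        have h5 := fn_length (efL t A) 0 x
        omega
      · simp only [Fm.vars, Set.mem_singleton_iff] at hc
        exact hy (fn_inj hc).2.symm
  · rw [List.getLast?_map, h2, Option.map_some, efT_subst]

theorem poly_efS : Poly efS := by
  have h1 : Poly (fun q : (List (Nm × Fm) × List Fm) × Fm =>
      q.2.subst (efT q.1.1 (efL q.1.1 (lastF q.1.2)) (lastF q.1.2))) := by
    refine Poly.substOf (s := fun (q : (List (Nm × Fm) × List Fm) × Fm) x =>
      efT q.1.1 (efL q.1.1 (lastF q.1.2)) (lastF q.1.2) x) (by fun_prop) ?_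
    unfold efT efL
    have h2 : Poly (fun p : ((List (Nm × Fm) × List Fm) × Fm) × Nm =>
      decide (p.2 ∈ nms (lastF p.1.1.2))) := by fun_prop
    exact Poly.ite h2 (by fun_prop) (by fun_prop)
  unfold efS
  exact PT.Poly.map (f := fun (p : List (Nm × Fm) × List Fm) (C : Fm) =>
    C.subst (efT p.1 (efL p.1 (lastF p.2)) (lastF p.2))) h1 (by fun_prop)

/-- Extended Frege is p-closed under substitutions given by tables. -/
theorem ef_subst (F : List Rule) : ∃ g : List (Nm × Fm) × List Fm → List Fm, Poly g ∧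
    ∀ (t : List (Nm × Fm)) (π : List Fm) (A : Fm), ExtProof F A π →
      ExtProof F (A.subst (tsub t)) (g (t, π)) :=
  ⟨efS, poly_efS, fun _ _ _ h => efS_spec h⟩

end Pool.Agent.H.MP_0447ec_lc.PS
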