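import Pool.Agent.H.MP_0447ec_lc.LV.Base
import Pool.Agent.H.MP_0447ec_lc.LV.ESub
import Pool.Agent.H.MP_0447ec_lc.PS.PolySim2

/-!
# The functions of the calculus are computable in polynomial time
-/

namespace Pool.Agent.H.MP_0447ec_lc.PS

open Pool.Agent.H.MP_0447ec_lc.PT

section lists

variable {α β γ : Type} [Enc α] [Enc β] [Enc γ]

omit [Enc β] in
theorem zipIdx_eq_sp : ∀ (l pre : List β), (sp pre l).map (fun p => (p.2.1, p.1.length)) =
    l.zipIdx pre.length := by
  intro l
  induction l with
  | nil => intro pre; simp [sp]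
  | cons b l ih =>
    intro pre
    have := ih (pre ++ [b])
    simp only [sp, List.map_cons, List.zipIdx_cons, this, List.length_append,
      List.length_singleton]

@[fun_prop]
theorem Poly.zipIdx {l : α → List β} (hl : Poly l) : Poly (fun a => (l a).zipIdx) := by
  have : Poly (fun a => (PS.sp [] (l a)).map (fun p => (p.2.1, p.1.length))) := by fun_prop
  refine (show (fun a => (l a).zipIdx) = _ from ?_) ▸ this
  funext a
  rw [zipIdx_eq_sp]
  rfl

@[fun_prop]
theorem Poly.range {n : α → ℕ} (hn : Poly n) : Poly (fun a => List.range (n a)) := by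
  have : Poly (fun a => ((List.replicate (n a) ()).zipIdx).map Prod.snd) := by fun_prop
  refine (show (fun a => List.range (n a)) = _ from ?_) ▸ this
  funext a
  rw [List.zipIdx_map_snd]
  simp [List.range_eq_range']

@[fun_prop]
theorem Poly.take {l : α → List β} {n : α → ℕ} (hl : Poly l) (hn : Poly n) :
    Poly (fun a => (l a).take (n a)) := by
  have : Poly (fun a => ((l a).zipIdx.filter (fun p => decide (p.2 < n a))).map Prod.fst) := by
    fun_prop
  refine (show (fun a => (l a).take (n a)) = _ from ?_) ▸ this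
  funext a
  have key : ∀ (l : List β) (k m : ℕ), l.take (m - k) =
      ((l.zipIdx k).filter (fun p => decide (p.2 < m))).map Prod.fst := by
    intro l
    induction l with
    | nil => intro k m; simp
    | cons b l ih =>
      intro k m
      rw [List.zipIdx_cons, List.filter_cons]
      by_cases h : k < m
      · have h2 : m - k = (m - (k + 1)) + 1 := by omega
        rw [h2, List.take_succ_cons, ih (k + 1) m]
        simp [h]
      · have h2 : m - k = 0 := by omega
        have h3 := ih (k + 1) m
        have h4 : m - (k + 1) = 0 := by omega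
        rw [h4] at h3
        simp only [List.take_zero] at h3
        rw [h2, List.take_zero]
        simpa [h] using h3
  exact key (l a) 0 (n a)

@[fun_prop]
theorem Poly.getD {l : α → List β} {n : α → ℕ} {d : α → β} (hl : Poly l) (hn : Poly n)
    (hd : Poly d) : Poly (fun a => (l a).getD (n a) (d a)) := by
  have : Poly (fun a => ((l a).drop (n a)).headD (d a)) := by fun_prop
  refine (show (fun a => (l a).getD (n a) (d a)) = _ from ?_) ▸ this
  funext a
  rw [List.headD_eq_head?_getD, List.head?_drop, List.getD_eq_getElem?_getD]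

@[fun_prop]
theorem Poly.otoList {o : α → Option β} (ho : Poly o) : Poly (fun a => (o a).toList) := by
  have := Poly.ocase (f := fun _ => ([] : List β)) (g := fun _ x => [x]) ho
    (by fun_prop) (by fun_prop)
  refine (show (fun a => (o a).toList) = _ from ?_) ▸ this
  funext a; cases o a <;> rfl

omit [Enc β] [Enc γ] in
theorem zip_fold : ∀ (l : List β) (m : List γ) (acc : List (β × γ)),
    l.foldl (fun (s : List γ × List (β × γ)) b =>
      (s.1.tail, s.2 ++ (s.1.head?.toList).map (fun c => (b, c)))) (m, acc) =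
    (m.drop l.length, acc ++ l.zip m) := by
  intro l
  induction l with
  | nil => intro m acc; simp
  | cons b l ih =>
    intro m acc
    rw [List.foldl_cons, ih]
    cases m <;> simp

theorem sz_zip : ∀ (l : List β) (m : List γ), sz (l.zip m) ≤ sz l + sz m := by
  intro l
  induction l with
  | nil => intro m; simp only [List.zip_nil_left, sz_lnil]; omega
  | cons b l ih =>
    intro m
    cases m with
    | nil => simp only [List.zip_nil_right, sz_lnil]; omega
    | cons c m =>
      have := ih m
      simp only [List.zip_cons_cons, sz_lcons, sz_pair]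
      omega

@[fun_prop]
theorem Poly.zip {l : α → List β} {m : α → List γ} (hl : Poly l) (hm : Poly m) :
    Poly (fun a => (l a).zip (m a)) := by
  have key := Poly.foldl (f := fun p : α × (List γ × List (β × γ)) × β =>
      (p.2.1.1.tail, p.2.1.2 ++ (p.2.1.1.head?.toList).map (fun c => (p.2.2, c))))
    (l := l) (s0 := fun a => (m a, []))
    (B := fun a => 2 * sz (m a) + sz (l a) + 1)
    (by fun_prop) hl (by fun_prop)
    ((((PBdd.const 2).mul hm.sz_le).add hl.sz_le).add (PBdd.const 1)) (by
      intro a l₁ l₂ h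
      simp only
      rw [zip_fold, sz_pair, List.nil_append]
      have h1 := sz_sublist_le (List.drop_sublist l₁.length (m a))
      have h2 := sz_zip l₁ (m a)
      have h3 : sz l₁ ≤ sz (l a) := by
        rw [h]; exact sz_sublist_le (List.sublist_append_left _ _)
      omega)
  have h2 : Poly (fun a => ((l a).foldl (fun (s : List γ × List (β × γ)) b =>
      (s.1.tail, s.2 ++ (s.1.head?.toList).map (fun c => (b, c)))) (m a, [])).2) :=
    Poly.comp Poly.snd key
  refine (show (fun a => (l a).zip (m a)) = _ from ?_) ▸ h2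
  funext a
  rw [zip_fold]
  simp

@[fun_prop]
theorem Poly.replicateC {n : α → ℕ} {b : α → β} (hn : Poly n) (hb : Poly b) :
    Poly (fun a => List.replicate (n a) (b a)) := by
  have : Poly (fun a => (List.replicate (n a) ()).map (fun _ => b a)) := by fun_prop
  simpa using this

@[fun_prop]
theorem Poly.flattenL {f : α → List (List β)} (hf : Poly f) : Poly (fun a => (f a).flatten) :=
  Poly.flatten hf

@[fun_prop]
theorem Poly.idxOf [DecidableEq β] {x : α → β} {l : α → List β} (hx : Poly x) (hl : Poly l) :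
    Poly (fun a => (l a).idxOf (x a)) := by
  have : Poly (fun a => ((l a).takeWhile (fun y => !decide (y = x a))).length) := by
    refine Poly.length (Poly.takeWhile (f := fun a y => !decide (y = x a)) ?_ hl)
    fun_prop
  refine (show (fun a => (l a).idxOf (x a)) = _ from ?_) ▸ this
  funext a
  induction l a with
  | nil => simp
  | cons b l ih =>
    rw [List.idxOf_cons, List.takeWhile_cons]
    by_cases h : b = x a
    · simp [h]
    · simp [h, ih, beq_false_of_ne h]

end lists

section

variable {α β γ : Type} [Enc α] [Enc β] [Enc γ]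

/-! ### Substitutions -/

theorem fmFold_subst (s : Nm → Fm) (A : Fm) :
    fmFold (fun w => s w) (fun A => Fm.neg A) (fun n A B => conn n A B) A = A.subst s := by
  induction A with
  | var w => rfl
  | neg A ih => simp [fmFold, Fm.subst, ih]
  | and A B ih1 ih2 => simp [fmFold, Fm.subst, conn_two, ih1, ih2]
  | or A B ih1 ih2 => simp [fmFold, Fm.subst, conn_three, ih1, ih2]
  | imp A B ih1 ih2 => simp [fmFold, Fm.subst, conn_four, ih1, ih2]

/-- Substitution with a substitution that is computable in polynomial time. -/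
theorem Poly.substP {s : α → Nm → Fm} {G : α → Fm}
    (hs : Poly (fun p : α × Nm => s p.1 p.2)) (hG : Poly G) :
    Poly (fun a => (G a).subst (s a)) := by
  obtain ⟨P, hP⟩ := hs.sz_le
  have key := Poly.ofFold (gv := fun a w => s a w) (gn := fun _ A => Fm.neg A)
    (g2 := fun _ n A B => PS.conn n A B)
    (B := fun a => (P.eval (sz a + sz (G a) + 1) + 1) * sz (G a)) hG hs (by fun_prop)
    (by fun_prop)
    (((((PBdd.sz_self.add hG.sz_le).add (PBdd.const 1)).eval P).add (PBdd.const 1)).mul
      hG.sz_le) (by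
      intro a A hA
      rw [fmFold_subst]
      have h2 := sz_le_of_mem_subs hA
      refine (sz_subst_le (K := P.eval (sz a + sz (G a) + 1) + 1) (by omega) A ?_).trans
        (Nat.mul_le_mul_left _ h2)
      intro w hw
      have h3 := sz_name_le hw
      refine (hP (a, w)).trans ((poly_mono P ?_).trans (Nat.le_succ _))
      rw [sz_pair]
      omega)
  simpa [fmFold_subst] using key

theorem Poly.tsubst {t : α → List (Nm × Fm)} {G : α → Fm} (ht : Poly t) (hG : Poly G) :
    Poly (fun a => (G a).subst (PS.tsub (t a))) :=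
  Poly.substT ht hG

@[fun_prop]
theorem Poly.ct {x : α → Nm} {c : α → Bool} (hx : Poly x) (hc : Poly c) :
    Poly (fun a => ct (x a) (c a)) := by
  unfold PS.ct
  fun_prop

@[fun_prop]
theorem Poly.lit {x : α → Nm} {c : α → Bool} (hx : Poly x) (hc : Poly c) :
    Poly (fun a => lit (x a) (c a)) := by
  unfold PS.lit
  fun_prop

@[fun_prop]
theorem Poly.cs {x : α → Nm} {c : α → Bool} {w : α → Nm} (hx : Poly x) (hc : Poly c)
    (hw : Poly w) : Poly (fun a => cs (x a) (c a) (w a)) := by
  unfold PS.cs
  fun_prop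

@[fun_prop]
theorem Poly.csubst {x : α → Nm} {c : α → Bool} {G : α → Fm} (hx : Poly x) (hc : Poly c)
    (hG : Poly G) : Poly (fun a => (G a).subst (PS.cs (x a) (c a))) :=
  Poly.substP (s := fun a => PS.cs (x a) (c a)) (by fun_prop) hG

/-! ### Conjunctions and disjunctions -/

theorem sz_ct (x : Nm) (c : Bool) : sz (ct x c) ≤ 2 * sz x + 25 := by
  unfold ct
  split_ifs
  · rw [sz_imp, sz_var]; omega
  · rw [sz_neg, sz_imp, sz_var]; omega

theorem sz_cj (d : Nm) (Γ : List Fm) : sz (cj d Γ) ≤ 2 * sz d + 25 + 7 * sz Γ := by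
  induction Γ with
  | nil => rw [cj_nil]; have := sz_ct d true; omega
  | cons A Γ ih =>
    rw [cj_cons, sz_and, sz_lcons]
    have := sz_pos A
    omega

theorem sz_dj (d : Nm) (Γ : List Fm) : sz (dj d Γ) ≤ 2 * sz d + 25 + 9 * sz Γ := by
  induction Γ with
  | nil => rw [dj_nil]; have := sz_ct d false; omega
  | cons A Γ ih =>
    rw [dj_cons, sz_or, sz_lcons]
    have := sz_pos A
    omega

@[fun_prop]
theorem Poly.cj {d : α → Nm} {Γ : α → List Fm} (hd : Poly d) (hΓ : Poly Γ) :
    Poly (fun a => cj (d a) (Γ a)) := by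
  unfold PS.cj
  refine Poly.foldr (f := fun p : α × Fm × Fm => Fm.and p.2.2 p.2.1)
    (s0 := fun a => PS.ct (d a) true) (B := fun a => 2 * sz (d a) + 25 + 7 * sz (Γ a))
    (by fun_prop) hΓ (by fun_prop)
    ((((PBdd.const 2).mul hd.sz_le).add (PBdd.const 25)).add ((PBdd.const 7).mul hΓ.sz_le)) ?_
  intro a l₁ l₂ h
  have h1 := sz_cj (d a) l₂
  have h2 : sz l₂ ≤ sz (Γ a) := by
    rw [h]; exact sz_sublist_le (List.sublist_append_right _ _)
  have h3 : l₂.foldr (fun b s => (fun p : α × Fm × Fm => Fm.and p.2.2 p.2.1) (a, s, b))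
      (PS.ct (d a) true) = PS.cj (d a) l₂ := rfl
  rw [h3]
  omega

@[fun_prop]
theorem Poly.dj {d : α → Nm} {Γ : α → List Fm} (hd : Poly d) (hΓ : Poly Γ) :
    Poly (fun a => dj (d a) (Γ a)) := by
  unfold PS.dj
  refine Poly.foldr (f := fun p : α × Fm × Fm => Fm.or p.2.2 p.2.1)
    (s0 := fun a => PS.ct (d a) false) (B := fun a => 2 * sz (d a) + 25 + 9 * sz (Γ a))
    (by fun_prop) hΓ (by fun_prop)
    ((((PBdd.const 2).mul hd.sz_le).add (PBdd.const 25)).add ((PBdd.const 9).mul hΓ.sz_le)) ?_
  intro a l₁ l₂ h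
  have h1 := sz_dj (d a) l₂
  have h2 : sz l₂ ≤ sz (Γ a) := by
    rw [h]; exact sz_sublist_le (List.sublist_append_right _ _)
  have h3 : l₂.foldr (fun b s => (fun p : α × Fm × Fm => Fm.or p.2.2 p.2.1) (a, s, b))
      (PS.ct (d a) false) = PS.dj (d a) l₂ := rfl
  rw [h3]
  omega

/-- The fold that computes the conjuncts. -/
def andsF : Fm → Fm × List Fm :=
  fmFold (fun w => (Fm.var w, [Fm.var w])) (fun p => (Fm.neg p.1, [Fm.neg p.1]))
    (fun n p q => (conn n p.1 q.1,
      if n = 2 then conn n p.1 q.1 :: (p.2 ++ q.2) else [conn n p.1 q.1]))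

theorem andsF_eq (A : Fm) : andsF A = (A, ands A) := by
  induction A with
  | var w => rfl
  | neg A ih =>
    show (Fm.neg (andsF A).1, [Fm.neg (andsF A).1]) = _
    rw [ih]; rfl
  | and A B ih1 ih2 =>
    show (conn 2 (andsF A).1 (andsF B).1, if 2 = 2 then
      conn 2 (andsF A).1 (andsF B).1 :: ((andsF A).2 ++ (andsF B).2) else _) = _
    rw [ih1, ih2]; rfl
  | or A B ih1 ih2 =>
    show (conn 3 (andsF A).1 (andsF B).1, if 3 = 2 then _ else
      [conn 3 (andsF A).1 (andsF B).1]) = _
    rw [ih1, ih2]; rfl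
  | imp A B ih1 ih2 =>
    show (conn 4 (andsF A).1 (andsF B).1, if 4 = 2 then _ else
      [conn 4 (andsF A).1 (andsF B).1]) = _
    rw [ih1, ih2]; rfl

theorem ands_sublist (A : Fm) : (ands A).Sublist (subs A) := by
  induction A with
  | var w => exact List.Sublist.refl _
  | neg A ih => simp [ands, subs]
  | and A B ih1 ih2 => exact List.Sublist.cons_cons _ (List.Sublist.append ih1 ih2)
  | or A B ih1 ih2 => simp [ands, subs]
  | imp A B ih1 ih2 => simp [ands, subs]

@[fun_prop]
theorem Poly.ands {G : α → Fm} (hG : Poly G) : Poly (fun a => ands (G a)) := by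
  have key := Poly.ofFold (gv := fun _ w => (Fm.var w, [Fm.var w]))
    (gn := fun _ p => (Fm.neg p.1, [Fm.neg p.1]))
    (g2 := fun _ n p q => (PS.conn n p.1 q.1,
      if n = 2 then PS.conn n p.1 q.1 :: (p.2 ++ q.2) else [PS.conn n p.1 q.1]))
    (B := fun a => sz (G a) + (sz (G a) * (sz (G a) + 1) + 1) + 1) hG (by fun_prop)
    (by fun_prop)
    (by fun_prop)
    ((hG.sz_le.add ((hG.sz_le.mul (hG.sz_le.add (PBdd.const 1))).add (PBdd.const 1))).add
      (PBdd.const 1)) (by
      intro a A hA
      have e := andsF_eq A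
      unfold andsF at e
      rw [e, sz_pair]
      have h0 := sz_sublist_le (ands_sublist A)
      have h1 := sz_subs_le A
      have h2 := sz_le_of_mem_subs hA
      have h3 : sz A * (sz A + 1) ≤ sz (G a) * (sz (G a) + 1) := by gcongr
      omega)
  have h2 : Poly (fun a => (andsF (G a)).2) := Poly.comp Poly.snd key
  simpa [andsF_eq] using h2

/-- The literal given by a list of tokens. -/
def litOf' (l : List (ℕ × List Bool)) : Option (Nm × Bool) :=
  match l with
  | [] => none
  | t :: l' => if t.1 = 0 then some (t.2, true) else if t.1 = 1 then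
      (match l' with
      | [] => none
      | t' :: _ => if t'.1 = 0 then some (t'.2, false) else none) else none

theorem litOf_pol (A : Fm) : litOf A = litOf' A.pol := by
  cases A with
  | var w => rfl
  | neg A => cases A <;> rfl
  | and A B => rfl
  | or A B => rfl
  | imp A B => rfl

@[fun_prop]
theorem Poly.litOf {G : α → Fm} (hG : Poly G) : Poly (fun a => litOf (G a)) := by
  have h1 : Poly (fun p : List (ℕ × List Bool) × (ℕ × List Bool) × List (ℕ × List Bool) =>
      if (p.2.2.headD (1, [])).1 = 0 then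
        (some ((p.2.2.headD (1, [])).2, false) : Option (Nm × Bool)) else none) := by
    fun_prop
  have h2 : Poly (fun p : List (ℕ × List Bool) × (ℕ × List Bool) × List (ℕ × List Bool) =>
      if p.2.1.1 = 0 then (some (p.2.1.2, true) : Option (Nm × Bool)) else
      if p.2.1.1 = 1 then (if (p.2.2.headD (1, [])).1 = 0 then
        (some ((p.2.2.headD (1, [])).2, false) : Option (Nm × Bool)) else none) else none) := by
    fun_prop
  have h3 := Poly.lcase (l := fun l : List (ℕ × List Bool) => l)
    (f := fun _ => (none : Option (Nm × Bool)))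
    (g := fun (_ : List (ℕ × List Bool)) (t : ℕ × List Bool) (l' : List (ℕ × List Bool)) =>
      if t.1 = 0 then (some (t.2, true) : Option (Nm × Bool)) else
      if t.1 = 1 then (if (l'.headD (1, [])).1 = 0 then
        (some ((l'.headD (1, [])).2, false) : Option (Nm × Bool)) else none) else none)
    (by fun_prop) (by fun_prop) h2
  have h0 : Poly (fun l : List (ℕ × List Bool) => litOf' l) := by
    refine (show (fun l : List (ℕ × List Bool) => litOf' l) = _ from ?_) ▸ h3
    funext l
    cases l with
    | nil => rfl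
    | cons t l => cases l <;> simp [litOf']
  have h1 : Poly (fun a => litOf' (G a).pol) :=
    Poly.comp (f := fun l => litOf' l) h0 (Poly.polOf hG)
  simpa [litOf_pol] using h1

@[fun_prop]
theorem Poly.litsOf {G : α → Fm} (hG : Poly G) : Poly (fun a => litsOf (G a)) := by
  unfold PS.litsOf
  fun_prop

@[fun_prop]
theorem Poly.lk {K : α → List (Nm × Bool)} {x : α → Nm} (hK : Poly K) (hx : Poly x) :
    Poly (fun a => lk (K a) (x a)) := by
  unfold PS.lk
  exact Poly.omap (f := fun _ (p : Nm × Bool) => p.2) (by fun_prop) (by fun_prop)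

/-! ### Simplification -/

theorem negS_pol (R : Fm) : (negS R).pol =
    if (R.pol.headD (0, [])).1 = 1 then R.pol.tail else (1, []) :: R.pol := by
  cases R <;> simp [negS, Fm.pol]

@[fun_prop]
theorem Poly.negS {G : α → Fm} (hG : Poly G) : Poly (fun a => negS (G a)) := by
  refine Poly.ofPol ?_
  have h1 := Poly.polOf hG
  have : Poly (fun a => if ((G a).pol.headD (0, [])).1 = 1 then (G a).pol.tail
    else ((1 : ℕ), ([] : List Bool)) :: (G a).pol) := by fun_prop
  simpa [negS_pol] using this

theorem smV_eq (K : List (Nm × Bool)) (w : Nm) : smV K w =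
    if lk K w = some true then (some true, Fm.var []) else
    if lk K w = some false then (some false, Fm.var []) else (none, Fm.var w) := by
  unfold smV
  rcases lk K w with _ | _ | _ <;> simp

theorem smN_eq (p : Option Bool × Fm) : smN p =
    if p.1 = some true then (some false, Fm.var []) else
    if p.1 = some false then (some true, Fm.var []) else (none, negS p.2) := by
  unfold smN
  rcases p with ⟨_ | _ | _, R⟩ <;> simp

theorem smAnd_eq (p q : Option Bool × Fm) : smAnd p q =
    if p.1 = some false then (some false, Fm.var []) else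
    if p.1 = some true then q else
    if q.1 = some false then (some false, Fm.var []) else
    if q.1 = some true then p else (none, Fm.and p.2 q.2) := by
  unfold smAnd
  rcases p with ⟨_ | _ | _, R⟩ <;> rcases q with ⟨_ | _ | _, S⟩ <;> simp

theorem smOr_eq (p q : Option Bool × Fm) : smOr p q =
    if p.1 = some true then (some true, Fm.var []) else
    if p.1 = some false then q else
    if q.1 = some true then (some true, Fm.var []) else
    if q.1 = some false then p else (none, Fm.or p.2 q.2) := by
  unfold smOr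
  rcases p with ⟨_ | _ | _, R⟩ <;> rcases q with ⟨_ | _ | _, S⟩ <;> simp

theorem smImp_eq (p q : Option Bool × Fm) : smImp p q =
    if p.1 = some false then (some true, Fm.var []) else
    if p.1 = some true then q else
    if q.1 = some true then (some true, Fm.var []) else
    if q.1 = some false then (none, Fm.neg p.2) else
    if p.2 = q.2 then (some true, Fm.var []) else (none, Fm.imp p.2 q.2) := by
  unfold smImp
  rcases p with ⟨_ | _ | _, R⟩ <;> rcases q with ⟨_ | _ | _, S⟩ <;> simp

theorem Poly.ifOb {x : α → Option Bool} (c : Option Bool) {f g : α → β} (hx : Poly x)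
    (hf : Poly f) (hg : Poly g) : Poly (fun a => if x a = c then f a else g a) :=
  Poly.ite (c := fun a => x a = c) (Poly.decEq hx (PT.Poly.const c)) hf hg

@[fun_prop]
theorem Poly.smV {K : α → List (Nm × Bool)} {w : α → Nm} (hK : Poly K) (hw : Poly w) :
    Poly (fun a => smV (K a) (w a)) := by
  simp only [smV_eq]
  exact Poly.ifOb _ (by fun_prop) (by fun_prop) (Poly.ifOb _ (by fun_prop) (by fun_prop)
    (by fun_prop))

@[fun_prop]
theorem Poly.smN {p : α → Option Bool × Fm} (hp : Poly p) : Poly (fun a => smN (p a)) := by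
  simp only [smN_eq]
  exact Poly.ifOb _ (by fun_prop) (by fun_prop) (Poly.ifOb _ (by fun_prop) (by fun_prop)
    (by fun_prop))

@[fun_prop]
theorem Poly.smAnd {p q : α → Option Bool × Fm} (hp : Poly p) (hq : Poly q) :
    Poly (fun a => smAnd (p a) (q a)) := by
  simp only [smAnd_eq]
  have h1 : Poly (fun a => (p a).1) := by fun_prop
  have h2 : Poly (fun a => (q a).1) := by fun_prop
  exact Poly.ifOb _ h1 (PT.Poly.const _) (Poly.ifOb _ h1 hq (Poly.ifOb _ h2 (PT.Poly.const _)
    (Poly.ifOb _ h2 hp (Poly.pair (PT.Poly.const _) (by fun_prop)))))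

@[fun_prop]
theorem Poly.smOr {p q : α → Option Bool × Fm} (hp : Poly p) (hq : Poly q) :
    Poly (fun a => smOr (p a) (q a)) := by
  simp only [smOr_eq]
  have h1 : Poly (fun a => (p a).1) := by fun_prop
  have h2 : Poly (fun a => (q a).1) := by fun_prop
  exact Poly.ifOb _ h1 (PT.Poly.const _) (Poly.ifOb _ h1 hq (Poly.ifOb _ h2 (PT.Poly.const _)
    (Poly.ifOb _ h2 hp (Poly.pair (PT.Poly.const _) (by fun_prop)))))

@[fun_prop]
theorem Poly.smImp {p q : α → Option Bool × Fm} (hp : Poly p) (hq : Poly q) :
    Poly (fun a => smImp (p a) (q a)) := by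
  simp only [smImp_eq]
  have h1 : Poly (fun a => (p a).1) := by fun_prop
  have h2 : Poly (fun a => (q a).1) := by fun_prop
  have h3 : Poly (fun a => (p a).2) := by fun_prop
  have h4 : Poly (fun a => (q a).2) := by fun_prop
  exact Poly.ifOb _ h1 (PT.Poly.const _) (Poly.ifOb _ h1 hq (Poly.ifOb _ h2 (PT.Poly.const _)
    (Poly.ifOb _ h2 (Poly.pair (PT.Poly.const _) (Poly.fmNeg h3))
    (Poly.ite (c := fun a => (p a).2 = (q a).2) (Poly.decEq h3 h4) (PT.Poly.const _)
      (Poly.pair (PT.Poly.const _) (Poly.fmImp h3 h4))))))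

@[fun_prop]
theorem Poly.smB {n : α → ℕ} {p q : α → Option Bool × Fm} (hn : Poly n) (hp : Poly p)
    (hq : Poly q) : Poly (fun a => smB (n a) (p a) (q a)) := by
  unfold PS.smB
  fun_prop

theorem sz_ge_five (A : Fm) : 5 ≤ sz A := by
  induction A with
  | var w => rw [sz_var]; have := sz_pos w; omega
  | neg A ih => rw [sz_neg]; omega
  | and A B ih1 ih2 => rw [sz_and]; omega
  | or A B ih1 ih2 => rw [sz_or]; omega
  | imp A B ih1 ih2 => rw [sz_imp]; omega

theorem sz_var_nil : sz (Fm.var []) = 5 := by rw [sz_var, sz_lnil]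

theorem sz_negS (R : Fm) : sz (negS R) ≤ sz R + 6 := by
  cases R <;> simp only [negS, sz_neg] <;> omega

theorem sz_sm (K : List (Nm × Bool)) (A : Fm) : sz (sm K A).2 ≤ sz A := by
  induction A with
  | var w =>
    rw [sm_var, smV_eq]
    have := sz_ge_five (Fm.var w)
    split_ifs
    · rw [sz_var_nil]; exact this
    · rw [sz_var_nil]; exact this
    · exact le_rfl
  | neg A ih =>
    rw [sm_neg, smN_eq, sz_neg]
    have h1 := sz_ge_five A
    have h2 := sz_negS (sm K A).2
    split_ifs
    · rw [sz_var_nil]; omega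
    · rw [sz_var_nil]; omega
    · simp only; omega
  | and A B ih1 ih2 =>
    rw [sm_and, smAnd_eq, sz_and]
    have h1 := sz_ge_five A
    split_ifs
    · rw [sz_var_nil]; omega
    · omega
    · rw [sz_var_nil]; omega
    · omega
    · simp only [sz_and]; omega
  | or A B ih1 ih2 =>
    rw [sm_or, smOr_eq, sz_or]
    have h1 := sz_ge_five A
    split_ifs
    · rw [sz_var_nil]; omega
    · omega
    · rw [sz_var_nil]; omega
    · omega
    · simp only [sz_or]; omega
  | imp A B ih1 ih2 =>
    rw [sm_imp, smImp_eq, sz_imp]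
    have h1 := sz_ge_five A
    split_ifs
    · rw [sz_var_nil]; omega
    · omega
    · rw [sz_var_nil]; omega
    · simp only [sz_neg]; omega
    · rw [sz_var_nil]; omega
    · simp only [sz_imp]; omega

theorem sz_ob (o : Option Bool) : sz o ≤ 5 := by
  rcases o with _ | _ | _ <;> simp [sz_some]

@[fun_prop]
theorem Poly.sm {K : α → List (Nm × Bool)} {G : α → Fm} (hK : Poly K) (hG : Poly G) :
    Poly (fun a => sm (K a) (G a)) := by
  unfold PS.sm
  refine Poly.ofFold (gv := fun a w => PS.smV (K a) w)
    (gn := fun _ p => PS.smN p) (g2 := fun _ n p q => PS.smB n p q)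
    (B := fun a => sz (G a) + 6) hG (by fun_prop) (by fun_prop) (by fun_prop)
    (hG.sz_le.add (PBdd.const 6)) ?_
  intro a A hA
  have h1 := sz_sm (K a) A
  have h2 := sz_le_of_mem_subs hA
  have h3 := sz_ob (PS.sm (K a) A).1
  have h4 : sz (PS.sm (K a) A) = sz (PS.sm (K a) A).1 + sz (PS.sm (K a) A).2 + 1 := sz_prod _
  change sz (PS.sm (K a) A) ≤ sz (G a) + 6
  omega

theorem stl_eq (H X : Fm) (p : Option Bool × Fm) : stl H X p =
    if p.1 = some true then Fm.imp H X else
    if p.1 = some false then Fm.imp H (Fm.neg X) else Fm.imp H (Fm.iff X p.2) := by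
  unfold stl
  rcases p with ⟨_ | _ | _, R⟩ <;> simp

@[fun_prop]
theorem Poly.stl {H X : α → Fm} {p : α → Option Bool × Fm} (hH : Poly H) (hX : Poly X)
    (hp : Poly p) : Poly (fun a => stl (H a) (X a) (p a)) := by
  simp only [stl_eq]
  fun_prop

@[fun_prop]
theorem Poly.smL {H A : α → Fm} {K : α → List (Nm × Bool)} (hH : Poly H) (hK : Poly K)
    (hA : Poly A) : Poly (fun a => smL (H a) (K a) (A a)) := by
  unfold PS.smL
  fun_prop

@[fun_prop]
theorem Poly.projL {H : α → Fm} (hH : Poly H) : Poly (fun a => projL (H a)) := by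
  unfold PS.projL
  fun_prop

@[fun_prop]
theorem Poly.hypL {H H' : α → Fm} (hH : Poly H) (hH' : Poly H') :
    Poly (fun a => hypL (H a) (H' a)) := by
  unfold PS.hypL
  fun_prop

@[fun_prop]
theorem Poly.li {H H' A B : α → Fm} (hH : Poly H) (hH' : Poly H') (hA : Poly A)
    (hB : Poly B) : Poly (fun a => li (H a) (H' a) (A a) (B a)) := by
  unfold PS.li
  fun_prop

@[fun_prop]
theorem Poly.li0 {d : α → Nm} {H A B : α → Fm} (hd : Poly d) (hH : Poly H) (hA : Poly A)
    (hB : Poly B) : Poly (fun a => li0 (d a) (H a) (A a) (B a)) := by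
  unfold PS.li0
  fun_prop

/-- Equivalences between two instances, for substitutions computable in polynomial time. -/
theorem Poly.replL {H S : α → Fm} {s t : α → Nm → Fm} (hH : Poly H) (hS : Poly S)
    (hs : Poly (fun p : α × Nm => s p.1 p.2)) (ht : Poly (fun p : α × Nm => t p.1 p.2)) :
    Poly (fun a => replL (H a) (S a) (s a) (t a)) := by
  unfold PS.replL
  refine PT.Poly.map ?_ (by fun_prop)
  have h1 : Poly (fun p : α × Fm => p.2.subst (s p.1)) := by
    refine Poly.substP (s := fun p : α × Fm => s p.1) (G := fun p : α × Fm => p.2) ?_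
      (by fun_prop)
    exact Poly.comp (f := fun p : α × Nm => s p.1 p.2)
      (g := fun p : (α × Fm) × Nm => (p.1.1, p.2)) hs (by fun_prop)
  have h2 : Poly (fun p : α × Fm => p.2.subst (t p.1)) := by
    refine Poly.substP (s := fun p : α × Fm => t p.1) (G := fun p : α × Fm => p.2) ?_
      (by fun_prop)
    exact Poly.comp (f := fun p : α × Nm => t p.1 p.2)
      (g := fun p : (α × Fm) × Nm => (p.1.1, p.2)) ht (by fun_prop)
  fun_prop

theorem sfx_eq_sp : ∀ (l pre : List Fm), sfx l =
    [] :: (sp pre l).reverse.map (fun p => p.2.1 :: p.2.2) := by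
  intro l
  induction l with
  | nil => intro pre; simp [sfx, sp]
  | cons A l ih => intro pre; rw [sfx, ih (pre ++ [A]), sp]; simp

@[fun_prop]
theorem Poly.sfx {l : α → List Fm} (hl : Poly l) : Poly (fun a => sfx (l a)) := by
  have : Poly (fun a => [] :: (PS.sp [] (l a)).reverse.map (fun p => p.2.1 :: p.2.2)) := by
    fun_prop
  refine (show (fun a => PS.sfx (l a)) = _ from ?_) ▸ this
  funext a
  exact sfx_eq_sp _ _

@[fun_prop]
theorem Poly.caseL {d : α → Nm} {H A : α → Fm} {Xs : α → List Fm} (hd : Poly d) (hH : Poly H)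
    (hA : Poly A) (hX : Poly Xs) : Poly (fun a => caseL (d a) (H a) (A a) (Xs a)) := by
  unfold PS.caseL
  fun_prop

theorem sz_lit (x : Nm) (b : Bool) : sz (lit x b) ≤ sz x + 10 := by
  unfold lit
  split_ifs
  · rw [sz_var]; omega
  · rw [sz_neg, sz_var]

theorem sz_lwf (H : Fm) (l : List (Nm × Bool)) :
    sz (l.foldr (fun p X => Fm.and (lit p.1 p.2) X) H) ≤ sz H + 9 * sz l := by
  induction l with
  | nil => simp only [List.foldr_nil]; omega
  | cons p l ih =>
    rw [List.foldr_cons, sz_and, sz_lcons]
    have h1 := sz_lit p.1 p.2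
    have h2 : sz p = sz p.1 + sz p.2 + 1 := sz_prod _
    have h3 := sz_pos p.2
    have h4 := sz_pos p.1
    omega

@[fun_prop]
theorem Poly.lw {H : α → Fm} {ys : α → List Nm} {w : α → List Bool} (hH : Poly H)
    (hy : Poly ys) (hw : Poly w) : Poly (fun a => lw (H a) (ys a) (w a)) := by
  unfold PS.lw
  refine Poly.foldr (f := fun p : α × Fm × (Nm × Bool) => Fm.and (PS.lit p.2.2.1 p.2.2.2) p.2.1)
    (l := fun a => (ys a).zip (w a)) (s0 := H)
    (B := fun a => sz (H a) + 9 * sz ((ys a).zip (w a)))
    (by fun_prop) (by fun_prop) hH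
    (hH.sz_le.add ((PBdd.const 9).mul (Poly.sz_le (by fun_prop)))) ?_
  intro a l₁ l₂ h
  have h1 := sz_lwf (H a) l₂
  have h2 : sz l₂ ≤ sz ((ys a).zip (w a)) := by
    rw [h]; exact sz_sublist_le (List.sublist_append_right _ _)
  have h3 : l₂.foldr (fun b s => (fun p : α × Fm × (Nm × Bool) =>
      Fm.and (PS.lit p.2.2.1 p.2.2.2) p.2.1) (a, s, b)) (H a) =
      l₂.foldr (fun p X => Fm.and (PS.lit p.1 p.2) X) (H a) := rfl
  rw [h3]
  omega

theorem splitL_eq_sp (H A : Fm) (W : List (List Bool)) : ∀ (ys pre : List Nm),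
    splitL H A ys (W.map (fun w => w.drop pre.length)) =
    (sp pre ys).flatMap (fun p =>
      W.map (fun w => Fm.imp (lw H p.2.2 (w.drop (p.1.length + 1))) A)) := by
  intro ys
  induction ys with
  | nil => intro pre; simp [splitL, sp]
  | cons y ys ih =>
    intro pre
    have h1 : (W.map (fun w => w.drop pre.length)).map List.tail =
        W.map (fun w => w.drop (pre ++ [y]).length) := by
      simp [List.tail_drop]
    rw [splitL, h1, ih (pre ++ [y]), sp, List.flatMap_cons]
    congr 1
    simp

@[fun_prop]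
theorem Poly.splitL {H A : α → Fm} {ys : α → List Nm} {W : α → List (List Bool)} (hH : Poly H)
    (hA : Poly A) (hy : Poly ys) (hW : Poly W) :
    Poly (fun a => splitL (H a) (A a) (ys a) (W a)) := by
  have : Poly (fun a => (PS.sp [] (ys a)).flatMap (fun p =>
      (W a).map (fun w => Fm.imp (PS.lw (H a) p.2.2 (w.drop (p.1.length + 1))) (A a)))) := by
    fun_prop
  refine (show (fun a => PS.splitL (H a) (A a) (ys a) (W a)) = _ from ?_) ▸ this
  funext a
  have h := splitL_eq_sp (H a) (A a) (W a) (ys a) []
  simpa using h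

/-! ### Names, registers, blocks -/

@[fun_prop]
theorem Poly.eqr {d : α → Nm} {ys : α → List Nm} {w : α → List Bool} (hd : Poly d)
    (hy : Poly ys) (hw : Poly w) : Poly (fun a => eqr (d a) (ys a) (w a)) := by
  unfold PS.eqr
  fun_prop

@[fun_prop]
theorem Poly.anyr {d : α → Nm} {rs : α → List (List Nm)} {w : α → List Bool} (hd : Poly d)
    (hr : Poly rs) (hw : Poly w) : Poly (fun a => anyr (d a) (rs a) (w a)) := by
  unfold PS.anyr
  fun_prop

@[fun_prop]
theorem Poly.regT {d : α → Nm} {rs : α → List (List Nm)} {c : α → List (Nm × List Bool)}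
    (hd : Poly d) (hr : Poly rs) (hc : Poly c) : Poly (fun a => regT (d a) (rs a) (c a)) := by
  unfold PS.regT
  fun_prop

@[fun_prop]
theorem Poly.zoff {L J : α → ℕ} {W : α → List (List Bool)} (hL : Poly L) (hJ : Poly J)
    (hW : Poly W) : Poly (fun a => zoff (L a) (J a) (W a)) := by
  unfold PS.zoff
  fun_prop

@[fun_prop]
theorem Poly.zat {L J : α → ℕ} {W : α → List (List Bool)} {v : α → List Bool} (hL : Poly L)
    (hJ : Poly J) (hW : Poly W) (hv : Poly v) :
    Poly (fun a => zat (L a) (J a) (W a) (v a)) := by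
  unfold PS.zat
  fun_prop

@[fun_prop]
theorem Poly.zone {d : α → Nm} {L J : α → ℕ} {W : α → List (List Bool)} (hd : Poly d)
    (hL : Poly L) (hJ : Poly J) (hW : Poly W) :
    Poly (fun a => zone (d a) (L a) (J a) (W a)) := by
  unfold PS.zone
  fun_prop

@[fun_prop]
theorem Poly.zbit {d : α → Nm} {L J : α → ℕ} {W : α → List (List Bool)} {i : α → ℕ}
    (hd : Poly d) (hL : Poly L) (hJ : Poly J) (hW : Poly W) (hi : Poly i) :
    Poly (fun a => zbit (d a) (L a) (J a) (W a) (i a)) := by
  unfold PS.zbit
  fun_prop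

@[fun_prop]
theorem Poly.zeq {d : α → Nm} {L J : α → ℕ} {W : α → List (List Bool)} {w : α → List Bool}
    (hd : Poly d) (hL : Poly L) (hJ : Poly J) (hW : Poly W) (hw : Poly w) :
    Poly (fun a => zeq (d a) (L a) (J a) (W a) (w a)) := by
  unfold PS.zeq
  fun_prop

@[fun_prop]
theorem Poly.GH {d : α → Nm} {L n : α → ℕ} {W : α → List (List Bool)} (hd : Poly d)
    (hL : Poly L) (hW : Poly W) (hn : Poly n) :
    Poly (fun a => GH (d a) (L a) (W a) (n a)) := by
  unfold PS.GH
  fun_prop

@[fun_prop]
theorem Poly.tblD {d : α → Nm} {L : α → ℕ} {W : α → List (List Bool)}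
    {bl : α → List (List Nm)} (hd : Poly d) (hL : Poly L) (hW : Poly W) (hb : Poly bl) :
    Poly (fun a => tblD (d a) (L a) (W a) (bl a)) := by
  unfold PS.tblD
  fun_prop

@[fun_prop]
theorem Poly.AW {d : α → Nm} {rs : α → List (List Nm)} {c : α → List (Nm × List Bool)}
    {A : α → Fm} (hd : Poly d) (hr : Poly rs) (hc : Poly c) (hA : Poly A) :
    Poly (fun a => AW (d a) (rs a) (c a) (A a)) := by
  unfold PS.AW
  fun_prop

@[fun_prop]
theorem Poly.AZ {d : α → Nm} {L n : α → ℕ} {W : α → List (List Bool)}
    {c : α → List (Nm × List Bool)} {A : α → Fm} (hd : Poly d) (hL : Poly L) (hW : Poly W)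
    (hc : Poly c) (hn : Poly n) (hA : Poly A) :
    Poly (fun a => AZ (d a) (L a) (W a) (c a) (n a) (A a)) := by
  unfold PS.AZ
  fun_prop

/-- The formula after exchanging two variables. -/
theorem Poly.swapSubst {x y : α → Nm} {G : α → Fm} (hx : Poly x) (hy : Poly y) (hG : Poly G) :
    Poly (fun a => (G a).subst (fun w => Fm.var (Equiv.swap (x a) (y a) w))) := by
  refine Poly.substP (s := fun a w => Fm.var (Equiv.swap (x a) (y a) w)) ?_ hG
  have : Poly (fun p : α × Nm => Fm.var (if p.2 = x p.1 then y p.1 else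
      if p.2 = y p.1 then x p.1 else p.2)) := by fun_prop
  simpa [Equiv.swap_apply_def] using this

end

end Pool.Agent.H.MP_0447ec_lc.PS
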