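import Pool.Agent.H.MP_0447ec_lc.LV.Base
import Pool.Agent.H.MP_0447ec_lc.LV.EnginePoly

/-!
# The last step of the register form

`xb` is a list of blocks of `b` names each, containing all variables of `A`; the block version of
`A` is `A.subst (tsub (tblD d L V xb))` (bit `i` of block `j` is
`dj d (var (fn L j v) : v ∈ V, v_i = true)`). In it every variable `u` was replaced by the
statement `anyr d regs (code u)`, `regs = zipWith (++) tb xb` (register `l` consists of the
prefix bits `tb[l]` and the names `xb[l]` of block `l` themselves). Now the prefix bits of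
register `l` are replaced by the constants `pre[l]`, and then `A` follows.

Algorithm. `X0` = the given line. Let `ps = (zipWith zip tb pre).flatten` (pairs of a name and a
bit). Emit the chain of constant substitutions `X_{k+1} = X_k.subst (cs ps[k].1 ps[k].2)`; the
last one is `X0.subst (tsub (ps.map (fun p => (p.1, ct p.1 p.2))))`.
This is `Z_0`, where `Z_J := A.subst s_J`, `s_J x = var x` for `x` in the blocks `< J` and
`s_J x = ((tsub (tblD d L V xb) x).subst (tsub (regT ..))).subst (constants)` for the other names.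
For `J < xb.length`: for every `v0 ∈ V` emit `li0 d (lw (ct d true) xb[J] v0) Z_J Z_{J+1}`;
then `splitL (ct d true) Z_{J+1} xb[J] V` and the line `Z_{J+1}` (`Rich.strip`).
`Z_{xb.length} = A`.

Condition of `li0_just`, `K = litsOf (lw (ct d true) xb[J] v0)`: only the names of block `J`
differ. For such a name `x` with index `i`: `sm K (var x) = some (v0.getD i false)`, and
`s_J x` is the disjunction over `v ∈ V` with `v_i = true` and over the registers `l` of
`eqr d (tb[l] ++ xb[l]) (pre[J] ++ v)` with the prefix bits replaced by `pre[l]`: for `l ≠ J`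
some prefix bit gives a false member, so the conjunction is false (a conjunction with a false
member is false, whatever the other members are); for `l = J` the prefix part is true and the
other part has the value `decide (v = v0)`. (The variables `fn L J v` are in `cd` by hypothesis,
and the dummy `d` inside `dj d` becomes some formula `D` in `neg (imp D D)`, of value false.)
-/

namespace Pool.Agent.H.MP_0447ec_lc.PS

open Fm

/-! ### Variables of the lines of the calculus -/

/-- All variables of `A` satisfy `P`. -/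
def Fin_vs (P : Nm → Prop) (A : Fm) : Prop := ∀ x ∈ A.vars, P x

section fin_vs

variable {P : Nm → Prop} {A B H : Fm} {d x : Nm}

theorem Fin_vs_var : Fin_vs P (var x) ↔ P x := by simp [Fin_vs, Fm.vars]
theorem Fin_vs_neg : Fin_vs P (neg A) ↔ Fin_vs P A := Iff.rfl
theorem Fin_vs_and : Fin_vs P (Fm.and A B) ↔ Fin_vs P A ∧ Fin_vs P B := by
  simp [Fin_vs, Fm.vars, or_imp, forall_and]
theorem Fin_vs_or : Fin_vs P (Fm.or A B) ↔ Fin_vs P A ∧ Fin_vs P B := by
  simp [Fin_vs, Fm.vars, or_imp, forall_and]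
theorem Fin_vs_imp : Fin_vs P (imp A B) ↔ Fin_vs P A ∧ Fin_vs P B := by
  simp [Fin_vs, Fm.vars, or_imp, forall_and]
theorem Fin_vs_iff : Fin_vs P (Fm.iff A B) ↔ Fin_vs P A ∧ Fin_vs P B := by
  rw [Fm.iff, Fin_vs_and, Fin_vs_imp, Fin_vs_imp]; tauto
theorem Fin_vs_ct {c : Bool} : Fin_vs P (ct x c) ↔ P x := by
  cases c <;> simp [ct, Fin_vs_neg, Fin_vs_imp, Fin_vs_var]
theorem Fin_vs_lit {c : Bool} : Fin_vs P (lit x c) ↔ P x := by
  cases c <;> simp [lit, Fin_vs_neg, Fin_vs_var]

theorem Fin_vs_cj {Γ : List Fm} (hd : P d) (h : ∀ A ∈ Γ, Fin_vs P A) : Fin_vs P (cj d Γ) := by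
  induction Γ with
  | nil => rw [cj_nil]; exact Fin_vs_ct.2 hd
  | cons A Γ ih =>
    rw [cj_cons, Fin_vs_and]
    exact ⟨h A (by simp), ih fun B hB => h B (List.mem_cons_of_mem _ hB)⟩

theorem Fin_vs_dj {Γ : List Fm} (hd : P d) (h : ∀ A ∈ Γ, Fin_vs P A) : Fin_vs P (dj d Γ) := by
  induction Γ with
  | nil => rw [dj_nil]; exact Fin_vs_ct.2 hd
  | cons A Γ ih =>
    rw [dj_cons, Fin_vs_or]
    exact ⟨h A (by simp), ih fun B hB => h B (List.mem_cons_of_mem _ hB)⟩

theorem Fin_vs_subst {s : Nm → Fm} (h : ∀ x ∈ A.vars, Fin_vs P (s x)) :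
    Fin_vs P (A.subst s) := by
  induction A with
  | var n => exact h n rfl
  | neg A ih => exact Fin_vs_neg.2 (ih h)
  | and A B ih1 ih2 =>
    exact Fin_vs_and.2 ⟨ih1 fun x hx => h x (Or.inl hx), ih2 fun x hx => h x (Or.inr hx)⟩
  | or A B ih1 ih2 =>
    exact Fin_vs_or.2 ⟨ih1 fun x hx => h x (Or.inl hx), ih2 fun x hx => h x (Or.inr hx)⟩
  | imp A B ih1 ih2 =>
    exact Fin_vs_imp.2 ⟨ih1 fun x hx => h x (Or.inl hx), ih2 fun x hx => h x (Or.inr hx)⟩

theorem Fin_vs_subs {G : Fm} (h : Fin_vs P A) (hG : G ∈ subs A) : Fin_vs P G := by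
  induction A with
  | var n =>
    simp only [subs, List.mem_singleton] at hG
    rw [hG]; exact h
  | neg A ih =>
    simp only [subs, List.mem_cons] at hG
    rcases hG with rfl | hG
    · exact h
    · exact ih h hG
  | and A B ih1 ih2 =>
    simp only [subs, List.mem_cons, List.mem_append] at hG
    rcases hG with rfl | hG | hG
    · exact h
    · exact ih1 (Fin_vs_and.1 h).1 hG
    · exact ih2 (Fin_vs_and.1 h).2 hG
  | or A B ih1 ih2 =>
    simp only [subs, List.mem_cons, List.mem_append] at hG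
    rcases hG with rfl | hG | hG
    · exact h
    · exact ih1 (Fin_vs_or.1 h).1 hG
    · exact ih2 (Fin_vs_or.1 h).2 hG
  | imp A B ih1 ih2 =>
    simp only [subs, List.mem_cons, List.mem_append] at hG
    rcases hG with rfl | hG | hG
    · exact h
    · exact ih1 (Fin_vs_imp.1 h).1 hG
    · exact ih2 (Fin_vs_imp.1 h).2 hG

theorem Fin_vs_ands {G : Fm} (h : Fin_vs P A) (hG : G ∈ ands A) : Fin_vs P G := by
  induction A with
  | and A B ih1 ih2 =>
    simp only [ands, List.mem_cons, List.mem_append] at hG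
    rcases hG with rfl | hG | hG
    · exact h
    · exact ih1 (Fin_vs_and.1 h).1 hG
    · exact ih2 (Fin_vs_and.1 h).2 hG
  | _ =>
    simp only [ands, List.mem_singleton] at hG
    rw [hG]; exact h

theorem Fin_vs_sm {K : List (Nm × Bool)} (h : Fin_vs P A) (hn : (sm K A).1 = none) :
    Fin_vs P (sm K A).2 := by
  induction A with
  | var w =>
    rw [sm_var] at hn ⊢
    unfold smV at hn ⊢
    cases hl : lk K w with
    | none => exact h
    | some c => simp [hl] at hn
  | neg A ih =>
    rw [sm_neg] at hn ⊢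
    unfold smN at hn ⊢
    cases hl : (sm K A).1 with
    | none =>
      have h1 := ih h hl
      simp only
      revert h1
      generalize (sm K A).2 = R
      intro h1
      cases R <;> exact h1
    | some c => simp [hl] at hn
  | and A B ih1 ih2 =>
    rw [sm_and] at hn ⊢
    unfold smAnd at hn ⊢
    rw [Fin_vs_and] at h
    rcases h1 : (sm K A).1 with _ | _ | _ <;> rcases h2 : (sm K B).1 with _ | _ | _ <;>
      simp only [h1, h2, reduceCtorEq] at hn ⊢ <;>
      first
      | exact Fin_vs_and.2 ⟨ih1 h.1 h1, ih2 h.2 h2⟩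
      | exact ih1 h.1 h1
      | exact ih2 h.2 h2
  | or A B ih1 ih2 =>
    rw [sm_or] at hn ⊢
    unfold smOr at hn ⊢
    rw [Fin_vs_or] at h
    rcases h1 : (sm K A).1 with _ | _ | _ <;> rcases h2 : (sm K B).1 with _ | _ | _ <;>
      simp only [h1, h2, reduceCtorEq] at hn ⊢ <;>
      first
      | exact Fin_vs_or.2 ⟨ih1 h.1 h1, ih2 h.2 h2⟩
      | exact ih1 h.1 h1
      | exact ih2 h.2 h2
  | imp A B ih1 ih2 =>
    rw [sm_imp] at hn ⊢
    unfold smImp at hn ⊢
    rw [Fin_vs_imp] at h
    rcases h1 : (sm K A).1 with _ | _ | _ <;> rcases h2 : (sm K B).1 with _ | _ | _ <;>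
      simp only [h1, h2, reduceCtorEq] at hn ⊢ <;>
      first
      | exact Fin_vs_neg.2 (ih1 h.1 h1)
      | exact ih1 h.1 h1
      | exact ih2 h.2 h2
      | (split_ifs at hn ⊢ with h3
         · exact Fin_vs_imp.2 ⟨ih1 h.1 h1, ih2 h.2 h2⟩)

theorem Fin_vs_stl {K : List (Nm × Bool)} (hH : Fin_vs P H) (h : Fin_vs P A) :
    Fin_vs P (stl H A (sm K A)) := by
  unfold stl
  rcases h1 : (sm K A).1 with _ | _ | _
  · exact Fin_vs_imp.2 ⟨hH, Fin_vs_iff.2 ⟨h, Fin_vs_sm h h1⟩⟩
  · exact Fin_vs_imp.2 ⟨hH, h⟩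
  · exact Fin_vs_imp.2 ⟨hH, h⟩

theorem Fin_vs_smL {K : List (Nm × Bool)} (hH : Fin_vs P H) (h : Fin_vs P A) :
    ∀ C ∈ smL H K A, Fin_vs P C := by
  intro C hC
  simp only [smL, List.mem_map, List.mem_reverse] at hC
  obtain ⟨X, hX, rfl⟩ := hC
  exact Fin_vs_stl hH (Fin_vs_subs h hX)

theorem Fin_vs_projL (hH : Fin_vs P H) : ∀ C ∈ projL H, Fin_vs P C := by
  intro C hC
  simp only [projL, List.mem_map] at hC
  obtain ⟨X, hX, rfl⟩ := hC
  exact Fin_vs_imp.2 ⟨hH, Fin_vs_ands hH hX⟩

theorem Fin_vs_hypL {H' : Fm} (hH : Fin_vs P H) (hH' : Fin_vs P H') :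
    ∀ C ∈ hypL H H', Fin_vs P C := by
  intro C hC
  simp only [hypL, List.mem_flatMap, List.mem_reverse, List.mem_append,
    List.mem_singleton] at hC
  obtain ⟨X, hX, hC | rfl⟩ := hC
  · exact Fin_vs_smL hH (Fin_vs_ands hH' hX) C hC
  · exact Fin_vs_imp.2 ⟨hH, Fin_vs_ands hH' hX⟩

theorem Fin_vs_li {H' : Fm} (hH : Fin_vs P H) (hH' : Fin_vs P H') (hA : Fin_vs P A)
    (hB : Fin_vs P B) : ∀ C ∈ li H H' A B, Fin_vs P C := by
  intro C hC
  simp only [li, List.mem_append, List.mem_singleton] at hC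
  rcases hC with hC | hC | rfl | hC | hC | rfl
  · exact Fin_vs_projL hH C hC
  · exact Fin_vs_hypL hH hH' C hC
  · exact Fin_vs_imp.2 ⟨hH, hA⟩
  · exact Fin_vs_smL hH hA C hC
  · exact Fin_vs_smL hH hB C hC
  · exact Fin_vs_imp.2 ⟨hH, hB⟩

theorem Fin_vs_li0 (hd : P d) (hH : Fin_vs P H) (hA : Fin_vs P A) (hB : Fin_vs P B) :
    ∀ C ∈ li0 d H A B, Fin_vs P C := by
  intro C hC
  rcases List.mem_cons.1 hC with rfl | hC
  · exact Fin_vs_imp.2 ⟨Fin_vs_ct.2 hd, hA⟩
  · exact Fin_vs_li hH (Fin_vs_ct.2 hd) hA hB C hC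

theorem Fin_vs_lw (hH : Fin_vs P H) {ys : List Nm} (hy : ∀ y ∈ ys, P y) (w : List Bool) :
    Fin_vs P (lw H ys w) := by
  unfold lw
  have h : ∀ p ∈ ys.zip w, P p.1 := fun p hp => hy _ (List.of_mem_zip hp).1
  revert h
  generalize ys.zip w = l
  intro h
  induction l with
  | nil => exact hH
  | cons p l ih =>
    rw [List.foldr_cons, Fin_vs_and]
    exact ⟨Fin_vs_lit.2 (h p (by simp)), ih fun q hq => h q (List.mem_cons_of_mem _ hq)⟩

theorem Fin_vs_splitL (hH : Fin_vs P H) (hA : Fin_vs P A) {ys : List Nm} (hy : ∀ y ∈ ys, P y) :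
    ∀ (W : List (List Bool)), ∀ C ∈ splitL H A ys W, Fin_vs P C := by
  induction ys with
  | nil => intro W C hC; simp [splitL] at hC
  | cons y ys ih =>
    intro W C hC
    rw [splitL, List.mem_append, List.mem_map] at hC
    have hy' : ∀ y ∈ ys, P y := fun z hz => hy z (List.mem_cons_of_mem _ hz)
    rcases hC with ⟨w, -, rfl⟩ | hC
    · exact Fin_vs_imp.2 ⟨Fin_vs_lw hH hy' w, hA⟩
    · exact ih hy' _ C hC

end fin_vs

/-! ### Simplification of substituted conjunctions and disjunctions -/

section fin_sm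

variable {K : List (Nm × Bool)} {s : Nm → Fm} {d : Nm}

theorem Fin_sm_lit {x : Nm} {b c : Bool} (h : sm K (s x) = (some c, var [])) :
    sm K ((lit x b).subst s) = (some (c == b), var []) := by
  cases b
  · show smN (sm K (s x)) = _
    rw [h]
    cases c <;> rfl
  · show sm K (s x) = _
    rw [h]
    cases c <;> rfl

theorem Fin_sm_ct (c : Bool) : sm K ((ct d c).subst s) = (some c, var []) := by
  cases c
  · show smN (sm K (imp (s d) (s d))) = _
    rw [sm_imp_self rfl]; rfl
  · exact sm_imp_self rfl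

theorem Fin_sm_cj_false {Γ : List Fm} (h : ∃ X ∈ Γ, (sm K (X.subst s)).1 = some false) :
    sm K ((cj d Γ).subst s) = (some false, var []) := by
  induction Γ with
  | nil => obtain ⟨X, hX, -⟩ := h; simp at hX
  | cons A Γ ih =>
    rw [cj_cons]
    show smAnd (sm K (A.subst s)) (sm K ((cj d Γ).subst s)) = _
    unfold smAnd
    rcases h1 : (sm K (A.subst s)).1 with _ | _ | _
    · obtain ⟨X, hX, hX2⟩ := h
      rcases List.mem_cons.1 hX with rfl | hX
      · rw [h1] at hX2; simp at hX2
      · rw [ih ⟨X, hX, hX2⟩]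
    · rfl
    · obtain ⟨X, hX, hX2⟩ := h
      rcases List.mem_cons.1 hX with rfl | hX
      · rw [h1] at hX2; simp at hX2
      · simp only
        exact ih ⟨X, hX, hX2⟩

theorem Fin_sm_cj_true {Γ : List Fm} (h : ∀ X ∈ Γ, sm K (X.subst s) = (some true, var [])) :
    sm K ((cj d Γ).subst s) = (some true, var []) := by
  induction Γ with
  | nil => exact Fin_sm_ct true
  | cons A Γ ih =>
    rw [cj_cons]
    show smAnd (sm K (A.subst s)) (sm K ((cj d Γ).subst s)) = _
    rw [h A (by simp), ih fun X hX => h X (List.mem_cons_of_mem _ hX)]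
    rfl

theorem Fin_sm_dj {α : Type} (l : List α) (g : α → Fm) (f : α → Bool)
    (h : ∀ a ∈ l, sm K ((g a).subst s) = (some (f a), var [])) :
    sm K ((dj d (l.map g)).subst s) = (some (l.any f), var []) := by
  induction l with
  | nil => exact Fin_sm_ct false
  | cons a l ih =>
    rw [List.map_cons, dj_cons]
    show smOr (sm K ((g a).subst s)) (sm K ((dj d (l.map g)).subst s)) = _
    rw [h a (by simp), ih fun X hX => h X (List.mem_cons_of_mem _ hX), List.any_cons]
    cases f a <;> rfl

end fin_sm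

/-! ### Values of zipped lists -/

theorem Fin_zip_unique {α : Type} {ys : List Nm} (hy : ys.Nodup) : ∀ {w : List α} {x : Nm}
    {a b : α}, (x, a) ∈ ys.zip w → (x, b) ∈ ys.zip w → a = b := by
  induction ys with
  | nil => intro w x a b h; simp at h
  | cons y ys ih =>
    intro w x a b h1 h2
    rw [List.nodup_cons] at hy
    cases w with
    | nil => simp at h1
    | cons c w =>
      rw [List.zip_cons_cons, List.mem_cons] at h1 h2
      rcases h1 with h1 | h1 <;> rcases h2 with h2 | h2
      · rw [Prod.mk.injEq] at h1 h2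
        rw [h1.2, h2.2]
      · rw [Prod.mk.injEq] at h1
        exact absurd (h1.1 ▸ (List.of_mem_zip h2).1) hy.1
      · rw [Prod.mk.injEq] at h2
        exact absurd (h2.1 ▸ (List.of_mem_zip h1).1) hy.1
      · exact ih hy.2 h1 h2

theorem Fin_zip_diff : ∀ {ys : List Nm} {v w : List Bool}, v.length = ys.length →
    w.length = ys.length → v ≠ w → ∃ x a b, (x, a) ∈ ys.zip v ∧ (x, b) ∈ ys.zip w ∧ a ≠ b := by
  intro ys
  induction ys with
  | nil =>
    intro v w hv hw h
    rw [List.length_nil, List.length_eq_zero_iff] at hv hw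
    exact absurd (hv.trans hw.symm) h
  | cons y ys ih =>
    intro v w hv hw h
    cases v with
    | nil => simp at hv
    | cons a v =>
      cases w with
      | nil => simp at hw
      | cons b w =>
        by_cases hab : a = b
        · subst hab
          have hvw : v ≠ w := fun e => h (by rw [e])
          obtain ⟨x, a', b', h1, h2, h3⟩ := ih (by simpa using hv) (by simpa using hw) hvw
          exact ⟨x, a', b', by rw [List.zip_cons_cons]; exact List.mem_cons_of_mem _ h1,
            by rw [List.zip_cons_cons]; exact List.mem_cons_of_mem _ h2, h3⟩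
        · exact ⟨y, a, b, by simp, by simp, hab⟩

theorem Fin_mem_lw {d : Nm} {ys : List Nm} {w : List Bool} {x : Nm} {b : Bool}
    (h : lit x b ∈ ands (lw (ct d true) ys w)) : (x, b) ∈ ys.zip w := by
  unfold lw at h
  revert h
  generalize ys.zip w = l
  intro h
  induction l with
  | nil =>
    simp only [List.foldr_nil] at h
    cases b <;> simp [ct, ands, lit] at h
  | cons p l ih =>
    simp only [List.foldr_cons, ands, List.mem_cons, List.mem_append] at h
    rcases h with h | h | h
    · cases b <;> simp [lit] at h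
    · have e : ands (lit p.1 p.2) = [lit p.1 p.2] := by
        cases p.2 <;> simp [lit, ands]
      rw [e, List.mem_singleton] at h
      have := litOf_lit x b
      rw [h, litOf_lit] at this
      rw [Option.some.injEq] at this
      rw [← this]
      simp
    · exact List.mem_cons_of_mem _ (ih h)

/-- The value of a variable under the hypothesis `lw (ct d true) ys w`. -/
theorem Fin_sm_var {d : Nm} {ys : List Nm} {w : List Bool} (hy : ys.Nodup) {x : Nm} {b : Bool}
    (h : (x, b) ∈ ys.zip w) :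
    sm (litsOf (lw (ct d true) ys w)) (var x) = (some b, var []) := by
  rw [sm_var, smV]
  have h1 : lk (litsOf (lw (ct d true) ys w)) x = some b := by
    refine lk_eq (mem_litsOf.2 (lit_mem_ands_lw h)) fun b' hb' => ?_
    exact Fin_zip_unique hy (Fin_mem_lw (mem_litsOf.1 hb')) h
  rw [h1]

theorem Fin_zip_getD {ys : List Nm} {w : List Bool} (hw : w.length = ys.length) {x : Nm}
    {i : ℕ} (h : (x, i) ∈ ys.zipIdx) : (x, w.getD i false) ∈ ys.zip w := by
  rw [List.mem_zipIdx_iff_getElem?] at h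
  simp only at h
  obtain ⟨hi, hx⟩ := List.getElem?_eq_some_iff.1 h
  rw [List.mem_iff_getElem]
  refine ⟨i, by rw [List.length_zip]; omega, ?_⟩
  rw [List.getElem_zip, hx]
  congr 1
  rw [List.getD_eq_getElem?_getD, List.getElem?_eq_getElem (by omega), Option.getD_some]

/-! ### Tables -/

theorem Fin_tsub_left {t1 t2 : List (Nm × Fm)} {x : Nm} (h : x ∈ t1.map Prod.fst) :
    tsub (t1 ++ t2) x = tsub t1 x := by
  induction t1 with
  | nil => simp at h
  | cons p t1 ih =>
    rw [List.cons_append, tsub_cons, tsub_cons]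
    by_cases hp : p.1 = x
    · rw [if_pos hp, if_pos hp]
    · rw [if_neg hp, if_neg hp]
      rw [List.map_cons, List.mem_cons] at h
      exact ih (h.resolve_left fun e => hp e.symm)

theorem Fin_tsub_right {t1 t2 : List (Nm × Fm)} {x : Nm} (h : x ∉ t1.map Prod.fst) :
    tsub (t1 ++ t2) x = tsub t2 x := by
  induction t1 with
  | nil => rfl
  | cons p t1 ih =>
    rw [List.map_cons, List.mem_cons, not_or] at h
    rw [List.cons_append, tsub_cons, if_neg (fun e => h.1 e.symm), ih h.2]

theorem Fin_tsub_map {t : List (Nm × Fm)} {g : Fm → Fm} {x : Nm} (h : x ∈ t.map Prod.fst) :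
    tsub (t.map (fun p => (p.1, g p.2))) x = g (tsub t x) := by
  induction t with
  | nil => simp at h
  | cons p t ih =>
    rw [List.map_cons, tsub_cons, tsub_cons]
    by_cases hp : p.1 = x
    · rw [if_pos hp, if_pos hp]
    · rw [if_neg hp, if_neg hp]
      rw [List.map_cons, List.mem_cons] at h
      exact ih (h.resolve_left fun e => hp e.symm)

/-! ### The chain of constant substitutions -/

/-- The table of a list of constants. -/
def finP (ps : List (Nm × Bool)) : List (Nm × Fm) := ps.map (fun p => (p.1, ct p.1 p.2))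

theorem finP_fst (ps : List (Nm × Bool)) : (finP ps).map Prod.fst = ps.map Prod.fst := by
  simp [finP]

theorem finP_mem {ps : List (Nm × Bool)} (hn : (ps.map Prod.fst).Nodup) {x : Nm} {c : Bool}
    (h : (x, c) ∈ ps) : tsub (finP ps) x = ct x c := by
  refine tsub_of_mem (t := finP ps) ?_ (by rw [finP_fst]; exact hn)
  exact List.mem_map_of_mem (f := fun p : Nm × Bool => (p.1, ct p.1 p.2)) h

theorem finP_not_mem {ps : List (Nm × Bool)} {x : Nm} (h : x ∉ ps.map Prod.fst) :
    tsub (finP ps) x = var x := tsub_of_not_mem (by rw [finP_fst]; exact h)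

theorem Fin_chain_step {X : Fm} {ps : List (Nm × Bool)} {p : Nm × Bool}
    (hn : ((ps ++ [p]).map Prod.fst).Nodup) :
    X.subst (tsub (finP (ps ++ [p]))) = (X.subst (tsub (finP ps))).subst (cs p.1 p.2) := by
  rw [Fm.subst_subst]
  refine Fm.subst_congr fun x _ => ?_
  rw [List.map_append, List.nodup_append] at hn
  obtain ⟨hn1, -, hn3⟩ := hn
  have e : finP (ps ++ [p]) = finP ps ++ [(p.1, ct p.1 p.2)] := by simp [finP]
  rw [e]
  by_cases hx : x ∈ ps.map Prod.fst
  · rw [Fin_tsub_left (by rw [finP_fst]; exact hx)]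
    obtain ⟨⟨y, c⟩, hy, rfl⟩ := List.mem_map.1 hx
    rw [finP_mem hn1 hy]
    have hne : y ≠ p.1 := hn3 _ hx _ (by simp)
    cases c <;> simp [ct, Fm.subst, cs, hne]
  · rw [Fin_tsub_right (by rw [finP_fst]; exact hx), finP_not_mem hx, tsub_cons]
    show _ = cs p.1 p.2 x
    unfold cs
    by_cases h : p.1 = x
    · rw [if_pos h, if_pos h.symm, h]
    · rw [if_neg h, if_neg (fun e => h e.symm)]; rfl

theorem Fin_chain_just {G : List Rule} {X : Fm} {ps : List (Nm × Bool)}
    (hn : (ps.map Prod.fst).Nodup) {π : List Fm} (hX : X ∈ π) : ∀ n, n ≤ ps.length →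
    Just (GC G) π ((List.range n).map (fun k => X.subst (tsub (finP (ps.take (k + 1)))))) ∧
    X.subst (tsub (finP (ps.take n))) ∈
      π ++ (List.range n).map (fun k => X.subst (tsub (finP (ps.take (k + 1))))) := by
  intro n
  induction n with
  | zero =>
    intro _
    refine ⟨trivial, ?_⟩
    have : X.subst (tsub (finP (ps.take 0))) = X := Fm.subst_eq_self fun x _ => rfl
    rw [this]
    exact List.mem_append_left _ hX
  | succ n ih =>
    intro hle
    obtain ⟨j, m⟩ := ih (by omega)
    rw [List.range_succ, List.map_append, List.map_cons, List.map_nil]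
    refine ⟨Just.append j ⟨Or.inr (Or.inr ?_), trivial⟩, by simp⟩
    have hlt : n < ps.length := by omega
    refine ⟨_, m, ps[n].1, ps[n].2, ?_⟩
    have e : ps.take (n + 1) = ps.take n ++ [ps[n]] := by
      rw [List.take_succ_eq_append_getElem hlt]
    rw [e]
    refine Fin_chain_step ?_
    rw [← e, List.map_take]
    exact hn.sublist (List.take_sublist _ _)

/-! ### Registers -/

/-- The names of the prefix bits with their values. -/
def finPs (tb : List (List Nm)) (pre : List (List Bool)) : List (Nm × Bool) :=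
  (tb.zip pre).flatMap (fun p => p.1.zip p.2)

/-- The registers. -/
def finR (tb xb : List (List Nm)) : List (List Nm) := (tb.zip xb).map (fun p => p.1 ++ p.2)

theorem finR_eq : ∀ (tb xb : List (List Nm)),
    List.zipWith (fun x y => x ++ y) tb xb = finR tb xb := by
  intro tb
  induction tb with
  | nil => intro xb; simp [finR]
  | cons t tb ih =>
    intro xb
    cases xb with
    | nil => simp [finR]
    | cons x xb => simp [finR] at ih ⊢; exact ih xb

theorem finPs_fst {c : ℕ} : ∀ {tb : List (List Nm)} {pre : List (List Bool)},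
    tb.length = pre.length → (∀ ys ∈ tb, ys.length = c) → (∀ w ∈ pre, w.length = c) →
    (finPs tb pre).map Prod.fst = tb.flatten := by
  intro tb
  induction tb with
  | nil => intro pre _ _ _; simp [finPs]
  | cons t tb ih =>
    intro pre h h1 h2
    cases pre with
    | nil => simp at h
    | cons w pre =>
      have e : finPs (t :: tb) (w :: pre) = t.zip w ++ finPs tb pre := by simp [finPs]
      rw [e, List.map_append, ih (by simpa using h) (fun ys hy => h1 ys (by simp [hy]))
        (fun ys hy => h2 ys (by simp [hy])), List.map_fst_zip, List.flatten_cons]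
      rw [h1 t (by simp), h2 w (by simp)]

section fin_core

variable {d : Nm} {tb xb : List (List Nm)} {pre : List (List Bool)} {b c : ℕ}

theorem Fin_core (hxb : ∀ ys ∈ xb, ys.length = b) (htb : ∀ ys ∈ tb, ys.length = c)
    (hpre : ∀ w ∈ pre, w.length = c) (hpn : pre.Nodup) (h1 : tb.length = xb.length)
    (h2 : pre.length = xb.length) (hnd : (tb.flatten ++ xb.flatten).Nodup) {J : ℕ}
    (hJ : J < xb.length) (hJ' : J < pre.length) {v0 v : List Bool} (hv0 : v0.length = b)
    (hv : v.length = b) :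
    sm (litsOf (lw (ct d true) xb[J] v0))
      ((anyr d (finR tb xb) (pre[J] ++ v)).subst (tsub (finP (finPs tb pre)))) =
      (some (decide (v = v0)), var []) := by
  have hnames : (finPs tb pre).map Prod.fst = tb.flatten := finPs_fst (by omega) htb hpre
  have hps : ((finPs tb pre).map Prod.fst).Nodup := by
    rw [hnames]; exact (List.nodup_append.1 hnd).1
  have hxn : xb.flatten.Nodup := (List.nodup_append.1 hnd).2.1
  have hJn : xb[J].Nodup := (List.nodup_flatten.1 hxn).1 _ (List.getElem_mem _)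
  have e : anyr d (finR tb xb) (pre[J] ++ v) =
      dj d (((tb.zip xb).zip pre).map (fun q => eqr d (q.1.1 ++ q.1.2) (pre[J] ++ v))) := by
    unfold anyr finR
    rw [List.map_map]
    have : (tb.zip xb) = ((tb.zip xb).zip pre).map Prod.fst := by
      rw [List.map_fst_zip]
      rw [List.length_zip]; omega
    conv_lhs => rw [this]
    rw [List.map_map]
    rfl
  rw [e]
  rw [Fin_sm_dj _ _ (fun q => decide (q.2 = pre[J]) && decide (v = v0))]
  · congr 1
    congr 1
    rw [Bool.eq_iff_iff, List.any_eq_true, decide_eq_true_iff]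
    constructor
    · rintro ⟨q, -, hq⟩
      rw [Bool.and_eq_true, decide_eq_true_iff, decide_eq_true_iff] at hq
      exact hq.2
    · intro hvv
      refine ⟨((tb[J], xb[J]), pre[J]), ?_, by simp [hvv]⟩
      rw [List.mem_iff_getElem]
      refine ⟨J, by rw [List.length_zip, List.length_zip]; omega, ?_⟩
      rw [List.getElem_zip, List.getElem_zip]
  · intro q hq
    obtain ⟨l, hl, rfl⟩ := List.mem_iff_getElem.1 hq
    rw [List.length_zip, List.length_zip] at hl
    have hl1 : l < tb.length := by omega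
    have hl2 : l < xb.length := by omega
    have hl3 : l < pre.length := by omega
    rw [List.getElem_zip, List.getElem_zip]
    simp only
    have hz : (tb[l] ++ xb[l]).zip (pre[J] ++ v) = tb[l].zip pre[J] ++ xb[l].zip v := by
      rw [List.zip_append]
      rw [htb _ (List.getElem_mem _), hpre _ (List.getElem_mem _)]
    unfold eqr
    rw [hz]
    -- prefix literals
    have hP : ∀ {x : Nm} {a β : Bool}, (x, a) ∈ tb[l].zip pre[l] →
        sm (litsOf (lw (ct d true) xb[J] v0)) ((lit x β).subst (tsub (finP (finPs tb pre)))) =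
          (some (a == β), var []) := by
      intro x a β hx
      refine Fin_sm_lit ?_
      have hmem : (x, a) ∈ finPs tb pre := by
        unfold finPs
        rw [List.mem_flatMap]
        refine ⟨(tb[l], pre[l]), ?_, hx⟩
        rw [List.mem_iff_getElem]
        refine ⟨l, by rw [List.length_zip]; omega, ?_⟩
        rw [List.getElem_zip]
      rw [finP_mem hps hmem, sm_ct]
    by_cases hlJ : pre[l] = pre[J]
    · have hlJ' : l = J := (List.Nodup.getElem_inj_iff hpn).1 hlJ
      subst hlJ'
      -- register literals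
      have hX : ∀ {x : Nm} {a β : Bool}, (x, a) ∈ xb[l].zip v0 →
          sm (litsOf (lw (ct d true) xb[l] v0)) ((lit x β).subst (tsub (finP (finPs tb pre)))) =
            (some (a == β), var []) := by
        intro x a β hx
        refine Fin_sm_lit ?_
        have hxx : x ∈ xb.flatten :=
          List.mem_flatten.2 ⟨xb[l], List.getElem_mem _, (List.of_mem_zip hx).1⟩
        have hnot : x ∉ (finPs tb pre).map Prod.fst := by
          rw [hnames]
          exact fun hc => (List.nodup_append.1 hnd).2.2 x hc x hxx rfl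
        rw [finP_not_mem hnot]
        exact Fin_sm_var hJn hx
      by_cases hvv : v = v0
      · subst hvv
        rw [Fin_sm_cj_true]
        · simp
        · intro X hX'
          rw [List.map_append, List.mem_append, List.mem_map, List.mem_map] at hX'
          rcases hX' with ⟨⟨x, a⟩, hx, rfl⟩ | ⟨⟨x, a⟩, hx, rfl⟩
          · rw [hP hx]; simp
          · rw [hX hx]; simp
      · have hf : (decide (pre[l] = pre[l]) && decide (v = v0)) = false := by simp [hvv]
        rw [hf]
        refine Fin_sm_cj_false ?_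
        obtain ⟨x, a, β, ha, hβ, hne⟩ := Fin_zip_diff (ys := xb[l]) (v := v0) (w := v)
          (by rw [hv0, hxb _ (List.getElem_mem _)]) (by rw [hv, hxb _ (List.getElem_mem _)])
          (fun e => hvv e.symm)
        refine ⟨lit x β, ?_, ?_⟩
        · rw [List.map_append, List.mem_append]
          exact Or.inr (List.mem_map_of_mem (f := fun p : Nm × Bool => lit p.1 p.2) hβ)
        · rw [hX ha]
          simp [hne]
    · have hf : (decide (pre[l] = pre[J]) && decide (v = v0)) = false := by simp [hlJ]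
      rw [hf]
      refine Fin_sm_cj_false ?_
      obtain ⟨x, a, β, ha, hβ, hne⟩ := Fin_zip_diff (ys := tb[l]) (v := pre[l]) (w := pre[J])
        (by rw [hpre _ (List.getElem_mem _), htb _ (List.getElem_mem _)])
        (by rw [hpre _ (List.getElem_mem _), htb _ (List.getElem_mem _)]) hlJ
      refine ⟨lit x β, ?_, ?_⟩
      · rw [List.map_append, List.mem_append]
        exact Or.inl (List.mem_map_of_mem (f := fun p : Nm × Bool => lit p.1 p.2) hβ)
      · rw [hP ha]
        simp [hne]

end fin_core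

/-- The two substitutions that replace the block variables. -/
def finG (d : Nm) (tb xb : List (List Nm)) (pre : List (List Bool))
    (cd : List (Nm × List Bool)) (X : Fm) : Fm :=
  (X.subst (tsub (regT d (finR tb xb) cd))).subst (tsub (finP (finPs tb pre)))

theorem Fin_block {L : ℕ} {d : Nm} {V : List (List Bool)} {b c : ℕ}
    {xb tb : List (List Nm)} {pre : List (List Bool)} {cd : List (Nm × List Bool)}
    (hV : ∀ w, w ∈ V ↔ w.length = b) (hxb : ∀ ys ∈ xb, ys.length = b)
    (htb : ∀ ys ∈ tb, ys.length = c) (hpre : ∀ w ∈ pre, w.length = c) (hpn : pre.Nodup)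
    (h1 : tb.length = xb.length) (h2 : pre.length = xb.length)
    (hnd : (tb.flatten ++ xb.flatten).Nodup) (hcd : (cd.map Prod.fst).Nodup)
    (hm : ∀ p ∈ pre.zipIdx, ∀ v ∈ V, (fn L p.2 v, p.1 ++ v) ∈ cd) {J : ℕ}
    (hJ : J < xb.length) {v0 : List Bool} (hv0 : v0 ∈ V) (i : ℕ) :
    sm (litsOf (lw (ct d true) xb[J] v0)) (finG d tb xb pre cd (zbit d L J V i)) =
      (some (v0.getD i false), var []) := by
  have hJ' : J < pre.length := by omega
  unfold finG zbit
  rw [Fm.subst_subst, Fin_sm_dj _ _ (fun v => decide (v = v0))]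
  · congr 1
    congr 1
    rw [Bool.eq_iff_iff, List.any_eq_true]
    constructor
    · rintro ⟨v, hv, hq⟩
      rw [decide_eq_true_iff] at hq
      subst hq
      exact (List.mem_filter.1 hv).2
    · intro hvv
      exact ⟨v0, List.mem_filter.2 ⟨hv0, hvv⟩, by simp⟩
  · intro v hv
    have hvV := (List.mem_filter.1 hv).1
    show sm _ ((tsub (regT d (finR tb xb) cd) (fn L J v)).subst _) = _
    have hp : (pre[J], J) ∈ pre.zipIdx := by
      rw [List.mem_zipIdx_iff_getElem?]
      exact List.getElem?_eq_getElem hJ'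
    have hr : tsub (regT d (finR tb xb) cd) (fn L J v) =
        anyr d (finR tb xb) (pre[J] ++ v) := by
      refine tsub_of_mem (t := regT d (finR tb xb) cd) ?_ ?_
      · exact List.mem_map_of_mem (f := fun p : Nm × List Bool =>
          (p.1, anyr d (finR tb xb) p.2)) (hm _ hp v hvV)
      · have : (regT d (finR tb xb) cd).map Prod.fst = cd.map Prod.fst := by simp [regT]
        rw [this]; exact hcd
    rw [hr]
    exact Fin_core hxb htb hpre hpn h1 h2 hnd hJ hJ' ((hV v0).1 hv0) ((hV v).1 hvV)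

/-- The table of the remaining blocks. -/
def finTb (L : ℕ) (d : Nm) (V : List (List Bool)) (xb tb : List (List Nm))
    (pre : List (List Bool)) (cd : List (Nm × List Bool)) (J : ℕ) : List (Nm × Fm) :=
  (xb.zipIdx.drop J).flatMap (fun b => b.1.zipIdx.map (fun x =>
    (x.1, finG d tb xb pre cd (zbit d L b.2 V x.2))))

/-- The lines `Z_J`. -/
def finZ (L : ℕ) (d : Nm) (V : List (List Bool)) (xb tb : List (List Nm))
    (pre : List (List Bool)) (cd : List (Nm × List Bool)) (A : Fm) (J : ℕ) : Fm :=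
  A.subst (tsub (finTb L d V xb tb pre cd J))

section fin_z

variable {L : ℕ} {d : Nm} {V : List (List Bool)} {xb tb : List (List Nm)}
  {pre : List (List Bool)} {cd : List (Nm × List Bool)} {A : Fm}

theorem finTb_cons {J : ℕ} (hJ : J < xb.length) : finTb L d V xb tb pre cd J =
    (xb[J].zipIdx.map (fun x => (x.1, finG d tb xb pre cd (zbit d L J V x.2)))) ++
      finTb L d V xb tb pre cd (J + 1) := by
  unfold finTb
  rw [List.drop_eq_getElem_cons (by rw [List.length_zipIdx]; exact hJ), List.flatMap_cons,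
    List.getElem_zipIdx]
  simp

theorem finTb_fst (J : ℕ) : (finTb L d V xb tb pre cd J).map Prod.fst = (xb.drop J).flatten := by
  unfold finTb
  rw [List.map_flatMap]
  have e : ∀ l : List (List Nm × ℕ), l.flatMap (fun b => (b.1.zipIdx.map (fun x =>
      (x.1, finG d tb xb pre cd (zbit d L b.2 V x.2)))).map Prod.fst) =
      (l.map Prod.fst).flatten := by
    intro l
    induction l with
    | nil => rfl
    | cons b l ih =>
      rw [List.flatMap_cons, ih, List.map_cons, List.flatten_cons, List.map_map]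
      congr 1
      have : (Prod.fst ∘ fun x : Nm × ℕ => (x.1, finG d tb xb pre cd (zbit d L b.2 V x.2))) =
        Prod.fst := rfl
      rw [this, List.zipIdx_map_fst]
  rw [e, List.map_drop, List.zipIdx_map_fst]

theorem finZ_end : finZ L d V xb tb pre cd A xb.length = A := by
  refine Fm.subst_eq_self fun x _ => ?_
  refine tsub_of_not_mem ?_
  rw [finTb_fst]
  simp

theorem finZ_zero (hA : ∀ x ∈ A.vars, x ∈ xb.flatten) :
    ((A.subst (tsub (tblD d L V xb))).subst (tsub (regT d (finR tb xb) cd))).subst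
      (tsub (finP (finPs tb pre))) = finZ L d V xb tb pre cd A 0 := by
  rw [Fm.subst_subst, Fm.subst_subst]
  unfold finZ
  refine Fm.subst_congr fun x hx => ?_
  have e : finTb L d V xb tb pre cd 0 =
      (tblD d L V xb).map (fun p => (p.1, finG d tb xb pre cd p.2)) := by
    unfold finTb tblD
    rw [List.map_flatMap, List.drop_zero]
    refine List.flatMap_congr fun b _ => ?_
    rw [List.map_map]
    rfl
  have hn : x ∈ (tblD d L V xb).map Prod.fst := by
    have h1 := finTb_fst (L := L) (d := d) (V := V) (xb := xb) (tb := tb) (pre := pre)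
      (cd := cd) 0
    rw [e, List.map_map, List.drop_zero] at h1
    have h2 : (tblD d L V xb).map Prod.fst = xb.flatten := h1
    rw [h2]
    exact hA x hx
  rw [e, Fin_tsub_map (g := finG d tb xb pre cd) hn, finG, Fm.subst_subst]

theorem Fin_sm_step {b c : ℕ}
    (hV : ∀ w, w ∈ V ↔ w.length = b) (hxb : ∀ ys ∈ xb, ys.length = b)
    (htb : ∀ ys ∈ tb, ys.length = c) (hpre : ∀ w ∈ pre, w.length = c) (hpn : pre.Nodup)
    (h1 : tb.length = xb.length) (h2 : pre.length = xb.length)
    (hnd : (tb.flatten ++ xb.flatten).Nodup) (hcd : (cd.map Prod.fst).Nodup)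
    (hm : ∀ p ∈ pre.zipIdx, ∀ v ∈ V, (fn L p.2 v, p.1 ++ v) ∈ cd) {J : ℕ}
    (hJ : J < xb.length) {v0 : List Bool} (hv0 : v0 ∈ V) :
    sm (litsOf (lw (ct d true) xb[J] v0)) (finZ L d V xb tb pre cd A J) =
      sm (litsOf (lw (ct d true) xb[J] v0)) (finZ L d V xb tb pre cd A (J + 1)) := by
  unfold finZ
  refine sm_subst fun x _ => ?_
  have hxn : xb.flatten.Nodup := (List.nodup_append.1 hnd).2.1
  have hJn : xb[J].Nodup := (List.nodup_flatten.1 hxn).1 _ (List.getElem_mem _)
  rw [finTb_cons hJ]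
  have hb : (xb[J].zipIdx.map (fun x => (x.1, finG d tb xb pre cd (zbit d L J V x.2)))).map
      Prod.fst = xb[J] := by
    rw [List.map_map]
    have : (Prod.fst ∘ fun x : Nm × ℕ => (x.1, finG d tb xb pre cd (zbit d L J V x.2))) =
      Prod.fst := rfl
    rw [this, List.zipIdx_map_fst]
  by_cases hx : x ∈ xb[J]
  · rw [Fin_tsub_left (by rw [hb]; exact hx)]
    obtain ⟨i, hi, hxi⟩ := List.mem_iff_getElem.1 hx
    have hzi : (x, i) ∈ xb[J].zipIdx := by
      rw [List.mem_zipIdx_iff_getElem?]
      rw [← hxi]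
      exact List.getElem?_eq_getElem hi
    have e1 : tsub (xb[J].zipIdx.map (fun x =>
        (x.1, finG d tb xb pre cd (zbit d L J V x.2)))) x =
        finG d tb xb pre cd (zbit d L J V i) :=
      tsub_of_mem (List.mem_map_of_mem (f := fun x : Nm × ℕ =>
        (x.1, finG d tb xb pre cd (zbit d L J V x.2))) hzi) (by rw [hb]; exact hJn)
    have hdj : x ∉ (xb.drop (J + 1)).flatten := by
      have h3 : (xb.drop J).flatten.Nodup :=
        hxn.sublist ((List.drop_sublist J xb).flatten)
      rw [List.drop_eq_getElem_cons hJ, List.flatten_cons, List.nodup_append] at h3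
      exact fun hc => h3.2.2 x hx x hc rfl
    rw [e1, tsub_of_not_mem (by rw [finTb_fst]; exact hdj),
      Fin_block hV hxb htb hpre hpn h1 h2 hnd hcd hm hJ hv0 i]
    refine (Fin_sm_var hJn (Fin_zip_getD ?_ hzi)).symm
    rw [(hV v0).1 hv0, hxb _ (List.getElem_mem _)]
  · rw [Fin_tsub_right (by rw [hb]; exact hx)]

end fin_z

/-! ### The lines -/

/-- The lines that belong to one block. -/
def finB (L : ℕ) (d : Nm) (V : List (List Bool)) (xb tb : List (List Nm))
    (pre : List (List Bool)) (cd : List (Nm × List Bool)) (A : Fm) (b : List Nm × ℕ) :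
    List Fm :=
  V.flatMap (fun v0 => li0 d (lw (ct d true) b.1 v0) (finZ L d V xb tb pre cd A b.2)
    (finZ L d V xb tb pre cd A (b.2 + 1))) ++
  (splitL (ct d true) (finZ L d V xb tb pre cd A (b.2 + 1)) b.1 V ++
    [finZ L d V xb tb pre cd A (b.2 + 1)])

/-- The chain of constant substitutions. -/
def finC (d : Nm) (X : Fm) (ps : List (Nm × Bool)) : List Fm :=
  (List.range ps.length).map (fun k => X.subst (tsub (finP (ps.take (k + 1)))))

/-- The first line. -/
def finX (L : ℕ) (d : Nm) (V : List (List Bool)) (xb tb : List (List Nm))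
    (cd : List (Nm × List Bool)) (A : Fm) : Fm :=
  (A.subst (tsub (tblD d L V xb))).subst (tsub (regT d (finR tb xb) cd))

/-- All lines. -/
def finT (L : ℕ) (d : Nm) (V : List (List Bool)) (xb tb : List (List Nm))
    (pre : List (List Bool)) (cd : List (Nm × List Bool)) (A : Fm) : List Fm :=
  finC d (finX L d V xb tb cd A) (finPs tb pre) ++
    (finZ L d V xb tb pre cd A 0 ::
      xb.zipIdx.flatMap (finB L d V xb tb pre cd A))

section fin_just

variable {G : List Rule} {L : ℕ} {d : Nm} {V : List (List Bool)} {xb tb : List (List Nm)}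
  {pre : List (List Bool)} {cd : List (Nm × List Bool)} {A : Fm} {b c : ℕ}

theorem finB_just (hG : Rich G)
    (hV : ∀ w, w ∈ V ↔ w.length = b) (hxb : ∀ ys ∈ xb, ys.length = b)
    (htb : ∀ ys ∈ tb, ys.length = c) (hpre : ∀ w ∈ pre, w.length = c) (hpn : pre.Nodup)
    (h1 : tb.length = xb.length) (h2 : pre.length = xb.length)
    (hnd : (tb.flatten ++ xb.flatten).Nodup) (hcd : (cd.map Prod.fst).Nodup)
    (hm : ∀ p ∈ pre.zipIdx, ∀ v ∈ V, (fn L p.2 v, p.1 ++ v) ∈ cd) {J : ℕ}
    (hJ : J < xb.length) {π : List Fm} (hπ : finZ L d V xb tb pre cd A J ∈ π) :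
    Just (GC G) π (finB L d V xb tb pre cd A (xb[J], J)) := by
  have hlen : xb[J].length = b := hxb _ (List.getElem_mem _)
  have step : ∀ v0 ∈ V, Just (RuleStep G) π (li0 d (lw (ct d true) xb[J] v0)
      (finZ L d V xb tb pre cd A J) (finZ L d V xb tb pre cd A (J + 1))) ∧
      imp (lw (ct d true) xb[J] v0) (finZ L d V xb tb pre cd A (J + 1)) ∈
        li0 d (lw (ct d true) xb[J] v0)
      (finZ L d V xb tb pre cd A J) (finZ L d V xb tb pre cd A (J + 1)) := fun v0 hv0 =>
    li0_just hG hπ (Fin_sm_step hV hxb htb hpre hpn h1 h2 hnd hcd hm hJ hv0)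
  unfold finB
  refine Just.append ?_ (Just.append ?_ ?_)
  · exact Just.imp_step (Just.flatMap (mono_ruleStep G) _ V π fun v0 hv0 => (step v0 hv0).1)
      fun σ B h => Or.inl h
  · refine Just.imp_step (splitL_just hG (ys := xb[J]) (W := V) ?_ ?_).1 fun σ B h => Or.inl h
    · intro w; rw [hlen]; exact hV w
    · intro w hw
      exact List.mem_append_right _ (List.mem_flatMap.2 ⟨w, hw, (step w hw).2⟩)
  · refine ⟨Or.inr (Or.inl ?_), trivial⟩
    refine hG.strip (H := var d) ?_
    refine (splitL_just hG (ys := xb[J]) (W := V) (π := π ++ V.flatMap (fun v0 =>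
      li0 d (lw (ct d true) xb[J] v0) (finZ L d V xb tb pre cd A J)
        (finZ L d V xb tb pre cd A (J + 1)))) ?_ ?_).2
    · intro w; rw [hlen]; exact hV w
    · intro w hw
      exact List.mem_append_right _ (List.mem_flatMap.2 ⟨w, hw, (step w hw).2⟩)

theorem finB_mem {bl : List Nm × ℕ} : finZ L d V xb tb pre cd A (bl.2 + 1) ∈
    finB L d V xb tb pre cd A bl := by simp [finB]

theorem finBs_just (hG : Rich G)
    (hV : ∀ w, w ∈ V ↔ w.length = b) (hxb : ∀ ys ∈ xb, ys.length = b)
    (htb : ∀ ys ∈ tb, ys.length = c) (hpre : ∀ w ∈ pre, w.length = c) (hpn : pre.Nodup)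
    (h1 : tb.length = xb.length) (h2 : pre.length = xb.length)
    (hnd : (tb.flatten ++ xb.flatten).Nodup) (hcd : (cd.map Prod.fst).Nodup)
    (hm : ∀ p ∈ pre.zipIdx, ∀ v ∈ V, (fn L p.2 v, p.1 ++ v) ∈ cd) :
    ∀ (l : List (List Nm)) (J : ℕ), xb.drop J = l → ∀ π : List Fm,
      finZ L d V xb tb pre cd A J ∈ π →
      Just (GC G) π ((l.zipIdx J).flatMap (finB L d V xb tb pre cd A)) ∧
      finZ L d V xb tb pre cd A (J + l.length) ∈
        finZ L d V xb tb pre cd A J :: (l.zipIdx J).flatMap (finB L d V xb tb pre cd A) := by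
  intro l
  induction l with
  | nil =>
    intro J _ π _
    exact ⟨trivial, by simp⟩
  | cons ys l ih =>
    intro J hJl π hπ
    have hJ : J < xb.length := by
      by_contra hc
      rw [List.drop_eq_nil_of_le (by omega)] at hJl
      simp at hJl
    rw [List.drop_eq_getElem_cons hJ, List.cons.injEq] at hJl
    obtain ⟨h3, h4⟩ := hJl
    subst h3
    rw [List.zipIdx_cons, List.flatMap_cons]
    have j1 := finB_just (A := A) hG hV hxb htb hpre hpn h1 h2 hnd hcd hm hJ hπ
    obtain ⟨j2, m2⟩ := ih (J + 1) h4 (π ++ finB L d V xb tb pre cd A (xb[J], J))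
      (List.mem_append_right _ (finB_mem (bl := (xb[J], J))))
    refine ⟨Just.append j1 j2, ?_⟩
    have e : J + (xb[J] :: l).length = J + 1 + l.length := by
      rw [List.length_cons]; omega
    rw [e]
    refine List.mem_cons_of_mem _ ?_
    rcases List.mem_cons.1 m2 with m2 | m2
    · rw [m2]
      exact List.mem_append_left _ (finB_mem (bl := (xb[J], J)))
    · exact List.mem_append_right _ m2

theorem finT_just (hG : Rich G)
    (hV : ∀ w, w ∈ V ↔ w.length = b) (hxb : ∀ ys ∈ xb, ys.length = b)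
    (htb : ∀ ys ∈ tb, ys.length = c) (hpre : ∀ w ∈ pre, w.length = c) (hpn : pre.Nodup)
    (h1 : tb.length = xb.length) (h2 : pre.length = xb.length)
    (hnd : (tb.flatten ++ xb.flatten).Nodup) (hA : ∀ x ∈ A.vars, x ∈ xb.flatten)
    (hcd : (cd.map Prod.fst).Nodup)
    (hm : ∀ p ∈ pre.zipIdx, ∀ v ∈ V, (fn L p.2 v, p.1 ++ v) ∈ cd) {π : List Fm}
    (hX : finX L d V xb tb cd A ∈ π) :
    Just (GC G) π (finT L d V xb tb pre cd A) ∧ A ∈ finT L d V xb tb pre cd A := by
  have hps : ((finPs tb pre).map Prod.fst).Nodup := by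
    rw [finPs_fst (by omega) htb hpre]; exact (List.nodup_append.1 hnd).1
  obtain ⟨j1, m1⟩ := Fin_chain_just (G := G) (π := π) hps hX _ le_rfl
  rw [List.take_length] at m1
  have e0 : (finX L d V xb tb cd A).subst (tsub (finP (finPs tb pre))) =
      finZ L d V xb tb pre cd A 0 := finZ_zero hA
  rw [e0] at m1
  obtain ⟨j2, m2⟩ := finBs_just (A := A) hG hV hxb htb hpre hpn h1 h2 hnd hcd hm xb 0
    (List.drop_zero) (π ++ finC d (finX L d V xb tb cd A) (finPs tb pre) ++
      [finZ L d V xb tb pre cd A 0]) (List.mem_append_right _ (List.mem_singleton.2 rfl))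
  rw [Nat.zero_add, finZ_end] at m2
  unfold finT
  refine ⟨Just.append j1 ⟨Or.inl m1, j2⟩, List.mem_append_right _ m2⟩

/-! ### Variables -/

theorem Fin_vs_tsub {P : Nm → Prop} {t : List (Nm × Fm)} {x : Nm}
    (h : ∀ p ∈ t, Fin_vs P p.2) (hx : x ∉ t.map Prod.fst → P x) : Fin_vs P (tsub t x) := by
  induction t with
  | nil => exact Fin_vs_var.2 (hx (by simp))
  | cons p t ih =>
    rw [tsub_cons]
    by_cases hp : p.1 = x
    · rw [if_pos hp]; exact h p (by simp)
    · rw [if_neg hp]
      refine ih (fun q hq => h q (List.mem_cons_of_mem _ hq)) fun hn => hx ?_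
      rw [List.map_cons, List.mem_cons, not_or]
      exact ⟨fun e => hp e.symm, hn⟩

variable {P : Nm → Prop}

theorem Fin_vs_anyr {regs : List (List Nm)} (hd : P d) (hr : ∀ ys ∈ regs, ∀ x ∈ ys, P x)
    (w : List Bool) : Fin_vs P (anyr d regs w) := by
  refine Fin_vs_dj hd fun B hB => ?_
  obtain ⟨ys, hys, rfl⟩ := List.mem_map.1 hB
  refine Fin_vs_cj hd fun C hC => ?_
  obtain ⟨p, hp, rfl⟩ := List.mem_map.1 hC
  exact Fin_vs_lit.2 (hr ys hys _ (List.of_mem_zip hp).1)

theorem Fin_vs_finR (h : ∀ x, x ∈ tb.flatten ∨ x ∈ xb.flatten → P x) :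
    ∀ ys ∈ finR tb xb, ∀ x ∈ ys, P x := by
  intro ys hys x hx
  obtain ⟨q, hq, rfl⟩ := List.mem_map.1 hys
  rcases List.mem_append.1 hx with hx | hx
  · exact h x (Or.inl (List.mem_flatten.2 ⟨_, (List.of_mem_zip hq).1, hx⟩))
  · exact h x (Or.inr (List.mem_flatten.2 ⟨_, (List.of_mem_zip hq).2, hx⟩))

/-- The second substitution. -/
theorem Fin_vs_reg (hd : P d) (h : ∀ x, x ∈ tb.flatten ∨ x ∈ xb.flatten → P x) {B : Fm}
    (hB : Fin_vs (fun y => y = d ∨ y ∈ cd.map Prod.fst) B) :
    Fin_vs P (B.subst (tsub (regT d (finR tb xb) cd))) := by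
  refine Fin_vs_subst fun y hy => Fin_vs_tsub ?_ ?_
  · intro p hp
    obtain ⟨q, -, rfl⟩ := List.mem_map.1 hp
    exact Fin_vs_anyr hd (Fin_vs_finR h) _
  · intro hn
    have e : (regT d (finR tb xb) cd).map Prod.fst = cd.map Prod.fst := by simp [regT]
    rw [e] at hn
    rcases hB y hy with rfl | h3
    · exact hd
    · exact absurd h3 hn

theorem Fin_vs_finP {B : Fm} (hB : Fin_vs P B) {ps : List (Nm × Bool)}
    (hp : ∀ q ∈ ps, P q.1) : Fin_vs P (B.subst (tsub (finP ps))) := by
  refine Fin_vs_subst fun y hy => Fin_vs_tsub ?_ fun _ => hB y hy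
  intro p hp'
  obtain ⟨q, hq, rfl⟩ := List.mem_map.1 hp'
  exact Fin_vs_ct.2 (hp q hq)

theorem Fin_vs_zbit (hm : ∀ p ∈ pre.zipIdx, ∀ v ∈ V, (fn L p.2 v, p.1 ++ v) ∈ cd)
    {J : ℕ} (hJ : J < pre.length) (i : ℕ) :
    Fin_vs (fun y => y = d ∨ y ∈ cd.map Prod.fst) (zbit d L J V i) := by
  refine Fin_vs_dj (Or.inl rfl) fun B hB => ?_
  obtain ⟨v, hv, rfl⟩ := List.mem_map.1 hB
  refine Fin_vs_var.2 (Or.inr ?_)
  have hp : (pre[J], J) ∈ pre.zipIdx := by
    rw [List.mem_zipIdx_iff_getElem?]
    exact List.getElem?_eq_getElem hJ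
  exact List.mem_map_of_mem (f := Prod.fst) (hm _ hp v (List.mem_filter.1 hv).1)

theorem finT_vars (hps : ∀ q ∈ finPs tb pre, q.1 ∈ tb.flatten)
    (h2 : pre.length = xb.length) (hA : ∀ x ∈ A.vars, x ∈ xb.flatten)
    (hm : ∀ p ∈ pre.zipIdx, ∀ v ∈ V, (fn L p.2 v, p.1 ++ v) ∈ cd)
    (hd : P d) (h : ∀ x, x ∈ tb.flatten ∨ x ∈ xb.flatten → P x) :
    ∀ C ∈ finT L d V xb tb pre cd A, Fin_vs P C := by
  have hidx : ∀ q ∈ xb.zipIdx, q.2 < pre.length ∧ q.1 ∈ xb := by
    intro q hq
    rw [List.mem_zipIdx_iff_getElem?] at hq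
    obtain ⟨h3, h4⟩ := List.getElem?_eq_some_iff.1 hq
    exact ⟨by omega, h4 ▸ List.getElem_mem _⟩
  have htbl : (tblD d L V xb).map Prod.fst = xb.flatten := by
    have h1 := finTb_fst (L := L) (d := d) (V := V) (xb := xb) (tb := tb) (pre := pre)
      (cd := cd) 0
    rw [List.drop_zero] at h1
    rw [← h1]
    unfold tblD finTb
    rw [List.map_flatMap, List.map_flatMap, List.drop_zero]
    refine List.flatMap_congr fun b _ => ?_
    rw [List.map_map, List.map_map]
    rfl
  have hX : Fin_vs P (finX L d V xb tb cd A) := by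
    refine Fin_vs_reg hd h (Fin_vs_subst fun x hx => Fin_vs_tsub ?_ ?_)
    · intro p hp
      unfold tblD at hp
      rw [List.mem_flatMap] at hp
      obtain ⟨q, hq, hp⟩ := hp
      obtain ⟨y, hy, rfl⟩ := List.mem_map.1 hp
      exact Fin_vs_zbit hm (hidx q hq).1 _
    · intro hn
      rw [htbl] at hn
      exact absurd (hA x hx) hn
  have hps' : ∀ q ∈ finPs tb pre, P q.1 := fun q hq => h _ (Or.inl (hps q hq))
  have hZ : ∀ J, Fin_vs P (finZ L d V xb tb pre cd A J) := by
    intro J
    refine Fin_vs_subst fun x hx => Fin_vs_tsub ?_ fun _ => h x (Or.inr (hA x hx))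
    intro p hp
    unfold finTb at hp
    rw [List.mem_flatMap] at hp
    obtain ⟨q, hq, hp⟩ := hp
    obtain ⟨y, hy, rfl⟩ := List.mem_map.1 hp
    have hq' := hidx q (List.mem_of_mem_drop hq)
    exact Fin_vs_finP (Fin_vs_reg hd h (Fin_vs_zbit hm hq'.1 _)) hps'
  intro C hC
  unfold finT at hC
  rw [List.mem_append, List.mem_cons, List.mem_flatMap] at hC
  rcases hC with hC | rfl | ⟨q, hq, hC⟩
  · obtain ⟨k, -, rfl⟩ := List.mem_map.1 hC
    exact Fin_vs_finP hX fun q hq => hps' q (List.mem_of_mem_take hq)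
  · exact hZ 0
  · have hy : ∀ y ∈ q.1, P y := fun y hy =>
      h y (Or.inr (List.mem_flatten.2 ⟨_, (hidx q hq).2, hy⟩))
    have hct : Fin_vs P (ct d true) := Fin_vs_ct.2 hd
    unfold finB at hC
    rw [List.mem_append, List.mem_append, List.mem_flatMap, List.mem_singleton] at hC
    rcases hC with ⟨v0, -, hC⟩ | hC | rfl
    · exact Fin_vs_li0 hd (Fin_vs_lw hct hy v0) (hZ _) (hZ _) C hC
    · exact Fin_vs_splitL hct (hZ _) hy _ C hC
    · exact hZ _

end fin_just

/-! ### Polynomial time -/

section fin_poly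

open Pool.Agent.H.MP_0447ec_lc.PT

variable {α : Type} [Enc α] {L J : α → ℕ} {d : α → Nm} {V : α → List (List Bool)}
  {xb tb : α → List (List Nm)} {pre : α → List (List Bool)} {cd : α → List (Nm × List Bool)}
  {A X : α → Fm} {ps : α → List (Nm × Bool)} {bl : α → List Nm × ℕ}

@[fun_prop]
theorem Poly.finPs (ht : Poly tb) (hp : Poly pre) :
    Poly (fun a => finPs (tb a) (pre a)) := by
  unfold PS.finPs
  fun_prop

@[fun_prop]
theorem Poly.finR (ht : Poly tb) (hx : Poly xb) : Poly (fun a => finR (tb a) (xb a)) := by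
  unfold PS.finR
  fun_prop

@[fun_prop]
theorem Poly.finP (hp : Poly ps) : Poly (fun a => finP (ps a)) := by
  unfold PS.finP
  fun_prop

@[fun_prop]
theorem Poly.finG (hd : Poly d) (ht : Poly tb) (hx : Poly xb) (hp : Poly pre) (hc : Poly cd)
    (hX : Poly X) : Poly (fun a => finG (d a) (tb a) (xb a) (pre a) (cd a) (X a)) := by
  unfold PS.finG
  exact Poly.tsubst (by fun_prop) (Poly.tsubst (by fun_prop) hX)

@[fun_prop]
theorem Poly.finTb (hL : Poly L) (hd : Poly d) (hV : Poly V) (hx : Poly xb) (ht : Poly tb)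
    (hp : Poly pre) (hc : Poly cd) (hJ : Poly J) :
    Poly (fun a => finTb (L a) (d a) (V a) (xb a) (tb a) (pre a) (cd a) (J a)) := by
  unfold PS.finTb
  fun_prop

@[fun_prop]
theorem Poly.finZ (hL : Poly L) (hd : Poly d) (hV : Poly V) (hx : Poly xb) (ht : Poly tb)
    (hp : Poly pre) (hc : Poly cd) (hA : Poly A) (hJ : Poly J) :
    Poly (fun a => finZ (L a) (d a) (V a) (xb a) (tb a) (pre a) (cd a) (A a) (J a)) := by
  unfold PS.finZ
  exact Poly.tsubst (by fun_prop) hA

@[fun_prop]
theorem Poly.finB (hL : Poly L) (hd : Poly d) (hV : Poly V) (hx : Poly xb) (ht : Poly tb)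
    (hp : Poly pre) (hc : Poly cd) (hA : Poly A) (hb : Poly bl) :
    Poly (fun a => finB (L a) (d a) (V a) (xb a) (tb a) (pre a) (cd a) (A a) (bl a)) := by
  unfold PS.finB
  fun_prop

@[fun_prop]
theorem Poly.finC (hd : Poly d) (hX : Poly X) (hp : Poly ps) :
    Poly (fun a => finC (d a) (X a) (ps a)) := by
  unfold PS.finC
  refine PT.Poly.map ?_ (by fun_prop)
  exact Poly.tsubst (by fun_prop) (by fun_prop)

@[fun_prop]
theorem Poly.finX (hL : Poly L) (hd : Poly d) (hV : Poly V) (hx : Poly xb) (ht : Poly tb)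
    (hc : Poly cd) (hA : Poly A) :
    Poly (fun a => finX (L a) (d a) (V a) (xb a) (tb a) (cd a) (A a)) := by
  unfold PS.finX
  exact Poly.tsubst (by fun_prop) (Poly.tsubst (by fun_prop) hA)

@[fun_prop]
theorem Poly.finT (hL : Poly L) (hd : Poly d) (hV : Poly V) (hx : Poly xb) (ht : Poly tb)
    (hp : Poly pre) (hc : Poly cd) (hA : Poly A) :
    Poly (fun a => finT (L a) (d a) (V a) (xb a) (tb a) (pre a) (cd a) (A a)) := by
  unfold PS.finT
  fun_prop

end fin_poly


theorem fin_main {G : List Rule} (hG : Rich G) :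
    ∃ T : (ℕ × Nm × List (List Bool)) × (List (List Nm) × List (List Nm) × List (List Bool)) ×
      List (Nm × List Bool) × Fm → List Fm,
    PT.Poly T ∧
    ∀ (L : ℕ) (d : Nm) (V : List (List Bool)) (b c : ℕ) (xb tb : List (List Nm))
      (pre : List (List Bool)) (cd : List (Nm × List Bool)) (A : Fm),
      (∀ w, w ∈ V ↔ w.length = b) → (∀ ys ∈ xb, ys.length = b) → (∀ ys ∈ tb, ys.length = c) →
      (∀ w ∈ pre, w.length = c) → pre.Nodup → tb.length = xb.length →
      pre.length = xb.length → (tb.flatten ++ xb.flatten).Nodup →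
      d ∉ tb.flatten ++ xb.flatten → d.length ≤ L → (∀ x ∈ A.vars, x ∈ xb.flatten) →
      (cd.map Prod.fst).Nodup → (∀ p ∈ pre.zipIdx, ∀ v ∈ V, (fn L p.2 v, p.1 ++ v) ∈ cd) →
      ∀ π : List Fm,
        (A.subst (tsub (tblD d L V xb))).subst
          (tsub (regT d (List.zipWith (fun x y => x ++ y) tb xb) cd)) ∈ π →
        Just (GC G) π (T ((L, d, V), (xb, tb, pre), cd, A)) ∧
        A ∈ T ((L, d, V), (xb, tb, pre), cd, A) ∧
        ∀ C ∈ T ((L, d, V), (xb, tb, pre), cd, A), ∀ x ∈ C.vars,
          x = d ∨ x ∈ tb.flatten ∨ x ∈ xb.flatten := by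
  refine ⟨fun q => finT q.1.1 q.1.2.1 q.1.2.2 q.2.1.1 q.2.1.2.1 q.2.1.2.2 q.2.2.1 q.2.2.2,
    by fun_prop, ?_⟩
  intro L d V b c xb tb pre cd A hV hxb htb hpre hpn h1 h2 hnd hd hdL hA hcd hm π hπ
  rw [finR_eq] at hπ
  obtain ⟨j, m⟩ := finT_just (A := A) hG hV hxb htb hpre hpn h1 h2 hnd hA hcd hm
    (π := π) hπ
  refine ⟨j, m, ?_⟩
  refine finT_vars (P := fun x => x = d ∨ x ∈ tb.flatten ∨ x ∈ xb.flatten) ?_ h2 hA hm
    (Or.inl rfl) (fun x hx => Or.inr hx)
  intro q hq
  rw [← finPs_fst (by omega) htb hpre]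
  exact List.mem_map_of_mem hq

end Pool.Agent.H.MP_0447ec_lc.PS
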