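import Pool.Agent.H.MP_0447ec_lc.LV.Reg0
import Pool.Agent.H.MP_0447ec_lc.LV.EnginePoly

/-!
# Proofs with the permutation rule in register form, in polynomial time

Every line `C` of a derivation `ρ` with the rules of `F` and the permutation rule is turned into
`C.subst D`, `D = tsub (regT d regs cd)`: the variable `u` is replaced by the statement that some
register in `regs` contains the code of `u`. A permutation of the variables becomes a change of
the values of the registers, done register by register with constant substitutions.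
-/

namespace Pool.Agent.H.MP_0447ec_lc.PS

open Fm

/-! ### Computability in polynomial time -/

section

open Pool.Agent.H.MP_0447ec_lc.PT

variable {α : Type} [Enc α]

theorem sz_code (cd : List (Nm × List Bool)) (x : Nm) : sz (code cd x) ≤ sz cd := by
  induction cd with
  | nil => exact le_rfl
  | cons p cd ih =>
    rw [code_cons, sz_lcons]
    have h : sz p = sz p.1 + sz p.2 + 1 := sz_prod _
    split_ifs <;> omega

@[fun_prop]
theorem Poly.code {c : α → List (Nm × List Bool)} {x : α → Nm} (hc : Poly c) (hx : Poly x) :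
    Poly (fun a => code (c a) (x a)) := by
  unfold PS.code
  refine Poly.foldr (f := fun p : α × List Bool × (Nm × List Bool) =>
      if p.2.2.1 = x p.1 then p.2.2.2 else p.2.1) (s0 := fun _ => ([] : List Bool))
    (B := fun a => sz (c a)) ?_ hc (by fun_prop) hc.sz_le ?_
  · have h1 : Poly (fun p : α × List Bool × (Nm × List Bool) => decide (p.2.2.1 = x p.1)) := by
      fun_prop
    exact Poly.ite h1 (by fun_prop) (by fun_prop)
  · intro a l₁ l₂ h
    have h1 := sz_code l₂ (x a)
    have h2 : sz l₂ ≤ sz (c a) := by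
      rw [h]; exact sz_sublist_le (List.sublist_append_right _ _)
    exact h1.trans h2

@[fun_prop]
theorem Poly.rnf {C B : α → Fm} {x : α → Nm} (hC : Poly C) (hB : Poly B) (hx : Poly x) :
    Poly (fun a => rnf (C a) (B a) (x a)) := by
  unfold PS.rnf
  fun_prop

@[fun_prop]
theorem Poly.okP {C B : α → Fm} (hC : Poly C) (hB : Poly B) :
    Poly (fun a => okP (C a) (B a)) := by
  unfold PS.okP
  have h1 : Poly (fun a => (C a).subst (fun x => var (PS.rnf (C a) (B a) x))) :=
    Poly.substOf (s := fun a x => var (PS.rnf (C a) (B a) x)) hC (by fun_prop)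
  have h2 : Poly (fun p : α × Nm => PS.rnf (C p.1) (B p.1) p.2) := by fun_prop
  have h3 : Poly (fun p : (α × Nm) × Nm => PS.rnf (C p.1.1) (B p.1.1) p.1.2) := by fun_prop
  have h4 : Poly (fun p : (α × Nm) × Nm => PS.rnf (C p.1.1) (B p.1.1) p.2) := by fun_prop
  have h5 : Poly (fun a => PS.nms (C a)) := by fun_prop
  have h6 : Poly (fun p : α × Nm => PS.nms (C p.1)) := by fun_prop
  refine Poly.and (Poly.and (Poly.decEq h1 hB) (PT.Poly.all (Poly.decMem h2 h6) h5))
    (Poly.and (PT.Poly.all (PT.Poly.all (Poly.or (Poly.not (Poly.decEq h3 h4))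
      (Poly.decEq ?_ ?_)) h6) h5) (PT.Poly.all (PT.Poly.any (Poly.decEq h4 ?_) h6) h5))
  · exact Poly.comp (f := fun q : α × Nm => q.2) (g := fun p : (α × Nm) × Nm => p.1)
      Poly.snd Poly.fst
  · exact Poly.snd
  · exact Poly.comp (f := fun q : α × Nm => q.2) (g := fun p : (α × Nm) × Nm => p.1)
      Poly.snd Poly.fst

theorem sz_av (cd : List (Nm × List Bool)) (C B : Fm) (a : List Bool) :
    sz (av cd C B a) ≤ sz cd + sz a := by
  rcases av_cases cd C B a with ⟨y, -, -, h⟩ | ⟨-, h⟩
  · rw [h]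
    have := sz_code cd y
    omega
  · rw [h]; omega

theorem sz_avL (cd : List (Nm × List Bool)) (f : Nm → Nm) (a : List Bool) (L : List Nm) :
    sz (L.foldr (fun x s => if code cd (f x) = a then code cd x else s) a) ≤ sz cd + sz a := by
  induction L with
  | nil => rw [List.foldr_nil]; omega
  | cons x L ih =>
    rw [List.foldr_cons]
    split_ifs
    · have := sz_code cd x
      omega
    · exact ih

@[fun_prop]
theorem Poly.av {c : α → List (Nm × List Bool)} {C B : α → Fm} {w : α → List Bool}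
    (hc : Poly c) (hC : Poly C) (hB : Poly B) (hw : Poly w) :
    Poly (fun a => av (c a) (C a) (B a) (w a)) := by
  unfold PS.av
  refine Poly.foldr (f := fun p : α × List Bool × Nm =>
      if PS.code (c p.1) (PS.rnf (C p.1) (B p.1) p.2.2) = w p.1
      then PS.code (c p.1) p.2.2 else p.2.1) (s0 := w) (l := fun a => PS.nms (C a))
    (B := fun a => sz (c a) + sz (w a)) ?_ (by fun_prop) hw (hc.sz_le.add hw.sz_le) ?_
  · have h1 : Poly (fun p : α × List Bool × Nm =>
        decide (PS.code (c p.1) (PS.rnf (C p.1) (B p.1) p.2.2) = w p.1)) := by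
      fun_prop
    exact Poly.ite h1 (by fun_prop) (by fun_prop)
  · intro a l₁ l₂ _
    exact sz_avL (c a) (PS.rnf (C a) (B a)) (w a) l₂

@[fun_prop]
theorem Poly.cT {l : α → List (Nm × Bool)} (hl : Poly l) : Poly (fun a => cT (l a)) := by
  unfold PS.cT
  fun_prop

@[fun_prop]
theorem Poly.chn {X : α → Fm} {l : α → List (Nm × Bool)} (hX : Poly X) (hl : Poly l) :
    Poly (fun a => chn (X a) (l a)) := by
  unfold PS.chn
  fun_prop

theorem Poly.regFs {d : α → Nm} {c : α → List (Nm × List Bool)} {C B : α → Fm}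
    {R1 R2 : α → List (List Nm)} (hd : Poly d) (hc : Poly c) (hC : Poly C) (hB : Poly B)
    (h1 : Poly R1) (h2 : Poly R2) :
    Poly (fun a => (C a).subst (regF (d a) (c a) (PS.rnf (C a) (B a)) (R1 a) (R2 a))) := by
  refine Poly.substOf (s := fun a x =>
    regF (d a) (c a) (PS.rnf (C a) (B a)) (R1 a) (R2 a) x) hC ?_
  unfold PS.regF
  fun_prop

theorem Poly.regStep {d : α → Nm} {c : α → List (Nm × List Bool)} {W : α → List (List Bool)}
    {C B : α → Fm} {R1 R2 : α → List (List Nm)} {ys : α → List Nm} (hd : Poly d) (hc : Poly c)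
    (hW : Poly W) (hC : Poly C) (hB : Poly B) (h1 : Poly R1) (hy : Poly ys) (h2 : Poly R2) :
    Poly (fun a => regStep (d a) (c a) (W a) (C a) (B a) (R1 a) (ys a) (R2 a)) := by
  have e1 : Poly (fun a => (C a).subst
      (regF (d a) (c a) (PS.rnf (C a) (B a)) (R1 a) (ys a :: R2 a))) :=
    Poly.regFs hd hc hC hB h1 (by fun_prop)
  have e2 : Poly (fun a => (C a).subst
      (regF (d a) (c a) (PS.rnf (C a) (B a)) (R1 a ++ [ys a]) (R2 a))) :=
    Poly.regFs hd hc hC hB (by fun_prop) h2
  unfold PS.regStep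
  have ed : Poly (fun a => PS.ct (d a) true) := by fun_prop
  refine Poly.append (PT.Poly.flatMap ?_ hW) (Poly.append (Poly.splitL ed e2 hy hW)
    (Poly.lcons e2 (PT.Poly.const [])))
  have e1' : Poly (fun p : α × List Bool => (C p.1).subst
      (regF (d p.1) (c p.1) (PS.rnf (C p.1) (B p.1)) (R1 p.1) (ys p.1 :: R2 p.1))) :=
    Poly.comp (f := fun a => (C a).subst
      (regF (d a) (c a) (PS.rnf (C a) (B a)) (R1 a) (ys a :: R2 a)))
      (g := fun p : α × List Bool => p.1) e1 (by fun_prop)
  have e2' : Poly (fun p : α × List Bool => (C p.1).subst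
      (regF (d p.1) (c p.1) (PS.rnf (C p.1) (B p.1)) (R1 p.1 ++ [ys p.1]) (R2 p.1))) :=
    Poly.comp (f := fun a => (C a).subst
      (regF (d a) (c a) (PS.rnf (C a) (B a)) (R1 a ++ [ys a]) (R2 a)))
      (g := fun p : α × List Bool => p.1) e2 (by fun_prop)
  have e3 : Poly (fun p : α × List Bool =>
      (ys p.1).zip (PS.av (c p.1) (C p.1) (B p.1) p.2)) := by fun_prop
  have e4 : Poly (fun p : α × List Bool => PS.lw (PS.ct (d p.1) true) (ys p.1) p.2) := by
    fun_prop
  exact Poly.append (Poly.chn e1' e3) (Poly.li0 (by fun_prop) e4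
    (Poly.substT (Poly.cT e3) e1') e2')

theorem Poly.permL {d : α → Nm} {R : α → List (List Nm)} {c : α → List (Nm × List Bool)}
    {W : α → List (List Bool)} {C B : α → Fm} (hd : Poly d) (hR : Poly R) (hc : Poly c)
    (hW : Poly W) (hC : Poly C) (hB : Poly B) :
    Poly (fun a => permL (d a) (R a) (c a) (W a) (C a) (B a)) := by
  unfold PS.permL
  refine PT.Poly.flatMap ?_ (by fun_prop)
  exact Poly.regStep (by fun_prop) (by fun_prop) (by fun_prop) (by fun_prop) (by fun_prop)
    (by fun_prop) (by fun_prop) (by fun_prop)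

theorem Poly.regT' {d : α → Nm} {R : α → List (List Nm)} {c : α → List (Nm × List Bool)}
    {W : α → List (List Bool)} {ρ : α → List Fm} (hd : Poly d) (hR : Poly R) (hc : Poly c)
    (hW : Poly W) (hρ : Poly ρ) :
    Poly (fun a => regT' (d a) (R a) (c a) (W a) (ρ a)) := by
  unfold PS.regT'
  refine PT.Poly.flatMap ?_ (by fun_prop)
  refine Poly.append (PT.Poly.flatMap ?_ (by fun_prop)) (by fun_prop)
  refine Poly.ifb (by fun_prop) ?_ (by fun_prop)
  exact Poly.permL (by fun_prop) (by fun_prop) (by fun_prop) (by fun_prop) (by fun_prop)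
    (by fun_prop)

end

theorem reg_main (F : List Rule) :
    ∃ T : Nm × List (List Nm) × List (Nm × List Bool) × List (List Bool) × List Fm → List Fm,
    PT.Poly T ∧
    ∀ (d : Nm) (regs : List (List Nm)) (cd : List (Nm × List Bool)) (W : List (List Bool))
      (r : ℕ) (ρ : List Fm),
      (∀ w, w ∈ W ↔ w.length = r) → (∀ ys ∈ regs, ys.length = r) → regs.flatten.Nodup →
      d ∉ regs.flatten → (cd.map Prod.fst).Nodup → (cd.map Prod.snd).Nodup →
      (∀ p ∈ cd, p.2.length = r) → Deriv (FP F) ρ →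
      (∀ C ∈ ρ, ∀ x ∈ C.vars, x ∈ cd.map Prod.fst) →
      ∀ π : List Fm, Just (GC (GG F)) π (T (d, regs, cd, W, ρ)) ∧
        (∀ B ∈ ρ, B.subst (tsub (regT d regs cd)) ∈ T (d, regs, cd, W, ρ)) ∧
        ∀ C ∈ T (d, regs, cd, W, ρ), ∀ x ∈ C.vars, x = d ∨ x ∈ regs.flatten := by
  refine ⟨fun t => regT' t.1 t.2.1 t.2.2.1 t.2.2.2.1 t.2.2.2.2, ?_, ?_⟩
  · exact Poly.regT' (by fun_prop) (by fun_prop) (by fun_prop) (by fun_prop) (by fun_prop)
  · intro d regs cd W r ρ hW hys hnd hd h1 h2 hr hρ hv π
    obtain ⟨a, b⟩ := regT'_just hW hys hnd hd h1 h2 hr hρ hv π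
    exact ⟨a, b, fun C hC x hx => regT'_vars h1 hv hC hx⟩

end Pool.Agent.H.MP_0447ec_lc.PS
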