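import Pool.Agent.H.MP_0447ec_lc.PS.PolyAlg
import Pool.Agent.H.MP_0447ec_lc.PS.Sim

/-!
# Sound schematic rules can be replaced by the rules of a Frege system, in polynomial time,
without new variables
-/

namespace Pool.Agent.H.MP_0447ec_lc.PS

open Pool.Agent.H.MP_0447ec_lc.PT

/-- Lines for the possible uses of one rule. -/
def robRule (t : Rule × List Nm × List Fm) (cands pre : List Fm) (B : Fm) : List Fm :=
  (assigns t.2.1.length cands).flatMap (fun vals =>
    if ((t.1.prem.all (fun P => decide (P.subst (lsub t.2.1 vals) ∈ pre))) &&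
      decide (t.1.concl.subst (lsub t.2.1 vals) = B)) = true
    then inst t.2.2 (lsub t.2.1 vals) else [])

/-- Lines for all lines of a derivation. -/
def robB (FD : List (Rule × List Nm × List Fm)) (cands π : List Fm) : List Fm :=
  (splits π).flatMap (fun p => FD.flatMap (fun t => robRule t cands p.1 p.2) ++ [p.2])

/-- The whole transformation. -/
def rob (FD : List (Rule × List Nm × List Fm)) (π : List Fm) : List Fm :=
  cutAt (lastF π) (app [] (robB FD (π.flatMap subs) π))

theorem robB_snoc (FD : List (Rule × List Nm × List Fm)) (cands π : List Fm) (B : Fm) :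
    robB FD cands (π ++ [B]) =
      robB FD cands π ++ (FD.flatMap (fun t => robRule t cands π B) ++ [B]) := by
  unfold robB
  rw [splits_snoc, List.flatMap_append]
  simp

/-- What is needed of the fixed derivations. -/
structure RobOk (F G : List Rule) (FD : List (Rule × List Nm × List Fm)) : Prop where
  cov : ∀ r ∈ G, ∃ t ∈ FD, t.1 = r
  vr1 : ∀ t ∈ FD, ∀ P ∈ t.1.prem, ∀ x ∈ P.vars, x ∈ t.2.1
  vr2 : ∀ t ∈ FD, ∀ x ∈ t.1.concl.vars, x ∈ t.2.1
  vr3 : ∀ t ∈ FD, ∀ x ∈ t.2.1, (∃ P ∈ t.1.prem, x ∈ P.vars) ∨ x ∈ t.1.concl.vars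
  sch : ∀ t ∈ FD, Sch F t.1.prem t.1.concl t.2.2
  vd : ∀ t ∈ FD, ∀ E ∈ t.2.2, ∀ x ∈ E.vars, x ∈ t.2.1

theorem Fm.exists_mem_vars (A : Fm) : ∃ x, x ∈ A.vars := by
  induction A with
  | var w => exact ⟨w, rfl⟩
  | neg A ih => exact ih
  | and A B ih _ => obtain ⟨x, hx⟩ := ih; exact ⟨x, Or.inl hx⟩
  | or A B ih _ => obtain ⟨x, hx⟩ := ih; exact ⟨x, Or.inl hx⟩
  | imp A B ih _ => obtain ⟨x, hx⟩ := ih; exact ⟨x, Or.inl hx⟩

theorem rob_vars_of_mem_subs {A G : Fm} (h : G ∈ subs A) {x : Nm} (hx : x ∈ G.vars) :
    x ∈ A.vars := by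
  induction A with
  | var w => simp only [subs, List.mem_singleton] at h; subst h; exact hx
  | neg A ih =>
    simp only [subs, List.mem_cons] at h
    rcases h with h | h
    · subst h; exact hx
    · exact ih h
  | and A B ih1 ih2 =>
    simp only [subs, List.mem_cons, List.mem_append] at h
    rcases h with h | h | h
    · subst h; exact hx
    · exact Or.inl (ih1 h)
    · exact Or.inr (ih2 h)
  | or A B ih1 ih2 =>
    simp only [subs, List.mem_cons, List.mem_append] at h
    rcases h with h | h | h
    · subst h; exact hx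
    · exact Or.inl (ih1 h)
    · exact Or.inr (ih2 h)
  | imp A B ih1 ih2 =>
    simp only [subs, List.mem_cons, List.mem_append] at h
    rcases h with h | h | h
    · subst h; exact hx
    · exact Or.inl (ih1 h)
    · exact Or.inr (ih2 h)

theorem Sch.inst_eq {F : List Rule} {Γ : List Fm} {B : Fm} {D : List Fm} (h : Sch F Γ B D)
    (s : Nm → Fm) (hΓ : ∀ P ∈ Γ, P.subst s = P) (hB : B.subst s = B) :
    Sch F Γ B (inst D s) := by
  refine ⟨?_, ?_⟩
  · have key : ∀ σ, Deriv (fun σ C => C ∈ Γ ∨ RuleStep F σ C) σ →
        Deriv (fun σ C => C ∈ Γ ∨ RuleStep F σ C) (inst σ s) := by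
      intro σ hσ
      induction hσ with
      | nil => exact Deriv.nil
      | @snoc σ C h1 h2 ih =>
        have h3 : inst (σ ++ [C]) s = inst σ s ++ [C.subst s] := by simp [inst]
        rw [h3]
        refine Deriv.snoc ih ?_
        rcases h2 with h2 | h2
        · left
          rw [hΓ C h2]
          exact h2
        · exact Or.inr (ruleStep_subst h2 s)
    exact key D h.der
  · have := h.mem_inst s
    rwa [hB] at this

theorem exists_robOk {F G : List Rule} (hF : IsFrege F)
    (hG : ∀ r ∈ G, ∀ v : Nm → Prop, (∀ P ∈ r.prem, P.Eval v) → r.concl.Eval v) :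
    ∃ FD, RobOk F G FD := by
  induction G with
  | nil =>
    exact ⟨[], by simp, by simp, by simp, by simp, by simp, by simp⟩
  | cons r G ih =>
    obtain ⟨FD, hFD⟩ := ih (fun r' hr' => hG r' (List.mem_cons_of_mem _ hr'))
    obtain ⟨D, hD⟩ := exists_sch hF r.prem r.concl (hG r (by simp))
    obtain ⟨x0, hx0⟩ := Fm.exists_mem_vars r.concl
    set V : List Nm := r.prem.flatMap nms ++ nms r.concl with hV
    have hV1 : ∀ P ∈ r.prem, ∀ x ∈ P.vars, x ∈ V := fun P hP x hx =>
      List.mem_append_left _ (List.mem_flatMap.2 ⟨P, hP, mem_nms.2 hx⟩)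
    have hV2 : ∀ x ∈ r.concl.vars, x ∈ V := fun x hx => List.mem_append_right _ (mem_nms.2 hx)
    set s : Nm → Fm := fun y => if y ∈ V then Fm.var y else Fm.var x0 with hs
    have hsV : ∀ P : Fm, (∀ x ∈ P.vars, x ∈ V) → P.subst s = P := by
      intro P hP
      apply Fm.subst_eq_self
      intro x hx
      simp only [hs, hP x hx, if_true]
    refine ⟨(r, V, inst D s) :: FD, ?_, ?_, ?_, ?_, ?_, ?_⟩
    · intro r' hr'
      rcases List.mem_cons.1 hr' with rfl | hr'
      · exact ⟨_, List.mem_cons_self, rfl⟩
      · obtain ⟨t, ht, e⟩ := hFD.cov r' hr'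
        exact ⟨t, List.mem_cons_of_mem _ ht, e⟩
    · intro t ht
      rcases List.mem_cons.1 ht with rfl | ht
      · exact hV1
      · exact hFD.vr1 t ht
    · intro t ht
      rcases List.mem_cons.1 ht with rfl | ht
      · exact hV2
      · exact hFD.vr2 t ht
    · intro t ht
      rcases List.mem_cons.1 ht with rfl | ht
      · intro x hx
        rcases List.mem_append.1 hx with hx | hx
        · obtain ⟨P, hP, hx⟩ := List.mem_flatMap.1 hx
          exact Or.inl ⟨P, hP, mem_nms.1 hx⟩
        · exact Or.inr (mem_nms.1 hx)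
      · exact hFD.vr3 t ht
    · intro t ht
      rcases List.mem_cons.1 ht with rfl | ht
      · exact hD.inst_eq s (fun P hP => hsV P (hV1 P hP)) (hsV _ hV2)
      · exact hFD.sch t ht
    · intro t ht
      rcases List.mem_cons.1 ht with rfl | ht
      · intro E hE x hx
        obtain ⟨E', -, rfl⟩ := List.mem_map.1 hE
        obtain ⟨y, -, hy⟩ := vars_subst hx
        simp only [hs] at hy
        split_ifs at hy with h
        · simp only [Fm.vars, Set.mem_singleton_iff] at hy
          rw [hy]; exact h
        · simp only [Fm.vars, Set.mem_singleton_iff] at hy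
          rw [hy]; exact hV2 _ hx0
      · exact hFD.vd t ht

theorem robB_just {F G : List Rule} {FD : List (Rule × List Nm × List Fm)} (hFD : RobOk F G FD)
    {Step : List Fm → Fm → Prop} (hm : Mono Step) (cands : List Fm) {π : List Fm}
    (h : Deriv (fun σ B => RuleStep G σ B ∨ Step σ B) π)
    (hc : ∀ B ∈ π, ∀ E ∈ subs B, E ∈ cands) :
    Just (fun σ B => RuleStep F σ B ∨ Step σ B) [] (robB FD cands π) ∧
      ∀ B ∈ π, B ∈ robB FD cands π := by
  have hm' : Mono (fun σ B => RuleStep F σ B ∨ Step σ B) := by
    rintro π π' B h (h1 | h1)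
    · exact Or.inl (mono_ruleStep F π π' B h h1)
    · exact Or.inr (hm π π' B h h1)
  induction h with
  | nil => exact ⟨trivial, by simp⟩
  | @snoc σ B g1 g2 ih =>
    obtain ⟨i1, i2⟩ := ih (fun C hC => hc C (List.mem_append_left _ hC))
    rw [robB_snoc]
    have j1 : Just (fun σ B => RuleStep F σ B ∨ Step σ B) ([] ++ robB FD cands σ)
        (FD.flatMap (fun t => robRule t cands σ B)) := by
      apply Just.flatMap hm'
      intro t ht
      apply Just.flatMap hm'
      intro vals _
      split_ifs with hcond
      · rw [Bool.and_eq_true, List.all_eq_true] at hcond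
        refine (hFD.sch t ht).just hm' (fun _ _ h => Or.inl h) _ _ ?_
        intro P hP
        have h1 := hcond.1 P hP
        rw [decide_eq_true_iff] at h1
        exact i2 _ h1
      · trivial
    refine ⟨Just.append i1 (Just.append j1 ⟨?_, trivial⟩), ?_⟩
    · rcases g2 with ⟨r, hr, s, hs1, hs2⟩ | g2
      · left
        obtain ⟨t, ht, rfl⟩ := hFD.cov r hr
        have w1 := hFD.vr1 t ht
        have w2 := hFD.vr2 t ht
        have w3 := hFD.vr3 t ht
        apply List.mem_append_right
        rw [List.mem_flatMap]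
        refine ⟨t, ht, ?_⟩
        unfold robRule
        rw [List.mem_flatMap]
        have hP : ∀ P ∈ t.1.prem, P.subst (lsub t.2.1 (t.2.1.map s)) = P.subst s := by
          intro P hP
          exact Fm.subst_congr (fun x hx => lsub_map s _ _ (w1 P hP x hx))
        have hCc : t.1.concl.subst (lsub t.2.1 (t.2.1.map s)) = t.1.concl.subst s :=
          Fm.subst_congr (fun x hx => lsub_map s _ _ (w2 x hx))
        refine ⟨t.2.1.map s, ?_, ?_⟩
        · have := mem_assigns (c := cands) (vs := t.2.1.map s) (by
            intro v hv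
            obtain ⟨x, hx, rfl⟩ := List.mem_map.1 hv
            rcases w3 x hx with ⟨P, hP, hxP⟩ | hxC
            · exact hc _ (List.mem_append_left _ (hs1 P hP)) _ (mem_subs_subst hxP)
            · refine hc B (by simp) _ ?_
              rw [← hs2]
              exact mem_subs_subst hxC)
          rwa [List.length_map] at this
        · rw [if_pos]
          · have := (hFD.sch t ht).mem_inst (lsub t.2.1 (t.2.1.map s))
            rwa [hCc, hs2] at this
          · rw [Bool.and_eq_true, List.all_eq_true, decide_eq_true_iff]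
            refine ⟨?_, by rw [hCc, hs2]⟩
            intro P hP'
            rw [decide_eq_true_iff, hP P hP']
            exact hs1 P hP'
      · right
        right
        refine hm _ _ _ ?_ g2
        intro C hC
        exact List.mem_append_left _ (i2 C hC)
    · intro C hC
      rcases List.mem_append.1 hC with hC | hC
      · exact List.mem_append_left _ (i2 C hC)
      · exact List.mem_append_right _ (List.mem_append_right _ hC)

theorem vars_lsub {x y : Nm} : ∀ {xs : List Nm} {vals : List Fm}, y ∈ xs →
    vals.length = xs.length → x ∈ (lsub xs vals y).vars → ∃ v ∈ vals, x ∈ v.vars := by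
  intro xs
  induction xs with
  | nil => intro vals hy; simp at hy
  | cons z xs ih =>
    intro vals hy hl hx
    cases vals with
    | nil => simp at hl
    | cons v vals =>
      simp only [lsub] at hx
      split_ifs at hx with h
      · exact ⟨v, List.mem_cons_self, hx⟩
      · obtain ⟨v', hv', hx'⟩ := ih ((List.mem_cons.1 hy).resolve_left h)
          (by simpa using hl) hx
        exact ⟨v', List.mem_cons_of_mem _ hv', hx'⟩

theorem of_mem_assigns {c : List Fm} : ∀ {n : ℕ} {vs : List Fm}, vs ∈ assigns n c →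
    vs.length = n ∧ ∀ v ∈ vs, v ∈ c := by
  intro n
  induction n with
  | zero => intro vs h; simp only [assigns, List.mem_singleton] at h; subst h; simp
  | succ n ih =>
    intro vs h
    simp only [assigns, List.mem_flatMap, List.mem_map] at h
    obtain ⟨v, hv, vs', hvs', rfl⟩ := h
    obtain ⟨h1, h2⟩ := ih hvs'
    refine ⟨by simp [h1], ?_⟩
    intro u hu
    rcases List.mem_cons.1 hu with rfl | hu
    · exact hv
    · exact h2 u hu

theorem robB_vars {F G : List Rule} {FD : List (Rule × List Nm × List Fm)} (hFD : RobOk F G FD)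
    (π₀ : List Fm) {π : List Fm} (hπ : ∀ B ∈ π, B ∈ π₀) :
    ∀ C ∈ robB FD (π₀.flatMap subs) π, ∀ x ∈ C.vars, ∃ D ∈ π₀, x ∈ D.vars := by
  induction π using List.reverseRecOn with
  | nil => intro C hC; simp [robB, splits, sp] at hC
  | append_singleton π B ih =>
    intro C hC x hx
    rw [robB_snoc] at hC
    rcases List.mem_append.1 hC with hC | hC
    · exact ih (fun B hB => hπ B (List.mem_append_left _ hB)) C hC x hx
    · rcases List.mem_append.1 hC with hC | hC
      · obtain ⟨t, ht, hC⟩ := List.mem_flatMap.1 hC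
        unfold robRule at hC
        obtain ⟨vals, hvals, hC⟩ := List.mem_flatMap.1 hC
        split_ifs at hC with hcond
        · obtain ⟨E, hE, rfl⟩ := List.mem_map.1 hC
          obtain ⟨y, hy, hx⟩ := vars_subst hx
          obtain ⟨h1, h2⟩ := of_mem_assigns hvals
          obtain ⟨v, hv, hx⟩ := vars_lsub (hFD.vd t ht E hE y hy) h1 hx
          obtain ⟨D, hD, hvD⟩ := List.mem_flatMap.1 (h2 v hv)
          exact ⟨D, hD, rob_vars_of_mem_subs hvD hx⟩
        · simp at hC
      · rw [List.mem_singleton] at hC
        subst hC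
        exact ⟨C, hπ C (by simp), hx⟩

section

variable {α : Type} [Enc α]

theorem Poly.robRule (t : Rule × List Nm × List Fm) {B : α → Fm} {c pre : α → List Fm}
    (hc : Poly c) (hp : Poly pre) (hB : Poly B) :
    Poly (fun a => robRule t (c a) (pre a) (B a)) := by
  unfold PS.robRule
  refine Poly.flatMap ?_ (Poly.assigns hc _)
  have hls : ∀ P : Fm, Poly (fun p : α × List Fm => P.subst (PS.lsub t.2.1 p.2)) := by
    intro P
    exact Poly.substConst (s := fun p : α × List Fm => PS.lsub t.2.1 p.2) P
      (fun x => Poly.lsub (vals := fun p : α × List Fm => p.2) (by fun_prop) _ _)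
  refine Poly.ifb (Poly.and (Poly.allConst _ ?_) ?_) (Poly.inst _ ?_) (by fun_prop)
  · intro P
    exact Poly.decMem (hls P) (by fun_prop)
  · exact Poly.decEq (hls _) (by fun_prop)
  · intro x
    exact Poly.lsub (vals := fun p : α × List Fm => p.2) (by fun_prop) _ _

theorem Poly.robB (FD : List (Rule × List Nm × List Fm)) {c π : α → List Fm} (hc : Poly c)
    (hp : Poly π) : Poly (fun a => robB FD (c a) (π a)) := by
  unfold PS.robB
  refine Poly.flatMap ?_ (by fun_prop)
  refine Poly.append (Poly.flatMapConst _ ?_) (by fun_prop)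
  intro t
  exact Poly.robRule t (by fun_prop) (by fun_prop) (by fun_prop)

theorem Poly.rob (FD : List (Rule × List Nm × List Fm)) {π : α → List Fm} (hp : Poly π) :
    Poly (fun a => rob FD (π a)) := by
  unfold PS.rob
  refine Poly.cutAt (by fun_prop) (Poly.app (by fun_prop) ?_)
  exact Poly.robB FD (by fun_prop) hp

end

/-- Derivations with arbitrary sound schematic rules `G` and further steps become derivations
with the rules of the Frege system `F` and the same further steps; no variables are added. -/
theorem robust {F G : List Rule} (hF : IsFrege F)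
    (hG : ∀ r ∈ G, ∀ v : Nm → Prop, (∀ P ∈ r.prem, P.Eval v) → r.concl.Eval v) :
    ∃ h : List Fm → List Fm, Poly h ∧
      ∀ (Step : List Fm → Fm → Prop), Mono Step → ∀ (π : List Fm) (A : Fm),
        Deriv (fun σ B => RuleStep G σ B ∨ Step σ B) π → π.getLast? = some A →
        Deriv (fun σ B => RuleStep F σ B ∨ Step σ B) (h π) ∧ (h π).getLast? = some A ∧
          ∀ C ∈ h π, ∀ x ∈ C.vars, ∃ D ∈ π, x ∈ D.vars := by
  obtain ⟨FD, hFD⟩ := exists_robOk hF hG
  refine ⟨rob FD, Poly.rob FD Poly.id, ?_⟩
  intro Step hm π A h1 h2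
  have hm' : Mono (fun σ B => RuleStep F σ B ∨ Step σ B) := by
    rintro π π' B h (h1 | h1)
    · exact Or.inl (mono_ruleStep F π π' B h h1)
    · exact Or.inr (hm π π' B h h1)
  obtain ⟨j1, j2⟩ := robB_just hFD hm (π.flatMap subs) h1
    (fun B hB E hE => List.mem_flatMap.2 ⟨B, hB, hE⟩)
  have hA : A ∈ π := List.mem_of_getLast? h2
  have hD := deriv_app hm' Deriv.nil j1
  have hlast : lastF π = A := lastF_eq h2
  obtain ⟨d1, d2⟩ := deriv_cutAt hD (mem_app.2 (Or.inr (j2 A hA)))
  unfold rob
  rw [hlast]
  refine ⟨d1, d2, ?_⟩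
  intro C hC x hx
  have hC' : C ∈ app [] (robB FD (π.flatMap subs) π) := by
    unfold cutAt at hC
    rcases List.mem_append.1 hC with hC | hC
    · exact (List.takeWhile_prefix _).subset hC
    · rw [List.mem_singleton] at hC
      subst hC
      exact mem_app.2 (Or.inr (j2 _ hA))
  rcases mem_app.1 hC' with h | h
  · simp at h
  · exact robB_vars hFD π (fun B hB => hB) C h x hx

end Pool.Agent.H.MP_0447ec_lc.PS
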