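import Pool.Agent.H.MP_0447ec_lc.LV.Count
import Pool.Agent.H.MP_0447ec_lc.LV.Reg
import Pool.Agent.H.MP_0447ec_lc.LV.Fin
import Pool.Agent.H.MP_0447ec_lc.LV.Robust

/-!
# From the permutation rule to substitution Frege with linearly many variables
-/

namespace Pool.Agent.H.MP_0447ec_lc.PS

open Fm Pool.Agent.H.MP_0447ec_lc.PT

/-- The functions that are used. -/
structure Fns where
  /-- from extended Frege proofs to proofs with permutations -/
  f : List Fm → List Fm
  /-- substitutions in extended Frege proofs -/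
  gs : List (Nm × Fm) × List Fm → List Fm
  /-- blocks -/
  Tb : (ℕ × ℕ × ℕ) × List (List Nm) × List Nm → List (List Nm)
  /-- words -/
  Tw : ℕ × ℕ → List (List Bool)
  /-- codes -/
  Tc : List Nm → List (Nm × List Bool)
  /-- registers -/
  Tr : Nm × List (List Nm) × List (Nm × List Bool) × List (List Bool) × List Fm → List Fm
  /-- the last step -/
  Tf : (ℕ × Nm × List (List Bool)) × (List (List Nm) × List (List Nm) × List (List Bool)) ×
      List (Nm × List Bool) × Fm → List Fm

namespace Fns

variable (q : Fns)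

def xs (π : List Fm) : List Nm := dd (nms (lastF π))
def b (π : List Fm) : ℕ := Nat.log 2 (sz π) + 1
def w (π : List Fm) : ℕ := cdiv (xs π).length (b π)
def V (π : List Fm) : List (List Bool) := q.Tw (2 * sz π, b π)
def xb (π : List Fm) : List (List Nm) :=
  q.Tb ((lenB π, 0, b π), List.replicate (w π) [], xs π)
def L (π : List Fm) : ℕ := bdN (q.xb π).flatten
def d (π : List Fm) : Nm := fn (q.L π) 0 []
def L2 (π : List Fm) : ℕ := q.L π + 2
def tab (π : List Fm) : List (Nm × Fm) := tblD (q.d π) (q.L2 π) (q.V π) (q.xb π)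
def ρ (π : List Fm) : List Fm := q.f (q.gs (q.tab π, π))
def zn (π : List Fm) : List Nm :=
  (List.range (w π)).flatMap (fun j => (q.V π).map (fun v => fn (q.L2 π) j v))
def oth (π : List Fm) : List Nm :=
  (dd ((q.ρ π).flatMap nms)).filter (fun x => !(decide (x ∈ q.zn π)))
def m (π : List Fm) : ℕ := w π + (q.oth π).length
def c (π : List Fm) : ℕ := Nat.log 2 (q.m π) + 1
def codes (π : List Fm) : List (List Bool) :=
  (q.Tc (List.replicate (q.m π) [])).map Prod.snd
def pre (π : List Fm) : List (List Bool) := (q.codes π).take (w π)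
def cd (π : List Fm) : List (Nm × List Bool) :=
  (q.pre π).zipIdx.flatMap (fun p => (q.V π).map (fun v => (fn (q.L2 π) p.2 v, p.1 ++ v))) ++
    ((q.oth π).zip ((q.codes π).drop (w π))).map
      (fun p => (p.1, p.2 ++ List.replicate (b π) false))
def tb (π : List Fm) : List (List Nm) :=
  (List.range (w π)).map (fun j => (List.range (q.c π)).map
    (fun k => fn (q.L2 π) j (List.replicate k true)))
def regs (π : List Fm) : List (List Nm) :=
  ((q.tb π).zip (q.xb π)).map (fun p => p.1 ++ p.2)
def W (π : List Fm) : List (List Bool) := q.Tw (4 * q.m π * sz π, q.c π + b π)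
def out1 (π : List Fm) : List Fm := q.Tr (q.d π, q.regs π, q.cd π, q.W π, q.ρ π)
def out2 (π : List Fm) : List Fm :=
  q.Tf ((q.L2 π, q.d π, q.V π), (q.xb π, q.tb π, q.pre π), q.cd π, lastF π)
def out (π : List Fm) : List Fm := cutAt (lastF π) (app [] (q.out1 π ++ q.out2 π))

structure IsPoly : Prop where
  hf : Poly q.f
  hgs : Poly q.gs
  hTb : Poly q.Tb
  hTw : Poly q.Tw
  hTc : Poly q.Tc
  hTr : Poly q.Tr
  hTf : Poly q.Tf

variable {q}

theorem pxs : Poly xs := by unfold xs; fun_prop
theorem pb : Poly b := by unfold b; fun_prop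
theorem pw : Poly w := by
  have := pxs; have := pb
  unfold w; fun_prop
theorem pV (h : q.IsPoly) : Poly q.V := by
  have := pb; have := h.hTw
  unfold V; fun_prop
theorem pxb (h : q.IsPoly) : Poly q.xb := by
  have h1 : Poly (fun π : List Fm => (lenB π, 0, b π)) :=
    Poly.pair (by fun_prop) (Poly.pair (PT.Poly.const 0) pb)
  have h2 : Poly (fun π : List Fm => (List.replicate (w π) ([] : List Nm))) :=
    Poly.replicateC pw (PT.Poly.const [])
  have h3 : Poly (fun π : List Fm => ((lenB π, 0, b π), List.replicate (w π) ([] : List Nm),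
      xs π)) := Poly.pair h1 (Poly.pair h2 pxs)
  exact Poly.comp (f := q.Tb) h.hTb h3
theorem pL (h : q.IsPoly) : Poly q.L := by
  have := pxb h
  unfold L; fun_prop
theorem pd (h : q.IsPoly) : Poly q.d := by
  have := pL h
  unfold d; fun_prop
theorem pL2 (h : q.IsPoly) : Poly q.L2 := by
  have := pL h
  unfold L2; fun_prop
theorem ptab (h : q.IsPoly) : Poly q.tab := by
  have := pL2 h; have := pd h; have := pV h; have := pxb h
  unfold tab; fun_prop
theorem pρ (h : q.IsPoly) : Poly q.ρ := by
  have := ptab h; have := h.hf; have := h.hgs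
  unfold ρ; fun_prop
theorem pzn (h : q.IsPoly) : Poly q.zn := by
  have := pw; have := pV h; have := pL2 h
  unfold zn; fun_prop
theorem poth (h : q.IsPoly) : Poly q.oth := by
  have := pρ h; have := pzn h
  unfold oth; fun_prop
theorem pm (h : q.IsPoly) : Poly q.m := by
  have := pw; have := poth h
  unfold m; fun_prop
theorem pc (h : q.IsPoly) : Poly q.c := by
  have := pm h
  unfold c; fun_prop
theorem pcodes (h : q.IsPoly) : Poly q.codes := by
  have := pm h; have := h.hTc
  unfold codes; fun_prop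
theorem ppre (h : q.IsPoly) : Poly q.pre := by
  have := pcodes h; have := pw
  unfold pre; fun_prop
theorem pcd (h : q.IsPoly) : Poly q.cd := by
  have := pcodes h; have := pw; have := ppre h; have := pL2 h; have := pV h; have := pb
  have := poth h
  unfold cd; fun_prop
theorem ptb (h : q.IsPoly) : Poly q.tb := by
  have := pw; have := pc h; have := pL2 h
  unfold tb; fun_prop
theorem pregs (h : q.IsPoly) : Poly q.regs := by
  have := ptb h; have := pxb h
  unfold regs; fun_prop
theorem pW (h : q.IsPoly) : Poly q.W := by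
  have := pm h; have := pc h; have := pb; have := h.hTw
  unfold W; fun_prop
theorem pout1 (h : q.IsPoly) : Poly q.out1 := by
  have := pd h; have := pregs h; have := pcd h; have := pW h; have := pρ h; have := h.hTr
  unfold out1; fun_prop
theorem pout2 (h : q.IsPoly) : Poly q.out2 := by
  have := pL2 h; have := pd h; have := pV h; have := pxb h; have := ptb h; have := ppre h
  have := pcd h; have := h.hTf
  unfold out2; fun_prop
theorem pout (h : q.IsPoly) : Poly q.out := by
  have := pout1 h; have := pout2 h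
  unfold out; fun_prop

/-- The specifications. -/
structure Spec (F : List Rule) (R : Fm → List Fm → Prop) (q : Fns) : Prop where
  f : ∀ (A : Fm) (π : List Fm), RL R A π → PermProof F A (q.f π)
  gs : ∀ (t : List (Nm × Fm)) (π : List Fm) (A : Fm), RL R A π →
      RL R (A.subst (tsub t)) (q.gs (t, π))
  Tb : ∀ (L c e : ℕ) (rgs : List (List Nm)) (oth : List Nm),
      (∀ ys ∈ rgs, ys.length = c) → c ≤ e → oth.length ≤ rgs.length * (e - c) →
      (rgs.flatten ++ oth).Nodup → (∀ x ∈ rgs.flatten ++ oth, x.length ≤ L) →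
      (q.Tb ((L, c, e), rgs, oth)).length = rgs.length ∧
      (∀ b ∈ q.Tb ((L, c, e), rgs, oth), b.length = e) ∧
      (q.Tb ((L, c, e), rgs, oth)).flatten.Nodup ∧
      (∀ x ∈ rgs.flatten ++ oth, x ∈ (q.Tb ((L, c, e), rgs, oth)).flatten) ∧
      (∀ (J : ℕ) (h1 : J < rgs.length) (h2 : J < (q.Tb ((L, c, e), rgs, oth)).length),
        rgs[J] <+: (q.Tb ((L, c, e), rgs, oth))[J])
  Tw : ∀ (cap e : ℕ), 2 ^ e ≤ cap → (q.Tw (cap, e)).Nodup ∧ (q.Tw (cap, e)).length = 2 ^ e ∧
      ∀ w, w ∈ q.Tw (cap, e) ↔ w.length = e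
  Tc : ∀ l : List Nm, (q.Tc l).map Prod.fst = l ∧ ((q.Tc l).map Prod.snd).Nodup ∧
      ∀ p ∈ q.Tc l, p.2.length = Nat.log 2 l.length + 1 ∧ true ∈ p.2
  Tr : ∀ (d : Nm) (regs : List (List Nm)) (cd : List (Nm × List Bool)) (W : List (List Bool))
      (r : ℕ) (ρ : List Fm),
      (∀ w, w ∈ W ↔ w.length = r) → (∀ ys ∈ regs, ys.length = r) → regs.flatten.Nodup →
      d ∉ regs.flatten → (cd.map Prod.fst).Nodup → (cd.map Prod.snd).Nodup →
      (∀ p ∈ cd, p.2.length = r) → Deriv (FP F) ρ →
      (∀ C ∈ ρ, ∀ x ∈ C.vars, x ∈ cd.map Prod.fst) →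
      ∀ π : List Fm, Just (GC (GG F)) π (q.Tr (d, regs, cd, W, ρ)) ∧
        (∀ B ∈ ρ, B.subst (tsub (regT d regs cd)) ∈ q.Tr (d, regs, cd, W, ρ)) ∧
        ∀ C ∈ q.Tr (d, regs, cd, W, ρ), ∀ x ∈ C.vars, x = d ∨ x ∈ regs.flatten
  Tf : ∀ (L : ℕ) (d : Nm) (V : List (List Bool)) (b c : ℕ) (xb tb : List (List Nm))
      (pre : List (List Bool)) (cd : List (Nm × List Bool)) (A : Fm),
      (∀ w, w ∈ V ↔ w.length = b) → (∀ ys ∈ xb, ys.length = b) → (∀ ys ∈ tb, ys.length = c) →
      (∀ w ∈ pre, w.length = c) → pre.Nodup → tb.length = xb.length →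
      pre.length = xb.length → (tb.flatten ++ xb.flatten).Nodup →
      d ∉ tb.flatten ++ xb.flatten → d.length ≤ L → (∀ x ∈ A.vars, x ∈ xb.flatten) →
      (cd.map Prod.fst).Nodup → (∀ p ∈ pre.zipIdx, ∀ v ∈ V, (fn L p.2 v, p.1 ++ v) ∈ cd) →
      ∀ π : List Fm,
        (A.subst (tsub (tblD d L V xb))).subst
          (tsub (regT d (List.zipWith (fun x y => x ++ y) tb xb) cd)) ∈ π →
        Just (GC (GG F)) π (q.Tf ((L, d, V), (xb, tb, pre), cd, A)) ∧
        A ∈ q.Tf ((L, d, V), (xb, tb, pre), cd, A) ∧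
        ∀ C ∈ q.Tf ((L, d, V), (xb, tb, pre), cd, A), ∀ x ∈ C.vars,
          x = d ∨ x ∈ tb.flatten ∨ x ∈ xb.flatten

section spec

variable {F : List Rule} {R : Fm → List Fm → Prop} (h : Spec F R q) {A : Fm} {π : List Fm}
  (hπ : RL R A π)

include hπ in
theorem last : lastF π = A := lastF_eq hπ.2

theorem xs_nodup (π : List Fm) : (xs π).Nodup := nodup_dd _

include hπ in
theorem mem_xs {x : Nm} : x ∈ xs π ↔ x ∈ A.vars := by
  unfold xs
  rw [mem_dd, mem_nms, last hπ]

include hπ in
theorem xs_length : (xs π).length = numVars [A] := by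
  rw [numVars_one]
  unfold xs
  rw [last hπ]

theorem b_pos (π : List Fm) : 0 < b π := by unfold b; omega

theorem w_pos (π : List Fm) : 0 < w π := by
  unfold w
  rw [cdiv_eq (b_pos π)]
  exact Nat.succ_pos _

theorem two_pow_b (π : List Fm) : 2 ^ b π ≤ 2 * sz π := by
  unfold b
  rw [pow_succ]
  have := Nat.pow_log_le_self 2 (x := sz π) (by have := sz_pos π; omega)
  omega

include h in
theorem mem_V {v : List Bool} : v ∈ q.V π ↔ v.length = b π :=
  (h.Tw _ _ (two_pow_b π)).2.2 v

include h in
theorem V_nodup : (q.V π).Nodup := (h.Tw _ _ (two_pow_b π)).1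

include h hπ in
theorem xb_spec : (q.xb π).length = w π ∧ (∀ ys ∈ q.xb π, ys.length = b π) ∧
    (q.xb π).flatten.Nodup ∧ (∀ x ∈ A.vars, x ∈ (q.xb π).flatten) := by
  have h0 : (List.replicate (w π) ([] : List Nm)).flatten = [] := by simp
  obtain ⟨h1, h2, h3, h4, -⟩ := h.Tb (lenB π) 0 (b π) (List.replicate (w π) []) (xs π)
    (by intro ys hys; rw [(List.mem_replicate.1 hys).2]; rfl) (Nat.zero_le _)
    (by
      rw [List.length_replicate, Nat.sub_zero]
      exact le_cdiv_mul (b_pos π))
    (by rw [h0, List.nil_append]; exact xs_nodup π)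
    (by
      rw [h0, List.nil_append]
      intro x hx
      exact (lenB_spec (List.mem_of_getLast? hπ.2) ((mem_xs hπ).1 hx)).le)
  rw [List.length_replicate] at h1
  refine ⟨h1, h2, h3, fun x hx => h4 x ?_⟩
  rw [h0, List.nil_append]
  exact (mem_xs hπ).2 hx

theorem le_L {x : Nm} (hx : x ∈ (q.xb π).flatten) : x.length ≤ q.L π := le_bdN hx

theorem d_length : (q.d π).length = q.L2 π := by
  unfold d L2 fn
  simp

theorem d_not_mem : q.d π ∉ (q.xb π).flatten := by
  intro hx
  have h1 := le_L hx
  rw [d_length] at h1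
  unfold L2 at h1
  omega

include h hπ in
theorem ρ_spec : PermProof F (A.subst (tsub (q.tab π))) (q.ρ π) :=
  h.f _ _ (h.gs _ _ _ hπ)

theorem mem_zn {x : Nm} : x ∈ q.zn π ↔ ∃ j < w π, ∃ v ∈ q.V π, x = fn (q.L2 π) j v := by
  unfold zn
  simp only [List.mem_flatMap, List.mem_range, List.mem_map]
  constructor
  · rintro ⟨j, hj, v, hv, rfl⟩; exact ⟨j, hj, v, hv, rfl⟩
  · rintro ⟨j, hj, v, hv, rfl⟩; exact ⟨j, hj, v, hv, rfl⟩

include h in
theorem zn_nodup : (q.zn π).Nodup := by
  unfold zn
  rw [List.nodup_flatMap]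
  constructor
  · intro j _
    refine List.Nodup.map ?_ (V_nodup h)
    intro v v' hv
    exact (fn_inj hv).2
  · refine List.nodup_range.imp ?_
    intro i j hij
    rw [Function.onFun, List.disjoint_left]
    intro x hx hx'
    obtain ⟨v, _, rfl⟩ := List.mem_map.1 hx
    obtain ⟨v', _, hv'⟩ := List.mem_map.1 hx'
    exact hij (fn_inj hv').1.symm

theorem oth_nodup : (q.oth π).Nodup := (nodup_dd _).filter _

theorem mem_oth {x : Nm} : x ∈ q.oth π ↔ (∃ C ∈ q.ρ π, x ∈ C.vars) ∧ x ∉ q.zn π := by
  unfold oth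
  rw [List.mem_filter, mem_dd, List.mem_flatMap]
  simp only [mem_nms, Bool.not_eq_true', decide_eq_false_iff_not]

include h in
theorem codes_spec : (q.codes π).length = q.m π ∧ (q.codes π).Nodup ∧
    ∀ u ∈ q.codes π, u.length = q.c π := by
  obtain ⟨h1, h2, h3⟩ := h.Tc (List.replicate (q.m π) [])
  refine ⟨?_, h2, ?_⟩
  · have := congrArg List.length h1
    unfold codes
    rw [List.length_map, List.length_replicate] at this
    rw [List.length_map, this]
  · intro u hu
    obtain ⟨p, hp, rfl⟩ := List.mem_map.1 hu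
    rw [(h3 p hp).1, List.length_replicate]
    rfl

include h in
theorem pre_spec : (q.pre π).length = w π ∧ (q.pre π).Nodup ∧
    (∀ u ∈ q.pre π, u.length = q.c π) ∧ ((q.codes π).drop (w π)).length = (q.oth π).length := by
  obtain ⟨h1, h2, h3⟩ := codes_spec h (π := π)
  unfold pre
  refine ⟨?_, h2.sublist (List.take_sublist _ _), fun u hu => h3 u (List.mem_of_mem_take hu), ?_⟩
  · rw [List.length_take, h1]
    unfold m; omega
  · rw [List.length_drop, h1]
    unfold m; omega

include h in
theorem cd_fst : (q.cd π).map Prod.fst = q.zn π ++ q.oth π := by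
  obtain ⟨h1, h2, h3, h4⟩ := pre_spec h (π := π)
  unfold cd
  rw [List.map_append]
  congr 1
  · unfold zn
    rw [List.map_flatMap, ← h1]
    have : ∀ (l : List (List Bool)) (k : ℕ),
        (l.zipIdx k).flatMap (fun a => List.map Prod.fst
          (List.map (fun v => (fn (q.L2 π) a.2 v, a.1 ++ v)) (q.V π))) =
        (List.range' k l.length).flatMap (fun j => (q.V π).map (fun v => fn (q.L2 π) j v)) := by
      intro l
      induction l with
      | nil => intro k; rfl
      | cons a l ih =>
        intro k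
        rw [List.zipIdx_cons, List.flatMap_cons, ih, List.length_cons, List.range'_succ,
          List.flatMap_cons, List.map_map]
        rfl
    rw [this, List.range_eq_range']
  · rw [List.map_map]
    have : ∀ (l : List Nm) (m : List (List Bool)), m.length = l.length →
        (l.zip m).map (Prod.fst ∘ fun p : Nm × List Bool =>
          (p.1, p.2 ++ List.replicate (b π) false)) = l := by
      intro l
      induction l with
      | nil => intro m _; rfl
      | cons a l ih =>
        intro m hm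
        cases m with
        | nil => simp at hm
        | cons u m => simp [ih m (by simpa using hm)]
    exact this _ _ h4

include h in
theorem cd_fst_nodup : ((q.cd π).map Prod.fst).Nodup := by
  rw [cd_fst h, List.nodup_append]
  refine ⟨zn_nodup h, oth_nodup, ?_⟩
  rintro x hx y hy rfl
  exact (mem_oth.1 hy).2 hx

include h in
theorem cd_len {p : Nm × List Bool} (hp : p ∈ q.cd π) : p.2.length = q.c π + b π := by
  obtain ⟨h1, h2, h3, h4⟩ := pre_spec h (π := π)
  unfold cd at hp
  rcases List.mem_append.1 hp with hp | hp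
  · obtain ⟨a, ha, hp⟩ := List.mem_flatMap.1 hp
    obtain ⟨v, hv, rfl⟩ := List.mem_map.1 hp
    have h5 := h3 a.1 (by rw [(List.mem_zipIdx' ha).2]; exact List.getElem_mem _)
    simp only [List.length_append, h5, (mem_V h).1 hv]
  · obtain ⟨a, ha, rfl⟩ := List.mem_map.1 hp
    have h5 := (codes_spec h (π := π)).2.2 a.2 (List.mem_of_mem_drop (List.of_mem_zip ha).2)
    simp [h5]

theorem zip_snd_sublist {β γ : Type} : ∀ (l : List β) (m : List γ),
    ((l.zip m).map Prod.snd).Sublist m := by
  intro l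
  induction l with
  | nil => intro m; simp
  | cons a l ih =>
    intro m
    cases m with
    | nil => simp
    | cons u m => simpa using ih m

include h in
theorem cd_snd_nodup : ((q.cd π).map Prod.snd).Nodup := by
  obtain ⟨h1, h2, h3, h4⟩ := pre_spec h (π := π)
  obtain ⟨c1, c2, c3⟩ := codes_spec h (π := π)
  have h5 : (q.pre π ++ (q.codes π).drop (w π)).Nodup := by
    unfold pre
    rw [List.take_append_drop]
    exact c2
  rw [List.nodup_append] at h5
  unfold cd
  rw [List.map_append, List.nodup_append]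
  refine ⟨?_, ?_, ?_⟩
  · rw [List.map_flatMap]
    have key : ∀ (l : List (List Bool)) (k : ℕ), l.Nodup → (∀ u ∈ l, u.length = q.c π) →
        ((l.zipIdx k).flatMap (fun a => List.map Prod.snd
          (List.map (fun v => (fn (q.L2 π) a.2 v, a.1 ++ v)) (q.V π)))).Nodup := by
      intro l
      induction l with
      | nil => intro k _ _; exact List.nodup_nil
      | cons a l ih =>
        intro k hl hc
        rw [List.nodup_cons] at hl
        rw [List.zipIdx_cons, List.flatMap_cons, List.nodup_append]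
        refine ⟨?_, ih _ hl.2 (fun u hu => hc u (List.mem_cons_of_mem _ hu)), ?_⟩
        · rw [List.map_map]
          refine List.Nodup.map ?_ (V_nodup h)
          intro v v' hv
          exact List.append_cancel_left hv
        · rintro x hx y hy rfl
          rw [List.map_map] at hx
          obtain ⟨v, -, rfl⟩ := List.mem_map.1 hx
          obtain ⟨a', ha', hy⟩ := List.mem_flatMap.1 hy
          rw [List.map_map] at hy
          obtain ⟨v', -, hv'⟩ := List.mem_map.1 hy
          have e1 : a'.1 ∈ l := by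
            have := List.mem_map_of_mem (f := Prod.fst) ha'
            rwa [List.zipIdx_map_fst] at this
          have e2 : a'.1.length = a.length := by
            rw [hc a'.1 (List.mem_cons_of_mem _ e1), hc a (by simp)]
          have e3 : a'.1 ++ v' = a ++ v := hv'
          have e4 := (List.append_inj e3 e2).1
          exact hl.1 (e4 ▸ e1)
    exact key _ 0 h2 h3
  · rw [List.map_map]
    have key : ∀ (l : List Nm) (m : List (List Bool)), m.Nodup →
        ((l.zip m).map (Prod.snd ∘ fun p : Nm × List Bool =>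
          (p.1, p.2 ++ List.replicate (b π) false))).Nodup := by
      intro l m hm
      have e : (l.zip m).map (Prod.snd ∘ fun p : Nm × List Bool =>
          (p.1, p.2 ++ List.replicate (b π) false)) =
          ((l.zip m).map Prod.snd).map (fun u => u ++ List.replicate (b π) false) := by
        rw [List.map_map]; rfl
      rw [e]
      refine List.Nodup.map (fun u u' hu => List.append_cancel_right hu) ?_
      exact hm.sublist (zip_snd_sublist l m)
    exact key _ _ h5.2.1
  · rintro x hx y hy rfl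
    rw [List.map_flatMap] at hx
    obtain ⟨a, ha, hx⟩ := List.mem_flatMap.1 hx
    rw [List.map_map] at hx hy
    obtain ⟨v, hv, hx⟩ := List.mem_map.1 hx
    obtain ⟨p, hp, hy⟩ := List.mem_map.1 hy
    have e0 : a.1 ∈ q.pre π := by
      have := List.mem_map_of_mem (f := Prod.fst) ha
      rwa [List.zipIdx_map_fst] at this
    have e1 := (List.of_mem_zip hp).2
    have e2 : a.1 ++ v = p.2 ++ List.replicate (b π) false := by
      have e3 : a.1 ++ v = x := hx
      have e4 : p.2 ++ List.replicate (b π) false = x := hy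
      rw [e3, e4]
    have e3 : a.1.length = p.2.length := by
      rw [h3 _ e0, c3 _ (List.mem_of_mem_drop e1)]
    have e4 := (List.append_inj e2 e3).1
    exact h5.2.2 _ e0 _ e1 e4

theorem tb_length : (q.tb π).length = w π := by simp [tb]

theorem tb_len {ys : List Nm} (hy : ys ∈ q.tb π) : ys.length = q.c π := by
  obtain ⟨j, -, rfl⟩ := List.mem_map.1 hy
  simp

theorem mem_tb {x : Nm} : x ∈ (q.tb π).flatten ↔
    ∃ j < w π, ∃ k < q.c π, x = fn (q.L2 π) j (List.replicate k true) := by
  unfold tb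
  simp only [List.mem_flatten, List.mem_map, List.mem_range]
  constructor
  · rintro ⟨ys, ⟨j, hj, rfl⟩, hx⟩
    obtain ⟨k, hk, rfl⟩ := List.mem_map.1 hx
    exact ⟨j, hj, k, List.mem_range.1 hk, rfl⟩
  · rintro ⟨j, hj, k, hk, rfl⟩
    exact ⟨_, ⟨j, hj, rfl⟩, List.mem_map_of_mem (List.mem_range.2 hk)⟩

theorem tb_nodup : (q.tb π).flatten.Nodup := by
  unfold tb
  rw [← List.flatMap_def, List.nodup_flatMap]
  constructor
  · intro j _
    refine List.Nodup.map ?_ List.nodup_range
    intro k k' hk
    have := congrArg List.length (fn_inj hk).2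
    simpa using this
  · refine List.nodup_range.imp ?_
    intro i j hij
    rw [Function.onFun, List.disjoint_left]
    intro x hx hx'
    obtain ⟨v, _, rfl⟩ := List.mem_map.1 hx
    obtain ⟨v', _, hv'⟩ := List.mem_map.1 hx'
    exact hij (fn_inj hv').1.symm

theorem lt_tb {x : Nm} (hx : x ∈ (q.tb π).flatten) : q.L2 π < x.length := by
  obtain ⟨j, -, k, -, rfl⟩ := mem_tb.1 hx
  exact fn_length _ _ _

include h hπ in
theorem all_nodup : ((q.tb π).flatten ++ (q.xb π).flatten).Nodup := by
  rw [List.nodup_append]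
  refine ⟨tb_nodup, (xb_spec h hπ).2.2.1, ?_⟩
  rintro x hx y hy rfl
  have h1 := lt_tb hx
  have h2 := le_L hy
  unfold L2 at h1
  omega

theorem d_not_all : q.d π ∉ (q.tb π).flatten ++ (q.xb π).flatten := by
  rw [List.mem_append, not_or]
  refine ⟨fun hx => ?_, d_not_mem⟩
  have h1 := lt_tb hx
  rw [d_length] at h1
  omega

theorem regs_eq : q.regs π = List.zipWith (fun x y => x ++ y) (q.tb π) (q.xb π) := by
  unfold regs
  rw [List.zip, List.map_zipWith]

theorem perm_zipWith_flatten : ∀ (l m : List (List Nm)), l.length = m.length →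
    (List.zipWith (fun x y => x ++ y) l m).flatten.Perm (l.flatten ++ m.flatten) := by
  intro l
  induction l with
  | nil =>
    intro m hm
    cases m with
    | nil => simp
    | cons a m => simp at hm
  | cons a l ih =>
    intro m hm
    cases m with
    | nil => simp at hm
    | cons c m =>
      rw [List.zipWith_cons_cons, List.flatten_cons, List.flatten_cons, List.flatten_cons,
        List.append_assoc, List.append_assoc]
      refine List.Perm.append_left a ?_
      refine (List.Perm.append_left c (ih m (by simpa using hm))).trans ?_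
      rw [← List.append_assoc, ← List.append_assoc]
      exact List.Perm.append_right _ List.perm_append_comm

include h hπ in
theorem regs_perm : (q.regs π).flatten.Perm ((q.tb π).flatten ++ (q.xb π).flatten) := by
  rw [regs_eq]
  exact perm_zipWith_flatten _ _ (by rw [tb_length, (xb_spec h hπ).1])

include h hπ in
theorem regs_len {ys : List Nm} (hy : ys ∈ q.regs π) : ys.length = q.c π + b π := by
  unfold regs at hy
  obtain ⟨p, hp, rfl⟩ := List.mem_map.1 hy
  rw [List.length_append, tb_len (List.of_mem_zip hp).1,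
    (xb_spec h hπ).2.1 _ (List.of_mem_zip hp).2]

include h in
theorem mem_W {v : List Bool} : v ∈ q.W π ↔ v.length = q.c π + b π := by
  refine (h.Tw _ _ ?_).2.2 v
  unfold c
  rw [pow_add, pow_succ]
  have h1 := Nat.pow_log_le_self 2 (x := q.m π) (by
    have := w_pos π
    unfold m; omega)
  have h2 := two_pow_b π
  calc 2 ^ Nat.log 2 (q.m π) * 2 * 2 ^ b π ≤ q.m π * 2 * (2 * sz π) :=
        Nat.mul_le_mul (Nat.mul_le_mul h1 le_rfl) h2
    _ = 4 * q.m π * sz π := by ring

include h hπ in
theorem out1_spec (τ : List Fm) : Just (GC (GG F)) τ (q.out1 π) ∧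
    (A.subst (tsub (q.tab π))).subst (tsub (regT (q.d π) (q.regs π) (q.cd π))) ∈ q.out1 π ∧
    ∀ C ∈ q.out1 π, ∀ x ∈ C.vars, x = q.d π ∨ x ∈ (q.regs π).flatten := by
  have hρ := ρ_spec h hπ
  obtain ⟨h1, h2, h3⟩ := h.Tr (q.d π) (q.regs π) (q.cd π) (q.W π) (q.c π + b π) (q.ρ π)
    (fun _ => mem_W h) (fun ys hy => regs_len h hπ hy)
    ((regs_perm h hπ).nodup_iff.2 (all_nodup h hπ))
    (fun hd => d_not_all ((regs_perm h hπ).mem_iff.1 hd))
    (cd_fst_nodup h) (cd_snd_nodup h) (fun p hp => cd_len h hp) hρ.1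
    (by
      intro C hC x hx
      rw [cd_fst h, List.mem_append]
      by_cases hz : x ∈ q.zn π
      · exact Or.inl hz
      · exact Or.inr (mem_oth.2 ⟨⟨C, hC, hx⟩, hz⟩)) τ
  exact ⟨h1, h2 _ (List.mem_of_getLast? hρ.2), h3⟩

include h hπ in
theorem out2_spec (τ : List Fm)
    (hτ : (A.subst (tsub (q.tab π))).subst (tsub (regT (q.d π) (q.regs π) (q.cd π))) ∈ τ) :
    Just (GC (GG F)) τ (q.out2 π) ∧ A ∈ q.out2 π ∧
    ∀ C ∈ q.out2 π, ∀ x ∈ C.vars, x = q.d π ∨ x ∈ (q.tb π).flatten ∨ x ∈ (q.xb π).flatten := by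
  obtain ⟨x1, x2, x3, x4⟩ := xb_spec h hπ
  obtain ⟨p1, p2, p3, p4⟩ := pre_spec h (π := π)
  have h1 := h.Tf (q.L2 π) (q.d π) (q.V π) (b π) (q.c π) (q.xb π) (q.tb π) (q.pre π) (q.cd π) A
    (fun _ => mem_V h) x2 (fun ys hy => tb_len hy) p3 p2 (by rw [tb_length, x1]) (by rw [p1, x1])
    (all_nodup h hπ) d_not_all d_length.le x4 (cd_fst_nodup h)
    (by
      intro p hp v hv
      unfold cd
      refine List.mem_append_left _ (List.mem_flatMap.2 ⟨p, hp, ?_⟩)
      exact List.mem_map_of_mem (f := fun v => (fn (q.L2 π) p.2 v, p.1 ++ v)) hv) τ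
    (by rw [← regs_eq]; exact hτ)
  unfold out2
  rw [last hπ]
  exact h1

include h hπ in
theorem out_spec : Deriv (GC (GG F)) (q.out π) ∧ (q.out π).getLast? = some A ∧
    ∀ C ∈ q.out π, ∀ x ∈ C.vars, x ∈ q.d π :: ((q.tb π).flatten ++ (q.xb π).flatten) := by
  obtain ⟨a1, a2, a3⟩ := out1_spec h hπ []
  obtain ⟨b1, b2, b3⟩ := out2_spec h hπ ([] ++ q.out1 π) (by simpa using a2)
  have j : Just (GC (GG F)) [] (q.out1 π ++ q.out2 π) := Just.append a1 b1
  have hD := deriv_app (mono_GC (GG F)) Deriv.nil j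
  have hA : A ∈ app [] (q.out1 π ++ q.out2 π) :=
    mem_app.2 (Or.inr (List.mem_append_right _ b2))
  obtain ⟨c1, c2⟩ := deriv_cutAt hD hA
  unfold out
  rw [last hπ]
  refine ⟨c1, c2, ?_⟩
  intro C hC x hx
  have hC' : C ∈ q.out1 π ∨ C ∈ q.out2 π := by
    have : C ∈ app [] (q.out1 π ++ q.out2 π) := by
      unfold cutAt at hC
      rcases List.mem_append.1 hC with hC | hC
      · exact (List.takeWhile_prefix _).subset hC
      · rw [List.mem_singleton] at hC
        rw [hC]; exact hA
    simpa using mem_app.1 this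
  rw [List.mem_cons, List.mem_append]
  rcases hC' with hC' | hC'
  · rcases a3 C hC' x hx with h1 | h1
    · exact Or.inl h1
    · exact Or.inr (List.mem_append.1 ((regs_perm h hπ).mem_iff.1 h1))
  · exact b3 C hC' x hx

end spec

end Fns

theorem length_flatten_eq {β : Type} {l : List (List β)} {c : ℕ} (h : ∀ ys ∈ l, ys.length = c) :
    l.flatten.length = l.length * c := by
  induction l with
  | nil => simp
  | cons a l ih =>
    rw [List.flatten_cons, List.length_append, ih (fun ys hy => h ys (List.mem_cons_of_mem _ hy)),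
      h a (by simp), List.length_cons]
    ring

/-- If the permutation rule simulates `R` then substitution Frege with linearly many variables
simulates `R`. -/
theorem asmA {F : List Rule} (hF : IsFrege F) {R : Fm → List Fm → Prop}
    (hR : ClosedUnderSubstitution R) (h : PSimulates (PermProof F) R) :
    LinearSimulates F R := by
  obtain ⟨f, hf, hf'⟩ := psim_iff.1 h
  obtain ⟨hE, gs, hgs, hgs'⟩ := closedSub_iff.1 hR
  obtain ⟨Tb, hTb, hTb'⟩ := blocks_main
  obtain ⟨Tw, hTw, hTw'⟩ := words_main
  obtain ⟨Tc, hTc, hTc'⟩ := codes_main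
  obtain ⟨Tr, hTr, hTr'⟩ := reg_main F
  obtain ⟨Tf, hTf, hTf'⟩ := fin_main (GG_rich F)
  obtain ⟨rb, hrb, hrb'⟩ := robust hF (GG_sound hF)
  let q : Fns := ⟨f, gs, Tb, Tw, Tc, Tr, Tf⟩
  have hp : q.IsPoly := ⟨hf, hgs, hTb, hTw, hTc, hTr, hTf⟩
  have hs : Fns.Spec F R q := ⟨fun A π h => hf' A π h.1,
    fun t π A h => ⟨hgs' t π A h.1, hE _ _ (hgs' t π A h.1)⟩, hTb', hTw', hTc', hTr', hTf'⟩
  obtain ⟨K, hK0, hK⟩ := log_bound (pbdd_of_poly (Fns.pm hp))
  refine ⟨3 * (K + 1) + 1, fun π => rb (q.out π), ?_, ?_⟩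
  · exact (tm2_iff_poly codeProof_eq codeProof_eq _).2 (Poly.comp hrb (Fns.pout hp))
  · intro A π hR'
    have hπ : RL R A π := ⟨hR', hE A π hR'⟩
    obtain ⟨o1, o2, o3⟩ := Fns.out_spec hs hπ
    obtain ⟨r1, r2, r3⟩ := hrb' ConstStep mono_constStep (q.out π) A o1 o2
    refine ⟨⟨?_, r2⟩, ?_⟩
    · have key : ∀ {τ : List Fm}, Deriv (fun σ B => RuleStep F σ B ∨ ConstStep σ B) τ →
          Deriv (fun σ B => RuleStep F σ B ∨ SubstStep σ B) τ := by
        intro τ hτ
        induction hτ with
        | nil => exact Deriv.nil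
        | snoc _ h2 ih =>
          exact Deriv.snoc ih (h2.imp (fun h => h) (fun h => h.subst))
      exact key r1
    · rw [code_length, ← Fns.xs_length hπ]
      obtain ⟨x1, x2, x3, x4⟩ := Fns.xb_spec hs hπ
      have e1 : numVars (rb (q.out π)) ≤ numVars (q.out π) := numVars_mono r3
      have e2 := numVars_le_length o3
      rw [List.length_cons, List.length_append,
        length_flatten_eq (fun ys hy => Fns.tb_len (q := q) (π := π) hy), length_flatten_eq x2,
        Fns.tb_length, x1] at e2
      have e3 : q.c π ≤ K * Fns.b π := hK π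
      have e4 : Fns.w π * Fns.b π ≤ (Fns.xs π).length + Fns.b π := cdiv_mul_le (Fns.b_pos π)
      have e5 : 0 < (Fns.xs π).length := by
        unfold Fns.xs; exact dd_nms_pos _
      have e6 : Fns.b π = Nat.log 2 (sz π) + 1 := rfl
      have e7 : 1 ≤ Nat.log 2 (sz π) := by
        have h2 := two_le_sz (π := π) (by rintro rfl; simpa using hπ.2)
        exact Nat.log_pos (by norm_num) h2
      have e8 : Fns.w π * q.c π ≤ K * ((Fns.xs π).length + Fns.b π) := by
        calc Fns.w π * q.c π ≤ Fns.w π * (K * Fns.b π) := Nat.mul_le_mul_left _ e3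
          _ = K * (Fns.w π * Fns.b π) := by ring
          _ ≤ K * ((Fns.xs π).length + Fns.b π) := Nat.mul_le_mul_left _ e4
      have e9 : numVars (rb (q.out π)) ≤ (K + 1) * ((Fns.xs π).length + Fns.b π) + 1 := by
        have : (K + 1) * ((Fns.xs π).length + Fns.b π) =
          K * ((Fns.xs π).length + Fns.b π) + ((Fns.xs π).length + Fns.b π) := by ring
        omega
      have e10 : (Fns.xs π).length + Fns.b π ≤ 3 * ((Fns.xs π).length + Nat.log 2 (sz π)) := by
        omega
      calc numVars (rb (q.out π)) ≤ (K + 1) * ((Fns.xs π).length + Fns.b π) + 1 := e9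
        _ ≤ (K + 1) * (3 * ((Fns.xs π).length + Nat.log 2 (sz π))) +
            ((Fns.xs π).length + Nat.log 2 (sz π)) := by
          have := Nat.mul_le_mul_left (K + 1) e10
          omega
        _ = (3 * (K + 1) + 1) * ((Fns.xs π).length + Nat.log 2 (sz π)) := by ring

end Pool.Agent.H.MP_0447ec_lc.PS
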