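import Pool.Agent.H.MP_0447ec_lc.LV.Base
import Pool.Agent.H.MP_0447ec_lc.LV.EnginePoly

/-!
# Lists of names in blocks, lists of words, codes
-/

namespace Pool.Agent.H.MP_0447ec_lc.PS

open Fm

section blk

open PT

variable {α β γ : Type} [Enc α] [Enc β] [Enc γ]

omit [Enc β] in
theorem blk_tail_iter (k : ℕ) (l : List β) : (fun m : List β => m.tail)^[k] l = l.drop k := by
  induction k generalizing l with
  | zero => rfl
  | succ k ih => rw [Function.iterate_succ_apply, ih]; cases l <;> simp

theorem blk_drop {n : α → ℕ} {l : α → List β} (hn : Poly n) (hl : Poly l) :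
    Poly (fun a => (l a).drop (n a)) := by
  have := Poly.iterate (f := fun (_ : α) (m : List β) => m.tail) (s := l) (n := n)
    (B := fun a => sz (l a)) (by fun_prop) hl hn hl.sz_le (by
      intro a k _
      rw [blk_tail_iter]
      exact sz_sublist_le (List.drop_sublist _ _))
  simpa only [blk_tail_iter] using this

theorem blk_take {n : α → ℕ} {l : α → List β} (hn : Poly n) (hl : Poly l) :
    Poly (fun a => (l a).take (n a)) := by
  have h1 : Poly (fun a => (l a).length - n a) := by fun_prop
  have h2 : Poly (fun a => ((l a).reverse.drop ((l a).length - n a)).reverse) :=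
    (blk_drop h1 hl.reverse).reverse
  refine (show (fun a => (l a).take (n a)) = _ from ?_) ▸ h2
  funext a
  rw [List.drop_reverse, List.reverse_reverse]
  have h3 : (l a).length - ((l a).length - n a) = min (n a) (l a).length := by omega
  rw [h3]
  rcases le_total (n a) (l a).length with h | h
  · rw [min_eq_left h]
  · rw [min_eq_right h, List.take_of_length_le h, List.take_length]

theorem blk_range_iter (k : ℕ) : (fun m : List ℕ => m ++ [m.length])^[k] [] = List.range k := by
  induction k with
  | zero => rfl
  | succ k ih => rw [Function.iterate_succ_apply', ih, List.range_succ, List.length_range]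

theorem blk_range {n : α → ℕ} (hn : Poly n) : Poly (fun a => List.range (n a)) := by
  have hB : PBdd (fun a => sz (n a) * (sz (n a) + 1) + 1) :=
    (hn.sz_le.mul (hn.sz_le.add (PBdd.const 1))).add (PBdd.const 1)
  have := Poly.iterate (f := fun (_ : α) (m : List ℕ) => m ++ [m.length])
    (s := fun _ => ([] : List ℕ)) (n := n)
    (B := fun a => sz (n a) * (sz (n a) + 1) + 1) (by fun_prop) (by fun_prop) hn hB (by
      intro a k hk
      rw [blk_range_iter]
      refine (sz_le_of_forall _ (sz (n a)) ?_).trans ?_
      · intro b hb
        rw [List.mem_range] at hb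
        rw [sz_nat, sz_nat]
        omega
      · rw [List.length_range]
        have : k ≤ sz (n a) := by rw [sz_nat]; omega
        have := Nat.mul_le_mul_right (sz (n a) + 1) this
        omega)
  simpa only [blk_range_iter] using this

theorem blk_replicate {n : α → ℕ} (hn : Poly n) (b : Bool) :
    Poly (fun a => List.replicate (n a) b) := by
  have : Poly (fun a => (List.replicate (n a) ()).map (fun _ => b)) := by fun_prop
  refine (show (fun a => List.replicate (n a) b) = _ from ?_) ▸ this
  funext a
  simp

theorem blk_fn {L k : α → ℕ} {w : α → Nm} (hL : Poly L) (hk : Poly k) (hw : Poly w) :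
    Poly (fun a => fn (L a) (k a) (w a)) := by
  unfold fn
  have h1 : Poly (fun a => L a + k a + 1) := by fun_prop
  exact (blk_replicate h1 true).append ((PT.Poly.const false).lcons hw)

/-- The member of a list of lists with a given number. -/
theorem blk_idx {n : α → ℕ} {l : α → List (List β)} (hn : Poly n) (hl : Poly l) :
    Poly (fun a => ((l a).drop (n a)).headD []) :=
  (blk_drop hn hl).headD (PT.Poly.const [])

/-! ### Blocks -/

def blkF (d : ℕ) : List (List β) → List β → List (List β)
  | [], _ => []
  | ys :: rgs, q => (ys ++ q.take d) :: blkF d rgs (q.drop d)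

omit [Enc β] in
theorem blkF_eq (d : ℕ) (rgs : List (List β)) (q : List β) :
    (List.range rgs.length).map (fun J => (rgs.drop J).headD [] ++ (q.drop (J * d)).take d) =
      blkF d rgs q := by
  induction rgs generalizing q with
  | nil => rfl
  | cons ys rgs ih =>
    rw [List.length_cons, List.range_succ_eq_map, List.map_cons, List.map_map, blkF, ← ih]
    congr 1
    · simp
    · apply List.map_congr_left
      intro J _
      simp only [Function.comp, Nat.succ_eq_add_one, List.drop_succ_cons]
      rw [List.drop_drop]
      congr 3
      ring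

omit [Enc β] in
theorem blkF_length (d : ℕ) (rgs : List (List β)) (q : List β) :
    (blkF d rgs q).length = rgs.length := by
  induction rgs generalizing q with
  | nil => rfl
  | cons ys rgs ih => simp [blkF, ih]

omit [Enc β] in
theorem blkF_mem_length {c d : ℕ} {rgs : List (List β)} {q : List β}
    (h : ∀ ys ∈ rgs, ys.length = c) (hq : rgs.length * d ≤ q.length) :
    ∀ b ∈ blkF d rgs q, b.length = c + d := by
  induction rgs generalizing q with
  | nil => intro b hb; simp [blkF] at hb
  | cons ys rgs ih =>
    intro b hb
    rw [List.length_cons, Nat.add_mul, one_mul] at hq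
    rw [blkF, List.mem_cons] at hb
    rcases hb with rfl | hb
    · rw [List.length_append, h ys (by simp), List.length_take, min_eq_left (by omega)]
    · refine ih (fun ys hys => h ys (by simp [hys])) ?_ b hb
      rw [List.length_drop]
      omega

omit [Enc β] in
theorem blkF_perm (d : ℕ) (rgs : List (List β)) (q : List β) :
    (blkF d rgs q).flatten.Perm (rgs.flatten ++ q.take (rgs.length * d)) := by
  induction rgs generalizing q with
  | nil => simp [blkF]
  | cons ys rgs ih =>
    rw [blkF, List.flatten_cons, List.flatten_cons, List.length_cons, Nat.add_mul, one_mul,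
      List.append_assoc, List.append_assoc]
    refine List.Perm.append_left _ ?_
    refine (List.Perm.append_left _ (ih (q.drop d))).trans ?_
    have e : q.take (rgs.length * d + d) = q.take d ++ (q.drop d).take (rgs.length * d) := by
      rw [Nat.add_comm, List.take_add]
    rw [e, ← List.append_assoc, ← List.append_assoc]
    exact List.Perm.append_right _ List.perm_append_comm

omit [Enc β] in
theorem blkF_pfx (d : ℕ) (rgs : List (List β)) (q : List β) (J : ℕ) (h1 : J < rgs.length)
    (h2 : J < (blkF d rgs q).length) : rgs[J] <+: (blkF d rgs q)[J] := by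
  induction rgs generalizing q J with
  | nil => simp at h1
  | cons ys rgs ih =>
    cases J with
    | zero => simp [blkF]
    | succ J =>
      simp only [blkF, List.getElem_cons_succ]
      exact ih (q.drop d) J (by simpa using h1) (by simpa [blkF] using h2)

end blk

/-- Registers `rgs` and further names `oth` are put in blocks of `e` names each: block `J` is
`rgs[J] ++ (e - |rgs[J]| of the names in oth, padded by new names fn L i [])`.
(Left fold over `rgs` with the state (rest of `oth`, a counter for the new names, result), or
index arithmetic as all registers have the same length `c`.) -/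
theorem blocks_main :
    ∃ T : (ℕ × ℕ × ℕ) × List (List Nm) × List Nm → List (List Nm), PT.Poly T ∧
    ∀ (L c e : ℕ) (rgs : List (List Nm)) (oth : List Nm),
      (∀ ys ∈ rgs, ys.length = c) → c ≤ e → oth.length ≤ rgs.length * (e - c) →
      (rgs.flatten ++ oth).Nodup → (∀ x ∈ rgs.flatten ++ oth, x.length ≤ L) →
      (T ((L, c, e), rgs, oth)).length = rgs.length ∧
      (∀ b ∈ T ((L, c, e), rgs, oth), b.length = e) ∧
      (T ((L, c, e), rgs, oth)).flatten.Nodup ∧
      (∀ x ∈ rgs.flatten ++ oth, x ∈ (T ((L, c, e), rgs, oth)).flatten) ∧
      (∀ (J : ℕ) (h1 : J < rgs.length) (h2 : J < (T ((L, c, e), rgs, oth)).length),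
        rgs[J] <+: (T ((L, c, e), rgs, oth))[J]) := by
  refine ⟨fun p => (List.range p.2.1.length).map (fun J => (p.2.1.drop J).headD [] ++
    ((p.2.2 ++ (List.range (p.2.1.length * (p.1.2.2 - p.1.2.1))).map
      (fun i => fn p.1.1 i [])).drop (J * (p.1.2.2 - p.1.2.1))).take (p.1.2.2 - p.1.2.1)),
    ?_, ?_⟩
  · refine PT.Poly.map (f := fun (p : (ℕ × ℕ × ℕ) × List (List Nm) × List Nm) (J : ℕ) =>
      (p.2.1.drop J).headD [] ++
      ((p.2.2 ++ (List.range (p.2.1.length * (p.1.2.2 - p.1.2.1))).map
      (fun i => fn p.1.1 i [])).drop (J * (p.1.2.2 - p.1.2.1))).take (p.1.2.2 - p.1.2.1))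
      ?_ (blk_range (by fun_prop))
    refine PT.Poly.append (blk_idx (by fun_prop) (by fun_prop)) ?_
    refine blk_take (by fun_prop) (blk_drop (by fun_prop) ?_)
    refine PT.Poly.append (by fun_prop) ?_
    refine PT.Poly.map (f := fun (p : ((ℕ × ℕ × ℕ) × List (List Nm) × List Nm) × ℕ) (i : ℕ) =>
      fn p.1.1.1 i []) ?_ (blk_range (by fun_prop))
    exact blk_fn (by fun_prop) (by fun_prop) (by fun_prop)
  · intro L c e rgs oth hc hce hoth hnd hL
    simp only [blkF_eq]
    set q : List Nm := oth ++ (List.range (rgs.length * (e - c))).map (fun i => fn L i [])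
      with hq
    have hql : rgs.length * (e - c) ≤ q.length := by
      rw [hq, List.length_append, List.length_map, List.length_range]
      omega
    have hnew : ∀ x ∈ (List.range (rgs.length * (e - c))).map (fun i => fn L i ([] : Nm)),
        L < x.length := by
      intro x hx
      obtain ⟨i, _, rfl⟩ := List.mem_map.1 hx
      exact fn_length L i []
    have hnd2 : (rgs.flatten ++ q).Nodup := by
      rw [hq, ← List.append_assoc, List.nodup_append]
      refine ⟨hnd, ?_, ?_⟩
      · refine List.Nodup.map ?_ List.nodup_range
        intro i j hij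
        exact (fn_inj hij).1
      · intro x hx y hy hxy
        subst hxy
        have h1 := hL x hx
        have h2 := hnew x hy
        omega
    have hperm := blkF_perm (e - c) rgs q
    refine ⟨blkF_length _ _ _, ?_, ?_, ?_, ?_⟩
    · intro b hb
      rw [blkF_mem_length hc hql b hb]
      omega
    · rw [hperm.nodup_iff]
      exact hnd2.sublist (List.Sublist.append_left (List.take_sublist _ _) _)
    · intro x hx
      rw [hperm.mem_iff, List.mem_append]
      rcases List.mem_append.1 hx with h | h
      · exact Or.inl h
      · refine Or.inr ?_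
        have h3 : q.take (rgs.length * (e - c)) = oth ++
            ((List.range (rgs.length * (e - c))).map (fun i => fn L i [])).take
              (rgs.length * (e - c) - oth.length) := by
          rw [hq, List.take_append, List.take_of_length_le hoth]
        rw [h3]
        exact List.mem_append_left _ h
    · intro J h1 h2
      exact blkF_pfx _ _ _ J h1 h2

/-! ### Words -/

/-- One doubling step. -/
def blkW (cap : ℕ) (ws : List (List Bool)) : List (List Bool) :=
  bif decide (2 * ws.length ≤ cap) then ws.map (fun w => false :: w) ++ ws.map (fun w => true :: w)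
  else ws

theorem blkW_length_le {cap : ℕ} {ws : List (List Bool)} (h : ws.length ≤ cap + 1) :
    (blkW cap ws).length ≤ cap + 1 := by
  unfold blkW
  by_cases h1 : 2 * ws.length ≤ cap
  · simp only [h1, decide_true, cond_true, List.length_append, List.length_map]
    omega
  · simp only [h1, decide_false, cond_false]
    exact h

theorem blkW_mem_length {cap k : ℕ} {ws : List (List Bool)} (h : ∀ w ∈ ws, w.length ≤ k) :
    ∀ w ∈ blkW cap ws, w.length ≤ k + 1 := by
  unfold blkW
  by_cases h1 : 2 * ws.length ≤ cap
  · simp only [h1, decide_true, cond_true]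
    intro w hw
    rcases List.mem_append.1 hw with hw | hw
    · obtain ⟨v, hv, rfl⟩ := List.mem_map.1 hw
      have := h v hv
      simpa using this
    · obtain ⟨v, hv, rfl⟩ := List.mem_map.1 hw
      have := h v hv
      simpa using this
  · simp only [h1, decide_false, cond_false]
    intro w hw
    exact (h w hw).trans (by omega)

theorem blkW_iter_le (cap k : ℕ) : ((blkW cap)^[k] [[]]).length ≤ cap + 1 ∧
    ∀ w ∈ (blkW cap)^[k] [[]], w.length ≤ k := by
  induction k with
  | zero => simp
  | succ k ih =>
    rw [Function.iterate_succ_apply']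
    exact ⟨blkW_length_le ih.1, blkW_mem_length ih.2⟩

theorem blkW_iter_spec {cap : ℕ} (k : ℕ) (h : 2 ^ k ≤ cap) :
    ((blkW cap)^[k] [[]]).Nodup ∧ ((blkW cap)^[k] [[]]).length = 2 ^ k ∧
      ∀ w, w ∈ (blkW cap)^[k] [[]] ↔ w.length = k := by
  induction k with
  | zero => simp
  | succ k ih =>
    have h' : 2 ^ k ≤ cap := le_trans (Nat.pow_le_pow_right (by omega) (by omega)) h
    obtain ⟨i1, i2, i3⟩ := ih h'
    rw [Function.iterate_succ_apply']
    set ws := (blkW cap)^[k] [[]]
    have h1 : 2 * ws.length ≤ cap := by
      rw [i2]
      rw [pow_succ] at h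
      omega
    have e : blkW cap ws = ws.map (fun w => false :: w) ++ ws.map (fun w => true :: w) := by
      unfold blkW
      simp only [h1, decide_true, cond_true]
    rw [e]
    refine ⟨?_, ?_, ?_⟩
    · rw [List.nodup_append]
      refine ⟨i1.map (fun a b hab => by simpa using hab), i1.map (fun a b hab => by simpa using hab),
        ?_⟩
      intro x hx y hy hxy
      obtain ⟨v, _, rfl⟩ := List.mem_map.1 hx
      obtain ⟨v', _, rfl⟩ := List.mem_map.1 hy
      simp at hxy
    · rw [List.length_append, List.length_map, List.length_map, i2, pow_succ]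
      ring
    · intro w
      constructor
      · intro hw
        rcases List.mem_append.1 hw with hw | hw
        · obtain ⟨v, hv, rfl⟩ := List.mem_map.1 hw
          simpa using (i3 v).1 hv
        · obtain ⟨v, hv, rfl⟩ := List.mem_map.1 hw
          simpa using (i3 v).1 hv
      · intro hw
        cases w with
        | nil => simp at hw
        | cons b v =>
          have hv : v ∈ ws := (i3 v).2 (by simpa using hw)
          cases b
          · exact List.mem_append_left _ (List.mem_map.2 ⟨v, hv, rfl⟩)
          · exact List.mem_append_right _ (List.mem_map.2 ⟨v, hv, rfl⟩)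

theorem blk_sz_word (w : List Bool) : PT.sz w ≤ w.length * 4 + 1 :=
  PT.sz_le_of_forall w 3 fun b _ => PT.sz_bool_le b

theorem blk_words {α : Type} [PT.Enc α] {cap e : α → ℕ} (hcap : PT.Poly cap) (he : PT.Poly e) :
    PT.Poly (fun a => (blkW (cap a))^[e a] [[]]) := by
  have hB : PT.PBdd (fun a => (PT.sz (cap a) + 1) * (PT.sz (e a) * 4 + 2) + 1) :=
    (((hcap.sz_le.add (PT.PBdd.const 1)).mul
      ((he.sz_le.mul (PT.PBdd.const 4)).add (PT.PBdd.const 2))).add (PT.PBdd.const 1))
  refine PT.Poly.iterate (f := fun (a : α) (ws : List (List Bool)) => blkW (cap a) ws)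
    (s := fun _ => [[]]) (n := e) (B := fun a => (PT.sz (cap a) + 1) * (PT.sz (e a) * 4 + 2) + 1)
    ?_ (by fun_prop) he hB ?_
  · unfold blkW
    have hc : PT.Poly (fun p : α × List (List Bool) => cap p.1) :=
      hcap.comp (g := fun p : α × List (List Bool) => p.1) (by fun_prop)
    refine PT.Poly.cond ?_ ?_ (by fun_prop)
    · exact PT.Poly.natle (by fun_prop) hc
    · fun_prop
  · intro a k hk
    have h1 := blkW_iter_le (cap a) k
    show PT.sz ((blkW (cap a))^[k] [[]]) ≤ _
    refine (PT.sz_le_of_forall _ (PT.sz (e a) * 4 + 1) ?_).trans ?_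
    · intro w hw
      refine (blk_sz_word w).trans ?_
      have h2 := h1.2 w hw
      have h3 : w.length ≤ PT.sz (e a) := by rw [PT.sz_nat]; omega
      omega
    · have h2 : ((blkW (cap a))^[k] [[]]).length ≤ PT.sz (cap a) + 1 := by
        refine h1.1.trans ?_
        rw [PT.sz_nat]
        omega
      exact Nat.add_le_add_right (Nat.mul_le_mul_right (PT.sz (e a) * 4 + 1 + 1) h2) 1

/-- All words of length `e`, computed in time polynomial in a bound `cap` for their number
(double the list `e` times, but only as long as the result has at most `cap` members). -/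
theorem words_main :
    ∃ T : ℕ × ℕ → List (List Bool), PT.Poly T ∧
    ∀ (cap e : ℕ), 2 ^ e ≤ cap → (T (cap, e)).Nodup ∧ (T (cap, e)).length = 2 ^ e ∧
      ∀ w, w ∈ T (cap, e) ↔ w.length = e := by
  refine ⟨fun p => (blkW p.1)^[p.2] [[]], blk_words (by fun_prop) (by fun_prop), ?_⟩
  intro cap e h
  exact blkW_iter_spec e h

/-! ### Logarithm -/

/-- One step of the computation of the logarithm. -/
def blkL (n : ℕ) (s : ℕ × ℕ) : ℕ × ℕ :=
  bif decide (s.1 + s.1 ≤ n) then (s.1 + s.1, s.2 + 1) else s

theorem blkL_iter (n k : ℕ) :
    (blkL n)^[k] (1, 0) = (2 ^ (min k (Nat.log 2 n)), min k (Nat.log 2 n)) := by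
  induction k with
  | zero => simp
  | succ k ih =>
    rw [Function.iterate_succ_apply', ih]
    unfold blkL
    have e2 : 2 ^ (min k (Nat.log 2 n)) + 2 ^ (min k (Nat.log 2 n)) =
        2 ^ (min k (Nat.log 2 n) + 1) := by
      rw [pow_succ]; ring
    simp only [e2]
    rcases Nat.eq_zero_or_pos n with hn | hn
    · subst hn
      have : ¬ (2 ^ (min k (Nat.log 2 0) + 1) ≤ 0) := by
        have : 0 < 2 ^ (min k (Nat.log 2 0) + 1) := by positivity
        omega
      simp only [this, decide_false, cond_false]
      simp
    · rcases lt_or_ge k (Nat.log 2 n) with h | h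
      · have h1 : 2 ^ (min k (Nat.log 2 n) + 1) ≤ n := by
          rw [min_eq_left h.le]
          exact Nat.pow_le_of_le_log (by omega) (by omega)
        simp only [h1, decide_true, cond_true]
        rw [min_eq_left h.le, min_eq_left (by omega)]
      · have h1 : ¬ (2 ^ (min k (Nat.log 2 n) + 1) ≤ n) := by
          rw [min_eq_right h]
          have := Nat.lt_pow_succ_log_self (b := 2) (by omega) n
          simpa using this
        simp only [h1, decide_false, cond_false]
        rw [min_eq_right h, min_eq_right (by omega)]

/-- The logarithm is computable in polynomial time (unary numbers). -/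
theorem poly_log2 : PT.Poly (fun n : ℕ => Nat.log 2 n) := by
  have key : PT.Poly (fun n : ℕ => (blkL n)^[n] (1, 0)) := by
    refine PT.Poly.iterate (f := fun (n : ℕ) (s : ℕ × ℕ) => blkL n s)
      (s := fun _ => (1, 0)) (n := fun n => n) (B := fun n => 2 * PT.sz n + 10)
      ?_ (by fun_prop) (by fun_prop)
      (((PT.PBdd.const 2).mul PT.PBdd.sz_self).add (PT.PBdd.const 10)) ?_
    · unfold blkL
      refine PT.Poly.cond ?_ ?_ (by fun_prop)
      · exact PT.Poly.natle (by fun_prop) (by fun_prop)
      · fun_prop
    · intro n k hk
      show PT.sz ((blkL n)^[k] (1, 0)) ≤ _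
      rw [blkL_iter, PT.sz_pair, PT.sz_nat, PT.sz_nat, PT.sz_nat]
      have h1 : min k (Nat.log 2 n) ≤ n := (min_le_left _ _).trans hk
      have h2 : 2 ^ (min k (Nat.log 2 n)) ≤ n + 1 := by
        rcases Nat.eq_zero_or_pos n with hn | hn
        · subst hn; simp
        · refine le_trans (Nat.pow_le_pow_right (by omega) (min_le_right _ _)) ?_
          exact (Nat.pow_log_le_self 2 (by omega)).trans (by omega)
      omega
  have h2 : PT.Poly (fun n : ℕ => ((blkL n)^[n] (1, 0)).2) :=
    PT.Poly.comp (f := fun s : ℕ × ℕ => s.2) (by fun_prop) key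
  refine (show (fun n : ℕ => Nat.log 2 n) = _ from ?_) ▸ h2
  funext n
  rw [blkL_iter]
  exact (min_eq_right (Nat.log_le_self 2 n)).symm

/-! ### Codes -/

theorem blk_range_take {β : Type} (n : ℕ) (W : List (List β)) (h : n ≤ W.length) :
    (List.range n).map (fun i => (W.drop i).headD []) = W.take n := by
  induction n generalizing W with
  | zero => simp
  | succ n ih =>
    cases W with
    | nil => simp at h
    | cons w W =>
      rw [List.range_succ_eq_map, List.map_cons, List.map_map, List.take_succ_cons]
      congr 1
      rw [← ih W (by simpa using h)]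
      apply List.map_congr_left
      intro i _
      simp

/-- Distinct codes for the members of a list: words of length `Nat.log 2 n + 1` that contain
`true`, `n` the length of the list (the words of this length without the word `false ... false`,
their number is `2 ^ (log n + 1) - 1 ≥ n`). -/
theorem codes_main :
    ∃ T : List Nm → List (Nm × List Bool), PT.Poly T ∧
    ∀ l : List Nm, (T l).map Prod.fst = l ∧ ((T l).map Prod.snd).Nodup ∧
      ∀ p ∈ T l, p.2.length = Nat.log 2 l.length + 1 ∧ true ∈ p.2 := by
  refine ⟨fun l => (List.range l.length).map (fun i => ((l.drop i).headD [],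
    ((((blkW (2 * l.length + 2))^[Nat.log 2 l.length + 1] [[]]).filter
      (fun w => decide (true ∈ w))).drop i).headD [])), ?_, ?_⟩
  · refine PT.Poly.map (f := fun (l : List Nm) (i : ℕ) => ((l.drop i).headD [],
      ((((blkW (2 * l.length + 2))^[Nat.log 2 l.length + 1] [[]]).filter
        (fun w => decide (true ∈ w))).drop i).headD [])) ?_ (blk_range (by fun_prop))
    refine PT.Poly.pair (blk_idx (by fun_prop) (by fun_prop)) ?_
    refine blk_idx (by fun_prop) ?_
    refine PT.Poly.filter (f := fun (_ : List Nm × ℕ) (w : List Bool) => decide (true ∈ w))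
      (by fun_prop) ?_
    have h1 : PT.Poly (fun p : List Nm × ℕ => Nat.log 2 p.1.length) :=
      PT.Poly.comp (f := fun n : ℕ => Nat.log 2 n) poly_log2 (by fun_prop)
    exact blk_words (by fun_prop) h1.succ
  · intro l
    set n := l.length with hn
    set Wa := (blkW (2 * n + 2))^[Nat.log 2 n + 1] [[]] with hWa
    set W := Wa.filter (fun w => decide (true ∈ w)) with hW
    have hcap : 2 ^ (Nat.log 2 n + 1) ≤ 2 * n + 2 := by
      rw [pow_succ]
      rcases Nat.eq_zero_or_pos n with h | h
      · rw [h]; simp
      · have := Nat.pow_log_le_self 2 (x := n) (by omega)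
        omega
    obtain ⟨w1, w2, w3⟩ := blkW_iter_spec (Nat.log 2 n + 1) hcap
    rw [← hWa] at w1 w2 w3
    have hWlen : n ≤ W.length := by
      have h1 : (Wa.filter (fun w => !decide (true ∈ w))).length ≤ 1 := by
        have hall : ∀ w ∈ Wa.filter (fun w => !decide (true ∈ w)),
            w = List.replicate (Nat.log 2 n + 1) false := by
          intro w hw
          rw [List.mem_filter] at hw
          obtain ⟨hw1, hw2⟩ := hw
          rw [List.eq_replicate_iff]
          refine ⟨(w3 w).1 hw1, ?_⟩
          intro b hb
          cases b
          · rfl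
          · simp [hb] at hw2
        have hnd : (Wa.filter (fun w => !decide (true ∈ w))).Nodup := w1.filter _
        by_contra hcon
        obtain ⟨a, b, t, ht⟩ : ∃ a b t, Wa.filter (fun w => !decide (true ∈ w)) = a :: b :: t := by
          cases hc : Wa.filter (fun w => !decide (true ∈ w)) with
          | nil => rw [hc] at hcon; simp at hcon
          | cons a t =>
            cases t with
            | nil => rw [hc] at hcon; simp at hcon
            | cons b t => exact ⟨a, b, t, rfl⟩
        rw [ht] at hall hnd
        have ha := hall a (by simp)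
        have hb := hall b (by simp)
        rw [ha, hb] at hnd
        simp at hnd
      have h2 : Wa.length = W.length + (Wa.filter (fun w => !decide (true ∈ w))).length := by
        rw [hW]
        exact List.length_eq_length_filter_add _
      have h3 := Nat.lt_pow_succ_log_self (b := 2) (by omega) n
      simp only [Nat.succ_eq_add_one] at h3
      omega
    refine ⟨?_, ?_, ?_⟩
    · rw [List.map_map]
      have h1 := blk_range_take n l hn.le
      rw [hn, List.take_length] at h1
      rw [← hn] at h1
      exact h1
    · rw [List.map_map]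
      have h1 := blk_range_take n W hWlen
      have h2 : (List.map (Prod.snd ∘ fun i => ((l.drop i).headD [], (W.drop i).headD []))
          (List.range n)) = W.take n := h1
      rw [h2]
      exact (w1.filter _).sublist (List.take_sublist _ _)
    · intro p hp
      obtain ⟨i, hi, rfl⟩ := List.mem_map.1 hp
      have h1 := blk_range_take n W hWlen
      have h2 : (W.drop i).headD [] ∈ W := by
        have h3 : (W.drop i).headD [] ∈ W.take n := by
          rw [← h1]
          exact List.mem_map.2 ⟨i, hi, rfl⟩
        exact List.mem_of_mem_take h3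
      rw [hW, List.mem_filter] at h2
      exact ⟨(w3 _).1 h2.1, of_decide_eq_true h2.2⟩

end Pool.Agent.H.MP_0447ec_lc.PS
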