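import Pool.Agent.H.MP_0447ec_lc.LV.Defs
import Pool.Agent.H.MP_0447ec_lc.LV.ESub
import Pool.Agent.H.MP_0447ec_lc.LV.Blocks
import Pool.Agent.H.MP_0447ec_lc.PS.Final2

/-!
# Counting variables; logarithmic bounds
-/

namespace Pool.Agent.H.MP_0447ec_lc.PS

open Fm Pool.Agent.H.MP_0447ec_lc.PT

/-! ### The number of variables -/

theorem numVars_le_length {π : List Fm} {l : List Nm} (h : ∀ C ∈ π, ∀ x ∈ C.vars, x ∈ l) :
    numVars π ≤ l.length := by
  classical
  unfold numVars
  calc {x : List Bool | ∃ C ∈ π, x ∈ C.vars}.ncard ≤ ((l.toFinset : Finset Nm) : Set Nm).ncard :=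
        Set.ncard_le_ncard (by
          rintro x ⟨C, hC, hx⟩
          simpa using h C hC x hx) (Finset.finite_toSet _)
    _ = l.toFinset.card := Set.ncard_coe_finset _
    _ ≤ l.length := List.toFinset_card_le l

theorem numVars_finite (π : List Fm) : {x : List Bool | ∃ C ∈ π, x ∈ C.vars}.Finite := by
  classical
  refine Set.Finite.subset (Finset.finite_toSet (π.flatMap nms).toFinset) ?_
  rintro x ⟨C, hC, hx⟩
  simp only [List.coe_toFinset, Set.mem_ofPred_eq, List.mem_flatMap]
  exact ⟨C, hC, mem_nms.2 hx⟩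

theorem numVars_eq (π : List Fm) : numVars π = (dd (π.flatMap nms)).length := by
  classical
  have h : {x : List Bool | ∃ C ∈ π, x ∈ C.vars} =
      (((dd (π.flatMap nms)).toFinset : Finset Nm) : Set Nm) := by
    ext x
    simp only [Set.mem_ofPred_eq, List.coe_toFinset, mem_dd, List.mem_flatMap]
    exact ⟨fun ⟨C, hC, hx⟩ => ⟨C, hC, mem_nms.2 hx⟩, fun ⟨C, hC, hx⟩ => ⟨C, hC, mem_nms.1 hx⟩⟩
  unfold numVars
  rw [h, Set.ncard_coe_finset, List.toFinset_card_of_nodup (nodup_dd _)]

theorem numVars_one (A : Fm) : numVars [A] = (dd (nms A)).length := by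
  rw [numVars_eq]; simp

theorem numVars_mono {π σ : List Fm} (h : ∀ C ∈ σ, ∀ x ∈ C.vars, ∃ D ∈ π, x ∈ D.vars) :
    numVars σ ≤ numVars π := by
  unfold numVars
  refine Set.ncard_le_ncard ?_ (numVars_finite π)
  rintro x ⟨C, hC, hx⟩
  exact h C hC x hx

theorem nms_ne_nil (A : Fm) : nms A ≠ [] := by
  induction A with
  | var w => simp [nms]
  | neg A ih => simpa [nms] using ih
  | and A B ih1 ih2 => simp [nms, ih1]
  | or A B ih1 ih2 => simp [nms, ih1]
  | imp A B ih1 ih2 => simp [nms, ih1]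

theorem dd_nms_pos (A : Fm) : 0 < (dd (nms A)).length := by
  obtain ⟨x, hx⟩ := List.exists_mem_of_ne_nil _ (nms_ne_nil A)
  exact List.length_pos_of_mem (mem_dd.2 hx)

/-! ### Proofs that end in the proved formula -/

/-- `π` is an `R`-proof of `A` and ends in `A`. -/
abbrev RL (R : Fm → List Fm → Prop) (A : Fm) (π : List Fm) : Prop :=
  R A π ∧ π.getLast? = some A

theorem substTable_eq (t : List (Nm × Fm)) (A : Fm) : A.substTable t = A.subst (tsub t) := by
  refine Fm.subst_congr (fun x _ => ?_)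
  induction t with
  | nil => rfl
  | cons p t ih =>
    rw [tsub_cons, ← ih]
    obtain ⟨w, B⟩ := p
    by_cases h : w = x
    · subst h; simp [List.lookup_cons]
    · have h' : (x == w) = false := by simpa using fun e => h e.symm
      rw [if_neg h, List.lookup_cons, h']

theorem codeTable_eq (t : List (Nm × Fm)) : codeTable t = (enc t).bits := by
  refine code_list (c := fun p : Nm × Fm => true :: (codeWord p.1 ++ codeFm p.2)) ?_ t
  intro p
  simp only [codeWord_eq, codeFm_eq, enc_prod, D.bits]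

theorem codeTableProof_eq (x : List (Nm × Fm) × List Fm) :
    codeTableProof x = (enc x).bits := by
  obtain ⟨t, π⟩ := x
  simp only [codeTableProof, codeTable_eq, codeProof_eq, enc_pair, D.bits]

theorem closedSub_iff {Q : Fm → List Fm → Prop} : ClosedUnderSubstitution Q ↔
    (∀ (A : Fm) (π : List Fm), Q A π → π.getLast? = some A) ∧
    ∃ g : List (Nm × Fm) × List Fm → List Fm, Poly g ∧
      ∀ (t : List (Nm × Fm)) (π : List Fm) (A : Fm), Q A π →
        Q (A.subst (tsub t)) (g (t, π)) := by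
  unfold ClosedUnderSubstitution
  refine and_congr_right (fun _ => ?_)
  constructor
  · rintro ⟨g, h1, h2⟩
    refine ⟨g, (tm2_iff_poly codeTableProof_eq codeProof_eq g).1 h1, ?_⟩
    intro t π A h
    rw [← substTable_eq]
    exact h2 A π t h
  · rintro ⟨g, h1, h2⟩
    refine ⟨g, (tm2_iff_poly codeTableProof_eq codeProof_eq g).2 h1, ?_⟩
    intro A π t h
    rw [substTable_eq]
    exact h2 t π A h

/-! ### The length of names -/

/-- A bound for the lengths of the names in a list. -/
def bdN (l : List Nm) : ℕ := l.flatten.length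

theorem le_bdN {l : List Nm} {x : Nm} (h : x ∈ l) : x.length ≤ bdN l := by
  unfold bdN
  rw [List.length_flatten]
  exact List.single_le_sum (by simp) _ (List.mem_map_of_mem h)

/-! ### Sizes and logarithms -/

theorem code_length (π : List Fm) : (codeProof π).length = sz π := by
  rw [codeProof_eq, D.bits_length]; rfl

section

variable {α β : Type} [Enc α] [Enc β]

@[fun_prop]
theorem Poly.bdN {l : α → List Nm} (hl : Poly l) : Poly (fun a => bdN (l a)) := by
  unfold PS.bdN
  fun_prop

@[fun_prop]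
theorem Poly.szOf {f : α → β} (hf : Poly f) : Poly (fun a => sz (f a)) := by
  have h1 : Poly (fun a => ((enc (f a) : D)).bits) := Poly.comp Poly.bitsD (Poly.encD hf)
  have h2 : Poly (fun a => (((enc (f a) : D)).bits).length) := h1.length
  refine (show (fun a => sz (f a)) = _ from ?_) ▸ h2
  funext a
  rw [D.bits_length]; rfl

@[fun_prop]
theorem Poly.log2 {n : α → ℕ} (hn : Poly n) : Poly (fun a => Nat.log 2 (n a)) :=
  Poly.comp poly_log2 hn

end

theorem eval_le_two_pow (P : Polynomial ℕ) :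
    ∃ K : ℕ, ∀ s : ℕ, P.eval s ≤ 2 ^ (K * (Nat.log 2 s + 1)) := by
  induction P using Polynomial.induction_on with
  | C a =>
    refine ⟨a, fun s => ?_⟩
    rw [Polynomial.eval_C]
    calc a ≤ 2 ^ a := Nat.lt_two_pow_self.le
      _ ≤ 2 ^ (a * (Nat.log 2 s + 1)) := Nat.pow_le_pow_right (by norm_num) (by nlinarith)
  | add P Q hP hQ =>
    obtain ⟨K, hK⟩ := hP
    obtain ⟨M, hM⟩ := hQ
    refine ⟨K + M + 1, fun s => ?_⟩
    rw [Polynomial.eval_add]
    have h1 : 2 ^ (K * (Nat.log 2 s + 1)) ≤ 2 ^ ((K + M) * (Nat.log 2 s + 1)) :=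
      Nat.pow_le_pow_right (by norm_num) (by nlinarith)
    have h2 : 2 ^ (M * (Nat.log 2 s + 1)) ≤ 2 ^ ((K + M) * (Nat.log 2 s + 1)) :=
      Nat.pow_le_pow_right (by norm_num) (by nlinarith)
    have h3 : 2 ^ ((K + M) * (Nat.log 2 s + 1)) * 2 ≤ 2 ^ ((K + M + 1) * (Nat.log 2 s + 1)) := by
      rw [← pow_succ]
      exact Nat.pow_le_pow_right (by norm_num) (by nlinarith)
    have := hK s
    have := hM s
    omega
  | monomial n a h =>
    obtain ⟨K, hK⟩ := h
    refine ⟨K + 1, fun s => ?_⟩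
    have h1 := hK s
    rw [Polynomial.eval_mul, Polynomial.eval_C, Polynomial.eval_pow, Polynomial.eval_X] at h1 ⊢
    have h2 : s ≤ 2 ^ (Nat.log 2 s + 1) := (Nat.lt_pow_succ_log_self (by norm_num) s).le
    calc a * s ^ (n + 1) = (a * s ^ n) * s := by ring
      _ ≤ 2 ^ (K * (Nat.log 2 s + 1)) * 2 ^ (Nat.log 2 s + 1) := Nat.mul_le_mul h1 h2
      _ = 2 ^ ((K + 1) * (Nat.log 2 s + 1)) := by rw [← pow_add]; congr 1; ring

/-- The logarithm of a polynomially bounded function is linear in the logarithm. -/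
theorem log_bound {α : Type} [Enc α] {m : α → ℕ} (h : PBdd m) :
    ∃ K : ℕ, 0 < K ∧ ∀ a, Nat.log 2 (m a) + 1 ≤ K * (Nat.log 2 (sz a) + 1) := by
  obtain ⟨P, hP⟩ := h
  obtain ⟨K, hK⟩ := eval_le_two_pow P
  refine ⟨K + 1, by omega, fun a => ?_⟩
  have h1 : Nat.log 2 (m a) ≤ K * (Nat.log 2 (sz a) + 1) := by
    calc Nat.log 2 (m a) ≤ Nat.log 2 (2 ^ (K * (Nat.log 2 (sz a) + 1))) :=
          Nat.log_mono_right ((hP a).trans (hK _))
      _ = K * (Nat.log 2 (sz a) + 1) := Nat.log_pow (by norm_num) _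
  nlinarith

theorem pbdd_of_poly {α : Type} [Enc α] {m : α → ℕ} (h : Poly m) : PBdd m :=
  h.sz_le.mono (fun a => by rw [sz_nat]; omega)

theorem two_le_sz {π : List Fm} (h : π ≠ []) : 2 ≤ sz π := by
  obtain ⟨A, π', rfl⟩ := List.exists_cons_of_ne_nil h
  rw [sz_lcons]
  have := sz_pos A
  have := sz_pos π'
  omega

/-- Rounded up division. -/
def cdiv (n b : ℕ) : ℕ := ((List.range (n + 1)).filter (fun k => decide (k * b ≤ n))).length

theorem length_filter_range (m : ℕ) : ∀ N : ℕ,
    ((List.range N).filter (fun k => decide (k < m))).length = min N m := by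
  intro N
  induction N with
  | zero => simp
  | succ N ih =>
    rw [List.range_succ, List.filter_append, List.length_append, ih]
    by_cases h : N < m
    · simp [h]; omega
    · simp [h]; omega

theorem cdiv_eq {n b : ℕ} (hb : 0 < b) : cdiv n b = n / b + 1 := by
  have h1 : (fun k => decide (k * b ≤ n)) = (fun k => decide (k < n / b + 1)) := by
    funext k
    congr 1
    rw [Nat.lt_succ_iff, Nat.le_div_iff_mul_le hb]
  unfold cdiv
  rw [h1, length_filter_range]
  have := Nat.div_le_self n b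
  omega

theorem le_cdiv_mul {n b : ℕ} (hb : 0 < b) : n ≤ cdiv n b * b := by
  rw [cdiv_eq hb]
  have := Nat.div_add_mod n b
  have := Nat.mod_lt n hb
  nlinarith

theorem cdiv_mul_le {n b : ℕ} (hb : 0 < b) : cdiv n b * b ≤ n + b := by
  rw [cdiv_eq hb, Nat.add_mul, Nat.one_mul]
  have := Nat.div_mul_le_self n b
  omega

section

variable {α : Type} [Enc α]

@[fun_prop]
theorem Poly.cdiv {n b : α → ℕ} (hn : Poly n) (hb : Poly b) : Poly (fun a => cdiv (n a) (b a)) := by
  unfold PS.cdiv
  refine Poly.length ?_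
  refine Poly.filter (f := fun (a : α) (k : ℕ) => decide (k * b a ≤ n a)) ?_ (by fun_prop)
  exact Poly.natle (by fun_prop) (by fun_prop)

end

end Pool.Agent.H.MP_0447ec_lc.PS
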