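import Pool.Agent.H.MP_0447ec_lc.PS.Defs

/-!
# Deletion of fresh disjuncts
-/

namespace Pool.Agent.H.MP_0447ec_lc.PS

open Fm

/-- The disjunction `z₁ ∨ (z₂ ∨ ... (z_N ∨ A))` of variables and a formula. -/
def orVars (zs : List (List Bool)) (A : Fm) : Fm := zs.foldr (fun z B => Fm.or (var z) B) A

/-- The proof system `P` is p-closed under the deletion of fresh variables from disjunctions: some
function computable in polynomial time maps every formula `A` together with every `P`-proof of
`z₁ ∨ (z₂ ∨ ... (z_N ∨ A))`, where `z₁, ..., z_N` are different variables that do not occur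
in `A`, to a `P`-proof of `A`. -/
def ClosedUnderFreshDisjuncts (P : Fm → List Fm → Prop) : Prop :=
  ∃ g : List Fm → List Fm,
    Nonempty (Turing.TM2ComputableInPolyTime codeProof codeProof g) ∧
    ∀ (A : Fm) (zs : List (List Bool)) (π : List Fm), zs.Nodup → (∀ z ∈ zs, z ∉ A.vars) →
      P (orVars zs A) π → P A (g (A :: π))

end Pool.Agent.H.MP_0447ec_lc.PS
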