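import Pool.Agent.H.MP_0447ec_lc.LV.Base
import Pool.Agent.H.MP_0447ec_lc.PS.PolySim2

/-!
# The variables of the lines of the calculus
-/

namespace Pool.Agent.H.MP_0447ec_lc.PS

open Fm

theorem vars_ct {d x : Nm} {c : Bool} : x ∈ (ct d c).vars ↔ x = d := by
  cases c <;> simp [ct, Fm.vars]

theorem vars_lit {y x : Nm} {b : Bool} : x ∈ (lit y b).vars ↔ x = y := by
  cases b <;> simp [lit, Fm.vars]

theorem vars_cj {d x : Nm} {Γ : List Fm} : x ∈ (cj d Γ).vars ↔ x = d ∨ ∃ A ∈ Γ, x ∈ A.vars := by
  induction Γ with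
  | nil => simp [cj_nil, vars_ct]
  | cons A Γ ih =>
    rw [cj_cons]
    simp only [Fm.vars, Set.mem_union, ih, List.mem_cons, exists_eq_or_imp]
    tauto

theorem vars_dj {d x : Nm} {Γ : List Fm} : x ∈ (dj d Γ).vars ↔ x = d ∨ ∃ A ∈ Γ, x ∈ A.vars := by
  induction Γ with
  | nil => simp [dj_nil, vars_ct]
  | cons A Γ ih =>
    rw [dj_cons]
    simp only [Fm.vars, Set.mem_union, ih, List.mem_cons, exists_eq_or_imp]
    tauto

theorem vars_eqr {d x : Nm} {ys : List Nm} {w : List Bool} (h : x ∈ (eqr d ys w).vars) :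
    x = d ∨ x ∈ ys := by
  unfold eqr at h
  rw [vars_cj] at h
  rcases h with h | ⟨A, hA, hx⟩
  · exact Or.inl h
  · obtain ⟨p, hp, rfl⟩ := List.mem_map.1 hA
    rw [vars_lit] at hx
    subst hx
    exact Or.inr (List.of_mem_zip hp).1

theorem vars_negS {R : Fm} {x : Nm} : x ∈ (negS R).vars ↔ x ∈ R.vars := by
  cases R <;> simp [negS, Fm.vars]

theorem sm_vars {K : List (Nm × Bool)} {A : Fm} (h : (sm K A).1 = none) {x : Nm}
    (hx : x ∈ (sm K A).2.vars) : x ∈ A.vars := by
  induction A with
  | var w =>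
    rw [sm_var] at h hx
    unfold smV at h hx
    cases hl : lk K w with
    | none => rw [hl] at hx; exact hx
    | some b => rw [hl] at h; simp at h
  | neg A ih =>
    rw [sm_neg] at h hx
    unfold smN at h hx
    cases hl : (sm K A).1 with
    | none =>
      simp only [hl] at hx
      exact ih hl (vars_negS.1 hx)
    | some b => simp [hl] at h
  | and A B ihA ihB =>
    rw [sm_and] at h hx
    unfold smAnd at h hx
    rcases h1 : (sm K A).1 with _ | _ | _ <;> rcases h2 : (sm K B).1 with _ | _ | _ <;>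
      simp only [h1, h2, reduceCtorEq, Fm.vars, Set.mem_union] at h hx ⊢
    · rcases hx with hx | hx
      · exact Or.inl (ihA h1 hx)
      · exact Or.inr (ihB h2 hx)
    · exact Or.inl (ihA h1 hx)
    · exact Or.inr (ihB h2 hx)
  | or A B ihA ihB =>
    rw [sm_or] at h hx
    unfold smOr at h hx
    rcases h1 : (sm K A).1 with _ | _ | _ <;> rcases h2 : (sm K B).1 with _ | _ | _ <;>
      simp only [h1, h2, reduceCtorEq, Fm.vars, Set.mem_union] at h hx ⊢
    · rcases hx with hx | hx
      · exact Or.inl (ihA h1 hx)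
      · exact Or.inr (ihB h2 hx)
    · exact Or.inl (ihA h1 hx)
    · exact Or.inr (ihB h2 hx)
  | imp A B ihA ihB =>
    rw [sm_imp] at h hx
    unfold smImp at h hx
    rcases h1 : (sm K A).1 with _ | _ | _ <;> rcases h2 : (sm K B).1 with _ | _ | _ <;>
      simp only [h1, h2, reduceCtorEq, Fm.vars, Set.mem_union] at h hx ⊢
    · split_ifs at h hx with h3
      rcases hx with hx | hx
      · exact Or.inl (ihA h1 hx)
      · exact Or.inr (ihB h2 hx)
    · exact Or.inl (ihA h1 hx)
    · exact Or.inr (ihB h2 hx)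

theorem stl_vars {K : List (Nm × Bool)} {H A : Fm} {x : Nm}
    (hx : x ∈ (stl H A (sm K A)).vars) : x ∈ H.vars ∨ x ∈ A.vars := by
  unfold stl at hx
  rcases h1 : (sm K A).1 with _ | _ | _ <;> simp only [h1] at hx
  · rcases hx with hx | (hx | hx) | (hx | hx)
    · exact Or.inl hx
    · exact Or.inr hx
    · exact Or.inr (sm_vars h1 hx)
    · exact Or.inr (sm_vars h1 hx)
    · exact Or.inr hx
  · exact hx
  · exact hx

theorem smL_vars {K : List (Nm × Bool)} {H A C : Fm} (hC : C ∈ smL H K A) {x : Nm}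
    (hx : x ∈ C.vars) : x ∈ H.vars ∨ x ∈ A.vars := by
  obtain ⟨X, hX, rfl⟩ := List.mem_map.1 hC
  rcases stl_vars hx with h | h
  · exact Or.inl h
  · exact Or.inr (vars_of_mem_subs (List.mem_reverse.1 hX) _ h)

theorem vars_of_mem_ands {H X : Fm} (hX : X ∈ ands H) {x : Nm} (hx : x ∈ X.vars) :
    x ∈ H.vars := by
  induction H with
  | and A B ihA ihB =>
    simp only [ands, List.mem_cons, List.mem_append] at hX
    rcases hX with rfl | h | h
    · exact hx
    · exact Or.inl (ihA h)
    · exact Or.inr (ihB h)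
  | var w => simp only [ands, List.mem_singleton] at hX; subst hX; exact hx
  | neg A _ => simp only [ands, List.mem_singleton] at hX; subst hX; exact hx
  | or A B _ _ => simp only [ands, List.mem_singleton] at hX; subst hX; exact hx
  | imp A B _ _ => simp only [ands, List.mem_singleton] at hX; subst hX; exact hx

theorem projL_vars {H C : Fm} (hC : C ∈ projL H) {x : Nm} (hx : x ∈ C.vars) : x ∈ H.vars := by
  obtain ⟨X, hX, rfl⟩ := List.mem_map.1 hC
  rcases hx with hx | hx
  · exact hx
  · exact vars_of_mem_ands hX hx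

theorem hypL_vars {H H' C : Fm} (hC : C ∈ hypL H H') {x : Nm} (hx : x ∈ C.vars) :
    x ∈ H.vars ∨ x ∈ H'.vars := by
  unfold hypL at hC
  obtain ⟨X, hX, hC⟩ := List.mem_flatMap.1 hC
  rw [List.mem_reverse] at hX
  rcases List.mem_append.1 hC with hC | hC
  · rcases smL_vars hC hx with h | h
    · exact Or.inl h
    · exact Or.inr (vars_of_mem_ands hX h)
  · rw [List.mem_singleton] at hC
    subst hC
    rcases hx with hx | hx
    · exact Or.inl hx
    · exact Or.inr (vars_of_mem_ands hX hx)

theorem li_vars {H H' A B C : Fm} (hC : C ∈ li H H' A B) {x : Nm} (hx : x ∈ C.vars) :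
    x ∈ H.vars ∨ x ∈ H'.vars ∨ x ∈ A.vars ∨ x ∈ B.vars := by
  unfold li at hC
  simp only [List.mem_append, List.mem_singleton] at hC
  rcases hC with hC | hC | hC | hC | hC | hC
  · exact Or.inl (projL_vars hC hx)
  · rcases hypL_vars hC hx with h | h
    · exact Or.inl h
    · exact Or.inr (Or.inl h)
  · subst hC
    rcases hx with hx | hx
    · exact Or.inl hx
    · exact Or.inr (Or.inr (Or.inl hx))
  · rcases smL_vars hC hx with h | h
    · exact Or.inl h
    · exact Or.inr (Or.inr (Or.inl h))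
  · rcases smL_vars hC hx with h | h
    · exact Or.inl h
    · exact Or.inr (Or.inr (Or.inr h))
  · subst hC
    rcases hx with hx | hx
    · exact Or.inl hx
    · exact Or.inr (Or.inr (Or.inr hx))

theorem li0_vars {d : Nm} {H A B C : Fm} (hC : C ∈ li0 d H A B) {x : Nm} (hx : x ∈ C.vars) :
    x = d ∨ x ∈ H.vars ∨ x ∈ A.vars ∨ x ∈ B.vars := by
  unfold li0 at hC
  rcases List.mem_cons.1 hC with rfl | hC
  · rcases hx with hx | hx
    · exact Or.inl (vars_ct.1 hx)
    · exact Or.inr (Or.inr (Or.inl hx))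
  · rcases li_vars hC hx with h | h | h | h
    · exact Or.inr (Or.inl h)
    · exact Or.inl (vars_ct.1 h)
    · exact Or.inr (Or.inr (Or.inl h))
    · exact Or.inr (Or.inr (Or.inr h))

theorem lw_vars {H : Fm} {ys : List Nm} {w : List Bool} {x : Nm} (hx : x ∈ (lw H ys w).vars) :
    x ∈ H.vars ∨ x ∈ ys := by
  unfold lw at hx
  have key : ∀ l : List (Nm × Bool), x ∈ (l.foldr (fun p X => Fm.and (lit p.1 p.2) X) H).vars →
      x ∈ H.vars ∨ x ∈ l.map Prod.fst := by
    intro l
    induction l with
    | nil => intro h; exact Or.inl h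
    | cons p l ih =>
      intro h
      rcases h with h | h
      · rw [vars_lit] at h
        exact Or.inr (by rw [h]; simp)
      · rcases ih h with h | h
        · exact Or.inl h
        · exact Or.inr (List.mem_cons_of_mem _ h)
  rcases key _ hx with h | h
  · exact Or.inl h
  · obtain ⟨p, hp, rfl⟩ := List.mem_map.1 h
    exact Or.inr (List.of_mem_zip hp).1

theorem splitL_vars {H A C : Fm} : ∀ {ys : List Nm} {W : List (List Bool)},
    C ∈ splitL H A ys W → ∀ {x : Nm}, x ∈ C.vars → x ∈ H.vars ∨ x ∈ A.vars ∨ x ∈ ys := by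
  intro ys
  induction ys with
  | nil => intro W hC; simp [splitL] at hC
  | cons y ys ih =>
    intro W hC x hx
    rw [splitL] at hC
    rcases List.mem_append.1 hC with hC | hC
    · obtain ⟨w, -, rfl⟩ := List.mem_map.1 hC
      rcases hx with hx | hx
      · rcases lw_vars hx with h | h
        · exact Or.inl h
        · exact Or.inr (Or.inr (List.mem_cons_of_mem _ h))
      · exact Or.inr (Or.inl hx)
    · rcases ih hC hx with h | h | h
      · exact Or.inl h
      · exact Or.inr (Or.inl h)
      · exact Or.inr (Or.inr (List.mem_cons_of_mem _ h))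

end Pool.Agent.H.MP_0447ec_lc.PS
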