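import Pool.Agent.H.MP_0447ec_lc.LV.Flip
import Pool.Agent.H.MP_0447ec_lc.LV.Robust
import Pool.Agent.H.MP_0447ec_lc.LV.Vars
import Pool.Agent.H.MP_0447ec_lc.LV.FrDefs
import Pool.Agent.H.MP_0447ec_lc.PS.Final2

/-!
# Simulation of extended Frege and deletion of fresh disjuncts
-/

namespace Pool.Agent.H.MP_0447ec_lc.PS

open Fm Pool.Agent.H.MP_0447ec_lc.PT

/-! ### Tools -/

theorem orVars_append (zs us : List Nm) (A : Fm) :
    orVars (zs ++ us) A = orVars zs (orVars us A) := by
  simp [orVars, List.foldr_append]

theorem orVars_cons (z : Nm) (zs : List Nm) (A : Fm) :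
    orVars (z :: zs) A = Fm.or (var z) (orVars zs A) := rfl

/-- Lines that lead from `imp (cj d (neg z₁, ..., neg z_N)) B` to the disjunction. -/
def orL (d : Nm) (zs : List Nm) (B : Fm) : List Fm :=
  (sp [] zs).map (fun t => imp (cj d (t.2.2.map (fun z => neg (var z))))
    (orVars (t.1 ++ [t.2.1]).reverse B)) ++ [orVars zs.reverse B]

theorem orL_just {G : List Rule} (hG : Rich G) {d : Nm} {zs : List Nm} {B : Fm} {π : List Fm}
    (h : imp (cj d (zs.map (fun z => neg (var z)))) B ∈ π) :
    Just (RuleStep G) π (orL d zs B) ∧ orVars zs.reverse B ∈ orL d zs B := by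
  refine ⟨?_, by simp [orL]⟩
  have key : ∀ (us pre : List Nm) (π : List Fm),
      imp (cj d (us.map (fun z => neg (var z)))) (orVars pre.reverse B) ∈ π →
      Just (RuleStep G) π ((sp pre us).map (fun t =>
        imp (cj d (t.2.2.map (fun z => neg (var z)))) (orVars (t.1 ++ [t.2.1]).reverse B)) ++
        [orVars (pre ++ us).reverse B]) := by
    intro us
    induction us with
    | nil =>
      intro pre π h
      refine ⟨Or.inr (hG.strip (H := var d) ?_), trivial⟩
      rw [List.append_nil]
      exact h
    | cons u us ih =>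
      intro pre π h
      rw [sp, List.map_cons, List.cons_append]
      have e : orVars (pre ++ [u]).reverse B = Fm.or (var u) (orVars pre.reverse B) := by
        rw [List.reverse_append]; rfl
      have e2 : pre ++ u :: us = (pre ++ [u]) ++ us := by simp
      refine ⟨Or.inr ?_, ?_⟩
      · show RuleStep G π (imp (cj d (us.map (fun z => neg (var z))))
          (orVars (pre ++ [u]).reverse B))
        rw [e]
        exact hG.orIn h
      · rw [e2]
        exact ih (pre ++ [u]) _ (by simp)
  exact key zs [] π h

theorem toFP {G : List Rule} {σ : List Fm} : ∀ {π : List Fm}, Just (RuleStep G) π σ →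
    Just (FP G) π σ := by
  induction σ with
  | nil => intro _ _; trivial
  | cons C σ ih =>
    rintro π ⟨h1, h2⟩
    exact ⟨h1.imp id Or.inl, ih h2⟩

theorem permProof_just {F : List Rule} {A : Fm} {τ : List Fm} (h : PermProof F A τ)
    (π : List Fm) : Just (FP (GG F)) π τ ∧ A ∈ τ := by
  refine ⟨?_, List.mem_of_getLast? h.2⟩
  have h1 : Deriv (FP (GG F)) τ := h.1.imp_step (by
    rintro σ B (h | h)
    · exact Or.inl (ruleStep_GG h)
    · exact Or.inr h)
  exact h1.just (mono_perm _) π

/-- From a list of lines to a proof with the rules of `F` and the permutation rule. -/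
def fin1 (h : List Fm → List Fm) (B : Fm) (σ : List Fm) : List Fm := h (cutAt B (app [] σ))

theorem exists_fin {F : List Rule} (hF : IsFrege F) :
    ∃ h : List Fm → List Fm, Poly h ∧ ∀ (B : Fm) (σ : List Fm), Just (FP (GG F)) [] σ → B ∈ σ →
      PermProof F B (fin1 h B σ) := by
  obtain ⟨h, hp, hh⟩ := robust hF (GG_sound hF)
  refine ⟨h, hp, ?_⟩
  intro B σ hσ hB
  have hD := deriv_app (mono_perm _) Deriv.nil hσ
  obtain ⟨d1, d2⟩ := deriv_cutAt hD (mem_app.2 (Or.inr hB))
  obtain ⟨h1, h2, -⟩ := hh PermStep mono_permStep _ _ d1 d2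
  exact ⟨h1, h2⟩

/-! ### First part: the padding is false -/

theorem litsOf_cj_neg (d : Nm) (zs : List Nm) :
    litsOf (cj d (zs.map (fun z => neg (var z)))) = zs.map (fun z => (z, false)) := by
  induction zs with
  | nil => rfl
  | cons z zs ih =>
    rw [List.map_cons, cj_cons, List.map_cons, ← ih]
    simp [litsOf, ands, litOf]

/-- The hypothesis: the first variables are true, the second ones are false. -/
def frH (d : Nm) (qs rs : List Nm) : Fm :=
  Fm.and (cj d (qs.map var)) (cj d (rs.map (fun z => neg (var z))))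

theorem litsOf_frH (d : Nm) (qs rs : List Nm) :
    litsOf (frH d qs rs) = qs.map (fun z => (z, true)) ++ rs.map (fun z => (z, false)) := by
  rw [← litsOf_cj_var d qs, ← litsOf_cj_neg d rs]
  simp [frH, litsOf, ands, litOf]

theorem sm_padX {K : List (Nm × Bool)} {L : ℕ} {X : Fm} {l : List (Nm × Fm)}
    (h : ∀ e ∈ l, lk K e.1 = some true ∧ lk K (nf L e.1) = some false) :
    sm K (padX L X l) = sm K X := by
  induction l using List.reverseRecOn with
  | nil => rfl
  | append_singleton l e ih =>
    rw [padX_snoc, sm_or, ih (fun e' he' => h e' (List.mem_append_left _ he'))]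
    obtain ⟨h1, h2⟩ := h e (by simp)
    have h3 : sm K (Fm.iff (var e.1) (var (nf L e.1))) = (some false, var []) := by
      rw [Fm.iff, sm_and, sm_imp, sm_imp, sm_var, sm_var]
      unfold smV
      rw [h1, h2]
      rfl
    rw [h3]
    rfl

/-- Lines for the first part. -/
def frA (d : Nm) (L : ℕ) (X : Fm) (l : List (Nm × Fm)) : List Fm :=
  li0 d (frH d (l.map (fun e => e.1)) (l.map (fun e => nf L e.1))) (padX L X l) X ++
  ([imp (cj d ((l.map (fun e => nf L e.1)).map (fun z => neg (var z))))
    (imp (cj d ((l.map (fun e => e.1)).map var)) X)] ++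
  orL d (l.map (fun e => nf L e.1)) (imp (cj d ((l.map (fun e => e.1)).map var)) X))

theorem frA_just {G : List Rule} (hG : Rich G) {d : Nm} {L : ℕ} {X : Fm} {l : List (Nm × Fm)}
    {π : List Fm} (hL : ∀ e ∈ l, ∀ e' ∈ l, e.1 ≠ nf L e'.1) (h : padX L X l ∈ π) :
    Just (RuleStep G) π (frA d L X l) ∧
      orVars (l.map (fun e => nf L e.1)).reverse (imp (cj d ((l.map (fun e => e.1)).map var)) X)
        ∈ frA d L X l := by
  have hs : sm (litsOf (frH d (l.map (fun e => e.1)) (l.map (fun e => nf L e.1))))
      (padX L X l) = sm (litsOf (frH d (l.map (fun e => e.1)) (l.map (fun e => nf L e.1)))) X := by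
    apply sm_padX
    intro e he
    rw [litsOf_frH]
    constructor
    · apply lk_eq
      · refine List.mem_append_left _ ?_
        rw [List.map_map]
        exact List.mem_map_of_mem (f := (fun z : Nm => (z, true)) ∘ fun e : Nm × Fm => e.1) he
      · intro b hb
        rcases List.mem_append.1 hb with hb | hb
        · obtain ⟨z, -, hz⟩ := List.mem_map.1 hb
          exact (congrArg Prod.snd hz).symm
        · obtain ⟨z, hz', hz⟩ := List.mem_map.1 hb
          obtain ⟨e', he', rfl⟩ := List.mem_map.1 hz'
          exact absurd (congrArg Prod.fst hz).symm (hL e he e' he')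
    · apply lk_eq
      · refine List.mem_append_right _ ?_
        rw [List.map_map]
        exact List.mem_map_of_mem (f := (fun z : Nm => (z, false)) ∘
          fun e : Nm × Fm => nf L e.1) he
      · intro b hb
        rcases List.mem_append.1 hb with hb | hb
        · obtain ⟨z, hz', hz⟩ := List.mem_map.1 hb
          obtain ⟨e', he', rfl⟩ := List.mem_map.1 hz'
          exact absurd (congrArg Prod.fst hz) (hL e' he' e he)
        · obtain ⟨z, -, hz⟩ := List.mem_map.1 hb
          exact (congrArg Prod.snd hz).symm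
  obtain ⟨j1, m1⟩ := li0_just hG (d := d) h hs
  refine ⟨Just.append j1 (Just.append ⟨Or.inr (hG.curry (List.mem_append_right _ m1)), trivial⟩
    (orL_just hG (by simp)).1), ?_⟩
  exact List.mem_append_right _ (List.mem_append_right _ (by simp [orL]))

/-! ### Second part: negation of all variables -/

theorem okH_flp' (d : Nm) (zs : List Nm) :
    okH (cj d (zs.map (fun z => neg (var z)))) ((cj d (zs.map var)).subst flp) := by
  have key : ∀ us : List Nm, (∀ u ∈ us, u ∈ zs) →
      okH (cj d (zs.map (fun z => neg (var z)))) ((cj d (us.map var)).subst flp) := by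
    intro us
    induction us with
    | nil =>
      intro _
      apply okH_of_sm
      show (sm _ (imp (neg (var d)) (neg (var d)))).1 = some true
      rw [sm_imp_self rfl]
    | cons u us ih =>
      intro h
      rw [List.map_cons, cj_cons]
      show okH _ (Fm.and (neg (var u)) ((cj d (us.map var)).subst flp))
      rw [okH_and]
      refine ⟨okH_of_mem ?_, ih (fun v hv => h v (List.mem_cons_of_mem _ hv))⟩
      refine mem_ands_cj (A := neg (var u)) ?_ (self_mem_ands _)
      exact List.mem_map_of_mem (f := fun z : Nm => neg (var z)) (h u (by simp))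
  exact key zs (fun u hu => hu)

/-- Lines for the second part. -/
def frB (d : Nm) (zs : List Nm) (A : Fm) (τ : List Fm) : List Fm :=
  τ.map (Fm.subst flp) ++ (li (cj d (zs.map (fun z => neg (var z))))
    ((cj d (zs.map var)).subst flp) ((A.subst flp).subst flp) A ++ orL d zs A)

theorem frB_just {G : List Rule} (hG : Rich G) {d : Nm} {zs : List Nm} {A : Fm} {τ : List Fm}
    (hτ : Just (FP G) [] τ) (hmem : imp (cj d (zs.map var)) (A.subst flp) ∈ τ) :
    Just (FP G) [] (frB d zs A τ) ∧ orVars zs.reverse A ∈ frB d zs A τ := by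
  have j1 : Just (FP G) [] (τ.map (Fm.subst flp)) := just_flp hτ (by simp)
  have m1 : imp ((cj d (zs.map var)).subst flp) ((A.subst flp).subst flp) ∈
      [] ++ τ.map (Fm.subst flp) :=
    List.mem_append_right _ (List.mem_map_of_mem (f := Fm.subst flp) hmem)
  obtain ⟨j2, m2⟩ := li_just hG m1 (okH_flp' d zs) (sm_flp_flp _ A)
  refine ⟨Just.append j1 (Just.append (toFP j2) (toFP (orL_just hG
    (List.mem_append_right _ m2)).1)), ?_⟩
  exact List.mem_append_right _ (List.mem_append_right _ (by simp [orL]))

/-! ### The padding of an extended Frege proof -/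

theorem fr_good_nodup {A : Fm} {l : List (Nm × Fm)} (h : Good A l) :
    (l.map (fun e => e.1)).Nodup := by
  induction l with
  | nil => exact List.nodup_nil
  | cons e l ih =>
    rw [List.map_cons, List.nodup_cons]
    refine ⟨?_, ih h.2.2.2⟩
    intro hc
    obtain ⟨e', he', he⟩ := List.mem_map.1 hc
    exact (h.2.2.1 e' he').1 he.symm

/-- The table that negates the variables of `A`. -/
def ngT (A : Fm) : List (Nm × Fm) := (nms A).map (fun x => (x, neg (var x)))

theorem tsub_ngT (A : Fm) : A.subst (tsub (ngT A)) = A.subst flp := by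
  apply Fm.subst_congr
  intro x hx
  have key : ∀ l : List Nm, x ∈ l → tsub (l.map (fun x => (x, neg (var x)))) x = flp x := by
    intro l
    induction l with
    | nil => intro h; simp at h
    | cons y l ih =>
      intro hx
      rw [List.map_cons, tsub_cons]
      by_cases h : y = x
      · rw [if_pos h, h]; rfl
      · rw [if_neg h]
        exact ih ((List.mem_cons.1 hx).resolve_left (fun e => h e.symm))
  exact key _ (mem_nms.2 hx)

/-- The extended Frege proof of the formula with negated variables. -/
def frE (π : List Fm) : List Fm := efS (ngT (lastF π), π)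

/-- The list of extension axioms of this proof. -/
def frl (π : List Fm) : List (Nm × Fm) := extL ((lastF π).subst flp) (frE π)

/-- The extension variables of this proof. -/
def frq (π : List Fm) : List Nm := (frl π).map (fun e => e.1)

/-- Their copies. -/
def frr (π : List Fm) : List Nm := (frl π).map (fun e => nf (lenB (frE π)) e.1)

/-- A variable of the formula. -/
def frd (π : List Fm) : Nm := (nms (lastF π)).headD []

/-- The formula after the first deletion. -/
def frX (π : List Fm) : Fm := imp (cj (frd π) ((frq π).map var)) ((lastF π).subst flp)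

/-- The first proof. -/
def frP1 {F : List Rule} (k : Kit F) (h : List Fm → List Fm) (π : List Fm) : List Fm :=
  fin1 h (orVars (frr π).reverse (frX π)) (T1 k (frE π) ++
    frA (frd π) (lenB (frE π)) ((lastF π).subst flp) (frl π))

/-- The second proof. -/
def frP3 (h : List Fm → List Fm) (π τ : List Fm) : List Fm :=
  fin1 h (orVars (frq π).reverse (lastF π)) (frB (frd π) (frq π) (lastF π) τ)

theorem frE_spec {F : List Rule} {A : Fm} {π : List Fm} (hπ : ExtProof F A π) :
    ExtProof F (A.subst flp) (frE π) := by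
  have h := efS_spec (t := ngT A) hπ
  rw [tsub_ngT] at h
  unfold frE
  rw [lastF_eq hπ.2]
  exact h

theorem frl_spec {F : List Rule} {A : Fm} {π : List Fm} (hπ : ExtProof F A π) :
    Good (A.subst flp) (frl π) ∧ (∀ e ∈ frl π, e.1.length < lenB (frE π)) := by
  obtain ⟨h1, h2⟩ := frE_spec hπ
  obtain ⟨-, c2, c3⟩ := collect h1
  unfold frl
  rw [lastF_eq hπ.2]
  refine ⟨c2, fun e he => ?_⟩
  exact lenB_spec (c3 e he) (by simp [eAx, Fm.iff, Fm.vars])

theorem vars_flp {A : Fm} {x : Nm} : x ∈ (A.subst flp).vars ↔ x ∈ A.vars := by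
  constructor
  · intro h
    obtain ⟨w, hw, hx⟩ := vars_subst h
    simp only [flp, Fm.vars, Set.mem_singleton_iff] at hx
    rw [hx]; exact hw
  · intro h
    exact vars_subst_of_mem h rfl

theorem frd_mem (π : List Fm) : frd π ∈ (lastF π).vars := by
  obtain ⟨x, hx⟩ := Fm.exists_mem_vars (lastF π)
  have h := mem_nms.2 hx
  apply mem_nms.1
  unfold frd
  cases hl : nms (lastF π) with
  | nil => rw [hl] at h; simp at h
  | cons y l => simp

theorem frP1_spec {F : List Rule} (k : Kit F) {h : List Fm → List Fm}
    (hh : ∀ (B : Fm) (σ : List Fm), Just (FP (GG F)) [] σ → B ∈ σ →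
      PermProof F B (fin1 h B σ)) {A : Fm} {π : List Fm} (hπ : ExtProof F A π) :
    PermProof F (orVars (frr π).reverse (frX π)) (frP1 k h π) := by
  obtain ⟨h1, h2⟩ := frl_spec hπ
  have hE := frE_spec hπ
  have hl : lastF π = A := lastF_eq hπ.2
  obtain ⟨j1, m1⟩ := permProof_just (T1_spec k hE) []
  have hne : ∀ e ∈ frl π, ∀ e' ∈ frl π, e.1 ≠ nf (lenB (frE π)) e'.1 := by
    intro e he e' _ hc
    have h3 := h2 e he
    rw [hc, nf_length] at h3
    omega
  have hX : padX (lenB (frE π)) ((lastF π).subst flp) (frl π) ∈ [] ++ T1 k (frE π) := by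
    unfold frl
    rw [hl]
    exact List.mem_append_right _ m1
  obtain ⟨j2, m2⟩ := frA_just (GG_rich F) (d := frd π) hne hX
  apply hh
  · exact Just.append j1 (toFP j2)
  · exact List.mem_append_right _ m2

theorem frP3_spec {F : List Rule} {h : List Fm → List Fm}
    (hh : ∀ (B : Fm) (σ : List Fm), Just (FP (GG F)) [] σ → B ∈ σ →
      PermProof F B (fin1 h B σ)) {π τ : List Fm} (hτ : PermProof F (frX π) τ) :
    PermProof F (orVars (frq π).reverse (lastF π)) (frP3 h π τ) := by
  obtain ⟨j1, m1⟩ := permProof_just hτ []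
  obtain ⟨j2, m2⟩ := frB_just (GG_rich F) j1 m1
  exact hh _ _ j2 m2

/-! ### Computability -/

section

variable {α : Type} [Enc α]

theorem sz_orVars (zs : List Nm) (A : Fm) : sz (orVars zs A) ≤ sz A + 13 * sz zs := by
  induction zs with
  | nil => show sz A ≤ _; omega
  | cons z zs ih =>
    rw [orVars_cons, sz_or, sz_var, sz_lcons]
    omega

@[fun_prop]
theorem Poly.orVars {zs : α → List Nm} {A : α → Fm} (hz : Poly zs) (hA : Poly A) :
    Poly (fun a => orVars (zs a) (A a)) := by
  unfold PS.orVars
  refine Poly.foldr (f := fun p : α × Fm × Nm => Fm.or (Fm.var p.2.2) p.2.1)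
    (s0 := A) (B := fun a => sz (A a) + 13 * sz (zs a)) (by fun_prop) hz hA
    (hA.sz_le.add ((PBdd.const 13).mul hz.sz_le)) ?_
  intro a l₁ l₂ h
  have h1 := sz_orVars l₂ (A a)
  have h2 : sz l₂ ≤ sz (zs a) := by
    rw [h]; exact sz_sublist_le (List.sublist_append_right _ _)
  have h3 : l₂.foldr (fun b s => (fun p : α × Fm × Nm => Fm.or (Fm.var p.2.2) p.2.1)
      (a, s, b)) (A a) = PS.orVars l₂ (A a) := rfl
  rw [h3]
  omega

@[fun_prop]
theorem Poly.orL {d : α → Nm} {zs : α → List Nm} {B : α → Fm} (hd : Poly d) (hz : Poly zs)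
    (hB : Poly B) : Poly (fun a => orL (d a) (zs a) (B a)) := by
  unfold PS.orL
  fun_prop

theorem poly_cjVar {d : α → Nm} {zs : α → List Nm} (hd : Poly d) (hz : Poly zs) :
    Poly (fun a => cj (d a) ((zs a).map Fm.var)) :=
  Poly.cj hd (PT.Poly.map (f := fun (_ : α) (z : Nm) => Fm.var z) (by fun_prop) hz)

theorem poly_fin1 {h : List Fm → List Fm} (hp : Poly h) {B : α → Fm} {σ : α → List Fm}
    (hB : Poly B) (hσ : Poly σ) : Poly (fun a => fin1 h (B a) (σ a)) := by
  unfold fin1
  exact Poly.comp hp (Poly.cutAt hB (Poly.app (PT.Poly.const []) hσ))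

theorem poly_frA {d : α → Nm} {L : α → ℕ} {X : α → Fm} {l : α → List (Nm × Fm)} (hd : Poly d)
    (hL : Poly L) (hX : Poly X) (hl : Poly l) :
    Poly (fun a => frA (d a) (L a) (X a) (l a)) := by
  have e1 : Poly (fun a => (l a).map (fun e => e.1)) := by fun_prop
  have e2 : Poly (fun a => (l a).map (fun e => nf (L a) e.1)) := by fun_prop
  have e3 : Poly (fun a => cj (d a) (((l a).map (fun e => e.1)).map Fm.var)) :=
    poly_cjVar hd e1
  have e4 : Poly (fun a => cj (d a) (((l a).map (fun e => nf (L a) e.1)).map
      (fun z => neg (var z)))) := by fun_prop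
  have e5 : Poly (fun a => padX (L a) (X a) (l a)) := by fun_prop
  unfold frA frH
  exact Poly.append (Poly.li0 hd (Poly.fmAnd e3 e4) e5 hX) (Poly.append
    (Poly.lcons (Poly.fmImp e4 (Poly.fmImp e3 hX)) (PT.Poly.const []))
    (Poly.orL hd e2 (Poly.fmImp e3 hX)))

theorem poly_frB {d : α → Nm} {zs : α → List Nm} {A : α → Fm} {τ : α → List Fm} (hd : Poly d)
    (hz : Poly zs) (hA : Poly A) (hτ : Poly τ) :
    Poly (fun a => frB (d a) (zs a) (A a) (τ a)) := by
  have e1 : Poly (fun a => (τ a).map (Fm.subst flp)) :=
    PT.Poly.map (f := fun (_ : α) (C : Fm) => C.subst flp) (Poly.flpSubst Poly.snd) hτ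
  have e2 : Poly (fun a => (cj (d a) ((zs a).map Fm.var)).subst flp) :=
    Poly.flpSubst (poly_cjVar hd hz)
  unfold frB
  exact Poly.append e1 (Poly.append (Poly.li (by fun_prop) e2 (by fun_prop) hA)
    (Poly.orL hd hz hA))

theorem poly_frE : Poly (fun π : List Fm => frE π) := by
  unfold frE ngT
  have e : Poly (fun π : List Fm => ((nms (lastF π)).map (fun x => (x, neg (var x))), π)) := by
    fun_prop
  exact Poly.comp poly_efS e

theorem poly_frl : Poly (fun π : List Fm => frl π) := by
  unfold frl
  exact Poly.extL (by fun_prop) poly_frE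

theorem poly_frq : Poly (fun π : List Fm => frq π) := by
  unfold frq
  exact PT.Poly.map (f := fun (_ : List Fm) (e : Nm × Fm) => e.1) (by fun_prop) poly_frl

theorem poly_frL : Poly (fun π : List Fm => lenB (frE π)) :=
  Poly.lenB poly_frE

theorem poly_frr : Poly (fun π : List Fm => frr π) := by
  unfold frr
  refine PT.Poly.map (f := fun (π : List Fm) (e : Nm × Fm) => nf (lenB (frE π)) e.1) ?_ poly_frl
  exact Poly.nf (Poly.comp (f := fun π : List Fm => lenB (frE π)) poly_frL Poly.fst)
    (by fun_prop)

theorem poly_frd : Poly (fun π : List Fm => frd π) := by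
  unfold frd
  fun_prop

theorem poly_frX : Poly (fun π : List Fm => frX π) := by
  unfold frX
  exact Poly.fmImp (poly_cjVar poly_frd poly_frq) (by fun_prop)

theorem poly_frP1 {F : List Rule} (k : Kit F) {h : List Fm → List Fm} (hp : Poly h) :
    Poly (fun π : List Fm => frP1 k h π) := by
  unfold frP1
  exact poly_fin1 hp (Poly.orVars (Poly.reverse poly_frr) poly_frX)
    (Poly.append (Poly.T1 k poly_frE) (poly_frA poly_frd poly_frL (by fun_prop) poly_frl))

end

theorem simulates_of_fresh {F : List Rule} (hF : IsFrege F)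
    (hc : ClosedUnderFreshDisjuncts (PermProof F)) :
    PSimulates (PermProof F) (ExtProof F) := by
  obtain ⟨k⟩ := exists_kit hF
  obtain ⟨h, hp, hh⟩ := exists_fin hF
  obtain ⟨g, hg, hcl⟩ := hc
  have hg' : Poly g := (tm2_iff_poly codeProof_eq codeProof_eq g).1 hg
  rw [psim_iff]
  refine ⟨fun π => g (lastF π :: frP3 h π (g (frX π :: frP1 k h π))), ?_, ?_⟩
  · have e1 : Poly (fun π : List Fm => frP1 k h π) := poly_frP1 k hp
    have e2 : Poly (fun π : List Fm => g (frX π :: frP1 k h π)) :=
      Poly.comp hg' (Poly.lcons poly_frX e1)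
    have e3 : Poly (fun π : List Fm => frP3 h π (g (frX π :: frP1 k h π))) := by
      unfold frP3
      exact poly_fin1 hp (Poly.orVars (Poly.reverse poly_frq) (by fun_prop))
        (poly_frB poly_frd poly_frq (by fun_prop) e2)
    exact Poly.comp hg' (Poly.lcons (by fun_prop) e3)
  · intro A π hπ
    obtain ⟨h1, h2⟩ := frl_spec hπ
    have hl : lastF π = A := lastF_eq hπ.2
    have hq : (frq π).Nodup := fr_good_nodup h1
    have hqA : ∀ z ∈ frq π, z ∉ A.vars := by
      intro z hz hzA
      obtain ⟨e, he, rfl⟩ := List.mem_map.1 hz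
      exact good_fst h1 he (vars_flp.2 hzA)
    have hr : (frr π).Nodup := by
      have e : frr π = (frq π).map (fun x => nf (lenB (frE π)) x) := by
        simp [frr, frq]
      rw [e]
      exact hq.map (fun x y hxy => nf_inj hxy)
    have hrX : ∀ z ∈ frr π, z ∉ (frX π).vars := by
      intro z hz hzX
      obtain ⟨e, he, rfl⟩ := List.mem_map.1 hz
      have hlen : ∀ x ∈ (A.subst flp).vars, x.length < lenB (frE π) := fun x hx =>
        lenB_spec (List.mem_of_getLast? (frE_spec hπ).2) hx
      have h3 : (nf (lenB (frE π)) e.1).length < lenB (frE π) := by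
        rcases hzX with hz | hz
        · rw [vars_cj] at hz
          rcases hz with hz | ⟨B, hB, hz⟩
          · rw [hz]
            apply hlen
            rw [vars_flp, ← hl]
            exact frd_mem π
          · obtain ⟨q, hq, rfl⟩ := List.mem_map.1 hB
            simp only [Fm.vars, Set.mem_singleton_iff] at hz
            rw [hz]
            obtain ⟨e', he', rfl⟩ := List.mem_map.1 hq
            exact h2 e' he'
        · rw [hl] at hz
          exact hlen _ hz
      rw [nf_length] at h3
      omega
    have s1 := frP1_spec k hh hπ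
    have s2 := hcl _ _ _ (List.nodup_reverse.2 hr)
      (fun z hz => hrX z (List.mem_reverse.1 hz)) s1
    have s3 := frP3_spec hh s2
    have s4 := hcl _ _ _ (List.nodup_reverse.2 hq)
      (fun z hz => by rw [hl]; exact hqA z (List.mem_reverse.1 hz)) s3
    show PermProof F A (g (lastF π :: frP3 h π (g (frX π :: frP1 k h π))))
    rw [hl] at s4 ⊢
    exact s4

/-! ### Closure under restrictions gives the deletion of fresh disjuncts -/

/-- The names of the disjuncts. -/
def frU (A B : Fm) : List Nm := (nms B).filter (fun x => !decide (x ∈ nms A))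

theorem mem_nms_orVars {zs : List Nm} {A : Fm} {x : Nm} :
    x ∈ nms (orVars zs A) ↔ x ∈ zs ∨ x ∈ nms A := by
  induction zs with
  | nil => simp [orVars]
  | cons z zs ih =>
    rw [orVars_cons]
    simp only [nms, List.cons_append, List.nil_append, List.mem_cons, ih]
    tauto

theorem sm_orVars_cst {K : List (Nm × Bool)} {A : Fm} {zs U : List Nm}
    (hU : ∀ z ∈ zs, z ∈ U) (hA : ∀ x ∈ A.vars, x ∉ U) :
    sm K ((orVars zs A).subst (cst [] U)) = sm K A := by
  induction zs with
  | nil =>
    have : A.subst (cst [] U) = A := by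
      apply Fm.subst_eq_self
      intro x hx
      simp [cst, hA x hx]
    show sm K (A.subst (cst [] U)) = sm K A
    rw [this]
  | cons z zs ih =>
    rw [orVars_cons]
    show sm K (Fm.or (cst [] U z) ((orVars zs A).subst (cst [] U))) = sm K A
    have hz : cst [] U z = ct [] false := by
      simp [cst, hU z (by simp), ff, ct]
    rw [sm_or, ih (fun z' hz' => hU z' (List.mem_cons_of_mem _ hz')), hz, sm_ct]
    rfl

theorem fresh_of_closed {F : List Rule} (hF : IsFrege F)
    (hc : ClosedUnderRestrictions (PermProof F)) : ClosedUnderFreshDisjuncts (PermProof F) := by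
  obtain ⟨h, hp, hh⟩ := exists_fin hF
  rw [closed_iff] at hc
  obtain ⟨g, hg, hcl⟩ := hc
  refine ⟨fun ρ => fin1 h (ρ.headD (var [])) (g (([], frU (ρ.headD (var [])) (lastF ρ.tail)),
      ρ.tail) ++ (li0 [] (ct [] true) ((lastF ρ.tail).subst
        (cst [] (frU (ρ.headD (var [])) (lastF ρ.tail)))) (ρ.headD (var [])) ++
      [ρ.headD (var [])])), ?_, ?_⟩
  · rw [tm2_iff_poly codeProof_eq codeProof_eq]
    have e0 : Poly (fun ρ : List Fm => ρ.headD (var [])) := by fun_prop
    have e1 : Poly (fun ρ : List Fm => frU (ρ.headD (var [])) (lastF ρ.tail)) := by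
      unfold frU
      fun_prop
    have e2 : Poly (fun ρ : List Fm => g (([], frU (ρ.headD (var [])) (lastF ρ.tail)),
        ρ.tail)) :=
      Poly.comp hg (Poly.pair (Poly.pair (PT.Poly.const []) e1) (by fun_prop))
    have e3 : Poly (fun ρ : List Fm => (lastF ρ.tail).subst
        (cst [] (frU (ρ.headD (var [])) (lastF ρ.tail)))) :=
      Poly.substCst (PT.Poly.const []) e1 (by fun_prop)
    refine poly_fin1 hp e0 (Poly.append e2 (Poly.append (Poly.li0 (PT.Poly.const [])
      (PT.Poly.const _) e3 e0) (Poly.lcons e0 (PT.Poly.const []))))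
  · intro A zs π _ hz hπ
    have hl : lastF π = orVars zs A := lastF_eq hπ.2
    show PermProof F A (fin1 h A (g (([], frU A (lastF π)), π) ++
      (li0 [] (ct [] true) ((lastF π).subst (cst [] (frU A (lastF π)))) A ++ [A])))
    rw [hl]
    obtain ⟨j1, m1⟩ := permProof_just (hcl _ _ [] (frU A (orVars zs A)) hπ) []
    rw [restrict_eq] at m1
    obtain ⟨j2, m2⟩ := li0_just (GG_rich F) (d := []) (H := ct [] true) (A := (orVars zs A).subst
      (cst [] (frU A (orVars zs A)))) (B := A) (List.mem_append_right [] m1) (by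
      apply sm_orVars_cst
      · intro z hz'
        unfold frU
        rw [List.mem_filter]
        refine ⟨mem_nms_orVars.2 (Or.inl hz'), ?_⟩
        have := hz z hz'
        simpa [mem_nms] using this
      · intro x hx hxU
        unfold frU at hxU
        rw [List.mem_filter] at hxU
        simpa [mem_nms.2 hx] using hxU.2)
    apply hh
    · refine Just.append j1 (Just.append (toFP j2) ⟨Or.inr (Or.inl ?_), trivial⟩)
      exact (GG_rich F).strip (H := var []) (List.mem_append_right _ m2)
    · simp

/-- Frege with the permutation rule p-simulates extended Frege if and only if it is p-closed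
under the deletion of fresh disjuncts. -/
theorem fresh_iff {F : List Rule} (hF : IsFrege F) :
    PSimulates (PermProof F) (ExtProof F) ↔ ClosedUnderFreshDisjuncts (PermProof F) :=
  ⟨fun h => fresh_of_closed hF (closed_of_simulates hF h), simulates_of_fresh hF⟩

end Pool.Agent.H.MP_0447ec_lc.PS
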