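import Pool.Agent.H.MP_0447ec_lc.LV.Base
import Pool.Agent.H.MP_0447ec_lc.LV.ESub
import Pool.Agent.H.MP_0447ec_lc.LV.Vars

/-!
# Proofs with the permutation rule in register form: correctness
-/

namespace Pool.Agent.H.MP_0447ec_lc.PS

open Fm

/-! ### Simplification of conjunctions and disjunctions -/

theorem sm_cj_val {K : List (Nm × Bool)} {d : Nm} {β : Type} (g : β → Fm) (b : β → Bool)
    (L : List β) (h : ∀ p ∈ L, sm K (g p) = (some (b p), var [])) :
    sm K (cj d (L.map g)) = (some (L.all b), var []) := by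
  induction L with
  | nil => exact sm_ct K d true
  | cons p L ih =>
    rw [List.map_cons, cj_cons, sm_and, h p (by simp),
      ih (fun q hq => h q (List.mem_cons_of_mem _ hq)), List.all_cons]
    cases b p <;> cases L.all b <;> rfl

theorem sm_dj_congr {K : List (Nm × Bool)} {d : Nm} : ∀ {L L' : List Fm},
    L.map (sm K) = L'.map (sm K) → sm K (dj d L) = sm K (dj d L') := by
  intro L
  induction L with
  | nil =>
    intro L' h
    rw [List.map_nil, eq_comm, List.map_eq_nil_iff] at h
    rw [h]
  | cons A L ih =>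
    intro L' h
    cases L' with
    | nil => simp at h
    | cons A' L' =>
      rw [List.map_cons, List.map_cons, List.cons.injEq] at h
      rw [dj_cons, dj_cons, sm_or, sm_or, h.1, ih h.2]

theorem subst_ct {d : Nm} {c : Bool} {s : Nm → Fm} (h : s d = var d) :
    (ct d c).subst s = ct d c := by
  cases c <;> simp [ct, Fm.subst, h]

theorem subst_cj {d : Nm} {s : Nm → Fm} (h : s d = var d) (L : List Fm) :
    (cj d L).subst s = cj d (L.map (Fm.subst s)) := by
  induction L with
  | nil => rw [List.map_nil, cj_nil]; exact subst_ct h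
  | cons A L ih => rw [cj_cons, List.map_cons, cj_cons, ← ih]; rfl

theorem subst_dj {d : Nm} {s : Nm → Fm} (h : s d = var d) (L : List Fm) :
    (dj d L).subst s = dj d (L.map (Fm.subst s)) := by
  induction L with
  | nil => rw [List.map_nil, dj_nil]; exact subst_ct h
  | cons A L ih => rw [dj_cons, List.map_cons, dj_cons, ← ih]; rfl

/-! ### Words as values of registers -/

theorem all_zip_eq {v : Nm → Bool} : ∀ {ys : List Nm} {a w : List Bool},
    a.length = ys.length → w.length = ys.length → (∀ p ∈ ys.zip a, v p.1 = p.2) →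
    (ys.zip w).all (fun p => decide (v p.1 = p.2)) = decide (a = w) := by
  intro ys
  induction ys with
  | nil =>
    intro a w ha hw _
    rw [List.length_nil, List.length_eq_zero_iff] at ha hw
    subst ha hw
    rfl
  | cons y ys ih =>
    intro a w ha hw h
    cases a with
    | nil => simp at ha
    | cons b a =>
      cases w with
      | nil => simp at hw
      | cons c w =>
        have h1 : v y = b := h (y, b) (by simp)
        have h2 := ih (a := a) (w := w) (by simpa using ha) (by simpa using hw)
          (fun p hp => h p (by simp [hp]))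
        rw [List.zip_cons_cons, List.all_cons, h2]
        simp only [h1]
        by_cases hbc : b = c
        · subst hbc
          by_cases haw : a = w
          · subst haw; simp
          · simp [haw]
        · simp [hbc]

/-- The table that replaces names by constants. -/
def cT (l : List (Nm × Bool)) : List (Nm × Fm) := l.map (fun p => (p.1, ct p.1 p.2))

theorem tsub_cT_of_not_mem {l : List (Nm × Bool)} {x : Nm} (h : x ∉ l.map Prod.fst) :
    tsub (cT l) x = var x := by
  apply tsub_of_not_mem
  unfold cT
  rw [List.map_map]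
  exact h

theorem tsub_cT_of_mem {l : List (Nm × Bool)} {p : Nm × Bool} (h : p ∈ l)
    (hn : (l.map Prod.fst).Nodup) : tsub (cT l) p.1 = ct p.1 p.2 := by
  apply tsub_of_mem
  · exact List.mem_map_of_mem (f := fun p : Nm × Bool => (p.1, ct p.1 p.2)) h
  · unfold cT
    rw [List.map_map]
    exact hn

/-- Lines for the substitution of constants in `X`, one name after the other. -/
def chn (X : Fm) (l : List (Nm × Bool)) : List Fm :=
  (sp [] l).map (fun t => X.subst (tsub (cT (t.1 ++ [t.2.1]))))

theorem chn_step {X : Fm} {l : List (Nm × Bool)} {p : Nm × Bool}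
    (h : p.1 ∉ l.map Prod.fst) :
    X.subst (tsub (cT (l ++ [p]))) = (X.subst (tsub (cT l))).subst (cs p.1 p.2) := by
  rw [Fm.subst_subst]
  congr 1
  funext x
  have e : cT (l ++ [p]) = cT l ++ [(p.1, ct p.1 p.2)] := by simp [cT]
  have key : ∀ (t : List (Nm × Bool)), p.1 ∉ t.map Prod.fst →
      tsub (cT t ++ [(p.1, ct p.1 p.2)]) x = (tsub (cT t) x).subst (cs p.1 p.2) := by
    intro t
    induction t with
    | nil =>
      intro _
      show tsub [(p.1, ct p.1 p.2)] x = _
      rw [tsub_cons]
      show _ = cs p.1 p.2 x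
      unfold cs
      by_cases hx : p.1 = x
      · subst hx; simp
      · rw [if_neg hx, if_neg (fun e => hx e.symm)]; rfl
    | cons q t ih =>
      intro ht
      rw [List.map_cons, List.mem_cons, not_or] at ht
      show tsub ((q.1, ct q.1 q.2) :: (cT t ++ [(p.1, ct p.1 p.2)])) x =
        (tsub ((q.1, ct q.1 q.2) :: cT t) x).subst (cs p.1 p.2)
      rw [tsub_cons, tsub_cons]
      split_ifs with hx
      · rw [subst_ct]
        unfold cs
        rw [if_neg (fun e => ht.1 e.symm)]
      · exact ih ht.2
  rw [e]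
  exact key l h

theorem chn_just {G : List Rule} {X : Fm} {l : List (Nm × Bool)} {π : List Fm}
    (hn : (l.map Prod.fst).Nodup) (hX : X ∈ π) :
    Just (GC G) π (chn X l) ∧ X.subst (tsub (cT l)) ∈ π ++ chn X l := by
  have key : ∀ (l pre : List (Nm × Bool)) (π : List Fm), ((pre ++ l).map Prod.fst).Nodup →
      X.subst (tsub (cT pre)) ∈ π →
      Just (GC G) π ((sp pre l).map (fun t => X.subst (tsub (cT (t.1 ++ [t.2.1]))))) ∧
      X.subst (tsub (cT (pre ++ l))) ∈
        π ++ (sp pre l).map (fun t => X.subst (tsub (cT (t.1 ++ [t.2.1])))) := by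
    intro l
    induction l with
    | nil => intro pre π _ h; simpa [sp] using ⟨trivial, h⟩
    | cons p l ih =>
      intro pre π hn h
      have hp : p.1 ∉ pre.map Prod.fst := by
        rw [List.map_append, List.map_cons, List.nodup_append] at hn
        intro hc
        exact hn.2.2 _ hc _ (by simp) rfl
      have e : pre ++ p :: l = (pre ++ [p]) ++ l := by simp
      rw [sp, List.map_cons]
      obtain ⟨j, m⟩ := ih (pre ++ [p]) (π ++ [X.subst (tsub (cT (pre ++ [p])))])
        (by rw [← e]; exact hn) (by simp)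
      refine ⟨⟨Or.inr (Or.inr ⟨_, h, p.1, p.2, chn_step hp⟩), j⟩, ?_⟩
      rw [e]
      simpa using m
  have h0 : X.subst (tsub (cT [])) = X := Fm.subst_eq_self (fun x _ => rfl)
  exact key l [] π (by simpa using hn) (by rw [h0]; exact hX)

theorem litsOf_lw (d : Nm) (ys : List Nm) (a : List Bool) :
    litsOf (lw (ct d true) ys a) = ys.zip a := by
  unfold lw
  induction ys.zip a with
  | nil => rfl
  | cons p l ih =>
    rw [List.foldr_cons]
    have e : litsOf (Fm.and (lit p.1 p.2) (l.foldr (fun p X => Fm.and (lit p.1 p.2) X)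
        (ct d true))) = litsOf (lit p.1 p.2) ++ litsOf (l.foldr (fun p X =>
          Fm.and (lit p.1 p.2) X) (ct d true)) := by
      simp [litsOf, ands, litOf]
    rw [e, ih]
    obtain ⟨y, b⟩ := p
    cases b <;> rfl

theorem lk_zip {ys : List Nm} {a : List Bool} (hn : ys.Nodup) {p : Nm × Bool}
    (hp : p ∈ ys.zip a) : lk (ys.zip a) p.1 = some p.2 := by
  apply lk_eq hp
  intro b' hb'
  induction ys generalizing a with
  | nil => simp at hp
  | cons y ys ih =>
    cases a with
    | nil => simp at hp
    | cons c a =>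
      rw [List.nodup_cons] at hn
      rw [List.zip_cons_cons, List.mem_cons] at hp hb'
      rcases hp with hp | hp <;> rcases hb' with hb | hb
      · have e1 := congrArg Prod.snd hp
        have e2 := congrArg Prod.snd hb
        simp only at e1 e2
        rw [e1, e2]
      · rw [hp] at hb
        exact absurd (List.of_mem_zip hb).1 hn.1
      · have := congrArg Prod.fst hb
        simp only at this
        have h2 := (List.of_mem_zip hp).1
        rw [this] at h2
        exact absurd h2 hn.1
      · exact ih hn.2 hp hb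

theorem sm_eqr {d : Nm} {ys : List Nm} {a w : List Bool} (hn : ys.Nodup)
    (ha : a.length = ys.length) (hw : w.length = ys.length) :
    sm (ys.zip a) (eqr d ys w) = (some (decide (a = w)), var []) := by
  unfold eqr
  have hk : ∀ y ∈ ys, ∃ b, (y, b) ∈ ys.zip a := by
    intro y hy
    obtain ⟨i, hi, rfl⟩ := List.getElem_of_mem hy
    exact ⟨a[i]'(by omega), by
      rw [List.mem_iff_getElem]
      exact ⟨i, by simp [List.length_zip]; omega, by simp⟩⟩
  rw [sm_cj_val (fun p : Nm × Bool => lit p.1 p.2)
    (fun p => decide ((lk (ys.zip a) p.1).getD false = p.2))]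
  · rw [all_zip_eq (v := fun x => (lk (ys.zip a) x).getD false) ha hw]
    intro p hp
    rw [lk_zip hn hp]
    rfl
  · intro p hp
    obtain ⟨b, hb⟩ := hk p.1 (List.of_mem_zip hp).1
    have h2 := lk_zip hn hb
    simp only at h2
    obtain ⟨y, c⟩ := p
    simp only at h2
    cases c
    · show smN (smV _ y) = _
      unfold smV
      rw [h2]
      cases b <;> rfl
    · show smV _ y = _
      unfold smV
      rw [h2]
      cases b <;> rfl

theorem sm_eqr_subst {K : List (Nm × Bool)} {d : Nm} {ys : List Nm} {a w : List Bool}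
    (hn : ys.Nodup) (hd : d ∉ ys) (ha : a.length = ys.length) (hw : w.length = ys.length) :
    sm K ((eqr d ys w).subst (tsub (cT (ys.zip a)))) = (some (decide (a = w)), var []) := by
  have hfst : (ys.zip a).map Prod.fst = ys := by
    rw [List.map_fst_zip]
    omega
  have hk : ∀ y ∈ ys, ∃ b, (y, b) ∈ ys.zip a := by
    intro y hy
    obtain ⟨i, hi, rfl⟩ := List.getElem_of_mem hy
    exact ⟨a[i]'(by omega), by
      rw [List.mem_iff_getElem]
      exact ⟨i, by simp [List.length_zip]; omega, by simp⟩⟩
  unfold eqr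
  rw [subst_cj (tsub_cT_of_not_mem (by rw [hfst]; exact hd)), List.map_map]
  rw [sm_cj_val (Fm.subst (tsub (cT (ys.zip a))) ∘ fun p : Nm × Bool => lit p.1 p.2)
    (fun p => decide ((lk (ys.zip a) p.1).getD false = p.2))]
  · rw [all_zip_eq (v := fun x => (lk (ys.zip a) x).getD false) ha hw]
    intro p hp
    rw [lk_zip hn hp]
    rfl
  · intro p hp
    obtain ⟨b, hb⟩ := hk p.1 (List.of_mem_zip hp).1
    have h2 := lk_zip hn hb
    have h3 := tsub_cT_of_mem hb (by rw [hfst]; exact hn)
    simp only at h2 h3
    obtain ⟨y, c⟩ := p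
    simp only at h2 h3 ⊢
    cases c
    · show sm K (neg (tsub (cT (ys.zip a)) y)) = _
      rw [h3, sm_neg, sm_ct, h2]
      cases b <;> rfl
    · show sm K (tsub (cT (ys.zip a)) y) = _
      rw [h3, sm_ct, h2]
      cases b <;> rfl

/-! ### Codes and renamings -/

/-- The code of a variable. -/
def code (cd : List (Nm × List Bool)) (x : Nm) : List Bool :=
  cd.foldr (fun p s => if p.1 = x then p.2 else s) []

theorem code_cons (p : Nm × List Bool) (cd : List (Nm × List Bool)) (x : Nm) :
    code (p :: cd) x = if p.1 = x then p.2 else code cd x := rfl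

theorem mem_code {cd : List (Nm × List Bool)} {x : Nm} (h : x ∈ cd.map Prod.fst) :
    (x, code cd x) ∈ cd := by
  induction cd with
  | nil => simp at h
  | cons p cd ih =>
    rw [code_cons]
    by_cases hx : p.1 = x
    · rw [if_pos hx, ← hx]
      exact List.mem_cons_self
    · rw [if_neg hx]
      rw [List.map_cons, List.mem_cons] at h
      exact List.mem_cons_of_mem _ (ih (h.resolve_left (fun e => hx e.symm)))

theorem code_inj {cd : List (Nm × List Bool)} (hn : (cd.map Prod.snd).Nodup) {x y : Nm}
    (hx : x ∈ cd.map Prod.fst) (hy : y ∈ cd.map Prod.fst) (h : code cd x = code cd y) :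
    x = y := by
  have h1 := List.inj_on_of_nodup_map hn (mem_code hx) (mem_code hy) h
  exact congrArg Prod.fst h1

theorem tsub_regT {d : Nm} {regs : List (List Nm)} {cd : List (Nm × List Bool)} {x : Nm}
    (hn : (cd.map Prod.fst).Nodup) (hx : x ∈ cd.map Prod.fst) :
    tsub (regT d regs cd) x = anyr d regs (code cd x) := by
  apply tsub_of_mem
  · exact List.mem_map_of_mem (f := fun p : Nm × List Bool => (p.1, anyr d regs p.2))
      (mem_code hx)
  · unfold regT
    rw [List.map_map]
    exact hn

/-- The renaming from `C` to `B`. -/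
def rnf (C B : Fm) (x : Nm) : Nm := ren (nms C) (nms B) x

/-- Test whether `B` is obtained from `C` by a permutation of the variables of `C`. -/
def okP (C B : Fm) : Bool :=
  (decide (C.subst (fun x => var (rnf C B x)) = B) &&
    (nms C).all (fun x => decide (rnf C B x ∈ nms C))) &&
  ((nms C).all (fun x => (nms C).all (fun y =>
      !decide (rnf C B x = rnf C B y) || decide (x = y))) &&
    (nms C).all (fun y => (nms C).any (fun x => decide (rnf C B x = y))))

theorem okP_iff {C B : Fm} : okP C B = true ↔
    (C.subst (fun x => var (rnf C B x)) = B ∧ ∀ x ∈ nms C, rnf C B x ∈ nms C) ∧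
    (∀ x ∈ nms C, ∀ y ∈ nms C, rnf C B x = rnf C B y → x = y) ∧
    ∀ y ∈ nms C, ∃ x ∈ nms C, rnf C B x = y := by
  unfold okP
  simp only [Bool.and_eq_true, decide_eq_true_eq, List.all_eq_true, Bool.or_eq_true,
    Bool.not_eq_true', decide_eq_false_iff_not, List.any_eq_true]
  constructor
  · rintro ⟨h1, h2, h3⟩
    exact ⟨h1, fun x hx y hy e => (h2 x hx y hy).resolve_left (fun h => h e), h3⟩
  · rintro ⟨h1, h2, h3⟩
    refine ⟨h1, fun x hx y hy => ?_, h3⟩
    by_cases e : rnf C B x = rnf C B y
    · exact Or.inr (h2 x hx y hy e)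
    · exact Or.inl e

theorem okP_of_perm {C B : Fm} {ρ : Equiv.Perm Nm} (hρ : ∀ x, x ∉ C.vars → ρ x = x)
    (hB : B = C.subst (fun w => var (ρ w))) : okP C B = true := by
  have e : ∀ x ∈ nms C, rnf C B x = ρ x := by
    intro x hx
    unfold rnf
    rw [hB, nms_subst]
    exact ren_map (fun w => ρ w) x (nms C) hx
  have hm : ∀ x ∈ nms C, ρ x ∈ nms C := by
    intro x hx
    by_contra hc
    have h1 := hρ (ρ x) (fun h => hc (mem_nms.2 h))
    have h2 := ρ.injective h1
    rw [h2] at hc
    exact hc hx
  rw [okP_iff]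
  refine ⟨⟨?_, fun x hx => by rw [e x hx]; exact hm x hx⟩, ?_, ?_⟩
  · rw [hB] at e ⊢
    exact Fm.subst_congr (fun x hx => by rw [e x (mem_nms.2 hx)])
  · intro x hx y hy h
    rw [e x hx, e y hy] at h
    exact ρ.injective h
  · intro y hy
    have hx : ρ.symm y ∈ nms C := by
      by_contra hc
      have h1 := hρ (ρ.symm y) (fun h => hc (mem_nms.2 h))
      rw [Equiv.apply_symm_apply] at h1
      rw [← h1] at hc
      exact hc hy
    exact ⟨ρ.symm y, hx, by rw [e _ hx, Equiv.apply_symm_apply]⟩

/-- The value of a register before the renaming, for the value `a` after the renaming. -/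
def av (cd : List (Nm × List Bool)) (C B : Fm) (a : List Bool) : List Bool :=
  (nms C).foldr (fun x s => if code cd (rnf C B x) = a then code cd x else s) a

theorem av_cases (cd : List (Nm × List Bool)) (C B : Fm) (a : List Bool) :
    (∃ y ∈ nms C, code cd (rnf C B y) = a ∧ av cd C B a = code cd y) ∨
    ((∀ y ∈ nms C, code cd (rnf C B y) ≠ a) ∧ av cd C B a = a) := by
  unfold av
  generalize nms C = L
  induction L with
  | nil => exact Or.inr ⟨by simp, rfl⟩
  | cons x L ih =>
    rw [List.foldr_cons]
    by_cases hx : code cd (rnf C B x) = a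
    · rw [if_pos hx]
      exact Or.inl ⟨x, by simp, hx, rfl⟩
    · rw [if_neg hx]
      rcases ih with ⟨y, hy, h1, h2⟩ | ⟨h1, h2⟩
      · exact Or.inl ⟨y, List.mem_cons_of_mem _ hy, h1, h2⟩
      · refine Or.inr ⟨?_, h2⟩
        intro y hy
        rcases List.mem_cons.1 hy with rfl | hy
        · exact hx
        · exact h1 y hy

theorem av_eq_iff {cd : List (Nm × List Bool)} {C B : Fm} (hn : (cd.map Prod.snd).Nodup)
    (hv : ∀ x ∈ C.vars, x ∈ cd.map Prod.fst) (hok : okP C B = true) {x : Nm}
    (hx : x ∈ nms C) (a : List Bool) :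
    av cd C B a = code cd x ↔ a = code cd (rnf C B x) := by
  obtain ⟨⟨-, h2⟩, h3, h4⟩ := okP_iff.1 hok
  have hv' : ∀ x ∈ nms C, x ∈ cd.map Prod.fst := fun x hx => hv x (mem_nms.1 hx)
  rcases av_cases cd C B a with ⟨y, hy, e1, e2⟩ | ⟨e1, e2⟩
  · rw [e2]
    constructor
    · intro h
      have := code_inj hn (hv' y hy) (hv' x hx) h
      subst this
      exact e1.symm
    · intro h
      rw [h] at e1
      have h5 := code_inj hn (hv' _ (h2 y hy)) (hv' _ (h2 x hx)) e1
      rw [h3 y hy x hx h5]
  · rw [e2]
    constructor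
    · intro h
      obtain ⟨z, hz, e⟩ := h4 x hx
      exact absurd (by rw [e, h]) (e1 z hz)
    · intro h
      exact absurd h.symm (e1 x hx)

theorem av_length {cd : List (Nm × List Bool)} {C B : Fm} {r : ℕ}
    (hr : ∀ p ∈ cd, p.2.length = r) (hv : ∀ x ∈ C.vars, x ∈ cd.map Prod.fst) {a : List Bool}
    (ha : a.length = r) : (av cd C B a).length = r := by
  rcases av_cases cd C B a with ⟨y, hy, -, e2⟩ | ⟨-, e2⟩
  · rw [e2]
    exact hr _ (mem_code (hv y (mem_nms.1 hy)))
  · rw [e2]; exact ha

/-! ### One register -/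

/-- The formula for a variable, when the registers in `R1` are already renamed. -/
def regF (d : Nm) (cd : List (Nm × List Bool)) (f : Nm → Nm) (R1 R2 : List (List Nm)) (x : Nm) :
    Fm :=
  dj d (R1.map (fun ys => eqr d ys (code cd (f x))) ++ R2.map (fun ys => eqr d ys (code cd x)))

/-- Lines for one register. -/
def regStep (d : Nm) (cd : List (Nm × List Bool)) (W : List (List Bool)) (C B : Fm)
    (R1 : List (List Nm)) (ys : List Nm) (R2 : List (List Nm)) : List Fm :=
  W.flatMap (fun a =>
    chn (C.subst (regF d cd (rnf C B) R1 (ys :: R2))) (ys.zip (av cd C B a)) ++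
    li0 d (lw (ct d true) ys a)
      ((C.subst (regF d cd (rnf C B) R1 (ys :: R2))).subst (tsub (cT (ys.zip (av cd C B a)))))
      (C.subst (regF d cd (rnf C B) (R1 ++ [ys]) R2))) ++
  (splitL (ct d true) (C.subst (regF d cd (rnf C B) (R1 ++ [ys]) R2)) ys W ++
    [C.subst (regF d cd (rnf C B) (R1 ++ [ys]) R2)])

theorem eqr_subst_cT {d : Nm} {ys ys' : List Nm} {a w : List Bool} (hd : d ∉ ys)
    (h : ∀ y ∈ ys', y ∉ ys) :
    (eqr d ys' w).subst (tsub (cT (ys.zip a))) = eqr d ys' w := by
  apply Fm.subst_eq_self
  intro x hx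
  apply tsub_cT_of_not_mem
  intro hc
  obtain ⟨p, hp, rfl⟩ := List.mem_map.1 hc
  have h1 := (List.of_mem_zip hp).1
  rcases vars_eqr hx with h2 | h2
  · rw [h2] at h1; exact hd h1
  · exact h _ h2 h1

theorem regStep_just {G : List Rule} (hG : Rich G) {d : Nm} {cd : List (Nm × List Bool)}
    {W : List (List Bool)} {r : ℕ} {C B : Fm} {R1 : List (List Nm)} {ys : List Nm}
    {R2 : List (List Nm)} {π : List Fm}
    (hW : ∀ w, w ∈ W ↔ w.length = r) (hys : ys.length = r)
    (hnd : (R1 ++ ys :: R2).flatten.Nodup) (hd : d ∉ (R1 ++ ys :: R2).flatten)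
    (h2 : (cd.map Prod.snd).Nodup)
    (hr : ∀ p ∈ cd, p.2.length = r) (hv : ∀ x ∈ C.vars, x ∈ cd.map Prod.fst)
    (hok : okP C B = true) (hX : C.subst (regF d cd (rnf C B) R1 (ys :: R2)) ∈ π) :
    Just (GC G) π (regStep d cd W C B R1 ys R2) := by
  have hmR : ∀ σ B, RuleStep G σ B → GC G σ B := fun _ _ h => Or.inl h
  rw [List.flatten_append, List.flatten_cons, List.nodup_append, List.nodup_append] at hnd
  obtain ⟨-, ⟨hysn, -, hd2⟩, hd1⟩ := hnd
  simp only [List.flatten_append, List.flatten_cons, List.mem_append, not_or] at hd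
  have hdy : d ∉ ys := hd.2.1
  refine Just.append (Just.flatMap (mono_GC G) _ _ _ ?_) (Just.append ?_ ?_)
  · intro a ha
    have ha' : a.length = r := (hW a).1 ha
    have hav : (av cd C B a).length = r := av_length hr hv ha'
    have hfst : ((ys.zip (av cd C B a)).map Prod.fst).Nodup := by
      rw [List.map_fst_zip (by omega)]
      exact hysn
    obtain ⟨j1, m1⟩ := chn_just (G := G) hfst hX
    refine Just.append j1 ?_
    refine Just.imp_step (li0_just hG m1 ?_).1 hmR
    rw [litsOf_lw, Fm.subst_subst]
    apply sm_subst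
    intro x hx
    have hx' : x ∈ nms C := mem_nms.2 hx
    have hcx : (code cd x).length = r := hr _ (mem_code (hv x hx))
    have hcfx : (code cd (rnf C B x)).length = r :=
      hr _ (mem_code (hv _ (mem_nms.1 ((okP_iff.1 hok).1.2 x hx'))))
    unfold regF
    rw [subst_dj (tsub_cT_of_not_mem (by
      intro hc
      obtain ⟨p, hp, e⟩ := List.mem_map.1 hc
      rw [← e] at hdy
      exact hdy (List.of_mem_zip hp).1))]
    apply sm_dj_congr
    simp only [List.map_append, List.map_cons, List.map_map, List.append_assoc, List.map_nil,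
      List.cons_append, List.nil_append]
    congr 1
    · apply List.map_congr_left
      intro ys' hys'
      simp only [Function.comp_apply]
      rw [eqr_subst_cT hdy]
      intro y hy hy'
      exact hd1 y (List.mem_flatten.2 ⟨ys', hys', hy⟩) y (List.mem_append_left _ hy') rfl
    · congr 1
      · rw [sm_eqr_subst hysn hdy (by omega) (by omega), sm_eqr hysn (by omega) (by omega)]
        simp only [av_eq_iff h2 hv hok hx' a]
      · apply List.map_congr_left
        intro ys' hys'
        simp only [Function.comp_apply]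
        rw [eqr_subst_cT hdy]
        intro y hy hy'
        exact hd2 y hy' y (List.mem_flatten.2 ⟨ys', hys', hy⟩) rfl
  · refine Just.imp_step (splitL_just hG (fun w => by rw [hW w, hys]) ?_).1 hmR
    intro a ha
    refine List.mem_append_right _ (List.mem_flatMap.2 ⟨a, ha, List.mem_append_right _ ?_⟩)
    simp [li0, li]
  · refine ⟨Or.inr (Or.inl (hG.strip (H := var d) ?_)), trivial⟩
    refine (splitL_just hG (fun w => by rw [hW w, hys]) ?_).2
    intro a ha
    refine List.mem_append_right _ (List.mem_flatMap.2 ⟨a, ha, List.mem_append_right _ ?_⟩)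
    simp [li0, li]

/-! ### All registers -/

/-- Lines for a permutation of the variables of `C`. -/
def permL (d : Nm) (regs : List (List Nm)) (cd : List (Nm × List Bool)) (W : List (List Bool))
    (C B : Fm) : List Fm :=
  (sp [] regs).flatMap (fun t => regStep d cd W C B t.1 t.2.1 t.2.2)

theorem mem_regStep {d : Nm} {cd : List (Nm × List Bool)} {W : List (List Bool)} {C B : Fm}
    {R1 : List (List Nm)} {ys : List Nm} {R2 : List (List Nm)} :
    C.subst (regF d cd (rnf C B) (R1 ++ [ys]) R2) ∈ regStep d cd W C B R1 ys R2 := by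
  simp [regStep]

theorem permL_just {G : List Rule} (hG : Rich G) {d : Nm} {cd : List (Nm × List Bool)}
    {W : List (List Bool)} {r : ℕ} {C B : Fm} {regs : List (List Nm)} {π : List Fm}
    (hW : ∀ w, w ∈ W ↔ w.length = r) (hys : ∀ ys ∈ regs, ys.length = r)
    (hnd : regs.flatten.Nodup) (hd : d ∉ regs.flatten)
    (h2 : (cd.map Prod.snd).Nodup)
    (hr : ∀ p ∈ cd, p.2.length = r) (hv : ∀ x ∈ C.vars, x ∈ cd.map Prod.fst)
    (hok : okP C B = true) (hX : C.subst (regF d cd (rnf C B) [] regs) ∈ π) :
    Just (GC G) π (permL d regs cd W C B) ∧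
      C.subst (regF d cd (rnf C B) regs []) ∈ π ++ permL d regs cd W C B := by
  have key : ∀ (R2 R1 : List (List Nm)) (π : List Fm), R1 ++ R2 = regs →
      C.subst (regF d cd (rnf C B) R1 R2) ∈ π →
      Just (GC G) π ((sp R1 R2).flatMap (fun t => regStep d cd W C B t.1 t.2.1 t.2.2)) ∧
      C.subst (regF d cd (rnf C B) (R1 ++ R2) []) ∈
        π ++ (sp R1 R2).flatMap (fun t => regStep d cd W C B t.1 t.2.1 t.2.2) := by
    intro R2
    induction R2 with
    | nil => intro R1 π _ h; simpa [sp] using ⟨trivial, h⟩
    | cons ys R2 ih =>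
      intro R1 π e h
      rw [sp, List.flatMap_cons]
      have j1 : Just (GC G) π (regStep d cd W C B R1 ys R2) :=
        regStep_just hG hW (hys ys (by rw [← e]; simp)) (by rw [e]; exact hnd)
          (by rw [e]; exact hd) h2 hr hv hok h
      have e2 : R1 ++ ys :: R2 = (R1 ++ [ys]) ++ R2 := by simp
      obtain ⟨j2, m2⟩ := ih (R1 ++ [ys]) (π ++ regStep d cd W C B R1 ys R2)
        (by rw [← e2]; exact e) (List.mem_append_right _ mem_regStep)
      refine ⟨Just.append j1 j2, ?_⟩
      rw [e2, ← List.append_assoc]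
      exact m2
  exact key regs [] π rfl hX

theorem regF_nil_left {d : Nm} {cd : List (Nm × List Bool)} {f : Nm → Nm}
    {regs : List (List Nm)} {x : Nm} : regF d cd f [] regs x = anyr d regs (code cd x) := rfl

theorem regF_nil_right {d : Nm} {cd : List (Nm × List Bool)} {f : Nm → Nm}
    {regs : List (List Nm)} {x : Nm} : regF d cd f regs [] x = anyr d regs (code cd (f x)) := by
  simp [regF, anyr]

/-! ### The whole derivation -/

/-- The register form of a derivation with the permutation rule. -/
def regT' (d : Nm) (regs : List (List Nm)) (cd : List (Nm × List Bool)) (W : List (List Bool))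
    (ρ : List Fm) : List Fm :=
  (splits ρ).flatMap (fun p =>
    p.1.flatMap (fun C => if okP C p.2 = true then permL d regs cd W C p.2 else []) ++
    [p.2.subst (tsub (regT d regs cd))])

theorem regT'_snoc (d : Nm) (regs : List (List Nm)) (cd : List (Nm × List Bool))
    (W : List (List Bool)) (ρ : List Fm) (B : Fm) :
    regT' d regs cd W (ρ ++ [B]) = regT' d regs cd W ρ ++
      (ρ.flatMap (fun C => if okP C B = true then permL d regs cd W C B else []) ++
      [B.subst (tsub (regT d regs cd))]) := by
  unfold regT'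
  rw [splits_snoc, List.flatMap_append]
  simp

theorem regT'_just {F : List Rule} {d : Nm} {cd : List (Nm × List Bool)}
    {W : List (List Bool)} {r : ℕ} {regs : List (List Nm)} {ρ : List Fm}
    (hW : ∀ w, w ∈ W ↔ w.length = r) (hys : ∀ ys ∈ regs, ys.length = r)
    (hnd : regs.flatten.Nodup) (hd : d ∉ regs.flatten) (h1 : (cd.map Prod.fst).Nodup)
    (h2 : (cd.map Prod.snd).Nodup)
    (hr : ∀ p ∈ cd, p.2.length = r) (hρ : Deriv (FP F) ρ)
    (hv : ∀ C ∈ ρ, ∀ x ∈ C.vars, x ∈ cd.map Prod.fst) (π : List Fm) :
    Just (GC (GG F)) π (regT' d regs cd W ρ) ∧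
      ∀ B ∈ ρ, B.subst (tsub (regT d regs cd)) ∈ regT' d regs cd W ρ := by
  induction hρ with
  | nil => exact ⟨trivial, by simp⟩
  | @snoc ρ B g1 g2 ih =>
    obtain ⟨i1, i2⟩ := ih (fun C hC => hv C (List.mem_append_left _ hC))
    rw [regT'_snoc]
    have hX : ∀ C ∈ ρ, C.subst (regF d cd (rnf C B) [] regs) ∈ π ++ regT' d regs cd W ρ := by
      intro C hC
      have e : C.subst (regF d cd (rnf C B) [] regs) = C.subst (tsub (regT d regs cd)) :=
        Fm.subst_congr (fun x hx => by
          rw [regF_nil_left, tsub_regT h1 (hv C (List.mem_append_left _ hC) x hx)])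
      rw [e]
      exact List.mem_append_right _ (i2 C hC)
    have j1 : Just (GC (GG F)) (π ++ regT' d regs cd W ρ)
        (ρ.flatMap (fun C => if okP C B = true then permL d regs cd W C B else [])) := by
      apply Just.flatMap (mono_GC _)
      intro C hC
      split_ifs with hok
      · exact (permL_just (GG_rich F) hW hys hnd hd h2 hr
          (hv C (List.mem_append_left _ hC)) hok (hX C hC)).1
      · trivial
    refine ⟨Just.append i1 (Just.append j1 ⟨?_, trivial⟩), ?_⟩
    · rcases g2 with g2 | ⟨C, hC, σ, hσ, hB⟩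
      · right; left
        have := ruleStep_GG (ruleStep_subst g2 (tsub (regT d regs cd)))
        refine mono_ruleStep _ _ _ _ ?_ this
        intro D hD
        obtain ⟨D', hD', rfl⟩ := List.mem_map.1 hD
        exact List.mem_append_left _ (List.mem_append_right _ (i2 D' hD'))
      · left
        have hok : okP C B = true := okP_of_perm hσ hB
        have m := (permL_just (GG_rich F) hW hys hnd hd h2 hr
          (hv C (List.mem_append_left _ hC)) hok (hX C hC)).2
        have e : C.subst (regF d cd (rnf C B) regs []) = B.subst (tsub (regT d regs cd)) := by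
          obtain ⟨⟨e1, e2⟩, -, -⟩ := okP_iff.1 hok
          have e3 : B.subst (tsub (regT d regs cd)) =
              (C.subst (fun x => var (rnf C B x))).subst (tsub (regT d regs cd)) := by rw [e1]
          rw [e3, Fm.subst_subst]
          refine Fm.subst_congr (fun x hx => ?_)
          rw [regF_nil_right]
          exact (tsub_regT h1 (hv C (List.mem_append_left _ hC) _
            (mem_nms.1 (e2 x (mem_nms.2 hx))))).symm
        rw [e] at m
        rcases List.mem_append.1 m with m | m
        · exact List.mem_append_left _ m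
        · refine List.mem_append_right _ (List.mem_flatMap.2 ⟨C, hC, ?_⟩)
          rw [if_pos hok]
          exact m
    · intro D hD
      rcases List.mem_append.1 hD with hD | hD
      · exact List.mem_append_left _ (i2 D hD)
      · rw [List.mem_singleton] at hD
        subst hD
        simp

/-! ### Variables -/

theorem regF_vars {d : Nm} {cd : List (Nm × List Bool)} {f : Nm → Nm}
    {R1 R2 : List (List Nm)} {w x : Nm} (h : x ∈ (regF d cd f R1 R2 w).vars) :
    x = d ∨ x ∈ (R1 ++ R2).flatten := by
  unfold regF at h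
  rw [vars_dj] at h
  rcases h with h | ⟨A, hA, hx⟩
  · exact Or.inl h
  · rcases List.mem_append.1 hA with hA | hA
    · obtain ⟨ys, hys, rfl⟩ := List.mem_map.1 hA
      rcases vars_eqr hx with h | h
      · exact Or.inl h
      · exact Or.inr (List.mem_flatten.2 ⟨ys, List.mem_append_left _ hys, h⟩)
    · obtain ⟨ys, hys, rfl⟩ := List.mem_map.1 hA
      rcases vars_eqr hx with h | h
      · exact Or.inl h
      · exact Or.inr (List.mem_flatten.2 ⟨ys, List.mem_append_right _ hys, h⟩)

theorem subst_regF_vars {d : Nm} {cd : List (Nm × List Bool)} {f : Nm → Nm}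
    {R1 R2 : List (List Nm)} {C : Fm} {x : Nm} (h : x ∈ (C.subst (regF d cd f R1 R2)).vars) :
    x = d ∨ x ∈ (R1 ++ R2).flatten := by
  obtain ⟨w, -, hw⟩ := vars_subst h
  exact regF_vars hw

theorem subst_cT_vars {X : Fm} {l : List (Nm × Bool)} {x : Nm}
    (h : x ∈ (X.subst (tsub (cT l))).vars) : x ∈ X.vars ∨ x ∈ l.map Prod.fst := by
  obtain ⟨w, hw, hx⟩ := vars_subst h
  rcases tsub_cases (cT l) w with h1 | ⟨p, hp, h1⟩
  · rw [h1] at hx
    simp only [Fm.vars, Set.mem_singleton_iff] at hx
    rw [hx]
    exact Or.inl hw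
  · rw [h1] at hx
    obtain ⟨q, hq, rfl⟩ := List.mem_map.1 hp
    rw [vars_ct] at hx
    rw [hx]
    exact Or.inr (List.mem_map_of_mem (f := Prod.fst) hq)

theorem mem_sp_sub {β : Type} : ∀ {l pre : List β} {t : List β × β × List β}, t ∈ sp pre l →
    t.1 ++ t.2.1 :: t.2.2 = pre ++ l := by
  intro l
  induction l with
  | nil => intro pre t h; simp [sp] at h
  | cons b l ih =>
    intro pre t h
    rw [sp, List.mem_cons] at h
    rcases h with rfl | h
    · rfl
    · rw [ih h]; simp

theorem chn_vars {X C : Fm} {l : List (Nm × Bool)} (hC : C ∈ chn X l) {x : Nm}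
    (hx : x ∈ C.vars) : x ∈ X.vars ∨ x ∈ l.map Prod.fst := by
  obtain ⟨t, ht, rfl⟩ := List.mem_map.1 hC
  rcases subst_cT_vars hx with h | h
  · exact Or.inl h
  · right
    have e : t.1 ++ t.2.1 :: t.2.2 = l := by simpa using mem_sp_sub ht
    rw [← e]
    simp only [List.map_append, List.map_cons, List.map_nil, List.mem_append, List.mem_cons,
      List.not_mem_nil, or_false] at h ⊢
    tauto

theorem regStep_vars {d : Nm} {cd : List (Nm × List Bool)} {W : List (List Bool)} {C B : Fm}
    {R1 : List (List Nm)} {ys : List Nm} {R2 : List (List Nm)} {D : Fm}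
    (hD : D ∈ regStep d cd W C B R1 ys R2) {x : Nm} (hx : x ∈ D.vars) :
    x = d ∨ x ∈ (R1 ++ ys :: R2).flatten := by
  have hy : ∀ x, x ∈ ys → x ∈ (R1 ++ ys :: R2).flatten := by
    intro x hx
    exact List.mem_flatten.2 ⟨ys, by simp, hx⟩
  have h1 : ∀ x, x ∈ (C.subst (regF d cd (rnf C B) R1 (ys :: R2))).vars →
      x = d ∨ x ∈ (R1 ++ ys :: R2).flatten := fun x hx => subst_regF_vars hx
  have h2 : ∀ x, x ∈ (C.subst (regF d cd (rnf C B) (R1 ++ [ys]) R2)).vars →
      x = d ∨ x ∈ (R1 ++ ys :: R2).flatten := by
    intro x hx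
    have := subst_regF_vars hx
    simpa using this
  have hz : ∀ (a : List Bool) x, x ∈ (ys.zip a).map Prod.fst → x ∈ ys := by
    intro a x hx
    obtain ⟨p, hp, rfl⟩ := List.mem_map.1 hx
    exact (List.of_mem_zip hp).1
  unfold regStep at hD
  rcases List.mem_append.1 hD with hD | hD
  · obtain ⟨a, -, hD⟩ := List.mem_flatMap.1 hD
    rcases List.mem_append.1 hD with hD | hD
    · rcases chn_vars hD hx with h | h
      · exact h1 x h
      · exact Or.inr (hy _ (hz _ _ h))
    · rcases li0_vars hD hx with h | h | h | h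
      · exact Or.inl h
      · rcases lw_vars h with h | h
        · exact Or.inl (vars_ct.1 h)
        · exact Or.inr (hy _ h)
      · rcases subst_cT_vars h with h | h
        · exact h1 x h
        · exact Or.inr (hy _ (hz _ _ h))
      · exact h2 x h
  · rcases List.mem_append.1 hD with hD | hD
    · rcases splitL_vars hD hx with h | h | h
      · exact Or.inl (vars_ct.1 h)
      · exact h2 x h
      · exact Or.inr (hy _ h)
    · rw [List.mem_singleton] at hD
      subst hD
      exact h2 x hx

theorem permL_vars {d : Nm} {cd : List (Nm × List Bool)} {W : List (List Bool)} {C B : Fm}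
    {regs : List (List Nm)} {D : Fm} (hD : D ∈ permL d regs cd W C B) {x : Nm}
    (hx : x ∈ D.vars) : x = d ∨ x ∈ regs.flatten := by
  unfold permL at hD
  obtain ⟨t, ht, hD⟩ := List.mem_flatMap.1 hD
  have e : t.1 ++ t.2.1 :: t.2.2 = regs := by simpa using mem_sp_sub ht
  have := regStep_vars hD hx
  rwa [e] at this

theorem regT'_vars {d : Nm} {cd : List (Nm × List Bool)} {W : List (List Bool)}
    {regs : List (List Nm)} (h1 : (cd.map Prod.fst).Nodup) {ρ : List Fm}
    (hv : ∀ C ∈ ρ, ∀ x ∈ C.vars, x ∈ cd.map Prod.fst) {D : Fm}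
    (hD : D ∈ regT' d regs cd W ρ) {x : Nm} (hx : x ∈ D.vars) :
    x = d ∨ x ∈ regs.flatten := by
  induction ρ using List.reverseRecOn with
  | nil => simp [regT', splits, sp] at hD
  | append_singleton ρ B ih =>
    rw [regT'_snoc] at hD
    rcases List.mem_append.1 hD with hD | hD
    · exact ih (fun C hC => hv C (List.mem_append_left _ hC)) hD
    · rcases List.mem_append.1 hD with hD | hD
      · obtain ⟨C, -, hD⟩ := List.mem_flatMap.1 hD
        split_ifs at hD with h
        · exact permL_vars hD hx
        · simp at hD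
      · rw [List.mem_singleton] at hD
        subst hD
        obtain ⟨w, hw, hx⟩ := vars_subst hx
        rw [tsub_regT h1 (hv B (by simp) w hw), ← regF_nil_left (f := id)] at hx
        exact regF_vars hx

end Pool.Agent.H.MP_0447ec_lc.PS
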