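import Pool.Agent.H.MP_0447ec_lc.LV.Base
import Pool.Agent.H.MP_0447ec_lc.LV.EnginePoly

/-!
# Elimination of dummy variables

From `A` under the hypothesis that `N` new variables are all false, and `A` under the hypothesis
that they are all true, `A` follows with the permutation rule in polynomially many steps.

`zv` is a list of `N` pairs `(u_i, v_i)` of different new names. Let
`U a b := imp (cj d (¬u_0, ..., ¬u_{a-1}, v_0, ..., v_{b-1})) A`, `a, b ≤ N`.
* `U N b` for all `b ≤ N`: `li` from the first given line (all hypotheses are members).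
* `U a N` for all `a ≤ N`: from the second given line `imp (cj d (u_0, ..., u_{N-1})) A`: first
  `li` to `imp (cj d (u_0 ∧ ct v_0 true, ...)) A` (`ct v true` is `imp (var v) (var v)`), then
  the permutation rule with `Equiv.swap u_i v_i` for `i = 0, ..., N - 1`, giving
  `imp (cj d (v_0 ∧ ct u_0 true, ...)) A`, then `li`.
* `U a b` for `a, b < N` from `U (a+1) b` and `U a (b+1)`: `li` from `U a (b+1)` to
  `P := imp (cj d (¬u_i (i < a), v_i (i < b), v_b ∧ ct u_a true)) A`, then the permutation rule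
  with `Equiv.swap v_b u_a`, giving `imp (cj d (¬u_i (i < a), v_i (i < b), u_a ∧ ct v_b true)) A`
  (`d` and `A` are not changed), then `li` to `imp (and (var u_a) (HH a b)) A`, and `li` from
  `U (a+1) b` to `imp (and (neg (var u_a)) (HH a b)) A`, where `HH a b` is the hypothesis of
  `U a b`; then the line `imp (HH a b) A` (`Rich.cases`).
* `A` from `U 0 0 = imp (ct d true) A` (`Rich.strip`).
The lines are emitted for `a = N-1, ..., 0` and for each `a` for `b = N-1, ..., 0`.
(Both variables have to occur in the line to which a permutation is applied.)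
-/

namespace Pool.Agent.H.MP_0447ec_lc.PS

open Fm

/-! ### Transpositions -/

theorem el_swap_fix {X : Fm} {u v : Nm} (hu : u ∉ X.vars) (hv : v ∉ X.vars) :
    X.subst (fun w => var (Equiv.swap u v w)) = X :=
  Fm.subst_eq_self (fun x hx => by
    rw [Equiv.swap_apply_of_ne_of_ne]
    · rintro rfl; exact hu hx
    · rintro rfl; exact hv hx)

theorem el_cj_subst {d : Nm} {s : Nm → Fm} (hd : s d = var d) (Γ : List Fm) :
    (cj d Γ).subst s = cj d (Γ.map (Fm.subst s)) := by
  induction Γ with
  | nil => simp [cj_nil, ct, Fm.subst, hd]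
  | cons A Γ ih => rw [cj_cons, List.map_cons, cj_cons, ← ih]; rfl

theorem el_vars_cj {d : Nm} {Γ : List Fm} {X : Fm} (h : X ∈ Γ) {x : Nm} (hx : x ∈ X.vars) :
    x ∈ (cj d Γ).vars := by
  induction Γ with
  | nil => simp at h
  | cons A Γ ih =>
    rw [cj_cons]
    rcases List.mem_cons.1 h with rfl | h
    · exact Or.inl hx
    · exact Or.inr (ih h)

/-- A transposition of two new variables in one hypothesis. -/
theorem el_perm_line {π : List Fm} {d u v : Nm} {Γ Δ : List Fm} {A : Fm}
    (h : imp (cj d (Γ ++ Fm.and (var v) (ct u true) :: Δ)) A ∈ π) (hu : u ≠ d) (hv : v ≠ d)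
    (hΓ : ∀ X ∈ Γ, u ∉ X.vars ∧ v ∉ X.vars) (hΔ : ∀ X ∈ Δ, u ∉ X.vars ∧ v ∉ X.vars)
    (huA : u ∉ A.vars) (hvA : v ∉ A.vars) :
    PermStep π (imp (cj d (Γ ++ Fm.and (var u) (ct v true) :: Δ)) A) := by
  have hm : Fm.and (var v) (ct u true) ∈ Γ ++ Fm.and (var v) (ct u true) :: Δ := by simp
  have m1 : u ∈ (imp (cj d (Γ ++ Fm.and (var v) (ct u true) :: Δ)) A).vars :=
    Or.inl (el_vars_cj hm (by simp [ct, Fm.vars]))
  have m2 : v ∈ (imp (cj d (Γ ++ Fm.and (var v) (ct u true) :: Δ)) A).vars :=
    Or.inl (el_vars_cj hm (by simp [ct, Fm.vars]))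
  refine ⟨_, h, Equiv.swap u v, ?_, ?_⟩
  · intro x hx
    exact Equiv.swap_apply_of_ne_of_ne (fun e => hx (e ▸ m1)) (fun e => hx (e ▸ m2))
  · have hd : (fun w => var (Equiv.swap u v w)) d = var d := by
      show var (Equiv.swap u v d) = var d
      rw [Equiv.swap_apply_of_ne_of_ne hu.symm hv.symm]
    have e1 : Γ.map (Fm.subst (fun w => var (Equiv.swap u v w))) = Γ := by
      conv_rhs => rw [← List.map_id Γ]
      exact List.map_congr_left (fun X hX => el_swap_fix (hΓ X hX).1 (hΓ X hX).2)
    have e2 : Δ.map (Fm.subst (fun w => var (Equiv.swap u v w))) = Δ := by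
      conv_rhs => rw [← List.map_id Δ]
      exact List.map_congr_left (fun X hX => el_swap_fix (hΔ X hX).1 (hΔ X hX).2)
    rw [Fm.subst, el_swap_fix huA hvA, el_cj_subst hd, List.map_append, List.map_cons, e1, e2]
    simp [Fm.subst, ct]

/-! ### The lines -/

/-- The negated literal of the first variable of a pair. -/
def elN (p : Nm × Nm) : Fm := neg (var p.1)

/-- The second variable of a pair. -/
def elV (p : Nm × Nm) : Fm := var p.2

/-- Both variables of a pair occur in this formula, which says that the first one is true. -/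
def elX (p : Nm × Nm) : Fm := Fm.and (var p.1) (ct p.2 true)

/-- Both variables of a pair occur in this formula, which says that the second one is true. -/
def elY (p : Nm × Nm) : Fm := Fm.and (var p.2) (ct p.1 true)

/-- Weakenings of the hypothesis that all first variables are false. -/
def elA (d : Nm) (zv : List (Nm × Nm)) (A : Fm) : List Fm :=
  ((sp [] zv).map (fun s => s.1)).flatMap
    (fun y => li (cj d (zv.map elN ++ y.map elV)) (cj d (zv.map elN)) A A) ++
  li (cj d (zv.map elN ++ zv.map elV)) (cj d (zv.map elN)) A A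

/-- From the first to the second variables. -/
def elB (d : Nm) (zv : List (Nm × Nm)) (A : Fm) : List Fm :=
  li (cj d (zv.map elX)) (cj d (zv.map (fun p => var p.1))) A A ++
  (sp [] zv).map (fun s => imp (cj d (s.1.map elY ++ elY s.2.1 :: s.2.2.map elX)) A)

/-- Weakenings of the hypothesis that all second variables are true. -/
def elC (d : Nm) (zv : List (Nm × Nm)) (A : Fm) : List Fm :=
  (sp [] zv).flatMap
    (fun s => li (cj d (s.1.map elN ++ zv.map elV)) (cj d (zv.map elY)) A A)

/-- One step of the elimination. -/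
def elS (d : Nm) (A : Fm) (x : List (Nm × Nm)) (p : Nm × Nm) (y : List (Nm × Nm))
    (q : Nm × Nm) : List Fm :=
  li (cj d ((x.map elN ++ y.map elV) ++ [Fm.and (var q.2) (ct p.1 true)]))
    (cj d (x.map elN ++ (y ++ [q]).map elV)) A A ++
  ([imp (cj d ((x.map elN ++ y.map elV) ++ [Fm.and (var p.1) (ct q.2 true)])) A] ++
  (li (Fm.and (var p.1) (cj d (x.map elN ++ y.map elV)))
    (cj d ((x.map elN ++ y.map elV) ++ [Fm.and (var p.1) (ct q.2 true)])) A A ++
  (li (Fm.and (neg (var p.1)) (cj d (x.map elN ++ y.map elV)))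
    (cj d ((x ++ [p]).map elN ++ y.map elV)) A A ++
  [imp (cj d (x.map elN ++ y.map elV)) A])))

/-- The elimination. -/
def elT (d : Nm) (zv : List (Nm × Nm)) (A : Fm) : List Fm :=
  elA d zv A ++ (elB d zv A ++ (elC d zv A ++
    ((sp [] zv).reverse.flatMap (fun s => (sp [] zv).reverse.flatMap
      (fun t => elS d A s.1 s.2.1 t.1 t.2.1)) ++ [imp (ct d true) A, A])))

section

variable {G : List Rule}

theorem el_li (hG : Rich G) {H H' A : Fm} {π : List Fm}
    (h : imp H' A ∈ π) (h1 : okH H H') :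
    Just (FP G) π (li H H' A A) ∧ imp H A ∈ li H H' A A := by
  obtain ⟨j, m⟩ := li_just hG h h1 (rfl : sm (litsOf H) A = sm (litsOf H) A)
  exact ⟨j.imp_step (fun _ _ h => Or.inl h), m⟩

theorem el_mem_sp {β : Type} : ∀ (l pre y : List β) (e : β) (t : List β), l = y ++ e :: t →
    (pre ++ y, e, t) ∈ sp pre l := by
  intro l
  induction l with
  | nil => intro pre y e t h; simp at h
  | cons a l ih =>
    intro pre y e t h
    cases y with
    | nil =>
      simp only [List.nil_append, List.cons.injEq] at h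
      obtain ⟨rfl, rfl⟩ := h
      simp [sp]
    | cons b y =>
      simp only [List.cons_append, List.cons.injEq] at h
      obtain ⟨rfl, h⟩ := h
      simp only [sp, List.mem_cons]
      right
      have := ih (pre ++ [a]) y e t h
      simpa using this

theorem elA_just (hG : Rich G) {d : Nm} {zv : List (Nm × Nm)} {A : Fm} {π : List Fm}
    (h : imp (cj d (zv.map elN)) A ∈ π) :
    Just (FP G) π (elA d zv A) ∧
      ∀ y, y <+: zv → imp (cj d (zv.map elN ++ y.map elV)) A ∈ elA d zv A := by
  have ok : ∀ y : List (Nm × Nm), okH (cj d (zv.map elN ++ y.map elV)) (cj d (zv.map elN)) := by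
    intro y
    rw [okH_cj]
    intro X hX
    exact okH_of_mem (mem_ands_cj (List.mem_append_left _ hX) (self_mem_ands X))
  constructor
  · refine Just.append (Just.flatMap (mono_perm G) _ _ _ (fun y _ => (el_li hG h (ok y)).1)) ?_
    exact (el_li hG (List.mem_append_left _ h) (ok zv)).1
  · rintro y ⟨t, ht⟩
    cases t with
    | nil =>
      rw [List.append_nil] at ht
      subst ht
      exact List.mem_append_right _ (el_li hG h (ok _)).2
    | cons e t =>
      refine List.mem_append_left _ ?_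
      rw [List.mem_flatMap]
      refine ⟨y, ?_, (el_li hG h (ok y)).2⟩
      rw [List.mem_map]
      exact ⟨_, el_mem_sp zv [] y e t ht.symm, by simp⟩

theorem elB_just (hG : Rich G) {d : Nm} {zv : List (Nm × Nm)} {A : Fm} {π : List Fm}
    (h : imp (cj d (zv.map (fun p => var p.1))) A ∈ π)
    (h1 : (zv.map Prod.fst).Nodup) (h2 : (zv.map Prod.snd).Nodup)
    (h3 : ∀ p ∈ zv, ∀ q ∈ zv, p.1 ≠ q.2) (h4 : ∀ p ∈ zv, p.1 ≠ d ∧ p.2 ≠ d)
    (h5 : ∀ p ∈ zv, p.1 ∉ A.vars ∧ p.2 ∉ A.vars) :
    Just (FP G) π (elB d zv A) ∧ imp (cj d (zv.map elY)) A ∈ π ++ elB d zv A := by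
  have ok : okH (cj d (zv.map elX)) (cj d (zv.map (fun p => var p.1))) := by
    rw [okH_cj]
    intro X hX
    obtain ⟨p, hp, rfl⟩ := List.mem_map.1 hX
    exact okH_of_mem (mem_ands_cj (List.mem_map_of_mem hp) (by
      simp [elX, ands]))
  obtain ⟨j, m⟩ := el_li hG h ok
  have key : ∀ (l pre : List (Nm × Nm)) (π : List Fm), pre ++ l = zv →
      imp (cj d (pre.map elY ++ l.map elX)) A ∈ π →
      Just (FP G) π ((sp pre l).map
        (fun s => imp (cj d (s.1.map elY ++ elY s.2.1 :: s.2.2.map elX)) A)) ∧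
      imp (cj d (zv.map elY)) A ∈ π ++ (sp pre l).map
        (fun s => imp (cj d (s.1.map elY ++ elY s.2.1 :: s.2.2.map elX)) A) := by
    intro l
    induction l with
    | nil =>
      intro pre π e hm
      rw [List.append_nil] at e
      subst e
      exact ⟨trivial, List.mem_append_left _ (by simpa using hm)⟩
    | cons p l ih =>
      intro pre π e hm
      have hp : p ∈ zv := by rw [← e]; simp
      have e1 : ∀ x ∈ pre, x.1 ≠ p.1 ∧ x.2 ≠ p.2 := by
        intro x hx
        rw [← e, List.map_append, List.map_cons, List.nodup_append] at h1 h2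
        exact ⟨h1.2.2 _ (List.mem_map_of_mem hx) _ (by simp),
          h2.2.2 _ (List.mem_map_of_mem hx) _ (by simp)⟩
      have e2 : ∀ x ∈ l, x.1 ≠ p.1 ∧ x.2 ≠ p.2 := by
        intro x hx
        rw [← e, List.map_append, List.map_cons, List.nodup_append, List.nodup_cons] at h1 h2
        exact ⟨fun e => h1.2.1.1 (e ▸ List.mem_map_of_mem hx),
          fun e => h2.2.1.1 (e ▸ List.mem_map_of_mem hx)⟩
      have e3 : ∀ x ∈ pre, x ∈ zv := by intro x hx; rw [← e]; simp [hx]
      have e4 : ∀ x ∈ l, x ∈ zv := by intro x hx; rw [← e]; simp [hx]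
      have hs : PermStep π (imp (cj d (pre.map elY ++ elY p :: l.map elX)) A) := by
        refine el_perm_line (u := p.2) (v := p.1) hm (h4 p hp).2 (h4 p hp).1 ?_ ?_ (h5 p hp).2
          (h5 p hp).1
        · intro X hX
          obtain ⟨x, hx, rfl⟩ := List.mem_map.1 hX
          have a1 := h3 x (e3 x hx) p hp
          have a2 := h3 p hp x (e3 x hx)
          have a3 := e1 x hx
          constructor
          · simp only [elY, ct, if_true, Fm.vars, Set.mem_union, Set.mem_singleton_iff, not_or]
            exact ⟨a3.2.symm, a1.symm, a1.symm⟩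
          · simp only [elY, ct, if_true, Fm.vars, Set.mem_union, Set.mem_singleton_iff, not_or]
            exact ⟨a2, a3.1.symm, a3.1.symm⟩
        · intro X hX
          obtain ⟨x, hx, rfl⟩ := List.mem_map.1 hX
          have a1 := h3 x (e4 x hx) p hp
          have a2 := h3 p hp x (e4 x hx)
          have a3 := e2 x hx
          constructor
          · simp only [elX, ct, if_true, Fm.vars, Set.mem_union, Set.mem_singleton_iff, not_or]
            exact ⟨a1.symm, a3.2.symm, a3.2.symm⟩
          · simp only [elX, ct, if_true, Fm.vars, Set.mem_union, Set.mem_singleton_iff, not_or]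
            exact ⟨a3.1.symm, a2, a2⟩
      simp only [sp, List.map_cons]
      obtain ⟨j1, m1⟩ := ih (pre ++ [p])
        (π ++ [imp (cj d (pre.map elY ++ elY p :: l.map elX)) A]) (by rw [← e]; simp) (by simp)
      exact ⟨⟨Or.inr (Or.inr hs), j1⟩, by simpa using m1⟩
  obtain ⟨j1, m1⟩ := key zv [] (π ++ li (cj d (zv.map elX)) (cj d (zv.map (fun p => var p.1))) A A)
    rfl (List.mem_append_right _ (by simpa using m))
  refine ⟨Just.append j j1, ?_⟩
  rw [elB, ← List.append_assoc]
  exact m1

theorem elC_just (hG : Rich G) {d : Nm} {zv : List (Nm × Nm)} {A : Fm} {π : List Fm}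
    (h : imp (cj d (zv.map elY)) A ∈ π) :
    Just (FP G) π (elC d zv A) ∧
      ∀ s ∈ sp [] zv, imp (cj d (s.1.map elN ++ zv.map elV)) A ∈ elC d zv A := by
  have ok : ∀ x : List (Nm × Nm), okH (cj d (x.map elN ++ zv.map elV)) (cj d (zv.map elY)) := by
    intro x
    rw [okH_cj]
    intro X hX
    obtain ⟨p, hp, rfl⟩ := List.mem_map.1 hX
    rw [elY, okH_and]
    refine ⟨okH_of_mem (mem_ands_cj (List.mem_append_right _ (List.mem_map_of_mem hp)) ?_),
      okH_ct _ _⟩
    exact self_mem_ands _
  constructor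
  · exact Just.flatMap (mono_perm G) _ _ _ (fun s _ => (el_li hG h (ok s.1)).1)
  · intro s hs
    exact List.mem_flatMap.2 ⟨s, hs, (el_li hG h (ok s.1)).2⟩

theorem elS_just (hG : Rich G) {d : Nm} {A : Fm} {x y : List (Nm × Nm)} {p q : Nm × Nm}
    {π : List Fm}
    (ha : imp (cj d (x.map elN ++ (y ++ [q]).map elV)) A ∈ π)
    (hb : imp (cj d ((x ++ [p]).map elN ++ y.map elV)) A ∈ π)
    (hp : p.1 ≠ d) (hq : q.2 ≠ d) (hpA : p.1 ∉ A.vars) (hqA : q.2 ∉ A.vars)
    (hx : ∀ z ∈ x, z.1 ≠ p.1 ∧ z.1 ≠ q.2) (hy : ∀ z ∈ y, z.2 ≠ p.1 ∧ z.2 ≠ q.2) :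
    Just (FP G) π (elS d A x p y q) := by
  have o1 : okH (cj d ((x.map elN ++ y.map elV) ++ [Fm.and (var q.2) (ct p.1 true)]))
      (cj d (x.map elN ++ (y ++ [q]).map elV)) := by
    rw [okH_cj]
    intro X hX
    rw [List.map_append, List.map_singleton, ← List.append_assoc, List.mem_append,
      List.mem_singleton] at hX
    rcases hX with hX | rfl
    · exact okH_of_mem (mem_ands_cj (List.mem_append_left _ hX) (self_mem_ands X))
    · refine okH_of_mem (mem_ands_cj (List.mem_append_right _ (List.mem_singleton.2 rfl)) ?_)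
      simp [ands, elV]
  obtain ⟨j1, m1⟩ := el_li hG ha o1
  refine Just.append j1 (Just.append ⟨Or.inr (Or.inr ?_), trivial⟩ (Just.append ?_
    (Just.append ?_ ⟨Or.inr (Or.inl ?_), trivial⟩)))
  · refine el_perm_line (Δ := []) (List.mem_append_right _ m1) hp hq ?_ (by simp) hpA hqA
    intro X hX
    rcases List.mem_append.1 hX with hX | hX
    · obtain ⟨z, hz, rfl⟩ := List.mem_map.1 hX
      have := hx z hz
      constructor
      · simp only [elN, Fm.vars, Set.mem_singleton_iff]; exact this.1.symm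
      · simp only [elN, Fm.vars, Set.mem_singleton_iff]; exact this.2.symm
    · obtain ⟨z, hz, rfl⟩ := List.mem_map.1 hX
      have := hy z hz
      constructor
      · simp only [elV, Fm.vars, Set.mem_singleton_iff]; exact this.1.symm
      · simp only [elV, Fm.vars, Set.mem_singleton_iff]; exact this.2.symm
  · refine (el_li hG (List.mem_append_right _ (List.mem_singleton.2 rfl)) ?_).1
    rw [okH_cj]
    intro X hX
    rcases List.mem_append.1 hX with hX | hX
    · refine okH_of_mem ?_
      simp only [ands, List.mem_cons, List.mem_append]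
      exact Or.inr (Or.inr (mem_ands_cj hX (self_mem_ands X)))
    · rw [List.mem_singleton] at hX
      subst hX
      rw [okH_and]
      refine ⟨okH_of_mem ?_, okH_ct _ _⟩
      simp [ands]
  · refine (el_li hG (List.mem_append_left _ (List.mem_append_left _
      (List.mem_append_left _ hb))) ?_).1
    rw [okH_cj]
    intro X hX
    rw [List.map_append, List.map_singleton] at hX
    simp only [List.mem_append, List.mem_singleton] at hX
    refine okH_of_mem ?_
    simp only [ands, List.mem_cons, List.mem_append]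
    rcases hX with (hX | rfl) | hX
    · exact Or.inr (Or.inr (mem_ands_cj (List.mem_append_left _ hX) (self_mem_ands X)))
    · right; left; simp [elN]
    · exact Or.inr (Or.inr (mem_ands_cj (List.mem_append_right _ hX) (self_mem_ands X)))
  · refine hG.cases (A := var p.1) ?_ ?_
    · refine List.mem_append_left _ (List.mem_append_right _ ?_)
      simp [li]
    · refine List.mem_append_right _ ?_
      simp [li]

theorem elS_mem {d : Nm} {A : Fm} {x y : List (Nm × Nm)} {p q : Nm × Nm} :
    imp (cj d (x.map elN ++ y.map elV)) A ∈ elS d A x p y q := by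
  simp [elS]

/-- The inner loop. -/
theorem elS_inner (hG : Rich G) {d : Nm} {A : Fm} {zv : List (Nm × Nm)}
    (h2 : (zv.map Prod.snd).Nodup) {x : List (Nm × Nm)} {p : Nm × Nm}
    (hp : p.1 ≠ d) (hz : ∀ z ∈ zv, z.2 ≠ d ∧ z.2 ∉ A.vars ∧ z.2 ≠ p.1) (hpA : p.1 ∉ A.vars)
    (hx : ∀ z ∈ x, z.1 ≠ p.1 ∧ ∀ q ∈ zv, z.1 ≠ q.2) :
    ∀ (l y : List (Nm × Nm)) (π : List Fm), y ++ l = zv →
      (∀ y', y' <+: zv → imp (cj d ((x ++ [p]).map elN ++ y'.map elV)) A ∈ π) →
      imp (cj d (x.map elN ++ zv.map elV)) A ∈ π →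
      Just (FP G) π ((sp y l).reverse.flatMap (fun t => elS d A x p t.1 t.2.1)) ∧
      ∀ l', l' <+: l → imp (cj d (x.map elN ++ (y ++ l').map elV)) A ∈
        π ++ (sp y l).reverse.flatMap (fun t => elS d A x p t.1 t.2.1) := by
  intro l
  induction l with
  | nil =>
    intro y π e _ hm
    rw [List.append_nil] at e
    subst e
    refine ⟨trivial, ?_⟩
    intro l' hl'
    rw [List.prefix_nil] at hl'
    subst hl'
    exact List.mem_append_left _ (by simpa using hm)
  | cons q l ih =>
    intro y π e hb hm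
    obtain ⟨j, m⟩ := ih (y ++ [q]) π (by rw [← e]; simp) hb hm
    simp only [sp, List.reverse_cons, List.flatMap_append, List.flatMap_cons, List.flatMap_nil,
      List.append_nil]
    have hq : q ∈ zv := by rw [← e]; simp
    have e1 : ∀ z ∈ y, z ∈ zv := by intro z hz; rw [← e]; simp [hz]
    refine ⟨Just.append j (elS_just hG ?_ ?_ hp (hz q hq).1 hpA (hz q hq).2.1 ?_ ?_), ?_⟩
    · have := m [] (List.nil_prefix)
      simpa using this
    · exact List.mem_append_left _ (hb y ⟨q :: l, e⟩)
    · intro z hz'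
      exact ⟨(hx z hz').1, (hx z hz').2 q hq⟩
    · intro z hz'
      refine ⟨(hz z (e1 z hz')).2.2, ?_⟩
      rw [← e, List.map_append, List.map_cons, List.nodup_append] at h2
      exact h2.2.2 _ (List.mem_map_of_mem hz') _ (by simp)
    · intro l' hl'
      cases l' with
      | nil =>
        rw [List.append_nil]
        exact List.mem_append_right _ (List.mem_append_right _ elS_mem)
      | cons q' l' =>
        rw [List.cons_prefix_cons] at hl'
        obtain ⟨rfl, hl'⟩ := hl'
        have := m l' hl'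
        rw [← List.append_assoc]
        refine List.mem_append_left _ ?_
        simpa using this

/-- The outer loop. -/
theorem elS_outer (hG : Rich G) {d : Nm} {A : Fm} {zv : List (Nm × Nm)}
    (h1 : (zv.map Prod.fst).Nodup) (h2 : (zv.map Prod.snd).Nodup)
    (h3 : ∀ p ∈ zv, ∀ q ∈ zv, p.1 ≠ q.2) (h4 : ∀ p ∈ zv, p.1 ≠ d ∧ p.2 ≠ d)
    (h5 : ∀ p ∈ zv, p.1 ∉ A.vars ∧ p.2 ∉ A.vars) :
    ∀ (l x : List (Nm × Nm)) (π : List Fm), x ++ l = zv →
      (∀ y', y' <+: zv → imp (cj d (zv.map elN ++ y'.map elV)) A ∈ π) →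
      (∀ s ∈ sp [] zv, imp (cj d (s.1.map elN ++ zv.map elV)) A ∈ π) →
      Just (FP G) π ((sp x l).reverse.flatMap (fun s => (sp [] zv).reverse.flatMap
        (fun t => elS d A s.1 s.2.1 t.1 t.2.1))) ∧
      ∀ y, y <+: zv → imp (cj d (x.map elN ++ y.map elV)) A ∈
        π ++ (sp x l).reverse.flatMap (fun s => (sp [] zv).reverse.flatMap
        (fun t => elS d A s.1 s.2.1 t.1 t.2.1)) := by
  intro l
  induction l with
  | nil =>
    intro x π e hm _
    rw [List.append_nil] at e
    subst e
    refine ⟨trivial, ?_⟩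
    intro y hy
    exact List.mem_append_left _ (hm y hy)
  | cons p l ih =>
    intro x π e hm ht
    obtain ⟨j, m⟩ := ih (x ++ [p]) π (by rw [← e]; simp) hm ht
    simp only [sp, List.reverse_cons, List.flatMap_append, List.flatMap_cons, List.flatMap_nil,
      List.append_nil]
    have hp : p ∈ zv := by rw [← e]; simp
    have e1 : ∀ z ∈ x, z ∈ zv := by intro z hz; rw [← e]; simp [hz]
    obtain ⟨j1, m1⟩ := elS_inner hG h2 (x := x) (p := p) (h4 p hp).1
      (fun z hz => ⟨(h4 z hz).2, (h5 z hz).2, (h3 p hp z hz).symm⟩) (h5 p hp).1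
      (by
        intro z hz
        refine ⟨?_, fun q hq => h3 z (e1 z hz) q hq⟩
        rw [← e, List.map_append, List.map_cons, List.nodup_append] at h1
        exact h1.2.2 _ (List.mem_map_of_mem hz) _ (by simp)) zv []
      (π ++ (sp (x ++ [p]) l).reverse.flatMap (fun s => (sp [] zv).reverse.flatMap
        (fun t => elS d A s.1 s.2.1 t.1 t.2.1))) rfl m
      (List.mem_append_left _ (ht (x, p, l) (by
        have := el_mem_sp zv [] x p l e.symm
        simpa using this)))
    refine ⟨Just.append j j1, ?_⟩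
    intro y hy
    have := m1 y hy
    rw [← List.append_assoc]
    simpa using this

theorem elT_just (hG : Rich G) {d : Nm} {A : Fm} {zv : List (Nm × Nm)}
    (h1 : (zv.map Prod.fst).Nodup) (h2 : (zv.map Prod.snd).Nodup)
    (h3 : ∀ p ∈ zv, ∀ q ∈ zv, p.1 ≠ q.2) (h4 : ∀ p ∈ zv, p.1 ≠ d ∧ p.2 ≠ d)
    (h5 : ∀ p ∈ zv, p.1 ∉ A.vars ∧ p.2 ∉ A.vars) {π : List Fm}
    (ha : imp (cj d (zv.map elN)) A ∈ π)
    (hb : imp (cj d (zv.map (fun p => var p.1))) A ∈ π) :
    Just (FP G) π (elT d zv A) ∧ A ∈ elT d zv A := by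
  refine ⟨?_, by simp [elT]⟩
  obtain ⟨jA, mA⟩ := elA_just hG ha
  obtain ⟨jB, mB⟩ := elB_just hG (List.mem_append_left (elA d zv A) hb) h1 h2 h3 h4 h5
  obtain ⟨jC, mC⟩ := elC_just hG (d := d) (zv := zv) (A := A) mB
  refine Just.append jA (Just.append jB (Just.append jC ?_))
  obtain ⟨jD, mD⟩ := elS_outer hG h1 h2 h3 h4 h5 zv []
    (π ++ elA d zv A ++ elB d zv A ++ elC d zv A) rfl
    (fun y hy => List.mem_append_left _ (List.mem_append_left _ (List.mem_append_right _ (mA y hy))))
    (fun s hs => List.mem_append_right _ (mC s hs))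
  refine Just.append jD ⟨Or.inl (mD [] List.nil_prefix), ⟨Or.inr (Or.inl ?_), trivial⟩⟩
  exact hG.strip (H := var d) (List.mem_append_right _ (List.mem_singleton.2 rfl))

end

open Pool.Agent.H.MP_0447ec_lc.PT in
theorem elim_main {G : List Rule} (hG : Rich G) :
    ∃ T : Nm × List (Nm × Nm) × Fm → List Fm, PT.Poly T ∧
    ∀ (d : Nm) (zv : List (Nm × Nm)) (A : Fm),
      (zv.map Prod.fst ++ zv.map Prod.snd).Nodup → d ∉ zv.map Prod.fst ++ zv.map Prod.snd →
      (∀ z ∈ zv.map Prod.fst ++ zv.map Prod.snd, z ∉ A.vars) →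
      ∀ π : List Fm, imp (cj d (zv.map (fun p => neg (var p.1)))) A ∈ π →
        imp (cj d (zv.map (fun p => var p.1))) A ∈ π →
        Just (FP G) π (T (d, zv, A)) ∧ A ∈ T (d, zv, A) := by
  refine ⟨fun t => elT t.1 t.2.1 t.2.2, ?_, ?_⟩
  · unfold elT elA elB elC elS elN elV elX elY
    fun_prop
  · intro d zv A h1 h2 h3 π ha hb
    rw [List.nodup_append] at h1
    rw [List.mem_append, not_or] at h2
    have h4 : ∀ p ∈ zv, p.1 ≠ d ∧ p.2 ≠ d := by
      intro p hp
      constructor
      · rintro rfl; exact h2.1 (List.mem_map_of_mem hp)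
      · rintro rfl; exact h2.2 (List.mem_map_of_mem hp)
    refine elT_just hG h1.1 h1.2.1 ?_ h4 ?_ ha hb
    · intro p hp q hq
      exact h1.2.2 _ (List.mem_map_of_mem hp) _ (List.mem_map_of_mem hq)
    · intro p hp
      exact ⟨h3 _ (List.mem_append_left _ (List.mem_map_of_mem hp)),
        h3 _ (List.mem_append_right _ (List.mem_map_of_mem hp))⟩

end Pool.Agent.H.MP_0447ec_lc.PS
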