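import Pool.Agent.H.MP_0447ec_lc.LV.EnginePoly

/-!
# Negation of all variables
-/

namespace Pool.Agent.H.MP_0447ec_lc.PS

open Fm

/-- The substitution of the negation of every variable for the variable. -/
def flp (w : Nm) : Fm := neg (var w)

theorem vars_subst_of_mem {C : Fm} {s : Nm → Fm} {x y : Nm} (hx : x ∈ C.vars)
    (hy : y ∈ (s x).vars) : y ∈ (C.subst s).vars := by
  induction C with
  | var w =>
    simp only [Fm.vars, Set.mem_singleton_iff] at hx
    subst hx
    exact hy
  | neg A ih => exact ih hx
  | and A B ihA ihB =>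
    rcases hx with hx | hx
    · exact Or.inl (ihA hx)
    · exact Or.inr (ihB hx)
  | or A B ihA ihB =>
    rcases hx with hx | hx
    · exact Or.inl (ihA hx)
    · exact Or.inr (ihB hx)
  | imp A B ihA ihB =>
    rcases hx with hx | hx
    · exact Or.inl (ihA hx)
    · exact Or.inr (ihB hx)

theorem permStep_flp {σ : List Fm} {B : Fm} (h : PermStep σ B) :
    PermStep (σ.map (Fm.subst flp)) (B.subst flp) := by
  obtain ⟨C, hC, ρ, hρ, hB⟩ := h
  refine ⟨C.subst flp, List.mem_map_of_mem hC, ρ, ?_, ?_⟩
  · intro x hx
    exact hρ x (fun h => hx (vars_subst_of_mem h rfl))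
  · rw [hB, Fm.subst_subst, Fm.subst_subst]
    rfl

theorem just_flp {G : List Rule} {τ : List Fm} : ∀ {π₀ π : List Fm}, Just (FP G) π₀ τ →
    (∀ C ∈ π₀, C.subst flp ∈ π) → Just (FP G) π (τ.map (Fm.subst flp)) := by
  induction τ with
  | nil => intro _ _ _ _; trivial
  | cons C τ ih =>
    rintro π₀ π ⟨h1, h2⟩ h
    rw [List.map_cons]
    refine ⟨?_, ih h2 ?_⟩
    · rcases h1 with h1 | h1 | h1
      · exact Or.inl (h C h1)
      · right; left
        refine mono_ruleStep _ _ _ _ ?_ (ruleStep_subst h1 flp)
        intro D hD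
        obtain ⟨D', hD', rfl⟩ := List.mem_map.1 hD
        exact h D' hD'
      · right; right
        refine mono_permStep _ _ _ ?_ (permStep_flp h1)
        intro D hD
        obtain ⟨D', hD', rfl⟩ := List.mem_map.1 hD
        exact h D' hD'
    · intro D hD
      rcases List.mem_append.1 hD with hD | hD
      · exact List.mem_append_left _ (h D hD)
      · rw [List.mem_singleton] at hD
        subst hD
        simp

theorem sm_flp_flp (K : List (Nm × Bool)) (A : Fm) :
    sm K ((A.subst flp).subst flp) = sm K A := by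
  rw [Fm.subst_subst]
  conv_rhs => rw [← Fm.subst_var A]
  apply sm_subst
  intro x _
  show smN (smN (smV K x)) = smV K x
  unfold smV
  cases lk K x with
  | none => rfl
  | some b => cases b <;> rfl

theorem litsOf_cj_var (d : Nm) (zs : List Nm) :
    litsOf (cj d (zs.map var)) = zs.map (fun z => (z, true)) := by
  induction zs with
  | nil => rfl
  | cons z zs ih =>
    rw [List.map_cons, cj_cons, List.map_cons, ← ih]
    simp [litsOf, ands, litOf]

theorem okH_flp (d : Nm) (zs : List Nm) :
    okH (cj d (zs.map var)) ((cj d (zs.map (fun z => neg (var z)))).subst flp) := by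
  have key : ∀ us : List Nm, (∀ u ∈ us, u ∈ zs) →
      okH (cj d (zs.map var)) ((cj d (us.map (fun z => neg (var z)))).subst flp) := by
    intro us
    induction us with
    | nil =>
      intro _
      apply okH_of_sm
      show (sm _ (imp (neg (var d)) (neg (var d)))).1 = some true
      rw [sm_imp_self rfl]
    | cons u us ih =>
      intro h
      rw [List.map_cons, cj_cons]
      show okH _ (Fm.and (neg (neg (var u))) ((cj d (us.map (fun z => neg (var z)))).subst flp))
      rw [okH_and]
      refine ⟨okH_of_sm ?_, ih (fun v hv => h v (List.mem_cons_of_mem _ hv))⟩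
      rw [litsOf_cj_var]
      show (smN (smN (smV (zs.map (fun z => (z, true))) u))).1 = some true
      have h1 : lk (zs.map (fun z => (z, true))) u = some true := by
        apply lk_eq
        · exact List.mem_map_of_mem (f := fun z : Nm => (z, true)) (h u (by simp))
        · intro b hb
          obtain ⟨z, -, hz⟩ := List.mem_map.1 hb
          exact (congrArg Prod.snd hz).symm
      unfold smV
      rw [h1]
      rfl
  exact key zs (fun u hu => hu)

/-- The transformation. -/
def flipT (d : Nm) (zs : List Nm) (A : Fm) (τ : List Fm) : List Fm :=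
  τ.map (Fm.subst flp) ++ li (cj d (zs.map var)) ((cj d (zs.map (fun z => neg (var z)))).subst flp)
    ((A.subst flp).subst flp) A

section

open Pool.Agent.H.MP_0447ec_lc.PT

variable {α : Type} [Enc α]

@[fun_prop]
theorem Poly.flpSubst {G : α → Fm} (hG : Poly G) : Poly (fun a => (G a).subst flp) :=
  Poly.substOf (s := fun _ => flp) hG (by unfold flp; fun_prop)

theorem poly_flipT : Poly (fun t : Nm × List Nm × Fm × List Fm =>
    flipT t.1 t.2.1 t.2.2.1 t.2.2.2) := by
  unfold flipT
  have h1 : Poly (fun t : Nm × List Nm × Fm × List Fm => t.2.2.2.map (Fm.subst flp)) :=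
    PT.Poly.map (f := fun (_ : Nm × List Nm × Fm × List Fm) (C : Fm) => C.subst flp)
      (Poly.flpSubst Poly.snd) (by fun_prop)
  have h2 : Poly (fun t : Nm × List Nm × Fm × List Fm => cj t.1 (t.2.1.map var)) := by
    refine Poly.cj (by fun_prop) ?_
    exact PT.Poly.map (f := fun (_ : Nm × List Nm × Fm × List Fm) (z : Nm) => Fm.var z)
      (by fun_prop) (by fun_prop)
  exact Poly.append h1 (Poly.li h2 (by fun_prop) (by fun_prop) (by fun_prop))

end

theorem flip_main {G : List Rule} (hG : Rich G) :
    ∃ T : Nm × List Nm × Fm × List Fm → List Fm, PT.Poly T ∧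
    ∀ (d : Nm) (zs : List Nm) (A : Fm) (τ : List Fm), Just (FP G) [] τ →
      imp (cj d (zs.map (fun z => neg (var z)))) (A.subst (fun w => neg (var w))) ∈ τ →
      ∀ π : List Fm, Just (FP G) π (T (d, zs, A, τ)) ∧
        imp (cj d (zs.map var)) A ∈ T (d, zs, A, τ) := by
  refine ⟨fun t => flipT t.1 t.2.1 t.2.2.1 t.2.2.2, poly_flipT, ?_⟩
  intro d zs A τ hτ hmem π
  have j1 : Just (FP G) π (τ.map (Fm.subst flp)) := just_flp hτ (by simp)
  have m1 : imp ((cj d (zs.map (fun z => neg (var z)))).subst flp)
      ((A.subst flp).subst flp) ∈ π ++ τ.map (Fm.subst flp) :=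
    List.mem_append_right _ (List.mem_map_of_mem (f := Fm.subst flp) hmem)
  obtain ⟨j2, m2⟩ := li_just hG m1 (okH_flp d zs) (sm_flp_flp _ A)
  refine ⟨Just.append j1 ?_, List.mem_append_right _ m2⟩
  have key : ∀ {σ π : List Fm}, Just (RuleStep G) π σ → Just (FP G) π σ := by
    intro σ
    induction σ with
    | nil => intro _ _; trivial
    | cons C σ ih =>
      rintro π ⟨h1, h2⟩
      exact ⟨h1.imp id Or.inl, ih h2⟩
  exact key j2

end Pool.Agent.H.MP_0447ec_lc.PS
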