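import Pool.Agent.H.MP_0447ec_lc.LV.Base
import Pool.Agent.H.MP_0447ec_lc.LV.EnginePoly

/-!
# Substitutions by constant substitutions

A substitution Frege derivation `π` is turned into a derivation with constant substitutions, with
at most twice as many variables plus sfOne.

Names: `L = lenB π`, the copy of the name `x` is `x' = fn L 0 x`, the dummy is `d = fn L 1 []`.

`sfOne d x φ E` derives from `E` the result of replacing the variable `x` by `φ` in `E`: the lines
`E.subst (cs x true)`, `E.subst (cs x false)` (constant substitutions), then under the hypotheses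
`φ` and `¬φ` the equivalences of these with `E.subst (sfS x φ)` (`replL`), and a case distinction.

Algorithm: for every splitting `π = pre ++ B :: _` emit
(a) for every `C ∈ pre` such that the matching of `C` with `B` gives a table `t` of pairs `(x, φ)`
    with `C.subst (tsub t) = B` (test it): first the variables of the table are renamed sfOne after
    the other (`x` to `x'`), then the copies are replaced sfOne after the other (`x'` by `φ`);
(b) the line `B`.
Then cut at the last line of `π`.

Matching of `C` with `B`: left fold over `C.pol` with the state (stack of formulas, table): the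
stack starts with `B`; for a variable token `(0, x)` the formula `G` on the top is removed and
`(x, G)` is added to the table; for other tokens the formula on the top is replaced by its
immediate subformulas.
-/

namespace Pool.Agent.H.MP_0447ec_lc.PS

open Fm

/-- The substitution of sfOne formula for sfOne variable. -/
def sfS (x : Nm) (φ : Fm) : Nm → Fm := fun w => if w = x then φ else var w

theorem sf_subst_subset {A : Fm} {s : Nm → Fm} {V : Set Nm}
    (h : ∀ w ∈ A.vars, (s w).vars ⊆ V) : (A.subst s).vars ⊆ V := by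
  induction A with
  | var n => exact h n rfl
  | neg A ih => exact ih h
  | and A B ih1 ih2 =>
    exact Set.union_subset (ih1 (fun w hw => h w (Or.inl hw))) (ih2 (fun w hw => h w (Or.inr hw)))
  | or A B ih1 ih2 =>
    exact Set.union_subset (ih1 (fun w hw => h w (Or.inl hw))) (ih2 (fun w hw => h w (Or.inr hw)))
  | imp A B ih1 ih2 =>
    exact Set.union_subset (ih1 (fun w hw => h w (Or.inl hw))) (ih2 (fun w hw => h w (Or.inr hw)))

theorem sf_vars_subs {A G : Fm} (h : G ∈ subs A) : G.vars ⊆ A.vars := by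
  induction A with
  | var w => simp only [subs, List.mem_singleton] at h; subst h; exact subset_rfl
  | neg A ih =>
    simp only [subs, List.mem_cons] at h
    rcases h with rfl | h
    · exact subset_rfl
    · exact ih h
  | and A B ih1 ih2 =>
    simp only [subs, List.mem_cons, List.mem_append] at h
    rcases h with rfl | h | h
    · exact subset_rfl
    · exact (ih1 h).trans Set.subset_union_left
    · exact (ih2 h).trans Set.subset_union_right
  | or A B ih1 ih2 =>
    simp only [subs, List.mem_cons, List.mem_append] at h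
    rcases h with rfl | h | h
    · exact subset_rfl
    · exact (ih1 h).trans Set.subset_union_left
    · exact (ih2 h).trans Set.subset_union_right
  | imp A B ih1 ih2 =>
    simp only [subs, List.mem_cons, List.mem_append] at h
    rcases h with rfl | h | h
    · exact subset_rfl
    · exact (ih1 h).trans Set.subset_union_left
    · exact (ih2 h).trans Set.subset_union_right

/-! ### Replacement of sfOne variable -/

/-- Equivalences for the variables and for all subformulas, and the instance, under `H`. -/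
def sfOneH (H : Fm) (E : Fm) (s t : Nm → Fm) : List Fm :=
  (nms E).map (fun w => imp H (Fm.iff (s w) (t w))) ++ (replL H E s t ++
    [imp H (E.subst s), imp H (E.subst t)])

/-- Lines that derive `E.subst (sfS x φ)` from `E`. -/
def sfOne (d x : Nm) (φ E : Fm) : List Fm :=
  [E.subst (cs x true), E.subst (cs x false)] ++ (
  [imp (Fm.and φ (ct d true)) (Fm.and φ (ct d true)),
   imp (Fm.and φ (ct d true)) φ,
   imp (Fm.and φ (ct d true)) (ct x true),
   imp (Fm.and φ (ct d true)) (Fm.iff (ct x true) φ)] ++ (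
  sfOneH (Fm.and φ (ct d true)) E (cs x true) (sfS x φ) ++ (
  [imp (Fm.and (neg φ) (ct d true)) (Fm.and (neg φ) (ct d true)),
   imp (Fm.and (neg φ) (ct d true)) (neg φ),
   imp (Fm.and (neg φ) (ct d true)) (ct x true),
   imp (Fm.and (neg φ) (ct d true)) (neg (ct x false)),
   imp (Fm.and (neg φ) (ct d true)) (Fm.iff (ct x false) φ)] ++ (
  sfOneH (Fm.and (neg φ) (ct d true)) E (cs x false) (sfS x φ) ++
  [imp (ct d true) (E.subst (sfS x φ)), E.subst (sfS x φ)]))))

theorem sfOneH_just {G : List Rule} (hG : Rich G) {H E φ : Fm} {x : Nm} {c : Bool} {π : List Fm}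
    (h1 : imp H (Fm.iff (ct x c) φ) ∈ π) (h2 : E.subst (cs x c) ∈ π) :
    Just (RuleStep G) π (sfOneH H E (cs x c) (sfS x φ)) ∧
      imp H (E.subst (sfS x φ)) ∈ sfOneH H E (cs x c) (sfS x φ) := by
  refine ⟨?_, by simp [sfOneH]⟩
  have key : ∀ (l : List Nm) (π : List Fm), imp H (Fm.iff (ct x c) φ) ∈ π →
      Just (RuleStep G) π (l.map (fun w => imp H (Fm.iff (cs x c w) (sfS x φ w)))) := by
    intro l
    induction l with
    | nil => intro _ _; trivial
    | cons w l ih =>
      intro π h
      refine ⟨?_, ih _ (List.mem_append_left _ h)⟩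
      by_cases hw : w = x
      · left
        simpa [cs, sfS, hw] using h
      · right
        simp only [cs, sfS, hw, if_false]
        exact hG.iffRefl
  refine Just.append (key _ _ h1) ?_
  obtain ⟨j, m⟩ := replL_just hG H (cs x c) (sfS x φ) E
    (π ++ (nms E).map (fun w => imp H (Fm.iff (cs x c w) (sfS x φ w)))) (by
      intro w hw
      exact List.mem_append_right _ (List.mem_map_of_mem
        (f := fun w => imp H (Fm.iff (cs x c w) (sfS x φ w))) (mem_nms.2 hw)))
  refine Just.append j ⟨Or.inr (hG.weaken ?_), ⟨Or.inr (hG.iffMp (A := E.subst (cs x c)) ?_ ?_),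
    trivial⟩⟩
  · exact List.mem_append_left _ (List.mem_append_left _ h2)
  · simp
  · exact List.mem_append_left _ (List.mem_append_right _ m)

theorem sfOne_just {G : List Rule} (hG : Rich G) {d x : Nm} {φ E : Fm} {π : List Fm}
    (h : E ∈ π) : Just (GC G) π (sfOne d x φ E) ∧ E.subst (sfS x φ) ∈ sfOne d x φ E := by
  refine ⟨?_, by simp [sfOne]⟩
  have tr : ∀ {π σ : List Fm}, Just (RuleStep G) π σ → Just (GC G) π σ :=
    fun h => h.imp_step (fun _ _ h => Or.inl h)
  refine Just.append ⟨Or.inr (Or.inr ⟨E, h, x, true, rfl⟩),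
    Or.inr (Or.inr ⟨E, List.mem_append_left _ h, x, false, rfl⟩), trivial⟩ ?_
  refine Just.append (tr ⟨Or.inr hG.refl, Or.inr (hG.left (B := ct d true) (by simp)),
    Or.inr hG.impRefl, Or.inr (hG.iffT (by simp [ct]) (by simp)), trivial⟩) ?_
  obtain ⟨j1, m1⟩ := sfOneH_just hG (H := Fm.and φ (ct d true)) (E := E) (φ := φ) (x := x)
    (c := true) (π := π ++ [E.subst (cs x true), E.subst (cs x false)] ++
      [imp (Fm.and φ (ct d true)) (Fm.and φ (ct d true)),
       imp (Fm.and φ (ct d true)) φ,
       imp (Fm.and φ (ct d true)) (ct x true),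
       imp (Fm.and φ (ct d true)) (Fm.iff (ct x true) φ)]) (by simp) (by simp)
  refine Just.append (tr j1) ?_
  refine Just.append (tr ⟨Or.inr hG.refl, Or.inr (hG.left (B := ct d true) (by simp)),
    Or.inr hG.impRefl, Or.inr (hG.negneg (A := ct x true) (by simp)),
    Or.inr (hG.iffF (by simp) (by simp)), trivial⟩) ?_
  obtain ⟨j2, m2⟩ := sfOneH_just hG (H := Fm.and (neg φ) (ct d true)) (E := E) (φ := φ) (x := x)
    (c := false) (π := π ++ [E.subst (cs x true), E.subst (cs x false)] ++
      [imp (Fm.and φ (ct d true)) (Fm.and φ (ct d true)),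
       imp (Fm.and φ (ct d true)) φ,
       imp (Fm.and φ (ct d true)) (ct x true),
       imp (Fm.and φ (ct d true)) (Fm.iff (ct x true) φ)] ++
      sfOneH (Fm.and φ (ct d true)) E (cs x true) (sfS x φ) ++
      [imp (Fm.and (neg φ) (ct d true)) (Fm.and (neg φ) (ct d true)),
       imp (Fm.and (neg φ) (ct d true)) (neg φ),
       imp (Fm.and (neg φ) (ct d true)) (ct x true),
       imp (Fm.and (neg φ) (ct d true)) (neg (ct x false)),
       imp (Fm.and (neg φ) (ct d true)) (Fm.iff (ct x false) φ)]) (by simp) (by simp)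
  refine Just.append (tr j2) (tr ⟨Or.inr (hG.cases (A := φ) ?_ ?_),
    ⟨Or.inr (hG.strip (H := var d) ?_), trivial⟩⟩)
  · exact List.mem_append_left _ (List.mem_append_left _ (List.mem_append_right _ m1))
  · exact List.mem_append_right _ m2
  · simp [ct]

/-- The variables of the lines of `sfOne`. -/
theorem sf_vars_one {d x : Nm} {φ E : Fm} {V : Set Nm} (hE : E.vars ⊆ V) (hφ : φ.vars ⊆ V)
    (hx : x ∈ V) (hd : d ∈ V) : ∀ X ∈ sfOne d x φ E, X.vars ⊆ V := by
  have hct : ∀ (y : Nm) (c : Bool), y ∈ V → (ct y c).vars ⊆ V := by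
    intro y c hy; cases c <;> simpa [ct, Fm.vars] using hy
  have e1 : ∀ (c : Bool) (w : Nm), w ∈ V → (cs x c w).vars ⊆ V := by
    intro c w h
    unfold cs
    split_ifs with hw
    · exact hct x c hx
    · exact Set.singleton_subset_iff.2 h
  have e2 : ∀ w : Nm, w ∈ V → (sfS x φ w).vars ⊆ V := by
    intro w h
    unfold sfS
    split_ifs with hw
    · exact hφ
    · exact Set.singleton_subset_iff.2 h
  have e3 : ∀ (c : Bool) (Y : Fm), Y.vars ⊆ V → (Y.subst (cs x c)).vars ⊆ V :=
    fun c Y hY => sf_subst_subset (fun w hw => e1 c w (hY hw))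
  have e4 : ∀ (Y : Fm), Y.vars ⊆ V → (Y.subst (sfS x φ)).vars ⊆ V :=
    fun Y hY => sf_subst_subset (fun w hw => e2 w (hY hw))
  have un : ∀ {s t : Set Nm}, s ⊆ V → t ⊆ V → s ∪ t ⊆ V := fun h h' => Set.union_subset h h'
  have e5 : ∀ (H : Fm) (c : Bool), H.vars ⊆ V →
      ∀ X ∈ sfOneH H E (cs x c) (sfS x φ), X.vars ⊆ V := by
    intro H c hH X hX
    unfold sfOneH replL at hX
    simp only [List.mem_append, List.mem_map, List.mem_cons, List.not_mem_nil, or_false,
      List.mem_reverse] at hX
    rcases hX with ⟨w, hw, rfl⟩ | ⟨Y, hY, rfl⟩ | rfl | rfl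
    · have hw' : w ∈ V := hE (mem_nms.1 hw)
      exact un hH (un (un (e1 c w hw') (e2 w hw')) (un (e2 w hw') (e1 c w hw')))
    · have a1 := e3 c Y ((sf_vars_subs hY).trans hE)
      have a2 := e4 Y ((sf_vars_subs hY).trans hE)
      exact un hH (un (un a1 a2) (un a2 a1))
    · exact un hH (e3 c E hE)
    · exact un hH (e4 E hE)
  have h1 : (Fm.and φ (ct d true)).vars ⊆ V := un hφ (hct d true hd)
  have h2 : (Fm.and (neg φ) (ct d true)).vars ⊆ V := un hφ (hct d true hd)
  intro X hX
  unfold sfOne at hX
  simp only [List.mem_append, List.mem_cons, List.not_mem_nil, or_false] at hX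
  rcases hX with (rfl | rfl) | (rfl | rfl | rfl | rfl) | hX | (rfl | rfl | rfl | rfl | rfl) | hX |
    rfl | rfl
  · exact e3 _ E hE
  · exact e3 _ E hE
  · exact un h1 h1
  · exact un h1 hφ
  · exact un h1 (hct x true hx)
  · exact un h1 (un (un (hct x true hx) hφ) (un hφ (hct x true hx)))
  · exact e5 _ _ h1 X hX
  · exact un h2 h2
  · exact un h2 hφ
  · exact un h2 (hct x true hx)
  · exact un h2 (hct x false hx)
  · exact un h2 (un (un (hct x false hx) hφ) (un hφ (hct x false hx)))
  · exact e5 _ _ h2 X hX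
  · exact un (hct d true hd) (e4 E hE)
  · exact e4 E hE

/-! ### Simultaneous substitution -/

/-- The table of the copies. -/
def sfR (L : ℕ) (t : List (Nm × Fm)) : List (Nm × Fm) := t.map (fun p => (p.1, var (fn L 0 p.1)))

/-- Lines that derive `C.subst (tsub t)` from `C`. -/
def sfSub (L : ℕ) (d : Nm) (C : Fm) (t : List (Nm × Fm)) : List Fm :=
  (sp [] t).flatMap (fun s => sfOne d s.2.1.1 (var (fn L 0 s.2.1.1)) (C.subst (tsub (sfR L s.1)))) ++
  (sp [] t).flatMap (fun s => sfOne d (fn L 0 s.2.1.1) s.2.1.2 (C.subst (tsub (s.1 ++ sfR L t))))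

theorem sf_fn_ne {L : ℕ} {w x : Nm} (hx : x.length < L) (k : ℕ) : fn L k w ≠ x := by
  intro e
  have := fn_length L k w
  rw [e] at this
  omega

theorem sf_tsub_append {t t' : List (Nm × Fm)} {x : Nm} :
    tsub (t ++ t') x = if x ∈ t.map Prod.fst then tsub t x else tsub t' x := by
  induction t with
  | nil => simp
  | cons p t ih =>
    rw [List.cons_append, tsub_cons, tsub_cons, ih]
    by_cases h : p.1 = x
    · simp [h]
    · have h' : x ≠ p.1 := fun e => h e.symm
      simp only [h, h', if_false, List.map_cons, List.mem_cons, false_or]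

theorem sf_tsub_rn (L : ℕ) (t : List (Nm × Fm)) (x : Nm) :
    tsub (sfR L t) x = if x ∈ t.map Prod.fst then var (fn L 0 x) else var x := by
  induction t with
  | nil => simp [sfR, tsub_nil]
  | cons p t ih =>
    have : sfR L (p :: t) = (p.1, var (fn L 0 p.1)) :: sfR L t := rfl
    rw [this, tsub_cons, ih]
    by_cases h : p.1 = x
    · simp [h]
    · have h' : x ≠ p.1 := fun e => h e.symm
      simp only [h, h', if_false, List.map_cons, List.mem_cons, false_or]

theorem sf_tsub_vars {t : List (Nm × Fm)} {x : Nm} {V : Set Nm} (hx : x ∈ V)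
    (h : ∀ p ∈ t, p.2.vars ⊆ V) : (tsub t x).vars ⊆ V := by
  induction t with
  | nil => exact Set.singleton_subset_iff.2 hx
  | cons p t ih =>
    rw [tsub_cons]
    split_ifs
    · exact h p (by simp)
    · exact ih (fun q hq => h q (List.mem_cons_of_mem _ hq))

/-- A step of the renaming. -/
theorem sf_step1 {L : ℕ} {C : Fm} (t : List (Nm × Fm))
    (p : Nm × Fm) (hp : p.1.length < L) :
    (C.subst (tsub (sfR L t))).subst (sfS p.1 (var (fn L 0 p.1))) =
      C.subst (tsub (sfR L (t ++ [p]))) := by
  rw [Fm.subst_subst]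
  apply Fm.subst_congr
  intro w hw
  rw [sf_tsub_rn, sf_tsub_rn, List.map_append, List.map_singleton]
  by_cases h : w ∈ t.map Prod.fst
  · simp only [h, if_true, List.mem_append, true_or]
    show sfS p.1 _ (fn L 0 w) = _
    rw [sfS, if_neg (sf_fn_ne hp 0)]
  · simp only [h, if_false, List.mem_append, false_or, List.mem_singleton]
    show sfS p.1 _ w = _
    rw [sfS]
    by_cases h2 : w = p.1
    · simp [h2]
    · simp [h2]

/-- A step of the replacement. -/
theorem sf_step2 {L : ℕ} {C : Fm} (hC : ∀ w ∈ C.vars, w.length < L) (t t' : List (Nm × Fm))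
    (ht : ∀ p ∈ t, ∀ x ∈ p.2.vars, x.length < L) (p : Nm × Fm) (hp : p ∈ t') :
    (C.subst (tsub (t ++ sfR L t'))).subst (sfS (fn L 0 p.1) p.2) =
      C.subst (tsub ((t ++ [p]) ++ sfR L t')) := by
  rw [Fm.subst_subst]
  apply Fm.subst_congr
  intro w hw
  rw [List.append_assoc, sf_tsub_append, sf_tsub_append (t := t) (t' := [p] ++ sfR L t')]
  by_cases h : w ∈ t.map Prod.fst
  · rw [if_pos h, if_pos h]
    apply Fm.subst_eq_self
    intro x hx
    have hx' : x.length < L := by
      have := sf_tsub_vars (t := t) (x := w) (V := {x | x.length < L}) (hC w hw)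
        (fun p hp x hx => ht p hp x hx)
      exact this hx
    rw [sfS, if_neg (sf_fn_ne hx' 0).symm]
  · rw [if_neg h, if_neg h, List.singleton_append, tsub_cons, sf_tsub_rn]
    by_cases h2 : p.1 = w
    · have h3 : w ∈ t'.map Prod.fst := h2 ▸ List.mem_map_of_mem hp
      rw [if_pos h3, if_pos h2]
      show sfS _ _ (fn L 0 w) = _
      rw [sfS, if_pos (by rw [h2])]
    · rw [if_neg h2]
      by_cases h3 : w ∈ t'.map Prod.fst
      · rw [if_pos h3]
        show sfS _ _ (fn L 0 w) = _
        rw [sfS, if_neg]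
        intro e
        exact h2 (fn_inj e).2.symm
      · rw [if_neg h3]
        show sfS _ _ w = _
        rw [sfS, if_neg (sf_fn_ne (hC w hw) 0).symm]

theorem sfSub_just {G : List Rule} (hG : Rich G) {L : ℕ} {d : Nm} {C : Fm}
    {t : List (Nm × Fm)} (hC : ∀ w ∈ C.vars, w.length < L) (ht1 : ∀ p ∈ t, p.1.length < L)
    (ht2 : ∀ p ∈ t, ∀ x ∈ p.2.vars, x.length < L) {π : List Fm} (h : C ∈ π) :
    Just (GC G) π (sfSub L d C t) ∧ C.subst (tsub t) ∈ π ++ sfSub L d C t := by
  have k1 : ∀ (l pre : List (Nm × Fm)) (π : List Fm), pre ++ l = t →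
      C.subst (tsub (sfR L pre)) ∈ π →
      Just (GC G) π ((sp pre l).flatMap
        (fun s => sfOne d s.2.1.1 (var (fn L 0 s.2.1.1)) (C.subst (tsub (sfR L s.1))))) ∧
      C.subst (tsub (sfR L t)) ∈ π ++ (sp pre l).flatMap
        (fun s => sfOne d s.2.1.1 (var (fn L 0 s.2.1.1)) (C.subst (tsub (sfR L s.1)))) := by
    intro l
    induction l with
    | nil =>
      intro pre π e hm
      rw [List.append_nil] at e
      subst e
      exact ⟨trivial, List.mem_append_left _ hm⟩
    | cons p l ih =>
      intro pre π e hm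
      have hp : p ∈ t := by rw [← e]; simp
      simp only [sp, List.flatMap_cons]
      obtain ⟨j, m⟩ := sfOne_just hG (d := d) (x := p.1) (φ := var (fn L 0 p.1)) hm
      rw [sf_step1 pre p (ht1 p hp)] at m
      obtain ⟨j2, m2⟩ := ih (pre ++ [p]) (π ++ sfOne d p.1 (var (fn L 0 p.1))
        (C.subst (tsub (sfR L pre)))) (by rw [← e]; simp) (List.mem_append_right _ m)
      exact ⟨Just.append j j2, by rw [← List.append_assoc]; exact m2⟩
  have k2 : ∀ (l pre : List (Nm × Fm)) (π : List Fm), pre ++ l = t →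
      C.subst (tsub (pre ++ sfR L t)) ∈ π →
      Just (GC G) π ((sp pre l).flatMap
        (fun s => sfOne d (fn L 0 s.2.1.1) s.2.1.2 (C.subst (tsub (s.1 ++ sfR L t))))) ∧
      C.subst (tsub (t ++ sfR L t)) ∈ π ++ (sp pre l).flatMap
        (fun s => sfOne d (fn L 0 s.2.1.1) s.2.1.2 (C.subst (tsub (s.1 ++ sfR L t)))) := by
    intro l
    induction l with
    | nil =>
      intro pre π e hm
      rw [List.append_nil] at e
      subst e
      exact ⟨trivial, List.mem_append_left _ hm⟩
    | cons p l ih =>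
      intro pre π e hm
      have hp : p ∈ t := by rw [← e]; simp
      have hpre : ∀ q ∈ pre, q ∈ t := by intro q hq; rw [← e]; simp [hq]
      simp only [sp, List.flatMap_cons]
      obtain ⟨j, m⟩ := sfOne_just hG (d := d) (x := fn L 0 p.1) (φ := p.2) hm
      rw [sf_step2 hC pre t (fun q hq => ht2 q (hpre q hq)) p hp] at m
      obtain ⟨j2, m2⟩ := ih (pre ++ [p]) (π ++ sfOne d (fn L 0 p.1) p.2
        (C.subst (tsub (pre ++ sfR L t)))) (by rw [← e]; simp) (List.mem_append_right _ m)
      exact ⟨Just.append j j2, by rw [← List.append_assoc]; exact m2⟩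
  have h0 : C.subst (tsub (sfR L [])) ∈ π := by
    have : C.subst (tsub (sfR L [])) = C := Fm.subst_eq_self (fun x _ => rfl)
    rw [this]; exact h
  obtain ⟨j1, m1⟩ := k1 t [] π rfl h0
  obtain ⟨j2, m2⟩ := k2 t [] _ rfl m1
  refine ⟨Just.append j1 j2, ?_⟩
  have e : C.subst (tsub (t ++ sfR L t)) = C.subst (tsub t) := by
    apply Fm.subst_congr
    intro w hw
    rw [sf_tsub_append]
    split_ifs with h1
    · rfl
    · rw [sf_tsub_rn, if_neg h1, tsub_of_not_mem h1]
  rw [e] at m2
  rw [sfSub, ← List.append_assoc]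
  exact m2

theorem sf_vars_sub {L : ℕ} {d : Nm} {C : Fm} {t : List (Nm × Fm)} {V : Set Nm}
    (hC : C.vars ⊆ V) (ht1 : ∀ p ∈ t, p.1 ∈ V ∧ fn L 0 p.1 ∈ V) (ht2 : ∀ p ∈ t, p.2.vars ⊆ V)
    (hd : d ∈ V) : ∀ X ∈ sfSub L d C t, X.vars ⊆ V := by
  have hs : ∀ s ∈ sp [] t, s.2.1 ∈ t ∧ ∀ p ∈ s.1, p ∈ t := by
    intro s hs
    have key : ∀ (l pre : List (Nm × Fm)) (s : List (Nm × Fm) × (Nm × Fm) × List (Nm × Fm)),
        s ∈ sp pre l → s.2.1 ∈ pre ++ l ∧ ∀ p ∈ s.1, p ∈ pre ++ l := by
      intro l
      induction l with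
      | nil => intro pre s h; simp [sp] at h
      | cons e l ih =>
        intro pre s h
        simp only [sp, List.mem_cons] at h
        rcases h with rfl | h
        · exact ⟨by simp, fun p hp => List.mem_append_left _ hp⟩
        · have := ih _ _ h
          simpa using this
    simpa using key t [] s hs
  have hrn : ∀ (t' : List (Nm × Fm)), (∀ p ∈ t', p ∈ t) → ∀ p ∈ sfR L t', p.2.vars ⊆ V := by
    intro t' ht' p hp
    obtain ⟨q, hq, rfl⟩ := List.mem_map.1 hp
    exact Set.singleton_subset_iff.2 (ht1 q (ht' q hq)).2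
  intro X hX
  unfold sfSub at hX
  simp only [List.mem_append, List.mem_flatMap] at hX
  rcases hX with ⟨s, h1, hX⟩ | ⟨s, h1, hX⟩
  · obtain ⟨a1, a2⟩ := hs s h1
    refine sf_vars_one ?_ ?_ (ht1 _ a1).1 hd X hX
    · exact sf_subst_subset (fun w hw => sf_tsub_vars (hC hw) (hrn _ a2))
    · exact Set.singleton_subset_iff.2 (ht1 _ a1).2
  · obtain ⟨a1, a2⟩ := hs s h1
    refine sf_vars_one ?_ (ht2 _ a1) (ht1 _ a1).2 hd X hX
    refine sf_subst_subset (fun w hw => sf_tsub_vars (hC hw) ?_)
    intro p hp
    rcases List.mem_append.1 hp with hp | hp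
    · exact ht2 p (a2 p hp)
    · exact hrn t (fun p hp => hp) p hp

/-! ### Matching -/

/-- The immediate subformulas. -/
def sfKids : Fm → List Fm
  | .var _ => []
  | .neg A => [A]
  | .and A B => [A, B]
  | .or A B => [A, B]
  | .imp A B => [A, B]

/-- One step of the matching. -/
def sfM (s : List Fm × List (Nm × Fm)) (tok : ℕ × Nm) : List Fm × List (Nm × Fm) :=
  match s.1 with
  | [] => s
  | G :: st => if tok.1 = 0 then (st, s.2 ++ [(tok.2, G)]) else (sfKids G ++ st, s.2)

/-- The table of the matching of `C` with `B`. -/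
def sfMT (C B : Fm) : List (Nm × Fm) := (C.pol.foldl sfM ([B], [])).2

theorem sfM_subst (s : Nm → Fm) : ∀ (C : Fm) (st : List Fm) (T : List (Nm × Fm)),
    C.pol.foldl sfM (C.subst s :: st, T) = (st, T ++ (nms C).map (fun x => (x, s x))) := by
  intro C
  induction C with
  | var w => intro st T; simp [Fm.pol, Fm.subst, sfM, nms]
  | neg A ih =>
    intro st T
    simp only [Fm.pol, List.foldl_cons, Fm.subst]
    have : sfM ((A.subst s).neg :: st, T) (1, []) = (A.subst s :: st, T) := by
      simp [sfM, sfKids]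
    rw [this, ih]
    simp [nms]
  | and A B ih1 ih2 =>
    intro st T
    simp only [Fm.pol, List.foldl_cons, Fm.subst, List.foldl_append]
    have : sfM (((A.subst s).and (B.subst s)) :: st, T) (2, []) =
        (A.subst s :: B.subst s :: st, T) := by simp [sfM, sfKids]
    rw [this, ih1, ih2]
    simp [nms]
  | or A B ih1 ih2 =>
    intro st T
    simp only [Fm.pol, List.foldl_cons, Fm.subst, List.foldl_append]
    have : sfM (((A.subst s).or (B.subst s)) :: st, T) (3, []) =
        (A.subst s :: B.subst s :: st, T) := by simp [sfM, sfKids]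
    rw [this, ih1, ih2]
    simp [nms]
  | imp A B ih1 ih2 =>
    intro st T
    simp only [Fm.pol, List.foldl_cons, Fm.subst, List.foldl_append]
    have : sfM (((A.subst s).imp (B.subst s)) :: st, T) (4, []) =
        (A.subst s :: B.subst s :: st, T) := by simp [sfM, sfKids]
    rw [this, ih1, ih2]
    simp [nms]

theorem sfMT_subst (C : Fm) (s : Nm → Fm) : C.subst (tsub (sfMT C (C.subst s))) = C.subst s := by
  have e : sfMT C (C.subst s) = (nms C).map (fun x => (x, s x)) := by
    rw [sfMT, sfM_subst]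
    simp
  rw [e]
  apply Fm.subst_congr
  intro x hx
  have hx' := mem_nms.2 hx
  generalize nms C = l at hx'
  induction l with
  | nil => simp at hx'
  | cons y l ih =>
    rw [List.map_cons, tsub_cons]
    by_cases h : y = x
    · rw [if_pos h, h]
    · rw [if_neg h]
      rcases List.mem_cons.1 hx' with h2 | h2
      · exact absurd h2.symm h
      · exact ih h2

theorem sf_mem_pol {C : Fm} {x : Nm} (h : (0, x) ∈ C.pol) : x ∈ C.vars := by
  induction C with
  | var w => simpa [Fm.pol, Fm.vars] using h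
  | neg A ih =>
    simp only [Fm.pol, List.mem_cons, Prod.mk.injEq] at h
    rcases h with h | h
    · simp at h
    · exact ih h
  | and A B ih1 ih2 =>
    simp only [Fm.pol, List.mem_cons, Prod.mk.injEq, List.mem_append] at h
    rcases h with h | h | h
    · simp at h
    · exact Or.inl (ih1 h)
    · exact Or.inr (ih2 h)
  | or A B ih1 ih2 =>
    simp only [Fm.pol, List.mem_cons, Prod.mk.injEq, List.mem_append] at h
    rcases h with h | h | h
    · simp at h
    · exact Or.inl (ih1 h)
    · exact Or.inr (ih2 h)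
  | imp A B ih1 ih2 =>
    simp only [Fm.pol, List.mem_cons, Prod.mk.injEq, List.mem_append] at h
    rcases h with h | h | h
    · simp at h
    · exact Or.inl (ih1 h)
    · exact Or.inr (ih2 h)

theorem sfKids_subs {G H : Fm} (h : H ∈ sfKids G) : ∀ {B : Fm}, G ∈ subs B → H ∈ subs B := by
  intro B
  induction B with
  | var w =>
    intro h2
    simp only [subs, List.mem_singleton] at h2
    subst h2
    simp [sfKids] at h
  | neg A ih =>
    intro h2
    simp only [subs, List.mem_cons] at h2 ⊢
    rcases h2 with rfl | h2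
    · simp only [sfKids, List.mem_singleton] at h
      subst h
      exact Or.inr (self_mem_subs _)
    · exact Or.inr (ih h2)
  | and A B ih1 ih2 =>
    intro h2
    simp only [subs, List.mem_cons, List.mem_append] at h2 ⊢
    rcases h2 with rfl | h2 | h2
    · simp only [sfKids, List.mem_cons, List.not_mem_nil, or_false] at h
      rcases h with rfl | rfl
      · exact Or.inr (Or.inl (self_mem_subs _))
      · exact Or.inr (Or.inr (self_mem_subs _))
    · exact Or.inr (Or.inl (ih1 h2))
    · exact Or.inr (Or.inr (ih2 h2))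
  | or A B ih1 ih2 =>
    intro h2
    simp only [subs, List.mem_cons, List.mem_append] at h2 ⊢
    rcases h2 with rfl | h2 | h2
    · simp only [sfKids, List.mem_cons, List.not_mem_nil, or_false] at h
      rcases h with rfl | rfl
      · exact Or.inr (Or.inl (self_mem_subs _))
      · exact Or.inr (Or.inr (self_mem_subs _))
    · exact Or.inr (Or.inl (ih1 h2))
    · exact Or.inr (Or.inr (ih2 h2))
  | imp A B ih1 ih2 =>
    intro h2
    simp only [subs, List.mem_cons, List.mem_append] at h2 ⊢
    rcases h2 with rfl | h2 | h2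
    · simp only [sfKids, List.mem_cons, List.not_mem_nil, or_false] at h
      rcases h with rfl | rfl
      · exact Or.inr (Or.inl (self_mem_subs _))
      · exact Or.inr (Or.inr (self_mem_subs _))
    · exact Or.inr (Or.inl (ih1 h2))
    · exact Or.inr (Or.inr (ih2 h2))

/-- Invariants of the matching. -/
theorem sfM_inv (B : Fm) : ∀ (l : List (ℕ × Nm)) (s : List Fm × List (Nm × Fm)),
    (∀ G ∈ s.1, G ∈ subs B) → (∀ p ∈ s.2, p.2 ∈ subs B) →
    (∀ G ∈ (l.foldl sfM s).1, G ∈ subs B) ∧
    (∀ p ∈ (l.foldl sfM s).2, p.2 ∈ subs B) ∧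
    (∀ p ∈ (l.foldl sfM s).2, p ∈ s.2 ∨ (0, p.1) ∈ l) ∧
    (l.foldl sfM s).1.length ≤ s.1.length + l.length ∧
    (l.foldl sfM s).2.length ≤ s.2.length + l.length := by
  intro l
  induction l with
  | nil => intro s h1 h2; exact ⟨h1, h2, fun p hp => Or.inl hp, le_rfl, le_rfl⟩
  | cons tok l ih =>
    intro s h1 h2
    obtain ⟨st, T⟩ := s
    rw [List.foldl_cons]
    cases st with
    | nil =>
      have e : sfM ([], T) tok = ([], T) := rfl
      rw [e]
      obtain ⟨a1, a2, a3, a4, a5⟩ := ih ([], T) h1 h2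
      refine ⟨a1, a2, fun p hp => ?_, ?_, ?_⟩
      · rcases a3 p hp with h | h
        · exact Or.inl h
        · exact Or.inr (List.mem_cons_of_mem _ h)
      · simp only [List.length_cons, List.length_nil] at a4 ⊢; omega
      · simp only [List.length_cons] at a5 ⊢; omega
    | cons G st =>
      by_cases h0 : tok.1 = 0
      · have e : sfM (G :: st, T) tok = (st, T ++ [(tok.2, G)]) := by simp [sfM, h0]
        rw [e]
        obtain ⟨a1, a2, a3, a4, a5⟩ := ih (st, T ++ [(tok.2, G)])
          (fun X hX => h1 X (List.mem_cons_of_mem _ hX)) (by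
            intro p hp
            rcases List.mem_append.1 hp with hp | hp
            · exact h2 p hp
            · rw [List.mem_singleton] at hp
              subst hp
              exact h1 G (by simp))
        refine ⟨a1, a2, fun p hp => ?_, ?_, ?_⟩
        · rcases a3 p hp with h | h
          · rcases List.mem_append.1 h with h | h
            · exact Or.inl h
            · rw [List.mem_singleton] at h
              subst h
              refine Or.inr (List.mem_cons.2 (Or.inl ?_))
              obtain ⟨t1, t2⟩ := tok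
              simp only at h0
              rw [h0]
          · exact Or.inr (List.mem_cons_of_mem _ h)
        · simp only [List.length_cons] at a4 ⊢; omega
        · simp only [List.length_cons, List.length_append, List.length_nil] at a5 ⊢; omega
      · have e : sfM (G :: st, T) tok = (sfKids G ++ st, T) := by simp [sfM, h0]
        rw [e]
        obtain ⟨a1, a2, a3, a4, a5⟩ := ih (sfKids G ++ st, T) (by
          intro X hX
          rcases List.mem_append.1 hX with hX | hX
          · exact sfKids_subs hX (h1 G (by simp))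
          · exact h1 X (List.mem_cons_of_mem _ hX)) h2
        refine ⟨a1, a2, fun p hp => ?_, ?_, ?_⟩
        · rcases a3 p hp with h | h
          · exact Or.inl h
          · exact Or.inr (List.mem_cons_of_mem _ h)
        · have hk : (sfKids G).length ≤ 2 := by cases G <;> simp [sfKids]
          simp only [List.length_cons, List.length_append] at a4 ⊢; omega
        · simp only [List.length_cons] at a5 ⊢; omega

theorem sfMT_inv {C B : Fm} {p : Nm × Fm} (h : p ∈ sfMT C B) : p.1 ∈ C.vars ∧ p.2 ∈ subs B := by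
  obtain ⟨a1, a2, a3, a4, a5⟩ := sfM_inv B C.pol ([B], [])
    (by intro G hG; rw [List.mem_singleton] at hG; subst hG; exact self_mem_subs _) (by simp)
  refine ⟨?_, a2 p h⟩
  rcases a3 p h with h' | h'
  · simp at h'
  · exact sf_mem_pol h'

/-! ### The transformation -/

/-- The lines for sfOne line `B` and the earlier lines `pre`. -/
def sfB (L : ℕ) (pre : List Fm) (B : Fm) : List Fm :=
  pre.flatMap (fun C => if C.subst (tsub (sfMT C B)) = B then
    sfSub L (fn L 1 []) C (sfMT C B) else []) ++ [B]

/-- All lines. -/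
def sfT (L : ℕ) (π : List Fm) : List Fm := (splits π).flatMap (fun p => sfB L p.1 p.2)

theorem sfB_just {F : List Rule} {L : ℕ} {pre : List Fm} {B : Fm} {σ : List Fm}
    (hL : ∀ C ∈ pre, ∀ x ∈ C.vars, x.length < L) (hB : ∀ x ∈ B.vars, x.length < L)
    (hσ : ∀ C ∈ pre, C ∈ σ) (h : GS F pre B) : Just (GC (GG F)) σ (sfB L pre B) := by
  have hG := GG_rich F
  have key : ∀ (l : List Fm) (σ : List Fm), (∀ C ∈ l, C ∈ σ) →
      (∀ C ∈ l, ∀ x ∈ C.vars, x.length < L) →
      Just (GC (GG F)) σ (l.flatMap (fun C => if C.subst (tsub (sfMT C B)) = B then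
        sfSub L (fn L 1 []) C (sfMT C B) else [])) ∧
      ((∃ C ∈ l, ∃ s : Nm → Fm, B = C.subst s) →
        B ∈ σ ++ l.flatMap (fun C => if C.subst (tsub (sfMT C B)) = B then
        sfSub L (fn L 1 []) C (sfMT C B) else [])) := by
    intro l
    induction l with
    | nil => intro σ _ _; exact ⟨trivial, by simp⟩
    | cons C l ih =>
      intro σ h1 h2
      rw [List.flatMap_cons]
      obtain ⟨j2, m2⟩ := ih (σ ++ (if C.subst (tsub (sfMT C B)) = B then
        sfSub L (fn L 1 []) C (sfMT C B) else []))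
        (fun D hD => List.mem_append_left _ (h1 D (List.mem_cons_of_mem _ hD)))
        (fun D hD => h2 D (List.mem_cons_of_mem _ hD))
      obtain ⟨j, m⟩ := sfSub_just hG (L := L) (d := fn L 1 []) (C := C) (t := sfMT C B)
        (fun w hw => h2 C (by simp) w hw)
        (fun p hp => h2 C (by simp) _ (sfMT_inv hp).1)
        (fun p hp x hx => hB x (sf_vars_subs (sfMT_inv hp).2 hx)) (π := σ) (h1 C (by simp))
      constructor
      · refine Just.append ?_ j2
        split_ifs
        · exact j
        · trivial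
      · rintro ⟨D, hD, s, rfl⟩
        rw [← List.append_assoc]
        rcases List.mem_cons.1 hD with rfl | hD
        · refine List.mem_append_left _ ?_
          rw [sfMT_subst] at m
          rw [if_pos (sfMT_subst _ _)]
          exact m
        · exact m2 ⟨D, hD, s, rfl⟩
  obtain ⟨j, m⟩ := key pre σ hσ hL
  refine Just.append j ⟨?_, trivial⟩
  rcases h with h | ⟨C, hC, s, e⟩
  · refine Or.inr (Or.inl (ruleStep_GG (mono_ruleStep F _ _ _ ?_ h)))
    intro C hC
    exact List.mem_append_left _ (hσ C hC)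
  · exact Or.inl (m ⟨C, hC, s, e⟩)

theorem sfT_just {F : List Rule} {L : ℕ} {π : List Fm} (h : Deriv (GS F) π)
    (hL : ∀ C ∈ π, ∀ x ∈ C.vars, x.length < L) :
    Just (GC (GG F)) [] (sfT L π) ∧ ∀ C ∈ π, C ∈ sfT L π := by
  induction h with
  | nil => exact ⟨trivial, by simp⟩
  | @snoc π B h1 h2 ih =>
    obtain ⟨j, m⟩ := ih (fun C hC => hL C (List.mem_append_left _ hC))
    have e : sfT L (π ++ [B]) = sfT L π ++ sfB L π B := by
      unfold sfT
      rw [splits_snoc]
      simp
    rw [e]
    constructor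
    · refine Just.append j ?_
      refine sfB_just (fun C hC => hL C (List.mem_append_left _ hC))
        (hL B (List.mem_append_right _ (List.mem_singleton.2 rfl))) ?_ h2
      intro C hC
      exact List.mem_append_right _ (m C hC)
    · intro C hC
      rcases List.mem_append.1 hC with hC | hC
      · exact List.mem_append_left _ (m C hC)
      · rw [List.mem_singleton] at hC
        subst hC
        exact List.mem_append_right _ (by simp [sfB])

/-- The set of variables of a sequence of formulas. -/
def sfV (π : List Fm) : Set Nm := {x | ∃ C ∈ π, x ∈ C.vars}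

theorem sfV_finite (π : List Fm) : (sfV π).Finite := by
  have : sfV π = {x | x ∈ π.flatMap nms} := by
    ext x
    simp [sfV, mem_nms]
  rw [this]
  exact List.finite_toSet _

theorem sf_mem_splits {π : List Fm} {p : List Fm × Fm} (h : p ∈ splits π) :
    (∀ C ∈ p.1, C ∈ π) ∧ p.2 ∈ π := by
  induction π using List.reverseRecOn with
  | nil => simp [splits, sp] at h
  | append_singleton π B ih =>
    rw [splits_snoc] at h
    rcases List.mem_append.1 h with h | h
    · obtain ⟨h1, h2⟩ := ih h
      exact ⟨fun C hC => List.mem_append_left _ (h1 C hC), List.mem_append_left _ h2⟩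
    · rw [List.mem_singleton] at h
      subst h
      exact ⟨fun C hC => List.mem_append_left _ hC,
        List.mem_append_right _ (List.mem_singleton.2 rfl)⟩

theorem sf_vars_T {L : ℕ} {π : List Fm} {X : Fm} (hX : X ∈ sfT L π) :
    X.vars ⊆ sfV π ∪ (fn L 0 '' sfV π ∪ {fn L 1 []}) := by
  unfold sfT at hX
  rw [List.mem_flatMap] at hX
  obtain ⟨p, hp, hX⟩ := hX
  obtain ⟨h1, h2⟩ := sf_mem_splits hp
  unfold sfB at hX
  rw [List.mem_append, List.mem_flatMap] at hX
  rcases hX with ⟨C, hC, hX⟩ | hX
  · split_ifs at hX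
    · have hCV : C.vars ⊆ sfV π := fun x hx => ⟨C, h1 C hC, hx⟩
      have hBV : p.2.vars ⊆ sfV π := fun x hx => ⟨p.2, h2, hx⟩
      refine sf_vars_sub ?_ ?_ ?_ (by simp) X hX
      · exact hCV.trans Set.subset_union_left
      · intro q hq
        have := hCV (sfMT_inv hq).1
        exact ⟨Or.inl this, Or.inr (Or.inl ⟨_, this, rfl⟩)⟩
      · intro q hq
        exact ((sf_vars_subs (sfMT_inv hq).2).trans hBV).trans Set.subset_union_left
    · simp at hX
  · rw [List.mem_singleton] at hX
    subst hX
    intro x hx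
    exact Or.inl ⟨p.2, h2, hx⟩

theorem sf_numVars_le {L : ℕ} {π σ : List Fm} (h : ∀ X ∈ σ, X ∈ sfT L π) :
    numVars σ ≤ 2 * numVars π + 1 := by
  have h1 : {x : List Bool | ∃ C ∈ σ, x ∈ C.vars} ⊆
      sfV π ∪ (fn L 0 '' sfV π ∪ {fn L 1 []}) := by
    rintro x ⟨C, hC, hx⟩
    exact sf_vars_T (h C hC) hx
  have hf := sfV_finite π
  have hfin : (sfV π ∪ (fn L 0 '' sfV π ∪ {fn L 1 []})).Finite :=
    hf.union ((hf.image _).union (Set.finite_singleton _))
  have h2 := Set.ncard_le_ncard h1 hfin
  have h3 := Set.ncard_union_le (sfV π) (fn L 0 '' sfV π ∪ {fn L 1 []})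
  have h4 := Set.ncard_union_le (fn L 0 '' sfV π) {fn L 1 []}
  have h5 := Set.ncard_image_le (f := fn L 0) hf
  rw [Set.ncard_singleton] at h4
  have h6 : numVars π = (sfV π).ncard := rfl
  unfold numVars at h6 ⊢
  omega

/-- The transformation. -/
def sfcf (π : List Fm) : List Fm := cutAt (lastF π) (app [] (sfT (lenB π) π))

section

open Pool.Agent.H.MP_0447ec_lc.PT

variable {α : Type} [Enc α]

@[fun_prop]
theorem Poly.sfS {x : α → Nm} {φ : α → Fm} {w : α → Nm} (hx : Poly x) (hφ : Poly φ)
    (hw : Poly w) : Poly (fun a => sfS (x a) (φ a) (w a)) := by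
  unfold PS.sfS
  fun_prop

@[fun_prop]
theorem Poly.sfSsub {x : α → Nm} {φ G : α → Fm} (hx : Poly x) (hφ : Poly φ) (hG : Poly G) :
    Poly (fun a => (G a).subst (PS.sfS (x a) (φ a))) :=
  Poly.substP (s := fun a => PS.sfS (x a) (φ a)) (by fun_prop) hG

theorem Poly.sfOneH {H E φ : α → Fm} {x : α → Nm} {c : α → Bool} (hH : Poly H) (hE : Poly E)
    (hφ : Poly φ) (hx : Poly x) (hc : Poly c) :
    Poly (fun a => sfOneH (H a) (E a) (PS.cs (x a) (c a)) (PS.sfS (x a) (φ a))) := by
  unfold PS.sfOneH
  refine Poly.append (by fun_prop) (Poly.append ?_ (by fun_prop))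
  exact Poly.replL hH hE (s := fun a => PS.cs (x a) (c a)) (t := fun a => PS.sfS (x a) (φ a))
    (by fun_prop) (by fun_prop)

@[fun_prop]
theorem Poly.sfOne {d x : α → Nm} {φ E : α → Fm} (hd : Poly d) (hx : Poly x) (hφ : Poly φ)
    (hE : Poly E) : Poly (fun a => sfOne (d a) (x a) (φ a) (E a)) := by
  have h1 := Poly.sfOneH (H := fun a => Fm.and (φ a) (PS.ct (d a) true)) (E := E) (φ := φ)
    (x := x) (c := fun _ => true) (by fun_prop) hE hφ hx (by fun_prop)
  have h2 := Poly.sfOneH (H := fun a => Fm.and (Fm.neg (φ a)) (PS.ct (d a) true)) (E := E)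
    (φ := φ) (x := x) (c := fun _ => false) (by fun_prop) hE hφ hx (by fun_prop)
  unfold PS.sfOne
  refine Poly.append (by fun_prop) (Poly.append (by fun_prop) (Poly.append h1
    (Poly.append (by fun_prop) (Poly.append h2 (by fun_prop)))))

@[fun_prop]
theorem Poly.sfR {L : α → ℕ} {t : α → List (Nm × Fm)} (hL : Poly L) (ht : Poly t) :
    Poly (fun a => sfR (L a) (t a)) := by
  unfold PS.sfR
  fun_prop

@[fun_prop]
theorem Poly.sfSub {L : α → ℕ} {d : α → Nm} {C : α → Fm} {t : α → List (Nm × Fm)}
    (hL : Poly L) (hd : Poly d) (hC : Poly C) (ht : Poly t) :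
    Poly (fun a => sfSub (L a) (d a) (C a) (t a)) := by
  unfold PS.sfSub
  have e1 : Poly (fun p : α × (List (Nm × Fm) × (Nm × Fm) × List (Nm × Fm)) =>
      (C p.1).subst (PS.tsub (PS.sfR (L p.1) p.2.1))) :=
    Poly.tsubst (by fun_prop) (by fun_prop)
  have e2 : Poly (fun p : α × (List (Nm × Fm) × (Nm × Fm) × List (Nm × Fm)) =>
      (C p.1).subst (PS.tsub (p.2.1 ++ PS.sfR (L p.1) (t p.1)))) :=
    Poly.tsubst (by fun_prop) (by fun_prop)
  fun_prop

theorem sz_sfKids (A : Fm) : sz (sfKids A) ≤ sz A := by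
  cases A with
  | var w => rw [sz_var]; simp only [sfKids, sz_lnil]; omega
  | neg A => rw [sz_neg]; simp only [sfKids, sz_lcons, sz_lnil]; omega
  | and A B => rw [sz_and]; simp only [sfKids, sz_lcons, sz_lnil]; omega
  | or A B => rw [sz_or]; simp only [sfKids, sz_lcons, sz_lnil]; omega
  | imp A B => rw [sz_imp]; simp only [sfKids, sz_lcons, sz_lnil]; omega

@[fun_prop]
theorem Poly.sfKids {G : α → Fm} (hG : Poly G) : Poly (fun a => sfKids (G a)) := by
  have e : ∀ A : Fm, fmFold (fun w => (Fm.var w, ([] : List Fm)))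
      (fun p => (Fm.neg p.1, [p.1]))
      (fun n p q => (PS.conn n p.1 q.1, [p.1, q.1])) A =
      (A, PS.sfKids A) := by
    intro A
    induction A with
    | var w => rfl
    | neg A ih => simp [fmFold, PS.sfKids, ih]
    | and A B ih1 ih2 => simp [fmFold, PS.sfKids, conn_two, ih1, ih2]
    | or A B ih1 ih2 => simp [fmFold, PS.sfKids, conn_three, ih1, ih2]
    | imp A B ih1 ih2 => simp [fmFold, PS.sfKids, conn_four, ih1, ih2]
  have key := Poly.ofFold (gv := fun _ w => (Fm.var w, ([] : List Fm)))
    (gn := fun _ p => (Fm.neg p.1, [p.1]))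
    (g2 := fun _ n p q => (PS.conn n p.1 q.1, [p.1, q.1]))
    (B := fun a => sz (G a) + sz (G a) + 1) hG (by fun_prop) (by fun_prop) (by fun_prop)
    ((hG.sz_le.add hG.sz_le).add (PBdd.const 1)) (by
      intro a A hA
      rw [e, sz_pair]
      have h1 := sz_sfKids A
      have h2 := sz_le_of_mem_subs hA
      omega)
  have := Poly.comp (f := fun p : Fm × List Fm => p.2) Poly.snd key
  simpa [e] using this

/-- The state of the matching stays small. -/
theorem sz_sfM (C B : Fm) {l₁ l₂ : List (ℕ × Nm)} (h : C.pol = l₁ ++ l₂) :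
    sz (l₁.foldl sfM ([B], [])) ≤
      ((1 + sz C) * (sz B + 1) + 1) + (sz C * (sz C + sz B + 2) + 1) + 1 := by
  obtain ⟨a1, a2, a3, a4, a5⟩ := sfM_inv B l₁ ([B], [])
    (by intro G hG; rw [List.mem_singleton] at hG; subst hG; exact self_mem_subs _) (by simp)
  have hl : l₁.length ≤ sz C := by
    have h1 := length_lt_sz C.pol
    rw [h, List.length_append] at h1
    rw [sz_fm]
    rw [← h] at h1
    omega
  simp only [List.length_singleton, List.length_nil] at a4 a5
  have b1 := sz_le_of_forall (l₁.foldl sfM ([B], [])).1 (sz B)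
    (fun G hG => sz_le_of_mem_subs (a1 G hG))
  have b2 := sz_le_of_forall (l₁.foldl sfM ([B], [])).2 (sz C + sz B + 1) (fun p hp => by
    rw [sz_prod]
    have c1 := sz_le_of_mem_subs (a2 p hp)
    have c2 : sz p.1 ≤ sz C := by
      rcases a3 p hp with c | c
      · simp at c
      · exact sz_name_le (sf_mem_pol (by rw [h]; exact List.mem_append_left _ c))
    omega)
  have b3 : (l₁.foldl sfM ([B], [])).1.length * (sz B + 1) ≤ (1 + sz C) * (sz B + 1) :=
    Nat.mul_le_mul_right _ (by omega)
  have b4 : (l₁.foldl sfM ([B], [])).2.length * (sz C + sz B + 1 + 1) ≤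
      sz C * (sz C + sz B + 2) := Nat.mul_le_mul (by omega) (by omega)
  rw [sz_prod]
  omega

@[fun_prop]
theorem Poly.sfMT {C B : α → Fm} (hC : Poly C) (hB : Poly B) :
    Poly (fun a => sfMT (C a) (B a)) := by
  have hs : Poly (fun p : α × (List Fm × List (Nm × Fm)) × (ℕ × Nm) => sfM p.2.1 p.2.2) := by
    have h1 := Poly.lcase (α := α × (List Fm × List (Nm × Fm)) × (ℕ × Nm))
      (l := fun p => p.2.1.1) (f := fun p => p.2.1)
      (g := fun p G st => if p.2.2.1 = 0 then (st, p.2.1.2 ++ [(p.2.2.2, G)]) else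
        (PS.sfKids G ++ st, p.2.1.2)) (by fun_prop) (by fun_prop) (by fun_prop)
    refine (show (fun p : α × (List Fm × List (Nm × Fm)) × (ℕ × Nm) => sfM p.2.1 p.2.2) = _
      from ?_) ▸ h1
    funext p
    unfold PS.sfM
    cases p.2.1.1 <;> rfl
  have hp := Poly.polOf hC
  have key := Poly.foldl (f := fun p : α × (List Fm × List (Nm × Fm)) × (ℕ × Nm) =>
      sfM p.2.1 p.2.2) (l := fun a => (C a).pol) (s0 := fun a => ([B a], []))
    (B := fun a => ((1 + sz (C a)) * (sz (B a) + 1) + 1) +
      (sz (C a) * (sz (C a) + sz (B a) + 2) + 1) + 1)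
    hs hp (by fun_prop)
    (((((((PBdd.const 1).add hC.sz_le).mul (hB.sz_le.add (PBdd.const 1))).add (PBdd.const 1)).add
      ((hC.sz_le.mul ((hC.sz_le.add hB.sz_le).add (PBdd.const 2))).add (PBdd.const 1)))).add
      (PBdd.const 1)) (by
      intro a l₁ l₂ h
      exact sz_sfM (C a) (B a) h)
  exact Poly.comp (f := fun q : List Fm × List (Nm × Fm) => q.2) Poly.snd key

@[fun_prop]
theorem Poly.sfB {L : α → ℕ} {pre : α → List Fm} {B : α → Fm} (hL : Poly L) (hp : Poly pre)
    (hB : Poly B) : Poly (fun a => sfB (L a) (pre a) (B a)) := by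
  unfold PS.sfB
  have e1 : Poly (fun p : α × Fm => p.2.subst (PS.tsub (PS.sfMT p.2 (B p.1)))) :=
    Poly.tsubst (by fun_prop) (by fun_prop)
  have e2 : Poly (fun p : α × Fm => if p.2.subst (PS.tsub (PS.sfMT p.2 (B p.1))) = B p.1 then
      PS.sfSub (L p.1) (PS.fn (L p.1) 1 []) p.2 (PS.sfMT p.2 (B p.1)) else []) := by
    fun_prop
  exact Poly.append (PT.Poly.flatMap e2 hp) (by fun_prop)

@[fun_prop]
theorem Poly.sfT {L : α → ℕ} {π : α → List Fm} (hL : Poly L) (hp : Poly π) :
    Poly (fun a => sfT (L a) (π a)) := by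
  unfold PS.sfT
  fun_prop

end

theorem sfcf_main (F : List Rule) :
    ∃ T : List Fm → List Fm, PT.Poly T ∧
    ∀ (A : Fm) (π : List Fm), Deriv (GS F) π → π.getLast? = some A →
      Deriv (GC (GG F)) (T π) ∧ (T π).getLast? = some A ∧ numVars (T π) ≤ 2 * numVars π + 1 := by
  refine ⟨sfcf, ?_, ?_⟩
  · unfold sfcf
    fun_prop
  · intro A π h1 h2
    have hl := lastF_eq h2
    have hA : A ∈ π := List.mem_of_getLast? h2
    obtain ⟨j, m⟩ := sfT_just (L := lenB π) h1 (fun C hC x hx => lenB_spec hC hx)
    have hD := deriv_app (mono_GC (GG F)) Deriv.nil j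
    have hm : A ∈ app [] (sfT (lenB π) π) := mem_app.2 (Or.inr (m A hA))
    unfold sfcf
    rw [hl]
    obtain ⟨c1, c2⟩ := deriv_cutAt hD hm
    refine ⟨c1, c2, sf_numVars_le (L := lenB π) ?_⟩
    intro X hX
    unfold cutAt at hX
    rcases List.mem_append.1 hX with hX | hX
    · have := (List.takeWhile_prefix _).subset hX
      simpa using mem_app.1 this
    · rw [List.mem_singleton] at hX
      subst hX
      exact m _ hA


end Pool.Agent.H.MP_0447ec_lc.PS
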