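import Pool.Agent.H.MP_0447ec_lc.LV.AsmB
import Pool.Agent.H.MP_0447ec_lc.LV.Elim
import Pool.Agent.H.MP_0447ec_lc.LV.SFCF
import Pool.Agent.H.MP_0447ec_lc.LV.Flip
import Pool.Agent.H.MP_0447ec_lc.LV.Robust

/-!
# From substitution Frege with linearly many variables to the permutation rule
-/

namespace Pool.Agent.H.MP_0447ec_lc.PS

open Fm Pool.Agent.H.MP_0447ec_lc.PT

/-! ### Soundness -/

theorem sound_GS {F : List Rule} (hF : IsFrege F) {π : List Fm} (h : Deriv (GS F) π) :
    ∀ C ∈ π, ∀ v : Nm → Prop, C.Eval v := by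
  induction h with
  | nil => intro C hC; simp at hC
  | @snoc σ B _ h2 ih =>
    intro C hC v
    rcases List.mem_append.1 hC with hC | hC
    · exact ih C hC v
    · rw [List.mem_singleton] at hC
      subst hC
      rcases h2 with ⟨r, hr, s, hs, rfl⟩ | ⟨C', hC', s, rfl⟩
      · rw [Fm.eval_subst]
        refine hF.sound r hr _ (fun P hP => ?_)
        rw [← Fm.eval_subst]
        exact ih _ (hs P hP) v
      · rw [Fm.eval_subst]
        exact ih C' hC' _

theorem isFrege_GG {F : List Rule} (hF : IsFrege F) : IsFrege (GG F) := by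
  refine ⟨GG_sound hF, ?_⟩
  intro Γ B h
  obtain ⟨π, h1, h2⟩ := hF.complete Γ B h
  refine ⟨π, ?_, h2⟩
  clear h2 h
  induction h1 with
  | nil => exact Deriv.nil
  | snoc _ h3 ih => exact Deriv.snoc ih (h3.imp (fun h => h) (fun h => ruleStep_GG h))

/-! ### The negation of all variables -/

theorem nms_negv (A : Fm) : nms (A.subst (fun w => neg (var w))) = nms A := by
  induction A with
  | var w => rfl
  | neg A ih => simpa [nms, Fm.subst] using ih
  | and A B ih1 ih2 => simp [nms, Fm.subst, ih1, ih2]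
  | or A B ih1 ih2 => simp [nms, Fm.subst, ih1, ih2]
  | imp A B ih1 ih2 => simp [nms, Fm.subst, ih1, ih2]

/-- The functions that are used. -/
structure FnC extends FnB where
  /-- words -/
  Tw : ℕ × ℕ → List (List Bool)
  /-- negation of all variables -/
  Tfl : Nm × List Nm × Fm × List Fm → List Fm
  /-- elimination of the hypotheses -/
  Tel : Nm × List (Nm × Nm) × Fm → List Fm
  /-- change of the rules -/
  rb : List Fm → List Fm
  /-- a constant -/
  K3 : ℕ

namespace FnC

open FnB (xs c)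

variable (q : FnC)

def pn (π : List Fm) : List Fm := q.gs ((xs π).map (fun x => (x, neg (var x))), π)
def s (π : List Fm) : ℕ :=
  sz (lenB π, π, (xs π).length) + sz (lenB π, q.pn π, (xs π).length)
def ℓ (π : List Fm) : ℕ := Nat.log 2 (q.s π) + 1
def e (π : List Fm) : ℕ := q.K3 * q.ℓ π
def W (π : List Fm) : List (List Bool) := q.Tw ((2 * q.s π) ^ q.K3, q.e π)
def d (π : List Fm) : Nm := fn (lenB π) ((xs π).length + 1) []
def L (π : List Fm) : ℕ := lenB π + (xs π).length + 3
def h1 (π : List Fm) : List Fm := q.half ((L π, d π, q.W π, q.e π), lenB π, π)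
def h2 (π : List Fm) : List Fm := q.half ((L π, d π, q.W π, q.e π), lenB π, q.pn π)
def zv (π : List Fm) : List (Nm × Nm) :=
  (List.range (xs π).length).flatMap (fun J => (q.W π).map
    (fun v => (fn (L π) J v, fn (L π) ((xs π).length + J) v)))
def fl (π : List Fm) : List Fm := q.Tfl (d π, (q.zv π).map Prod.fst, lastF π, q.h2 π)
def el (π : List Fm) : List Fm := q.Tel (d π, q.zv π, lastF π)
def out (π : List Fm) : List Fm :=
  q.rb (cutAt (lastF π) (app [] ((q.h1 π ++ q.fl π) ++ q.el π)))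

structure IsPoly : Prop where
  hB : q.toFnB.IsPoly
  hTw : Poly q.Tw
  hTfl : Poly q.Tfl
  hTel : Poly q.Tel
  hrb : Poly q.rb

variable {q}

theorem ppn (h : q.IsPoly) : Poly q.pn := by
  have := FnB.pxs; have := h.hB.hgs
  unfold pn; fun_prop
theorem psz (h : q.IsPoly) : Poly q.s := by
  have := FnB.pxs; have := ppn h
  unfold s; fun_prop
theorem pℓ (h : q.IsPoly) : Poly q.ℓ := by
  have := psz h
  unfold ℓ; fun_prop
theorem pe (h : q.IsPoly) : Poly q.e := by
  have := pℓ h
  unfold e; fun_prop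
theorem pW (h : q.IsPoly) : Poly q.W := by
  have := pe h; have := psz h; have := h.hTw
  have h1 : Poly (fun π : List Fm => (2 * q.s π) ^ q.K3) := Poly.powC (by fun_prop) _
  unfold W; fun_prop
theorem pd : Poly d := by
  have := FnB.pxs
  unfold d; fun_prop
theorem pL : Poly L := by
  have := FnB.pxs
  unfold L; fun_prop
theorem ph1 (h : q.IsPoly) : Poly q.h1 := by
  have := pL; have := pd; have := pW h; have := pe h; have := FnB.phalf h.hB
  unfold h1; fun_prop
theorem ph2 (h : q.IsPoly) : Poly q.h2 := by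
  have := pL; have := pd; have := pW h; have := pe h; have := FnB.phalf h.hB; have := ppn h
  unfold h2; fun_prop
theorem pzv (h : q.IsPoly) : Poly q.zv := by
  have := pL; have := pW h; have := FnB.pxs
  unfold zv; fun_prop
theorem pfl (h : q.IsPoly) : Poly q.fl := by
  have := pd; have := pzv h; have := ph2 h; have := h.hTfl
  unfold fl; fun_prop
theorem pel (h : q.IsPoly) : Poly q.el := by
  have := pd; have := pzv h; have := h.hTel
  unfold el; fun_prop
theorem pout (h : q.IsPoly) : Poly q.out := by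
  have := ph1 h; have := pfl h; have := pel h; have := h.hrb
  unfold out; fun_prop

/-- The specifications. -/
structure Spec (F : List Rule) (R : Fm → List Fm → Prop) (q : FnC) (C1 K : ℕ) : Prop where
  B : FnB.Spec F R q.toFnB C1
  Tw : ∀ (cap e : ℕ), 2 ^ e ≤ cap → (q.Tw (cap, e)).Nodup ∧ (q.Tw (cap, e)).length = 2 ^ e ∧
      ∀ w, w ∈ q.Tw (cap, e) ↔ w.length = e
  Tfl : ∀ (d : Nm) (zs : List Nm) (A : Fm) (τ : List Fm), Just (FP (GG (GG F))) [] τ →
      imp (cj d (zs.map (fun z => neg (var z)))) (A.subst (fun w => neg (var w))) ∈ τ →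
      ∀ π : List Fm, Just (FP (GG (GG F))) π (q.Tfl (d, zs, A, τ)) ∧
        imp (cj d (zs.map var)) A ∈ q.Tfl (d, zs, A, τ)
  Tel : ∀ (d : Nm) (zv : List (Nm × Nm)) (A : Fm),
      (zv.map Prod.fst ++ zv.map Prod.snd).Nodup → d ∉ zv.map Prod.fst ++ zv.map Prod.snd →
      (∀ z ∈ zv.map Prod.fst ++ zv.map Prod.snd, z ∉ A.vars) →
      ∀ π : List Fm, imp (cj d (zv.map (fun p => neg (var p.1)))) A ∈ π →
        imp (cj d (zv.map (fun p => var p.1))) A ∈ π →
        Just (FP (GG (GG F))) π (q.Tel (d, zv, A)) ∧ A ∈ q.Tel (d, zv, A)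
  rb : ∀ (Step : List Fm → Fm → Prop), Mono Step → ∀ (π : List Fm) (A : Fm),
        Deriv (fun σ B => RuleStep (GG (GG F)) σ B ∨ Step σ B) π → π.getLast? = some A →
        Deriv (fun σ B => RuleStep F σ B ∨ Step σ B) (q.rb π) ∧ (q.rb π).getLast? = some A ∧
          ∀ C ∈ q.rb π, ∀ x ∈ C.vars, ∃ D ∈ π, x ∈ D.vars
  hK : ∀ x, Nat.log 2 (sz (q.pj x)) + 1 ≤ K * (Nat.log 2 (sz x) + 1)
  hK3 : q.K3 = C1 * (K + 2) + 2

section spec

variable {F : List Rule} {R : Fm → List Fm → Prop} {C1 K : ℕ} (h : Spec F R q C1 K) {A : Fm}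
  {π : List Fm}
  (hπ : RL R A π)

include hπ in
theorem last : lastF π = A := lastF_eq hπ.2

include h hπ in
theorem pn_spec : RL R (A.subst (fun w => neg (var w))) (q.pn π) := by
  have h1 := h.B.gs ((xs π).map (fun x => (x, neg (var x)))) π A hπ
  have e : A.subst (tsub ((xs π).map (fun x => (x, neg (var x))))) =
      A.subst (fun w => neg (var w)) := by
    refine Fm.subst_congr (fun x hx => ?_)
    refine tsub_of_mem ?_ ?_
    · exact List.mem_map_of_mem (f := fun x : Nm => (x, neg (var x))) ((FnB.mem_xs hπ).2 hx)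
    · rw [List.map_map]
      have : (xs π).map (Prod.fst ∘ fun x : Nm => (x, neg (var x))) = xs π := by
        conv_rhs => rw [← List.map_id (xs π)]
        rfl
      rw [this]
      exact FnB.xs_nodup π
  rw [e] at h1
  exact h1

include h hπ in
theorem xs_pn : xs (q.pn π) = xs π := by
  unfold FnB.xs
  rw [last hπ, lastF_eq (pn_spec h hπ).2, nms_negv]

include h hπ in
theorem c_pn : c (q.pn π) = c π := by
  unfold FnB.c
  rw [xs_pn h hπ]

theorem ℓ_pos : 0 < q.ℓ π := by unfold ℓ; omega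

theorem c_le : c π ≤ q.ℓ π := by
  unfold FnB.c ℓ s
  refine Nat.add_le_add_right (Nat.log_mono_right ?_) 1
  simp only [sz_pair, sz_nat]
  omega

include h in
theorem K3_c : c π ≤ q.e π ∧ (C1 * (K + 2) + 1) * q.ℓ π ≤ q.e π - c π := by
  have h1 := c_le (q := q) (π := π)
  unfold e
  rw [h.hK3]
  have h2 : (C1 * (K + 2) + 2) * q.ℓ π = (C1 * (K + 2) + 1) * q.ℓ π + q.ℓ π := by ring
  rw [h2]
  omega

/-- The bound for the number of other names. -/
theorem ot_le {o j c ℓ K C1 E lg : ℕ} (h1 : o ≤ C1 * (1 + (j + 1) * c + lg) + 1)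
    (h2 : lg ≤ K * ℓ) (h3 : c ≤ ℓ) (h4 : 0 < ℓ) (h5 : (C1 * (K + 2) + 1) * ℓ ≤ E) :
    o ≤ (j + 1) * E := by
  have a1 : (j + 1) * c ≤ (j + 1) * ℓ := Nat.mul_le_mul_left _ h3
  have a2 : K * ℓ ≤ (j + 1) * (K * ℓ) := Nat.le_mul_of_pos_left _ (by omega)
  have a3 : 1 ≤ (j + 1) * ℓ := Nat.mul_pos (by omega) h4
  have a4 : 1 + (j + 1) * c + lg ≤ (j + 1) * ℓ * (K + 2) := by
    have : (j + 1) * ℓ * (K + 2) = (j + 1) * (K * ℓ) + (j + 1) * ℓ + (j + 1) * ℓ := by ring
    omega
  calc o ≤ C1 * (1 + (j + 1) * c + lg) + 1 := h1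
    _ ≤ C1 * ((j + 1) * ℓ * (K + 2)) + (j + 1) * ℓ :=
        Nat.add_le_add (Nat.mul_le_mul_left _ a4) a3
    _ = (j + 1) * ((C1 * (K + 2) + 1) * ℓ) := by ring
    _ ≤ (j + 1) * E := Nat.mul_le_mul_left _ h5

include h hπ in
theorem ot_one {j : ℕ} (hj : j < (xs π).length) :
    (q.ot (lenB π, π, j)).length ≤ (j + 1) * (q.e π - c π) := by
  refine ot_le (FnB.ot_length h.B hπ (lenB π) j) ?_ c_le ℓ_pos (K3_c h).2
  refine (Nat.le_succ _).trans ((h.hK _).trans (Nat.mul_le_mul_left _ ?_))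
  unfold ℓ s
  refine Nat.add_le_add_right (Nat.log_mono_right ?_) 1
  simp only [sz_pair, sz_nat]
  omega

include h hπ in
theorem ot_two {j : ℕ} (hj : j < (xs π).length) :
    (q.ot (lenB π, q.pn π, j)).length ≤ (j + 1) * (q.e π - c π) := by
  have h1 := FnB.ot_length h.B (pn_spec h hπ) (lenB π) j
  rw [c_pn h hπ] at h1
  refine ot_le h1 ?_ c_le ℓ_pos (K3_c h).2
  refine (Nat.le_succ _).trans ((h.hK _).trans (Nat.mul_le_mul_left _ ?_))
  unfold ℓ s
  refine Nat.add_le_add_right (Nat.log_mono_right ?_) 1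
  simp only [sz_pair, sz_nat]
  omega

include h in
theorem W_spec : (q.W π).Nodup ∧ ∀ w, w ∈ q.W π ↔ w.length = q.e π := by
  have h1 : 2 ^ q.e π ≤ (2 * q.s π) ^ q.K3 := by
    unfold e ℓ
    rw [Nat.mul_comm, pow_mul]
    refine Nat.pow_le_pow_left ?_ _
    rw [pow_succ, Nat.mul_comm]
    have := Nat.pow_log_le_self 2 (x := q.s π) (by
      have := sz_pos (lenB π, π, (xs π).length)
      unfold s; omega)
    omega
  exact ⟨(h.Tw _ _ h1).1, (h.Tw _ _ h1).2.2⟩

theorem d_length : (d π).length = L π := by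
  unfold d L fn
  simp
  omega

include hπ in
theorem le_lenB {x : Nm} (hx : x ∈ A.vars) : x.length ≤ lenB π :=
  (lenB_spec (List.mem_of_getLast? hπ.2) hx).le

include hπ in
theorem le_L {x : Nm} (hx : x ∈ A.vars) : x.length ≤ L π := by
  have := le_lenB hπ hx
  unfold L; omega

include hπ in
theorem d_not_mem : d π ∉ A.vars := by
  intro hx
  have h1 := le_lenB hπ hx
  rw [d_length] at h1
  unfold L at h1
  omega

theorem vars_negv {A : Fm} {x : Nm} : x ∈ (A.subst (fun w => neg (var w))).vars ↔ x ∈ A.vars := by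
  rw [← mem_nms, nms_negv, mem_nms]

theorem zoff_eq : (List.range (xs π).length).flatMap (fun J => zoff (L π) J (q.W π)) =
    (q.zv π).map (fun p => neg (var p.1)) := by
  unfold zv zoff
  rw [List.map_flatMap]
  simp only [List.map_map, Function.comp_def]

theorem mem_zv {z : Nm} : z ∈ (q.zv π).map Prod.fst ++ (q.zv π).map Prod.snd →
    L π < z.length := by
  intro hz
  unfold zv at hz
  rw [List.mem_append, List.map_flatMap, List.map_flatMap, List.mem_flatMap,
    List.mem_flatMap] at hz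
  rcases hz with ⟨J, -, hz⟩ | ⟨J, -, hz⟩
  · rw [List.map_map] at hz
    obtain ⟨v, -, rfl⟩ := List.mem_map.1 hz
    exact fn_length _ _ _
  · rw [List.map_map] at hz
    obtain ⟨v, -, rfl⟩ := List.mem_map.1 hz
    exact fn_length _ _ _

theorem zv_nodup (hW : (q.W π).Nodup) :
    ((q.zv π).map Prod.fst ++ (q.zv π).map Prod.snd).Nodup := by
  have key : ∀ g : ℕ → ℕ, Function.Injective g →
      ((List.range (xs π).length).flatMap
        (fun J => (q.W π).map (fun v => fn (L π) (g J) v))).Nodup := by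
    intro g hg
    rw [List.nodup_flatMap]
    constructor
    · intro j _
      refine List.Nodup.map ?_ hW
      intro v v' hv
      exact (fn_inj hv).2
    · refine List.nodup_range.imp ?_
      intro i j hij
      rw [Function.onFun, List.disjoint_left]
      intro x hx hx'
      obtain ⟨v, _, rfl⟩ := List.mem_map.1 hx
      obtain ⟨v', _, hv'⟩ := List.mem_map.1 hx'
      exact hij (hg (fn_inj hv').1.symm)
  unfold zv
  rw [List.map_flatMap, List.map_flatMap, List.nodup_append]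
  simp only [List.map_map, Function.comp_def]
  refine ⟨key (fun J => J) (fun _ _ h => h), key (fun J => (xs π).length + J)
    (fun _ _ h => Nat.add_left_cancel h), ?_⟩
  rintro x hx y hy rfl
  obtain ⟨J, hJ, hx⟩ := List.mem_flatMap.1 hx
  obtain ⟨J', -, hy⟩ := List.mem_flatMap.1 hy
  obtain ⟨v, _, rfl⟩ := List.mem_map.1 hx
  obtain ⟨v', _, hv'⟩ := List.mem_map.1 hy
  have h1 := (fn_inj hv').1
  rw [List.mem_range] at hJ
  omega

include h hπ in
theorem out_spec (hF : IsFrege F) : PermProof F A (q.out π) := by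
  obtain ⟨w1, w2⟩ := W_spec h (π := π)
  have hA : ∀ v : Nm → Prop, A.Eval v := by
    obtain ⟨s1, s2, -⟩ := h.B.h0 _ _ hπ
    have s3 : Deriv (GS (GG F)) (q.h0 π) := by
      have key : ∀ {τ : List Fm}, Deriv (GC (GG F)) τ → Deriv (GS (GG F)) τ := by
        intro τ hτ
        induction hτ with
        | nil => exact Deriv.nil
        | snoc _ h2 ih => exact Deriv.snoc ih (h2.imp (fun h => h) (fun h => h.subst))
      exact key s1
    exact sound_GS (isFrege_GG hF) s3 A (List.mem_of_getLast? s2)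
  obtain ⟨a1, a2⟩ := FnB.half_spec h.B hπ (hA _) (L0 := lenB π) (L := L π) (e := q.e π)
    (d := d π) (W := q.W π) w1 w2 (K3_c h).1 (fun j hj => ot_one h hπ hj)
    (fun x hx => le_L hπ hx) d_length.le (d_not_mem hπ) []
  obtain ⟨b1, b2⟩ := FnB.half_spec h.B (pn_spec h hπ)
    (by rw [Fm.eval_subst]; exact hA _) (L0 := lenB π) (L := L π) (e := q.e π)
    (d := d π) (W := q.W π) w1 w2 (by rw [c_pn h hπ]; exact (K3_c h).1)
    (fun j hj => by
      rw [xs_pn h hπ] at hj
      rw [c_pn h hπ]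
      exact ot_two h hπ hj)
    (fun x hx => le_L hπ (vars_negv.1 hx)) d_length.le
    (fun hx => d_not_mem hπ (vars_negv.1 hx)) []
  rw [xs_pn h hπ, zoff_eq] at b2
  rw [zoff_eq] at a2
  obtain ⟨f1, f2⟩ := h.Tfl (d π) ((q.zv π).map Prod.fst) A (q.h2 π) b1
    (by
      rw [List.map_map]
      exact b2) ([] ++ q.h1 π)
  rw [List.map_map] at f2
  obtain ⟨g1, g2⟩ := h.Tel (d π) (q.zv π) A (zv_nodup w1)
    (fun hz => by
      have := mem_zv hz
      rw [d_length] at this
      omega)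
    (fun z hz hz' => by
      have h1 := mem_zv hz
      have h2 := le_L hπ hz'
      omega) ([] ++ (q.h1 π ++ q.fl π))
    (by
      rw [List.nil_append]
      exact List.mem_append_left _ a2)
    (by
      rw [List.nil_append]
      refine List.mem_append_right _ ?_
      unfold fl
      rw [last hπ]
      exact f2)
  have e1 : q.fl π = q.Tfl (d π, (q.zv π).map Prod.fst, A, q.h2 π) := by
    unfold fl; rw [last hπ]
  have e2 : q.el π = q.Tel (d π, q.zv π, A) := by
    unfold el; rw [last hπ]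
  have j : Just (FP (GG (GG F))) [] ((q.h1 π ++ q.fl π) ++ q.el π) := by
    refine Just.append (Just.append a1 ?_) ?_
    · rw [e1]; exact f1
    · rw [e2]; exact g1
  have hD := deriv_app (mono_perm (GG (GG F))) Deriv.nil j
  have hm : A ∈ app [] ((q.h1 π ++ q.fl π) ++ q.el π) :=
    mem_app.2 (Or.inr (List.mem_append_right _ (by rw [e2]; exact g2)))
  obtain ⟨c1, c2⟩ := deriv_cutAt hD hm
  obtain ⟨r1, r2, -⟩ := h.rb PermStep mono_permStep _ A c1 c2
  unfold out
  rw [last hπ]
  exact ⟨r1, r2⟩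

end spec

end FnC

/-- If substitution Frege with linearly many variables simulates `R` then the permutation rule
simulates `R`. -/
theorem asmB {F : List Rule} (hF : IsFrege F) {R : Fm → List Fm → Prop}
    (hR : ClosedUnderSubstitution R) (h : LinearSimulates F R) :
    PSimulates (PermProof F) R := by
  obtain ⟨C0, f, hf, hf'⟩ := h
  have hf := (tm2_iff_poly codeProof_eq codeProof_eq f).1 hf
  obtain ⟨hE, gs, hgs, hgs'⟩ := closedSub_iff.1 hR
  obtain ⟨sf, hsf, hsf'⟩ := sfcf_main F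
  obtain ⟨Tb, hTb, hTb'⟩ := blocks_main
  obtain ⟨Tw, hTw, hTw'⟩ := words_main
  obtain ⟨Tc, hTc, hTc'⟩ := codes_main
  obtain ⟨Tk, hTk, hTk'⟩ := tok_main (GG F)
  obtain ⟨Td, hTd, hTd'⟩ := dp_main (GG_rich (GG F))
  obtain ⟨Tfl, hTfl, hTfl'⟩ := flip_main (GG_rich (GG F))
  obtain ⟨Tel, hTel, hTel'⟩ := elim_main (GG_rich (GG F))
  obtain ⟨rb, hrb, hrb'⟩ := robust hF (GG_sound (isFrege_GG hF))
  let qB : FnB := ⟨fun π => sf (f π), gs, Tb, Tc, Tk, Td⟩
  have hB : qB.IsPoly := ⟨Poly.comp (f := sf) (g := f) hsf hf, hgs, hTb, hTc, hTk, hTd⟩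
  obtain ⟨K, hK0, hK⟩ := log_bound (FnB.ppj hB).sz_le
  have hs : FnB.Spec F R qB (2 * C0) := by
    refine ⟨?_, fun t π A h => ⟨hgs' t π A h.1, hE _ _ (hgs' t π A h.1)⟩, hTb', hTc', hTk', hTd'⟩
    intro A π hπ
    obtain ⟨⟨h1, h2⟩, h3⟩ := hf' A π hπ.1
    obtain ⟨k1, k2, k3⟩ := hsf' A (f π) h1 h2
    refine ⟨k1, k2, k3.trans ?_⟩
    rw [code_length] at h3
    have := Nat.mul_le_mul_left 2 h3
    rw [Nat.mul_assoc]
    omega
  let q : FnC := ⟨qB, Tw, Tfl, Tel, rb, 2 * C0 * (K + 2) + 2⟩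
  have hp : q.IsPoly := ⟨hB, hTw, hTfl, hTel, hrb⟩
  have hq : FnC.Spec F R q (2 * C0) K := ⟨hs, hTw', hTfl', hTel', hrb', hK, rfl⟩
  exact psim_iff.2 ⟨q.out, FnC.pout hp, fun A π hπ => FnC.out_spec hq ⟨hπ, hE A π hπ⟩ hF⟩

/-- Extended Frege is p-closed under substitutions. -/
theorem ext_closedSub (F : List Rule) : ClosedUnderSubstitution (ExtProof F) := by
  rw [closedSub_iff]
  exact ⟨fun A π h => h.2, ef_subst F⟩

end Pool.Agent.H.MP_0447ec_lc.PS
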