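import Pool.Agent.H.MP_0447ec_lc.LV.SliceDefs
import Pool.Agent.H.MP_0447ec_lc.LV.Count
import Pool.Agent.H.MP_0447ec_lc.LV.Vars

/-!
# Basic facts on slices
-/

namespace Pool.Agent.H.MP_0447ec_lc.PS

open Fm Pool.Agent.H.MP_0447ec_lc.PT

/-! ### Binary codes -/

theorem numCode_length (c i : ℕ) : (numCode c i).length = c := by simp [numCode]

theorem numCode_true {c i : ℕ} (h : i + 1 < 2 ^ c) : true ∈ numCode c i := by
  by_contra hc
  have : i + 1 = 0 := by
    apply Nat.eq_of_testBit_eq
    intro k
    by_cases hk : k < c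
    · have h1 : (i + 1).testBit k ≠ true := fun e =>
        hc (List.mem_map.2 ⟨k, List.mem_range.2 hk, e⟩)
      simpa using h1
    · rw [Nat.testBit_lt_two_pow (lt_of_lt_of_le h
        (Nat.pow_le_pow_right (by norm_num) (by omega)))]
      simp
  omega

theorem numCode_inj {c i j : ℕ} (hi : i + 1 < 2 ^ c) (hj : j + 1 < 2 ^ c)
    (h : numCode c i = numCode c j) : i = j := by
  have : i + 1 = j + 1 := by
    apply Nat.eq_of_testBit_eq
    intro k
    by_cases hk : k < c
    · have h1 := congrArg (fun l : List Bool => l[k]?) h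
      simpa [numCode, hk] using h1
    · rw [Nat.testBit_lt_two_pow (lt_of_lt_of_le hi
        (Nat.pow_le_pow_right (by norm_num) (by omega))),
        Nat.testBit_lt_two_pow (lt_of_lt_of_le hj
        (Nat.pow_le_pow_right (by norm_num) (by omega)))]
  omega

/-! ### Names of registers -/

theorem regName_eq (c J : ℕ) :
    regName c J = (List.range c).map (fun k => fn 0 J (List.replicate k true)) := by
  unfold regName fn
  simp

theorem regName_length (c J : ℕ) : (regName c J).length = c := by simp [regName]

theorem mem_regs {c n : ℕ} {y : Nm} : y ∈ ((List.range n).map (regName c)).flatten ↔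
    ∃ J < n, ∃ k < c, y = fn 0 J (List.replicate k true) := by
  simp only [List.mem_flatten, List.mem_map, List.mem_range]
  constructor
  · rintro ⟨ys, ⟨j, hj, rfl⟩, hx⟩
    rw [regName_eq] at hx
    obtain ⟨k, hk, rfl⟩ := List.mem_map.1 hx
    exact ⟨j, hj, k, List.mem_range.1 hk, rfl⟩
  · rintro ⟨j, hj, k, hk, rfl⟩
    refine ⟨_, ⟨j, hj, rfl⟩, ?_⟩
    rw [regName_eq]
    exact List.mem_map_of_mem (List.mem_range.2 hk)

theorem regs_nodup (c n : ℕ) : ((List.range n).map (regName c)).flatten.Nodup := by
  rw [← List.flatMap_def, List.nodup_flatMap]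
  constructor
  · intro j _
    rw [regName_eq]
    refine List.Nodup.map ?_ List.nodup_range
    intro k k' hk
    have := congrArg List.length (fn_inj hk).2
    simpa using this
  · refine List.nodup_range.imp ?_
    intro i j hij
    rw [Function.onFun, List.disjoint_left]
    intro x hx hx'
    rw [regName_eq] at hx hx'
    obtain ⟨v, _, rfl⟩ := List.mem_map.1 hx
    obtain ⟨v', _, hv'⟩ := List.mem_map.1 hx'
    exact hij (fn_inj hv').1.symm

theorem nil_not_mem_regs (c n : ℕ) : ([] : Nm) ∉ ((List.range n).map (regName c)).flatten := by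
  rw [mem_regs]
  rintro ⟨J, -, k, -, h⟩
  have := congrArg List.length h
  have h2 := fn_length 0 J (List.replicate k true)
  rw [← this] at h2
  simp at h2

/-! ### Codes of the variables -/

/-- The codes of the variables of a formula. -/
def sac (A : Fm) : List (Nm × List Bool) :=
  (varList A).zipIdx.map (fun p => (p.1, numCode (bitLen A) p.2))

theorem mem_varList {A : Fm} {x : Nm} : x ∈ varList A ↔ x ∈ A.vars := by
  unfold varList
  rw [mem_dd, mem_nms]

theorem varList_nodup (A : Fm) : (varList A).Nodup := nodup_dd _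

theorem varList_pos (A : Fm) : 0 < (varList A).length := dd_nms_pos A

theorem sac_length (A : Fm) : (sac A).length = (varList A).length := by simp [sac]

theorem sac_fst (A : Fm) : (sac A).map Prod.fst = varList A := by
  unfold sac
  rw [List.map_map]
  have : ∀ (l : List Nm) (k : ℕ), (l.zipIdx k).map
      (Prod.fst ∘ fun p : Nm × ℕ => (p.1, numCode (bitLen A) p.2)) = l := by
    intro l
    induction l with
    | nil => intro k; rfl
    | cons a l ih => intro k; rw [List.zipIdx_cons, List.map_cons, ih]; rfl
  exact this _ 0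

theorem lt_two_pow_bitLen {A : Fm} {i : ℕ} (h : i < (varList A).length) :
    i + 1 < 2 ^ bitLen A := by
  have := Nat.lt_pow_succ_log_self (b := 2) (by norm_num) (varList A).length
  unfold bitLen
  omega

theorem mem_sac {A : Fm} {p : Nm × List Bool} (h : p ∈ sac A) :
    ∃ i, ∃ hi : i < (varList A).length, p = ((varList A)[i], numCode (bitLen A) i) := by
  unfold sac at h
  obtain ⟨q, hq, rfl⟩ := List.mem_map.1 h
  have h1 := List.mem_zipIdx hq
  refine ⟨q.2, by omega, ?_⟩
  rw [h1.2.2]
  simp

theorem sac_code {A : Fm} {p : Nm × List Bool} (h : p ∈ sac A) :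
    p.2.length = bitLen A ∧ true ∈ p.2 := by
  obtain ⟨i, hi, rfl⟩ := mem_sac h
  exact ⟨numCode_length _ _, numCode_true (lt_two_pow_bitLen hi)⟩

theorem sac_snd (A : Fm) : ((sac A).map Prod.snd).Nodup := by
  rw [List.nodup_iff_injective_get]
  intro a b h
  simp only [sac, List.map_map, List.get_eq_getElem, List.getElem_map, List.getElem_zipIdx,
    Function.comp] at h
  have ha : a.1 < (varList A).length := by
    have := a.2
    simpa [sac] using this
  have hb : b.1 < (varList A).length := by
    have := b.2
    simpa [sac] using this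
  have := numCode_inj (lt_two_pow_bitLen (by omega)) (lt_two_pow_bitLen (by omega)) h
  exact Fin.ext (by omega)

theorem sac_mem_idx {A : Fm} {x : Nm} (h : x ∈ A.vars) :
    (x, numCode (bitLen A) ((varList A).idxOf x)) ∈ sac A := by
  have h1 : (varList A).idxOf x < (varList A).length :=
    List.idxOf_lt_length_of_mem (mem_varList.2 h)
  unfold sac
  refine List.mem_map.2 ⟨(x, (varList A).idxOf x), ?_, rfl⟩
  rw [List.mem_zipIdx_iff_getElem?]
  simp only
  rw [List.getElem?_eq_getElem h1, List.getElem_idxOf]

theorem slice_eq (A : Fm) (j : ℕ) :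
    slice A j = AW [] ((List.range j).map (regName (bitLen A))) (sac A) A := by
  unfold slice AW
  apply Fm.subst_congr
  intro x hx
  symm
  refine tsub_of_mem ?_ ?_
  · exact List.mem_map_of_mem (f := fun p : Nm × List Bool =>
      (p.1, anyr [] ((List.range j).map (regName (bitLen A))) p.2)) (sac_mem_idx hx)
  · unfold regT
    rw [List.map_map]
    have h1 := varList_nodup A
    rw [← sac_fst A] at h1
    exact h1

/-! ### Polynomial time -/

theorem testBit_iter (m : ℕ) : ∀ k : ℕ, m.testBit k =
    decide (((fun m : ℕ => m / 2)^[k] m) % 2 = 1) := by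
  intro k
  induction k generalizing m with
  | zero => simp [Nat.testBit_zero]
  | succ k ih => rw [Nat.testBit_succ, ih, Function.iterate_succ_apply]

section

variable {α : Type} [Enc α]

@[fun_prop]
theorem Poly.div2 {n : α → ℕ} (hn : Poly n) : Poly (fun a => n a / 2) := by
  have : Poly (fun a => PS.cdiv (n a) 2 - 1) := by fun_prop
  refine (show (fun a => n a / 2) = _ from ?_) ▸ this
  funext a
  rw [cdiv_eq (by norm_num)]
  simp

@[fun_prop]
theorem Poly.testBit {n k : α → ℕ} (hn : Poly n) (hk : Poly k) :
    Poly (fun a => (n a).testBit (k a)) := by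
  have h1 : Poly (fun a => (fun m : ℕ => m / 2)^[k a] (n a)) := by
    refine Poly.iterate (f := fun (_ : α) (m : ℕ) => m / 2) (B := fun a => sz (n a))
      (by fun_prop) hn hk hn.sz_le ?_
    intro a j _
    have : ∀ j : ℕ, (fun m : ℕ => m / 2)^[j] (n a) ≤ n a := by
      intro j
      induction j with
      | zero => exact le_rfl
      | succ j ih =>
        rw [Function.iterate_succ_apply']
        exact (Nat.div_le_self _ _).trans ih
    rw [sz_nat, sz_nat]
    have := this j
    omega
  have h2 : Poly (fun a => decide ((fun m : ℕ => m / 2)^[k a] (n a) -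
      2 * ((fun m : ℕ => m / 2)^[k a] (n a) / 2) = 1)) :=
    Poly.nateq (Poly.sub h1 (Poly.mul (by fun_prop) (Poly.div2 h1))) (by fun_prop)
  refine (show (fun a => (n a).testBit (k a)) = _ from ?_) ▸ h2
  funext a
  rw [testBit_iter]
  congr 2
  omega

@[fun_prop]
theorem Poly.numCode {c i : α → ℕ} (hc : Poly c) (hi : Poly i) :
    Poly (fun a => numCode (c a) (i a)) := by
  unfold PS.numCode
  fun_prop

@[fun_prop]
theorem Poly.regName {c J : α → ℕ} (hc : Poly c) (hJ : Poly J) :
    Poly (fun a => regName (c a) (J a)) := by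
  simp only [regName_eq]
  fun_prop

@[fun_prop]
theorem Poly.varList {A : α → Fm} (hA : Poly A) : Poly (fun a => varList (A a)) := by
  unfold PS.varList
  fun_prop

@[fun_prop]
theorem Poly.bitLen {A : α → Fm} (hA : Poly A) : Poly (fun a => bitLen (A a)) := by
  unfold PS.bitLen
  fun_prop

@[fun_prop]
theorem Poly.sac {A : α → Fm} (hA : Poly A) : Poly (fun a => sac (A a)) := by
  unfold PS.sac
  fun_prop

@[fun_prop]
theorem Poly.slice {A : α → Fm} {j : α → ℕ} (hA : Poly A) (hj : Poly j) :
    Poly (fun a => slice (A a) (j a)) := by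
  simp only [slice_eq]
  fun_prop

@[fun_prop]
theorem Poly.negVars {A : α → Fm} (hA : Poly A) : Poly (fun a => negVars (A a)) := by
  unfold PS.negVars
  exact Poly.substOf (s := fun _ w => neg (var w)) hA (by fun_prop)

end

end Pool.Agent.H.MP_0447ec_lc.PS
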