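import Pool.Agent.H.MP_0447ec_lc.LV.SliceBasic
import Pool.Agent.H.MP_0447ec_lc.LV.Reg
import Pool.Agent.H.MP_0447ec_lc.LV.Robust

/-!
# From the permutation rule to slices
-/

namespace Pool.Agent.H.MP_0447ec_lc.PS

open Fm Pool.Agent.H.MP_0447ec_lc.PT

/-! ### Simplification -/

theorem sm_cj_true {K : List (Nm × Bool)} {d : Nm} {L : List Fm}
    (h : ∀ A ∈ L, sm K A = (some true, var [])) : sm K (cj d L) = (some true, var []) := by
  induction L with
  | nil => exact sm_ct K d true
  | cons A L ih =>
    rw [cj_cons, sm_and, h A (by simp), ih (fun B hB => h B (List.mem_cons_of_mem _ hB))]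
    rfl

theorem sm_cj_append {K : List (Nm × Bool)} {d : Nm} {L₁ L₂ : List Fm}
    (h : ∀ A ∈ L₂, sm K A = (some true, var [])) :
    sm K (cj d (L₁ ++ L₂)) = sm K (cj d L₁) := by
  induction L₁ with
  | nil => rw [List.nil_append, sm_cj_true h, cj_nil, sm_ct]
  | cons A L ih => rw [List.cons_append, cj_cons, cj_cons, sm_and, sm_and, ih]

theorem sm_eqr_pad {K : List (Nm × Bool)} {ys zs : List Nm} {u : List Bool} {c : ℕ}
    {l : List (Nm × Bool)} (hn : (l.map Prod.fst).Nodup) (hd : [] ∉ l.map Prod.fst)
    (hy : ∀ y ∈ ys, y ∉ l.map Prod.fst) (hz : ∀ z ∈ zs, (z, false) ∈ l)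
    (hu : u.length = ys.length) :
    sm K ((eqr [] (ys ++ zs) (u ++ List.replicate c false)).subst (tsub (cT l))) =
      sm K (eqr [] ys u) := by
  unfold eqr
  rw [subst_cj (tsub_cT_of_not_mem hd), List.zip_append hu.symm, List.map_append,
    List.map_append, sm_cj_append]
  · congr 2
    rw [List.map_map]
    apply List.map_congr_left
    intro p hp
    apply Fm.subst_eq_self
    intro x hx
    rw [vars_lit] at hx
    rw [hx]
    exact tsub_cT_of_not_mem (hy _ (List.of_mem_zip hp).1)
  · intro A hA
    obtain ⟨B, hB, rfl⟩ := List.mem_map.1 hA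
    obtain ⟨p, hp, rfl⟩ := List.mem_map.1 hB
    have h1 := List.of_mem_zip hp
    have h2 : p.2 = false := (List.mem_replicate.1 h1.2).2
    rw [h2]
    show sm K (neg (tsub (cT l) p.1)) = _
    rw [tsub_cT_of_mem (p := (p.1, false)) (hz _ h1.1) hn, sm_neg, sm_ct]
    rfl

/-! ### The data -/

/-- The variables that do not occur in the formula. -/
def saO (π : List Fm) : List Nm :=
  (dd (π.flatMap nms)).filter (fun x => !(decide (x ∈ nms (lastF π))))

/-- The number of new bits. -/
def saC (π : List Fm) : ℕ := Nat.log 2 (saO π).length + 1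

/-- The number of old bits. -/
def saB (π : List Fm) : ℕ := bitLen (lastF π)

/-- The registers. -/
def saR (π : List Fm) (j : ℕ) : List (List Nm) :=
  (List.range j).map (fun J => regName (saB π) J ++ regName (saC π) (j + J))

/-- The codes. -/
def saK (π : List Fm) : List (Nm × List Bool) :=
  (sac (lastF π)).map (fun p => (p.1, p.2 ++ List.replicate (saC π) false)) ++
    (saO π).zipIdx.map (fun p => (p.1, List.replicate (saB π) false ++ numCode (saC π) p.2))

/-- A bound for the number of words. -/
def saCap (π : List Fm) : ℕ := 4 * (varList (lastF π)).length * ((saO π).length + 1)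

/-- The new bits, with their final value. -/
def saL (π : List Fm) (j : ℕ) : List (Nm × Bool) :=
  (List.range j).flatMap (fun J => (regName (saC π) (j + J)).map (fun y => (y, false)))

/-- The register form of the formula. -/
def saX (π : List Fm) (j : ℕ) : Fm := (lastF π).subst (tsub (regT [] (saR π j) (saK π)))

/-- The last lines. -/
def saE (π : List Fm) (j : ℕ) : List Fm :=
  chn (saX π j) (saL π j) ++ (li0 [] (ct [] true) ((saX π j).subst (tsub (cT (saL π j))))
    (slice (lastF π) j) ++ [slice (lastF π) j])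

/-! ### Their properties -/

theorem mem_saO {π : List Fm} {x : Nm} : x ∈ saO π ↔
    (∃ C ∈ π, x ∈ C.vars) ∧ x ∉ (lastF π).vars := by
  unfold saO
  rw [List.mem_filter, mem_dd, List.mem_flatMap]
  simp only [mem_nms, Bool.not_eq_true', decide_eq_false_iff_not]

theorem saO_nodup (π : List Fm) : (saO π).Nodup := (nodup_dd _).filter _

theorem saK_fst (π : List Fm) : (saK π).map Prod.fst = varList (lastF π) ++ saO π := by
  unfold saK
  rw [List.map_append, List.map_map, List.map_map]
  congr 1
  · rw [← sac_fst]; rfl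
  · have : ∀ (l : List Nm) (k : ℕ), (l.zipIdx k).map (Prod.fst ∘ fun p : Nm × ℕ =>
        (p.1, List.replicate (saB π) false ++ numCode (saC π) p.2)) = l := by
      intro l
      induction l with
      | nil => intro k; rfl
      | cons a l ih => intro k; rw [List.zipIdx_cons, List.map_cons, ih]; rfl
    exact this _ 0

theorem saK_fst_nodup (π : List Fm) : ((saK π).map Prod.fst).Nodup := by
  rw [saK_fst, List.nodup_append]
  refine ⟨varList_nodup _, saO_nodup π, ?_⟩
  rintro x hx y hy rfl
  exact (mem_saO.1 hy).2 (mem_varList.1 hx)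

theorem lt_two_pow_saC {π : List Fm} {i : ℕ} (h : i < (saO π).length) : i + 1 < 2 ^ saC π := by
  have := Nat.lt_pow_succ_log_self (b := 2) (by norm_num) (saO π).length
  unfold saC
  omega

theorem mem_saK {π : List Fm} {p : Nm × List Bool} (h : p ∈ saK π) :
    (∃ q ∈ sac (lastF π), p = (q.1, q.2 ++ List.replicate (saC π) false)) ∨
    ∃ i < (saO π).length, p.2 = List.replicate (saB π) false ++ numCode (saC π) i := by
  unfold saK at h
  rcases List.mem_append.1 h with h | h
  · obtain ⟨q, hq, rfl⟩ := List.mem_map.1 h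
    exact Or.inl ⟨q, hq, rfl⟩
  · obtain ⟨q, hq, rfl⟩ := List.mem_map.1 h
    have h1 := List.mem_zipIdx hq
    exact Or.inr ⟨q.2, by omega, rfl⟩

theorem saK_len {π : List Fm} {p : Nm × List Bool} (h : p ∈ saK π) :
    p.2.length = saB π + saC π := by
  rcases mem_saK h with ⟨q, hq, rfl⟩ | ⟨i, hi, e⟩
  · rw [List.length_append, (sac_code hq).1, List.length_replicate]; rfl
  · rw [e, List.length_append, numCode_length, List.length_replicate]

theorem saK_snd_nodup (π : List Fm) : ((saK π).map Prod.snd).Nodup := by
  unfold saK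
  rw [List.map_append, List.map_map, List.map_map, List.nodup_append]
  refine ⟨?_, ?_, ?_⟩
  · have e : (sac (lastF π)).map (Prod.snd ∘ fun p : Nm × List Bool =>
        (p.1, p.2 ++ List.replicate (saC π) false)) =
        ((sac (lastF π)).map Prod.snd).map (fun u => u ++ List.replicate (saC π) false) := by
      rw [List.map_map]; rfl
    rw [e]
    exact (sac_snd _).map (fun u u' hu => List.append_cancel_right hu)
  · have e : (saO π).zipIdx.map (Prod.snd ∘ fun p : Nm × ℕ =>
        (p.1, List.replicate (saB π) false ++ numCode (saC π) p.2)) =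
        (List.range (saO π).length).map (fun i =>
          List.replicate (saB π) false ++ numCode (saC π) i) := by
      have h1 : (List.range (saO π).length) = (saO π).zipIdx.map Prod.snd := by
        rw [List.zipIdx_map_snd, List.range_eq_range']
      rw [h1, List.map_map]
      rfl
    rw [e]
    refine List.Nodup.map_on ?_ List.nodup_range
    intro i hi i' hi' h
    rw [List.mem_range] at hi hi'
    exact numCode_inj (lt_two_pow_saC hi) (lt_two_pow_saC hi') (List.append_cancel_left h)
  · rintro x hx y hy rfl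
    obtain ⟨p, hp, h1⟩ := List.mem_map.1 hx
    obtain ⟨q, hq, h2⟩ := List.mem_map.1 hy
    have e1 : p.2 ++ List.replicate (saC π) false =
        List.replicate (saB π) false ++ numCode (saC π) q.2 := by
      have e3 : p.2 ++ List.replicate (saC π) false = x := h1
      have e4 : List.replicate (saB π) false ++ numCode (saC π) q.2 = x := h2
      rw [e3, e4]
    have e2 := (List.append_inj e1 (by
      rw [(sac_code hp).1, List.length_replicate]; rfl)).1
    have e3 := (sac_code hp).2
    rw [e2] at e3
    exact absurd (List.mem_replicate.1 e3).2 (by simp)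

theorem mem_regName {c J : ℕ} {y : Nm} (h : y ∈ regName c J) :
    ∃ k, y = fn 0 J (List.replicate k true) := by
  rw [regName_eq] at h
  obtain ⟨k, -, rfl⟩ := List.mem_map.1 h
  exact ⟨k, rfl⟩

theorem regName_nodup (c J : ℕ) : (regName c J).Nodup := by
  rw [regName_eq]
  refine List.Nodup.map ?_ List.nodup_range
  intro k k' hk
  have := congrArg List.length (fn_inj hk).2
  simpa using this

theorem regName_disj {c c' J J' : ℕ} (h : J ≠ J') {y : Nm} (h1 : y ∈ regName c J)
    (h2 : y ∈ regName c' J') : False := by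
  obtain ⟨k, rfl⟩ := mem_regName h1
  obtain ⟨k', e⟩ := mem_regName h2
  exact h (fn_inj e).1

theorem nil_not_mem_regName {c J : ℕ} : ([] : Nm) ∉ regName c J := by
  intro h
  obtain ⟨k, e⟩ := mem_regName h
  have h1 := fn_length 0 J (List.replicate k true)
  rw [← e] at h1
  simp at h1

theorem mem_saR {π : List Fm} {j : ℕ} {y : Nm} : y ∈ (saR π j).flatten ↔
    ∃ J < j, y ∈ regName (saB π) J ∨ y ∈ regName (saC π) (j + J) := by
  unfold saR
  simp only [List.mem_flatten, List.mem_map, List.mem_range]
  constructor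
  · rintro ⟨ys, ⟨J, hJ, rfl⟩, hy⟩
    exact ⟨J, hJ, List.mem_append.1 hy⟩
  · rintro ⟨J, hJ, hy⟩
    exact ⟨_, ⟨J, hJ, rfl⟩, List.mem_append.2 hy⟩

theorem saR_nodup (π : List Fm) (j : ℕ) : (saR π j).flatten.Nodup := by
  unfold saR
  rw [← List.flatMap_def, List.nodup_flatMap]
  constructor
  · intro J hJ
    rw [List.mem_range] at hJ
    rw [List.nodup_append]
    refine ⟨regName_nodup _ _, regName_nodup _ _, ?_⟩
    rintro x hx y hy rfl
    exact regName_disj (by omega) hx hy
  · refine (List.nodup_range (n := j)).pairwise_of_forall_ne ?_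
    intro a ha b hb hab
    rw [List.mem_range] at ha hb
    rw [Function.onFun, List.disjoint_left]
    intro x hx hx'
    rcases List.mem_append.1 hx with h1 | h1 <;> rcases List.mem_append.1 hx' with h2 | h2
    · exact regName_disj hab h1 h2
    · exact regName_disj (by omega) h1 h2
    · exact regName_disj (by omega) h1 h2
    · exact regName_disj (by omega) h1 h2

theorem nil_not_mem_saR (π : List Fm) (j : ℕ) : ([] : Nm) ∉ (saR π j).flatten := by
  rw [mem_saR]
  rintro ⟨J, -, h | h⟩
  · exact nil_not_mem_regName h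
  · exact nil_not_mem_regName h

theorem saR_len {π : List Fm} {j : ℕ} {ys : List Nm} (h : ys ∈ saR π j) :
    ys.length = saB π + saC π := by
  obtain ⟨J, -, rfl⟩ := List.mem_map.1 h
  rw [List.length_append, regName_length, regName_length]

theorem saCap_spec (π : List Fm) : 2 ^ (saB π + saC π) ≤ saCap π := by
  have h1 : 2 ^ saB π ≤ 2 * (varList (lastF π)).length := by
    unfold saB bitLen
    rw [pow_succ]
    have := Nat.pow_log_le_self 2 (x := (varList (lastF π)).length)
      (by have := varList_pos (lastF π); omega)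
    omega
  have h2 : 2 ^ saC π ≤ 2 * ((saO π).length + 1) := by
    unfold saC
    rw [pow_succ]
    rcases Nat.eq_zero_or_pos (saO π).length with h | h
    · rw [h]; simp
    · have := Nat.pow_log_le_self 2 (x := (saO π).length) (by omega)
      omega
  rw [pow_add]
  unfold saCap
  calc 2 ^ saB π * 2 ^ saC π ≤ (2 * (varList (lastF π)).length) * (2 * ((saO π).length + 1)) :=
        Nat.mul_le_mul h1 h2
    _ = _ := by ring

theorem saL_fst (π : List Fm) (j : ℕ) : (saL π j).map Prod.fst =
    (List.range j).flatMap (fun J => regName (saC π) (j + J)) := by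
  unfold saL
  rw [List.map_flatMap]
  congr 1
  funext J
  rw [List.map_map]
  exact List.map_id'' (fun _ => rfl) _

theorem mem_saL_fst {π : List Fm} {j : ℕ} {y : Nm} : y ∈ (saL π j).map Prod.fst ↔
    ∃ J < j, y ∈ regName (saC π) (j + J) := by
  rw [saL_fst]
  simp only [List.mem_flatMap, List.mem_range]

theorem saL_nodup (π : List Fm) (j : ℕ) : ((saL π j).map Prod.fst).Nodup := by
  rw [saL_fst, List.nodup_flatMap]
  constructor
  · intro J _
    exact regName_nodup _ _
  · refine List.nodup_range.imp ?_
    intro a b hab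
    rw [Function.onFun, List.disjoint_left]
    intro x hx hx'
    exact regName_disj (by omega) hx hx'

theorem mem_saL {π : List Fm} {j J : ℕ} (hJ : J < j) {z : Nm} (hz : z ∈ regName (saC π) (j + J)) :
    (z, false) ∈ saL π j := by
  unfold saL
  exact List.mem_flatMap.2 ⟨J, List.mem_range.2 hJ,
    List.mem_map_of_mem (f := fun y : Nm => (y, false)) hz⟩

theorem sm_saX {K : List (Nm × Bool)} (π : List Fm) (j : ℕ) :
    sm K ((saX π j).subst (tsub (cT (saL π j)))) = sm K (slice (lastF π) j) := by
  unfold saX slice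
  rw [Fm.subst_subst]
  apply sm_subst
  intro x hx
  have h1 : (x, numCode (bitLen (lastF π)) ((varList (lastF π)).idxOf x) ++
      List.replicate (saC π) false) ∈ saK π := by
    unfold saK
    exact List.mem_append_left _ (List.mem_map_of_mem (f := fun p : Nm × List Bool =>
      (p.1, p.2 ++ List.replicate (saC π) false)) (sac_mem_idx hx))
  have h2 : tsub (regT [] (saR π j) (saK π)) x = anyr [] (saR π j)
      (numCode (bitLen (lastF π)) ((varList (lastF π)).idxOf x) ++
      List.replicate (saC π) false) := by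
    apply tsub_of_mem
    · exact List.mem_map_of_mem (f := fun p : Nm × List Bool =>
        (p.1, anyr [] (saR π j) p.2)) h1
    · unfold regT
      rw [List.map_map]
      exact saK_fst_nodup π
  rw [h2]
  unfold anyr saR
  have hd : ([] : Nm) ∉ (saL π j).map Prod.fst := by
    rw [mem_saL_fst]
    rintro ⟨J, -, h⟩
    exact nil_not_mem_regName h
  rw [subst_dj (tsub_cT_of_not_mem hd)]
  apply sm_dj_congr
  simp only [List.map_map]
  apply List.map_congr_left
  intro J hJ
  rw [List.mem_range] at hJ
  simp only [Function.comp_apply]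
  refine sm_eqr_pad (saL_nodup π j) hd ?_ (fun z hz => mem_saL hJ hz) ?_
  · intro y hy hc
    obtain ⟨J', hJ', h⟩ := mem_saL_fst.1 hc
    exact regName_disj (by omega) hy h
  · rw [numCode_length, regName_length]; rfl

/-! ### Bounds -/

theorem saO_length (π : List Fm) : (saO π).length ≤ sz π := by
  have h1 : (saO π).length ≤ (π.flatMap nms).length :=
    (List.length_filter_le _ _).trans (dd_sublist _).length_le
  have h2 : sz (π.flatMap nms) ≤ sz π := by
    induction π with
    | nil => exact le_rfl
    | cons A π ih =>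
      have h3 := sz_append (nms A) (π.flatMap nms)
      have h4 := sz_nms_le A
      have h5 := ih (by
        unfold saO at h1 ⊢
        exact (List.length_filter_le _ _).trans (dd_sublist _).length_le)
      rw [List.flatMap_cons, sz_lcons]
      omega
  have h3 := length_lt_sz (π.flatMap nms)
  omega

theorem varList_length_le {π : List Fm} {A : Fm} (hA : A ∈ π) : (varList A).length ≤ sz π := by
  have h1 : (varList A).length ≤ (nms A).length := (dd_sublist _).length_le
  have h2 := length_lt_sz (nms A)
  have h3 := sz_nms_le A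
  have h4 := sz_mem_lt hA
  omega

theorem saB_le {π : List Fm} {A : Fm} (hA : π.getLast? = some A) :
    saB π ≤ Nat.log 2 (sz π) + 1 := by
  unfold saB bitLen
  rw [lastF_eq hA]
  exact Nat.add_le_add_right (Nat.log_mono_right (varList_length_le (List.mem_of_getLast? hA))) 1

theorem saC_le (π : List Fm) : saC π ≤ Nat.log 2 (sz π) + 1 :=
  Nat.add_le_add_right (Nat.log_mono_right (saO_length π)) 1

theorem saR_length (π : List Fm) (j : ℕ) : (saR π j).flatten.length = j * (saB π + saC π) := by
  have key : ∀ (l : List (List Nm)) (c : ℕ), (∀ ys ∈ l, ys.length = c) →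
      l.flatten.length = l.length * c := by
    intro l c h
    induction l with
    | nil => simp
    | cons a l ih =>
      rw [List.flatten_cons, List.length_append,
        ih (fun ys hy => h ys (List.mem_cons_of_mem _ hy)), h a (by simp), List.length_cons]
      ring
  rw [key _ _ (fun ys hy => saR_len hy)]
  simp [saR]

/-! ### Variables -/

theorem saL_sub {π : List Fm} {j : ℕ} {y : Nm} (h : y ∈ (saL π j).map Prod.fst) :
    y ∈ (saR π j).flatten := by
  obtain ⟨J, hJ, h1⟩ := mem_saL_fst.1 h
  exact mem_saR.2 ⟨J, hJ, Or.inr h1⟩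

theorem saX_vars {π : List Fm} {j : ℕ} {x : Nm}
    (h : x ∈ (saX π j).vars) : x = [] ∨ x ∈ (saR π j).flatten := by
  unfold saX at h
  obtain ⟨w, hw, hx⟩ := vars_subst h
  rw [tsub_regT (saK_fst_nodup π) (by
    rw [saK_fst, List.mem_append]
    exact Or.inl (mem_varList.2 hw)), ← regF_nil_left (f := id)] at hx
  exact regF_vars hx

theorem slice_vars {π : List Fm} {j : ℕ} {x : Nm}
    (h : x ∈ (slice (lastF π) j).vars) : x = [] ∨ x ∈ (saR π j).flatten := by
  unfold slice at h
  obtain ⟨w, hw, hx⟩ := vars_subst h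
  unfold anyr at hx
  rw [vars_dj] at hx
  rcases hx with hx | ⟨B, hB, hx⟩
  · exact Or.inl hx
  · obtain ⟨ys, hys, rfl⟩ := List.mem_map.1 hB
    obtain ⟨J, hJ, rfl⟩ := List.mem_map.1 hys
    rcases vars_eqr hx with h1 | h1
    · exact Or.inl h1
    · exact Or.inr (mem_saR.2 ⟨J, List.mem_range.1 hJ, Or.inl h1⟩)

theorem saE_vars {π : List Fm} {j : ℕ} {C : Fm}
    (hC : C ∈ saE π j) {x : Nm} (hx : x ∈ C.vars) : x = [] ∨ x ∈ (saR π j).flatten := by
  unfold saE at hC
  rcases List.mem_append.1 hC with hC | hC
  · rcases chn_vars hC hx with h | h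
    · exact saX_vars h
    · exact Or.inr (saL_sub h)
  · rcases List.mem_append.1 hC with hC | hC
    · rcases li0_vars hC hx with h | h | h | h
      · exact Or.inl h
      · exact Or.inl (vars_ct.1 h)
      · rcases subst_cT_vars h with h | h
        · exact saX_vars h
        · exact Or.inr (saL_sub h)
      · exact slice_vars h
    · rw [List.mem_singleton] at hC
      subst hC
      exact slice_vars hx

/-! ### The last lines -/

theorem saE_just {G : List Rule} (hG : Rich (GG G)) {π τ : List Fm} {j : ℕ}
    (h : saX π j ∈ τ) :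
    Just (GC (GG G)) τ (saE π j) ∧ slice (lastF π) j ∈ saE π j := by
  obtain ⟨h1, h2⟩ := chn_just (G := GG G) (saL_nodup π j) h
  obtain ⟨h3, h4⟩ := li0_just hG (d := []) (H := ct [] true)
    (B := slice (lastF π) j) h2 (sm_saX π j)
  refine ⟨?_, ?_⟩
  · unfold saE
    refine Just.append h1 (Just.append (h3.imp_step (fun σ B hB => Or.inl hB)) ?_)
    exact ⟨Or.inr (Or.inl (hG.strip (H := var []) (List.mem_append_right _ h4))), trivial⟩
  · unfold saE
    exact List.mem_append_right _ (List.mem_append_right _ (List.mem_singleton.2 rfl))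

/-! ### The algorithm -/

/-- The functions that are used. -/
structure FnA where
  /-- registers -/
  Tr : Nm × List (List Nm) × List (Nm × List Bool) × List (List Bool) × List Fm → List Fm
  /-- words -/
  Tw : ℕ × ℕ → List (List Bool)
  /-- change of the rules -/
  rb : List Fm → List Fm

namespace FnA

variable (q : FnA)

def W (π : List Fm) : List (List Bool) := q.Tw (saCap π, saB π + saC π)
def out1 (x : List Fm × ℕ) : List Fm := q.Tr ([], saR x.1 x.2, saK x.1, q.W x.1, x.1)
def out2 (x : List Fm × ℕ) : List Fm :=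
  cutAt (slice (lastF x.1) x.2) (app [] (q.out1 x ++ saE x.1 x.2))
def out (x : List Fm × ℕ) : List Fm := q.rb (q.out2 x)

structure IsPoly : Prop where
  hTr : Poly q.Tr
  hTw : Poly q.Tw
  hrb : Poly q.rb

theorem psaO : Poly saO := by
  have e1 : Poly (fun p : List Fm × Nm => nms (lastF p.1)) := by fun_prop
  have e2 : Poly (fun π : List Fm => dd (π.flatMap nms)) := by fun_prop
  unfold saO
  exact PT.Poly.filter (f := fun (π : List Fm) (x : Nm) => !(decide (x ∈ nms (lastF π))))
    (Poly.not (Poly.decMem (by fun_prop) e1)) e2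
theorem psaC : Poly saC := by
  have := psaO
  unfold saC; fun_prop
theorem psaB : Poly saB := by
  unfold saB; fun_prop
theorem psaR : Poly (fun x : List Fm × ℕ => saR x.1 x.2) := by
  have h1 := psaB
  have h2 := psaC
  unfold saR; fun_prop
theorem psaK : Poly saK := by
  have h1 := psaB
  have h2 := psaC
  have h3 := psaO
  unfold saK; fun_prop
theorem psaCap : Poly saCap := by
  have h3 := psaO
  unfold saCap; fun_prop
theorem psaL : Poly (fun x : List Fm × ℕ => saL x.1 x.2) := by
  have h2 := psaC
  unfold saL; fun_prop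
theorem psaX : Poly (fun x : List Fm × ℕ => saX x.1 x.2) := by
  have h1 := psaR
  have h2 : Poly (fun x : List Fm × ℕ => regT ([] : Nm) (saR x.1 x.2) (saK x.1)) := by
    have := psaK
    exact Poly.regT (by fun_prop) h1 (by fun_prop)
  unfold saX
  exact Poly.substT h2 (by fun_prop)
theorem psaE : Poly (fun x : List Fm × ℕ => saE x.1 x.2) := by
  have h1 := psaX
  have h2 := psaL
  have h3 : Poly (fun x : List Fm × ℕ => (saX x.1 x.2).subst (tsub (cT (saL x.1 x.2)))) :=
    Poly.substT (Poly.cT h2) h1
  have h4 : Poly (fun x : List Fm × ℕ => slice (lastF x.1) x.2) := by fun_prop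
  unfold saE
  exact Poly.append (Poly.chn h1 h2) (Poly.append (Poly.li0 (by fun_prop) (by fun_prop) h3 h4)
    (by fun_prop))

variable {q}

theorem pW (h : q.IsPoly) : Poly q.W := by
  have := psaB; have := psaC; have := psaCap; have := h.hTw
  unfold W; fun_prop
theorem pout1 (h : q.IsPoly) : Poly q.out1 := by
  have h1 := psaR
  have h2 := psaK
  have h3 := pW h
  have h4 := h.hTr
  have h5 : Poly (fun x : List Fm × ℕ =>
      (([] : Nm), saR x.1 x.2, saK x.1, q.W x.1, x.1)) :=
    Poly.pair (by fun_prop) (Poly.pair h1 (by fun_prop))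
  exact Poly.comp (f := q.Tr) h4 h5
theorem pout2 (h : q.IsPoly) : Poly q.out2 := by
  have h1 := pout1 h
  have h2 := psaE
  unfold out2
  exact Poly.cutAt (by fun_prop) (Poly.app (by fun_prop) (Poly.append h1 h2))
theorem pout (h : q.IsPoly) : Poly q.out := by
  have h1 := pout2 h
  have h2 := h.hrb
  unfold out
  exact Poly.comp (f := q.rb) h2 h1

end FnA

/-- A proof of `A` with the permutation rule gives proofs with few variables of all slices of
`A`. -/
theorem sliceA {F : List Rule} (hF : IsFrege F) :
    ∃ (C : ℕ) (g : List Fm × ℕ → List Fm), PT.Poly g ∧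
    ∀ (A : Fm) (π : List Fm) (j : ℕ), 0 < j → PermProof F A π →
      SubstProof F (slice A j) (g (π, j)) ∧
      numVars (g (π, j)) ≤ C * j * (Nat.log 2 (PT.sz π) + 1) := by
  obtain ⟨Tr, hTr, hTr'⟩ := reg_main F
  obtain ⟨Tw, hTw, hTw'⟩ := words_main
  obtain ⟨rb, hrb, hrb'⟩ := robust hF (GG_sound hF)
  let q : FnA := ⟨Tr, Tw, rb⟩
  have hp : q.IsPoly := ⟨hTr, hTw, hrb⟩
  refine ⟨3, q.out, FnA.pout hp, ?_⟩
  intro A π j hj hπ
  have hlast : lastF π = A := lastF_eq hπ.2
  have hW := (hTw' (saCap π) (saB π + saC π) (saCap_spec π)).2.2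
  obtain ⟨r1, r2, r3⟩ := hTr' [] (saR π j) (saK π) (q.W π) (saB π + saC π) π hW
    (fun ys hy => saR_len hy) (saR_nodup π j) (nil_not_mem_saR π j) (saK_fst_nodup π)
    (saK_snd_nodup π) (fun p hp => saK_len hp) hπ.1
    (by
      intro C hC x hx
      rw [saK_fst, List.mem_append, hlast, mem_varList]
      by_cases h : x ∈ A.vars
      · exact Or.inl h
      · exact Or.inr (mem_saO.2 ⟨⟨C, hC, hx⟩, by rw [hlast]; exact h⟩)) []
  have hm : saX π j ∈ [] ++ q.out1 (π, j) := by
    have h1 := r2 _ (List.mem_of_getLast? hπ.2)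
    unfold saX
    rw [hlast, List.nil_append]
    exact h1
  obtain ⟨e1, e2⟩ := saE_just (GG_rich F) hm
  have jj : Just (GC (GG F)) [] (q.out1 (π, j) ++ saE π j) := Just.append r1 e1
  have hD := deriv_app (mono_GC (GG F)) Deriv.nil jj
  have hA : slice (lastF π) j ∈ app [] (q.out1 (π, j) ++ saE π j) :=
    mem_app.2 (Or.inr (List.mem_append_right _ e2))
  obtain ⟨c1, c2⟩ := deriv_cutAt hD hA
  have c1' : Deriv (fun σ B => RuleStep (GG F) σ B ∨ SubstStep σ B) (q.out2 (π, j)) := by
    refine Deriv.imp_step c1 ?_
    intro σ B hB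
    exact hB.imp (fun h => h) (fun h => h.subst)
  obtain ⟨t1, t2, t3⟩ := hrb' SubstStep mono_substStep (q.out2 (π, j)) (slice (lastF π) j) c1' c2
  refine ⟨⟨t1, by rw [← hlast]; exact t2⟩, ?_⟩
  have hv : ∀ C ∈ q.out2 (π, j), ∀ x ∈ C.vars, x ∈ [] :: (saR π j).flatten := by
    intro C hC x hx
    have hC' : C ∈ q.out1 (π, j) ∨ C ∈ saE π j := by
      have : C ∈ app [] (q.out1 (π, j) ++ saE π j) := by
        unfold FnA.out2 cutAt at hC
        rcases List.mem_append.1 hC with hC | hC
        · exact (List.takeWhile_prefix _).subset hC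
        · rw [List.mem_singleton] at hC
          rw [hC]; exact hA
      simpa using mem_app.1 this
    rw [List.mem_cons]
    rcases hC' with hC' | hC'
    · exact r3 C hC' x hx
    · exact saE_vars hC' hx
  have n1 : numVars (q.out (π, j)) ≤ numVars (q.out2 (π, j)) := numVars_mono t3
  have n2 := numVars_le_length hv
  rw [List.length_cons, saR_length] at n2
  have n3 := saB_le hπ.2
  have n4 := saC_le π
  have n5 : j * (saB π + saC π) ≤ j * (2 * (Nat.log 2 (sz π) + 1)) :=
    Nat.mul_le_mul_left _ (by omega)
  have n6 : 1 ≤ j * (Nat.log 2 (sz π) + 1) := Nat.mul_pos hj (by omega)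
  calc numVars (q.out (π, j)) ≤ j * (2 * (Nat.log 2 (sz π) + 1)) + j * (Nat.log 2 (sz π) + 1) := by
        omega
    _ = 3 * j * (Nat.log 2 (sz π) + 1) := by ring

end Pool.Agent.H.MP_0447ec_lc.PS
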