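import Pool.Agent.H.MP_0447ec_lc.LV.BwB1

/-!
# Substitution Frege proofs with few variables give extended Frege proofs of small bandwidth
-/

namespace Pool.Agent.H.MP_0447ec_lc.PS

open Fm Pool.Agent.H.MP_0447ec_lc.PT

section poly

variable {α : Type} [Enc α]

@[fun_prop]
theorem Poly.nwS {pre : α → List Fm} {B : α → Fm} (hp : Poly pre) (hB : Poly B) :
    Poly (fun a => nwS (pre a) (B a)) := by
  unfold PS.nwS
  have e1 : PT.Poly (fun p : α × Fm => p.2.subst (PS.tsub (PS.sfMT p.2 (B p.1)))) :=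
    Poly.tsubst (by fun_prop) (by fun_prop)
  have e2 : PT.Poly (fun p : α × Fm =>
      decide (p.2.subst (PS.tsub (PS.sfMT p.2 (B p.1))) = B p.1)) := by
    fun_prop
  have e3 : PT.Poly (fun a => (pre a).filter
      (fun C => decide (C.subst (PS.tsub (PS.sfMT C (B a))) = B a))) :=
    PT.Poly.filter e2 hp
  fun_prop

@[fun_prop]
theorem Poly.nwT {pre : α → List Fm} {B : α → Fm} (hp : Poly pre) (hB : Poly B) :
    Poly (fun a => nwT (pre a) (B a)) := by
  unfold PS.nwT
  fun_prop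

@[fun_prop]
theorem Poly.nwN {π : α → List Fm} (hπ : Poly π) : Poly (fun a => nwN (π a)) := by
  unfold PS.nwN
  fun_prop

theorem sz_nwP (y : Nm) (l : List (Fm × List (Nm × Fm))) :
    sz (nwP y l) ≤ (sz y + 60) * sz l + 2 * sz l := by
  induction l with
  | nil =>
    simp only [nwP, List.foldr_nil, sz_var, sz_lnil]
    omega
  | cons p l ih =>
    have e : nwP y (p :: l) = Fm.or (Fm.and (neg p.1) (tsub p.2 y)) (Fm.and p.1 (nwP y l)) := rfl
    have h1 := sz_tsub p.2 y
    have h2 := sz_prod p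
    have h3 := sz_pos p.2
    rw [e, sz_or, sz_and, sz_and, sz_neg, sz_lcons, h2]
    have h4 : sz y + 60 ≤ (sz y + 60) * (sz p.1 + sz p.2 + 1 + 1) := Nat.le_mul_of_pos_right _
      (by omega)
    have h5 : (sz y + 60) * (sz p.1 + sz p.2 + 1 + sz l + 1) =
      (sz y + 60) * (sz p.1 + sz p.2 + 1 + 1) + (sz y + 60) * sz l := by ring
    rw [h5]
    omega

@[fun_prop]
theorem Poly.nwP {y : α → Nm} {l : α → List (Fm × List (Nm × Fm))} (hy : Poly y)
    (hl : Poly l) : Poly (fun a => nwP (y a) (l a)) := by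
  unfold PS.nwP
  refine Poly.foldr (f := fun p : α × Fm × (Fm × List (Nm × Fm)) =>
      Fm.or (Fm.and (neg p.2.2.1) (PS.tsub p.2.2.2 (y p.1))) (Fm.and p.2.2.1 p.2.1))
    (l := l) (s0 := fun a => var (y a)) (B := fun a => (sz (y a) + 60) * sz (l a) + 2 * sz (l a))
    (by fun_prop) hl (by fun_prop)
    (((hy.sz_le.add (PBdd.const 60)).mul hl.sz_le).add ((PBdd.const 2).mul hl.sz_le)) ?_
  intro a l₁ l₂ h
  have h1 := sz_nwP (y a) l₂
  have h2 : sz l₂ ≤ sz (l a) := by
    rw [h]; exact sz_sublist_le (List.sublist_append_right _ _)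
  have h3 : (sz (y a) + 60) * sz l₂ ≤ (sz (y a) + 60) * sz (l a) := Nat.mul_le_mul_left _ h2
  have h4 : l₂.foldr (fun b s => (fun p : α × Fm × (Fm × List (Nm × Fm)) =>
      Fm.or (Fm.and (neg p.2.2.1) (PS.tsub p.2.2.2 (y p.1))) (Fm.and p.2.2.1 p.2.1))
      (a, s, b)) (var (y a)) = PS.nwP (y a) l₂ := rfl
  rw [h4]
  omega

@[fun_prop]
theorem Poly.nwRn {L t : α → ℕ} {y : α → Nm} (hL : Poly L) (ht : Poly t) (hy : Poly y) :
    Poly (fun a => nwRn (L a) (t a) (y a)) := by
  unfold PS.nwRn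
  fun_prop

@[fun_prop]
theorem Poly.nwRnSub {L t : α → ℕ} {G : α → Fm} (hL : Poly L) (ht : Poly t) (hG : Poly G) :
    Poly (fun a => (G a).subst (PS.nwRn (L a) (t a))) :=
  Poly.substP (s := fun a => PS.nwRn (L a) (t a)) (by fun_prop) hG

@[fun_prop]
theorem Poly.nwTl {β : Type} [Enc β] {l : α → List β} (hl : Poly l) :
    Poly (fun a => nwTl (l a)) := by
  unfold PS.nwTl
  fun_prop

@[fun_prop]
theorem Poly.nwE {L t : α → ℕ} {K Z : α → Fm} {y : α → Nm}
    {l : α → List (Fm × List (Nm × Fm))} (hL : Poly L) (ht : Poly t) (hK : Poly K)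
    (hZ : Poly Z) (hy : Poly y) (hl : Poly l) :
    Poly (fun a => nwE (L a) (t a) (K a) (Z a) (y a) (l a)) := by
  unfold PS.nwE
  fun_prop

@[fun_prop]
theorem Poly.nwCh {L t : α → ℕ} {K Z : α → Fm} {y : α → Nm}
    {l1 tl : α → List (Fm × List (Nm × Fm))} (hL : Poly L) (ht : Poly t) (hK : Poly K)
    (hZ : Poly Z) (hy : Poly y) (hl : Poly l1) (htl : Poly tl) :
    Poly (fun a => nwCh (L a) (t a) (K a) (Z a) (y a) (l1 a) (tl a)) := by
  unfold PS.nwCh
  fun_prop

@[fun_prop]
theorem Poly.nwC {L t : α → ℕ} {l1 tl : α → List (Fm × List (Nm × Fm))}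
    {p : α → Fm × List (Nm × Fm)} {C : α → Fm} (hL : Poly L) (ht : Poly t)
    (hl : Poly l1) (hp : Poly p) (htl : Poly tl) (hC : Poly C) :
    Poly (fun a => nwC (L a) (t a) (l1 a) (p a) (tl a) (C a)) := by
  unfold PS.nwC
  refine Poly.append (by fun_prop) ?_
  exact Poly.replL (H := fun a => neg ((p a).1.subst (PS.nwRn (L a) (t a))))
    (s := fun a => PS.nwRn (L a) (t a + 1))
    (t := fun a y => (PS.tsub (p a).2 y).subst (PS.nwRn (L a) (t a)))
    (by fun_prop) hC (by fun_prop) (by fun_prop)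

@[fun_prop]
theorem Poly.nwM {L t m : α → ℕ} {nd : α → List (Fm × List (Nm × Fm))} (hL : Poly L)
    (ht : Poly t) (hnd : Poly nd) (hm : Poly m) :
    Poly (fun a => nwM (L a) (t a) (nd a) (m a)) := by
  unfold PS.nwM
  fun_prop

@[fun_prop]
theorem Poly.nwB {L t k : α → ℕ} {nd : α → List (Fm × List (Nm × Fm))} (hL : Poly L)
    (ht : Poly t) (hnd : Poly nd) (hk : Poly k) :
    Poly (fun a => nwB (L a) (t a) (nd a) (k a)) := by
  unfold PS.nwB
  fun_prop

@[fun_prop]
theorem Poly.nwZ {A : α → Fm} {y : α → Nm} (hA : Poly A) (hy : Poly y) :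
    Poly (fun a => nwZ (A a) (y a)) := by
  unfold PS.nwZ
  fun_prop

@[fun_prop]
theorem Poly.nwXz {L : α → ℕ} {A : α → Fm} {y : α → Nm} (hL : Poly L) (hA : Poly A)
    (hy : Poly y) : Poly (fun a => nwXz (L a) (A a) (y a)) := by
  unfold PS.nwXz
  fun_prop

@[fun_prop]
theorem Poly.nwX {L t : α → ℕ} {nd : α → List (Fm × List (Nm × Fm))} {y : α → Nm}
    (hL : Poly L) (ht : Poly t) (hnd : Poly nd) (hy : Poly y) :
    Poly (fun a => nwX (L a) (t a) (nd a) (y a)) := by
  unfold PS.nwX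
  fun_prop

@[fun_prop]
theorem Poly.nwXs {L n : α → ℕ} {A : α → Fm} {nd : α → List (Fm × List (Nm × Fm))}
    {ys : α → List Nm} (hL : Poly L) (hA : Poly A) (hnd : Poly nd) (hys : Poly ys)
    (hn : Poly n) : Poly (fun a => nwXs (L a) (A a) (nd a) (ys a) (n a)) := by
  unfold PS.nwXs
  fun_prop

@[fun_prop]
theorem Poly.nwSg {L j : α → ℕ} {π : α → List Fm} {nd : α → List (Fm × List (Nm × Fm))}
    {ys : α → List Nm} (hL : Poly L) (hπ : Poly π) (hnd : Poly nd) (hys : Poly ys)
    (hj : Poly j) : Poly (fun a => nwSg (L a) (π a) (nd a) (ys a) (j a)) := by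
  unfold PS.nwSg
  fun_prop

@[fun_prop]
theorem Poly.nwTa {L j : α → ℕ} {π : α → List Fm} {nd : α → List (Fm × List (Nm × Fm))}
    (hL : Poly L) (hπ : Poly π) (hnd : Poly nd) (hj : Poly j) :
    Poly (fun a => nwTa (L a) (π a) (nd a) (j a)) := by
  unfold PS.nwTa
  fun_prop

@[fun_prop]
theorem Poly.nwSf {L : α → ℕ} {A : α → Fm} {ys : α → List Nm} (hL : Poly L) (hA : Poly A)
    (hys : Poly ys) : Poly (fun a => nwSf (L a) (A a) (ys a)) := by
  unfold PS.nwSf
  fun_prop

@[fun_prop]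
theorem Poly.nwTf {L : α → ℕ} {A : α → Fm} (hL : Poly L) (hA : Poly A) :
    Poly (fun a => nwTf (L a) (A a)) := by
  unfold PS.nwTf
  refine Poly.append (by fun_prop) (Poly.append ?_ (by fun_prop))
  exact Poly.replL (H := fun a => PS.ct ((PS.nms (A a)).headD []) true)
    (s := fun a => PS.nwRn (L a) 0) (t := fun _ y => var y)
    (by fun_prop) hA (by fun_prop) (by fun_prop)

end poly

/-- A substitution Frege proof with `v` variables is turned, in polynomial time, into an extended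
Frege proof of bandwidth `2 * v`. -/
theorem subst_to_narrow {F : List Rule} (hF : IsFrege F) :
    ∃ g : List Fm → List Fm, Poly g ∧ ∀ (A : Fm) (π : List Fm), SubstProof F A π →
      NarrowProof F A (2 * numVars π) (g π) := by
  obtain ⟨h, hP, hh⟩ := robust_hyp hF (nwG_sound hF)
  refine ⟨fun π => cutAt (lastF π) (app (nwXs (lenB π) (lastF π) (nwN π) (dd (π.flatMap nms))
    π.length) ((List.range π.length).flatMap (fun i =>
      h (nwSg (lenB π) π (nwN π) (dd (π.flatMap nms)) i, nwTa (lenB π) π (nwN π) i)) ++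
      h (nwSf (lenB π) (lastF π) (dd (π.flatMap nms)), nwTf (lenB π) (lastF π)))), ?_, ?_⟩
  · have e1 : Poly (fun p : List Fm × ℕ => h (nwSg (lenB p.1) p.1 (nwN p.1)
        (dd (p.1.flatMap nms)) p.2, nwTa (lenB p.1) p.1 (nwN p.1) p.2)) :=
      hP.comp (g := fun p : List Fm × ℕ => (nwSg (lenB p.1) p.1 (nwN p.1)
        (dd (p.1.flatMap nms)) p.2, nwTa (lenB p.1) p.1 (nwN p.1) p.2)) (by fun_prop)
    have e2 : Poly (fun π : List Fm => (List.range π.length).flatMap (fun i =>
        h (nwSg (lenB π) π (nwN π) (dd (π.flatMap nms)) i, nwTa (lenB π) π (nwN π) i))) :=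
      PT.Poly.flatMap e1 (by fun_prop)
    have e3 : Poly (fun π : List Fm =>
        h (nwSf (lenB π) (lastF π) (dd (π.flatMap nms)), nwTf (lenB π) (lastF π))) :=
      hP.comp (g := fun π : List Fm =>
        (nwSf (lenB π) (lastF π) (dd (π.flatMap nms)), nwTf (lenB π) (lastF π))) (by fun_prop)
    fun_prop
  · intro A π hπ
    have hl := lastF_eq hπ.2
    have hAπ : A ∈ π := List.mem_of_getLast? hπ.2
    have hlen : 0 < π.length := List.length_pos_of_mem hAπ
    have hA : ∀ x ∈ A.vars, x.length < lenB π := fun x hx => lenB_spec hAπ hx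
    have hys := nodup_dd (π.flatMap nms)
    rw [numVars_eq]
    simp only [hl]
    obtain ⟨h1, h2⟩ := nw_main hh (A := A) (π := π) hπ.1 hA hys (fun y => mem_dd) π.length le_rfl
    have hAlast : A ∈ π.take π.length := by rw [List.take_length]; exact hAπ
    have h3 := h2 A hAlast
    rw [Nat.sub_self] at h3
    have hysA : ∀ y ∈ nms A, y ∈ dd (π.flatMap nms) :=
      fun y hy => mem_dd.2 (List.mem_flatMap.2 ⟨A, hAπ, hy⟩)
    obtain ⟨b1, b2, b3⟩ := hh _ _ (nwTf_just (F := F) (L := lenB π) hysA)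
    have hσV : ∀ C ∈ nwSf (lenB π) A (dd (π.flatMap nms)), nwV A (lenB π) 0 C := by
      intro C hC
      rcases List.mem_append.1 hC with hC | hC
      · obtain ⟨y, _, rfl⟩ := List.mem_map.1 hC
        intro x hx
        rcases hx with (hx | hx) | (hx | hx)
        · exact Or.inr ⟨y, Or.inl hx⟩
        · exact Or.inl (nwZ_vars hx)
        · exact Or.inl (nwZ_vars hx)
        · exact Or.inr ⟨y, Or.inl hx⟩
      · rw [List.mem_singleton] at hC
        subst hC
        intro x hx
        exact Or.inr (nwU_zero hx)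
    have h4 := narrow_app (i := 0 * (dd (π.flatMap nms)).length) h1
      (σ := nwSf (lenB π) A (dd (π.flatMap nms))) (τ := h (nwSf (lenB π) A (dd (π.flatMap nms)),
        nwTf (lenB π) A)) (by
        intro C hC
        refine ⟨?_, nwV_window hA (by omega) (hσV C hC)⟩
        rcases List.mem_append.1 hC with hC | hC
        · exact mem_app.2 (Or.inl (List.mem_append_left _ hC))
        · rw [List.mem_singleton] at hC
          subst hC
          exact h3) (by
        intro C hC
        refine nwV_window hA (by omega) ?_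
        intro x hx
        obtain ⟨D, hD, hx'⟩ := b3 C hC x hx
        rcases List.mem_append.1 hD with hD | hD
        · exact hσV D hD x hx'
        · exact nwTf_vars D hD x hx') b1
    rw [← nw_app_append] at h4
    refine narrow_cutAt h4 (mem_app.2 (Or.inr (List.mem_append_right _ (b2 A ?_))))
    simp [nwTf]

end Pool.Agent.H.MP_0447ec_lc.PS
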