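import Pool.Agent.H.MP_0447ec_lc.LV.SliceBasic
import Pool.Agent.H.MP_0447ec_lc.LV.AsmB2

/-!
# From substitution Frege proofs of the slices to the permutation rule
-/

namespace Pool.Agent.H.MP_0447ec_lc.PS

open Fm Pool.Agent.H.MP_0447ec_lc.PT

/-- The registers. -/
def slR (A : Fm) (j : ℕ) : List (List Nm) := (List.range (j + 1)).map (regName (bitLen A))

/-- The functions that are used. -/
structure FnS where
  /-- from substitutions to constant substitutions -/
  sf : List Fm → List Fm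
  /-- blocks -/
  Tb : (ℕ × ℕ × ℕ) × List (List Nm) × List Nm → List (List Nm)
  /-- the token form -/
  Tk : ℕ × Nm × List (List Bool) × List (List Nm) × List Fm → List Fm
  /-- dynamic programming -/
  Td : (ℕ × Nm × List (List Bool)) × List (Nm × List Bool) × List Fm × Fm → List Fm
  /-- words -/
  Tw : ℕ × ℕ → List (List Bool)
  /-- negation of all variables -/
  Tfl : Nm × List Nm × Fm × List Fm → List Fm
  /-- elimination of the hypotheses -/
  Tel : Nm × List (Nm × Nm) × Fm → List Fm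
  /-- change of the rules -/
  rb : List Fm → List Fm

namespace FnS

variable (q : FnS)

/-- The other names in a proof of a slice; the input is `A, j` and the proof. -/
def ot (x : Fm × ℕ × List Fm) : List Nm :=
  (dd ((q.sf x.2.2).flatMap nms)).filter (fun y => !(decide (y ∈ (slR x.1 x.2.1).flatten)))
def bl (x : ℕ × Fm × ℕ × List Fm) : List (List Nm) :=
  q.Tb ((bdN ((slR x.2.1 x.2.2.1).flatten ++ q.ot x.2), bitLen x.2.1, x.1),
    slR x.2.1 x.2.2.1, q.ot x.2)
def tk (x : (ℕ × Nm × List (List Bool) × ℕ) × Fm × ℕ × List Fm) : List Fm :=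
  q.Tk (x.1.1, x.1.2.1, x.1.2.2.1, q.bl (x.1.2.2.2, x.2), q.sf x.2.2.2)
def sj (x : (ℕ × Nm × List (List Bool) × ℕ) × Fm × ℕ × List Fm) : Fm :=
  (AW [] (slR x.2.1 x.2.2.1) (sac x.2.1) x.2.1).subst
    (tsub (tblD x.1.2.1 x.1.1 x.1.2.2.1 (q.bl (x.1.2.2.2, x.2))))
def half (x : (ℕ × Nm × List (List Bool) × ℕ) × Fm × List (List Fm)) : List Fm :=
  x.2.2.zipIdx.flatMap (fun p => q.tk (x.1, x.2.1, p.2, p.1)) ++
  q.Td ((x.1.1, x.1.2.1, x.1.2.2.1), sac x.2.1,
    x.2.2.zipIdx.map (fun p => q.sj (x.1, x.2.1, p.2, p.1)), x.2.1)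

/-- The input of the whole algorithm. -/
abbrev In : Type := (ℕ × ℕ) × Fm × List (List Fm) × List (List Fm)

def L (x : In) : ℕ := (nms x.2.1).flatten.length + 1
def d (x : In) : Nm := List.replicate (L x) true
def e (x : In) : ℕ := 2 * x.1.1 + 1 + bitLen x.2.1
def W (x : In) : List (List Bool) :=
  q.Tw (4 * x.1.2 * x.1.2 * (varList x.2.1).length, e x)
def h1 (x : In) : List Fm := q.half ((L x, d x, q.W x, e x), x.2.1, x.2.2.1)
def h2 (x : In) : List Fm := q.half ((L x, d x, q.W x, e x), negVars x.2.1, x.2.2.2)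
def zv (x : In) : List (Nm × Nm) :=
  (List.range (varList x.2.1).length).flatMap (fun J => (q.W x).map
    (fun v => (fn (L x) J v, fn (L x) ((varList x.2.1).length + J) v)))
def fl (x : In) : List Fm := q.Tfl (d x, (q.zv x).map Prod.fst, x.2.1, q.h2 x)
def el (x : In) : List Fm := q.Tel (d x, q.zv x, x.2.1)
def out (x : In) : List Fm := q.rb (cutAt x.2.1 (app [] ((q.h1 x ++ q.fl x) ++ q.el x)))

structure IsPoly : Prop where
  hsf : Poly q.sf
  hTb : Poly q.Tb
  hTk : Poly q.Tk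
  hTd : Poly q.Td
  hTw : Poly q.Tw
  hTfl : Poly q.Tfl
  hTel : Poly q.Tel
  hrb : Poly q.rb

variable {q}

theorem pslR : Poly (fun x : Fm × ℕ => slR x.1 x.2) := by
  unfold slR; fun_prop
theorem pot (h : q.IsPoly) : Poly q.ot := by
  have := h.hsf
  have e1 : Poly (fun p : (Fm × ℕ × List Fm) × Nm => (slR p.1.1 p.1.2.1).flatten) :=
    Poly.flatten (Poly.comp (g := fun p : (Fm × ℕ × List Fm) × Nm => (p.1.1, p.1.2.1)) pslR
      (by fun_prop))
  have e2 : Poly (fun x : Fm × ℕ × List Fm => dd ((q.sf x.2.2).flatMap nms)) := by fun_prop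
  unfold ot
  refine PT.Poly.filter (f := fun (x : Fm × ℕ × List Fm) (y : Nm) =>
    !(decide (y ∈ (slR x.1 x.2.1).flatten))) (Poly.not (Poly.decMem (by fun_prop) e1)) e2
theorem pbl (h : q.IsPoly) : Poly q.bl := by
  have := pot h; have := h.hTb
  have e1 : Poly (fun x : ℕ × Fm × ℕ × List Fm => slR x.2.1 x.2.2.1) :=
    Poly.comp (g := fun x : ℕ × Fm × ℕ × List Fm => (x.2.1, x.2.2.1)) pslR (by fun_prop)
  unfold bl; fun_prop
theorem ptk (h : q.IsPoly) : Poly q.tk := by
  have := pbl h; have := h.hsf; have := h.hTk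
  unfold tk; fun_prop
theorem psj (h : q.IsPoly) : Poly q.sj := by
  have h0 := pbl h
  have h1 : Poly (fun x : (ℕ × Nm × List (List Bool) × ℕ) × Fm × ℕ × List Fm =>
      q.bl (x.1.2.2.2, x.2)) := by fun_prop
  have h3 : Poly (fun x : (ℕ × Nm × List (List Bool) × ℕ) × Fm × ℕ × List Fm =>
      slR x.2.1 x.2.2.1) :=
    Poly.comp (g := fun x : (ℕ × Nm × List (List Bool) × ℕ) × Fm × ℕ × List Fm =>
      (x.2.1, x.2.2.1)) pslR (by fun_prop)
  have h5 : Poly (fun x : (ℕ × Nm × List (List Bool) × ℕ) × Fm × ℕ × List Fm =>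
      AW [] (slR x.2.1 x.2.2.1) (sac x.2.1) x.2.1) :=
    Poly.AW (by fun_prop) h3 (by fun_prop) (by fun_prop)
  have h6 : Poly (fun x : (ℕ × Nm × List (List Bool) × ℕ) × Fm × ℕ × List Fm =>
      tblD x.1.2.1 x.1.1 x.1.2.2.1 (q.bl (x.1.2.2.2, x.2))) :=
    Poly.tblD (by fun_prop) (by fun_prop) (by fun_prop) h1
  exact Poly.substT h6 h5
theorem phalf (h : q.IsPoly) : Poly q.half := by
  have := ptk h; have := psj h; have := h.hTd
  unfold half; fun_prop

theorem pL : Poly L := by unfold L; fun_prop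
theorem pd : Poly d := by
  have := pL
  unfold d; fun_prop
theorem pe : Poly e := by unfold e; fun_prop
theorem pW (h : q.IsPoly) : Poly q.W := by
  have := pe; have := h.hTw
  unfold W; fun_prop
theorem ph1 (h : q.IsPoly) : Poly q.h1 := by
  have := pL; have := pd; have := pW h; have := pe; have := phalf h
  unfold h1; fun_prop
theorem ph2 (h : q.IsPoly) : Poly q.h2 := by
  have := pL; have := pd; have := pW h; have := pe; have := phalf h
  unfold h2; fun_prop
theorem pzv (h : q.IsPoly) : Poly q.zv := by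
  have := pL; have := pW h
  unfold zv; fun_prop
theorem pfl (h : q.IsPoly) : Poly q.fl := by
  have := pd; have := pzv h; have := ph2 h; have := h.hTfl
  unfold fl; fun_prop
theorem pel (h : q.IsPoly) : Poly q.el := by
  have := pd; have := pzv h; have := h.hTel
  unfold el; fun_prop
theorem pout (h : q.IsPoly) : Poly q.out := by
  have := ph1 h; have := pfl h; have := pel h; have := h.hrb
  unfold out; fun_prop

/-- The specifications. -/
structure Spec (F : List Rule) (q : FnS) : Prop where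
  sf : ∀ (A : Fm) (π : List Fm), Deriv (GS F) π → π.getLast? = some A →
      Deriv (GC (GG F)) (q.sf π) ∧ (q.sf π).getLast? = some A ∧
      numVars (q.sf π) ≤ 2 * numVars π + 1
  Tb : ∀ (L c e : ℕ) (rgs : List (List Nm)) (oth : List Nm),
      (∀ ys ∈ rgs, ys.length = c) → c ≤ e → oth.length ≤ rgs.length * (e - c) →
      (rgs.flatten ++ oth).Nodup → (∀ x ∈ rgs.flatten ++ oth, x.length ≤ L) →
      (q.Tb ((L, c, e), rgs, oth)).length = rgs.length ∧
      (∀ b ∈ q.Tb ((L, c, e), rgs, oth), b.length = e) ∧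
      (q.Tb ((L, c, e), rgs, oth)).flatten.Nodup ∧
      (∀ x ∈ rgs.flatten ++ oth, x ∈ (q.Tb ((L, c, e), rgs, oth)).flatten) ∧
      (∀ (J : ℕ) (h1 : J < rgs.length) (h2 : J < (q.Tb ((L, c, e), rgs, oth)).length),
        rgs[J] <+: (q.Tb ((L, c, e), rgs, oth))[J])
  Tk : ∀ (L : ℕ) (d : Nm) (W : List (List Bool)) (e : ℕ) (bl : List (List Nm)) (σ : List Fm),
      W.Nodup → (∀ w, w ∈ W ↔ w.length = e) → (∀ b ∈ bl, b.length = e) → bl.flatten.Nodup →
      d.length ≤ L → Deriv (GC (GG F)) σ → (∀ C ∈ σ, ∀ x ∈ C.vars, x ∈ bl.flatten) →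
      ∀ π : List Fm, Just (FP (GG (GG F))) π (q.Tk (L, d, W, bl, σ)) ∧
        ∀ B ∈ σ, imp (GH d L W bl.length) (B.subst (tsub (tblD d L W bl))) ∈
          q.Tk (L, d, W, bl, σ)
  Td : ∀ (L : ℕ) (d : Nm) (W : List (List Bool)) (e c : ℕ) (ac : List (Nm × List Bool))
      (Ss : List Fm) (A : Fm),
      W.Nodup → (∀ w, w ∈ W ↔ w.length = e) → c ≤ e →
      (∀ p ∈ ac, p.2.length = c ∧ true ∈ p.2) → (ac.map Prod.snd).Nodup →
      (ac.map Prod.fst).Nodup → (∀ p ∈ ac, p.1.length ≤ L) → d.length ≤ L →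
      d ∉ ac.map Prod.fst → (∀ x, x ∈ A.vars ↔ x ∈ ac.map Prod.fst) →
      A.Eval (fun _ => False) → Ss.length = ac.length →
      (∀ (j : ℕ) (hj : j < Ss.length),
        sm (litsOf (HD d L W ac ac.length (j + 1))) Ss[j] =
        sm (litsOf (HD d L W ac ac.length (j + 1))) (AZ d L W ac ac.length A)) →
      ∀ π : List Fm, (∀ (j : ℕ) (hj : j < Ss.length), imp (GH d L W (j + 1)) Ss[j] ∈ π) →
        Just (FP (GG (GG F))) π (q.Td ((L, d, W), ac, Ss, A)) ∧
        imp (cj d ((List.range ac.length).flatMap (fun J => zoff L J W))) A ∈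
          q.Td ((L, d, W), ac, Ss, A)
  Tw : ∀ (cap e : ℕ), 2 ^ e ≤ cap → (q.Tw (cap, e)).Nodup ∧ (q.Tw (cap, e)).length = 2 ^ e ∧
      ∀ w, w ∈ q.Tw (cap, e) ↔ w.length = e
  Tfl : ∀ (d : Nm) (zs : List Nm) (A : Fm) (τ : List Fm), Just (FP (GG (GG F))) [] τ →
      imp (cj d (zs.map (fun z => neg (var z)))) (A.subst (fun w => neg (var w))) ∈ τ →
      ∀ π : List Fm, Just (FP (GG (GG F))) π (q.Tfl (d, zs, A, τ)) ∧
        imp (cj d (zs.map var)) A ∈ q.Tfl (d, zs, A, τ)
  Tel : ∀ (d : Nm) (zv : List (Nm × Nm)) (A : Fm),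
      (zv.map Prod.fst ++ zv.map Prod.snd).Nodup → d ∉ zv.map Prod.fst ++ zv.map Prod.snd →
      (∀ z ∈ zv.map Prod.fst ++ zv.map Prod.snd, z ∉ A.vars) →
      ∀ π : List Fm, imp (cj d (zv.map (fun p => neg (var p.1)))) A ∈ π →
        imp (cj d (zv.map (fun p => var p.1))) A ∈ π →
        Just (FP (GG (GG F))) π (q.Tel (d, zv, A)) ∧ A ∈ q.Tel (d, zv, A)
  rb : ∀ (Step : List Fm → Fm → Prop), Mono Step → ∀ (π : List Fm) (A : Fm),
        Deriv (fun σ B => RuleStep (GG (GG F)) σ B ∨ Step σ B) π → π.getLast? = some A →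
        Deriv (fun σ B => RuleStep F σ B ∨ Step σ B) (q.rb π) ∧ (q.rb π).getLast? = some A ∧
          ∀ C ∈ q.rb π, ∀ x ∈ C.vars, ∃ D ∈ π, x ∈ D.vars

/-- Few-variable proofs of all slices. -/
def SlProofs (F : List Rule) (A : Fm) (k : ℕ) (σs : List (List Fm)) : Prop :=
  σs.length = (varList A).length ∧ ∀ (j : ℕ) (hj : j < σs.length),
    SubstProof F (slice A (j + 1)) σs[j] ∧ numVars σs[j] ≤ k * (j + 1)

section spec

variable {F : List Rule} (h : Spec F q) {A : Fm} {k : ℕ} {σs : List (List Fm)}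
  (hs : SlProofs F A k σs)

theorem slR_length (A : Fm) (j : ℕ) : (slR A j).length = j + 1 := by simp [slR]

theorem slR_len {A : Fm} {j : ℕ} {ys : List Nm} (hy : ys ∈ slR A j) :
    ys.length = bitLen A := by
  obtain ⟨i, -, rfl⟩ := List.mem_map.1 hy
  exact regName_length _ _

theorem mem_ot {x : Fm × ℕ × List Fm} {y : Nm} : y ∈ q.ot x ↔
    (∃ C ∈ q.sf x.2.2, y ∈ C.vars) ∧ y ∉ (slR x.1 x.2.1).flatten := by
  unfold ot
  rw [List.mem_filter, mem_dd, List.mem_flatMap]
  simp only [mem_nms, Bool.not_eq_true', decide_eq_false_iff_not]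

include h hs in
theorem ot_length {j : ℕ} (hj : j < σs.length) :
    (q.ot (A, j, σs[j])).length ≤ (j + 1) * (2 * k + 1) := by
  obtain ⟨⟨g1, g2⟩, g3⟩ := hs.2 j hj
  obtain ⟨-, -, h3⟩ := h.sf _ _ g1 g2
  have h1 : (q.ot (A, j, σs[j])).length ≤ numVars (q.sf σs[j]) := by
    rw [numVars_eq]
    exact List.length_filter_le _ _
  refine h1.trans (h3.trans ?_)
  nlinarith

include h hs in
theorem bl_spec {e j : ℕ} (he : e = 2 * k + 1 + bitLen A) (hj : j < σs.length) :
    (q.bl (e, A, j, σs[j])).length = j + 1 ∧ (∀ b ∈ q.bl (e, A, j, σs[j]), b.length = e) ∧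
    (q.bl (e, A, j, σs[j])).flatten.Nodup ∧
    (∀ C ∈ q.sf σs[j], ∀ x ∈ C.vars, x ∈ (q.bl (e, A, j, σs[j])).flatten) ∧
    (∀ (J : ℕ) (h1 : J < (slR A j).length) (h2 : J < (q.bl (e, A, j, σs[j])).length),
        (slR A j)[J] <+: (q.bl (e, A, j, σs[j]))[J]) := by
  obtain ⟨h1, h2, h3, h4, h5⟩ := h.Tb (bdN ((slR A j).flatten ++ q.ot (A, j, σs[j])))
    (bitLen A) e (slR A j) (q.ot (A, j, σs[j])) (fun ys hy => slR_len hy) (by omega)
    (by
      rw [slR_length, he, Nat.add_sub_cancel]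
      exact ot_length h hs hj)
    (by
      rw [List.nodup_append]
      refine ⟨regs_nodup _ _, (nodup_dd _).filter _, ?_⟩
      rintro x hx y hy rfl
      exact (mem_ot.1 hy).2 hx)
    (fun x hx => le_bdN hx)
  rw [slR_length] at h1
  refine ⟨h1, h2, h3, ?_, h5⟩
  intro C hC x hx
  refine h4 x ?_
  rw [List.mem_append]
  by_cases hx' : x ∈ (slR A j).flatten
  · exact Or.inl hx'
  · exact Or.inr (mem_ot.2 ⟨⟨C, hC, hx⟩, hx'⟩)

include h hs in
theorem half_spec (hA : A.Eval (fun _ => False)) {L e : ℕ} {d : Nm} {W : List (List Bool)}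
    (hWn : W.Nodup) (hW : ∀ w, w ∈ W ↔ w.length = e) (he : e = 2 * k + 1 + bitLen A)
    (hL : ∀ x ∈ A.vars, x.length ≤ L) (hdL : d.length ≤ L) (hd : d ∉ A.vars) (τ : List Fm) :
    Just (FP (GG (GG F))) τ (q.half ((L, d, W, e), A, σs)) ∧
    imp (cj d ((List.range (varList A).length).flatMap (fun J => zoff L J W))) A ∈
      q.half ((L, d, W, e), A, σs) := by
  have hm := mono_perm (GG (GG F))
  have hlen := hs.1
  have hac := sac_length A
  have hacv : ∀ x, x ∈ A.vars ↔ x ∈ (sac A).map Prod.fst := by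
    intro x; rw [sac_fst, mem_varList]
  have hacL : ∀ p ∈ sac A, p.1.length ≤ L := fun p hp =>
    hL _ ((hacv _).2 (List.mem_map_of_mem hp))
  have hacn : ((sac A).map Prod.fst).Nodup := by rw [sac_fst]; exact varList_nodup A
  have hacd : d ∉ (sac A).map Prod.fst := fun hd' => hd ((hacv _).2 hd')
  have hce : bitLen A ≤ e := by omega
  -- the token part
  have key : ∀ (j : ℕ) (hj : j < σs.length), ∀ τ : List Fm,
      Just (FP (GG (GG F))) τ (q.tk ((L, d, W, e), A, j, σs[j])) ∧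
      imp (GH d L W (j + 1)) (q.sj ((L, d, W, e), A, j, σs[j])) ∈
        q.tk ((L, d, W, e), A, j, σs[j]) := by
    intro j hj τ
    obtain ⟨⟨g1, g2⟩, g3⟩ := hs.2 j hj
    obtain ⟨s1, s2, -⟩ := h.sf _ _ g1 g2
    obtain ⟨b1, b2, b3, b4, -⟩ := bl_spec h hs he hj
    obtain ⟨k1, k2⟩ := h.Tk L d W e (q.bl (e, A, j, σs[j])) (q.sf σs[j]) hWn hW b2 b3 hdL s1 b4 τ
    refine ⟨k1, ?_⟩
    have := k2 _ (List.mem_of_getLast? s2)
    rw [b1, slice_eq] at this
    exact this
  have h1 : ∀ τ : List Fm, Just (FP (GG (GG F))) τ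
      (σs.zipIdx.flatMap (fun p => q.tk ((L, d, W, e), A, p.2, p.1))) := by
    intro τ
    refine Just.flatMap hm _ _ _ ?_
    rintro ⟨σ, j⟩ hp
    have hj := List.mem_zipIdx hp
    have hj2 : j < σs.length := by omega
    have e1 : σ = σs[j] := by
      have := hj.2.2
      simpa using this
    subst e1
    exact (key j hj2 τ).1
  obtain ⟨d1, d2⟩ := h.Td L d W e (bitLen A) (sac A)
    (σs.zipIdx.map (fun p => q.sj ((L, d, W, e), A, p.2, p.1))) A hWn hW hce
    (fun p hp => sac_code hp) (sac_snd A) hacn hacL hdL hacd hacv hA (by simp [hac, hlen])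
    (by
      intro j hj
      have hj' : j < σs.length := by simpa using hj
      obtain ⟨b1, b2, b3, b4, b5⟩ := bl_spec h hs he hj'
      have := sm_token L d [] W e (bitLen A) j (sac A) (slR A j)
        (q.bl (e, A, j, σs[j])) A hW hce (fun p hp => sac_code hp) hacn hacL hdL hacd
        (fun x hx => (hacv x).1 hx) (by rw [hac, ← hlen]; exact hj') (slR_length _ _) b1 b2 b3
        (fun ys hy => slR_len hy) b5
      rw [← this]
      rw [List.getElem_map, List.getElem_zipIdx]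
      simp only [Nat.zero_add]
      rfl)
    (τ ++ σs.zipIdx.flatMap (fun p => q.tk ((L, d, W, e), A, p.2, p.1)))
    (by
      intro j hj
      have hj' : j < σs.length := by simpa using hj
      rw [List.getElem_map, List.getElem_zipIdx]
      simp only [Nat.zero_add]
      refine List.mem_append_right _ (List.mem_flatMap.2 ⟨(σs[j], j), ?_, (key j hj' τ).2⟩)
      rw [List.mem_zipIdx_iff_getElem?]
      simp [hj'])
  rw [hac] at d2
  unfold half
  exact ⟨Just.append (h1 τ) d1, List.mem_append_right _ d2⟩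

theorem sl_eval_congr {A : Fm} {v v' : Nm → Prop} (h : ∀ x ∈ A.vars, (v x ↔ v' x)) :
    A.Eval v ↔ A.Eval v' := by
  induction A with
  | var w => exact h w rfl
  | neg A ih => exact not_congr (ih h)
  | and A B ih1 ih2 =>
    exact and_congr (ih1 fun x hx => h x (Or.inl hx)) (ih2 fun x hx => h x (Or.inr hx))
  | or A B ih1 ih2 =>
    exact or_congr (ih1 fun x hx => h x (Or.inl hx)) (ih2 fun x hx => h x (Or.inr hx))
  | imp A B ih1 ih2 =>
    exact imp_congr (ih1 fun x hx => h x (Or.inl hx)) (ih2 fun x hx => h x (Or.inr hx))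

theorem slice_false {A : Fm} {j : ℕ} (h : (slice A j).Eval (fun _ => False)) :
    A.Eval (fun _ => False) := by
  unfold slice at h
  rw [Fm.eval_subst] at h
  refine (sl_eval_congr ?_).1 h
  intro x hx
  refine iff_of_false ?_ (fun h => h)
  unfold anyr
  rw [eval_dj]
  rintro ⟨B, hB, hBv⟩
  obtain ⟨ys, hys, rfl⟩ := List.mem_map.1 hB
  obtain ⟨i, -, rfl⟩ := List.mem_map.1 hys
  unfold eqr at hBv
  rw [eval_cj] at hBv
  have hi : (varList A).idxOf x < (varList A).length :=
    List.idxOf_lt_length_of_mem (mem_varList.2 hx)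
  have ht := numCode_true (lt_two_pow_bitLen hi)
  obtain ⟨k, hk, hk2⟩ := List.getElem_of_mem ht
  rw [numCode_length] at hk
  have h1 : ((regName (bitLen A) i)[k]'(by rw [regName_length]; exact hk), true) ∈
      (regName (bitLen A) i).zip (numCode (bitLen A) ((varList A).idxOf x)) := by
    rw [List.mem_iff_getElem]
    refine ⟨k, ?_, ?_⟩
    · rw [List.length_zip, regName_length, numCode_length]
      omega
    · rw [List.getElem_zip, hk2]
  have h2 := hBv _ (List.mem_map_of_mem (f := fun p : Nm × Bool => lit p.1 p.2) h1)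
  rw [eval_lit] at h2
  exact h2.2 rfl

theorem SlProofs.eval_false (hF : IsFrege F) (hs : SlProofs F A k σs) :
    A.Eval (fun _ => False) := by
  have h1 : 0 < σs.length := by rw [hs.1]; exact varList_pos A
  obtain ⟨⟨g1, g2⟩, -⟩ := hs.2 0 h1
  exact slice_false (sound_GS hF g1 _ (List.mem_of_getLast? g2) _)

theorem varList_neg (A : Fm) : varList (negVars A) = varList A := by
  unfold varList negVars
  rw [nms_negv]

theorem bitLen_neg (A : Fm) : bitLen (negVars A) = bitLen A := by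
  unfold bitLen
  rw [varList_neg]

theorem vars_neg {A : Fm} {x : Nm} : x ∈ (negVars A).vars ↔ x ∈ A.vars := by
  rw [← mem_varList, varList_neg, mem_varList]

include h in
theorem W_spec {x : In} (hx : 2 ^ x.1.1 ≤ x.1.2) : (q.W x).Nodup ∧
    ∀ w, w ∈ q.W x ↔ w.length = e x := by
  have h1 : 2 ^ e x ≤ 4 * x.1.2 * x.1.2 * (varList x.2.1).length := by
    have hn := varList_pos x.2.1
    have h2 : 2 ^ bitLen x.2.1 ≤ (varList x.2.1).length * 2 := by
      unfold bitLen
      rw [pow_succ]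
      exact Nat.mul_le_mul_right _ (Nat.pow_log_le_self 2 (by omega))
    calc 2 ^ e x = 2 ^ x.1.1 * 2 ^ x.1.1 * 2 * 2 ^ bitLen x.2.1 := by
          unfold e
          rw [pow_add, pow_add, Nat.two_mul, pow_add, pow_one]
      _ ≤ x.1.2 * x.1.2 * 2 * ((varList x.2.1).length * 2) := by gcongr
      _ = 4 * x.1.2 * x.1.2 * (varList x.2.1).length := by ring
  exact ⟨(h.Tw _ _ h1).1, (h.Tw _ _ h1).2.2⟩

theorem d_length (x : In) : (d x).length = L x := by simp [d]

theorem lt_L {x : In} {y : Nm} (hy : y ∈ x.2.1.vars) : y.length < L x := by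
  unfold L
  have h1 : y.length ≤ (nms x.2.1).flatten.length := le_bdN (mem_nms.2 hy)
  omega

theorem zoff_eq (x : In) : (List.range (varList x.2.1).length).flatMap
    (fun J => zoff (L x) J (q.W x)) = (q.zv x).map (fun p => neg (var p.1)) := by
  unfold zv zoff
  rw [List.map_flatMap]
  simp only [List.map_map, Function.comp_def]

theorem mem_zv {x : In} {z : Nm} : z ∈ (q.zv x).map Prod.fst ++ (q.zv x).map Prod.snd →
    L x < z.length := by
  intro hz
  unfold zv at hz
  rw [List.mem_append, List.map_flatMap, List.map_flatMap, List.mem_flatMap,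
    List.mem_flatMap] at hz
  rcases hz with ⟨J, -, hz⟩ | ⟨J, -, hz⟩
  · rw [List.map_map] at hz
    obtain ⟨v, -, rfl⟩ := List.mem_map.1 hz
    exact fn_length _ _ _
  · rw [List.map_map] at hz
    obtain ⟨v, -, rfl⟩ := List.mem_map.1 hz
    exact fn_length _ _ _

theorem zv_nodup {x : In} (hW : (q.W x).Nodup) :
    ((q.zv x).map Prod.fst ++ (q.zv x).map Prod.snd).Nodup := by
  have key : ∀ g : ℕ → ℕ, Function.Injective g →
      ((List.range (varList x.2.1).length).flatMap
        (fun J => (q.W x).map (fun v => fn (L x) (g J) v))).Nodup := by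
    intro g hg
    rw [List.nodup_flatMap]
    constructor
    · intro j _
      refine List.Nodup.map ?_ hW
      intro v v' hv
      exact (fn_inj hv).2
    · refine List.nodup_range.imp ?_
      intro i j hij
      rw [Function.onFun, List.disjoint_left]
      intro x hx hx'
      obtain ⟨v, _, rfl⟩ := List.mem_map.1 hx
      obtain ⟨v', _, hv'⟩ := List.mem_map.1 hx'
      exact hij (hg (fn_inj hv').1.symm)
  unfold zv
  rw [List.map_flatMap, List.map_flatMap, List.nodup_append]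
  simp only [List.map_map, Function.comp_def]
  refine ⟨key (fun J => J) (fun _ _ h => h), key (fun J => (varList x.2.1).length + J)
    (fun _ _ h => Nat.add_left_cancel h), ?_⟩
  rintro x hx y hy rfl
  obtain ⟨J, hJ, hx⟩ := List.mem_flatMap.1 hx
  obtain ⟨J', -, hy⟩ := List.mem_flatMap.1 hy
  obtain ⟨v, _, rfl⟩ := List.mem_map.1 hx
  obtain ⟨v', _, hv'⟩ := List.mem_map.1 hy
  have h1 := (fn_inj hv').1
  rw [List.mem_range] at hJ
  omega

include h in
theorem out_spec (hF : IsFrege F) {cap : ℕ} {σs' : List (List Fm)} (hcap : 2 ^ k ≤ cap)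
    (hs : SlProofs F A k σs) (hs' : SlProofs F (negVars A) k σs') :
    PermProof F A (q.out ((k, cap), A, σs, σs')) := by
  obtain ⟨x, hx⟩ : ∃ x : In, x = ((k, cap), A, σs, σs') := ⟨_, rfl⟩
  have x1 : x.1.1 = k := by rw [hx]
  have x2 : x.1.2 = cap := by rw [hx]
  have x3 : x.2.1 = A := by rw [hx]
  have x4 : x.2.2.1 = σs := by rw [hx]
  have x5 : x.2.2.2 = σs' := by rw [hx]
  rw [← hx]
  obtain ⟨w1, w2⟩ := W_spec h (x := x) (by rw [x1, x2]; exact hcap)
  have he : e x = 2 * k + 1 + bitLen A := by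
    unfold e; rw [x1, x3]
  have hL : ∀ y ∈ A.vars, y.length < L x := fun y hy => lt_L (x := x) (by rw [x3]; exact hy)
  have hd : d x ∉ A.vars := by
    intro hy
    have := hL _ hy
    rw [d_length] at this
    omega
  obtain ⟨a1, a2⟩ := half_spec h hs (hs.eval_false hF) (L := L x) (e := e x) (d := d x)
    (W := q.W x) w1 w2 he (fun y hy => (hL y hy).le) (d_length x).le hd []
  obtain ⟨b1, b2⟩ := half_spec h hs' (hs'.eval_false hF) (L := L x) (e := e x) (d := d x)
    (W := q.W x) w1 w2 (by rw [bitLen_neg]; exact he)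
    (fun y hy => (hL y (vars_neg.1 hy)).le) (d_length x).le (fun hy => hd (vars_neg.1 hy)) []
  rw [varList_neg, ← x3, zoff_eq, x3] at b2
  rw [← x3, zoff_eq, x3] at a2
  have y1 : q.h1 x = q.half ((L x, d x, q.W x, e x), A, σs) := by
    unfold h1; rw [x3, x4]
  have y2 : q.h2 x = q.half ((L x, d x, q.W x, e x), negVars A, σs') := by
    unfold h2; rw [x3, x5]
  rw [← y1] at a1 a2
  rw [← y2] at b1 b2
  obtain ⟨f1, f2⟩ := h.Tfl (d x) ((q.zv x).map Prod.fst) A (q.h2 x) b1
    (by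
      rw [List.map_map]
      exact b2) ([] ++ q.h1 x)
  rw [List.map_map] at f2
  obtain ⟨g1, g2⟩ := h.Tel (d x) (q.zv x) A (zv_nodup w1)
    (fun hz => by
      have := mem_zv hz
      rw [d_length] at this
      omega)
    (fun z hz hz' => by
      have h1 := mem_zv hz
      have h2 := hL _ hz'
      omega) ([] ++ (q.h1 x ++ q.fl x))
    (by
      rw [List.nil_append]
      exact List.mem_append_left _ a2)
    (by
      rw [List.nil_append]
      refine List.mem_append_right _ ?_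
      unfold fl
      rw [x3]
      exact f2)
  have e1 : q.fl x = q.Tfl (d x, (q.zv x).map Prod.fst, A, q.h2 x) := by
    unfold fl; rw [x3]
  have e2 : q.el x = q.Tel (d x, q.zv x, A) := by
    unfold el; rw [x3]
  have j : Just (FP (GG (GG F))) [] ((q.h1 x ++ q.fl x) ++ q.el x) := by
    refine Just.append (Just.append a1 ?_) ?_
    · rw [e1]; exact f1
    · rw [e2]; exact g1
  have hD := deriv_app (mono_perm (GG (GG F))) Deriv.nil j
  have hm : A ∈ app [] ((q.h1 x ++ q.fl x) ++ q.el x) :=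
    mem_app.2 (Or.inr (List.mem_append_right _ (by rw [e2]; exact g2)))
  obtain ⟨c1, c2⟩ := deriv_cutAt hD hm
  obtain ⟨r1, r2, -⟩ := h.rb PermStep mono_permStep _ A c1 c2
  unfold out
  rw [x3]
  exact ⟨r1, r2⟩

end spec

end FnS

/-- Proofs with few variables of all slices of `A` and of `A` with negated variables give a proof
of `A` with the permutation rule. -/
theorem sliceB {F : List Rule} (hF : IsFrege F) :
    ∃ g : (ℕ × ℕ) × Fm × List (List Fm) × List (List Fm) → List Fm, PT.Poly g ∧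
    ∀ (A : Fm) (k cap : ℕ) (σs σs' : List (List Fm)), 2 ^ k ≤ cap →
      σs.length = (varList A).length → σs'.length = (varList A).length →
      (∀ (j : ℕ) (hj : j < σs.length),
        SubstProof F (slice A (j + 1)) σs[j] ∧ numVars σs[j] ≤ k * (j + 1)) →
      (∀ (j : ℕ) (hj : j < σs'.length),
        SubstProof F (slice (negVars A) (j + 1)) σs'[j] ∧ numVars σs'[j] ≤ k * (j + 1)) →
      PermProof F A (g ((k, cap), A, σs, σs')) := by
  obtain ⟨sf, hsf, hsf'⟩ := sfcf_main F
  obtain ⟨Tb, hTb, hTb'⟩ := blocks_main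
  obtain ⟨Tw, hTw, hTw'⟩ := words_main
  obtain ⟨Tk, hTk, hTk'⟩ := tok_main (GG F)
  obtain ⟨Td, hTd, hTd'⟩ := dp_main (GG_rich (GG F))
  obtain ⟨Tfl, hTfl, hTfl'⟩ := flip_main (GG_rich (GG F))
  obtain ⟨Tel, hTel, hTel'⟩ := elim_main (GG_rich (GG F))
  obtain ⟨rb, hrb, hrb'⟩ := robust hF (GG_sound (isFrege_GG hF))
  let q : FnS := ⟨sf, Tb, Tk, Td, Tw, Tfl, Tel, rb⟩
  have hp : q.IsPoly := ⟨hsf, hTb, hTk, hTd, hTw, hTfl, hTel, hrb⟩
  have hq : FnS.Spec F q := ⟨hsf', hTb', hTk', hTd', hTw', hTfl', hTel', hrb'⟩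
  refine ⟨q.out, FnS.pout hp, ?_⟩
  intro A k cap σs σs' hcap h1 h2 h3 h4
  exact FnS.out_spec hq hF hcap ⟨h1, h3⟩ ⟨by rw [h2, FnS.varList_neg], h4⟩

end Pool.Agent.H.MP_0447ec_lc.PS
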