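import Pool.Agent.H.MP_0447ec_lc.PS.DefsR

/-!
# Disjunctions of disjoint copies
-/

namespace Pool.Agent.H.MP_0447ec_lc.PS

open Fm

/-- `B` is a copy of `A`: the result of an injective renaming of the variables of `A`. -/
def IsCopy (A B : Fm) : Prop :=
  ∃ r : List Bool → List Bool, Set.InjOn r A.vars ∧ B = A.subst (fun w => var (r w))

/-- `B` is the disjunction `A₁ ∨ (A₂ ∨ ... (A_m ∨ A₀))` of `m + 1` copies of `A`, no two of which
have a variable in common. -/
def DisjointCopies (A B : Fm) (m : ℕ) : Prop :=
  ∃ (C : Fm) (Cs : List Fm), Cs.length = m ∧ B = Cs.foldr Fm.or C ∧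
    (∀ D ∈ C :: Cs, IsCopy A D) ∧ (C :: Cs).Pairwise (fun D E => Disjoint D.vars E.vars)

/-- The renaming of variables that sends the name with number `i` in `T` to the name with number
`i` in `U`. -/
def Fm.rename (T U : List (List Bool)) (A : Fm) : Fm :=
  A.subst (fun w => var (((T.zip U).lookup w).getD w))

/-- The proof system `P` is p-closed under the identification and renaming of variables. -/
def ClosedUnderRenaming (P : Fm → List Fm → Prop) : Prop :=
  ∃ g : (List (List Bool) × List (List Bool)) × List Fm → List Fm,
    Nonempty (Turing.TM2ComputableInPolyTime codeInput codeProof g) ∧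
    ∀ (A : Fm) (π : List Fm) (T U : List (List Bool)), P A π →
      P (A.rename T U) (g ((T, U), π))

/-- The proof system `P` is p-closed under the contraction of disjoint copies: some function
computable in polynomial time maps every formula `A` together with every `P`-proof of a
disjunction of disjoint copies of `A` to a `P`-proof of `A`. -/
def ClosedUnderContraction (P : Fm → List Fm → Prop) : Prop :=
  ∃ g : List Fm → List Fm,
    Nonempty (Turing.TM2ComputableInPolyTime codeProof codeProof g) ∧
    ∀ (A B : Fm) (m : ℕ) (π : List Fm), DisjointCopies A B m → P B π → P A (g (A :: π))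

/-- The proof system `P` has the feasible disjunction property (for proof length): whenever a
disjunction of formulas, no two of which have a variable in common, has a `P`-proof with a code
of length `s`, one of them has a `P`-proof with a code of length at most `p(s)`, for a
polynomial `p`. -/
def FeasibleDisjunction (P : Fm → List Fm → Prop) : Prop :=
  ∃ p : Polynomial ℕ, ∀ (C : Fm) (Cs π : List Fm),
    (C :: Cs).Pairwise (fun D E => Disjoint D.vars E.vars) → P (Cs.foldr Fm.or C) π →
    ∃ D ∈ C :: Cs, ∃ π' : List Fm, P D π' ∧ (codeProof π').length ≤ p.eval (codeProof π).length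

/-- The proof system `P` simulates the proof system `Q` with at most polynomial increase of the
length of proofs. -/
def Simulates (P Q : Fm → List Fm → Prop) : Prop :=
  ∃ p : Polynomial ℕ, ∀ (A : Fm) (π : List Fm), Q A π →
    ∃ π' : List Fm, P A π' ∧ (codeProof π').length ≤ p.eval (codeProof π).length

/-- The proof system `P` contracts disjoint copies with at most polynomial increase of the length
of proofs: whenever a disjunction of disjoint copies of `A` has a `P`-proof, the formula `A` has
a `P`-proof of length at most polynomial in the length of this proof and of `A`. -/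
def ContractsCopies (P : Fm → List Fm → Prop) : Prop :=
  ∃ p : Polynomial ℕ, ∀ (A B : Fm) (m : ℕ) (π : List Fm), DisjointCopies A B m → P B π →
    ∃ π' : List Fm, P A π' ∧ (codeProof π').length ≤ p.eval (codeProof (A :: π)).length

end Pool.Agent.H.MP_0447ec_lc.PS
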