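import Pool.Agent.H.MP_0447ec_lc.LV.Copies
import Pool.Agent.H.MP_0447ec_lc.LV.Robust
import Pool.Agent.H.MP_0447ec_lc.LV.CpDefs
import Pool.Agent.H.MP_0447ec_lc.LV.Count
import Pool.Agent.H.MP_0447ec_lc.PS.Final2
import Pool.Agent.H.MP_0447ec_lc.PS.Canon

/-!
# Disjunctions of disjoint copies: the theorems
-/

namespace Pool.Agent.H.MP_0447ec_lc.PS

open Fm Pool.Agent.H.MP_0447ec_lc.PT

/-! ### Soundness -/

theorem asc_perm_sound {F : List Rule} (hF : IsFrege F) {π : List Fm} (h : Deriv (FP F) π) :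
    ∀ B ∈ π, ∀ v : Nm → Prop, B.Eval v := by
  induction h with
  | nil => simp
  | @snoc σ B _ h2 ih =>
    intro C hC v
    rcases List.mem_append.1 hC with hC | hC
    · exact ih C hC v
    · rw [List.mem_singleton] at hC
      subst hC
      rcases h2 with ⟨r, hr, s, hs1, rfl⟩ | ⟨D, hD, ρ, -, rfl⟩
      · rw [Fm.eval_subst]
        apply hF.sound r hr
        intro P hP
        rw [← Fm.eval_subst]
        exact ih _ (hs1 P hP) v
      · rw [Fm.eval_subst]
        exact ih D hD _

theorem asc_padF {X : Fm} {l : List (Nm × Fm)} {v : Nm → Prop} (h : (padF X l).Eval v) :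
    X.Eval v := by
  induction l with
  | nil => exact h
  | cons e l ih =>
    rw [padF_cons] at h
    rcases h with h | h
    · exact absurd (h.1 (fun h => h)) (fun h => h (fun h => h))
    · exact ih h

theorem asc_ext_taut {F : List Rule} (hF : IsFrege F) {A : Fm} {π : List Fm}
    (h : ExtProof F A π) (v : Nm → Prop) : A.Eval v := by
  obtain ⟨k⟩ := exists_kit hF
  apply asc_padF (l := extL A π)
  rw [← restrict_pad h, Fm.eval_subst]
  exact asc_perm_sound hF (T1_spec k h).1 _ (List.mem_of_getLast? (T1_spec k h).2) _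

/-! ### Finishing a proof -/

theorem asc_finish {F : List Rule} (hF : IsFrege F) :
    ∃ h : Fm × List Fm × List Fm → List Fm, Poly h ∧ ∀ (A : Fm) (τ σ : List Fm),
      Deriv (FP F) τ → Just (FP (GG F)) τ σ → A ∈ σ → PermProof F A (h (A, τ, σ)) := by
  obtain ⟨rb, hrb, hrb'⟩ := robust hF (GG_sound hF)
  refine ⟨fun x => rb (cutAt x.1 (app x.2.1 x.2.2)), Poly.comp hrb (by fun_prop), ?_⟩
  intro A τ σ hτ hσ hA
  have h1 : Deriv (FP (GG F)) τ := hτ.imp_step (by
    rintro σ B (h | h)
    · exact Or.inl (ruleStep_GG h)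
    · exact Or.inr h)
  have h2 := deriv_app (mono_perm (GG F)) h1 hσ
  obtain ⟨d1, d2⟩ := deriv_cutAt h2 (mem_app.2 (Or.inr hA))
  obtain ⟨r1, r2, -⟩ := hrb' PermStep mono_permStep _ A d1 d2
  exact ⟨r1, r2⟩

/-! ### The disjunction of copies -/

/-- The copies with the numbers `k, ..., 1`. -/
def ascCs (M : ℕ) (A : Fm) : ℕ → List Fm
  | 0 => []
  | k + 1 => cpy M (k + 1) A :: ascCs M A k

theorem asc_cpyD (M : ℕ) (A : Fm) (k : ℕ) : cpyD M A k = (ascCs M A k).foldr Fm.or A := by
  induction k with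
  | zero => rfl
  | succ k ih => simp only [cpyD, ascCs, List.foldr_cons, ih]

theorem asc_length (M : ℕ) (A : Fm) (k : ℕ) : (ascCs M A k).length = k := by
  induction k with
  | zero => rfl
  | succ k ih => simp only [ascCs, List.length_cons, ih]

theorem asc_mem {M : ℕ} {A : Fm} {k : ℕ} {D : Fm} (h : D ∈ ascCs M A k) :
    ∃ j, j ≤ k ∧ D = cpy M j A := by
  induction k with
  | zero => simp [ascCs] at h
  | succ k ih =>
    rcases List.mem_cons.1 h with h | h
    · exact ⟨k + 1, le_rfl, h⟩
    · obtain ⟨j, hj, h⟩ := ih h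
      exact ⟨j, by omega, h⟩

theorem asc_vars_cpy {M j : ℕ} {A : Fm} {x : Nm} (h : x ∈ (cpy M j A).vars) :
    ∃ w ∈ A.vars, x = fn M j w := by
  obtain ⟨w, hw, hx⟩ := vars_subst h
  exact ⟨w, hw, hx⟩

theorem asc_pairwise (M : ℕ) (A : Fm) (k : ℕ) :
    (ascCs M A k).Pairwise (fun D E => Disjoint D.vars E.vars) := by
  induction k with
  | zero => exact List.Pairwise.nil
  | succ k ih =>
    refine List.Pairwise.cons ?_ ih
    intro E hE
    obtain ⟨j, hj, rfl⟩ := asc_mem hE
    rw [Set.disjoint_left]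
    intro x hx hx'
    obtain ⟨w, -, rfl⟩ := asc_vars_cpy hx
    obtain ⟨w', -, h⟩ := asc_vars_cpy hx'
    have := (fn_inj h).1
    omega

theorem asc_disjointCopies {M : ℕ} {A : Fm} (hM : ∀ x ∈ A.vars, x.length ≤ M) (k : ℕ) :
    DisjointCopies A (cpyD M A k) k := by
  refine ⟨A, ascCs M A k, asc_length M A k, asc_cpyD M A k, ?_, ?_⟩
  · intro D hD
    rcases List.mem_cons.1 hD with rfl | hD
    · exact ⟨fun w => w, fun _ _ _ _ h => h, (Fm.subst_var D).symm⟩
    · obtain ⟨j, -, rfl⟩ := asc_mem hD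
      exact ⟨fun w => fn M j w, fun _ _ _ _ h => (fn_inj h).2, rfl⟩
  · refine List.Pairwise.cons ?_ (asc_pairwise M A k)
    intro E hE
    obtain ⟨j, hj, rfl⟩ := asc_mem hE
    rw [Set.disjoint_left]
    intro x hx hx'
    obtain ⟨w', -, rfl⟩ := asc_vars_cpy hx'
    have h1 := hM _ hx
    have h2 := fn_length M j w'
    omega

/-- Every extended Frege proof of `A` gives a proof with the permutation rule of a disjunction of
disjoint copies of `A`. -/
theorem asc_main {F : List Rule} (hF : IsFrege F) :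
    ∃ f : List Fm → List Fm, Poly f ∧ ∀ (A : Fm) (π : List Fm), ExtProof F A π →
      ∃ (B : Fm) (m : ℕ), m ≤ π.length ∧ DisjointCopies A B m ∧ PermProof F B (f π) := by
  obtain ⟨k⟩ := exists_kit hF
  obtain ⟨Tc, hTc, hTc'⟩ := copies_main (GG_rich F)
  obtain ⟨h, hh, hh'⟩ := asc_finish hF
  refine ⟨fun π => h (cpyD (2 * lenB π) (lastF π) (extL (lastF π) π).length, T1 k π,
    Tc ((lenB π, 2 * lenB π), extL (lastF π) π, lastF π)), ?_, ?_⟩
  · refine Poly.comp hh (Poly.pair (by fun_prop) (Poly.pair (Poly.T1 k Poly.id)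
      (Poly.comp hTc ?_)))
    fun_prop
  · intro A π hπ
    have hl : lastF π = A := lastF_eq hπ.2
    have hA : A ∈ π := List.mem_of_getLast? hπ.2
    obtain ⟨c1, c2, c3⟩ := collect hπ.1
    have hlen : ∀ x ∈ A.vars, x.length < lenB π := fun x hx => lenB_spec hA hx
    refine ⟨cpyD (2 * lenB π) A (extL A π).length, (extL A π).length, extL_length A π,
      asc_disjointCopies (fun x hx => by have := hlen x hx; omega) _, ?_⟩
    simp only [hl]
    obtain ⟨t1, t2⟩ := T1_spec k hπ
    obtain ⟨u1, u2⟩ := hTc' (lenB π) (2 * lenB π) (extL A π) A (good_nodup c2)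
      (fun e he => lenB_spec (c3 e he) (by simp [eAx, Fm.iff, Fm.vars]))
      (fun e he => good_fst c2 he) hlen le_rfl (asc_ext_taut hF hπ) (T1 k π)
      (List.mem_of_getLast? t2)
    exact hh' _ _ _ t1 u1 u2

/-! ### Renaming -/

theorem asc_tsub (l : List (Nm × Nm)) (w : Nm) :
    tsub (l.map (fun p => (p.1, var p.2))) w = var ((l.lookup w).getD w) := by
  induction l with
  | nil => rfl
  | cons p l ih =>
    rw [List.map_cons, tsub_cons, List.lookup_cons]
    by_cases h : p.1 = w
    · subst h; simp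
    · rw [if_neg h]
      have h1 : (w == p.1) = false := by
        simpa using fun e : w = p.1 => h e.symm
      rw [h1]
      exact ih

theorem asc_rename_eq (T U : List (List Bool)) (A : Fm) :
    A.rename T U = A.subst (tsub ((T.zip U).map (fun p => (p.1, var p.2)))) := by
  unfold Fm.rename
  exact Fm.subst_congr (fun x _ => (asc_tsub _ x).symm)

theorem asc_ren_iff {P : Fm → List Fm → Prop} : ClosedUnderRenaming P ↔
    ∃ g : (List (List Bool) × List (List Bool)) × List Fm → List Fm, Poly g ∧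
    ∀ (A : Fm) (π : List Fm) (T U : List (List Bool)), P A π →
      P (A.rename T U) (g ((T, U), π)) := by
  unfold ClosedUnderRenaming
  constructor
  · rintro ⟨f, h1, h2⟩
    exact ⟨f, (tm2_iff_poly codeInput_eq codeProof_eq f).1 h1, h2⟩
  · rintro ⟨f, h1, h2⟩
    exact ⟨f, (tm2_iff_poly codeInput_eq codeProof_eq f).2 h1, h2⟩

theorem asc_con_iff {P : Fm → List Fm → Prop} : ClosedUnderContraction P ↔
    ∃ g : List Fm → List Fm, Poly g ∧
    ∀ (A B : Fm) (m : ℕ) (π : List Fm), DisjointCopies A B m → P B π → P A (g (A :: π)) := by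
  unfold ClosedUnderContraction
  constructor
  · rintro ⟨f, h1, h2⟩
    exact ⟨f, (tm2_iff_poly codeProof_eq codeProof_eq f).1 h1, h2⟩
  · rintro ⟨f, h1, h2⟩
    exact ⟨f, (tm2_iff_poly codeProof_eq codeProof_eq f).2 h1, h2⟩

theorem asc_ren_of_sim {F : List Rule} (hF : IsFrege F)
    (h : PSimulates (PermProof F) (ExtProof F)) : ClosedUnderRenaming (PermProof F) := by
  rw [asc_ren_iff]
  obtain ⟨f, hf, hf'⟩ := psim_iff.1 h
  obtain ⟨e, he, he'⟩ := psim_iff.1 (ext_simulates_perm hF)
  obtain ⟨gs, hgs, hgs'⟩ := ef_subst F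
  refine ⟨fun x => f (gs ((x.1.1.zip x.1.2).map (fun p => (p.1, var p.2)), e x.2)), ?_, ?_⟩
  · refine Poly.comp hf (Poly.comp hgs (Poly.pair ?_ (Poly.comp he (by fun_prop))))
    exact PT.Poly.map (f := fun (_ : (List (List Bool) × List (List Bool)) × List Fm)
      (p : Nm × Nm) => (p.1, var p.2)) (by fun_prop) (by fun_prop)
  · intro A π T U hπ
    rw [asc_rename_eq]
    exact hf' _ _ (hgs' _ _ _ (he' _ _ hπ))

/-! ### Contraction -/

/-- The disjunction of `k + 1` occurrences of `A`. -/
def ascOr (A : Fm) (k : ℕ) : Fm := (Fm.or A)^[k] A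

theorem ascOr_succ (A : Fm) (k : ℕ) : ascOr A (k + 1) = Fm.or A (ascOr A k) := by
  unfold ascOr
  rw [Function.iterate_succ_apply']

theorem ascOr_foldr (A : Fm) (l : List Fm) (h : ∀ D ∈ l, D = A) :
    l.foldr Fm.or A = ascOr A l.length := by
  induction l with
  | nil => rfl
  | cons D l ih =>
    rw [List.foldr_cons, List.length_cons, ascOr_succ, h D (by simp),
      ih (fun E hE => h E (List.mem_cons_of_mem _ hE))]

theorem sz_ascOr (A : Fm) (k : ℕ) : sz (ascOr A k) ≤ (k + 1) * (sz A + 9) := by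
  induction k with
  | zero => unfold ascOr; simp
  | succ k ih =>
    rw [ascOr_succ, sz_or, Nat.add_mul (k + 1) 1]
    omega

section

variable {α : Type} [Enc α]

@[fun_prop]
theorem Poly.ascOr {A : α → Fm} {k : α → ℕ} (hA : Poly A) (hk : Poly k) :
    Poly (fun a => ascOr (A a) (k a)) := by
  unfold PS.ascOr
  refine Poly.iterate (f := fun a X => Fm.or (A a) X) (B := fun a => (k a + 1) * (sz (A a) + 9))
    (by fun_prop) hA hk ?_ ?_
  · exact ((pbdd_of_poly hk).add (PBdd.const 1)).mul (hA.sz_le.add (PBdd.const 9))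
  · intro a j hj
    exact (sz_ascOr (A a) j).trans (Nat.mul_le_mul_right _ (by omega))

end

/-- Lines that derive `A` from a disjunction `X` of at most `n + 1` occurrences of `A`. -/
def ascL (A X : Fm) (n : ℕ) : List Fm :=
  (List.range (n + 1)).map (fun j => imp (imp A A) (imp (ascOr A j) A)) ++
    [imp (imp A A) X, imp (imp A A) A, A]

section

variable {α : Type} [Enc α]

@[fun_prop]
theorem Poly.ascL {A X : α → Fm} {n : α → ℕ} (hA : Poly A) (hX : Poly X) (hn : Poly n) :
    Poly (fun a => ascL (A a) (X a) (n a)) := by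
  unfold PS.ascL
  fun_prop

end

theorem asc_range {G : List Rule} (hG : Rich G) (A : Fm) (n : ℕ) (π : List Fm) :
    Just (RuleStep G) π
      ((List.range (n + 1)).map (fun j => imp (imp A A) (imp (ascOr A j) A))) := by
  induction n with
  | zero => exact ⟨Or.inr hG.impRefl, trivial⟩
  | succ n ih =>
    rw [List.range_succ, List.map_append]
    refine Just.append ih ⟨Or.inr ?_, trivial⟩
    show RuleStep G _ (imp (imp A A) (imp (ascOr A (n + 1)) A))
    rw [ascOr_succ]
    refine hG.orE (List.mem_append_right _ (List.mem_map.2 ⟨0, by simp, rfl⟩))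
      (List.mem_append_right _ (List.mem_map.2 ⟨n, by simp, rfl⟩))

theorem ascL_just {G : List Rule} (hG : Rich G) {A : Fm} {m n : ℕ} (hm : m ≤ n) {π : List Fm}
    (h : ascOr A m ∈ π) : Just (RuleStep G) π (ascL A (ascOr A m) n) := by
  unfold ascL
  refine Just.append (asc_range hG A n π) ⟨Or.inr ?_, Or.inr ?_, Or.inr ?_, trivial⟩
  · exact hG.weaken (List.mem_append_left _ h)
  · refine hG.mp (A := ascOr A m) (by simp) ?_
    refine List.mem_append_left _ (List.mem_append_right _ (List.mem_map.2 ⟨m, ?_, rfl⟩))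
    simpa using hm
  · exact hG.strip (H := A) (by simp)

theorem asc_lookup {l : List (Nm × Nm)} {w x : Nm} (h1 : w ∈ l.map Prod.fst)
    (h2 : ∀ p ∈ l, p.1 = w → p.2 = x) : l.lookup w = some x := by
  induction l with
  | nil => simp at h1
  | cons p l ih =>
    rw [List.lookup_cons]
    by_cases h : w = p.1
    · have h3 : (w == p.1) = true := by simpa using h
      rw [h3, h2 p (by simp) h.symm]
    · have h3 : (w == p.1) = false := by simpa using h
      rw [h3]
      rw [List.map_cons, List.mem_cons] at h1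
      exact ih (h1.resolve_left h) (fun q hq => h2 q (List.mem_cons_of_mem _ hq))

theorem asc_pairs {A : Fm} {R : Fm → Nm → Nm} : ∀ {Ds : List Fm} {n : ℕ},
    (∀ D ∈ Ds, D = A.subst (fun w => var (R D w))) →
    ∀ p ∈ (Ds.flatMap nms).zip (List.replicate n (nms A)).flatten,
      ∃ D ∈ Ds, ∃ z ∈ A.vars, p = (R D z, z) := by
  intro Ds
  induction Ds with
  | nil => intro n _ p hp; simp at hp
  | cons D Ds ih =>
    intro n hD p hp
    cases n with
    | zero => simp at hp
    | succ n =>
      have e : nms D = (nms A).map (R D) := by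
        conv_lhs => rw [hD D (by simp)]
        rw [nms_subst]
      rw [List.flatMap_cons, List.replicate_succ, List.flatten_cons,
        List.zip_append (by rw [e, List.length_map]), List.mem_append] at hp
      rcases hp with hp | hp
      · have e2 : (nms D).zip (nms A) = (nms A).map (fun a => (R D a, a)) := by
          rw [e]
          have := List.zip_map' (f := R D) (g := fun a : Nm => a) (l := nms A)
          rwa [List.map_id'] at this
        rw [e2] at hp
        obtain ⟨z, hz, rfl⟩ := List.mem_map.1 hp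
        exact ⟨D, by simp, z, mem_nms.1 hz, rfl⟩
      · obtain ⟨E, hE, z, hz, h⟩ := ih (fun E hE => hD E (List.mem_cons_of_mem _ hE)) p hp
        exact ⟨E, List.mem_cons_of_mem _ hE, z, hz, h⟩

theorem asc_nms_foldr (C : Fm) (Cs : List Fm) :
    nms (Cs.foldr Fm.or C) = (Cs ++ [C]).flatMap nms := by
  induction Cs with
  | nil => simp
  | cons D Cs ih =>
    rw [List.foldr_cons, nms, ih, List.cons_append, List.flatMap_cons]

theorem asc_subst_foldr (C : Fm) (Cs : List Fm) (s : Nm → Fm) :
    (Cs.foldr Fm.or C).subst s = (Cs.map (Fm.subst s)).foldr Fm.or (C.subst s) := by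
  induction Cs with
  | nil => rfl
  | cons D Cs ih => rw [List.foldr_cons, Fm.subst, ih, List.map_cons, List.foldr_cons]

theorem asc_flatMap_const {β : Type} (l : List β) (X : List Nm) :
    l.flatMap (fun _ => X) = (List.replicate l.length X).flatten := by
  induction l with
  | nil => rfl
  | cons a l ih =>
    rw [List.flatMap_cons, ih, List.length_cons, List.replicate_succ, List.flatten_cons]

theorem asc_rename_copies {A B : Fm} {m : ℕ} (h : DisjointCopies A B m) :
    m ≤ (nms B).length ∧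
      B.rename (nms B) ((nms B).flatMap (fun _ => nms A)) = ascOr A m := by
  obtain ⟨C, Cs, hm, hB, hc, hp⟩ := h
  classical
  have hch : ∃ R : Fm → Nm → Nm, ∀ D ∈ C :: Cs, Set.InjOn (R D) A.vars ∧
      D = A.subst (fun w => var (R D w)) := by
    refine ⟨fun D => if h : IsCopy A D then h.choose else id, ?_⟩
    intro D hD
    have h := hc D hD
    simp only [dif_pos h]
    exact h.choose_spec
  obtain ⟨R, hR⟩ := hch
  have hlen1 : ∀ (l : List Fm), l.length ≤ (l.flatMap nms).length := by
    intro l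
    induction l with
    | nil => simp
    | cons D l ih =>
      rw [List.flatMap_cons, List.length_append, List.length_cons]
      have := List.length_pos_of_ne_nil (nms_ne_nil D)
      omega
  have hN : nms B = (Cs ++ [C]).flatMap nms := by rw [hB, asc_nms_foldr]
  have hmem : ∀ D, D ∈ Cs ++ [C] ↔ D ∈ C :: Cs := by
    intro D; simp [or_comm]
  refine ⟨?_, ?_⟩
  · have := hlen1 (Cs ++ [C])
    rw [hN, ← hm]
    rw [List.length_append, List.length_singleton] at this
    omega
  have hdis : ∀ D ∈ C :: Cs, ∀ E ∈ C :: Cs, D ≠ E → Disjoint D.vars E.vars := by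
    intro D hD E hE
    have : Std.Symm (fun D E : Fm => D ≠ E → Disjoint D.vars E.vars) :=
      ⟨fun D E h1 h2 => (h1 (Ne.symm h2)).symm⟩
    have := List.Pairwise.forall_of_forall (R := fun D E : Fm => D ≠ E → Disjoint D.vars E.vars)
      (l := C :: Cs) (fun D _ h => absurd rfl h)
      (List.Pairwise.imp (S := fun D E : Fm => D ≠ E → Disjoint D.vars E.vars)
        (fun h _ => h) hp)
    exact this hD hE
  have hpos : 0 < (nms A).length := List.length_pos_of_ne_nil (nms_ne_nil A)
  have hU2 : (nms B).flatMap (fun _ => nms A) =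
      (List.replicate (nms B).length (nms A)).flatten := asc_flatMap_const _ _
  rw [hU2]
  obtain ⟨N, hNe⟩ : ∃ N, (nms B).length = N := ⟨_, rfl⟩
  have hTU : (nms B).length ≤ ((List.replicate N (nms A)).flatten).length := by
    rw [List.length_flatten, List.map_replicate, List.sum_replicate, hNe]
    exact Nat.le_mul_of_pos_right _ hpos
  rw [hNe]
  generalize nms B = T at hN hTU ⊢
  have hpairs : ∀ p ∈ T.zip (List.replicate N (nms A)).flatten,
      ∃ D ∈ C :: Cs, ∃ z ∈ A.vars, p = (R D z, z) := by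
    intro p hp'
    rw [hN] at hp'
    obtain ⟨D, hD, z, hz, e⟩ := asc_pairs (R := R) (fun D hD => (hR D ((hmem D).1 hD)).2) p hp'
    exact ⟨D, (hmem D).1 hD, z, hz, e⟩
  generalize (List.replicate N (nms A)).flatten = U at hTU hpairs ⊢
  have hv : ∀ D ∈ C :: Cs, ∀ x ∈ A.vars, R D x ∈ D.vars := by
    intro D hD x hx
    have h2 : nms D = (nms A).map (R D) := by
      conv_lhs => rw [(hR D hD).2]
      rw [nms_subst]
    rw [← mem_nms, h2]
    exact List.mem_map_of_mem (mem_nms.2 hx)
  have hlk : ∀ D ∈ C :: Cs, ∀ x ∈ A.vars, (T.zip U).lookup (R D x) = some x := by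
    intro D hD x hx
    apply asc_lookup
    · rw [List.map_fst_zip hTU, hN, List.mem_flatMap]
      exact ⟨D, (hmem D).2 hD, mem_nms.2 (hv D hD x hx)⟩
    · intro p hp' hpx
      obtain ⟨E, hE, z, hz, rfl⟩ := hpairs p hp'
      simp only at hpx ⊢
      by_cases hDE : E = D
      · subst hDE
        exact (hR E hE).1 hz hx hpx
      · exfalso
        refine Set.disjoint_left.1 (hdis E hE D hD hDE) (hv E hE z hz) ?_
        rw [hpx]
        exact hv D hD x hx
  have hsub : ∀ D ∈ C :: Cs, D.subst (fun w => var (((T.zip U).lookup w).getD w)) = A := by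
    intro D hD
    conv_lhs => rw [(hR D hD).2]
    rw [Fm.subst_subst]
    apply Fm.subst_eq_self
    intro x hx
    show var _ = _
    rw [hlk D hD x hx]
    rfl
  unfold Fm.rename
  have e : B.subst (fun w => var (((T.zip U).lookup w).getD w)) =
      (Cs.map (Fm.subst (fun w => var (((T.zip U).lookup w).getD w)))).foldr Fm.or A := by
    conv_lhs => rw [hB]
    rw [asc_subst_foldr, hsub C (by simp)]
  rw [e, ascOr_foldr, List.length_map, hm]
  intro D hD
  obtain ⟨E, hE, rfl⟩ := List.mem_map.1 hD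
  exact hsub E (List.mem_cons_of_mem _ hE)

theorem asc_con_of_ren {F : List Rule} (hF : IsFrege F)
    (h : ClosedUnderRenaming (PermProof F)) : ClosedUnderContraction (PermProof F) := by
  rw [asc_con_iff]
  obtain ⟨g, hg, hg'⟩ := asc_ren_iff.1 h
  obtain ⟨q, hq, hq'⟩ := asc_finish hF
  refine ⟨fun x => q (x.headD (var []),
    g ((nms (lastF x.tail), (nms (lastF x.tail)).flatMap (fun _ => nms (x.headD (var [])))),
      x.tail),
    ascL (x.headD (var [])) (lastF (g ((nms (lastF x.tail),
      (nms (lastF x.tail)).flatMap (fun _ => nms (x.headD (var [])))), x.tail)))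
      (nms (lastF x.tail)).length), ?_, ?_⟩
  · have h1 : Poly (fun x : List Fm => g ((nms (lastF x.tail),
        (nms (lastF x.tail)).flatMap (fun _ => nms (x.headD (var [])))), x.tail)) :=
      Poly.comp hg (Poly.pair (Poly.pair (by fun_prop) (PT.Poly.flatMap
        (f := fun (x : List Fm) (_ : Nm) => nms (x.headD (var []))) (by fun_prop)
        (by fun_prop))) (by fun_prop))
    exact Poly.comp hq (Poly.pair (by fun_prop) (Poly.pair h1
      (Poly.ascL (by fun_prop) (Poly.lastF h1) (by fun_prop))))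
  · intro A B m π hD hπ
    have hl : lastF π = B := lastF_eq hπ.2
    have e1 : (A :: π).tail = π := rfl
    have e2 : (A :: π).headD (var []) = A := rfl
    simp only [e1, e2, hl]
    obtain ⟨m1, m2⟩ := asc_rename_copies hD
    have h1 := hg' B π (nms B) ((nms B).flatMap (fun _ => nms A)) hπ
    rw [m2] at h1
    have hl2 := lastF_eq h1.2
    simp only [hl2]
    have j := ascL_just (GG_rich F) m1 (List.mem_of_getLast? h1.2)
    refine hq' A _ _ h1.1 (j.imp_step (fun _ _ h => Or.inl h)) ?_
    unfold ascL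
    simp

theorem asc_sim_of_con {F : List Rule} (hF : IsFrege F)
    (h : ClosedUnderContraction (PermProof F)) : PSimulates (PermProof F) (ExtProof F) := by
  rw [psim_iff]
  obtain ⟨g, hg, hg'⟩ := asc_con_iff.1 h
  obtain ⟨f, hf, hf'⟩ := asc_main hF
  refine ⟨fun π => g (lastF π :: f π), Poly.comp hg (Poly.lcons (by fun_prop) hf), ?_⟩
  intro A π hπ
  have hl : lastF π = A := lastF_eq hπ.2
  obtain ⟨B, m, -, h1, h2⟩ := hf' A π hπ
  simp only [hl]
  exact hg' A B m (f π) h1 h2

/-! ### Injective renamings of proofs -/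

theorem asc_perm_ren {F : List Rule} {ρ : Nm → Nm} (hρ : Function.Injective ρ) {π : List Fm}
    (h : Deriv (FP F) π) : Deriv (FP F) (π.map (Fm.subst (fun w => var (ρ w)))) := by
  induction h with
  | nil => exact Deriv.nil
  | @snoc σ B _ h2 ih =>
    rw [List.map_append, List.map_cons, List.map_nil]
    refine Deriv.snoc ih ?_
    rcases h2 with h2 | ⟨C, hC, τ, hτ, rfl⟩
    · exact Or.inl (ruleStep_subst h2 _)
    · right
      refine ⟨C.subst (fun w => var (ρ w)), List.mem_map_of_mem hC,
        τ.viaEmbedding ⟨ρ, hρ⟩, ?_, ?_⟩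
      · intro x hx
        by_cases h : x ∈ Set.range ρ
        · obtain ⟨w, rfl⟩ := h
          have h1 : w ∉ C.vars := by
            intro hw
            apply hx
            rw [← mem_nms, nms_subst]
            exact List.mem_map_of_mem (mem_nms.2 hw)
          have h2 := Equiv.Perm.viaEmbedding_apply τ ⟨ρ, hρ⟩ w
          rw [hτ w h1] at h2
          exact h2
        · exact Equiv.Perm.viaEmbedding_apply_of_notMem τ ⟨ρ, hρ⟩ x h
      · rw [Fm.subst_subst, Fm.subst_subst]
        apply Fm.subst_congr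
        intro w _
        show var (ρ (τ w)) = var (τ.viaEmbedding ⟨ρ, hρ⟩ (ρ w))
        have h2 := Equiv.Perm.viaEmbedding_apply τ ⟨ρ, hρ⟩ w
        rw [show (τ.viaEmbedding ⟨ρ, hρ⟩) (ρ w) = ρ (τ w) from h2]

theorem asc_sz_fn (L k : ℕ) (w : Nm) : sz (fn L k w) ≤ 4 * (L + k + 1) + 2 + sz w := by
  unfold fn
  have h1 := sz_append (List.replicate (L + k + 1) true) (false :: w)
  rw [sz_lcons, sz_replicateTrue, sz_false] at h1
  omega

/-- A copy can be renamed back. -/
theorem asc_back {A D : Fm} (h : IsCopy A D) : ∃ ρ : Nm → Nm, Function.Injective ρ ∧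
    D.subst (fun w => var (ρ w)) = A ∧ ∀ w, sz (ρ w) ≤ 9 * sz A + 6 + sz w := by
  obtain ⟨r, hr, rfl⟩ := h
  classical
  have hlen : ∀ x ∈ A.vars, x.length ≤ sz A := fun x hx =>
    (length_lt_sz x).le.trans (sz_name_le hx)
  have hρ1 : ∀ (y : Nm) (h : ∃ x ∈ A.vars, r x = y),
      (if h : ∃ x ∈ A.vars, r x = y then h.choose else fn (sz A) 0 y) = h.choose := by
    intro y h
    rw [dif_pos h]
  refine ⟨fun y => if h : ∃ x ∈ A.vars, r x = y then h.choose else fn (sz A) 0 y, ?_, ?_, ?_⟩
  · intro y y' e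
    simp only at e
    by_cases h : ∃ x ∈ A.vars, r x = y
    · by_cases h' : ∃ x ∈ A.vars, r x = y'
      · rw [dif_pos h, dif_pos h'] at e
        rw [← h.choose_spec.2, ← h'.choose_spec.2, e]
      · rw [dif_pos h, dif_neg h'] at e
        have h1 := hlen _ h.choose_spec.1
        have h2 := fn_length (sz A) 0 y'
        rw [← e] at h2
        omega
    · by_cases h' : ∃ x ∈ A.vars, r x = y'
      · rw [dif_neg h, dif_pos h'] at e
        have h1 := hlen _ h'.choose_spec.1
        have h2 := fn_length (sz A) 0 y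
        rw [e] at h2
        omega
      · rw [dif_neg h, dif_neg h'] at e
        exact (fn_inj e).2
  · rw [Fm.subst_subst]
    apply Fm.subst_eq_self
    intro x hx
    have h : ∃ x' ∈ A.vars, r x' = r x := ⟨x, hx, rfl⟩
    show var (if h : ∃ x' ∈ A.vars, r x' = r x then h.choose else fn (sz A) 0 (r x)) = var x
    rw [dif_pos h, hr h.choose_spec.1 hx h.choose_spec.2]
  · intro w
    simp only
    split_ifs with h
    · have := sz_name_le h.choose_spec.1
      omega
    · have := asc_sz_fn (sz A) 0 w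
      have := sz_pos A
      omega

theorem asc_sz_map {s : Nm → Fm} {K : ℕ} : ∀ (π : List Fm),
    (∀ C ∈ π, ∀ x ∈ C.vars, sz (s x) ≤ K) → sz (π.map (Fm.subst s)) ≤ (K + 1) * sz π := by
  intro π
  induction π with
  | nil => intro _; simp
  | cons C π ih =>
    intro h
    have h1 := ih (fun D hD => h D (List.mem_cons_of_mem _ hD))
    have h2 := sz_subst_le (K := K + 1) (by omega) C
      (fun w hw => (h C (by simp) w hw).trans (by omega))
    rw [List.map_cons, sz_lcons, sz_lcons, Nat.mul_add, Nat.mul_add]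
    omega

/-- The size of a proof of a copy bounds the size of a proof of the formula. -/
theorem asc_copy_proof {F : List Rule} {A D : Fm} {π : List Fm} (h : IsCopy A D)
    (hπ : PermProof F D π) :
    ∃ π', PermProof F A π' ∧ sz π' ≤ (9 * sz A + sz π + 11) * sz π := by
  obtain ⟨ρ, h1, h2, h3⟩ := asc_back h
  refine ⟨π.map (Fm.subst (fun w => var (ρ w))), ⟨asc_perm_ren h1 hπ.1, ?_⟩, ?_⟩
  · rw [List.getLast?_map, hπ.2, Option.map_some, h2]
  · refine asc_sz_map (K := 9 * sz A + sz π + 10) π ?_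
    intro C hC x hx
    rw [sz_var]
    have a1 := h3 x
    have a2 := sz_name_le hx
    have a3 := sz_mem_lt hC
    omega

theorem asc_sim_of_fd {F : List Rule} (hF : IsFrege F)
    (h : FeasibleDisjunction (PermProof F)) : Simulates (PermProof F) (ExtProof F) := by
  obtain ⟨p, hp⟩ := h
  obtain ⟨f, hf, hf'⟩ := asc_main hF
  obtain ⟨P, hP⟩ := hf.sz_le
  refine ⟨(9 * Polynomial.X + p.comp P + 11) * p.comp P, ?_⟩
  intro A π hπ
  obtain ⟨B, m, -, ⟨C, Cs, -, rfl, hc, hd⟩, h2⟩ := hf' A π hπ
  obtain ⟨D, hD, π', h3, h4⟩ := hp C Cs (f π) hd h2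
  obtain ⟨π'', h5, h6⟩ := asc_copy_proof (hc D hD) h3
  refine ⟨π'', h5, ?_⟩
  rw [code_length] at h4 ⊢
  rw [code_length] at h4
  have a1 : sz π' ≤ (p.comp P).eval (codeProof π).length := by
    rw [Polynomial.eval_comp, code_length]
    exact h4.trans (poly_mono p (hP π))
  have a2 : sz A ≤ (codeProof π).length := by
    rw [code_length]
    exact (sz_mem_lt (List.mem_of_getLast? hπ.2)).le
  refine h6.trans ?_
  have e : ((9 * Polynomial.X + p.comp P + 11) * p.comp P).eval (codeProof π).length =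
      (9 * (codeProof π).length + (p.comp P).eval (codeProof π).length + 11) *
        (p.comp P).eval (codeProof π).length := by
    simp [Polynomial.eval_mul, Polynomial.eval_add]
  rw [e]
  exact Nat.mul_le_mul (by omega) a1

/-! ### Lengths only -/

theorem asc_size_of_con {F : List Rule} (hF : IsFrege F)
    (h : ContractsCopies (PermProof F)) : Simulates (PermProof F) (ExtProof F) := by
  obtain ⟨p, hp⟩ := h
  obtain ⟨f, hf, hf'⟩ := asc_main hF
  obtain ⟨P, hP⟩ := (show Poly (fun π : List Fm => lastF π :: f π) from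
    Poly.lcons (by fun_prop) hf).sz_le
  refine ⟨p.comp P, ?_⟩
  intro A π hπ
  obtain ⟨B, m, -, h1, h2⟩ := hf' A π hπ
  obtain ⟨π', h3, h4⟩ := hp A B m (f π) h1 h2
  refine ⟨π', h3, h4.trans ?_⟩
  rw [Polynomial.eval_comp, code_length, code_length]
  have h5 := hP π
  simp only [lastF_eq hπ.2] at h5
  exact poly_mono p h5

/-- The table of the renaming that contracts disjoint copies. -/
def ascT (A B : Fm) : List (Nm × Fm) :=
  ((nms B).zip ((nms B).flatMap (fun _ => nms A))).map (fun p => (p.1, var p.2))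

theorem asc_con_of_size {F : List Rule} (hF : IsFrege F)
    (h : Simulates (PermProof F) (ExtProof F)) : ContractsCopies (PermProof F) := by
  obtain ⟨p, hp⟩ := h
  obtain ⟨e, he, he'⟩ := psim_iff.1 (ext_simulates_perm hF)
  obtain ⟨gs, hgs, hgs'⟩ := ef_subst F
  obtain ⟨q, hq, hq'⟩ := asc_finish hF
  have k1 : Poly (fun x : List Fm =>
      gs (ascT (x.headD (var [])) (lastF x.tail), e x.tail)) := by
    refine Poly.comp hgs (Poly.pair ?_ (Poly.comp he (by fun_prop)))
    unfold ascT
    refine PT.Poly.map (f := fun (_ : List Fm) (p : Nm × Nm) => (p.1, var p.2)) (by fun_prop) ?_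
    refine Poly.zip (by fun_prop) (PT.Poly.flatMap
      (f := fun (x : List Fm) (_ : Nm) => nms (x.headD (var []))) (by fun_prop) (by fun_prop))
  have k2 : Poly (fun x : List Fm => ascL (x.headD (var []))
      (lastF (gs (ascT (x.headD (var [])) (lastF x.tail), e x.tail)))
      (nms (lastF x.tail)).length) :=
    Poly.ascL (by fun_prop) (Poly.lastF k1) (by fun_prop)
  obtain ⟨P1, hP1⟩ := k1.sz_le
  obtain ⟨P2, hP2⟩ := k2.sz_le
  obtain ⟨P3, hP3⟩ := hq.sz_le
  refine ⟨P3.comp (Polynomial.X + (p.comp P1 + P2 + 2)), ?_⟩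
  intro A B m π hD hπ
  have hl : lastF π = B := lastF_eq hπ.2
  obtain ⟨m1, m2⟩ := asc_rename_copies hD
  rw [asc_rename_eq] at m2
  have h1 := hgs' (ascT A B) _ _ (he' _ _ hπ)
  rw [show B.subst (tsub (ascT A B)) = ascOr A m from m2] at h1
  have hl2 := lastF_eq h1.2
  obtain ⟨π1, h2, h3⟩ := hp _ _ h1
  have j := ascL_just (GG_rich F) m1 (List.mem_of_getLast? h2.2)
  refine ⟨_, hq' A π1 _ h2.1 (j.imp_step (fun _ _ h => Or.inl h)) (by unfold ascL; simp), ?_⟩
  have a1 := hP1 (A :: π)
  have a2 := hP2 (A :: π)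
  have e1 : (A :: π).tail = π := rfl
  have e2 : (A :: π).headD (var []) = A := rfl
  simp only [e1, e2, hl] at a1 a2
  rw [hl2] at a2
  rw [code_length] at h3 ⊢
  rw [code_length] at h3 ⊢
  refine (hP3 _).trans ?_
  rw [Polynomial.eval_comp]
  refine poly_mono P3 ?_
  rw [sz_pair, sz_pair]
  have a3 : sz π1 ≤ (p.comp P1).eval (sz (A :: π)) := by
    rw [Polynomial.eval_comp]
    exact h3.trans (poly_mono p a1)
  have a4 : sz A < sz (A :: π) := sz_mem_lt (by simp)
  simp only [Polynomial.eval_add, Polynomial.eval_X, Polynomial.eval_ofNat]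
  omega

/-! ### Summary -/

/-- **Disjunctions of disjoint copies.** -/
theorem asmC {F : List Rule} (hF : IsFrege F) :
    (∃ f : List Fm → List Fm,
      Nonempty (Turing.TM2ComputableInPolyTime codeProof codeProof f) ∧
      ∀ (A : Fm) (π : List Fm), ExtProof F A π →
        ∃ (B : Fm) (m : ℕ), m ≤ π.length ∧ DisjointCopies A B m ∧ PermProof F B (f π)) ∧
    (PSimulates (PermProof F) (ExtProof F) ↔ ClosedUnderContraction (PermProof F)) ∧
    (PSimulates (PermProof F) (ExtProof F) ↔ ClosedUnderRenaming (PermProof F)) ∧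
    (Simulates (PermProof F) (ExtProof F) ↔ ContractsCopies (PermProof F)) ∧
    (FeasibleDisjunction (PermProof F) → Simulates (PermProof F) (ExtProof F)) := by
  refine ⟨?_, ⟨fun h => asc_con_of_ren hF (asc_ren_of_sim hF h), asc_sim_of_con hF⟩,
    ⟨asc_ren_of_sim hF, fun h => asc_sim_of_con hF (asc_con_of_ren hF h)⟩,
    ⟨asc_con_of_size hF, asc_size_of_con hF⟩, asc_sim_of_fd hF⟩
  obtain ⟨f, hf, hf'⟩ := asc_main hF
  exact ⟨f, (tm2_iff_poly codeProof_eq codeProof_eq f).2 hf, hf'⟩

end Pool.Agent.H.MP_0447ec_lc.PS
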