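import Pool.Agent.H.MP_0447ec_lc.LV.AboveDefs
import Pool.Agent.H.MP_0447ec_lc.PS.Final2
import Pool.Agent.H.MP_0447ec_lc.LV.AsmC

/-!
# Proof systems that are closed under restrictions and simulate the permutation rule
-/

namespace Pool.Agent.H.MP_0447ec_lc.PS

open Fm Pool.Agent.H.MP_0447ec_lc.PT

theorem codeTwo_eq (x : List Fm × List Fm) : codeTwo x = (enc x).bits := by
  obtain ⟨π, σ⟩ := x
  simp only [codeTwo, codeProof_eq, enc_pair, D.bits]

theorem closedDer_iff {F : List Rule} {P : Fm → List Fm → Prop} :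
    ClosedUnderDerivations F P ↔
    ∃ g : List Fm × List Fm → List Fm, Poly g ∧
      ∀ (A B : Fm) (π σ : List Fm), P B π →
        Deriv (fun τ C => C = B ∨ RuleStep F τ C) σ → σ.getLast? = some A →
        P A (g (π, σ)) := by
  unfold ClosedUnderDerivations
  constructor
  · rintro ⟨f, h1, h2⟩
    exact ⟨f, (tm2_iff_poly codeTwo_eq codeProof_eq f).1 h1, h2⟩
  · rintro ⟨f, h1, h2⟩
    exact ⟨f, (tm2_iff_poly codeTwo_eq codeProof_eq f).2 h1, h2⟩

theorem above {F : List Rule} (hF : IsFrege F) {P : Fm → List Fm → Prop}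
    (hR : ClosedUnderRestrictions P) (hD : ClosedUnderDerivations F P)
    (h : PSimulates P (PermProof F)) : PSimulates P (ExtProof F) := by
  obtain ⟨k⟩ := exists_kit hF
  rw [closed_iff] at hR
  rw [psim_iff] at h ⊢
  obtain ⟨f, hf, hf'⟩ := h
  obtain ⟨g, hg, hg'⟩ := hR
  obtain ⟨e, he, he'⟩ := closedDer_iff.1 hD
  refine ⟨fun π => e (g ((rT (extL (lastF π) π), rF (lenB π) (extL (lastF π) π)), f (T1 k π)),
    T3 k (lastF π) (extL (lastF π) π) [padF (lastF π) (extL (lastF π) π)]), ?_, ?_⟩
  · have h1 : Poly (fun π : List Fm => f (T1 k π)) := Poly.comp hf (Poly.T1 k Poly.id)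
    have h2 : Poly (fun π : List Fm =>
        g ((rT (extL (lastF π) π), rF (lenB π) (extL (lastF π) π)), f (T1 k π))) :=
      Poly.comp hg (Poly.pair (by fun_prop) h1)
    have h3 : Poly (fun π : List Fm =>
        T3 k (lastF π) (extL (lastF π) π) [padF (lastF π) (extL (lastF π) π)]) :=
      Poly.T3 k (by fun_prop) (by fun_prop) (by fun_prop)
    exact Poly.comp he (Poly.pair h2 h3)
  · intro A π hπ
    have hl : lastF π = A := lastF_eq hπ.2
    simp only [hl]
    have h1 := hf' _ _ (T1_spec k hπ)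
    have h2 := hg' _ _ (rT (extL A π)) (rF (lenB π) (extL A π)) h1
    rw [restrict_eq, restrict_pad hπ] at h2
    have hm : Mono (fun τ C => C = padF A (extL A π) ∨ RuleStep F τ C) := by
      rintro τ τ' C hτ (h | h)
      · exact Or.inl h
      · exact Or.inr (mono_ruleStep F τ τ' C hτ h)
    have h3 : Deriv (fun τ C => C = padF A (extL A π) ∨ RuleStep F τ C)
        [padF A (extL A π)] := Deriv.snoc (π := []) Deriv.nil (Or.inl rfl)
    obtain ⟨h4, h5⟩ := T3_spec k hm (fun _ _ h => Or.inr h) A (extL A π) _ h3 (by simp)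
    exact he' A _ _ _ h2 h4 h5

theorem above_ren {F : List Rule} (hF : IsFrege F) {P : Fm → List Fm → Prop}
    (hR : ClosedUnderRenaming P) (hD : ClosedUnderDerivations F P)
    (h : PSimulates P (PermProof F)) : PSimulates P (ExtProof F) := by
  rw [psim_iff] at h ⊢
  obtain ⟨f, hf, hf'⟩ := h
  obtain ⟨g, hg, hg'⟩ := asc_ren_iff.1 hR
  obtain ⟨e, he, he'⟩ := closedDer_iff.1 hD
  obtain ⟨c, hc, hc'⟩ := asc_main hF
  obtain ⟨rb, hrb, hrb'⟩ := robust hF (GG_sound hF)
  refine ⟨fun π => e (g ((nms (lastF (c π)), (nms (lastF (c π))).flatMap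
      (fun _ => nms (lastF π))), f (c π)),
    rb (cutAt (lastF π) (app [] ([(lastF (c π)).subst (tsub (ascT (lastF π) (lastF (c π))))] ++
      ascL (lastF π) ((lastF (c π)).subst (tsub (ascT (lastF π) (lastF (c π)))))
        (nms (lastF (c π))).length)))), ?_, ?_⟩
  · have hN : Poly (fun π : List Fm => nms (lastF (c π))) :=
      Poly.nms (Poly.lastF hc)
    have h0 : Poly (fun π : List Fm => (nms (lastF (c π))).flatMap
        (fun _ => nms (lastF π))) :=
      PT.Poly.flatMap (f := fun (π : List Fm) (_ : Nm) => nms (lastF π)) (by fun_prop)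
        (by fun_prop)
    have h1 : Poly (fun π : List Fm => g ((nms (lastF (c π)), (nms (lastF (c π))).flatMap
      (fun _ => nms (lastF π))), f (c π))) :=
      Poly.comp hg (Poly.pair (Poly.pair hN h0) (Poly.comp hf hc))
    have h2 : Poly (fun π : List Fm =>
        (lastF (c π)).subst (tsub (ascT (lastF π) (lastF (c π))))) := by
      have h4 : Poly (fun π : List Fm => (nms (lastF (c π))).zip
          ((nms (lastF (c π))).flatMap (fun _ => nms (lastF π)))) := Poly.zip hN h0
      have h5 : Poly (fun π : List Fm => ((nms (lastF (c π))).zip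
          ((nms (lastF (c π))).flatMap (fun _ => nms (lastF π)))).map
            (fun p => (p.1, var p.2))) :=
        PT.Poly.map (f := fun (_ : List Fm) (p : Nm × Nm) => (p.1, var p.2)) (by fun_prop) h4
      exact Poly.substT h5 (Poly.lastF hc)
    have h3 : Poly (fun π : List Fm => [(lastF (c π)).subst (tsub (ascT (lastF π)
        (lastF (c π))))] ++ ascL (lastF π) ((lastF (c π)).subst (tsub (ascT (lastF π)
          (lastF (c π))))) (nms (lastF (c π))).length) :=
      Poly.append (PT.Poly.lcons h2 (PT.Poly.const [])) (Poly.ascL (by fun_prop) h2 hN.length)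
    exact Poly.comp he (Poly.pair h1 (Poly.comp hrb (Poly.cutAt (by fun_prop)
      (Poly.app (by fun_prop) h3))))
  · intro A π hπ
    have hl : lastF π = A := lastF_eq hπ.2
    obtain ⟨B, m, -, hB, hcπ⟩ := hc' A π hπ
    have hl2 : lastF (c π) = B := lastF_eq hcπ.2
    simp only [hl, hl2]
    obtain ⟨m1, m2⟩ := asc_rename_copies hB
    have h1 := hg' B _ (nms B) ((nms B).flatMap (fun _ => nms A)) (hf' _ _ hcπ)
    rw [m2] at h1
    have hX : B.subst (tsub (ascT A B)) = ascOr A m := by
      rw [asc_rename_eq] at m2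
      exact m2
    rw [hX]
    have hm : Mono (fun (_ : List Fm) (C : Fm) => C = ascOr A m) := fun _ _ _ _ h => h
    have hm2 : Mono (fun τ C => RuleStep (GG F) τ C ∨ C = ascOr A m) := by
      rintro τ τ' C hτ (h | h)
      · exact Or.inl (mono_ruleStep (GG F) τ τ' C hτ h)
      · exact Or.inr h
    have j : Just (fun τ C => RuleStep (GG F) τ C ∨ C = ascOr A m) []
        ([ascOr A m] ++ ascL A (ascOr A m) (nms B).length) := by
      refine Just.append ⟨Or.inr (Or.inr rfl), trivial⟩ ?_
      exact (ascL_just (GG_rich F) m1 (by simp)).imp_step (fun _ _ h => Or.inl h)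
    have hAm : A ∈ app [] ([ascOr A m] ++ ascL A (ascOr A m) (nms B).length) := by
      refine mem_app.2 (Or.inr (List.mem_append_right _ ?_))
      unfold ascL
      simp
    obtain ⟨d1, d2⟩ := deriv_cutAt (deriv_app hm2 Deriv.nil j) hAm
    obtain ⟨r1, r2, -⟩ := hrb' (fun _ C => C = ascOr A m) hm _ A d1 d2
    exact he' A _ _ _ h1 (r1.imp_step (fun _ _ h => h.symm)) r2

/-- A proof system that is p-closed under restrictions and derivations in `F` p-simulates the
permutation rule if and only if it p-simulates the extension rule. -/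
theorem above_iff {F : List Rule} (hF : IsFrege F) {P : Fm → List Fm → Prop}
    (hD : ClosedUnderDerivations F P)
    (hR : ClosedUnderRestrictions P ∨ ClosedUnderRenaming P) :
    PSimulates P (PermProof F) ↔ PSimulates P (ExtProof F) :=
  ⟨fun h => hR.elim (fun hR => above hF hR hD h) (fun hR => above_ren hF hR hD h),
    fun h => h.trans (ext_simulates_perm hF)⟩

/-- Frege systems are p-closed under restrictions. -/
theorem frege_closedR (F : List Rule) : ClosedUnderRestrictions (FregeProof F) := by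
  rw [closed_iff]
  refine ⟨fun x => x.2.map (fun B => B.subst (cst x.1.1 x.1.2)), ?_, ?_⟩
  · refine PT.Poly.map (f := fun (x : (List Nm × List Nm) × List Fm) (B : Fm) =>
      B.subst (cst x.1.1 x.1.2)) ?_ (by fun_prop)
    exact Poly.substCst (by fun_prop) (by fun_prop) (by fun_prop)
  · intro A π T U hπ
    refine ⟨hπ.1.map_subst (cst T U), ?_⟩
    rw [List.getLast?_map, hπ.2]
    rfl

theorem frege_closedD (F : List Rule) : ClosedUnderDerivations F (FregeProof F) := by
  rw [closedDer_iff]
  refine ⟨fun x => cutAt (lastF x.2) (app x.1 x.2), by fun_prop, ?_⟩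
  intro A B π σ hB hσ hA
  have hl : lastF σ = A := lastF_eq hA
  have hBπ : B ∈ π := List.mem_of_getLast? hB.2
  have hm : Mono (fun τ C => C = B ∨ RuleStep F τ C) := by
    rintro τ τ' C hτ (h | h)
    · exact Or.inl h
    · exact Or.inr (mono_ruleStep F τ τ' C hτ h)
  have h1 : Just (fun τ C => C = B ∨ RuleStep F τ C) π σ := hσ.just hm π
  have h2 : ∀ {σ τ : List Fm}, B ∈ τ → Just (fun τ C => C = B ∨ RuleStep F τ C) τ σ →
      Just (RuleStep F) τ σ := by
    intro σ
    induction σ with
    | nil => intro τ _ _; trivial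
    | cons C σ ih =>
      rintro τ hτ ⟨h1, h2⟩
      refine ⟨?_, ih (List.mem_append_left _ hτ) h2⟩
      rcases h1 with h1 | h1 | h1
      · exact Or.inl h1
      · exact Or.inl (h1 ▸ hτ)
      · exact Or.inr h1
  have h3 := deriv_app (mono_ruleStep F) hB.1 (h2 hBπ h1)
  have h4 := deriv_cutAt h3 (mem_app.2 (Or.inr (List.mem_of_getLast? hA)))
  simp only [hl]
  exact h4

end Pool.Agent.H.MP_0447ec_lc.PS
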