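import Pool.Agent.H.MP_0447ec_lc.LV.BwA

/-!
# From extended Frege proofs of small bandwidth to substitution Frege proofs with few variables:
variables, polynomial time
-/

namespace Pool.Agent.H.MP_0447ec_lc.PS

open Fm Pool.Agent.H.MP_0447ec_lc.PT

/-! ### Variables -/

/-- The variables that may occur. -/
def bwV (c : Cx) : Set Nm :=
  {x | x ∈ c.1.1.vars ∨ x = bwD c ∨ ∃ k ≤ c.2.1, x = bwN c k}

theorem bwR_mem (c : Cx) (x : Nm) : bwR c x ∈ bwV c := by
  unfold bwR
  split_ifs with h1 h2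
  · exact Or.inl (mem_nms.1 h1)
  · refine Or.inr (Or.inr ⟨_, ?_, rfl⟩)
    rw [bwM_eq]
    have := Nat.mod_lt (bwI c.1.2 x) (y := c.2.1 + 1) (by omega)
    omega
  · exact Or.inr (Or.inl rfl)

theorem bwC_sub (c : Cx) (C : Fm) : (bwC c C).vars ⊆ bwV c := by
  apply sf_subst_subset
  intro w _
  simp only [Fm.vars, Set.singleton_subset_iff]
  exact bwR_mem c w

theorem bwT_sub (c : Cx) (b : Bool) : (ct (bwD c) b).vars ⊆ bwV c := by
  intro x hx
  rw [vars_ct] at hx
  exact Or.inr (Or.inl hx)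

theorem bwJ_sub (c : Cx) (pre : List Fm) (i : ℕ) : (bwJ c pre i).vars ⊆ bwV c := by
  intro x hx
  unfold bwJ at hx
  rw [vars_cj] at hx
  rcases hx with hx | ⟨X, hX, hx⟩
  · exact Or.inr (Or.inl hx)
  · obtain ⟨C, -, rfl⟩ := List.mem_map.1 hX
    exact bwC_sub c C hx

theorem bwH_sub (c : Cx) (pre : List Fm) (p : (Nm × Fm) × ℕ) : (bwH c pre p).vars ⊆ bwV c :=
  Set.union_subset (bwC_sub c _) (bwJ_sub c _ _)

theorem bwS_sub (c : Cx) (p : (Nm × Fm) × ℕ) {X : Fm} (hX : X.vars ⊆ bwV c) :
    (X.subst (bwS c p)).vars ⊆ bwV c := by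
  apply sf_subst_subset
  intro w hw
  unfold bwS sfS
  split_ifs with h
  · exact bwC_sub c _
  · simp only [Fm.vars, Set.singleton_subset_iff]
    exact hX hw

theorem imp_sub {c : Cx} {X Y : Fm} (hX : X.vars ⊆ bwV c) (hY : Y.vars ⊆ bwV c) :
    (imp X Y).vars ⊆ bwV c := Set.union_subset hX hY

theorem li_sub {c : Cx} {H H' A B C : Fm} (h1 : H.vars ⊆ bwV c) (h2 : H'.vars ⊆ bwV c)
    (h3 : A.vars ⊆ bwV c) (h4 : B.vars ⊆ bwV c) (hC : C ∈ li H H' A B) : C.vars ⊆ bwV c := by
  intro x hx
  rcases li_vars hC hx with h | h | h | h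
  · exact h1 h
  · exact h2 h
  · exact h3 h
  · exact h4 h

theorem proj_sub {c : Cx} {H C : Fm} (h1 : H.vars ⊆ bwV c) (hC : C ∈ projL H) :
    C.vars ⊆ bwV c := fun _ hx => h1 (projL_vars hC hx)

theorem bwG_sub {c : Cx} {pre : List Fm} {C : Fm} {p : (Nm × Fm) × ℕ} {X : Fm}
    (h : X ∈ bwG c pre C p) : X.vars ⊆ bwV c := by
  have h1 := imp_sub (bwH_sub c pre p) (bwC_sub c C)
  unfold bwG at h
  rcases List.mem_append.1 h with h | h
  · simp only [List.mem_cons, List.not_mem_nil, or_false] at h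
    rcases h with rfl | rfl
    · exact h1
    · exact bwS_sub c p h1
  · exact li_sub (bwJ_sub c _ _) (bwS_sub c p (bwH_sub c pre p)) (bwC_sub c C) (bwC_sub c C) h

theorem bwDn_sub {c : Cx} {pre : List Fm} {C : Fm} {m : ℕ} {X : Fm}
    (h : X ∈ bwDn c pre C m) : X.vars ⊆ bwV c := by
  unfold bwDn at h
  obtain ⟨p, -, h⟩ := List.mem_flatMap.1 h
  split_ifs at h
  · exact bwG_sub h
  · simp at h

theorem bwB1_sub {c : Cx} {FV : List (Rule × List Nm)} {cands pre : List Fm} {C X : Fm}
    (h : X ∈ bwB1 c FV cands pre C) : X.vars ⊆ bwV c := by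
  unfold bwB1 at h
  obtain ⟨m, -, h⟩ := List.mem_flatMap.1 h
  rcases List.mem_append.1 h with h | h
  · exact proj_sub (bwJ_sub c _ _) h
  · rcases List.mem_append.1 h with h | h
    · rw [List.mem_singleton] at h
      subst h
      exact imp_sub (bwJ_sub c _ _) (bwC_sub c C)
    · exact bwDn_sub h

theorem bwU_sub {c : Cx} {pre : List Fm} {C : Fm} {p : (Nm × Fm) × ℕ} {X : Fm}
    (h : X ∈ bwU c pre C p) : X.vars ⊆ bwV c := by
  unfold bwU at h
  rcases List.mem_append.1 h with h | h
  · exact li_sub (bwH_sub c _ _) (bwH_sub c _ _) (bwJ_sub c _ _) (bwJ_sub c _ _) h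
  · rcases List.mem_append.1 h with h | h
    · exact proj_sub (bwH_sub c _ _) h
    · rcases List.mem_append.1 h with h | h
      · split_ifs at h
        · rw [List.mem_singleton] at h
          subst h
          exact imp_sub (bwH_sub c _ _) (bwC_sub c C)
        · simp at h
      · rw [List.mem_singleton] at h
        subst h
        exact imp_sub (bwH_sub c _ _) (bwJ_sub c _ _)

theorem bwU0_sub {c : Cx} {pre : List Fm} {C X : Fm} (h : X ∈ bwU0 c pre C) :
    X.vars ⊆ bwV c := by
  unfold bwU0 at h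
  split_ifs at h
  · simp only [List.mem_cons, List.not_mem_nil, or_false] at h
    rcases h with rfl | rfl
    · exact imp_sub (bwT_sub c _) (bwC_sub c C)
    · exact imp_sub (bwT_sub c _) (bwJ_sub c _ _)
  · simp at h

theorem bwP_sub {c : Cx} {FV : List (Rule × List Nm)} {cands π : List Fm} {X : Fm}
    (h : X ∈ bwP c FV cands π) : X.vars ⊆ bwV c := by
  unfold bwP bwZ at h
  rcases List.mem_append.1 h with h | h
  · rcases List.mem_append.1 h with h | h
    · exact proj_sub (bwT_sub c _) h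
    · obtain ⟨p, -, h⟩ := List.mem_flatMap.1 h
      exact proj_sub (bwH_sub c _ _) h
  · obtain ⟨p, -, h⟩ := List.mem_flatMap.1 h
    unfold bwBlk at h
    rcases List.mem_append.1 h with h | h
    · exact bwB1_sub h
    · rcases List.mem_append.1 h with h | h
      · exact bwU0_sub h
      · obtain ⟨q, -, h⟩ := List.mem_flatMap.1 h
        exact bwU_sub h

theorem bwE_sub {c : Cx} {π : List Fm} {X : Fm} (h : X ∈ bwE c π) : X.vars ⊆ bwV c := by
  have hA : c.1.1.vars ⊆ bwV c := fun x hx => Or.inl hx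
  unfold bwE at h
  rcases List.mem_append.1 h with h | h
  · exact proj_sub (bwJ_sub c _ _) h
  · simp only [List.mem_cons, List.not_mem_nil, or_false] at h
    rcases h with rfl | rfl
    · exact imp_sub (bwT_sub c _) hA
    · exact hA

theorem bw_numVars {c : Cx} {σ : List Fm} (h : ∀ X ∈ σ, X.vars ⊆ bwV c) :
    numVars σ ≤ numVars [c.1.1] + c.2.1 + 2 := by
  have h1 := numVars_le_length (π := σ) (l := dd (nms c.1.1) ++ ([bwD c] ++
    (List.range (c.2.1 + 1)).map (bwN c))) (by
      intro X hX x hx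
      simp only [List.mem_append, List.mem_singleton, List.mem_map, List.mem_range, mem_dd,
        mem_nms]
      rcases h X hX hx with h | h | ⟨k, hk, h⟩
      · exact Or.inl h
      · exact Or.inr (Or.inl h)
      · exact Or.inr (Or.inr ⟨k, by omega, h.symm⟩))
  rw [numVars_one]
  simp only [List.length_append, List.length_singleton, List.length_map,
    List.length_range] at h1
  omega

/-! ### Polynomial time -/

section

variable {α : Type} [Enc α]

@[fun_prop]
theorem Poly.bwI {E : α → List (Nm × Fm)} {x : α → Nm} (hE : Poly E) (hx : Poly x) :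
    Poly (fun a => bwI (E a) (x a)) := by
  have : Poly (fun a =>
      (((E a).map Prod.fst).takeWhile (fun y => !decide (y = x a))).length) := by
    refine Poly.length (Poly.takeWhile (f := fun a y => !decide (y = x a)) ?_ (by fun_prop))
    fun_prop
  refine (show (fun a => PS.bwI (E a) (x a)) = _ from ?_) ▸ this
  funext a
  unfold PS.bwI
  induction (E a).map Prod.fst with
  | nil => simp
  | cons b l ih =>
    rw [List.idxOf_cons, List.takeWhile_cons]
    by_cases h : b = x a
    · simp [h]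
    · have hb : (b == x a) = false := beq_false_of_ne h
      simp [h, hb, ih]

@[fun_prop]
theorem Poly.bwM {k b : α → ℕ} (hk : Poly k) (hb : Poly b) :
    Poly (fun a => bwM (k a) (b a)) := by
  unfold PS.bwM
  fun_prop

@[fun_prop]
theorem Poly.bwD {c : α → Cx} (hc : Poly c) : Poly (fun a => bwD (c a)) := by
  unfold PS.bwD
  fun_prop

@[fun_prop]
theorem Poly.bwN {c : α → Cx} {k : α → ℕ} (hc : Poly c) (hk : Poly k) :
    Poly (fun a => bwN (c a) (k a)) := by
  unfold PS.bwN
  fun_prop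

@[fun_prop]
theorem Poly.bwR {c : α → Cx} {x : α → Nm} (hc : Poly c) (hx : Poly x) :
    Poly (fun a => bwR (c a) (x a)) := by
  unfold PS.bwR
  fun_prop

@[fun_prop]
theorem Poly.bwC {c : α → Cx} {C : α → Fm} (hc : Poly c) (hC : Poly C) :
    Poly (fun a => bwC (c a) (C a)) := by
  unfold PS.bwC
  exact Poly.substP (s := fun a x => Fm.var (PS.bwR (c a) x)) (by fun_prop) hC

@[fun_prop]
theorem Poly.bwW {c : α → Cx} {i : α → ℕ} {C : α → Fm} (hc : Poly c) (hi : Poly i)
    (hC : Poly C) : Poly (fun a => bwW (c a) (i a) (C a)) := by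
  unfold PS.bwW
  fun_prop

@[fun_prop]
theorem Poly.bwJ {c : α → Cx} {pre : α → List Fm} {i : α → ℕ} (hc : Poly c) (hp : Poly pre)
    (hi : Poly i) : Poly (fun a => bwJ (c a) (pre a) (i a)) := by
  unfold PS.bwJ
  fun_prop

@[fun_prop]
theorem Poly.bwH {c : α → Cx} {pre : α → List Fm} {p : α → (Nm × Fm) × ℕ} (hc : Poly c)
    (hpre : Poly pre) (hp : Poly p) : Poly (fun a => bwH (c a) (pre a) (p a)) := by
  unfold PS.bwH
  fun_prop

@[fun_prop]
theorem Poly.bwSsub {c : α → Cx} {p : α → (Nm × Fm) × ℕ} {X : α → Fm} (hc : Poly c)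
    (hp : Poly p) (hX : Poly X) : Poly (fun a => (X a).subst (bwS (c a) (p a))) := by
  unfold PS.bwS
  fun_prop

@[fun_prop]
theorem Poly.bwG {c : α → Cx} {pre : α → List Fm} {C : α → Fm} {p : α → (Nm × Fm) × ℕ}
    (hc : Poly c) (hpre : Poly pre) (hC : Poly C) (hp : Poly p) :
    Poly (fun a => bwG (c a) (pre a) (C a) (p a)) := by
  unfold PS.bwG
  fun_prop

@[fun_prop]
theorem Poly.bwDn {c : α → Cx} {pre : α → List Fm} {C : α → Fm} {m : α → ℕ}
    (hc : Poly c) (hpre : Poly pre) (hC : Poly C) (hm : Poly m) :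
    Poly (fun a => bwDn (c a) (pre a) (C a) (m a)) := by
  unfold PS.bwDn
  fun_prop

@[fun_prop]
theorem Poly.rchL {cands pre : α → List Fm} {B : α → Fm} (FV : List (Rule × List Nm))
    (hc : Poly cands) (hp : Poly pre) (hB : Poly B) :
    Poly (fun a => rchL FV (cands a) (pre a) (B a)) := by
  unfold PS.rchL
  refine Poly.flatMapConst _ ?_
  intro t
  refine Poly.flatMap ?_ (Poly.assigns hc _)
  have hls : ∀ P : Fm, Poly (fun p : α × List Fm => P.subst (PS.lsub t.2 p.2)) := by
    intro P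
    exact Poly.substConst (s := fun p : α × List Fm => PS.lsub t.2 p.2) P
      (fun x => Poly.lsub (vals := fun p : α × List Fm => p.2) (by fun_prop) _ _)
  refine Poly.ifb (Poly.and (Poly.allConst _ ?_) ?_) (by fun_prop) (by fun_prop)
  · intro P
    exact Poly.decMem (hls P) (by fun_prop)
  · exact Poly.decEq (hls _) (by fun_prop)

@[fun_prop]
theorem Poly.bwT {c : α → Cx} {cands pre : α → List Fm} {C : α → Fm}
    (FV : List (Rule × List Nm)) (hc : Poly c) (hcands : Poly cands) (hpre : Poly pre)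
    (hC : Poly C) : Poly (fun a => bwT (c a) FV (cands a) (pre a) (C a)) := by
  unfold PS.bwT
  have h1 : Poly (fun p : α × ℕ => PS.rchL FV (cands p.1)
      ((pre p.1).filter (PS.bwW (c p.1) p.2)) (C p.1)) := by
    apply Poly.rchL
    · fun_prop
    · fun_prop
    · fun_prop
  fun_prop

@[fun_prop]
theorem Poly.bwB1 {c : α → Cx} {cands pre : α → List Fm} {C : α → Fm}
    (FV : List (Rule × List Nm)) (hc : Poly c) (hcands : Poly cands) (hpre : Poly pre)
    (hC : Poly C) : Poly (fun a => bwB1 (c a) FV (cands a) (pre a) (C a)) := by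
  unfold PS.bwB1
  have h1 := Poly.bwT FV hc hcands hpre hC
  fun_prop

@[fun_prop]
theorem Poly.bwU {c : α → Cx} {pre : α → List Fm} {C : α → Fm} {p : α → (Nm × Fm) × ℕ}
    (hc : Poly c) (hpre : Poly pre) (hC : Poly C) (hp : Poly p) :
    Poly (fun a => bwU (c a) (pre a) (C a) (p a)) := by
  unfold PS.bwU
  fun_prop

@[fun_prop]
theorem Poly.bwU0 {c : α → Cx} {pre : α → List Fm} {C : α → Fm}
    (hc : Poly c) (hpre : Poly pre) (hC : Poly C) :
    Poly (fun a => bwU0 (c a) (pre a) (C a)) := by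
  unfold PS.bwU0
  fun_prop

theorem Poly.bwBlk {c : α → Cx} {cands pre : α → List Fm} {C : α → Fm}
    (FV : List (Rule × List Nm)) (hc : Poly c) (hcands : Poly cands) (hpre : Poly pre)
    (hC : Poly C) : Poly (fun a => bwBlk (c a) FV (cands a) (pre a) (C a)) := by
  unfold PS.bwBlk
  have h1 := Poly.bwB1 FV hc hcands hpre hC
  fun_prop

theorem Poly.bwP {c : α → Cx} {cands π : α → List Fm} (FV : List (Rule × List Nm)) (hc : Poly c)
    (hcands : Poly cands) (hπ : Poly π) : Poly (fun a => bwP (c a) FV (cands a) (π a)) := by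
  unfold PS.bwP PS.bwZ
  have h1 : Poly (fun p : α × (List Fm × Fm) => PS.bwBlk (c p.1) FV (cands p.1) p.2.1 p.2.2) := by
    apply Poly.bwBlk
    · fun_prop
    · fun_prop
    · fun_prop
    · fun_prop
  fun_prop

@[fun_prop]
theorem Poly.bwE {c : α → Cx} {π : α → List Fm} (hc : Poly c) (hπ : Poly π) :
    Poly (fun a => bwE (c a) (π a)) := by
  unfold PS.bwE
  fun_prop

end

/-! ### The theorem -/

/-- The context of a proof. -/
def bwCx (x : List Fm × ℕ) : Cx :=
  ((lastF x.1, (extL (lastF x.1) x.1).reverse), x.2, lenB x.1)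

/-- The transformation. -/
def bwOut (FV : List (Rule × List Nm)) (x : List Fm × ℕ) : List Fm :=
  cutAt (lastF x.1) (app [] (bwP (bwCx x) FV (x.1.flatMap subs) x.1 ++ bwE (bwCx x) x.1))

theorem poly_bwOut (FV : List (Rule × List Nm)) : Poly (bwOut FV) := by
  have hc : Poly bwCx := by
    unfold bwCx
    fun_prop
  have h1 : Poly (fun x : List Fm × ℕ => bwP (bwCx x) FV (x.1.flatMap subs) x.1) :=
    Poly.bwP FV hc (by fun_prop) (by fun_prop)
  unfold bwOut
  fun_prop

theorem narrow_to_subst {F : List Rule} (hF : IsFrege F) :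
    ∃ g : List Fm × ℕ → List Fm, Poly g ∧ ∀ (A : Fm) (b : ℕ) (π : List Fm),
      NarrowProof F A b π → SubstProof F A (g (π, b)) ∧
        numVars (g (π, b)) ≤ numVars [A] + b + 2 := by
  obtain ⟨h, hh, hh'⟩ := robust hF (GG_sound hF)
  refine ⟨fun x => h (bwOut (bwFV F) x), Poly.comp hh (poly_bwOut _), ?_⟩
  rintro A b π ⟨⟨L, hL⟩, hlast⟩
  obtain ⟨E, -, hE⟩ := narrowE_of hL
  have hl : lastF π = A := lastF_eq hlast
  have hA : A ∈ π := List.mem_of_getLast? hlast
  have hext : (extL A π).reverse = E := hE.extL_eq hF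
  have hcx : bwCx (π, b) = ((A, E), b, lenB π) := by
    unfold bwCx
    simp only
    rw [hl, hext]
  have hc : CxOk ((A, E), b, lenB π) :=
    ⟨hE.names.1, hE.names.2, hE.wd, fun x hx => (lenB_spec hA hx).le, by
      intro e he
      rw [← hext, List.mem_reverse] at he
      unfold extL at he
      rw [List.mem_reverse, List.mem_flatMap] at he
      obtain ⟨p, -, he⟩ := he
      exact (isExt_sound he).2.1⟩
  obtain ⟨j1, m1⟩ := bwP_just (M := lenB π) (cands := π.flatMap subs) hE [] (by simpa using hc)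
    (by simp) (fun D hD X hX => List.mem_flatMap.2 ⟨D, hD, hX⟩)
  rw [List.append_nil] at j1 m1
  obtain ⟨j2, m2⟩ := bwE_just (GG_rich F) hc hA m1
  have j : Just (GS (GG F)) [] (bwP ((A, E), b, lenB π) (bwFV F) (π.flatMap subs) π ++
      bwE ((A, E), b, lenB π) π) :=
    Just.append j1 (Just.imp_step (by simpa using j2) (fun _ _ h => Or.inl h))
  have hD := deriv_app (mono_GS (GG F)) Deriv.nil j
  have hm : A ∈ app [] (bwP ((A, E), b, lenB π) (bwFV F) (π.flatMap subs) π ++
      bwE ((A, E), b, lenB π) π) := mem_app.2 (Or.inr (List.mem_append_right _ m2))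
  obtain ⟨d1, d2⟩ := deriv_cutAt hD hm
  have hout : bwOut (bwFV F) (π, b) = cutAt A (app [] (bwP ((A, E), b, lenB π) (bwFV F)
      (π.flatMap subs) π ++ bwE ((A, E), b, lenB π) π)) := by
    unfold bwOut
    rw [hcx]
    simp only
    rw [hl]
  rw [← hout] at d1 d2
  obtain ⟨f1, f2, f3⟩ := hh' SubstStep mono_substStep _ _ d1 d2
  refine ⟨⟨f1, f2⟩, ?_⟩
  refine (numVars_mono f3).trans ?_
  have hV : ∀ X ∈ bwOut (bwFV F) (π, b), X.vars ⊆ bwV ((A, E), b, lenB π) := by
    intro X hX
    rw [hout] at hX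
    have hX' : X ∈ bwP ((A, E), b, lenB π) (bwFV F) (π.flatMap subs) π ++
        bwE ((A, E), b, lenB π) π := by
      unfold cutAt at hX
      rcases List.mem_append.1 hX with hX | hX
      · have := (List.takeWhile_prefix _).subset hX
        simpa using mem_app.1 this
      · rw [List.mem_singleton] at hX
        subst hX
        exact List.mem_append_right _ m2
    rcases List.mem_append.1 hX' with hX' | hX'
    · exact bwP_sub hX'
    · exact bwE_sub hX'
  exact bw_numVars hV

end Pool.Agent.H.MP_0447ec_lc.PS
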