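import Pool.Agent.H.MP_0447ec_lc.LV.StDefs
import Pool.Agent.H.MP_0447ec_lc.LV.BwA2
import Pool.Agent.H.MP_0447ec_lc.LV.SliceB
import Pool.Agent.H.MP_0447ec_lc.LV.AsmC

/-!
# Extended Frege proofs of small bandwidth are converted in subexponential time
-/

namespace Pool.Agent.H.MP_0447ec_lc.PS

open Fm Pool.Agent.H.MP_0447ec_lc.PT

/-! ### Extended Frege proofs and bandwidth -/

theorem NarrowDeriv.deriv {F : List Rule} {A : Fm} {b : ℕ} {π : List Fm} {L : List Nm}
    (h : NarrowDeriv F A b π L) : Deriv (fun σ B => RuleStep F σ B ∨ ExtStep A σ B) π := by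
  induction h with
  | nil => exact Deriv.nil
  | rule i σ _ h2 _ h4 ih =>
    exact Deriv.snoc ih (Or.inl (mono_ruleStep F _ _ _ (fun C hC => (h2 C hC).1) h4))
  | ext i _ h2 h3 h4 _ ih => exact Deriv.snoc ih (Or.inr ⟨_, _, rfl, h2, h3, h4⟩)

theorem NarrowProof.ext {F : List Rule} {A : Fm} {b : ℕ} {π : List Fm}
    (h : NarrowProof F A b π) : ExtProof F A π := by
  obtain ⟨⟨L, hL⟩, h2⟩ := h
  exact ⟨hL.deriv, h2⟩

theorem InWindow.mono {L : List Nm} {b b' i : ℕ} {C : Fm} (hb : b ≤ b') (h : InWindow L b i C) :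
    InWindow L b' i C := by
  intro x hx hx'
  exact (List.take_sublist_take_left hb).subset (h x hx hx')

theorem NarrowDeriv.mono {F : List Rule} {A : Fm} {b b' : ℕ} (hb : b ≤ b') {π : List Fm}
    {L : List Nm} (h : NarrowDeriv F A b π L) : NarrowDeriv F A b' π L := by
  induction h with
  | nil => exact NarrowDeriv.nil
  | rule i σ _ h2 h3 h4 ih =>
    exact NarrowDeriv.rule i σ ih (fun C hC => ⟨(h2 C hC).1, (h2 C hC).2.mono hb⟩)
      (h3.mono hb) h4
  | ext i _ h2 h3 h4 h5 ih => exact NarrowDeriv.ext i ih h2 h3 h4 (h5.mono hb)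

theorem NarrowProof.mono {F : List Rule} {A : Fm} {b b' : ℕ} (hb : b ≤ b') {π : List Fm}
    (h : NarrowProof F A b π) : NarrowProof F A b' π := by
  obtain ⟨⟨L, hL⟩, h2⟩ := h
  exact ⟨⟨L, hL.mono hb⟩, h2⟩

theorem narrow_of_deriv {F : List Rule} {A : Fm} {π : List Fm}
    (h : Deriv (fun σ B => RuleStep F σ B ∨ ExtStep A σ B) π) :
    ∀ b : ℕ, π.length ≤ b → ∃ L : List Nm, NarrowDeriv F A b π L ∧ L.length ≤ π.length := by
  induction h with
  | nil => intro b _; exact ⟨[], NarrowDeriv.nil, le_rfl⟩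
  | @snoc σ B _ h2 ih =>
    intro b hb
    rw [List.length_append, List.length_singleton] at hb
    obtain ⟨L, h3, h4⟩ := ih b (by omega)
    have hw : ∀ (L' : List Nm), L'.length ≤ b → ∀ C : Fm, InWindow L' b 0 C := by
      intro L' hL' C x _ hx'
      rwa [List.drop_zero, List.take_of_length_le hL']
    rcases h2 with h2 | ⟨q, φ, rfl, h5, h6, h7⟩
    · refine ⟨L, NarrowDeriv.rule 0 σ h3 (fun C hC => ⟨hC, hw L (by omega) C⟩)
        (hw L (by omega) B) h2, ?_⟩
      rw [List.length_append]; omega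
    · refine ⟨L ++ [q], NarrowDeriv.ext 0 h3 h5 h6 h7 (hw _ ?_ _), ?_⟩
      · rw [List.length_append, List.length_singleton]; omega
      · rw [List.length_append, List.length_append, List.length_singleton,
          List.length_singleton]; omega

theorem narrow_length {F : List Rule} {A : Fm} {π : List Fm} (h : ExtProof F A π) :
    NarrowProof F A π.length π := by
  obtain ⟨L, hL, -⟩ := narrow_of_deriv h.1 π.length le_rfl
  exact ⟨⟨L, hL⟩, h.2⟩

theorem narrow_bandwidth {F : List Rule} {A : Fm} {π : List Fm} (h : ExtProof F A π) :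
    NarrowProof F A (bandwidth F A π) π :=
  Nat.sInf_mem (s := {b : ℕ | NarrowProof F A b π}) ⟨_, narrow_length h⟩

theorem bandwidth_le {F : List Rule} {A : Fm} {π : List Fm} (h : ExtProof F A π) :
    bandwidth F A π ≤ π.length :=
  Nat.sInf_le (s := {b : ℕ | NarrowProof F A b π}) (narrow_length h)

/-! ### The slices -/

/-- The table of the slice. -/
def stTab (A : Fm) (j : ℕ) : List (Nm × Fm) :=
  regT [] ((List.range j).map (regName (bitLen A))) (sac A)

theorem stTab_slice (A : Fm) (j : ℕ) : A.subst (tsub (stTab A j)) = slice A j := by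
  rw [slice_eq]; rfl

/-- The table that negates the variables. -/
def stNeg (A : Fm) : List (Nm × Fm) := (varList A).map (fun x => (x, neg (var x)))

theorem stNeg_neg (A : Fm) : A.subst (tsub (stNeg A)) = negVars A := by
  unfold negVars
  apply Fm.subst_congr
  intro x hx
  refine tsub_of_mem (List.mem_map_of_mem (mem_varList.2 hx)) ?_
  unfold stNeg
  rw [List.map_map]
  have : (varList A).map (Prod.fst ∘ fun x : Nm => (x, neg (var x))) = varList A :=
    List.map_id'' (fun _ => rfl) _
  rw [this]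
  exact varList_nodup A

theorem numVars_slice (A : Fm) (j : ℕ) : numVars [slice A j] ≤ j * bitLen A + 1 := by
  have h := numVars_le_length (π := [slice A j])
    (l := ((List.range j).map (regName (bitLen A))).flatten ++ [[]]) (by
      intro C hC x hx
      rw [List.mem_singleton] at hC
      subst hC
      obtain ⟨y, -, hx⟩ := vars_subst hx
      unfold anyr at hx
      rw [vars_dj] at hx
      rcases hx with hx | ⟨X, hX, hx⟩
      · exact List.mem_append_right _ (by simp [hx])
      · obtain ⟨ys, hys, rfl⟩ := List.mem_map.1 hX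
        rcases vars_eqr hx with hx | hx
        · exact List.mem_append_right _ (by simp [hx])
        · exact List.mem_append_left _ (List.mem_flatten.2 ⟨ys, hys, hx⟩))
  have h2 : (((List.range j).map (regName (bitLen A))).flatten).length = j * bitLen A := by
    rw [List.length_flatten, List.map_map]
    have h3 : (List.length ∘ regName (bitLen A)) = fun _ => bitLen A := by
      funext J
      exact regName_length _ _
    rw [h3]
    simp
  rw [List.length_append, h2, List.length_singleton] at h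
  exact h

/-! ### The algorithm -/

/-- The functions that are used. -/
structure FnT where
  /-- substitution -/
  gN : List (Nm × Fm) × List Fm → List Fm
  /-- few variables -/
  gS : List Fm × ℕ → List Fm
  /-- brute force -/
  gB : ℕ × Fm → List Fm
  /-- from slices to the permutation rule -/
  gL : (ℕ × ℕ) × Fm × List (List Fm) × List (List Fm) → List Fm

namespace FnT

variable (q : FnT)

/-- The bandwidth that is allowed. -/
def B (x : List Fm × ℕ) : ℕ := cdiv (Nat.log 2 x.2 * Nat.log 2 x.2) (Nat.log 2 (sz x.1)) - 1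

/-- A proof of one slice; the input is `x, A, j` and a proof of `A`. -/
def P (y : (List Fm × ℕ) × Fm × ℕ × List Fm) : List Fm :=
  if y.2.2.1 * bitLen y.2.1 ≤ Nat.log 2 y.1.2 then q.gB (2 * y.1.2, slice y.2.1 y.2.2.1)
  else q.gS (q.gN (stTab y.2.1 y.2.2.1, y.2.2.2), B y.1)

/-- The proofs of all slices. -/
def Ps (y : (List Fm × ℕ) × Fm × List Fm) : List (List Fm) :=
  (List.range (varList y.2.1).length).map (fun j => q.P (y.1, y.2.1, j + 1, y.2.2))

/-- The result. -/
def out (x : List Fm × ℕ) : List Fm :=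
  q.gL ((bitLen (lastF x.1) + 3 + 2 * Nat.log 2 x.2,
    16 * (varList (lastF x.1)).length * ((x.2 + 1) * (x.2 + 1))), lastF x.1,
    q.Ps (x, lastF x.1, x.1), q.Ps (x, negVars (lastF x.1), q.gN (stNeg (lastF x.1), x.1)))

theorem pB : Poly B := by
  unfold B
  have h1 : Poly (fun x : List Fm × ℕ => Nat.log 2 (sz x.1)) := Poly.log2 (Poly.szOf (by fun_prop))
  have h2 : Poly (fun x : List Fm × ℕ => Nat.log 2 x.2) := Poly.log2 (by fun_prop)
  fun_prop

variable {q}

theorem pP (hN : Poly q.gN) (hS : Poly q.gS) (hB : Poly q.gB) : Poly q.P := by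
  unfold P stTab
  have h1 : Poly (fun y : (List Fm × ℕ) × Fm × ℕ × List Fm => Nat.log 2 y.1.2) :=
    Poly.log2 (by fun_prop)
  have h2 : Poly (fun y : (List Fm × ℕ) × Fm × ℕ × List Fm => B y.1) :=
    Poly.comp pB (by fun_prop)
  fun_prop

theorem pPs (hN : Poly q.gN) (hS : Poly q.gS) (hB : Poly q.gB) : Poly q.Ps := by
  have h := pP hN hS hB
  unfold Ps
  fun_prop

theorem pout (hN : Poly q.gN) (hS : Poly q.gS) (hB : Poly q.gB) (hL : Poly q.gL) :
    Poly q.out := by
  have h := pPs hN hS hB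
  unfold out stNeg
  have h1 : Poly (fun x : List Fm × ℕ => Nat.log 2 x.2) := Poly.log2 (by fun_prop)
  fun_prop

end FnT

/-! ### Correctness -/

/-- What is needed of the functions. -/
structure FnT.Spec (F : List Rule) (q : FnT) : Prop where
  hN : ∀ (A : Fm) (b : ℕ) (π : List Fm) (t : List (Nm × Fm)), NarrowProof F A b π →
    NarrowProof F (A.subst (tsub t)) b (q.gN (t, π))
  hS : ∀ (A : Fm) (b : ℕ) (π : List Fm), NarrowProof F A b π →
    SubstProof F A (q.gS (π, b)) ∧ numVars (q.gS (π, b)) ≤ numVars [A] + b + 2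
  hB : ∀ (M : ℕ) (A : Fm), (∀ v, A.Eval v) → 2 ^ numVars [A] ≤ M →
    FregeProof F A (q.gB (M, A)) ∧ ∀ C ∈ q.gB (M, A), ∀ x ∈ C.vars, x ∈ A.vars
  hL : ∀ (A : Fm) (k cap : ℕ) (σs σs' : List (List Fm)), 2 ^ k ≤ cap →
    σs.length = (varList A).length → σs'.length = (varList A).length →
    (∀ (j : ℕ) (hj : j < σs.length),
      SubstProof F (slice A (j + 1)) σs[j] ∧ numVars σs[j] ≤ k * (j + 1)) →
    (∀ (j : ℕ) (hj : j < σs'.length),
      SubstProof F (slice (negVars A) (j + 1)) σs'[j] ∧ numVars σs'[j] ≤ k * (j + 1)) →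
    PermProof F A (q.gL ((k, cap), A, σs, σs'))

theorem FregeProof.substProof {F : List Rule} {A : Fm} {π : List Fm} (h : FregeProof F A π) :
    SubstProof F A π := ⟨h.1.imp_step (fun _ _ h => Or.inl h), h.2⟩

theorem FnT.P_spec {F : List Rule} (hF : IsFrege F) {q : FnT} (hq : FnT.Spec F q) {A : Fm}
    {s ℓ M Bd : ℕ} {x : List Fm × ℕ} {ρ : List Fm} (hx : x.2 = M) (hB : FnT.B x = Bd)
    (hℓ : Nat.log 2 M = ℓ) (h1 : Bd * Nat.log 2 s ≤ ℓ * ℓ) (hs : 2 ≤ s)
    (hn : (varList A).length ≤ s) (hρ : NarrowProof F A Bd ρ) {j : ℕ} (hj : 0 < j) :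
    SubstProof F (slice A j) (q.P (x, A, j, ρ)) ∧
      numVars (q.P (x, A, j, ρ)) ≤ (bitLen A + 3 + 2 * ℓ) * j := by
  have hc : 0 < bitLen A := by unfold bitLen; omega
  have hsl := numVars_slice A j
  have htaut : ∀ v, (slice A j).Eval v := by
    intro v
    have := asc_ext_taut hF (hq.hN A Bd ρ (stTab A j) hρ).ext
    rw [stTab_slice] at this
    exact this v
  unfold FnT.P
  simp only
  split_ifs with hcond
  · rw [hx, hℓ] at hcond
    have hM : M ≠ 0 := by
      rintro rfl
      rw [Nat.log_zero_right] at hℓ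
      subst hℓ
      have := Nat.mul_pos hj hc
      omega
    have h2 : 2 ^ numVars [slice A j] ≤ 2 * M := by
      calc 2 ^ numVars [slice A j] ≤ 2 ^ (ℓ + 1) :=
            Nat.pow_le_pow_right (by norm_num) (by omega)
        _ = 2 * 2 ^ ℓ := by rw [pow_succ]; ring
        _ ≤ 2 * M := by
            refine Nat.mul_le_mul_left _ ?_
            rw [← hℓ]
            exact Nat.pow_log_le_self 2 hM
    rw [hx]
    obtain ⟨a1, a2⟩ := hq.hB (2 * M) (slice A j) htaut h2
    refine ⟨a1.substProof, ?_⟩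
    have a3 := numVars_mono (π := [slice A j]) (σ := q.gB (2 * M, slice A j))
      (fun C hC x hx => ⟨_, List.mem_singleton.2 rfl, a2 C hC x hx⟩)
    nlinarith
  · rw [hx, hℓ] at hcond
    have h2 := hq.hN A Bd ρ (stTab A j) hρ
    rw [stTab_slice] at h2
    rw [hB]
    obtain ⟨a1, a2⟩ := hq.hS _ _ _ h2
    refine ⟨a1, ?_⟩
    have hlog : 1 ≤ Nat.log 2 s := by
      have := Nat.log_mono_right (b := 2) hs
      have h3 : Nat.log 2 2 = 1 := by decide
      omega
    have hc2 : bitLen A ≤ 2 * Nat.log 2 s := by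
      unfold bitLen
      have := Nat.log_mono_right (b := 2) hn
      omega
    have hBd : Bd ≤ 2 * ℓ * j := by
      have h3 : Bd * Nat.log 2 s ≤ (2 * ℓ * j) * Nat.log 2 s := by
        calc Bd * Nat.log 2 s ≤ ℓ * ℓ := h1
          _ ≤ ℓ * (j * bitLen A) := Nat.mul_le_mul_left _ (by omega)
          _ ≤ ℓ * (j * (2 * Nat.log 2 s)) :=
              Nat.mul_le_mul_left _ (Nat.mul_le_mul_left _ hc2)
          _ = (2 * ℓ * j) * Nat.log 2 s := by ring
      exact Nat.le_of_mul_le_mul_right h3 hlog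
    nlinarith

theorem FnT.out_spec {F : List Rule} (hF : IsFrege F) {q : FnT} (hq : FnT.Spec F q) {A : Fm}
    {b M : ℕ} {π : List Fm} (hπ : NarrowProof F A b π)
    (hM : b * Nat.log 2 (sz π) ≤ Nat.log 2 M ^ 2) : PermProof F A (q.out (π, M)) := by
  have hl : lastF π = A := lastF_eq hπ.2
  have hne : π ≠ [] := by
    rintro rfl
    have := hπ.2
    simp at this
  have hs : 2 ≤ sz π := two_le_sz hne
  have hlog : 0 < Nat.log 2 (sz π) := by
    have := Nat.log_mono_right (b := 2) hs
    have h3 : Nat.log 2 2 = 1 := by decide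
    omega
  have hB : FnT.B (π, M) = (Nat.log 2 M * Nat.log 2 M) / Nat.log 2 (sz π) := by
    unfold FnT.B
    rw [cdiv_eq hlog, Nat.add_sub_cancel]
  have hb : b ≤ FnT.B (π, M) := by
    rw [hB, Nat.le_div_iff_mul_le hlog, ← sq]
    exact hM
  have hBd : FnT.B (π, M) * Nat.log 2 (sz π) ≤ Nat.log 2 M * Nat.log 2 M := by
    rw [hB]
    exact Nat.div_mul_le_self _ _
  have hnA : (varList A).length ≤ sz π := by
    have a1 : (varList A).length ≤ (nms A).length := (dd_sublist _).length_le
    have a2 : (nms A).length ≤ sz (nms A) := (length_lt_sz _).le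
    have a3 := sz_nms_le A
    have a4 := sz_mem_lt (List.mem_of_getLast? hπ.2)
    omega
  have hnneg : (varList (negVars A)).length = (varList A).length := by
    unfold negVars varList
    rw [nms_negv]
  have hbneg : bitLen (negVars A) = bitLen A := by
    unfold bitLen
    rw [hnneg]
  have hneg : NarrowProof F (negVars A) (FnT.B (π, M)) (q.gN (stNeg A, π)) := by
    have := hq.hN A _ π (stNeg A) (hπ.mono hb)
    rwa [stNeg_neg] at this
  unfold FnT.out
  simp only
  rw [hl]
  have hPs : ∀ (A' : Fm) (ρ : List Fm) (j : ℕ) (hj : j < (q.Ps ((π, M), A', ρ)).length),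
      (q.Ps ((π, M), A', ρ))[j] = q.P ((π, M), A', j + 1, ρ) := by
    intro A' ρ j hj
    simp only [FnT.Ps, List.getElem_map, List.getElem_range]
  have hPl : ∀ (A' : Fm) (ρ : List Fm), (q.Ps ((π, M), A', ρ)).length = (varList A').length := by
    intro A' ρ
    simp [FnT.Ps]
  refine hq.hL A _ _ _ _ ?_ (hPl _ _) ((hPl _ _).trans hnneg) ?_ ?_
  · have hn0 := varList_pos A
    have e1 : 2 ^ bitLen A ≤ 2 * (varList A).length := by
      unfold bitLen
      rw [pow_succ]
      have := Nat.pow_log_le_self 2 (x := (varList A).length) (by omega)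
      omega
    have e2 : 2 ^ Nat.log 2 M ≤ M + 1 := by
      rcases Nat.eq_zero_or_pos M with h | h
      · subst h; simp
      · have := Nat.pow_log_le_self 2 (x := M) (by omega)
        omega
    calc 2 ^ (bitLen A + 3 + 2 * Nat.log 2 M) =
          (2 ^ bitLen A) * 8 * (2 ^ Nat.log 2 M * 2 ^ Nat.log 2 M) := by
            rw [pow_add, pow_add, two_mul, pow_add]; norm_num
      _ ≤ (2 * (varList A).length) * 8 * ((M + 1) * (M + 1)) :=
            Nat.mul_le_mul (Nat.mul_le_mul_right _ e1) (Nat.mul_le_mul e2 e2)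
      _ = 16 * (varList A).length * ((M + 1) * (M + 1)) := by ring
  · intro j hj
    rw [hPs]
    exact FnT.P_spec hF hq rfl rfl rfl hBd hs hnA (hπ.mono hb) (by omega)
  · intro j hj
    rw [hPs, ← hbneg]
    exact FnT.P_spec hF hq rfl rfl rfl hBd hs (by rw [hnneg]; exact hnA) hneg (by omega)

/-- The theorem, from the two parts that are proved in other files. -/
theorem subTime_of {F : List Rule} (hF : IsFrege F)
    (hN : ∃ g : List (Nm × Fm) × List Fm → List Fm, Poly g ∧
      ∀ (A : Fm) (b : ℕ) (π : List Fm) (t : List (Nm × Fm)), NarrowProof F A b π →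
        NarrowProof F (A.subst (tsub t)) b (g (t, π)))
    (hB : ∃ g : ℕ × Fm → List Fm, Poly g ∧ ∀ (M : ℕ) (A : Fm), (∀ v, A.Eval v) →
      2 ^ numVars [A] ≤ M → FregeProof F A (g (M, A)) ∧
        ∀ C ∈ g (M, A), ∀ x ∈ C.vars, x ∈ A.vars) :
    ∃ f : List Fm × ℕ → List Fm, Poly f ∧
      ∀ (A : Fm) (b M : ℕ) (π : List Fm), NarrowProof F A b π →
        b * Nat.log 2 (codeProof π).length ≤ Nat.log 2 M ^ 2 → PermProof F A (f (π, M)) := by
  obtain ⟨gN, hN1, hN2⟩ := hN
  obtain ⟨gB, hB1, hB2⟩ := hB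
  obtain ⟨gS, hS1, hS2⟩ := narrow_to_subst hF
  obtain ⟨gL, hL1, hL2⟩ := sliceB hF
  refine ⟨(⟨gN, gS, gB, gL⟩ : FnT).out, FnT.pout hN1 hS1 hB1 hL1, ?_⟩
  intro A b M π hπ hM
  rw [code_length] at hM
  exact FnT.out_spec hF ⟨hN2, hS2, hB2, hL2⟩ hπ hM

theorem codeProofNat_eq (x : List Fm × ℕ) : codeProofNat x = (enc x).bits := by
  have h1 : ∀ n : ℕ, (List.replicate n [true, false]).flatten ++ [false] = (enc n).bits := by
    intro n
    induction n with
    | zero => rfl
    | succ n ih =>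
      rw [List.replicate_succ, List.flatten_cons, enc_succ]
      simp only [D.bits, ← ih]
      simp
  obtain ⟨π, n⟩ := x
  simp only [codeProofNat, h1, codeProof_eq, enc_pair, D.bits]

end Pool.Agent.H.MP_0447ec_lc.PS
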