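import Pool.Agent.H.MP_0447ec_lc.LV.SlDefs
import Pool.Agent.H.MP_0447ec_lc.LV.SliceA
import Pool.Agent.H.MP_0447ec_lc.LV.SliceB

/-!
# The lengths of proofs with the permutation rule and of substitution Frege proofs of the slices
-/

namespace Pool.Agent.H.MP_0447ec_lc.PS

open Fm Pool.Agent.H.MP_0447ec_lc.PT

theorem code_fm_length (A : Fm) : (codeFm A).length = sz A := by
  rw [codeFm_eq, D.bits_length]; rfl

theorem sl_negVars_proof {F : List Rule} {A : Fm} {π : List Fm} (h : PermProof F A π) :
    PermProof F (negVars A) (π.map (Fm.subst flp)) := by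
  obtain ⟨h1, h2⟩ := h
  refine ⟨?_, ?_⟩
  · clear h2
    induction h1 with
    | nil => exact Deriv.nil
    | @snoc σ B _ h3 ih =>
      rw [List.map_append, List.map_cons, List.map_nil]
      refine Deriv.snoc ih ?_
      rcases h3 with h3 | h3
      · exact Or.inl (ruleStep_subst h3 flp)
      · exact Or.inr (permStep_flp h3)
  · rw [List.getLast?_map, h2]
    rfl

theorem sl_log {s C : ℕ} (hs : 0 < s) : C * (Nat.log 2 s + 1) ≤ Nat.log 2 ((2 * s) ^ C) := by
  have h1 : 2 ^ (Nat.log 2 s + 1) ≤ 2 * s := by
    rw [pow_succ]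
    have := Nat.pow_log_le_self 2 (x := s) (by omega)
    omega
  calc C * (Nat.log 2 s + 1) = Nat.log 2 (2 ^ (C * (Nat.log 2 s + 1))) :=
        (Nat.log_pow (by norm_num) _).symm
    _ ≤ Nat.log 2 ((2 * s) ^ C) := by
        refine Nat.log_mono_right ?_
        rw [Nat.mul_comm, pow_mul]
        exact Nat.pow_le_pow_left h1 C

theorem sl_numVars_le {F : List Rule} {A : Fm} {π : List Fm} (h : PermProof F A π) :
    (varList A).length ≤ sz π := by
  have h1 : (varList A).length ≤ (nms A).length := (dd_sublist _).length_le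
  have h2 : (nms A).length ≤ sz (nms A) := (length_lt_sz _).le
  have h3 := sz_nms_le A
  have h4 := sz_mem_lt (List.mem_of_getLast? h.2)
  omega

theorem slices_main {F : List Rule} (hF : IsFrege F) : ∃ p : Polynomial ℕ, ∀ (A : Fm) (s : ℕ),
    (HasProofOfSize (PermProof F) A s → SliceProofs F A (p.eval s)) ∧
    (SliceProofs F A s → HasProofOfSize (PermProof F) A (p.eval (s + (codeFm A).length))) := by
  obtain ⟨C, g, hg, hg'⟩ := sliceA hF
  obtain ⟨e, he, he'⟩ := sliceB hF
  obtain ⟨Pg, hPg⟩ := hg.sz_le
  obtain ⟨Pe, hPe⟩ := he.sz_le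
  have hfl : Poly (fun π : List Fm => π.map (Fm.subst flp)) :=
    PT.Poly.map (f := fun (_ : List Fm) (B : Fm) => B.subst flp)
      (Poly.flpSubst (by fun_prop)) (by fun_prop)
  obtain ⟨Pf, hPf⟩ := hfl.sz_le
  -- bound for the slices of one formula
  have key : ∀ (A : Fm) (π : List Fm) (t : ℕ), PermProof F A π → sz π ≤ t → ∀ j, 0 < j →
      j ≤ (varList A).length → ∃ σ : List Fm, SubstProof F (slice A j) σ ∧
        (codeProof σ).length ≤ Pg.eval (3 * t + 2) ∧ numVars σ ≤ j * (C * (Nat.log 2 t + 1)) := by
    intro A π t hπ ht j hj hjn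
    obtain ⟨h1, h2⟩ := hg' A π j hj hπ
    refine ⟨g (π, j), h1, ?_, h2.trans ?_⟩
    · rw [code_length]
      refine (hPg (π, j)).trans (poly_mono Pg ?_)
      rw [sz_pair, sz_nat]
      have := sl_numVars_le hπ
      omega
    · have h3 : Nat.log 2 (sz π) ≤ Nat.log 2 t := Nat.log_mono_right ht
      calc C * j * (Nat.log 2 (sz π) + 1) ≤ C * j * (Nat.log 2 t + 1) :=
            Nat.mul_le_mul_left _ (by omega)
        _ = j * (C * (Nat.log 2 t + 1)) := by ring
  let Q : Polynomial ℕ := Polynomial.X + Pf
  let p1 : Polynomial ℕ := Pg.comp (3 * Q + 2) + (2 * Q) ^ C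
  let p2 : Polynomial ℕ := Pe.comp (Polynomial.C 20 * (Polynomial.X + 1) ^ 2)
  refine ⟨p1 + p2, ?_⟩
  intro A s
  constructor
  · rintro ⟨π, hπ, hs⟩
    rw [code_length] at hs
    have hQ : Q.eval s = s + Pf.eval s := by simp [Q]
    have hs0 : 0 < s := lt_of_lt_of_le (sz_pos π) hs
    have hp : (p1 + p2).eval s = Pg.eval (3 * Q.eval s + 2) + (2 * Q.eval s) ^ C + p2.eval s := by
      simp [p1, Polynomial.eval_comp]
    have hfin : ∀ (A' : Fm) (π' : List Fm), PermProof F A' π' → sz π' ≤ Q.eval s → ∀ j, 0 < j →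
        j ≤ (varList A').length → ∃ σ : List Fm, SubstProof F (slice A' j) σ ∧
        (codeProof σ).length ≤ (p1 + p2).eval s ∧
        numVars σ ≤ j * Nat.log 2 ((p1 + p2).eval s) := by
      intro A' π' hπ' ht j hj hjn
      obtain ⟨σ, h1, h2, h3⟩ := key A' π' (Q.eval s) hπ' ht j hj hjn
      refine ⟨σ, h1, h2.trans (by rw [hp]; omega), h3.trans (Nat.mul_le_mul_left _ ?_)⟩
      refine (sl_log (C := C) (by rw [hQ]; omega)).trans (Nat.log_mono_right ?_)
      rw [hp]; omega
    intro j hj hjn B hB
    rcases hB with rfl | rfl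
    · exact hfin A π hπ (by rw [hQ]; omega) j hj hjn
    · refine hfin (negVars A) _ (sl_negVars_proof hπ) ?_ j hj ?_
      · rw [hQ]
        have h6 : sz (π.map (Fm.subst flp)) ≤ Pf.eval s := (hPf π).trans (poly_mono Pf hs)
        omega
      · unfold negVars varList
        rw [nms_negv]
        exact hjn
  · intro h
    have hn : 0 < (varList A).length := varList_pos A
    have hneg : (varList (negVars A)).length = (varList A).length := by
      unfold negVars varList
      rw [nms_negv]
    have hs0 : 0 < s := by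
      obtain ⟨σ, -, h2, -⟩ := h 1 (by norm_num) hn (slice A 1) (Or.inl rfl)
      rw [code_length] at h2
      exact lt_of_lt_of_le (sz_pos σ) h2
    classical
    have h1 : ∀ j : ℕ, ∃ σ : List Fm, j < (varList A).length →
        SubstProof F (slice A (j + 1)) σ ∧ sz σ ≤ s ∧ numVars σ ≤ (j + 1) * Nat.log 2 s := by
      intro j
      by_cases hj : j < (varList A).length
      · obtain ⟨σ, a1, a2, a3⟩ := h (j + 1) (by omega) (by omega) _ (Or.inl rfl)
        rw [code_length] at a2
        exact ⟨σ, fun _ => ⟨a1, a2, a3⟩⟩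
      · exact ⟨[], fun h => absurd h hj⟩
    have h2 : ∀ j : ℕ, ∃ σ : List Fm, j < (varList A).length →
        SubstProof F (slice (negVars A) (j + 1)) σ ∧ sz σ ≤ s ∧
          numVars σ ≤ (j + 1) * Nat.log 2 s := by
      intro j
      by_cases hj : j < (varList A).length
      · obtain ⟨σ, a1, a2, a3⟩ := h (j + 1) (by omega) (by omega) _ (Or.inr rfl)
        rw [code_length] at a2
        exact ⟨σ, fun _ => ⟨a1, a2, a3⟩⟩
      · exact ⟨[], fun h => absurd h hj⟩
    choose f1 hf1 using h1
    choose f2 hf2 using h2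
    have hres := he' A (Nat.log 2 s) s ((List.range (varList A).length).map f1)
      ((List.range (varList A).length).map f2) (Nat.pow_log_le_self 2 (by omega))
      (by simp) (by simp)
      (by
        intro j hj
        have hj' : j < (varList A).length := by simpa using hj
        rw [List.getElem_map, List.getElem_range, Nat.mul_comm]
        exact ⟨(hf1 j hj').1, (hf1 j hj').2.2⟩)
      (by
        intro j hj
        have hj' : j < (varList A).length := by simpa using hj
        rw [List.getElem_map, List.getElem_range, Nat.mul_comm]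
        exact ⟨(hf2 j hj').1, (hf2 j hj').2.2⟩)
    refine ⟨_, hres, ?_⟩
    rw [code_length, code_fm_length]
    refine (hPe _).trans ?_
    have hp : (p1 + p2).eval (s + sz A) =
        p1.eval (s + sz A) + Pe.eval (20 * (s + sz A + 1) ^ 2) := by
      simp [p2, Polynomial.eval_comp]
    rw [hp]
    refine (poly_mono Pe ?_).trans (Nat.le_add_left _ _)
    have hb : ∀ (f : ℕ → List Fm), (∀ j < (varList A).length, sz (f j) ≤ s) →
        sz ((List.range (varList A).length).map f) ≤ (varList A).length * (s + 1) + 1 := by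
      intro f hf
      have := sz_le_of_forall ((List.range (varList A).length).map f) s (by
        intro b hb
        obtain ⟨j, hj, rfl⟩ := List.mem_map.1 hb
        exact hf j (List.mem_range.1 hj))
      rwa [List.length_map, List.length_range] at this
    have b1 := hb f1 (fun j hj => (hf1 j hj).2.1)
    have b2 := hb f2 (fun j hj => (hf2 j hj).2.1)
    have hnA : (varList A).length ≤ sz A := by
      have a1 : (varList A).length ≤ (nms A).length := (dd_sublist _).length_le
      have a2 : (nms A).length ≤ sz (nms A) := (length_lt_sz _).le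
      have a3 := sz_nms_le A
      omega
    have hlog : Nat.log 2 s ≤ s := Nat.log_le_self 2 s
    rw [sz_pair, sz_pair, sz_pair, sz_pair, sz_nat, sz_nat]
    have hm : (varList A).length * (s + 1) ≤ sz A * (s + 1) := Nat.mul_le_mul_right _ hnA
    nlinarith [Nat.zero_le s, Nat.zero_le (sz A)]

end Pool.Agent.H.MP_0447ec_lc.PS
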