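import Pool.Agent.H.MP_0447ec_lc.LV.Robust
import Pool.Agent.H.MP_0447ec_lc.LV.Vars
import Pool.Agent.H.MP_0447ec_lc.LV.Count
import Pool.Agent.H.MP_0447ec_lc.LV.Reg0

/-!
# Proofs by truth tables
-/

namespace Pool.Agent.H.MP_0447ec_lc.PS

open Fm Pool.Agent.H.MP_0447ec_lc.PT

/-- The dummy variable: a variable of the formula. -/
def brD (A : Fm) : Nm := (dd (nms A)).headD []

/-- The hypothesis that fixes the values of all variables. -/
def brH (A : Fm) (w : List Bool) : Fm := lw (ct (brD A) true) (dd (nms A)) w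

/-- The lines for one assignment. -/
def brL (A : Fm) (w : List Bool) : List Fm :=
  projL (brH A w) ++ smL (brH A w) ((dd (nms A)).zip w) A

/-- The truth table. -/
def brT (A : Fm) (W : List (List Bool)) : List Fm :=
  W.flatMap (brL A) ++ (splitL (ct (brD A) true) A (dd (nms A)) W ++ [A])

theorem brD_mem (A : Fm) : brD A ∈ A.vars := by
  have h := dd_nms_pos A
  rw [← mem_nms, ← mem_dd]
  unfold brD
  cases h2 : dd (nms A) with
  | nil => rw [h2] at h; simp at h
  | cons a l => simp

theorem brL_just {G : List Rule} (hG : Rich G) {A : Fm} (hA : ∀ v, A.Eval v) {w : List Bool}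
    (hw : w.length = (dd (nms A)).length) (π : List Fm) :
    Just (RuleStep G) π (brL A w) ∧ imp (brH A w) A ∈ brL A w := by
  obtain ⟨j, m⟩ := smL_just hG (brH A w) ((dd (nms A)).zip w) A (π ++ projL (brH A w)) (by
    intro p hp
    exact List.mem_append_right _ (mem_projL (lit_mem_ands_lw hp)))
  refine ⟨Just.append (projL_just hG _ _) j, List.mem_append_right _ ?_⟩
  have hk : ∀ x ∈ A.vars, lk ((dd (nms A)).zip w) x =
      some ((lk ((dd (nms A)).zip w) x).getD false) := by
    intro x hx
    have hx' : x ∈ dd (nms A) := mem_dd.2 (mem_nms.2 hx)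
    obtain ⟨i, hi, rfl⟩ := List.getElem_of_mem hx'
    have hmem : ((dd (nms A))[i], w[i]'(by omega)) ∈ (dd (nms A)).zip w := by
      rw [List.mem_iff_getElem]
      exact ⟨i, by simp [List.length_zip]; omega, by simp⟩
    have := lk_zip (nodup_dd _) hmem
    simp only at this
    rw [this]
    rfl
  have hsm : sm ((dd (nms A)).zip w) A = (some true, var []) :=
    sm_eval (v := fun x => (lk ((dd (nms A)).zip w) x).getD false) hk true
      (by simp [hA])
  rw [hsm] at m
  exact m

theorem brT_just {G : List Rule} (hG : Rich G) {A : Fm} (hA : ∀ v, A.Eval v)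
    {W : List (List Bool)} (hW : ∀ w, w ∈ W ↔ w.length = (dd (nms A)).length) :
    Just (RuleStep G) [] (brT A W) ∧ A ∈ brT A W := by
  refine ⟨?_, by simp [brT]⟩
  have j1 : Just (RuleStep G) [] (W.flatMap (brL A)) :=
    Just.flatMap (mono_ruleStep G) _ _ _ (fun w hw => (brL_just hG hA ((hW w).1 hw) []).1)
  obtain ⟨j2, m2⟩ := splitL_just hG (H := ct (brD A) true) (A := A) (ys := dd (nms A))
    (W := W) (π := W.flatMap (brL A)) hW (by
      intro w hw
      exact List.mem_flatMap.2 ⟨w, hw, (brL_just hG hA ((hW w).1 hw) []).2⟩)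
  refine Just.append j1 ?_
  rw [List.nil_append]
  refine Just.append j2 ⟨Or.inr ?_, trivial⟩
  refine hG.strip (H := var (brD A)) ?_
  simpa [ct] using m2

theorem brT_vars {A X : Fm} {W : List (List Bool)} (h : X ∈ brT A W) {x : Nm}
    (hx : x ∈ X.vars) : x ∈ A.vars := by
  have hct : ∀ {y : Nm}, y ∈ (ct (brD A) true).vars → y ∈ A.vars := by
    intro y hy
    rw [vars_ct] at hy
    rw [hy]
    exact brD_mem A
  have hys : ∀ {y : Nm}, y ∈ dd (nms A) → y ∈ A.vars := by
    intro y hy
    exact mem_nms.1 (mem_dd.1 hy)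
  have hH : ∀ {w : List Bool} {y : Nm}, y ∈ (brH A w).vars → y ∈ A.vars := by
    intro w y hy
    rcases lw_vars hy with h | h
    · exact hct h
    · exact hys h
  unfold brT at h
  rcases List.mem_append.1 h with h | h
  · obtain ⟨w, -, h⟩ := List.mem_flatMap.1 h
    unfold brL at h
    rcases List.mem_append.1 h with h | h
    · exact hH (projL_vars h hx)
    · rcases smL_vars h hx with h | h
      · exact hH h
      · exact h
  · rcases List.mem_append.1 h with h | h
    · rcases splitL_vars h hx with h | h | h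
      · exact hct h
      · exact h
      · exact hys h
    · rw [List.mem_singleton] at h
      subst h
      exact hx

section

variable {α : Type} [Enc α]

@[fun_prop]
theorem Poly.brD {A : α → Fm} (hA : Poly A) : Poly (fun a => brD (A a)) := by
  unfold PS.brD
  fun_prop

@[fun_prop]
theorem Poly.brT {A : α → Fm} {W : α → List (List Bool)} (hA : Poly A) (hW : Poly W) :
    Poly (fun a => brT (A a) (W a)) := by
  unfold PS.brT PS.brL PS.brH
  fun_prop

end

/-- A tautology with `m` variables has a proof by truth tables, computable in time polynomial in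
the size of the formula and `2 ^ m`. -/
theorem brute {F : List Rule} (hF : IsFrege F) : ∃ g : ℕ × Fm → List Fm, Poly g ∧
    ∀ (M : ℕ) (A : Fm), (∀ v, A.Eval v) → 2 ^ numVars [A] ≤ M →
      FregeProof F A (g (M, A)) ∧ ∀ C ∈ g (M, A), ∀ x ∈ C.vars, x ∈ A.vars := by
  obtain ⟨h, hh, hh'⟩ := robust hF (GG_sound hF)
  obtain ⟨Tw, hTw, hTw'⟩ := words_main
  refine ⟨fun x => h (cutAt x.2 (app [] (brT x.2 (Tw (x.1, (dd (nms x.2)).length))))), ?_, ?_⟩
  · fun_prop
  · intro M A hA hM
    rw [numVars_one] at hM
    obtain ⟨-, -, w3⟩ := hTw' M (dd (nms A)).length hM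
    obtain ⟨j, m⟩ := brT_just (GG_rich F) hA w3
    have hD := deriv_app (mono_ruleStep (GG F)) Deriv.nil j
    have hm : A ∈ app [] (brT A (Tw (M, (dd (nms A)).length))) := mem_app.2 (Or.inr m)
    obtain ⟨d1, d2⟩ := deriv_cutAt hD hm
    obtain ⟨f1, f2, f3⟩ := hh' (fun _ _ => False) (fun _ _ _ _ h => h) _ _
      (d1.imp_step (fun _ _ h => Or.inl h)) d2
    refine ⟨⟨f1.imp_step (fun _ _ h => h.resolve_right id), f2⟩, ?_⟩
    intro C hC x hx
    obtain ⟨D, hD, hxD⟩ := f3 C hC x hx
    have hD' : D ∈ brT A (Tw (M, (dd (nms A)).length)) := by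
      unfold cutAt at hD
      rcases List.mem_append.1 hD with hD | hD
      · have := (List.takeWhile_prefix _).subset hD
        simpa using mem_app.1 this
      · rw [List.mem_singleton] at hD
        subst hD
        exact m
    exact brT_vars hD' hxD

end Pool.Agent.H.MP_0447ec_lc.PS
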