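import Pool.Agent.H.MP_0447ec_lc.LV.Base
import Pool.Agent.H.MP_0447ec_lc.PS.Sim3

/-!
# The slices of a formula
-/

namespace Pool.Agent.H.MP_0447ec_lc.PS

open Fm

/-- The names of the `c` bits of the register with number `J`. -/
def regName (c J : ℕ) : List (List Bool) :=
  (List.range c).map (fun k => List.replicate (J + 1) true ++ false :: List.replicate k true)

/-- The `c` lowest binary digits of the number `i + 1`. -/
def numCode (c i : ℕ) : List Bool := (List.range c).map (fun k => (i + 1).testBit k)

/-- The list of the variables of a formula, without repetitions. -/
def varList (A : Fm) : List (List Bool) := dd (nms A)

/-- The number of bits of a register: one more than the logarithm of the number of variables. -/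
def bitLen (A : Fm) : ℕ := Nat.log 2 (varList A).length + 1

/-- The slice of `A` with number `j` says that `A` is true if at most `j` of its variables are
true: there are `j` registers of `bitLen A` bits, and the variable with number `i` is replaced by
the statement that some register contains the binary representation of the number `i + 1`. -/
def slice (A : Fm) (j : ℕ) : Fm :=
  A.subst (fun x => anyr [] ((List.range j).map (regName (bitLen A)))
    (numCode (bitLen A) ((varList A).idxOf x)))

/-- The formula `A` with negated variables. -/
def negVars (A : Fm) : Fm := A.subst (fun w => neg (var w))

end Pool.Agent.H.MP_0447ec_lc.PS
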