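import Pool.Agent.H.MP_0447ec_lc.LV.Above

/-!
# Proof systems that contract disjoint copies and simulate the permutation rule
-/

namespace Pool.Agent.H.MP_0447ec_lc.PS

open Fm Pool.Agent.H.MP_0447ec_lc.PT

theorem above_con {F : List Rule} (hF : IsFrege F) {P : Fm → List Fm → Prop}
    (hC : ClosedUnderContraction P) (h : PSimulates P (PermProof F)) :
    PSimulates P (ExtProof F) := by
  rw [psim_iff] at h ⊢
  obtain ⟨g, hg, hg'⟩ := asc_con_iff.1 hC
  obtain ⟨e, he, he'⟩ := h
  obtain ⟨f, hf, hf'⟩ := asc_main hF
  refine ⟨fun π => g (lastF π :: e (f π)), Poly.comp hg (Poly.lcons (by fun_prop)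
    (Poly.comp he hf)), ?_⟩
  intro A π hπ
  have hl : lastF π = A := lastF_eq hπ.2
  obtain ⟨B, m, -, h1, h2⟩ := hf' A π hπ
  simp only [hl]
  exact hg' A B m (e (f π)) h1 (he' B (f π) h2)

/-- A proof system that is p-closed under the contraction of disjoint copies p-simulates the
permutation rule if and only if it p-simulates the extension rule. -/
theorem above_con_iff {F : List Rule} (hF : IsFrege F) {P : Fm → List Fm → Prop}
    (hC : ClosedUnderContraction P) :
    PSimulates P (PermProof F) ↔ PSimulates P (ExtProof F) :=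
  ⟨above_con hF hC, fun h => h.trans (ext_simulates_perm hF)⟩

end Pool.Agent.H.MP_0447ec_lc.PS
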