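import Pool.Agent.H.MP_0447ec_lc.PS.DefsR

/-!
# Proof systems that are p-closed under Frege derivations
-/

namespace Pool.Agent.H.MP_0447ec_lc.PS

open Fm

/-- Binary code of a pair of sequences of formulas. -/
def codeTwo (x : List Fm × List Fm) : List Bool :=
  true :: (codeProof x.1 ++ codeProof x.2)

/-- The proof system `P` is p-closed under derivations in `F`: some function computable in
polynomial time maps every `P`-proof of a formula `B` together with every derivation of a formula
`A` from the hypothesis `B` with the rules of `F` to a `P`-proof of `A`. -/
def ClosedUnderDerivations (F : List Rule) (P : Fm → List Fm → Prop) : Prop :=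
  ∃ g : List Fm × List Fm → List Fm,
    Nonempty (Turing.TM2ComputableInPolyTime codeTwo codeProof g) ∧
    ∀ (A B : Fm) (π σ : List Fm), P B π →
      Deriv (fun τ C => C = B ∨ RuleStep F τ C) σ → σ.getLast? = some A →
      P A (g (π, σ))

end Pool.Agent.H.MP_0447ec_lc.PS
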