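import Pool.Agent.H.MP_0447ec_lc.LV.Dp

/-!
# The condition of `dp_main` for lines in token form

`rgs` is a list of `n' = j + 1` registers with `c` names each, `bl` a list of `j + 1` blocks with
`e` names each, `bl[J] = rgs[J] ++ rest`. The formula `AW d0 rgs ac A` says `A` for the assignment
given by the registers; `δ = tsub (tblD d L W bl)` replaces the bit `k` of register `J` by
`zbit d L J W k`.
Under `K = litsOf (HD d L W ac ac.length (j+1))` (the variables of `A` are false, the
blocks `> j` are off; nothing is known on the blocks `≤ j`), by `Fm.subst_subst` and `sm_subst`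
for each variable `p.1` of `A` (`p ∈ ac`):
left: `(anyr d0 rgs p.2).subst δ = ` disjunction over `J ≤ j` of `(eqr d0 rgs[J] p.2).subst δ`,
which is a conjunction of `zbit d L J W k` or its negation, `k < c`, and `(ct d0 true).subst δ`
(true), at the end of the disjunction `(ct d0 false).subst δ` (false);
right: `or (var p.1) (dj d (zeq d L J W p.2 : J < ac.length))`: `var p.1` is false, the members
for `J > j` are false (the block is off, all `zbit` are false, and the code has a bit `true`),
the members for `J ≤ j` are the same conjunctions with `ct d true` at the end.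
-/

namespace Pool.Agent.H.MP_0447ec_lc.PS

open Fm

/-! ### Auxiliary lemmas -/

theorem tokb_ct {K : List (Nm × Bool)} {δ : Nm → Fm} (d : Nm) (c : Bool) :
    sm K ((ct d c).subst δ) = (some c, var []) := by
  cases c
  · show smN (sm K (imp (δ d) (δ d))) = _
    rw [sm_imp_self rfl]; rfl
  · show sm K (imp (δ d) (δ d)) = _
    exact sm_imp_self rfl

theorem tokb_cj {K : List (Nm × Bool)} {δ : Nm → Fm} {d d' : Nm} : ∀ {Γ Γ' : List Fm},
    Γ.map (fun A => sm K (A.subst δ)) = Γ'.map (sm K) →
    sm K ((cj d Γ).subst δ) = sm K (cj d' Γ') := by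
  intro Γ
  induction Γ with
  | nil =>
    intro Γ' h
    have : Γ' = [] := by
      cases Γ' with
      | nil => rfl
      | cons a l => simp at h
    subst this
    rw [cj_nil, cj_nil, tokb_ct, sm_ct]
  | cons A Γ ih =>
    intro Γ' h
    cases Γ' with
    | nil => simp at h
    | cons B Γ' =>
      simp only [List.map_cons, List.cons.injEq] at h
      rw [cj_cons, cj_cons, sm_and]
      show smAnd (sm K (A.subst δ)) (sm K ((cj d Γ).subst δ)) = _
      rw [ih h.2, h.1]

theorem tokb_dj {K : List (Nm × Bool)} {δ : Nm → Fm} {d d' : Nm} : ∀ {Γ Γ' : List Fm},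
    Γ.map (fun A => sm K (A.subst δ)) = Γ'.map (sm K) →
    sm K ((dj d Γ).subst δ) = sm K (dj d' Γ') := by
  intro Γ
  induction Γ with
  | nil =>
    intro Γ' h
    have : Γ' = [] := by
      cases Γ' with
      | nil => rfl
      | cons a l => simp at h
    subst this
    rw [dj_nil, dj_nil, tokb_ct, sm_ct]
  | cons A Γ ih =>
    intro Γ' h
    cases Γ' with
    | nil => simp at h
    | cons B Γ' =>
      simp only [List.map_cons, List.cons.injEq] at h
      rw [dj_cons, dj_cons, sm_or]
      show smOr (sm K (A.subst δ)) (sm K ((dj d Γ).subst δ)) = _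
      rw [ih h.2, h.1]

theorem tokb_dj_false {K : List (Nm × Bool)} {d : Nm} {Γ : List Fm}
    (h : ∀ A ∈ Γ, sm K A = (some false, var [])) : sm K (dj d Γ) = (some false, var []) := by
  induction Γ with
  | nil => rw [dj_nil, sm_ct]
  | cons A Γ ih =>
    rw [dj_cons, sm_or, h A (by simp), ih (fun B hB => h B (List.mem_cons_of_mem _ hB))]
    rfl

theorem tokb_dj_append {K : List (Nm × Bool)} {d : Nm} {Γ Δ : List Fm}
    (h : ∀ A ∈ Δ, sm K A = (some false, var [])) : sm K (dj d (Γ ++ Δ)) = sm K (dj d Γ) := by
  induction Γ with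
  | nil => rw [List.nil_append, tokb_dj_false h, dj_nil, sm_ct]
  | cons A Γ ih => rw [List.cons_append, dj_cons, dj_cons, sm_or, sm_or, ih]

theorem tokb_cj_false {K : List (Nm × Bool)} {d : Nm} {Γ : List Fm}
    (h : ∃ A ∈ Γ, sm K A = (some false, var [])) : sm K (cj d Γ) = (some false, var []) := by
  induction Γ with
  | nil => simp at h
  | cons A Γ ih =>
    rw [cj_cons, sm_and]
    rcases h with ⟨B, hB, hf⟩
    rcases List.mem_cons.1 hB with rfl | hB
    · rw [hf]; rfl
    · rw [ih ⟨B, hB, hf⟩]
      rcases h1 : sm K A with ⟨_ | _ | _, R⟩ <;> rfl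

theorem tokb_ands_cj {d : Nm} {Γ : List Fm} {B : Fm} (h : B ∈ ands (cj d Γ)) :
    (∃ A ∈ Γ, B ∈ ands A) ∨ (∃ C D, B = Fm.and C D) ∨ B = ct d true := by
  induction Γ with
  | nil =>
    right; right
    rw [cj_nil] at h
    simpa [ct, ands] using h
  | cons C Γ ih =>
    rw [cj_cons, ands] at h
    simp only [List.mem_cons, List.mem_append] at h
    rcases h with h | h | h
    · exact Or.inr (Or.inl ⟨_, _, h⟩)
    · exact Or.inl ⟨C, by simp, h⟩
    · rcases ih h with ⟨A, hA, hB⟩ | h
      · exact Or.inl ⟨A, by simp [hA], hB⟩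
      · exact Or.inr h

theorem tokb_ands_dj {d : Nm} {Γ : List Fm} : ands (dj d Γ) = [dj d Γ] := by
  cases Γ with
  | nil => rfl
  | cons C Γ => rfl

theorem tokb_dj_ne_lit {d : Nm} {Γ : List Fm} {x : Nm} {b : Bool} : lit x b ≠ dj d Γ := by
  cases Γ with
  | nil =>
    rw [dj_nil]
    cases b <;> simp [lit, ct]
  | cons C Γ =>
    rw [dj_cons]
    cases b <;> simp [lit]

theorem tokb_neg_mem {x y : Nm} {b : Bool} (h : lit x b ∈ ands (neg (var y))) :
    x = y ∧ b = false := by
  cases b <;> simp [lit, ands] at h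
  exact ⟨h, rfl⟩

theorem tokb_mem {d : Nm} {L : ℕ} {W : List (List Bool)} {ac : List (Nm × List Bool)} {j : ℕ}
    {x : Nm} {b : Bool} (h : (x, b) ∈ litsOf (HD d L W ac ac.length j)) : b = false ∧
    (x ∈ ac.map Prod.fst ∨ ∃ J v, j ≤ J ∧ x = fn L J v) := by
  rw [mem_litsOf] at h
  unfold HD at h
  rcases tokb_ands_cj h with ⟨A, hA, hB⟩ | ⟨C, D, h⟩ | h
  · rw [List.mem_append, List.mem_append, List.mem_map, List.mem_map, List.mem_flatMap] at hA
    rcases hA with (⟨p, hp, rfl⟩ | ⟨J, hJ, rfl⟩) | ⟨J, hJ, hA⟩
    · obtain ⟨h1, h2⟩ := tokb_neg_mem hB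
      rw [List.take_length] at hp
      refine ⟨h2, Or.inl ?_⟩
      change x = p.1 at h1
      rw [h1]
      exact List.mem_map_of_mem (f := Prod.fst) hp
    · unfold zone at hB
      rw [tokb_ands_dj, List.mem_singleton] at hB
      exact absurd hB tokb_dj_ne_lit
    · unfold zoff at hA
      rw [List.mem_map] at hA
      obtain ⟨v, hv, rfl⟩ := hA
      obtain ⟨h1, h2⟩ := tokb_neg_mem hB
      exact ⟨h2, Or.inr ⟨j + J, v, by omega, h1⟩⟩
  · cases b <;> simp [lit] at h
  · cases b <;> simp [lit, ct] at h

theorem tokb_lk_var {d : Nm} {L : ℕ} {W : List (List Bool)} {ac : List (Nm × List Bool)} {j : ℕ}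
    {p : Nm × List Bool} (hp : p ∈ ac) :
    lk (litsOf (HD d L W ac ac.length j)) p.1 = some false := by
  refine lk_eq ?_ (fun b' h => (tokb_mem h).1)
  rw [mem_litsOf]
  unfold HD
  refine mem_ands_cj (A := neg (var p.1)) ?_ (self_mem_ands _)
  rw [List.take_length]
  exact List.mem_append_left _ (List.mem_append_left _
    (List.mem_map_of_mem (f := fun p : Nm × List Bool => neg (var p.1)) hp))

theorem tokb_lk_off {d : Nm} {L : ℕ} {W : List (List Bool)} {ac : List (Nm × List Bool)}
    {j J : ℕ} {v : List Bool} (hv : v ∈ W) (hj : j ≤ J) (hJ : J < ac.length) :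
    lk (litsOf (HD d L W ac ac.length j)) (fn L J v) = some false := by
  refine lk_eq ?_ (fun b' h => (tokb_mem h).1)
  rw [mem_litsOf]
  unfold HD
  refine mem_ands_cj (A := neg (var (fn L J v))) ?_ (self_mem_ands _)
  refine List.mem_append_right _ ?_
  rw [List.mem_flatMap]
  refine ⟨J - j, List.mem_range.2 (by omega), ?_⟩
  unfold zoff
  rw [show j + (J - j) = J by omega]
  exact List.mem_map_of_mem (f := fun v => neg (var (fn L J v))) hv

theorem tokb_tblD_fst (d : Nm) (L : ℕ) (W : List (List Bool)) (bl : List (List Nm)) :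
    (tblD d L W bl).map Prod.fst = bl.flatten := by
  unfold tblD
  rw [List.map_flatMap]
  have : ∀ b : List Nm × ℕ, List.map Prod.fst
      (List.map (fun x : Nm × ℕ => (x.1, zbit d L b.2 W x.2)) b.1.zipIdx) = b.1 := by
    intro b
    rw [List.map_map]
    exact List.zipIdx_map_fst 0 b.1
  simp only [this]
  rw [← List.flatMap_map (fun b : List Nm × ℕ => b.1) (fun l => l)]
  have h2 : List.map (fun b : List Nm × ℕ => b.1) bl.zipIdx = bl := List.zipIdx_map_fst 0 bl
  rw [h2]
  simp

theorem tokb_delta {d : Nm} {L : ℕ} {W : List (List Bool)} {bl : List (List Nm)}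
    (hnd : bl.flatten.Nodup) {J i : ℕ} (hJ : J < bl.length) (hi : i < bl[J].length) :
    tsub (tblD d L W bl) bl[J][i] = zbit d L J W i := by
  refine tsub_of_mem ?_ (by rw [tokb_tblD_fst]; exact hnd)
  unfold tblD
  rw [List.mem_flatMap]
  refine ⟨(bl[J], J), ?_, ?_⟩
  · rw [List.mem_zipIdx_iff_getElem?]
    simp [hJ]
  · rw [List.mem_map]
    refine ⟨(bl[J][i], i), ?_, rfl⟩
    rw [List.mem_zipIdx_iff_getElem?]
    simp [hi]

theorem sm_token (L : ℕ) (d d0 : Nm) (W : List (List Bool)) (e c j : ℕ)
    (ac : List (Nm × List Bool)) (rgs bl : List (List Nm)) (A : Fm)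
    (hW : ∀ w, w ∈ W ↔ w.length = e) (hce : c ≤ e)
    (hac : ∀ p ∈ ac, p.2.length = c ∧ true ∈ p.2) (hac2 : (ac.map Prod.fst).Nodup)
    (hL : ∀ p ∈ ac, p.1.length ≤ L) (hd : d.length ≤ L) (hdac : d ∉ ac.map Prod.fst)
    (hA : ∀ x ∈ A.vars, x ∈ ac.map Prod.fst) (hj : j < ac.length)
    (hr : rgs.length = j + 1) (hb : bl.length = j + 1) (hbe : ∀ b ∈ bl, b.length = e)
    (hnd : bl.flatten.Nodup) (hrc : ∀ ys ∈ rgs, ys.length = c)
    (hrb : ∀ (J : ℕ) (h1 : J < rgs.length) (h2 : J < bl.length), rgs[J] <+: bl[J]) :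
    sm (litsOf (HD d L W ac ac.length (j + 1)))
      ((AW d0 rgs ac A).subst (tsub (tblD d L W bl))) =
    sm (litsOf (HD d L W ac ac.length (j + 1))) (AZ d L W ac ac.length A) := by
  unfold AW AZ
  rw [Fm.subst_subst]
  apply sm_subst
  intro x hx
  obtain ⟨p, hp, rfl⟩ := List.mem_map.1 (hA x hx)
  set K := litsOf (HD d L W ac ac.length (j + 1)) with hK
  have e1 : tsub (regT d0 rgs ac) p.1 = anyr d0 rgs p.2 := by
    refine tsub_of_mem ?_ ?_
    · unfold regT
      exact List.mem_map_of_mem (f := fun p : Nm × List Bool => (p.1, anyr d0 rgs p.2)) hp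
    · unfold regT
      rw [List.map_map]
      exact hac2
  have e2 : tsub (ac.map (fun p => (p.1, Fm.or (var p.1)
      (dj d ((List.range ac.length).map (fun J => zeq d L J W p.2)))))) p.1 =
      Fm.or (var p.1) (dj d ((List.range ac.length).map (fun J => zeq d L J W p.2))) := by
    refine tsub_of_mem ?_ ?_
    · exact List.mem_map_of_mem (f := fun p : Nm × List Bool => (p.1, Fm.or (var p.1)
        (dj d ((List.range ac.length).map (fun J => zeq d L J W p.2))))) hp
    · rw [List.map_map]
      exact hac2
  rw [e1, e2, sm_or, sm_var]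
  have e3 : smV K p.1 = (some false, var []) := by
    unfold smV
    rw [tokb_lk_var hp]
  rw [e3]
  have e4 : ∀ q : Option Bool × Fm, smOr (some false, var []) q = q := fun _ => rfl
  rw [e4]
  -- the blocks after `j` are off
  have hr2 : List.range ac.length = List.range (j + 1) ++
      (List.range (ac.length - (j + 1))).map (fun i => (j + 1) + i) := by
    rw [← List.range_add]
    congr 1
    omega
  rw [hr2, List.map_append, tokb_dj_append]
  · unfold anyr
    refine tokb_dj ?_
    rw [List.map_map, List.map_map]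
    apply List.ext_getElem
    · simp [hr]
    · intro J h1 h2
      have hJ1 : J < rgs.length := by simpa using h1
      have hJ2 : J < bl.length := by omega
      simp only [List.getElem_map, Function.comp, List.getElem_range]
      unfold eqr zeq
      refine tokb_cj ?_
      rw [List.map_map, List.map_map]
      have hl1 : rgs[J].length = c := hrc _ (List.getElem_mem _)
      have hl2 : p.2.length = c := (hac p hp).1
      apply List.ext_getElem
      · simp [hl1, hl2]
      · intro i h3 h4
        have hi : i < c := by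
          simp [hl2] at h4
          exact h4
        have hi1 : i < rgs[J].length := by omega
        have hi2 : i < bl[J].length := by
          have := hbe _ (List.getElem_mem hJ2)
          omega
        have hpre : rgs[J][i] = bl[J][i] := by
          have h := hrb J hJ1 hJ2
          exact h.getElem hi1
        simp only [List.getElem_map, Function.comp, List.getElem_zip, List.getElem_zipIdx,
          Nat.zero_add]
        have hδ : tsub (tblD d L W bl) rgs[J][i] = zbit d L J W i := by
          rw [hpre]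
          exact tokb_delta hnd hJ2 hi2
        cases hb : p.2[i] with
        | true =>
          show sm K (tsub (tblD d L W bl) rgs[J][i]) = _
          rw [hδ]
          simp
        | false =>
          show sm K (neg (tsub (tblD d L W bl) rgs[J][i])) = _
          rw [hδ]
          simp
  · intro B hB
    rw [List.map_map, List.mem_map] at hB
    obtain ⟨i, hi, rfl⟩ := hB
    rw [List.mem_range] at hi
    simp only [Function.comp]
    unfold zeq
    obtain ⟨k, hk, hk2⟩ := List.getElem_of_mem (hac p hp).2
    apply tokb_cj_false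
    refine ⟨zbit d L (j + 1 + i) W k, ?_, ?_⟩
    · rw [List.mem_map]
      refine ⟨(true, k), ?_, by simp⟩
      rw [List.mem_zipIdx_iff_getElem?]
      simp [hk, hk2]
    · unfold zbit
      apply tokb_dj_false
      intro C hC
      rw [List.mem_map] at hC
      obtain ⟨v, hv, rfl⟩ := hC
      rw [List.mem_filter] at hv
      rw [sm_var]
      unfold smV
      rw [tokb_lk_off hv.1 (by omega) (by omega)]

end Pool.Agent.H.MP_0447ec_lc.PS
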