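import Pool.Agent.H.MP_0447ec_lc.LV.Base
import Pool.Agent.H.MP_0447ec_lc.LV.EnginePoly
import Pool.Agent.H.MP_0447ec_lc.LV.ESub

/-!
# Constant substitution proofs in token form

Every line `B` of a derivation `σ` with the rules of `F` and constant substitutions is turned into
the line `imp H B'`, where `B' = B.subst (tsub (tblD d L W bl))` (the bits of the names in
block `J` of `bl` are stored as the position of the only true variable among
`fn L J v`, `v ∈ W`) and `H = GH d L W bl.length` says that every block has exactly one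
true variable.
-/

namespace Pool.Agent.H.MP_0447ec_lc.PS

open Fm

/-! ### The algorithm -/

/-- The transposition of two names, as a substitution. -/
def tokS (a b : Nm) : Nm → Fm := fun w => var (Equiv.swap a b w)

/-- Change one bit of a word. -/
def setb (v : List Bool) (i : ℕ) (c : Bool) : List Bool :=
  v.zipIdx.map (fun p => if p.2 = i then c else p.1)

/-- Lines for one value of the block. -/
def tokV (L : ℕ) (d : Nm) (W : List (List Bool)) (H C B : Fm) (J i : ℕ) (c : Bool)
    (v : List Bool) : List Fm :=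
  imp (H.subst (tokS (fn L J v) (fn L J (setb v i c))))
    (C.subst (tokS (fn L J v) (fn L J (setb v i c)))) ::
  li (Fm.and (cj d (zat L J W v)) H) (H.subst (tokS (fn L J v) (fn L J (setb v i c))))
    (C.subst (tokS (fn L J v) (fn L J (setb v i c)))) B

/-- Lines for one constant substitution. -/
def tokC (L : ℕ) (d : Nm) (W : List (List Bool)) (H C B : Fm) (J i : ℕ) (c : Bool) : List Fm :=
  W.flatMap (fun v => tokV L d W H C B J i c v) ++
    caseL d H B (W.map (fun v => cj d (zat L J W v)))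

/-- Lines for one position of the substituted variable. -/
def tokY (L : ℕ) (d : Nm) (W : List (List Bool)) (H C B : Fm) (x : Nm) (c : Bool) (J : ℕ)
    (y : Nm × ℕ) : List Fm :=
  if y.1 = x then tokC L d W H C B J y.2 c else []

/-- Lines for one constant substitution. -/
def tokZ (L : ℕ) (d : Nm) (W : List (List Bool)) (bl : List (List Nm)) (H C B : Fm) (x : Nm)
    (c : Bool) : List Fm :=
  bl.zipIdx.flatMap (fun b => b.1.zipIdx.flatMap (fun y => tokY L d W H C B x c b.2 y))

/-- Lines for the two constants. -/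
def tokX (L : ℕ) (d : Nm) (W : List (List Bool)) (bl : List (List Nm)) (H C C' B B' : Fm)
    (x : Nm) : List Fm :=
  [true, false].flatMap (fun c =>
    if B = C.subst (cs x c) then tokZ L d W bl H C' B' x c else [])

/-- Lines for one line of the derivation. -/
def tokLine (L : ℕ) (d : Nm) (W : List (List Bool)) (bl : List (List Nm)) (pre : List Fm)
    (B : Fm) : List Fm :=
  (pre.flatMap (fun C => (nms C).flatMap (fun x =>
    tokX L d W bl (GH d L W bl.length) C (C.subst (tsub (tblD d L W bl))) B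
      (B.subst (tsub (tblD d L W bl))) x))) ++
    [imp (GH d L W bl.length) (B.subst (tsub (tblD d L W bl)))]

/-- The whole algorithm. -/
def tok (p : ℕ × Nm × List (List Bool) × List (List Nm) × List Fm) : List Fm :=
  (splits p.2.2.2.2).flatMap (fun q => tokLine p.1 p.2.1 p.2.2.1 p.2.2.2.1 q.1 q.2)

theorem tok_snoc (L : ℕ) (d : Nm) (W : List (List Bool)) (bl : List (List Nm)) (σ : List Fm)
    (B : Fm) : tok (L, d, W, bl, σ ++ [B]) = tok (L, d, W, bl, σ) ++ tokLine L d W bl σ B := by
  unfold tok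
  simp only
  rw [splits_snoc, List.flatMap_append]
  simp

/-! ### Literals -/

theorem tok_ands_lit (x : Nm) (b : Bool) : ands (lit x b) = [lit x b] := by
  cases b <;> rfl

theorem tok_lit_inj {x y : Nm} {b c : Bool} (h : lit x b = lit y c) : x = y ∧ b = c := by
  cases b <;> cases c <;> simp [lit] at h ⊢ <;> exact h

theorem tok_lit_cj {d x : Nm} {b : Bool} {Γ : List Fm} (h : lit x b ∈ ands (cj d Γ)) :
    ∃ A ∈ Γ, lit x b ∈ ands A := by
  induction Γ with
  | nil =>
    rw [cj_nil] at h
    cases b <;> simp [ct, lit, ands] at h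
  | cons A Γ ih =>
    rw [cj_cons] at h
    simp only [ands, List.mem_cons, List.mem_append] at h
    rcases h with h | h | h
    · cases b <;> simp [lit] at h
    · exact ⟨A, List.mem_cons_self, h⟩
    · obtain ⟨B, hB, h⟩ := ih h
      exact ⟨B, List.mem_cons_of_mem _ hB, h⟩

theorem tok_lit_dj {d x : Nm} {b : Bool} {Γ : List Fm} : lit x b ∉ ands (dj d Γ) := by
  cases Γ with
  | nil =>
    rw [dj_nil]
    cases b <;> simp [ct, lit, ands]
  | cons A Γ =>
    rw [dj_cons]
    cases b <;> simp [lit, ands]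

/-- The literals that are known at the position `v` of block `J`. -/
theorem tok_lits {L J n : ℕ} {d : Nm} {W : List (List Bool)} {v : List Bool} {p : Nm × Bool} :
    p ∈ litsOf (Fm.and (cj d (zat L J W v)) (GH d L W n)) ↔
      ∃ u ∈ W, p = (fn L J u, decide (u = v)) := by
  rw [mem_litsOf]
  constructor
  · intro h
    simp only [ands, List.mem_cons, List.mem_append] at h
    rcases h with h | h | h
    · obtain ⟨x, b⟩ := p
      cases b <;> simp [lit] at h
    · obtain ⟨A, hA, h⟩ := tok_lit_cj h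
      unfold zat at hA
      obtain ⟨u, hu, rfl⟩ := List.mem_map.1 hA
      rw [tok_ands_lit, List.mem_singleton] at h
      obtain ⟨h1, h2⟩ := tok_lit_inj h
      exact ⟨u, hu, Prod.ext h1 h2⟩
    · obtain ⟨A, hA, h⟩ := tok_lit_cj h
      obtain ⟨J', -, rfl⟩ := List.mem_map.1 hA
      exact absurd h tok_lit_dj
  · rintro ⟨u, hu, rfl⟩
    simp only [ands, List.mem_cons, List.mem_append]
    refine Or.inr (Or.inl (mem_ands_cj (A := lit (fn L J u) (decide (u = v))) ?_ ?_))
    · unfold zat
      exact List.mem_map_of_mem (f := fun v' => lit (fn L J v') (decide (v' = v))) hu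
    · exact self_mem_ands _

theorem tok_lk {L J n : ℕ} {d : Nm} {W : List (List Bool)} {v u : List Bool} (hu : u ∈ W) :
    lk (litsOf (Fm.and (cj d (zat L J W v)) (GH d L W n))) (fn L J u) =
      some (decide (u = v)) := by
  refine lk_eq (tok_lits.2 ⟨u, hu, rfl⟩) ?_
  intro b' hb'
  obtain ⟨u', hu', h⟩ := tok_lits.1 hb'
  rw [Prod.mk.injEq] at h
  obtain ⟨h1, h2⟩ := h
  rw [h2, (fn_inj h1).2]

/-! ### Simplification of conjunctions and disjunctions -/

theorem tok_sm_cj {K : List (Nm × Bool)} {d : Nm} {Γ : List Fm}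
    (h : ∀ A ∈ Γ, (sm K A).1 = some true) : (sm K (cj d Γ)).1 = some true := by
  induction Γ with
  | nil => rw [cj_nil, sm_ct]
  | cons A Γ ih =>
    rw [cj_cons, sm_and]
    unfold smAnd
    rw [h A List.mem_cons_self]
    exact ih (fun B hB => h B (List.mem_cons_of_mem _ hB))

theorem tok_sm_dj {K : List (Nm × Bool)} {d : Nm} {Γ : List Fm} {A : Fm} (hA : A ∈ Γ)
    (h : (sm K A).1 = some true) : (sm K (dj d Γ)).1 = some true := by
  induction Γ with
  | nil => simp at hA
  | cons B Γ ih =>
    rw [dj_cons, sm_or]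
    unfold smOr
    rcases List.mem_cons.1 hA with rfl | hA
    · rw [h]
    · have := ih hA
      rcases h1 : (sm K B).1 with _ | _ | _ <;> simp only [this]

theorem tok_sm_vars {K : List (Nm × Bool)} {d : Nm} {f : List Bool → Nm} {u0 : List Bool}
    {V : List (List Bool)} (h : ∀ u ∈ V, lk K (f u) = some (decide (u = u0))) :
    sm K (dj d (V.map (fun u => var (f u)))) = (some (decide (u0 ∈ V)), var []) := by
  induction V with
  | nil => simp only [List.map_nil, dj_nil, sm_ct]; simp
  | cons u V ih =>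
    rw [List.map_cons, dj_cons, sm_or, sm_var, ih (fun u' hu' => h u' (List.mem_cons_of_mem _ hu'))]
    unfold smV
    rw [h u List.mem_cons_self]
    by_cases hu : u = u0
    · subst hu
      simp [smOr]
    · have hu' : u0 ≠ u := fun e => hu e.symm
      simp [smOr, hu, hu']

theorem tok_cj_subst {d : Nm} {Γ : List Fm} {s : Nm → Fm} (h : s d = var d) :
    (cj d Γ).subst s = cj d (Γ.map (Fm.subst s)) := by
  induction Γ with
  | nil => simp [cj_nil, ct, Fm.subst, h]
  | cons A Γ ih => rw [cj_cons, List.map_cons, cj_cons, Fm.subst, ih]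

theorem tok_dj_subst {d : Nm} {Γ : List Fm} {s : Nm → Fm} (h : s d = var d) :
    (dj d Γ).subst s = dj d (Γ.map (Fm.subst s)) := by
  induction Γ with
  | nil => simp [dj_nil, ct, Fm.subst, h]
  | cons A Γ ih => rw [dj_cons, List.map_cons, dj_cons, Fm.subst, ih]

theorem tok_lit_subst (a b x : Nm) (c : Bool) :
    (lit x c).subst (tokS a b) = lit (Equiv.swap a b x) c := by
  cases c <;> rfl

theorem tok_vars_cj {d : Nm} {Γ : List Fm} {A : Fm} (hA : A ∈ Γ) {x : Nm} (hx : x ∈ A.vars) :
    x ∈ (cj d Γ).vars := by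
  induction Γ with
  | nil => simp at hA
  | cons B Γ ih =>
    rw [cj_cons]
    rcases List.mem_cons.1 hA with rfl | hA
    · exact Or.inl hx
    · exact Or.inr (ih hA)

theorem tok_vars_dj {d : Nm} {Γ : List Fm} {A : Fm} (hA : A ∈ Γ) {x : Nm} (hx : x ∈ A.vars) :
    x ∈ (dj d Γ).vars := by
  induction Γ with
  | nil => simp at hA
  | cons B Γ ih =>
    rw [dj_cons]
    rcases List.mem_cons.1 hA with rfl | hA
    · exact Or.inl hx
    · exact Or.inr (ih hA)

theorem tok_of_vars_ct {d x : Nm} {c : Bool} (h : x ∈ (ct d c).vars) : x = d := by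
  cases c <;> simpa [ct, Fm.vars] using h

theorem tok_of_vars_cj {d : Nm} {Γ : List Fm} {x : Nm} (hx : x ∈ (cj d Γ).vars) :
    x = d ∨ ∃ A ∈ Γ, x ∈ A.vars := by
  induction Γ with
  | nil => exact Or.inl (tok_of_vars_ct (c := true) hx)
  | cons B Γ ih =>
    rw [cj_cons] at hx
    rcases hx with hx | hx
    · exact Or.inr ⟨B, List.mem_cons_self, hx⟩
    · rcases ih hx with h | ⟨A, hA, h⟩
      · exact Or.inl h
      · exact Or.inr ⟨A, List.mem_cons_of_mem _ hA, h⟩

theorem tok_of_vars_dj {d : Nm} {Γ : List Fm} {x : Nm} (hx : x ∈ (dj d Γ).vars) :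
    x = d ∨ ∃ A ∈ Γ, x ∈ A.vars := by
  induction Γ with
  | nil => exact Or.inl (tok_of_vars_ct (c := false) hx)
  | cons B Γ ih =>
    rw [dj_cons] at hx
    rcases hx with hx | hx
    · exact Or.inr ⟨B, List.mem_cons_self, hx⟩
    · rcases ih hx with h | ⟨A, hA, h⟩
      · exact Or.inl h
      · exact Or.inr ⟨A, List.mem_cons_of_mem _ hA, h⟩

theorem tok_vars_lit {x y : Nm} {c : Bool} : x ∈ (lit y c).vars ↔ x = y := by
  cases c <;> simp [lit, Fm.vars]

theorem tok_of_vars_zone {d : Nm} {L J : ℕ} {W : List (List Bool)} {x : Nm}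
    (hx : x ∈ (zone d L J W).vars) : x = d ∨ ∃ u ∈ W, x = fn L J u := by
  unfold zone at hx
  rcases tok_of_vars_dj hx with h | ⟨A, hA, hx⟩
  · exact Or.inl h
  · obtain ⟨u, -, rfl⟩ := List.mem_map.1 hA
    rcases tok_of_vars_cj hx with h | ⟨B, hB, hx⟩
    · exact Or.inl h
    · unfold zat at hB
      obtain ⟨w, hw, rfl⟩ := List.mem_map.1 hB
      exact Or.inr ⟨w, hw, tok_vars_lit.1 hx⟩

theorem tok_vars_zone {d : Nm} {L J : ℕ} {W : List (List Bool)} {u : List Bool} (hu : u ∈ W) :
    fn L J u ∈ (zone d L J W).vars := by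
  unfold zone
  refine tok_vars_dj (A := cj d (zat L J W u)) (List.mem_map_of_mem
    (f := fun v => cj d (zat L J W v)) hu) ?_
  refine tok_vars_cj (A := lit (fn L J u) (decide (u = u))) ?_ (tok_vars_lit.2 rfl)
  unfold zat
  exact List.mem_map_of_mem (f := fun v' => lit (fn L J v') (decide (v' = u))) hu

theorem tok_of_vars_zbit {d : Nm} {L J i : ℕ} {W : List (List Bool)} {x : Nm}
    (hx : x ∈ (zbit d L J W i).vars) : x = d ∨ ∃ u ∈ W, x = fn L J u := by
  unfold zbit at hx
  rcases tok_of_vars_dj hx with h | ⟨A, hA, hx⟩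
  · exact Or.inl h
  · obtain ⟨u, hu, rfl⟩ := List.mem_map.1 hA
    exact Or.inr ⟨u, (List.mem_filter.1 hu).1, hx⟩

/-! ### The transposition -/

section

variable {L J : ℕ} {d : Nm} {W : List (List Bool)}

theorem tok_d_ne (hd : d.length ≤ L) (k : ℕ) (w : List Bool) : d ≠ fn L k w := by
  intro h
  have := fn_length L k w
  rw [← h] at this
  omega

theorem tokS_d (hd : d.length ≤ L) (v v' : List Bool) : tokS (fn L J v) (fn L J v') d = var d := by
  unfold tokS
  rw [Equiv.swap_apply_of_ne_of_ne (tok_d_ne hd J v) (tok_d_ne hd J v')]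

theorem tokS_other {J' : ℕ} (hJ : J' ≠ J) (v v' u : List Bool) :
    tokS (fn L J v) (fn L J v') (fn L J' u) = var (fn L J' u) := by
  unfold tokS
  rw [Equiv.swap_apply_of_ne_of_ne]
  · intro h; exact hJ (fn_inj h).1
  · intro h; exact hJ (fn_inj h).1

theorem tok_zone_other (hd : d.length ≤ L) {J' : ℕ} (hJ : J' ≠ J) (v v' : List Bool) :
    (zone d L J' W).subst (tokS (fn L J v) (fn L J v')) = zone d L J' W := by
  apply Fm.subst_eq_self
  intro x hx
  rcases tok_of_vars_zone hx with rfl | ⟨u, -, rfl⟩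
  · exact tokS_d hd v v'
  · exact tokS_other hJ v v' u

theorem tok_zbit_other (hd : d.length ≤ L) {J' : ℕ} (hJ : J' ≠ J) (i : ℕ) (v v' : List Bool) :
    (zbit d L J' W i).subst (tokS (fn L J v) (fn L J v')) = zbit d L J' W i := by
  apply Fm.subst_eq_self
  intro x hx
  rcases tok_of_vars_zbit hx with rfl | ⟨u, -, rfl⟩
  · exact tokS_d hd v v'
  · exact tokS_other hJ v v' u

/-- The literals after the transposition: the block is at position `v'`. -/
theorem tok_lk_swap {n : ℕ} {v v' u : List Bool} (hv : v ∈ W) (hv' : v' ∈ W) (hu : u ∈ W) :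
    lk (litsOf (Fm.and (cj d (zat L J W v)) (GH d L W n)))
      (Equiv.swap (fn L J v) (fn L J v') (fn L J u)) = some (decide (u = v')) := by
  by_cases h1 : u = v
  · subst h1
    rw [Equiv.swap_apply_left, tok_lk hv']
    congr 2
    exact propext ⟨fun h => h.symm, fun h => h.symm⟩
  · by_cases h2 : u = v'
    · subst h2
      rw [Equiv.swap_apply_right, tok_lk hv]
      simp
    · rw [Equiv.swap_apply_of_ne_of_ne, tok_lk hu]
      · simp [h1, h2]
      · intro h; exact h1 (fn_inj h).2
      · intro h; exact h2 (fn_inj h).2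

theorem tok_sm_zone {n : ℕ} (hd : d.length ≤ L) {v v' : List Bool} (hv : v ∈ W) (hv' : v' ∈ W) :
    (sm (litsOf (Fm.and (cj d (zat L J W v)) (GH d L W n)))
      ((zone d L J W).subst (tokS (fn L J v) (fn L J v')))).1 = some true := by
  unfold zone
  rw [tok_dj_subst (tokS_d hd v v')]
  refine tok_sm_dj (A := (cj d (zat L J W v')).subst (tokS (fn L J v) (fn L J v'))) ?_ ?_
  · rw [List.map_map]
    exact List.mem_map_of_mem (f := Fm.subst (tokS (fn L J v) (fn L J v')) ∘
      fun v => cj d (zat L J W v)) hv'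
  · rw [tok_cj_subst (tokS_d hd v v')]
    apply tok_sm_cj
    intro A hA
    unfold zat at hA
    rw [List.map_map] at hA
    obtain ⟨u, hu, rfl⟩ := List.mem_map.1 hA
    simp only [Function.comp]
    rw [tok_lit_subst]
    have h := tok_lk_swap (d := d) (n := n) (J := J) (L := L) hv hv' hu
    cases hb : decide (u = v')
    · rw [hb] at h
      simp only [lit, Bool.false_eq_true, if_false, sm_neg, sm_var, smV, h, smN, Bool.not_false]
    · rw [hb] at h
      simp only [lit, if_true, sm_var, smV, h]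

theorem tok_sm_zbit_swap {n : ℕ} (hd : d.length ≤ L) {v v' : List Bool} (hv : v ∈ W)
    (hv' : v' ∈ W) (i : ℕ) :
    sm (litsOf (Fm.and (cj d (zat L J W v)) (GH d L W n)))
      ((zbit d L J W i).subst (tokS (fn L J v) (fn L J v'))) =
      (some (v'.getD i false), var []) := by
  unfold zbit
  rw [tok_dj_subst (tokS_d hd v v'), List.map_map]
  have e : (W.filter (fun v => v.getD i false)).map
      (Fm.subst (tokS (fn L J v) (fn L J v')) ∘ fun v => var (fn L J v)) =
      (W.filter (fun v => v.getD i false)).map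
        (fun u => var (Equiv.swap (fn L J v) (fn L J v') (fn L J u))) := rfl
  rw [e, tok_sm_vars (f := fun u => Equiv.swap (fn L J v) (fn L J v') (fn L J u)) (u0 := v')
    (fun u hu => tok_lk_swap hv hv' (List.mem_filter.1 hu).1)]
  congr 2
  cases hb : v'.getD i false
  · simp only [decide_eq_false_iff_not, List.mem_filter, not_and]
    intro _; rw [hb]; simp
  · simp only [decide_eq_true_iff, List.mem_filter]
    exact ⟨hv', hb⟩

theorem tok_sm_zbit {n : ℕ} {v : List Bool} (hv : v ∈ W) (i : ℕ) :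
    sm (litsOf (Fm.and (cj d (zat L J W v)) (GH d L W n))) (zbit d L J W i) =
      (some (v.getD i false), var []) := by
  unfold zbit
  rw [tok_sm_vars (f := fun u => fn L J u) (u0 := v)
    (fun u hu => tok_lk (List.mem_filter.1 hu).1)]
  congr 2
  cases hb : v.getD i false
  · simp only [decide_eq_false_iff_not, List.mem_filter, not_and]
    intro _; rw [hb]; simp
  · simp only [decide_eq_true_iff, List.mem_filter]
    exact ⟨hv, hb⟩

end

/-! ### The table -/

theorem tok_setb_length (v : List Bool) (i : ℕ) (c : Bool) : (setb v i c).length = v.length := by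
  simp [setb]

theorem tok_setb_getD (v : List Bool) (i : ℕ) (c : Bool) (j : ℕ) :
    (setb v i c).getD j false = if j = i ∧ j < v.length then c else v.getD j false := by
  unfold setb
  rw [List.getD_eq_getElem?_getD, List.getElem?_map, List.getElem?_zipIdx,
    List.getD_eq_getElem?_getD]
  by_cases hj : j < v.length
  · rw [List.getElem?_eq_getElem hj]
    by_cases h : j = i
    · simp [h]
      intro hi
      exact absurd hj (by omega)
    · simp [h]
  · rw [List.getElem?_eq_none (by omega)]
    simp [hj]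

theorem tok_mem_tblD {d : Nm} {L : ℕ} {W : List (List Bool)} {bl : List (List Nm)} {x : Nm}
    {ys : List Nm} {J i : ℕ} (h1 : (ys, J) ∈ bl.zipIdx) (h2 : (x, i) ∈ ys.zipIdx) :
    (x, zbit d L J W i) ∈ tblD d L W bl := by
  unfold tblD
  rw [List.mem_flatMap]
  exact ⟨(ys, J), h1, List.mem_map_of_mem (f := fun x : Nm × ℕ => (x.1, zbit d L J W x.2)) h2⟩

theorem tok_fst_zipIdx (l : List Nm) (k : ℕ) : (l.zipIdx k).map Prod.fst = l := by
  induction l generalizing k with
  | nil => rfl
  | cons a l ih => rw [List.zipIdx_cons, List.map_cons, ih]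

theorem tok_tblD_fst (d : Nm) (L : ℕ) (W : List (List Bool)) (bl : List (List Nm)) :
    (tblD d L W bl).map Prod.fst = bl.flatten := by
  unfold tblD
  have key : ∀ (k : ℕ), ((bl.zipIdx k).flatMap (fun b => b.1.zipIdx.map
      (fun x => (x.1, zbit d L b.2 W x.2)))).map Prod.fst = bl.flatten := by
    induction bl with
    | nil => intro k; rfl
    | cons ys bl ih =>
      intro k
      rw [List.zipIdx_cons, List.flatMap_cons, List.map_append, ih, List.flatten_cons,
        List.map_map]
      congr 1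
      have : (Prod.fst ∘ fun x : Nm × ℕ => (x.1, zbit d L k W x.2)) = Prod.fst := rfl
      simp only at this ⊢
      rw [this, tok_fst_zipIdx]
  exact key 0

theorem tok_exists_block {bl : List (List Nm)} {x : Nm} (hx : x ∈ bl.flatten) :
    ∃ ys J i, (ys, J) ∈ bl.zipIdx ∧ (x, i) ∈ ys.zipIdx := by
  obtain ⟨ys, hys, hx⟩ := List.mem_flatten.1 hx
  obtain ⟨J, hJ, rfl⟩ := List.mem_iff_getElem.1 hys
  obtain ⟨i, hi, rfl⟩ := List.mem_iff_getElem.1 hx
  refine ⟨bl[J], J, i, ?_, ?_⟩
  · rw [List.mem_zipIdx_iff_getElem?]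
    simp [hJ]
  · rw [List.mem_zipIdx_iff_getElem?]
    simp [hi]

/-! ### The steps -/

section steps

variable {F : List Rule} {L : ℕ} {d : Nm} {W : List (List Bool)} {e : ℕ} {bl : List (List Nm)}

theorem tok_sm_main (hWe : ∀ w, w ∈ W ↔ w.length = e) (hb : bl.flatten.Nodup)
    (hbe : ∀ b ∈ bl, b.length = e) (hd : d.length ≤ L) {ys : List Nm} {J i : ℕ} {x : Nm}
    (h1 : (ys, J) ∈ bl.zipIdx) (h2 : (x, i) ∈ ys.zipIdx) {v : List Bool} (hv : v ∈ W)
    (c : Bool) {C : Fm} (hC : ∀ y ∈ C.vars, y ∈ bl.flatten) (n : ℕ) :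
    sm (litsOf (Fm.and (cj d (zat L J W v)) (GH d L W n)))
      ((C.subst (tsub (tblD d L W bl))).subst (tokS (fn L J v) (fn L J (setb v i c)))) =
    sm (litsOf (Fm.and (cj d (zat L J W v)) (GH d L W n)))
      ((C.subst (cs x c)).subst (tsub (tblD d L W bl))) := by
  have hv' : setb v i c ∈ W := by
    rw [hWe, tok_setb_length]; exact (hWe v).1 hv
  have hnd : ((tblD d L W bl).map Prod.fst).Nodup := by rw [tok_tblD_fst]; exact hb
  have hie : i < v.length := by
    have h3 := (List.mem_zipIdx h2).2.1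
    have h4 := hbe ys (by
      have := List.mem_zipIdx h1
      rw [this.2.2]
      exact List.getElem_mem _)
    rw [(hWe v).1 hv, ← h4]
    omega
  rw [Fm.subst_subst, Fm.subst_subst]
  apply sm_subst
  intro y hy
  obtain ⟨zs, J', i', g1, g2⟩ := tok_exists_block (hC y hy)
  have hδ : tsub (tblD d L W bl) y = zbit d L J' W i' := tsub_of_mem (tok_mem_tblD g1 g2) hnd
  have hδx : tsub (tblD d L W bl) x = zbit d L J W i := tsub_of_mem (tok_mem_tblD h1 h2) hnd
  by_cases hyx : y = x
  · subst hyx
    have e1 : zbit d L J' W i' = zbit d L J W i := by rw [← hδ, hδx]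
    rw [hδx, tok_sm_zbit_swap hd hv hv', tok_setb_getD, if_pos ⟨rfl, hie⟩]
    unfold cs
    rw [if_pos rfl]
    cases c
    · show _ = sm _ (neg (imp (tsub (tblD d L W bl) y) (tsub (tblD d L W bl) y)))
      rw [sm_neg, sm_imp_self rfl]
      rfl
    · show _ = sm _ (imp (tsub (tblD d L W bl) y) (tsub (tblD d L W bl) y))
      rw [sm_imp_self rfl]
  · have e2 : (cs x c y).subst (tsub (tblD d L W bl)) = tsub (tblD d L W bl) y := by
      unfold cs
      rw [if_neg hyx]
      rfl
    rw [e2, hδ]
    by_cases hJ : J' = J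
    · subst hJ
      have hzs : zs = ys := by
        have a1 := (List.mem_zipIdx_iff_getElem?.1 g1)
        have a2 := (List.mem_zipIdx_iff_getElem?.1 h1)
        simp only at a1 a2
        rw [a1] at a2
        exact Option.some.inj a2
      subst hzs
      have hii : i' ≠ i := by
        rintro rfl
        have a1 := (List.mem_zipIdx_iff_getElem?.1 g2)
        have a2 := (List.mem_zipIdx_iff_getElem?.1 h2)
        simp only at a1 a2
        rw [a1] at a2
        exact hyx (Option.some.inj a2)
      rw [tok_sm_zbit_swap hd hv hv', tok_sm_zbit hv, tok_setb_getD, if_neg (fun h => hii h.1)]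
    · rw [tok_zbit_other hd hJ]

theorem tok_okH (hWe : ∀ w, w ∈ W ↔ w.length = e) (hd : d.length ≤ L) {J i : ℕ}
    {v : List Bool} (hv : v ∈ W) (c : Bool) (n : ℕ) :
    okH (Fm.and (cj d (zat L J W v)) (GH d L W n))
      ((GH d L W n).subst (tokS (fn L J v) (fn L J (setb v i c)))) := by
  have hv' : setb v i c ∈ W := by
    rw [hWe, tok_setb_length]; exact (hWe v).1 hv
  unfold GH
  rw [tok_cj_subst (tokS_d hd _ _), okH_cj, List.map_map]
  intro A hA
  obtain ⟨J', hJ', rfl⟩ := List.mem_map.1 hA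
  simp only [Function.comp]
  by_cases hJ : J' = J
  · subst hJ
    exact okH_of_sm (tok_sm_zone (n := n) hd hv hv')
  · rw [tok_zone_other hd hJ]
    refine okH_of_mem ?_
    simp only [ands, List.mem_cons, List.mem_append]
    refine Or.inr (Or.inr (mem_ands_cj (A := zone d L J' W) ?_ (self_mem_ands _)))
    exact List.mem_map_of_mem (f := fun J => zone d L J W) hJ'

theorem tokV_just {J i : ℕ} {c : Bool} {v : List Bool} {C B : Fm} {π : List Fm} {n : ℕ}
    (hJ : J < n) (hv : v ∈ W) (hv' : setb v i c ∈ W)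
    (hπ : imp (GH d L W n) C ∈ π)
    (h1 : okH (Fm.and (cj d (zat L J W v)) (GH d L W n))
      ((GH d L W n).subst (tokS (fn L J v) (fn L J (setb v i c)))))
    (h2 : sm (litsOf (Fm.and (cj d (zat L J W v)) (GH d L W n)))
        (C.subst (tokS (fn L J v) (fn L J (setb v i c)))) =
      sm (litsOf (Fm.and (cj d (zat L J W v)) (GH d L W n))) B) :
    Just (FP (GG F)) π (tokV L d W (GH d L W n) C B J i c v) ∧
      imp (Fm.and (cj d (zat L J W v)) (GH d L W n)) B ∈
        tokV L d W (GH d L W n) C B J i c v := by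
  obtain ⟨j, m⟩ := li_just (GG_rich F) (H := Fm.and (cj d (zat L J W v)) (GH d L W n))
    (π := π ++ [imp ((GH d L W n).subst (tokS (fn L J v) (fn L J (setb v i c))))
      (C.subst (tokS (fn L J v) (fn L J (setb v i c))))]) (by simp) h1 h2
  refine ⟨⟨Or.inr (Or.inr ?_), j.imp_step (fun _ _ h => Or.inl h)⟩, List.mem_cons_of_mem _ m⟩
  refine ⟨imp (GH d L W n) C, hπ, Equiv.swap (fn L J v) (fn L J (setb v i c)), ?_, rfl⟩
  have hz : ∀ u ∈ W, fn L J u ∈ (imp (GH d L W n) C).vars := by
    intro u hu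
    left
    unfold GH
    refine tok_vars_cj (A := zone d L J W) ?_ (tok_vars_zone hu)
    exact List.mem_map_of_mem (f := fun J => zone d L J W) (List.mem_range.2 hJ)
  intro x hx
  rw [Equiv.swap_apply_of_ne_of_ne]
  · rintro rfl; exact hx (hz v hv)
  · rintro rfl; exact hx (hz _ hv')

theorem tokC_just {J i : ℕ} {c : Bool} {C B : Fm} {π : List Fm} {n : ℕ}
    (hJ : J < n) (hWi : ∀ v ∈ W, setb v i c ∈ W)
    (hπ : imp (GH d L W n) C ∈ π)
    (h1 : ∀ v ∈ W, okH (Fm.and (cj d (zat L J W v)) (GH d L W n))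
      ((GH d L W n).subst (tokS (fn L J v) (fn L J (setb v i c)))))
    (h2 : ∀ v ∈ W, sm (litsOf (Fm.and (cj d (zat L J W v)) (GH d L W n)))
        (C.subst (tokS (fn L J v) (fn L J (setb v i c)))) =
      sm (litsOf (Fm.and (cj d (zat L J W v)) (GH d L W n))) B) :
    Just (FP (GG F)) π (tokC L d W (GH d L W n) C B J i c) ∧
      imp (GH d L W n) B ∈ tokC L d W (GH d L W n) C B J i c := by
  unfold tokC
  have j1 : Just (FP (GG F)) π (W.flatMap (fun v => tokV L d W (GH d L W n) C B J i c v)) := by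
    apply Just.flatMap (mono_perm _)
    intro v hv
    exact (tokV_just hJ hv (hWi v hv) hπ (h1 v hv) (h2 v hv)).1
  obtain ⟨j2, m2⟩ := caseL_just (GG_rich F) (d := d) (H := GH d L W n) (A := B)
    (Xs := W.map (fun v => cj d (zat L J W v)))
    (π := π ++ W.flatMap (fun v => tokV L d W (GH d L W n) C B J i c v)) (by
      intro X hX
      obtain ⟨v, hv, rfl⟩ := List.mem_map.1 hX
      refine List.mem_append_right _ (List.mem_flatMap.2 ⟨v, hv, ?_⟩)
      exact (tokV_just (F := F) hJ hv (hWi v hv) hπ (h1 v hv) (h2 v hv)).2) (by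
      show zone d L J W ∈ ands (GH d L W n)
      unfold GH
      exact mem_ands_cj (List.mem_map_of_mem (f := fun J => zone d L J W)
        (List.mem_range.2 hJ)) (self_mem_ands _))
  exact ⟨Just.append j1 (j2.imp_step (fun _ _ h => Or.inl h)), List.mem_append_right _ m2⟩

theorem tokLine_just (hWe : ∀ w, w ∈ W ↔ w.length = e) (hb : bl.flatten.Nodup)
    (hbe : ∀ b ∈ bl, b.length = e) (hd : d.length ≤ L) {σ π : List Fm} {B : Fm}
    (hσ : ∀ C ∈ σ, ∀ x ∈ C.vars, x ∈ bl.flatten) (hB : GC F σ B)
    (hπ : ∀ C ∈ σ, imp (GH d L W bl.length) (C.subst (tsub (tblD d L W bl))) ∈ π) :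
    Just (FP (GG F)) π (tokLine L d W bl σ B) ∧
      imp (GH d L W bl.length) (B.subst (tsub (tblD d L W bl))) ∈ tokLine L d W bl σ B := by
  refine ⟨?_, by simp [tokLine]⟩
  have hWi : ∀ (i : ℕ) (c : Bool), ∀ v ∈ W, setb v i c ∈ W := by
    intro i c v hv
    rw [hWe, tok_setb_length]; exact (hWe v).1 hv
  have key : ∀ C ∈ σ, ∀ (x : Nm) (c : Bool), B = C.subst (cs x c) →
      ∀ b ∈ bl.zipIdx, ∀ y ∈ b.1.zipIdx, y.1 = x →
      Just (FP (GG F)) π (tokC L d W (GH d L W bl.length) (C.subst (tsub (tblD d L W bl)))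
            (B.subst (tsub (tblD d L W bl))) b.2 y.2 c) ∧
      imp (GH d L W bl.length) (B.subst (tsub (tblD d L W bl))) ∈
        tokC L d W (GH d L W bl.length) (C.subst (tsub (tblD d L W bl)))
            (B.subst (tsub (tblD d L W bl))) b.2 y.2 c := by
    rintro C hC x c hBC ⟨ys, J⟩ hb1 ⟨y, i⟩ hy1 hyx
    simp only at hyx hy1
    subst hyx
    have hJ : J < bl.length := by
      have := (List.mem_zipIdx hb1).2.1
      omega
    refine tokC_just hJ (hWi i c) (hπ C hC) (fun v hv => tok_okH hWe hd hv c _) ?_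
    intro v hv
    rw [hBC]
    exact tok_sm_main hWe hb hbe hd hb1 hy1 hv c (hσ C hC) _
  unfold tokLine tokX tokZ tokY
  refine Just.append ?_ ⟨?_, trivial⟩
  · apply Just.flatMap (mono_perm _)
    intro C hC
    apply Just.flatMap (mono_perm _)
    intro x _
    apply Just.flatMap (mono_perm _)
    intro c _
    split_ifs with hBC
    · apply Just.flatMap (mono_perm _)
      intro b hb1
      apply Just.flatMap (mono_perm _)
      intro y hy1
      split_ifs with hyx
      · exact (key C hC x c hBC b hb1 y hy1 hyx).1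
      · trivial
    · trivial
  · rcases hB with hB | ⟨C, hC, x, c, hBC⟩
    · right; left
      exact ruleStep_hyp hB _ _ (fun C hC => List.mem_append_left _ (hπ C hC))
    · left
      by_cases hx : x ∈ C.vars
      · refine List.mem_append_right _ (List.mem_flatMap.2 ⟨C, hC, List.mem_flatMap.2
          ⟨x, mem_nms.2 hx, List.mem_flatMap.2 ⟨c, by cases c <;> simp, ?_⟩⟩⟩)
        rw [if_pos hBC]
        obtain ⟨ys, J, i, h1, h2⟩ := tok_exists_block (hσ C hC x hx)
        refine List.mem_flatMap.2 ⟨(ys, J), h1, List.mem_flatMap.2 ⟨(x, i), h2, ?_⟩⟩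
        rw [if_pos rfl]
        exact (key C hC x c hBC (ys, J) h1 (x, i) h2 rfl).2
      · have : B = C := by
          rw [hBC]
          apply Fm.subst_eq_self
          intro y hy
          unfold cs
          rw [if_neg]
          rintro rfl; exact hx hy
        rw [this]
        exact List.mem_append_left _ (hπ C hC)

end steps

/-! ### The algorithm is polynomial -/

section poly

open Pool.Agent.H.MP_0447ec_lc.PT

variable {α : Type} [Enc α]

theorem tok_poly_swapSubst {a b : α → Nm} {G : α → Fm} (ha : Poly a) (hb : Poly b)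
    (hG : Poly G) : Poly (fun p => (G p).subst (tokS (a p) (b p))) := by
  refine Poly.substOf (s := fun p => tokS (a p) (b p)) hG ?_
  unfold tokS
  have h1 : Poly (fun p : α × Nm => decide (p.2 = a p.1)) := by fun_prop
  have h2 : Poly (fun p : α × Nm => decide (p.2 = b p.1)) := by fun_prop
  have h3 : Poly (fun p : α × Nm => Fm.var (if p.2 = a p.1 then b p.1 else
      if p.2 = b p.1 then a p.1 else p.2)) :=
    Poly.fmVar (Poly.ite h1 (by fun_prop) (Poly.ite h2 (by fun_prop) (by fun_prop)))
  have e : (fun p : α × Nm => Fm.var (Equiv.swap (a p.1) (b p.1) p.2)) =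
      fun p : α × Nm => Fm.var (if p.2 = a p.1 then b p.1 else
        if p.2 = b p.1 then a p.1 else p.2) := by
    funext p
    rw [Equiv.swap_apply_def]
  rw [e]
  exact h3

theorem tok_poly_csSubst {x : α → Nm} {c : α → Bool} {G : α → Fm} (hx : Poly x) (hc : Poly c)
    (hG : Poly G) : Poly (fun p => (G p).subst (cs (x p) (c p))) := by
  refine Poly.substOf (s := fun p => cs (x p) (c p)) hG ?_
  unfold cs
  have h1 : Poly (fun p : α × Nm => decide (p.2 = x p.1)) := by fun_prop
  exact Poly.ite h1 (by fun_prop) (by fun_prop)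

theorem tok_poly_setb {v : α → List Bool} {i : α → ℕ} {c : α → Bool} (hv : Poly v) (hi : Poly i)
    (hc : Poly c) : Poly (fun p => setb (v p) (i p) (c p)) := by
  unfold setb
  refine PT.Poly.map (f := fun (p : α) (q : Bool × ℕ) => if q.2 = i p then c p else q.1) ?_
    (by fun_prop)
  have h1 : Poly (fun p : α × (Bool × ℕ) => decide (p.2.2 = i p.1)) := by fun_prop
  exact Poly.ite h1 (by fun_prop) (by fun_prop)

theorem tok_poly_tokV {L : α → ℕ} {d : α → Nm} {W : α → List (List Bool)} {H C B : α → Fm}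
    {J i : α → ℕ} {c : α → Bool} {v : α → List Bool} (hL : Poly L) (hd : Poly d) (hW : Poly W)
    (hH : Poly H) (hC : Poly C) (hB : Poly B) (hJ : Poly J) (hi : Poly i) (hc : Poly c)
    (hv : Poly v) :
    Poly (fun p => tokV (L p) (d p) (W p) (H p) (C p) (B p) (J p) (i p) (c p) (v p)) := by
  have h0 := tok_poly_setb hv hi hc
  have h1 : Poly (fun p => fn (L p) (J p) (v p)) := by fun_prop
  have h2 : Poly (fun p => fn (L p) (J p) (setb (v p) (i p) (c p))) := Poly.fn hL hJ h0
  have h3 := tok_poly_swapSubst h1 h2 hH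
  have h4 := tok_poly_swapSubst h1 h2 hC
  unfold tokV
  refine Poly.lcons (Poly.fmImp h3 h4) (Poly.li ?_ h3 h4 hB)
  fun_prop

theorem tok_poly_tokC {L : α → ℕ} {d : α → Nm} {W : α → List (List Bool)} {H C B : α → Fm}
    {J i : α → ℕ} {c : α → Bool} (hL : Poly L) (hd : Poly d) (hW : Poly W)
    (hH : Poly H) (hC : Poly C) (hB : Poly B) (hJ : Poly J) (hi : Poly i) (hc : Poly c) :
    Poly (fun p => tokC (L p) (d p) (W p) (H p) (C p) (B p) (J p) (i p) (c p)) := by
  unfold tokC
  refine Poly.append (Poly.flatMap (f := fun p v =>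
    tokV (L p) (d p) (W p) (H p) (C p) (B p) (J p) (i p) (c p) v) ?_ hW) ?_
  · exact tok_poly_tokV (α := α × List Bool) (L := fun p => L p.1) (d := fun p => d p.1)
      (W := fun p => W p.1) (H := fun p => H p.1) (C := fun p => C p.1) (B := fun p => B p.1)
      (J := fun p => J p.1) (i := fun p => i p.1) (c := fun p => c p.1) (v := fun p => p.2)
      (by fun_prop) (by fun_prop) (by fun_prop) (by fun_prop) (by fun_prop) (by fun_prop)
      (by fun_prop) (by fun_prop) (by fun_prop) (by fun_prop)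
  · fun_prop

theorem tok_poly_tokY {L : α → ℕ} {d : α → Nm} {W : α → List (List Bool)} {H C B : α → Fm}
    {x : α → Nm} {c : α → Bool} {J : α → ℕ} {y : α → Nm × ℕ} (hL : Poly L) (hd : Poly d)
    (hW : Poly W) (hH : Poly H) (hC : Poly C) (hB : Poly B) (hx : Poly x) (hc : Poly c)
    (hJ : Poly J) (hy : Poly y) :
    Poly (fun p => tokY (L p) (d p) (W p) (H p) (C p) (B p) (x p) (c p) (J p) (y p)) := by
  unfold tokY
  have h1 : Poly (fun p => decide ((y p).1 = x p)) := by fun_prop
  exact Poly.ite h1 (tok_poly_tokC hL hd hW hH hC hB hJ (by fun_prop) hc) (by fun_prop)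

theorem tok_poly_tokZ {L : α → ℕ} {d : α → Nm} {W : α → List (List Bool)}
    {bl : α → List (List Nm)} {H C B : α → Fm} {x : α → Nm} {c : α → Bool} (hL : Poly L)
    (hd : Poly d) (hW : Poly W) (hbl : Poly bl) (hH : Poly H) (hC : Poly C) (hB : Poly B)
    (hx : Poly x) (hc : Poly c) :
    Poly (fun p => tokZ (L p) (d p) (W p) (bl p) (H p) (C p) (B p) (x p) (c p)) := by
  unfold tokZ
  refine Poly.flatMap (f := fun p (b : List Nm × ℕ) => b.1.zipIdx.flatMap (fun y =>
    tokY (L p) (d p) (W p) (H p) (C p) (B p) (x p) (c p) b.2 y)) ?_ (by fun_prop)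
  refine Poly.flatMap (f := fun (p : α × (List Nm × ℕ)) (y : Nm × ℕ) =>
    tokY (L p.1) (d p.1) (W p.1) (H p.1) (C p.1) (B p.1) (x p.1) (c p.1) p.2.2 y) ?_
    (by fun_prop)
  exact tok_poly_tokY (α := (α × (List Nm × ℕ)) × (Nm × ℕ)) (L := fun p => L p.1.1)
    (d := fun p => d p.1.1) (W := fun p => W p.1.1) (H := fun p => H p.1.1)
    (C := fun p => C p.1.1) (B := fun p => B p.1.1) (x := fun p => x p.1.1)
    (c := fun p => c p.1.1) (J := fun p => p.1.2.2) (y := fun p => p.2)
    (by fun_prop) (by fun_prop) (by fun_prop) (by fun_prop) (by fun_prop) (by fun_prop)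
    (by fun_prop) (by fun_prop) (by fun_prop) (by fun_prop)

theorem tok_poly_tokX {L : α → ℕ} {d : α → Nm} {W : α → List (List Bool)}
    {bl : α → List (List Nm)} {H C C' B B' : α → Fm} {x : α → Nm} (hL : Poly L)
    (hd : Poly d) (hW : Poly W) (hbl : Poly bl) (hH : Poly H) (hC : Poly C) (hC' : Poly C')
    (hB : Poly B) (hB' : Poly B') (hx : Poly x) :
    Poly (fun p => tokX (L p) (d p) (W p) (bl p) (H p) (C p) (C' p) (B p) (B' p) (x p)) := by
  unfold tokX
  refine Poly.flatMap (f := fun p c => if B p = (C p).subst (cs (x p) c) then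
    tokZ (L p) (d p) (W p) (bl p) (H p) (C' p) (B' p) (x p) c else []) ?_ (by fun_prop)
  have h1 : Poly (fun p : α × Bool => (C p.1).subst (cs (x p.1) p.2)) :=
    tok_poly_csSubst (by fun_prop) (by fun_prop) (by fun_prop)
  refine Poly.ite (Poly.decEq (by fun_prop) h1) ?_ (by fun_prop)
  exact tok_poly_tokZ (α := α × Bool) (L := fun p => L p.1) (d := fun p => d p.1)
    (W := fun p => W p.1) (bl := fun p => bl p.1) (H := fun p => H p.1)
    (C := fun p => C' p.1) (B := fun p => B' p.1) (x := fun p => x p.1) (c := fun p => p.2)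
    (by fun_prop) (by fun_prop) (by fun_prop) (by fun_prop) (by fun_prop) (by fun_prop)
    (by fun_prop) (by fun_prop) (by fun_prop)

theorem tok_poly_tokLine {L : α → ℕ} {d : α → Nm} {W : α → List (List Bool)}
    {bl : α → List (List Nm)} {pre : α → List Fm} {B : α → Fm} (hL : Poly L)
    (hd : Poly d) (hW : Poly W) (hbl : Poly bl) (hp : Poly pre) (hB : Poly B) :
    Poly (fun p => tokLine (L p) (d p) (W p) (bl p) (pre p) (B p)) := by
  unfold tokLine
  have ht : Poly (fun p => tblD (d p) (L p) (W p) (bl p)) := by fun_prop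
  have hG : Poly (fun p => GH (d p) (L p) (W p) (bl p).length) := by fun_prop
  have hB' : Poly (fun p => (B p).subst (tsub (tblD (d p) (L p) (W p) (bl p)))) :=
    Poly.substT ht hB
  refine Poly.append ?_ (by fun_prop)
  refine Poly.flatMap (f := fun p C => (nms C).flatMap (fun x =>
    tokX (L p) (d p) (W p) (bl p) (GH (d p) (L p) (W p) (bl p).length) C
      (C.subst (tsub (tblD (d p) (L p) (W p) (bl p)))) (B p)
      ((B p).subst (tsub (tblD (d p) (L p) (W p) (bl p)))) x)) ?_ hp
  refine Poly.flatMap (f := fun (p : α × Fm) x =>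
    tokX (L p.1) (d p.1) (W p.1) (bl p.1) (GH (d p.1) (L p.1) (W p.1) (bl p.1).length) p.2
      (p.2.subst (tsub (tblD (d p.1) (L p.1) (W p.1) (bl p.1)))) (B p.1)
      ((B p.1).subst (tsub (tblD (d p.1) (L p.1) (W p.1) (bl p.1)))) x) ?_ (by fun_prop)
  have hC' : Poly (fun p : (α × Fm) × Nm =>
      p.1.2.subst (tsub (tblD (d p.1.1) (L p.1.1) (W p.1.1) (bl p.1.1)))) :=
    Poly.substT (t := fun p : (α × Fm) × Nm => tblD (d p.1.1) (L p.1.1) (W p.1.1) (bl p.1.1))
      (G := fun p : (α × Fm) × Nm => p.1.2) (Poly.comp (g := fun p : (α × Fm) × Nm => p.1.1)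
        ht (by fun_prop)) (by fun_prop)
  exact tok_poly_tokX (α := (α × Fm) × Nm) (L := fun p => L p.1.1) (d := fun p => d p.1.1)
    (W := fun p => W p.1.1) (bl := fun p => bl p.1.1)
    (H := fun p => GH (d p.1.1) (L p.1.1) (W p.1.1) (bl p.1.1).length)
    (C := fun p => p.1.2)
    (C' := fun p => p.1.2.subst (tsub (tblD (d p.1.1) (L p.1.1) (W p.1.1) (bl p.1.1))))
    (B := fun p => B p.1.1)
    (B' := fun p => (B p.1.1).subst (tsub (tblD (d p.1.1) (L p.1.1) (W p.1.1) (bl p.1.1))))
    (x := fun p => p.2) (by fun_prop) (by fun_prop) (by fun_prop) (by fun_prop)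
    (Poly.comp hG (by fun_prop)) (by fun_prop) hC' (by fun_prop) (Poly.comp hB' (by fun_prop))
    (by fun_prop)

theorem tok_poly : Poly tok := by
  unfold tok
  refine Poly.flatMap (f := fun (p : ℕ × Nm × List (List Bool) × List (List Nm) × List Fm)
    (q : List Fm × Fm) => tokLine p.1 p.2.1 p.2.2.1 p.2.2.2.1 q.1 q.2) ?_ (by fun_prop)
  exact tok_poly_tokLine (α := (ℕ × Nm × List (List Bool) × List (List Nm) × List Fm) ×
    (List Fm × Fm)) (L := fun p => p.1.1) (d := fun p => p.1.2.1) (W := fun p => p.1.2.2.1)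
    (bl := fun p => p.1.2.2.2.1) (pre := fun p => p.2.1) (B := fun p => p.2.2) (by fun_prop)
    (by fun_prop) (by fun_prop) (by fun_prop) (by fun_prop) (by fun_prop)

end poly

/-! ### The theorem -/

/-- **The token form of a constant substitution proof.** -/
theorem tok_main (F : List Rule) :
    ∃ T : ℕ × Nm × List (List Bool) × List (List Nm) × List Fm → List Fm, PT.Poly T ∧
    ∀ (L : ℕ) (d : Nm) (W : List (List Bool)) (e : ℕ) (bl : List (List Nm)) (σ : List Fm),
      W.Nodup → (∀ w, w ∈ W ↔ w.length = e) → (∀ b ∈ bl, b.length = e) → bl.flatten.Nodup →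
      d.length ≤ L → Deriv (GC F) σ → (∀ C ∈ σ, ∀ x ∈ C.vars, x ∈ bl.flatten) →
      ∀ π, Just (FP (GG F)) π (T (L, d, W, bl, σ)) ∧
        ∀ B ∈ σ, imp (GH d L W bl.length) (B.subst (tsub (tblD d L W bl))) ∈
          T (L, d, W, bl, σ) := by
  refine ⟨tok, tok_poly, ?_⟩
  intro L d W e bl σ _ hWe hbe hb hd h hσ π
  induction h with
  | nil => exact ⟨trivial, by simp⟩
  | @snoc σ B h1 h2 ih =>
    have ih := ih (fun C hC => hσ C (List.mem_append_left _ hC))
    have hj := tokLine_just hWe hb hbe hd (π := π ++ tok (L, d, W, bl, σ))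
      (fun C hC => hσ C (List.mem_append_left _ hC)) h2
      (fun C hC => List.mem_append_right _ (ih.2 C hC))
    rw [tok_snoc]
    refine ⟨Just.append ih.1 hj.1, ?_⟩
    intro C hC
    rcases List.mem_append.1 hC with hC | hC
    · exact List.mem_append_left _ (ih.2 C hC)
    · rw [List.mem_singleton] at hC
      subst hC
      exact List.mem_append_right _ hj.2

end Pool.Agent.H.MP_0447ec_lc.PS
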