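import Pool.Agent.H.MP_0447ec_lc.LV.Count
import Pool.Agent.H.MP_0447ec_lc.LV.Tok
import Pool.Agent.H.MP_0447ec_lc.LV.DpB
import Pool.Agent.H.MP_0447ec_lc.LV.Vars

/-!
# From substitution Frege with linearly many variables to the permutation rule: one half
-/

namespace Pool.Agent.H.MP_0447ec_lc.PS

open Fm Pool.Agent.H.MP_0447ec_lc.PT

/-- The functions that are used. -/
structure FnB where
  /-- from extended Frege proofs to proofs with constant substitutions and few variables -/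
  h0 : List Fm → List Fm
  /-- substitutions in extended Frege proofs -/
  gs : List (Nm × Fm) × List Fm → List Fm
  /-- blocks -/
  Tb : (ℕ × ℕ × ℕ) × List (List Nm) × List Nm → List (List Nm)
  /-- codes -/
  Tc : List Nm → List (Nm × List Bool)
  /-- the token form -/
  Tk : ℕ × Nm × List (List Bool) × List (List Nm) × List Fm → List Fm
  /-- dynamic programming -/
  Td : (ℕ × Nm × List (List Bool)) × List (Nm × List Bool) × List Fm × Fm → List Fm

namespace FnB

variable (q : FnB)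

def xs (π : List Fm) : List Nm := dd (nms (lastF π))
def c (π : List Fm) : ℕ := Nat.log 2 (xs π).length + 1
def ac (π : List Fm) : List (Nm × List Bool) := q.Tc (xs π)
def rg (x : ℕ × List Fm × ℕ) : List (List Nm) :=
  (List.range (x.2.2 + 1)).map (fun J => (List.range (c x.2.1)).map
    (fun k => fn x.1 J (List.replicate k true)))
def d0 (x : ℕ × List Fm × ℕ) : Nm := fn x.1 (xs x.2.1).length []
def pj (x : ℕ × List Fm × ℕ) : List Fm := q.gs (regT (d0 x) (rg x) (q.ac x.2.1), x.2.1)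
def sg (x : ℕ × List Fm × ℕ) : List Fm := q.h0 (q.pj x)
def ot (x : ℕ × List Fm × ℕ) : List Nm :=
  (dd ((q.sg x).flatMap nms)).filter (fun y => !(decide (y ∈ (rg x).flatten)))
def bl (x : ℕ × ℕ × List Fm × ℕ) : List (List Nm) :=
  q.Tb ((bdN ((rg x.2).flatten ++ q.ot x.2), c x.2.2.1, x.1), rg x.2, q.ot x.2)
def tk (x : (ℕ × Nm × List (List Bool) × ℕ) × ℕ × List Fm × ℕ) : List Fm :=
  q.Tk (x.1.1, x.1.2.1, x.1.2.2.1, q.bl (x.1.2.2.2, x.2), q.sg x.2)
def sj (x : (ℕ × Nm × List (List Bool) × ℕ) × ℕ × List Fm × ℕ) : Fm :=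
  (AW (d0 x.2) (rg x.2) (q.ac x.2.2.1) (lastF x.2.2.1)).subst
    (tsub (tblD x.1.2.1 x.1.1 x.1.2.2.1 (q.bl (x.1.2.2.2, x.2))))
def half (x : (ℕ × Nm × List (List Bool) × ℕ) × ℕ × List Fm) : List Fm :=
  (List.range (xs x.2.2).length).flatMap (fun j => q.tk (x.1, x.2.1, x.2.2, j)) ++
  q.Td ((x.1.1, x.1.2.1, x.1.2.2.1), q.ac x.2.2,
    (List.range (xs x.2.2).length).map (fun j => q.sj (x.1, x.2.1, x.2.2, j)), lastF x.2.2)

structure IsPoly : Prop where
  hh0 : Poly q.h0
  hgs : Poly q.gs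
  hTb : Poly q.Tb
  hTc : Poly q.Tc
  hTk : Poly q.Tk
  hTd : Poly q.Td

variable {q}

theorem pxs : Poly xs := by unfold xs; fun_prop
theorem pc : Poly c := by
  have := pxs
  unfold c; fun_prop
theorem pac (h : q.IsPoly) : Poly q.ac := by
  have := pxs; have := h.hTc
  unfold ac; fun_prop
theorem prg : Poly rg := by
  have := pc
  unfold rg; fun_prop
theorem pd0 : Poly d0 := by
  have := pxs
  unfold d0; fun_prop
theorem ppj (h : q.IsPoly) : Poly q.pj := by
  have := pac h; have := prg; have := pd0; have := h.hgs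
  unfold pj; fun_prop
theorem psg (h : q.IsPoly) : Poly q.sg := by
  have := ppj h; have := h.hh0
  unfold sg; fun_prop
theorem pot (h : q.IsPoly) : Poly q.ot := by
  have := psg h; have := prg
  unfold ot; fun_prop
theorem pbl (h : q.IsPoly) : Poly q.bl := by
  have := pot h; have := prg; have := pc; have := h.hTb
  unfold bl; fun_prop
theorem ptk (h : q.IsPoly) : Poly q.tk := by
  have := pbl h; have := psg h; have := h.hTk
  unfold tk; fun_prop
theorem psj (h : q.IsPoly) : Poly q.sj := by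
  have e1 := pbl h; have e2 := prg; have e3 := pd0; have e4 := pac h
  have h1 : Poly (fun x : (ℕ × Nm × List (List Bool) × ℕ) × ℕ × List Fm × ℕ =>
      q.bl (x.1.2.2.2, x.2)) := by fun_prop
  have h2 : Poly (fun x : (ℕ × Nm × List (List Bool) × ℕ) × ℕ × List Fm × ℕ => d0 x.2) := by
    fun_prop
  have h3 : Poly (fun x : (ℕ × Nm × List (List Bool) × ℕ) × ℕ × List Fm × ℕ => rg x.2) := by
    fun_prop
  have h4 : Poly (fun x : (ℕ × Nm × List (List Bool) × ℕ) × ℕ × List Fm × ℕ =>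
      q.ac x.2.2.1) := by fun_prop
  have h5 : Poly (fun x : (ℕ × Nm × List (List Bool) × ℕ) × ℕ × List Fm × ℕ =>
      AW (d0 x.2) (rg x.2) (q.ac x.2.2.1) (lastF x.2.2.1)) :=
    Poly.AW h2 h3 h4 (by fun_prop)
  have h6 : Poly (fun x : (ℕ × Nm × List (List Bool) × ℕ) × ℕ × List Fm × ℕ =>
      tblD x.1.2.1 x.1.1 x.1.2.2.1 (q.bl (x.1.2.2.2, x.2))) :=
    Poly.tblD (by fun_prop) (by fun_prop) (by fun_prop) h1
  exact Poly.substT h6 h5
theorem phalf (h : q.IsPoly) : Poly q.half := by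
  have := ptk h; have := psj h; have := pac h; have := pxs; have := h.hTd
  unfold half; fun_prop

/-- The specifications. -/
structure Spec (F : List Rule) (R : Fm → List Fm → Prop) (q : FnB) (C1 : ℕ) : Prop where
  h0 : ∀ (A : Fm) (π : List Fm), RL R A π →
      Deriv (GC (GG F)) (q.h0 π) ∧ (q.h0 π).getLast? = some A ∧
      numVars (q.h0 π) ≤ C1 * (numVars [A] + Nat.log 2 (sz π)) + 1
  gs : ∀ (t : List (Nm × Fm)) (π : List Fm) (A : Fm), RL R A π →
      RL R (A.subst (tsub t)) (q.gs (t, π))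
  Tb : ∀ (L c e : ℕ) (rgs : List (List Nm)) (oth : List Nm),
      (∀ ys ∈ rgs, ys.length = c) → c ≤ e → oth.length ≤ rgs.length * (e - c) →
      (rgs.flatten ++ oth).Nodup → (∀ x ∈ rgs.flatten ++ oth, x.length ≤ L) →
      (q.Tb ((L, c, e), rgs, oth)).length = rgs.length ∧
      (∀ b ∈ q.Tb ((L, c, e), rgs, oth), b.length = e) ∧
      (q.Tb ((L, c, e), rgs, oth)).flatten.Nodup ∧
      (∀ x ∈ rgs.flatten ++ oth, x ∈ (q.Tb ((L, c, e), rgs, oth)).flatten) ∧
      (∀ (J : ℕ) (h1 : J < rgs.length) (h2 : J < (q.Tb ((L, c, e), rgs, oth)).length),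
        rgs[J] <+: (q.Tb ((L, c, e), rgs, oth))[J])
  Tc : ∀ l : List Nm, (q.Tc l).map Prod.fst = l ∧ ((q.Tc l).map Prod.snd).Nodup ∧
      ∀ p ∈ q.Tc l, p.2.length = Nat.log 2 l.length + 1 ∧ true ∈ p.2
  Tk : ∀ (L : ℕ) (d : Nm) (W : List (List Bool)) (e : ℕ) (bl : List (List Nm)) (σ : List Fm),
      W.Nodup → (∀ w, w ∈ W ↔ w.length = e) → (∀ b ∈ bl, b.length = e) → bl.flatten.Nodup →
      d.length ≤ L → Deriv (GC (GG F)) σ → (∀ C ∈ σ, ∀ x ∈ C.vars, x ∈ bl.flatten) →
      ∀ π : List Fm, Just (FP (GG (GG F))) π (q.Tk (L, d, W, bl, σ)) ∧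
        ∀ B ∈ σ, imp (GH d L W bl.length) (B.subst (tsub (tblD d L W bl))) ∈
          q.Tk (L, d, W, bl, σ)
  Td : ∀ (L : ℕ) (d : Nm) (W : List (List Bool)) (e c : ℕ) (ac : List (Nm × List Bool))
      (Ss : List Fm) (A : Fm),
      W.Nodup → (∀ w, w ∈ W ↔ w.length = e) → c ≤ e →
      (∀ p ∈ ac, p.2.length = c ∧ true ∈ p.2) → (ac.map Prod.snd).Nodup →
      (ac.map Prod.fst).Nodup → (∀ p ∈ ac, p.1.length ≤ L) → d.length ≤ L →
      d ∉ ac.map Prod.fst → (∀ x, x ∈ A.vars ↔ x ∈ ac.map Prod.fst) →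
      A.Eval (fun _ => False) → Ss.length = ac.length →
      (∀ (j : ℕ) (hj : j < Ss.length),
        sm (litsOf (HD d L W ac ac.length (j + 1))) Ss[j] =
        sm (litsOf (HD d L W ac ac.length (j + 1))) (AZ d L W ac ac.length A)) →
      ∀ π : List Fm, (∀ (j : ℕ) (hj : j < Ss.length), imp (GH d L W (j + 1)) Ss[j] ∈ π) →
        Just (FP (GG (GG F))) π (q.Td ((L, d, W), ac, Ss, A)) ∧
        imp (cj d ((List.range ac.length).flatMap (fun J => zoff L J W))) A ∈
          q.Td ((L, d, W), ac, Ss, A)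

section spec

variable {F : List Rule} {R : Fm → List Fm → Prop} {C1 : ℕ} (h : Spec F R q C1) {A : Fm}
  {π : List Fm} (hπ : RL R A π)

include hπ in
theorem last : lastF π = A := lastF_eq hπ.2

theorem xs_nodup (π : List Fm) : (xs π).Nodup := nodup_dd _

include hπ in
theorem mem_xs {x : Nm} : x ∈ xs π ↔ x ∈ A.vars := by
  unfold xs
  rw [mem_dd, mem_nms, last hπ]

include h in
theorem ac_fst : (q.ac π).map Prod.fst = xs π := (h.Tc _).1

include h in
theorem ac_length : (q.ac π).length = (xs π).length := by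
  rw [← ac_fst h, List.length_map]

theorem rg_length (x : ℕ × List Fm × ℕ) : (rg x).length = x.2.2 + 1 := by simp [rg]

theorem rg_len {x : ℕ × List Fm × ℕ} {ys : List Nm} (hy : ys ∈ rg x) : ys.length = c x.2.1 := by
  obtain ⟨j, -, rfl⟩ := List.mem_map.1 hy
  simp

theorem mem_rg {x : ℕ × List Fm × ℕ} {y : Nm} : y ∈ (rg x).flatten ↔
    ∃ J < x.2.2 + 1, ∃ k < c x.2.1, y = fn x.1 J (List.replicate k true) := by
  unfold rg
  simp only [List.mem_flatten, List.mem_map, List.mem_range]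
  constructor
  · rintro ⟨ys, ⟨j, hj, rfl⟩, hx⟩
    obtain ⟨k, hk, rfl⟩ := List.mem_map.1 hx
    exact ⟨j, hj, k, List.mem_range.1 hk, rfl⟩
  · rintro ⟨j, hj, k, hk, rfl⟩
    exact ⟨_, ⟨j, hj, rfl⟩, List.mem_map_of_mem (List.mem_range.2 hk)⟩

theorem rg_nodup (x : ℕ × List Fm × ℕ) : (rg x).flatten.Nodup := by
  unfold rg
  rw [← List.flatMap_def, List.nodup_flatMap]
  constructor
  · intro j _
    refine List.Nodup.map ?_ List.nodup_range
    intro k k' hk
    have := congrArg List.length (fn_inj hk).2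
    simpa using this
  · refine List.nodup_range.imp ?_
    intro i j hij
    rw [Function.onFun, List.disjoint_left]
    intro x hx hx'
    obtain ⟨v, _, rfl⟩ := List.mem_map.1 hx
    obtain ⟨v', _, hv'⟩ := List.mem_map.1 hx'
    exact hij (fn_inj hv').1.symm

/-- The register form of `A`. -/
def Aj (q : FnB) (x : ℕ × List Fm × ℕ) (A : Fm) : Fm := AW (d0 x) (rg x) (q.ac x.2.1) A

include h hπ in
theorem pj_spec (L0 j : ℕ) : RL R (Aj q (L0, π, j) A) (q.pj (L0, π, j)) :=
  h.gs _ _ _ hπ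

include h hπ in
theorem Aj_vars {L0 j : ℕ} {y : Nm} (hy : y ∈ (Aj q (L0, π, j) A).vars) :
    y ∈ d0 (L0, π, j) :: (rg (L0, π, j)).flatten := by
  obtain ⟨x, hx, hy⟩ := vars_subst hy
  rw [← mem_xs hπ, ← ac_fst h] at hx
  obtain ⟨p, hp, rfl⟩ := List.mem_map.1 hx
  have e : tsub (regT (d0 (L0, π, j)) (rg (L0, π, j)) (q.ac π)) p.1 =
      anyr (d0 (L0, π, j)) (rg (L0, π, j)) p.2 := by
    refine tsub_of_mem ?_ ?_
    · exact List.mem_map_of_mem (f := fun p : Nm × List Bool =>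
        (p.1, anyr (d0 (L0, π, j)) (rg (L0, π, j)) p.2)) hp
    · unfold regT
      rw [List.map_map]
      have := xs_nodup π
      rw [← ac_fst h] at this
      exact this
  rw [e] at hy
  unfold anyr at hy
  rcases vars_dj.1 hy with hy | ⟨B, hB, hy⟩
  · exact hy ▸ List.mem_cons_self
  · obtain ⟨ys, hys, rfl⟩ := List.mem_map.1 hB
    rcases vars_eqr hy with hy | hy
    · exact hy ▸ List.mem_cons_self
    · exact List.mem_cons_of_mem _ (List.mem_flatten.2 ⟨ys, hys, hy⟩)

theorem rg_flat_length (x : ℕ × List Fm × ℕ) :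
    (rg x).flatten.length = (x.2.2 + 1) * c x.2.1 := by
  have : ∀ {l : List (List Nm)} {c : ℕ}, (∀ ys ∈ l, ys.length = c) →
      l.flatten.length = l.length * c := by
    intro l c h
    induction l with
    | nil => simp
    | cons a l ih =>
      rw [List.flatten_cons, List.length_append,
        ih (fun ys hy => h ys (List.mem_cons_of_mem _ hy)), h a (by simp), List.length_cons]
      ring
  rw [this (fun ys hy => rg_len hy), rg_length]

include h hπ in
theorem ot_length (L0 j : ℕ) : (q.ot (L0, π, j)).length ≤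
    C1 * (1 + (j + 1) * c π + Nat.log 2 (sz (q.pj (L0, π, j)))) + 1 := by
  obtain ⟨-, -, h3⟩ := h.h0 _ _ (pj_spec h hπ L0 j)
  have h1 : (q.ot (L0, π, j)).length ≤ numVars (q.sg (L0, π, j)) := by
    rw [numVars_eq]
    exact List.length_filter_le _ _
  have h2 : numVars [Aj q (L0, π, j) A] ≤ 1 + (j + 1) * c π := by
    refine (numVars_le_length (l := d0 (L0, π, j) :: (rg (L0, π, j)).flatten) ?_).trans ?_
    · intro C hC x hx
      rw [List.mem_singleton.1 hC] at hx
      exact Aj_vars h hπ hx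
    · rw [List.length_cons, rg_flat_length]
      change (j + 1) * c π + 1 ≤ 1 + (j + 1) * c π
      omega
  refine h1.trans (h3.trans ?_)
  have : C1 * (numVars [Aj q (L0, π, j) A] + Nat.log 2 (sz (q.pj (L0, π, j)))) ≤
      C1 * (1 + (j + 1) * c π + Nat.log 2 (sz (q.pj (L0, π, j)))) :=
    Nat.mul_le_mul_left _ (by omega)
  omega

theorem mem_ot {x : ℕ × List Fm × ℕ} {y : Nm} : y ∈ q.ot x ↔
    (∃ C ∈ q.sg x, y ∈ C.vars) ∧ y ∉ (rg x).flatten := by
  unfold ot
  rw [List.mem_filter, mem_dd, List.mem_flatMap]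
  simp only [mem_nms, Bool.not_eq_true', decide_eq_false_iff_not]

include h in
theorem bl_spec {e L0 j : ℕ} (he : c π ≤ e)
    (ho : (q.ot (L0, π, j)).length ≤ (j + 1) * (e - c π)) :
    (q.bl (e, L0, π, j)).length = j + 1 ∧ (∀ b ∈ q.bl (e, L0, π, j), b.length = e) ∧
    (q.bl (e, L0, π, j)).flatten.Nodup ∧
    (∀ C ∈ q.sg (L0, π, j), ∀ x ∈ C.vars, x ∈ (q.bl (e, L0, π, j)).flatten) ∧
    (∀ (J : ℕ) (h1 : J < (rg (L0, π, j)).length) (h2 : J < (q.bl (e, L0, π, j)).length),
        (rg (L0, π, j))[J] <+: (q.bl (e, L0, π, j))[J]) := by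
  obtain ⟨h1, h2, h3, h4, h5⟩ := h.Tb (bdN ((rg (L0, π, j)).flatten ++ q.ot (L0, π, j))) (c π) e
    (rg (L0, π, j)) (q.ot (L0, π, j)) (fun ys hy => rg_len hy) he
    (by rw [rg_length]; exact ho)
    (by
      rw [List.nodup_append]
      refine ⟨rg_nodup _, (nodup_dd _).filter _, ?_⟩
      rintro x hx y hy rfl
      exact (mem_ot.1 hy).2 hx)
    (fun x hx => le_bdN hx)
  rw [rg_length] at h1
  refine ⟨h1, h2, h3, ?_, h5⟩
  intro C hC x hx
  refine h4 x ?_
  rw [List.mem_append]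
  by_cases hx' : x ∈ (rg (L0, π, j)).flatten
  · exact Or.inl hx'
  · exact Or.inr (mem_ot.2 ⟨⟨C, hC, hx⟩, hx'⟩)

include h hπ in
theorem half_spec (hA : A.Eval (fun _ => False)) {L0 L e : ℕ} {d : Nm} {W : List (List Bool)}
    (hWn : W.Nodup) (hW : ∀ w, w ∈ W ↔ w.length = e) (he : c π ≤ e)
    (ho : ∀ j < (xs π).length, (q.ot (L0, π, j)).length ≤ (j + 1) * (e - c π))
    (hL : ∀ x ∈ A.vars, x.length ≤ L) (hdL : d.length ≤ L) (hd : d ∉ A.vars) (τ : List Fm) :
    Just (FP (GG (GG F))) τ (q.half ((L, d, W, e), L0, π)) ∧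
    imp (cj d ((List.range (xs π).length).flatMap (fun J => zoff L J W))) A ∈
      q.half ((L, d, W, e), L0, π) := by
  have hm := mono_perm (GG (GG F))
  have hac := ac_length h (π := π)
  obtain ⟨t1, t2, t3⟩ := h.Tc (xs π)
  have hacv : ∀ x, x ∈ A.vars ↔ x ∈ (q.ac π).map Prod.fst := by
    intro x; rw [ac_fst h, mem_xs hπ]
  have hacL : ∀ p ∈ q.ac π, p.1.length ≤ L := fun p hp =>
    hL _ ((hacv _).2 (List.mem_map_of_mem hp))
  have hacn : ((q.ac π).map Prod.fst).Nodup := by rw [ac_fst h]; exact xs_nodup π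
  have hacd : d ∉ (q.ac π).map Prod.fst := fun hd' => hd ((hacv _).2 hd')
  -- the token part
  have key : ∀ j < (xs π).length, ∀ τ : List Fm,
      Just (FP (GG (GG F))) τ (q.tk ((L, d, W, e), L0, π, j)) ∧
      imp (GH d L W (j + 1)) (q.sj ((L, d, W, e), L0, π, j)) ∈
        q.tk ((L, d, W, e), L0, π, j) := by
    intro j hj τ
    obtain ⟨s1, s2, -⟩ := h.h0 _ _ (pj_spec h hπ L0 j)
    obtain ⟨b1, b2, b3, b4, -⟩ := bl_spec h he (ho j hj)
    obtain ⟨k1, k2⟩ := h.Tk L d W e (q.bl (e, L0, π, j)) (q.sg (L0, π, j)) hWn hW b2 b3 hdL s1 b4 τ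
    refine ⟨k1, ?_⟩
    have := k2 _ (List.mem_of_getLast? s2)
    rw [b1] at this
    unfold sj
    rw [last hπ]
    exact this
  have h1 : ∀ τ : List Fm, Just (FP (GG (GG F))) τ
      ((List.range (xs π).length).flatMap (fun j => q.tk ((L, d, W, e), L0, π, j))) := by
    intro τ
    refine Just.flatMap hm _ _ _ ?_
    intro j hj
    exact (key j (List.mem_range.1 hj) τ).1
  obtain ⟨d1, d2⟩ := h.Td L d W e (c π) (q.ac π)
    ((List.range (xs π).length).map (fun j => q.sj ((L, d, W, e), L0, π, j))) A hWn hW he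
    (fun p hp => t3 p hp) t2 hacn hacL hdL hacd hacv hA (by simp [hac])
    (by
      intro j hj
      have hj' : j < (xs π).length := by simpa using hj
      obtain ⟨b1, b2, b3, b4, b5⟩ := bl_spec h he (ho j hj')
      have := sm_token L d (d0 (L0, π, j)) W e (c π) j (q.ac π) (rg (L0, π, j))
        (q.bl (e, L0, π, j)) A hW he (fun p hp => t3 p hp) hacn hacL hdL hacd
        (fun x hx => (hacv x).1 hx) (by rw [hac]; exact hj') (rg_length _) b1 b2 b3
        (fun ys hy => rg_len hy) b5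
      rw [← this]
      rw [List.getElem_map, List.getElem_range]
      unfold sj
      rw [last hπ])
    (τ ++ (List.range (xs π).length).flatMap (fun j => q.tk ((L, d, W, e), L0, π, j)))
    (by
      intro j hj
      have hj' : j < (xs π).length := by simpa using hj
      rw [List.getElem_map, List.getElem_range]
      exact List.mem_append_right _ (List.mem_flatMap.2 ⟨j, List.mem_range.2 hj',
        (key j hj' τ).2⟩))
  rw [hac] at d2
  unfold half
  rw [last hπ]
  exact ⟨Just.append (h1 τ) d1, List.mem_append_right _ d2⟩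

end spec

end FnB

end Pool.Agent.H.MP_0447ec_lc.PS
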