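import Pool.Agent.H.MP_0447ec_lc.PS.Defs

/-!
# Substitution Frege with linearly many variables
-/

namespace Pool.Agent.H.MP_0447ec_lc.PS

open Fm

/-- The substitution rule: from a line `C` derive the result of a simultaneous substitution of
formulas for variables in `C`. -/
def SubstStep (π : List Fm) (B : Fm) : Prop :=
  ∃ C ∈ π, ∃ s : List Bool → Fm, B = C.subst s

/-- `π` is a proof of `A` in `F` with the substitution rule (substitution Frege). -/
def SubstProof (F : List Rule) (A : Fm) (π : List Fm) : Prop :=
  Deriv (fun σ B => RuleStep F σ B ∨ SubstStep σ B) π ∧ π.getLast? = some A

/-- The number of different variables that occur in a sequence of formulas. -/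
noncomputable def numVars (π : List Fm) : ℕ := {x : List Bool | ∃ C ∈ π, x ∈ C.vars}.ncard

/-- Substitution Frege with linearly many variables p-simulates the proof system `Q`: for some
constant `c` some function computable in polynomial time maps every `Q`-proof `π` of a formula `A`
to a substitution Frege proof of `A` in which at most `c * (n + log₂ |π|)` different variables
occur, where `n` is the number of variables of `A` and `|π|` is the length of the binary code
of `π`. -/
def LinearSimulates (F : List Rule) (Q : Fm → List Fm → Prop) : Prop :=
  ∃ (c : ℕ) (f : List Fm → List Fm),
    Nonempty (Turing.TM2ComputableInPolyTime codeProof codeProof f) ∧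
    ∀ (A : Fm) (π : List Fm), Q A π →
      SubstProof F A (f π) ∧ numVars (f π) ≤ c * (numVars [A] + Nat.log 2 (codeProof π).length)

/-- The simultaneous substitution given by a table: the variable `var w` is replaced by the
formula that the (first) entry with the name `w` gives. -/
def Fm.substTable (t : List (List Bool × Fm)) (A : Fm) : Fm :=
  A.subst (fun w => (t.lookup w).getD (var w))

/-- Binary code of a table. -/
def codeTable (t : List (List Bool × Fm)) : List Bool :=
  t.flatMap (fun p => true :: (true :: (codeWord p.1 ++ codeFm p.2))) ++ [false]

/-- Binary code of a table together with a sequence of formulas. -/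
def codeTableProof (x : List (List Bool × Fm) × List Fm) : List Bool :=
  true :: (codeTable x.1 ++ codeProof x.2)

/-- The `Q`-proofs of a formula are sequences of formulas that end in this formula, and `Q` is
p-closed under substitutions: some function computable in polynomial time maps every table `t`
and every `Q`-proof of a formula `A` to a `Q`-proof of the result of the substitution given
by `t` in `A`. -/
def ClosedUnderSubstitution (Q : Fm → List Fm → Prop) : Prop :=
  (∀ (A : Fm) (π : List Fm), Q A π → π.getLast? = some A) ∧
  ∃ g : List (List Bool × Fm) × List Fm → List Fm,
    Nonempty (Turing.TM2ComputableInPolyTime codeTableProof codeProof g) ∧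
    ∀ (A : Fm) (π : List Fm) (t : List (List Bool × Fm)), Q A π →
      Q (A.substTable t) (g (t, π))

end Pool.Agent.H.MP_0447ec_lc.PS
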