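import Pool.Agent.H.MP_0447ec_lc.LV.Engine
import Pool.Agent.H.MP_0447ec_lc.LV.Defs

/-!
# Constant substitutions, block variables and registers
-/

namespace Pool.Agent.H.MP_0447ec_lc.PS

open Fm

/-! ### Constant substitutions -/

/-- The substitution of a constant for one variable. -/
def cs (x : Nm) (c : Bool) : Nm → Fm := fun w => if w = x then ct x c else var w

/-- The rule that substitutes a constant for one variable. -/
def ConstStep (π : List Fm) (B : Fm) : Prop := ∃ C ∈ π, ∃ (x : Nm) (c : Bool), B = C.subst (cs x c)

theorem mono_constStep : Mono ConstStep := by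
  rintro π π' B h ⟨C, hC, x, c, hB⟩
  exact ⟨C, h C hC, x, c, hB⟩

theorem mono_substStep : Mono SubstStep := by
  rintro π π' B h ⟨C, hC, s, hB⟩
  exact ⟨C, h C hC, s, hB⟩

theorem ConstStep.subst {π : List Fm} {B : Fm} (h : ConstStep π B) : SubstStep π B := by
  obtain ⟨C, hC, x, c, hB⟩ := h
  exact ⟨C, hC, cs x c, hB⟩

/-- A rule of `G` or a constant substitution. -/
def GC (G : List Rule) (σ : List Fm) (B : Fm) : Prop := RuleStep G σ B ∨ ConstStep σ B

/-- A rule of `G` or the substitution rule. -/
def GS (G : List Rule) (σ : List Fm) (B : Fm) : Prop := RuleStep G σ B ∨ SubstStep σ B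

theorem mono_GC (G : List Rule) : Mono (GC G) := by
  rintro π π' B h (h1 | h1)
  · exact Or.inl (mono_ruleStep G π π' B h h1)
  · exact Or.inr (mono_constStep π π' B h h1)

theorem mono_GS (G : List Rule) : Mono (GS G) := by
  rintro π π' B h (h1 | h1)
  · exact Or.inl (mono_ruleStep G π π' B h h1)
  · exact Or.inr (mono_substStep π π' B h h1)

theorem Just.imp_step {step step' : List Fm → Fm → Prop} {σ : List Fm} :
    ∀ {π : List Fm}, Just step π σ → (∀ σ B, step σ B → step' σ B) → Just step' π σ := by
  induction σ with
  | nil => intro _ _ _; trivial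
  | cons C σ ih =>
    rintro π ⟨h1 | h1, h2⟩ h
    · exact ⟨Or.inl h1, ih h2 h⟩
    · exact ⟨Or.inr (h _ _ h1), ih h2 h⟩

/-! ### Names -/

/-- New names, indexed by numbers and words; they are longer than `L`. -/
def fn (L k : ℕ) (w : Nm) : Nm := List.replicate (L + k + 1) true ++ false :: w

theorem fn_length (L k : ℕ) (w : Nm) : L < (fn L k w).length := by
  simp [fn]; omega

theorem fn_inj {L k k' : ℕ} {w w' : Nm} (h : fn L k w = fn L k' w') : k = k' ∧ w = w' := by
  unfold fn at h
  have key : ∀ (a b : ℕ), List.replicate a true ++ false :: w =
      List.replicate b true ++ false :: w' → a = b ∧ w = w' := by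
    intro a
    induction a with
    | zero =>
      intro b h
      cases b with
      | zero => simpa using h
      | succ b => simp [List.replicate_succ] at h
    | succ a ih =>
      intro b h
      cases b with
      | zero => simp [List.replicate_succ] at h
      | succ b =>
        simp only [List.replicate_succ, List.cons_append, List.cons.injEq, true_and] at h
        obtain ⟨h1, h2⟩ := ih b h
        exact ⟨by rw [h1], h2⟩
  obtain ⟨h1, h2⟩ := key _ _ h
  exact ⟨by omega, h2⟩

/-! ### Substitutions given by tables -/

/-- The substitution given by a table. -/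
def tsub (t : List (Nm × Fm)) (x : Nm) : Fm :=
  ((t.find? (fun p => decide (p.1 = x))).map Prod.snd).getD (Fm.var x)

theorem tsub_nil (x : Nm) : tsub [] x = var x := rfl

theorem tsub_cons (p : Nm × Fm) (t : List (Nm × Fm)) (x : Nm) :
    tsub (p :: t) x = if p.1 = x then p.2 else tsub t x := by
  unfold tsub
  rw [List.find?_cons]
  by_cases h : p.1 = x <;> simp [h]

theorem tsub_of_not_mem {t : List (Nm × Fm)} {x : Nm} (h : x ∉ t.map Prod.fst) :
    tsub t x = var x := by
  induction t with
  | nil => rfl
  | cons p t ih =>
    rw [List.map_cons, List.mem_cons, not_or] at h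
    rw [tsub_cons, if_neg (fun e => h.1 e.symm), ih h.2]

theorem tsub_of_mem {t : List (Nm × Fm)} {x : Nm} {A : Fm} (h : (x, A) ∈ t)
    (hn : (t.map Prod.fst).Nodup) : tsub t x = A := by
  induction t with
  | nil => simp at h
  | cons p t ih =>
    rw [List.map_cons, List.nodup_cons] at hn
    rw [tsub_cons]
    rcases List.mem_cons.1 h with rfl | h
    · simp
    · rw [if_neg]
      · exact ih h hn.2
      · intro e
        exact hn.1 (e ▸ List.mem_map_of_mem (f := Prod.fst) h)

/-! ### Registers -/

/-- The formula that says that the register with the bits `ys` has the value `w`. -/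
def eqr (d : Nm) (ys : List Nm) (w : List Bool) : Fm :=
  cj d ((ys.zip w).map (fun p => lit p.1 p.2))

/-- The formula that says that some register has the value `w`. -/
def anyr (d : Nm) (regs : List (List Nm)) (w : List Bool) : Fm :=
  dj d (regs.map (fun ys => eqr d ys w))

/-- The table that replaces every coded variable by the formula that says that some register
contains its code. -/
def regT (d : Nm) (regs : List (List Nm)) (cd : List (Nm × List Bool)) : List (Nm × Fm) :=
  cd.map (fun p => (p.1, anyr d regs p.2))

/-! ### Blocks -/

/-- Block `J` is all false. -/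
def zoff (L J : ℕ) (W : List (List Bool)) : List Fm := W.map (fun v => neg (var (fn L J v)))

/-- In block `J` exactly the variable with number `v` is true. -/
def zat (L J : ℕ) (W : List (List Bool)) (v : List Bool) : List Fm :=
  W.map (fun v' => lit (fn L J v') (decide (v' = v)))

/-- Exactly one variable of block `J` is true. -/
def zone (d : Nm) (L J : ℕ) (W : List (List Bool)) : Fm :=
  dj d (W.map (fun v => cj d (zat L J W v)))

/-- The bit with number `i` of the value stored in block `J`. -/
def zbit (d : Nm) (L J : ℕ) (W : List (List Bool)) (i : ℕ) : Fm :=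
  dj d ((W.filter (fun v => v.getD i false)).map (fun v => var (fn L J v)))

/-- The first bits of the value stored in block `J` are `w`. -/
def zeq (d : Nm) (L J : ℕ) (W : List (List Bool)) (w : List Bool) : Fm :=
  cj d (w.zipIdx.map (fun p => if p.1 then zbit d L J W p.2 else neg (zbit d L J W p.2)))

/-- Each of the blocks `0, ..., n - 1` contains exactly one true variable. -/
def GH (d : Nm) (L : ℕ) (W : List (List Bool)) (n : ℕ) : Fm :=
  cj d ((List.range n).map (fun J => zone d L J W))

/-- The table that replaces the name with number `i` in the list with number `J` by the bit with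
number `i` of block `J`. -/
def tblD (d : Nm) (L : ℕ) (W : List (List Bool)) (bl : List (List Nm)) : List (Nm × Fm) :=
  bl.zipIdx.flatMap (fun b => b.1.zipIdx.map (fun x => (x.1, zbit d L b.2 W x.2)))

/-- The version of `A` in which the assignment is given by registers: the variable `p.1` is true
if some register contains the code `p.2`. -/
def AW (d : Nm) (regs : List (List Nm)) (ac : List (Nm × List Bool)) (A : Fm) : Fm :=
  A.subst (tsub (regT d regs ac))

/-- The version of `A` in which the variable `p.1` may also be made true by one of the
blocks `0, ..., n - 1` that contains its code. -/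
def AZ (d : Nm) (L : ℕ) (W : List (List Bool)) (ac : List (Nm × List Bool)) (n : ℕ) (A : Fm) :
    Fm :=
  A.subst (tsub (ac.map (fun p =>
    (p.1, Fm.or (var p.1) (dj d ((List.range n).map (fun J => zeq d L J W p.2)))))))

end Pool.Agent.H.MP_0447ec_lc.PS
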