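import Pool.Agent.H.MP_0447ec_lc.LV.BwA0
import Pool.Agent.H.MP_0447ec_lc.LV.SFCF
import Pool.Agent.H.MP_0447ec_lc.LV.Robust
import Pool.Agent.H.MP_0447ec_lc.LV.Vars
import Pool.Agent.H.MP_0447ec_lc.LV.Count

/-!
# From extended Frege proofs of small bandwidth to substitution Frege proofs with few variables
-/

namespace Pool.Agent.H.MP_0447ec_lc.PS

open Fm Pool.Agent.H.MP_0447ec_lc.PT

/-! ### Testing whether a line follows by a rule -/

/-- The rules with the lists of their variables. -/
def bwFV (F : List Rule) : List (Rule × List Nm) :=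
  F.map (fun r => (r, r.prem.flatMap nms ++ nms r.concl))

/-- `[B]` for every way to obtain `B` from lines in `pre` by a rule. -/
def rchL (FV : List (Rule × List Nm)) (cands pre : List Fm) (B : Fm) : List Fm :=
  FV.flatMap (fun t => (assigns t.2.length cands).flatMap (fun vals =>
    if ((t.1.prem.all (fun P => decide (P.subst (lsub t.2 vals) ∈ pre))) &&
      decide (t.1.concl.subst (lsub t.2 vals) = B)) = true then [B] else []))

theorem rchL_sound {F : List Rule} {cands pre : List Fm} {B : Fm}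
    (h : rchL (bwFV F) cands pre B ≠ []) : RuleStep F pre B := by
  obtain ⟨X, hX⟩ := List.exists_mem_of_ne_nil _ h
  unfold rchL at hX
  obtain ⟨t, ht, hX⟩ := List.mem_flatMap.1 hX
  obtain ⟨vals, -, hX⟩ := List.mem_flatMap.1 hX
  split_ifs at hX with h1
  · rw [Bool.and_eq_true, List.all_eq_true, decide_eq_true_iff] at h1
    obtain ⟨r, hr, rfl⟩ := List.mem_map.1 ht
    refine ⟨r, hr, _, ?_, h1.2⟩
    intro P hP
    have := h1.1 P hP
    rwa [decide_eq_true_iff] at this
  · simp at hX

theorem rchL_complete {F : List Rule} {cands pre σ : List Fm} {B : Fm}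
    (h : RuleStep F σ B) (hσ : ∀ C ∈ σ, C ∈ pre) (hc : ∀ C ∈ σ, ∀ X ∈ subs C, X ∈ cands)
    (hB : ∀ X ∈ subs B, X ∈ cands) : rchL (bwFV F) cands pre B ≠ [] := by
  obtain ⟨r, hr, s, h1, h2⟩ := h
  have hP : ∀ P ∈ r.prem, P.subst (lsub (r.prem.flatMap nms ++ nms r.concl)
      ((r.prem.flatMap nms ++ nms r.concl).map s)) = P.subst s := by
    intro P hP
    refine Fm.subst_congr (fun x hx => lsub_map s _ _ ?_)
    exact List.mem_append_left _ (List.mem_flatMap.2 ⟨P, hP, mem_nms.2 hx⟩)
  have hC : r.concl.subst (lsub (r.prem.flatMap nms ++ nms r.concl)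
      ((r.prem.flatMap nms ++ nms r.concl).map s)) = r.concl.subst s :=
    Fm.subst_congr (fun x hx => lsub_map s _ _ (List.mem_append_right _ (mem_nms.2 hx)))
  apply List.ne_nil_of_mem (a := B)
  unfold rchL
  refine List.mem_flatMap.2 ⟨_, List.mem_map_of_mem hr, ?_⟩
  refine List.mem_flatMap.2 ⟨(r.prem.flatMap nms ++ nms r.concl).map s, ?_, ?_⟩
  · have := mem_assigns (c := cands) (vs := (r.prem.flatMap nms ++ nms r.concl).map s) (by
      intro v hv
      obtain ⟨x, hx, rfl⟩ := List.mem_map.1 hv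
      rcases List.mem_append.1 hx with hx | hx
      · obtain ⟨P, hP, hxP⟩ := List.mem_flatMap.1 hx
        exact hc _ (h1 P hP) _ (mem_subs_subst (mem_nms.1 hxP))
      · refine hB _ ?_
        rw [← h2]
        exact mem_subs_subst (mem_nms.1 hx))
    rwa [List.length_map] at this
  · rw [if_pos, List.mem_singleton]
    rw [Bool.and_eq_true, List.all_eq_true, decide_eq_true_iff]
    refine ⟨?_, by rw [hC, h2]⟩
    intro P hP'
    rw [decide_eq_true_iff, hP P hP']
    exact hσ _ (h1 P hP')

/-! ### The context and the formulas -/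

/-- The formula, the list of the extension axioms, the bandwidth, a bound for lengths. -/
abbrev Cx := (Fm × List (Nm × Fm)) × ℕ × ℕ

/-- The remainder, in a form that is computable in polynomial time. -/
def bwM (k b : ℕ) : ℕ := k - (b + 1) * (cdiv k (b + 1) - 1)

theorem bwM_eq (k b : ℕ) : bwM k b = k % (b + 1) := by
  unfold bwM
  rw [cdiv_eq (by omega), Nat.add_sub_cancel]
  have := Nat.div_add_mod k (b + 1)
  omega

/-- The dummy variable. -/
def bwD (c : Cx) : Nm := fn c.2.2 0 []

/-- The variables for the window. -/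
def bwN (c : Cx) (k : ℕ) : Nm := fn c.2.2 (k + 1) []

/-- The renaming. -/
def bwR (c : Cx) (x : Nm) : Nm :=
  if x ∈ nms c.1.1 then x else if x ∈ c.1.2.map Prod.fst then bwN c (bwM (bwI c.1.2 x) c.2.1)
    else bwD c

/-- A renamed formula. -/
def bwC (c : Cx) (C : Fm) : Fm := C.subst (fun x => var (bwR c x))

/-- Does the formula belong to the window `i`? -/
def bwW (c : Cx) (i : ℕ) (C : Fm) : Bool :=
  (nms C).all (fun x => !(decide (x ∈ c.1.2.map Prod.fst)) ||
    (decide (bwI c.1.2 x < i) && decide (i ≤ bwI c.1.2 x + c.2.1)))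

theorem bwW_iff {c : Cx} {i : ℕ} {C : Fm} : bwW c i C = true ↔ InW c.1.2 c.2.1 i C := by
  unfold bwW InW
  rw [List.all_eq_true]
  simp only [Bool.or_eq_true, Bool.not_eq_true', decide_eq_false_iff_not, Bool.and_eq_true,
    decide_eq_true_iff, mem_nms]
  constructor
  · intro h x hx hx'
    rcases h x hx with h | h
    · exact absurd hx' h
    · exact h
  · intro h x hx
    by_cases hx' : x ∈ c.1.2.map Prod.fst
    · exact Or.inr (h x hx hx')
    · exact Or.inl hx'

/-- The conjunction of the renamed lines in a window. -/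
def bwJ (c : Cx) (pre : List Fm) (i : ℕ) : Fm :=
  cj (bwD c) ((pre.filter (bwW c i)).reverse.map (bwC c))

/-- The renamed extension axiom and the renamed lines in a window. -/
def bwH (c : Cx) (pre : List Fm) (p : (Nm × Fm) × ℕ) : Fm :=
  Fm.and (bwC c (eAx p.1)) (bwJ c pre p.2)

theorem bwJ_pos {c : Cx} {pre : List Fm} {i : ℕ} {C : Fm} (h : bwW c i C = true) :
    bwJ c (pre ++ [C]) i = Fm.and (bwC c C) (bwJ c pre i) := by
  unfold bwJ
  rw [List.filter_append, List.reverse_append, List.map_append, List.filter_cons_of_pos h]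
  rfl

theorem bwJ_neg {c : Cx} {pre : List Fm} {i : ℕ} {C : Fm} (h : ¬ bwW c i C = true) :
    bwJ c (pre ++ [C]) i = bwJ c pre i := by
  unfold bwJ
  rw [List.filter_append, List.filter_cons_of_neg h]
  simp

theorem mem_bwJ {c : Cx} {pre : List Fm} {i : ℕ} {C : Fm} (h : C ∈ pre) (hW : bwW c i C = true) :
    bwC c C ∈ ands (bwJ c pre i) := by
  unfold bwJ
  refine mem_ands_cj (A := bwC c C) ?_ (self_mem_ands _)
  exact List.mem_map_of_mem (List.mem_reverse.2 (List.mem_filter.2 ⟨h, hW⟩))

/-! ### The properties of the context -/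

/-- What is needed of the context. -/
structure CxOk (c : Cx) : Prop where
  nd : (c.1.2.map Prod.fst).Nodup
  na : ∀ e ∈ c.1.2, e.1 ∉ c.1.1.vars
  wd : Wd c.1.2 c.2.1
  le : ∀ x ∈ c.1.1.vars, x.length ≤ c.2.2
  lf : ∀ e ∈ c.1.2, e.1 ∉ e.2.vars

section

variable {c : Cx} (hc : CxOk c)

include hc

theorem CxOk.idx {k : ℕ} (hk : k < c.1.2.length) : bwI c.1.2 (c.1.2[k]).1 = k := by
  unfold bwI
  have := hc.nd.idxOf_getElem k (by simpa using hk)
  rwa [List.getElem_map] at this

theorem CxOk.ren {k : ℕ} (hk : k < c.1.2.length) :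
    bwR c (c.1.2[k]).1 = bwN c (k % (c.2.1 + 1)) := by
  unfold bwR
  rw [if_neg, if_pos, hc.idx hk, bwM_eq]
  · exact List.mem_map_of_mem (List.getElem_mem hk)
  · rw [mem_nms]
    exact hc.na _ (List.getElem_mem hk)

theorem CxOk.ne_d {x : Nm} (hx : x ∈ c.1.1.vars) (k : ℕ) : x ≠ bwN c k := by
  intro h
  have h1 := hc.le x hx
  have h2 := fn_length c.2.2 (k + 1) []
  rw [h] at h1
  unfold bwN at h1
  omega

/-- The variable that is replaced does not occur in the window. -/
theorem CxOk.nooc {i : ℕ} {C : Fm} (h : InW c.1.2 c.2.1 i C) :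
    bwN c (i % (c.2.1 + 1)) ∉ (bwC c C).vars := by
  intro hx
  obtain ⟨y, hy, hx⟩ := vars_subst hx
  simp only [Fm.vars, Set.mem_singleton_iff] at hx
  unfold bwR at hx
  split_ifs at hx with h1 h2
  · exact hc.ne_d (mem_nms.1 h1) _ hx.symm
  · rw [bwM_eq] at hx
    have h3 := (fn_inj hx).1
    have h4 := h y hy h2
    have h5 : i % (c.2.1 + 1) = bwI c.1.2 y % (c.2.1 + 1) := by omega
    have h6 : (c.2.1 + 1) ∣ i - bwI c.1.2 y :=
      (Nat.modEq_iff_dvd' (by omega)).1 h5.symm
    have h7 := Nat.le_of_dvd (by omega) h6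
    omega
  · have := (fn_inj hx).1
    omega

theorem CxOk.noocJ {i : ℕ} (pre : List Fm) : bwN c (i % (c.2.1 + 1)) ∉ (bwJ c pre i).vars := by
  intro hx
  unfold bwJ at hx
  rw [vars_cj] at hx
  rcases hx with hx | ⟨X, hX, hx⟩
  · have := (fn_inj hx).1
    omega
  · obtain ⟨C, hC, rfl⟩ := List.mem_map.1 hX
    rw [List.mem_reverse, List.mem_filter, bwW_iff] at hC
    exact hc.nooc hC.2 hx

theorem CxOk.noocφ {k : ℕ} (hk : k < c.1.2.length) :
    bwN c (k % (c.2.1 + 1)) ∉ (bwC c (c.1.2[k]).2).vars := by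
  apply hc.nooc
  intro x hx hx'
  have := hc.wd k hk x hx hx'
  omega

end

/-! ### The elimination step -/

/-- The substitution that eliminates an extension variable. -/
def bwS (c : Cx) (p : (Nm × Fm) × ℕ) : Nm → Fm := sfS (bwR c p.1.1) (bwC c p.1.2)

/-- The elimination step. -/
def bwG (c : Cx) (pre : List Fm) (C : Fm) (p : (Nm × Fm) × ℕ) : List Fm :=
  [imp (bwH c pre p) (bwC c C), (imp (bwH c pre p) (bwC c C)).subst (bwS c p)] ++
    li (bwJ c pre p.2) ((bwH c pre p).subst (bwS c p)) (bwC c C) (bwC c C)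

theorem sfS_of_not_mem {A : Fm} {x : Nm} {φ : Fm} (h : x ∉ A.vars) : A.subst (sfS x φ) = A := by
  apply Fm.subst_eq_self
  intro y hy
  unfold sfS
  rw [if_neg]
  rintro rfl
  exact h hy

theorem bwG_just {G : List Rule} (hG : Rich G) {c : Cx} (hc : CxOk c) {pre : List Fm} {C : Fm}
    {k : ℕ} (hk : k < c.1.2.length) {σ : List Fm}
    (h1 : imp (bwH c pre (c.1.2[k], k)) (bwJ c pre (k + 1)) ∈ σ)
    (h2 : imp (bwJ c pre (k + 1)) (bwC c C) ∈ σ) (h3 : InW c.1.2 c.2.1 k C) :
    Just (GS G) σ (bwG c pre C (c.1.2[k], k)) ∧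
      imp (bwJ c pre k) (bwC c C) ∈ bwG c pre C (c.1.2[k], k) := by
  have e1 : (bwC c C).subst (bwS c (c.1.2[k], k)) = bwC c C := by
    apply sfS_of_not_mem
    rw [hc.ren hk]
    exact hc.nooc h3
  have e2 : (bwJ c pre k).subst (bwS c (c.1.2[k], k)) = bwJ c pre k := by
    apply sfS_of_not_mem
    rw [hc.ren hk]
    exact hc.noocJ pre
  have e3 : (bwC c (c.1.2[k]).2).subst (bwS c (c.1.2[k], k)) = bwC c (c.1.2[k]).2 := by
    apply sfS_of_not_mem
    rw [hc.ren hk]
    exact hc.noocφ hk
  have e4 : (bwH c pre (c.1.2[k], k)).subst (bwS c (c.1.2[k], k)) =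
      Fm.and (Fm.iff (bwC c (c.1.2[k]).2) (bwC c (c.1.2[k]).2)) (bwJ c pre k) := by
    have e5 : bwH c pre (c.1.2[k], k) =
        Fm.and (Fm.iff (var (bwR c (c.1.2[k]).1)) (bwC c (c.1.2[k]).2)) (bwJ c pre k) := rfl
    rw [e5]
    have e6 : (Fm.and (Fm.iff (var (bwR c (c.1.2[k]).1)) (bwC c (c.1.2[k]).2))
        (bwJ c pre k)).subst (bwS c (c.1.2[k], k)) =
        Fm.and (Fm.iff (bwS c (c.1.2[k], k) (bwR c (c.1.2[k]).1))
          ((bwC c (c.1.2[k]).2).subst (bwS c (c.1.2[k], k))))
        ((bwJ c pre k).subst (bwS c (c.1.2[k], k))) := rfl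
    rw [e6, e2, e3]
    have e7 : bwS c (c.1.2[k], k) (bwR c (c.1.2[k]).1) = bwC c (c.1.2[k]).2 := by
      simp [bwS, sfS]
    rw [e7]
  have e5 : (imp (bwH c pre (c.1.2[k], k)) (bwC c C)).subst (bwS c (c.1.2[k], k)) =
      imp ((bwH c pre (c.1.2[k], k)).subst (bwS c (c.1.2[k], k))) (bwC c C) := by
    have e6 : (imp (bwH c pre (c.1.2[k], k)) (bwC c C)).subst (bwS c (c.1.2[k], k)) =
      imp ((bwH c pre (c.1.2[k], k)).subst (bwS c (c.1.2[k], k)))
        ((bwC c C).subst (bwS c (c.1.2[k], k))) := rfl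
    rw [e6, e1]
  unfold bwG
  simp only
  rw [e5, e4]
  obtain ⟨j, m⟩ := li_just (H := bwJ c pre k)
    (H' := Fm.and (Fm.iff (bwC c (c.1.2[k]).2) (bwC c (c.1.2[k]).2)) (bwJ c pre k))
    (A := bwC c C) (B := bwC c C) hG
    (π := σ ++ [imp (bwH c pre (c.1.2[k], k)) (bwC c C),
      imp (Fm.and (Fm.iff (bwC c (c.1.2[k]).2) (bwC c (c.1.2[k]).2)) (bwJ c pre k)) (bwC c C)])
    (by simp) (by
      rw [okH_and]
      refine ⟨?_, okH_of_mem (self_mem_ands _)⟩
      rw [Fm.iff, okH_and]
      exact ⟨okH_of_sm (by rw [sm_imp_self rfl]), okH_of_sm (by rw [sm_imp_self rfl])⟩) rfl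
  refine ⟨Just.append ⟨Or.inr (Or.inl (hG.trans h1 h2)), Or.inr (Or.inr ?_), trivial⟩
    (j.imp_step (fun _ _ h => Or.inl h)), List.mem_append_right _ m⟩
  refine ⟨imp (bwH c pre (c.1.2[k], k)) (bwC c C), by simp, bwS c (c.1.2[k], k), ?_⟩
  rw [e5, e4]

/-! ### The lines `J i → C`, from the top window down -/

/-- The lines for all windows below `m`. -/
def bwDn (c : Cx) (pre : List Fm) (C : Fm) (m : ℕ) : List Fm :=
  (c.1.2.take m).zipIdx.reverse.flatMap (fun p => if bwW c p.2 C then bwG c pre C p else [])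

/-- The invariant: the lines that connect the windows. -/
def bwInv (c : Cx) (pre σ : List Fm) : Prop :=
  imp (ct (bwD c) true) (bwJ c pre 0) ∈ σ ∧
    ∀ (k : ℕ) (hk : k < c.1.2.length), imp (bwH c pre (c.1.2[k], k)) (bwJ c pre (k + 1)) ∈ σ

theorem inW_mid {E : List (Nm × Fm)} {b i j k : ℕ} {C : Fm} (h1 : InW E b i C) (h2 : InW E b k C)
    (hij : i ≤ j) (hjk : j ≤ k) : InW E b j C := by
  intro x hx hx'
  have a1 := h1 x hx hx'
  have a2 := h2 x hx hx'
  omega

theorem bwDn_just {G : List Rule} (hG : Rich G) {c : Cx} (hc : CxOk c) {pre : List Fm} {C : Fm} :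
    ∀ (m : ℕ), m ≤ c.1.2.length → ∀ σ : List Fm, bwInv c pre σ →
    (∀ i ≤ m, InW c.1.2 c.2.1 i C → InW c.1.2 c.2.1 m C ∧ imp (bwJ c pre m) (bwC c C) ∈ σ) →
    Just (GS G) σ (bwDn c pre C m) ∧
      ∀ i ≤ m, InW c.1.2 c.2.1 i C → imp (bwJ c pre i) (bwC c C) ∈ σ ++ bwDn c pre C m := by
  intro m
  induction m with
  | zero =>
    intro _ σ _ h
    refine ⟨by simp [bwDn]; trivial, ?_⟩
    intro i hi hW
    have : i = 0 := by omega
    subst this
    exact List.mem_append_left _ (h 0 le_rfl hW).2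
  | succ m ih =>
    intro hm σ hinv h
    have hk : m < c.1.2.length := by omega
    have e : bwDn c pre C (m + 1) =
        (if bwW c m C then bwG c pre C (c.1.2[m], m) else []) ++ bwDn c pre C m := by
      unfold bwDn
      rw [List.take_add_one, List.getElem?_eq_getElem hk, Option.toList_some, List.zipIdx_append,
        List.reverse_append, List.flatMap_append]
      simp [List.length_take, Nat.min_eq_left hk.le]
    rw [e]
    by_cases hW : bwW c m C = true
    · rw [if_pos hW]
      rw [bwW_iff] at hW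
      by_cases hW' : InW c.1.2 c.2.1 (m + 1) C
      · obtain ⟨-, h2⟩ := h (m + 1) le_rfl hW'
        obtain ⟨j1, m1⟩ := bwG_just hG hc hk (hinv.2 m hk) h2 hW
        obtain ⟨j2, m2⟩ := ih (by omega) (σ ++ bwG c pre C (c.1.2[m], m))
          ⟨List.mem_append_left _ hinv.1, fun k hk => List.mem_append_left _ (hinv.2 k hk)⟩
          (fun i _ _ => ⟨hW, List.mem_append_right _ m1⟩)
        refine ⟨Just.append j1 j2, ?_⟩
        intro i hi hWi
        rw [← List.append_assoc]
        rcases Nat.lt_or_ge m i with hi' | hi'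
        · have : i = m + 1 := by omega
          subst this
          exact List.mem_append_left _ (List.mem_append_left _ h2)
        · exact m2 i hi' hWi
      · exact absurd (h m (by omega) hW).1 hW'
    · rw [if_neg hW]
      rw [bwW_iff] at hW
      have hnone : ∀ i ≤ m, ¬ InW c.1.2 c.2.1 i C := by
        intro i hi hWi
        exact hW (inW_mid hWi (h i (by omega) hWi).1 hi (by omega))
      obtain ⟨j2, m2⟩ := ih (by omega) σ hinv (fun i hi hWi => absurd hWi (hnone i hi))
      refine ⟨j2, ?_⟩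
      intro i hi hWi
      rcases Nat.lt_or_ge m i with hi' | hi'
      · have : i = m + 1 := by omega
        subst this
        exact List.mem_append_left _ (h (m + 1) le_rfl hWi).2
      · exact absurd hWi (hnone i hi')

/-- The largest window in which the line follows by a rule, if any. -/
def bwT (c : Cx) (FV : List (Rule × List Nm)) (cands pre : List Fm) (C : Fm) : List ℕ :=
  ((List.range (c.1.2.length + 1)).filter (fun i => bwW c i C &&
    !(decide (rchL FV cands (pre.filter (bwW c i)) C = [])))).reverse.take 1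

/-- The first part of the lines for one line of the proof. -/
def bwB1 (c : Cx) (FV : List (Rule × List Nm)) (cands pre : List Fm) (C : Fm) : List Fm :=
  (bwT c FV cands pre C).flatMap (fun m =>
    projL (bwJ c pre m) ++ ([imp (bwJ c pre m) (bwC c C)] ++ bwDn c pre C m))

theorem bwB1_just {F : List Rule} {c : Cx} (hc : CxOk c) {cands pre : List Fm} {C : Fm}
    {σ : List Fm} (hinv : bwInv c pre σ) :
    Just (GS (GG F)) σ (bwB1 c (bwFV F) cands pre C) := by
  apply Just.flatMap (mono_GS _)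
  intro m hm
  have hm1 : m ∈ (List.range (c.1.2.length + 1)).filter (fun i => bwW c i C &&
      !(decide (rchL (bwFV F) cands (pre.filter (bwW c i)) C = []))) :=
    List.mem_reverse.1 (List.mem_of_mem_take hm)
  rw [List.mem_filter, List.mem_range, Bool.and_eq_true, Bool.not_eq_true',
    decide_eq_false_iff_not] at hm1
  obtain ⟨hm1, hm2, hm3⟩ := hm1
  have hr := rchL_sound hm3
  refine Just.append ((projL_just (GG_rich F) _ _).imp_step (fun _ _ h => Or.inl h)) ?_
  refine Just.append ⟨Or.inr (Or.inl ?_), trivial⟩ ?_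
  · refine ruleStep_hyp hr _ _ ?_
    intro P hP
    rw [List.mem_filter] at hP
    exact List.mem_append_right _ (mem_projL (mem_bwJ hP.1 hP.2))
  · refine (bwDn_just (GG_rich F) hc m (by omega) _ ?_ ?_).1
    · exact ⟨List.mem_append_left _ (List.mem_append_left _ hinv.1),
        fun k hk => List.mem_append_left _ (List.mem_append_left _ (hinv.2 k hk))⟩
    · intro i _ _
      exact ⟨bwW_iff.1 hm2, List.mem_append_right _ (by simp)⟩

theorem bwB1_mem {F : List Rule} {c : Cx} (hc : CxOk c) {cands pre : List Fm} {C : Fm}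
    {σ τ : List Fm} (hinv : bwInv c pre σ) {m : ℕ} (hm : m ≤ c.1.2.length)
    (hW : InW c.1.2 c.2.1 m C) (hτ : ∀ D ∈ τ, D ∈ pre ∧ InW c.1.2 c.2.1 m D)
    (hr : RuleStep F τ C) (hcand : ∀ D ∈ pre, ∀ X ∈ subs D, X ∈ cands)
    (hcand' : ∀ X ∈ subs C, X ∈ cands) {i : ℕ} (hi : InW c.1.2 c.2.1 i C)
    (hmin : ∀ j < i, ¬ InW c.1.2 c.2.1 j C) :
    imp (bwJ c pre i) (bwC c C) ∈ σ ++ bwB1 c (bwFV F) cands pre C := by
  set S := (List.range (c.1.2.length + 1)).filter (fun i => bwW c i C &&
      !(decide (rchL (bwFV F) cands (pre.filter (bwW c i)) C = []))) with hS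
  have hmS : m ∈ S := by
    rw [hS, List.mem_filter, List.mem_range, Bool.and_eq_true, Bool.not_eq_true',
      decide_eq_false_iff_not]
    refine ⟨by omega, bwW_iff.2 hW, ?_⟩
    refine rchL_complete hr ?_ ?_ hcand'
    · intro D hD
      rw [List.mem_filter, bwW_iff]
      exact hτ D hD
    · intro D hD
      exact hcand D (hτ D hD).1
  obtain ⟨m', S', hS'⟩ : ∃ m' S', S.reverse = m' :: S' := by
    cases h : S.reverse with
    | nil =>
      rw [List.reverse_eq_nil_iff] at h
      rw [h] at hmS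
      simp at hmS
    | cons a l => exact ⟨a, l, rfl⟩
  have hT : bwT c (bwFV F) cands pre C = [m'] := by
    unfold bwT
    rw [← hS, hS']
    rfl
  have hm'S : m' ∈ S := by
    rw [← List.mem_reverse, hS']
    simp
  have hm' := hm'S
  rw [hS, List.mem_filter, List.mem_range, Bool.and_eq_true, Bool.not_eq_true',
    decide_eq_false_iff_not] at hm'
  obtain ⟨a1, a2, -⟩ := hm'
  have him : i ≤ m' := by
    by_contra hlt
    exact hmin m' (by omega) (bwW_iff.1 a2)
  have hB : bwB1 c (bwFV F) cands pre C = projL (bwJ c pre m') ++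
      ([imp (bwJ c pre m') (bwC c C)] ++ bwDn c pre C m') := by
    unfold bwB1
    rw [hT]
    simp
  have key := (bwDn_just (GG_rich F) hc (pre := pre) (C := C) m' (by omega)
    (σ ++ projL (bwJ c pre m') ++ [imp (bwJ c pre m') (bwC c C)])
    ⟨List.mem_append_left _ (List.mem_append_left _ hinv.1),
      fun k hk => List.mem_append_left _ (List.mem_append_left _ (hinv.2 k hk))⟩
    (fun j _ _ => ⟨bwW_iff.1 a2, List.mem_append_right _ (by simp)⟩)).2 i him hi
  rw [hB]
  simpa [List.append_assoc] using key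

/-! ### The update of the invariant -/

/-- The update of one of the lines that connect the windows. -/
def bwU (c : Cx) (pre : List Fm) (C : Fm) (p : (Nm × Fm) × ℕ) : List Fm :=
  li (bwH c (pre ++ [C]) p) (bwH c pre p) (bwJ c pre (p.2 + 1)) (bwJ c pre (p.2 + 1)) ++
    (projL (bwH c (pre ++ [C]) p) ++
      ((if bwW c (p.2 + 1) C then [imp (bwH c (pre ++ [C]) p) (bwC c C)] else []) ++
        [imp (bwH c (pre ++ [C]) p) (bwJ c (pre ++ [C]) (p.2 + 1))]))

/-- The update of the first line. -/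
def bwU0 (c : Cx) (pre : List Fm) (C : Fm) : List Fm :=
  if bwW c 0 C then [imp (ct (bwD c) true) (bwC c C),
    imp (ct (bwD c) true) (bwJ c (pre ++ [C]) 0)] else []

theorem bwU_just {G : List Rule} (hG : Rich G) {c : Cx} {pre : List Fm} {C : Fm} {k : ℕ}
    (hk : k < c.1.2.length) {σ : List Fm}
    (h1 : imp (bwH c pre (c.1.2[k], k)) (bwJ c pre (k + 1)) ∈ σ)
    (h2 : InW c.1.2 c.2.1 (k + 1) C → ¬ InW c.1.2 c.2.1 k C →
      C = eAx c.1.2[k] ∨ imp (bwJ c pre (k + 1)) (bwC c C) ∈ σ) :
    Just (RuleStep G) σ (bwU c pre C (c.1.2[k], k)) ∧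
      imp (bwH c (pre ++ [C]) (c.1.2[k], k)) (bwJ c (pre ++ [C]) (k + 1)) ∈
        bwU c pre C (c.1.2[k], k) := by
  refine ⟨?_, by simp [bwU]⟩
  have hJJ : bwJ c pre k ∈ ands (bwJ c (pre ++ [C]) k) := by
    by_cases hW : bwW c k C = true
    · rw [bwJ_pos hW]
      simp only [ands, List.mem_cons, List.mem_append]
      exact Or.inr (Or.inr (self_mem_ands _))
    · rw [bwJ_neg hW]
      exact self_mem_ands _
  have hok : okH (bwH c (pre ++ [C]) (c.1.2[k], k)) (bwH c pre (c.1.2[k], k)) := by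
    unfold bwH
    rw [okH_and]
    refine ⟨okH_of_mem ?_, okH_of_mem ?_⟩
    · simp only [ands, List.mem_cons, List.mem_append]
      exact Or.inr (Or.inl (self_mem_ands _))
    · simp only [ands, List.mem_cons, List.mem_append]
      exact Or.inr (Or.inr hJJ)
  obtain ⟨j1, m1⟩ := li_just hG h1 hok rfl
  unfold bwU
  simp only
  refine Just.append j1 (Just.append (projL_just hG _ _) ?_)
  by_cases hW : bwW c (k + 1) C = true
  · rw [if_pos hW, bwJ_pos hW]
    have hC : imp (bwH c (pre ++ [C]) (c.1.2[k], k)) (bwC c C) ∈ σ ++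
        li (bwH c (pre ++ [C]) (c.1.2[k], k)) (bwH c pre (c.1.2[k], k)) (bwJ c pre (k + 1))
          (bwJ c pre (k + 1)) ++ projL (bwH c (pre ++ [C]) (c.1.2[k], k)) ∨
        RuleStep G (σ ++ li (bwH c (pre ++ [C]) (c.1.2[k], k)) (bwH c pre (c.1.2[k], k))
          (bwJ c pre (k + 1)) (bwJ c pre (k + 1)) ++ projL (bwH c (pre ++ [C]) (c.1.2[k], k)))
          (imp (bwH c (pre ++ [C]) (c.1.2[k], k)) (bwC c C)) := by
      by_cases hWk : bwW c k C = true
      · left
        refine List.mem_append_right _ (mem_projL ?_)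
        unfold bwH
        simp only [ands, List.mem_cons, List.mem_append]
        exact Or.inr (Or.inr (mem_bwJ (by simp) hWk))
      · rcases h2 (bwW_iff.1 hW) (fun h => hWk (bwW_iff.2 h)) with h2 | h2
        · left
          refine List.mem_append_right _ (mem_projL ?_)
          unfold bwH
          simp only [ands, List.mem_cons, List.mem_append]
          rw [h2]
          exact Or.inr (Or.inl (self_mem_ands _))
        · right
          exact hG.trans (List.mem_append_left _ (List.mem_append_right _ m1))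
            (List.mem_append_left _ (List.mem_append_left _ h2))
    refine ⟨hC, Or.inr ?_, trivial⟩
    refine hG.andI (by simp) ?_
    exact List.mem_append_left _ (List.mem_append_left _ (List.mem_append_right _ m1))
  · rw [if_neg hW, bwJ_neg hW]
    refine ⟨Or.inl ?_, trivial⟩
    exact List.mem_append_left _ (List.mem_append_right _ m1)

theorem bwU0_just {G : List Rule} (hG : Rich G) {c : Cx} {pre : List Fm} {C : Fm} {σ : List Fm}
    (h1 : imp (ct (bwD c) true) (bwJ c pre 0) ∈ σ)
    (h2 : InW c.1.2 c.2.1 0 C → imp (bwJ c pre 0) (bwC c C) ∈ σ) :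
    Just (RuleStep G) σ (bwU0 c pre C) ∧
      imp (ct (bwD c) true) (bwJ c (pre ++ [C]) 0) ∈ σ ++ bwU0 c pre C := by
  unfold bwU0
  by_cases hW : bwW c 0 C = true
  · rw [if_pos hW]
    refine ⟨⟨Or.inr (hG.trans h1 (h2 (bwW_iff.1 hW))), Or.inr ?_, trivial⟩, by simp⟩
    rw [bwJ_pos hW]
    exact hG.andI (by simp) (List.mem_append_left _ h1)
  · rw [if_neg hW, bwJ_neg hW]
    exact ⟨trivial, List.mem_append_left _ h1⟩

/-- All lines for one line of the proof. -/
def bwBlk (c : Cx) (FV : List (Rule × List Nm)) (cands pre : List Fm) (C : Fm) : List Fm :=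
  bwB1 c FV cands pre C ++ (bwU0 c pre C ++ c.1.2.zipIdx.flatMap (fun p => bwU c pre C p))

theorem mem_zipIdx_get {β : Type} {l : List β} {p : β × ℕ} (h : p ∈ l.zipIdx) :
    ∃ hk : p.2 < l.length, p = (l[p.2], p.2) := by
  have h1 := List.mem_zipIdx h
  refine ⟨by omega, ?_⟩
  obtain ⟨-, -, h2⟩ := h1
  refine Prod.ext ?_ rfl
  simpa using h2

theorem get_mem_zipIdx {β : Type} {l : List β} {k : ℕ} (hk : k < l.length) :
    (l[k], k) ∈ l.zipIdx := by
  rw [List.mk_mem_zipIdx_iff_getElem?]
  exact List.getElem?_eq_getElem hk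

theorem bwBlk_just {F : List Rule} {c : Cx} (hc : CxOk c) {cands pre : List Fm} {C : Fm}
    {σ : List Fm} (hinv : bwInv c pre σ)
    (h : ∀ i, InW c.1.2 c.2.1 i C → (∀ j < i, ¬ InW c.1.2 c.2.1 j C) → i ≤ c.1.2.length →
      (∃ hk : i - 1 < c.1.2.length, 0 < i ∧ C = eAx (c.1.2[i - 1])) ∨
        imp (bwJ c pre i) (bwC c C) ∈ σ ++ bwB1 c (bwFV F) cands pre C) :
    Just (GS (GG F)) σ (bwBlk c (bwFV F) cands pre C) ∧
      bwInv c (pre ++ [C]) (σ ++ bwBlk c (bwFV F) cands pre C) := by
  have hG := GG_rich F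
  have j1 := bwB1_just (F := F) hc (cands := cands) (C := C) hinv
  obtain ⟨j2, m2⟩ := bwU0_just hG (C := C) (σ := σ ++ bwB1 c (bwFV F) cands pre C)
    (List.mem_append_left _ hinv.1) (by
      intro hW
      rcases h 0 hW (fun j hj => absurd hj (Nat.not_lt_zero _)) (Nat.zero_le _) with
        ⟨_, h0, _⟩ | h0
      · exact absurd h0 (lt_irrefl _)
      · exact h0)
  have hU : ∀ p ∈ c.1.2.zipIdx, Just (RuleStep (GG F))
      (σ ++ bwB1 c (bwFV F) cands pre C ++ bwU0 c pre C) (bwU c pre C p) ∧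
      imp (bwH c (pre ++ [C]) p) (bwJ c (pre ++ [C]) (p.2 + 1)) ∈ bwU c pre C p := by
    intro p hp
    obtain ⟨hk, e⟩ := mem_zipIdx_get hp
    rw [e]
    refine bwU_just hG hk (List.mem_append_left _ (List.mem_append_left _ (hinv.2 _ hk))) ?_
    intro hW1 hW2
    rcases h (p.2 + 1) hW1 (by
      intro j hj hWj
      exact hW2 (inW_mid hWj hW1 (by omega) (by omega))) (by omega) with ⟨hk', _, h3⟩ | h3
    · left
      simpa using h3
    · exact Or.inr (List.mem_append_left _ h3)
  refine ⟨?_, ?_, ?_⟩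
  · refine Just.append j1 (Just.append (j2.imp_step (fun _ _ h => Or.inl h)) ?_)
    apply Just.flatMap (mono_GS _)
    intro p hp
    exact (hU p hp).1.imp_step (fun _ _ h => Or.inl h)
  · unfold bwBlk
    rw [← List.append_assoc, ← List.append_assoc]
    exact List.mem_append_left _ m2
  · intro k hk
    unfold bwBlk
    refine List.mem_append_right _ (List.mem_append_right _ (List.mem_append_right _ ?_))
    exact List.mem_flatMap.2 ⟨_, get_mem_zipIdx hk, (hU _ (get_mem_zipIdx hk)).2⟩

/-! ### The whole sequence -/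

/-- The first lines. -/
def bwZ (c : Cx) : List Fm :=
  projL (ct (bwD c) true) ++ c.1.2.zipIdx.flatMap (fun p => projL (bwH c [] p))

theorem bwZ_just {G : List Rule} (hG : Rich G) (c : Cx) :
    Just (RuleStep G) [] (bwZ c) ∧ bwInv c [] (bwZ c) := by
  have hJ : ∀ i, bwJ c [] i = ct (bwD c) true := fun i => rfl
  refine ⟨?_, ?_, ?_⟩
  · refine Just.append (projL_just hG _ _) ?_
    exact Just.flatMap (mono_ruleStep G) _ _ _ (fun p _ => projL_just hG _ _)
  · rw [hJ]
    exact List.mem_append_left _ (mem_projL (self_mem_ands _))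
  · intro k hk
    refine List.mem_append_right _ (List.mem_flatMap.2 ⟨_, get_mem_zipIdx hk, mem_projL ?_⟩)
    unfold bwH
    rw [hJ, hJ]
    simp only [ands, List.mem_cons, List.mem_append]
    exact Or.inr (Or.inr (self_mem_ands _))

/-- The main part. -/
def bwP (c : Cx) (FV : List (Rule × List Nm)) (cands π : List Fm) : List Fm :=
  bwZ c ++ (splits π).flatMap (fun p => bwBlk c FV cands p.1 p.2)

theorem bwP_snoc (c : Cx) (FV : List (Rule × List Nm)) (cands π : List Fm) (C : Fm) :
    bwP c FV cands (π ++ [C]) = bwP c FV cands π ++ bwBlk c FV cands π C := by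
  unfold bwP
  rw [splits_snoc, List.flatMap_append, List.append_assoc]
  simp

theorem bwP_just {F : List Rule} {A : Fm} {b M : ℕ} {cands : List Fm} {pre : List Fm}
    {E : List (Nm × Fm)} (h : NarrowE F A b pre E) :
    ∀ R : List (Nm × Fm), CxOk ((A, E ++ R), b, M) → (∀ e ∈ R, ∀ C ∈ pre, e.1 ∉ C.vars) →
    (∀ D ∈ pre, ∀ X ∈ subs D, X ∈ cands) →
    Just (GS (GG F)) [] (bwP ((A, E ++ R), b, M) (bwFV F) cands pre) ∧
      bwInv ((A, E ++ R), b, M) pre (bwP ((A, E ++ R), b, M) (bwFV F) cands pre) := by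
  induction h with
  | nil =>
    intro R _ _ _
    obtain ⟨j, m⟩ := bwZ_just (GG_rich F) ((A, [] ++ R), b, M)
    have e : bwP ((A, [] ++ R), b, M) (bwFV F) cands [] = bwZ ((A, [] ++ R), b, M) := by
      simp [bwP, splits, sp]
    rw [e]
    exact ⟨j.imp_step (fun _ _ h => Or.inl h), m⟩
  | @rule π E B i σ h1 h2 h3 h4 ih =>
    intro R hc hR hcand
    obtain ⟨j, m⟩ := ih R hc (fun e he C hC => hR e he C (List.mem_append_left _ hC))
      (fun D hD => hcand D (List.mem_append_left _ hD))
    set c : Cx := ((A, E ++ R), b, M) with hcdef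
    have hWB : InW c.1.2 c.2.1 (min (i + b) E.length) B :=
      inW_of_window hc.nd (fun e he => hR e he B (by simp)) h3
    obtain ⟨j1, m1⟩ := bwBlk_just (F := F) hc (cands := cands) (C := B) m (by
      intro k hk hmin _
      right
      refine bwB1_mem hc m (m := min (i + b) E.length) ?_ hWB (τ := σ) ?_ h4
        (fun D hD => hcand D (List.mem_append_left _ hD)) (hcand B (by simp)) hk hmin
      · have : c.1.2.length = E.length + R.length := by
          rw [hcdef]; simp
        omega
      · intro D hD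
        exact ⟨(h2 D hD).1, inW_of_window hc.nd
          (fun e he => hR e he D (List.mem_append_left _ (h2 D hD).1)) (h2 D hD).2⟩)
    rw [bwP_snoc]
    exact ⟨Just.append j (by simpa using j1), m1⟩
  | @ext π E e i h1 h2 h3 h4 h5 ih =>
    intro R hc hR hcand
    rw [List.append_assoc] at hc ⊢
    rw [List.singleton_append] at hc ⊢
    obtain ⟨j, m⟩ := ih (e :: R) hc (by
      intro e' he' C hC
      rcases List.mem_cons.1 he' with rfl | he'
      · exact h3 C hC
      · exact hR e' he' C (List.mem_append_left _ hC))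
      (fun D hD => hcand D (List.mem_append_left _ hD))
    set c : Cx := ((A, E ++ e :: R), b, M) with hcdef
    have hlen : E.length < c.1.2.length := by rw [hcdef]; simp
    have hget : c.1.2[E.length]'hlen = e := by
      have : (E ++ e :: R)[E.length]'(by simp) = e := by
        rw [List.getElem_append_right (le_refl _)]
        simp
      exact this
    have hie : bwI c.1.2 e.1 = E.length := by
      have := hc.idx hlen
      rwa [hget] at this
    have hWB : InW c.1.2 c.2.1 (E.length + 1) (eAx e) := by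
      have hN : ((E ++ [e] ++ R).map Prod.fst).Nodup := by
        have := hc.nd
        rw [hcdef] at this
        simpa using this
      have a1 := inW_of_window (E := E ++ [e]) (R := R) (b := b) (i := i) hN
        (fun e' he' => hR e' he' _ (by simp)) h5
      have e9 : E ++ [e] ++ R = c.1.2 := by rw [hcdef]; simp
      rw [e9] at a1
      have a2 := a1 e.1 (vars_eAx.2 (Or.inl rfl)) (by rw [hcdef]; simp)
      rw [hie] at a2
      intro x hx hx'
      have a3 := a1 x hx hx'
      rw [List.length_append, List.length_singleton] at a2 a3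
      have : c.2.1 = b := rfl
      omega
    obtain ⟨j1, m1⟩ := bwBlk_just (F := F) hc (cands := cands) (C := eAx e) m (by
      intro k hk hmin _
      left
      have a1 := hk e.1 (vars_eAx.2 (Or.inl rfl)) (by rw [hcdef]; simp)
      rw [hie] at a1
      have a2 : k ≤ E.length + 1 := by
        by_contra hlt
        exact hmin (E.length + 1) (by omega) hWB
      have a3 : k - 1 = E.length := by omega
      refine ⟨by omega, by omega, ?_⟩
      simp only [a3, hget])
    rw [bwP_snoc]
    exact ⟨Just.append j (by simpa using j1), m1⟩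

/-- The last lines. -/
def bwE (c : Cx) (π : List Fm) : List Fm :=
  projL (bwJ c π 0) ++ [imp (ct (bwD c) true) c.1.1, c.1.1]

theorem bwE_just {G : List Rule} (hG : Rich G) {c : Cx} (hc : CxOk c) {π σ : List Fm}
    (hA : c.1.1 ∈ π) (hinv : bwInv c π σ) : Just (RuleStep G) σ (bwE c π) ∧ c.1.1 ∈ bwE c π := by
  refine ⟨?_, by simp [bwE]⟩
  have hW : bwW c 0 c.1.1 = true := by
    rw [bwW_iff]
    intro x hx hx'
    obtain ⟨e, he, rfl⟩ := List.mem_map.1 hx'
    exact absurd hx (hc.na e he)
  have hren : bwC c c.1.1 = c.1.1 := by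
    apply Fm.subst_eq_self
    intro x hx
    unfold bwR
    rw [if_pos (mem_nms.2 hx)]
  have hm := mem_projL (mem_bwJ hA hW)
  rw [hren] at hm
  refine Just.append (projL_just hG _ _) ⟨Or.inr ?_, Or.inr ?_, trivial⟩
  · exact hG.trans (List.mem_append_left _ hinv.1) (List.mem_append_right _ hm)
  · refine hG.strip (H := var (bwD c)) ?_
    simp [ct]

end Pool.Agent.H.MP_0447ec_lc.PS
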