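import Pool.Agent.H.MP_0447ec_lc.LV.BwDefs
import Pool.Agent.H.MP_0447ec_lc.PS.PolyAlg

/-!
# Extended Frege proofs of bounded bandwidth: the list of the extension axioms
-/

namespace Pool.Agent.H.MP_0447ec_lc.PS

open Fm

/-- As `NarrowDeriv`, with the list of the extension axioms. -/
inductive NarrowE (F : List Rule) (A : Fm) (b : ℕ) : List Fm → List (Nm × Fm) → Prop
  | nil : NarrowE F A b [] []
  | rule {π : List Fm} {E : List (Nm × Fm)} {B : Fm} (i : ℕ) (σ : List Fm) :
      NarrowE F A b π E → (∀ C ∈ σ, C ∈ π ∧ InWindow (E.map Prod.fst) b i C) →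
      InWindow (E.map Prod.fst) b i B →
      RuleStep F σ B → NarrowE F A b (π ++ [B]) E
  | ext {π : List Fm} {E : List (Nm × Fm)} {e : Nm × Fm} (i : ℕ) :
      NarrowE F A b π E → e.1 ∉ e.2.vars → (∀ C ∈ π, e.1 ∉ C.vars) → e.1 ∉ A.vars →
      InWindow ((E ++ [e]).map Prod.fst) b i (eAx e) →
      NarrowE F A b (π ++ [eAx e]) (E ++ [e])

theorem narrowE_of {F : List Rule} {A : Fm} {b : ℕ} {π : List Fm} {L : List Nm}
    (h : NarrowDeriv F A b π L) : ∃ E : List (Nm × Fm), E.map Prod.fst = L ∧ NarrowE F A b π E := by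
  induction h with
  | nil => exact ⟨[], rfl, NarrowE.nil⟩
  | rule i σ _ h2 h3 h4 ih =>
    obtain ⟨E, rfl, hE⟩ := ih
    exact ⟨E, rfl, NarrowE.rule i σ hE h2 h3 h4⟩
  | @ext π L q φ i _ h2 h3 h4 h5 ih =>
    obtain ⟨E, rfl, hE⟩ := ih
    refine ⟨E ++ [(q, φ)], by simp, ?_⟩
    exact NarrowE.ext (e := (q, φ)) i hE h2 h3 h4 (by simpa [eAx] using h5)

theorem NarrowE.narrow {F : List Rule} {A : Fm} {b : ℕ} {π : List Fm} {E : List (Nm × Fm)}
    (h : NarrowE F A b π E) : NarrowDeriv F A b π (E.map Prod.fst) := by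
  induction h with
  | nil => exact NarrowDeriv.nil
  | rule i σ _ h2 h3 h4 ih => exact NarrowDeriv.rule i σ ih h2 h3 h4
  | @ext π E e i _ h2 h3 h4 h5 ih =>
    rw [List.map_append]
    exact NarrowDeriv.ext (q := e.1) (φ := e.2) i ih h2 h3 h4 (by simpa [eAx] using h5)

theorem bw_eval_congr {A : Fm} {v v' : Nm → Prop} (h : ∀ x ∈ A.vars, (v x ↔ v' x)) :
    A.Eval v ↔ A.Eval v' := by
  induction A with
  | var w => exact h w rfl
  | neg A ih => simp only [Fm.Eval]; rw [ih h]
  | and A B ih1 ih2 =>
    simp only [Fm.Eval]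
    rw [ih1 (fun x hx => h x (Or.inl hx)), ih2 (fun x hx => h x (Or.inr hx))]
  | or A B ih1 ih2 =>
    simp only [Fm.Eval]
    rw [ih1 (fun x hx => h x (Or.inl hx)), ih2 (fun x hx => h x (Or.inr hx))]
  | imp A B ih1 ih2 =>
    simp only [Fm.Eval]
    rw [ih1 (fun x hx => h x (Or.inl hx)), ih2 (fun x hx => h x (Or.inr hx))]

theorem bw_rule_sound {F : List Rule} (hF : IsFrege F) {σ : List Fm} {B : Fm}
    (h : RuleStep F σ B) {v : Nm → Prop} (hv : ∀ C ∈ σ, C.Eval v) : B.Eval v := by
  obtain ⟨r, hr, s, hs, rfl⟩ := h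
  rw [Fm.eval_subst]
  apply hF.sound r hr
  intro P hP
  rw [← Fm.eval_subst]
  exact hv _ (hs P hP)

theorem bw_update {C : Fm} {v : Nm → Prop} {q : Nm} {p : Prop} (h : q ∉ C.vars) :
    C.Eval (Function.update v q p) ↔ C.Eval v := by
  apply bw_eval_congr
  intro x hx
  rw [Function.update_of_ne]
  rintro rfl
  exact h hx

/-- The lines of a proof with the extension rule can be satisfied. -/
theorem NarrowE.sat {F : List Rule} (hF : IsFrege F) {A : Fm} {b : ℕ} {π : List Fm}
    {E : List (Nm × Fm)} (h : NarrowE F A b π E) : ∃ v : Nm → Prop, ∀ C ∈ π, C.Eval v := by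
  induction h with
  | nil => exact ⟨fun _ => True, by simp⟩
  | rule i σ _ h2 h3 h4 ih =>
    obtain ⟨v, hv⟩ := ih
    refine ⟨v, ?_⟩
    intro C hC
    rcases List.mem_append.1 hC with hC | hC
    · exact hv C hC
    · rw [List.mem_singleton] at hC
      subst hC
      exact bw_rule_sound hF h4 (fun D hD => hv D (h2 D hD).1)
  | @ext π E e i _ h2 h3 h4 h5 ih =>
    obtain ⟨v, hv⟩ := ih
    refine ⟨Function.update v e.1 (e.2.Eval v), ?_⟩
    intro C hC
    rcases List.mem_append.1 hC with hC | hC
    · rw [bw_update (h3 C hC)]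
      exact hv C hC
    · rw [List.mem_singleton] at hC
      subst hC
      simp only [eAx, Fm.iff, Fm.Eval, Function.update_self]
      rw [bw_update h2]
      exact ⟨fun h => h, fun h => h⟩

/-- A line that follows by a rule is not an extension axiom. -/
theorem NarrowE.not_ext {F : List Rule} (hF : IsFrege F) {A A' : Fm} {b : ℕ} {π σ : List Fm}
    {E : List (Nm × Fm)} (h : NarrowE F A b π E) (hσ : ∀ C ∈ σ, C ∈ π) {B : Fm}
    (hB : RuleStep F σ B) : isExt A' π B = [] := by
  rcases isExt_cases A' π B with h1 | ⟨e, h1⟩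
  · exact h1
  · exfalso
    obtain ⟨h2, h3, -, h5⟩ := isExt_sound (A := A') (pre := π) (B := B) (e := e) (by rw [h1]; simp)
    obtain ⟨v, hv⟩ := h.sat hF
    have e1 : B.Eval v := bw_rule_sound hF hB (fun C hC => hv C (hσ C hC))
    have e2 : B.Eval (Function.update v e.1 (¬ v e.1)) := by
      apply bw_rule_sound hF hB
      intro C hC
      rw [bw_update (h5 C (hσ C hC))]
      exact hv C (hσ C hC)
    rw [h2] at e1 e2
    simp only [eAx, Fm.iff, Fm.Eval, Function.update_self] at e1 e2
    rw [bw_update h3] at e2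
    tauto

theorem NarrowE.ext_mem {F : List Rule} {A : Fm} {b : ℕ} {π : List Fm} {E : List (Nm × Fm)}
    (h : NarrowE F A b π E) : ∀ e ∈ E, eAx e ∈ π := by
  induction h with
  | nil => simp
  | rule i σ _ _ _ _ ih => exact fun e he => List.mem_append_left _ (ih e he)
  | ext i _ _ _ _ _ ih =>
    intro e he
    rcases List.mem_append.1 he with he | he
    · exact List.mem_append_left _ (ih e he)
    · rw [List.mem_singleton] at he
      subst he
      simp

theorem vars_eAx {e : Nm × Fm} {x : Nm} : x ∈ (eAx e).vars ↔ x = e.1 ∨ x ∈ e.2.vars := by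
  simp only [eAx, Fm.iff, Fm.vars, Set.mem_union, Set.mem_singleton_iff]
  tauto

/-- The extension axioms can be found. -/
theorem NarrowE.extL_eq {F : List Rule} (hF : IsFrege F) {A : Fm} {b : ℕ} {π : List Fm}
    {E : List (Nm × Fm)} (h : NarrowE F A b π E) : (extL A π).reverse = E := by
  induction h with
  | nil => rfl
  | @rule π E B i σ h1 h2 h3 h4 ih =>
    rw [extL_snoc, h1.not_ext hF (fun C hC => (h2 C hC).1) h4, List.nil_append, ih]
  | @ext π E e i h1 h2 h3 h4 h5 ih =>
    obtain ⟨e', he'⟩ := isExt_complete (A := A) (pre := π) (B := eAx e)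
      ⟨e.1, e.2, rfl, h2, h3, h4⟩
    have h6 := (isExt_sound (A := A) (pre := π) (B := eAx e) (e := e') (by rw [he']; simp)).1
    have h7 : e' = e := by
      have h8 : Fm.iff (var e.1) e.2 = Fm.iff (var e'.1) e'.2 := h6
      simp only [Fm.iff, Fm.and.injEq, Fm.imp.injEq, Fm.var.injEq] at h8
      exact Prod.ext h8.1.1.symm h8.1.2.symm
    rw [extL_snoc, he', List.reverse_append, ih, h7]
    rfl

theorem NarrowE.names {F : List Rule} {A : Fm} {b : ℕ} {π : List Fm} {E : List (Nm × Fm)}
    (h : NarrowE F A b π E) : (E.map Prod.fst).Nodup ∧ ∀ e ∈ E, e.1 ∉ A.vars := by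
  induction h with
  | nil => simp
  | rule i σ _ _ _ _ ih => exact ih
  | @ext π E e i h1 h2 h3 h4 h5 ih =>
    refine ⟨?_, ?_⟩
    · rw [List.map_append, List.nodup_append]
      refine ⟨ih.1, by simp, ?_⟩
      intro x hx y hy hxy
      rw [List.map_cons, List.map_nil, List.mem_singleton] at hy
      obtain ⟨e', he', rfl⟩ := List.mem_map.1 hx
      have := h3 _ (h1.ext_mem e' he')
      rw [vars_eAx, not_or] at this
      exact this.1 (by rw [← hy, hxy])
    · intro e' he'
      rcases List.mem_append.1 he' with he' | he'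
      · exact ih.2 e' he'
      · rw [List.mem_singleton] at he'
        rw [he']; exact h4

/-- The index of an extension variable. -/
def bwI (E : List (Nm × Fm)) (x : Nm) : ℕ := (E.map Prod.fst).idxOf x

/-- The extension variables of `C` lie among the last `b` before `i`. -/
def InW (E : List (Nm × Fm)) (b i : ℕ) (C : Fm) : Prop :=
  ∀ x ∈ C.vars, x ∈ E.map Prod.fst → bwI E x < i ∧ i ≤ bwI E x + b

/-- The windows of the definitions. -/
def Wd (E : List (Nm × Fm)) (b : ℕ) : Prop :=
  ∀ (k : ℕ) (hk : k < E.length), ∀ x ∈ (E[k]).2.vars, x ∈ E.map Prod.fst →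
    bwI E x < k ∧ k < bwI E x + b

theorem bwI_append {E R : List (Nm × Fm)} {x : Nm} (h : x ∈ E.map Prod.fst) :
    bwI (E ++ R) x = bwI E x := by
  unfold bwI
  rw [List.map_append, List.idxOf_append_of_mem h]

theorem window_idx {L : List Nm} {b i : ℕ} {x : Nm} (hn : L.Nodup)
    (h : x ∈ (L.drop i).take b) : i ≤ L.idxOf x ∧ L.idxOf x < i + b := by
  obtain ⟨k, hk, rfl⟩ := List.mem_iff_getElem.1 h
  have h1 : k < b ∧ i + k < L.length := by
    rw [List.length_take, List.length_drop] at hk
    omega
  rw [List.getElem_take, List.getElem_drop, hn.idxOf_getElem]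
  omega

theorem inW_of_window {E R : List (Nm × Fm)} {b i : ℕ} {C : Fm}
    (hn : ((E ++ R).map Prod.fst).Nodup)
    (hR : ∀ e ∈ R, e.1 ∉ C.vars) (h : InWindow (E.map Prod.fst) b i C) :
    InW (E ++ R) b (min (i + b) E.length) C := by
  intro x hx hx'
  have hxE : x ∈ E.map Prod.fst := by
    rw [List.map_append, List.mem_append] at hx'
    rcases hx' with hx' | hx'
    · exact hx'
    · obtain ⟨e, he, rfl⟩ := List.mem_map.1 hx'
      exact absurd hx (hR e he)
  rw [bwI_append hxE]
  have hn' : (E.map Prod.fst).Nodup := by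
    rw [List.map_append] at hn
    exact (List.nodup_append.1 hn).1
  have h1 := window_idx hn' (h x hx hxE)
  have h2 : (E.map Prod.fst).idxOf x < (E.map Prod.fst).length := List.idxOf_lt_length_of_mem hxE
  rw [List.length_map] at h2
  unfold bwI
  omega

theorem NarrowE.wd {F : List Rule} {A : Fm} {b : ℕ} {π : List Fm} {E : List (Nm × Fm)}
    (h : NarrowE F A b π E) : Wd E b := by
  induction h with
  | nil => intro k hk; simp at hk
  | rule i σ _ _ _ _ ih => exact ih
  | @ext π E e i h1 h2 h3 h4 h5 ih =>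
    intro k hk x hx hx'
    have hN := (NarrowE.ext i h1 h2 h3 h4 h5).names.1
    by_cases hkE : k < E.length
    · rw [List.getElem_append_left hkE] at hx
      have hxE : x ∈ E.map Prod.fst := by
        rw [List.map_append, List.mem_append] at hx'
        rcases hx' with hx' | hx'
        · exact hx'
        · rw [List.map_cons, List.map_nil, List.mem_singleton] at hx'
          exfalso
          refine h3 _ (h1.ext_mem _ (List.getElem_mem hkE)) ?_
          rw [vars_eAx]
          exact Or.inr (hx' ▸ hx)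
      rw [bwI_append hxE]
      exact ih k hkE x hx hxE
    · have hk' : k = E.length := by
        rw [List.length_append, List.length_singleton] at hk
        omega
      subst hk'
      rw [List.getElem_append_right (le_refl _)] at hx
      simp only [Nat.sub_self, List.getElem_cons_zero] at hx
      have hw := h5 x (vars_eAx.2 (Or.inr hx)) hx'
      have hwe := h5 e.1 (vars_eAx.2 (Or.inl rfl)) (by simp)
      have a1 := window_idx hN hw
      have a2 := window_idx hN hwe
      have a3 : ((E ++ [e]).map Prod.fst).idxOf e.1 = E.length := by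
        have hlt : E.length < ((E ++ [e]).map Prod.fst).length := by simp
        have := hN.idxOf_getElem E.length hlt
        rw [List.getElem_map, List.getElem_append_right (le_refl _)] at this
        simpa using this
      have a4 : ((E ++ [e]).map Prod.fst).idxOf x < E.length := by
        have hxE : x ∈ E.map Prod.fst := by
          rw [List.map_append, List.mem_append] at hx'
          rcases hx' with hx' | hx'
          · exact hx'
          · rw [List.map_cons, List.map_nil, List.mem_singleton] at hx'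
            exact absurd (hx' ▸ hx) h2
        have := bwI_append (R := [e]) hxE
        unfold bwI at this
        rw [this]
        have := List.idxOf_lt_length_of_mem hxE
        rwa [List.length_map] at this
      unfold bwI
      omega

end Pool.Agent.H.MP_0447ec_lc.PS
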