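import Pool.Agent.H.MP_0447ec_lc.LV.BwR
import Pool.Agent.H.MP_0447ec_lc.LV.SFCF
import Pool.Agent.H.MP_0447ec_lc.LV.Count

/-!
# From the substitution rule to bounded bandwidth: the inferences

`π` is a derivation with the substitution rule, `ys` its variables.  For every stage `t` there is a
copy `fn L t y` of every variable `y`.  The copies of stage `t + 1` are defined from those of stage
`t`: if `B` is the first line of `π` that is false at stage `t`, and `B` is the result of the
substitution `θ` in an earlier line, then the value of `y` at stage `t + 1` is the value of `θ y` at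
stage `t`.  If the first `k` lines are true at stage `t + 1` then the first `k + 1` lines are true
at stage `t`.
-/

namespace Pool.Agent.H.MP_0447ec_lc.PS

open Fm

/-! ### Additional rules -/

/-- Additional rules. -/
def nwR : List Rule :=
  [⟨[v1, imp v0 (Fm.iff v3 v4)],
     imp v0 (Fm.iff (Fm.or (Fm.and (neg v1) v2) (Fm.and v1 v3)) v4)⟩,
   ⟨[], imp (neg v1) (Fm.iff (Fm.or (Fm.and (neg v1) v2) (Fm.and v1 v3)) v2)⟩,
   ⟨[Fm.iff v1 v2, imp v0 (Fm.iff v2 v3)], imp v0 (Fm.iff v1 v3)⟩,
   ⟨[imp (neg v1) (Fm.iff v2 v1), v2], v1⟩]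

/-- The rules of `GG F` and the additional rules. -/
def nwG (F : List Rule) : List Rule := GG F ++ nwR

theorem nwG_rich (F : List Rule) : Rich (nwG F) :=
  fun r hr => List.mem_append_left _ (GG_rich F r hr)

theorem nwG_sound {F : List Rule} (hF : IsFrege F) :
    ∀ r ∈ nwG F, ∀ v : Nm → Prop, (∀ P ∈ r.prem, P.Eval v) → r.concl.Eval v := by
  intro r hr v hv
  rcases List.mem_append.1 hr with hr | hr
  · exact GG_sound hF r hr v hv
  · simp only [nwR, List.mem_cons, List.not_mem_nil, or_false] at hr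
    rcases hr with rfl | rfl | rfl | rfl <;>
      simp [Fm.Eval, Fm.iff, v0, v1, v2, v3, v4] at hv ⊢ <;>
      tauto

section steps

variable {F : List Rule} {π : List Fm} {H B Z W X Y : Fm}

theorem nw_step (r : Rule) (hr : r ∈ nwR) (X0 X1 X2 X3 X4 : Fm)
    (hp : ∀ P ∈ r.prem, P.subst (s5 X0 X1 X2 X3 X4) ∈ π)
    {D : Fm} (hD : r.concl.subst (s5 X0 X1 X2 X3 X4) = D) : RuleStep (nwG F) π D :=
  ⟨r, List.mem_append_right _ hr, s5 X0 X1 X2 X3 X4, hp, hD⟩

theorem nw_one (h1 : B ∈ π) (h2 : imp H (Fm.iff W Y) ∈ π) :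
    RuleStep (nwG F) π (imp H (Fm.iff (Fm.or (Fm.and (neg B) Z) (Fm.and B W)) Y)) :=
  nw_step _ (List.mem_cons_self) H B Z W Y
    (by simpa [Fm.subst, Fm.iff, v0, v1, v2, v3, v4, s5] using ⟨h1, h2⟩) rfl

theorem nw_two : RuleStep (nwG F) π
    (imp (neg B) (Fm.iff (Fm.or (Fm.and (neg B) Z) (Fm.and B W)) Z)) :=
  nw_step ⟨[], imp (neg v1) (Fm.iff (Fm.or (Fm.and (neg v1) v2) (Fm.and v1 v3)) v2)⟩
    (by simp [nwR]) B B Z W W (by simp) rfl

theorem nw_three (h1 : Fm.iff X Y ∈ π) (h2 : imp H (Fm.iff Y Z) ∈ π) :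
    RuleStep (nwG F) π (imp H (Fm.iff X Z)) :=
  nw_step ⟨[Fm.iff v1 v2, imp v0 (Fm.iff v2 v3)], imp v0 (Fm.iff v1 v3)⟩
    (by simp [nwR]) H X Y Z Z
    (by simpa [Fm.subst, Fm.iff, v0, v1, v2, v3, s5] using ⟨h1, h2⟩) rfl

theorem nw_four (h1 : imp (neg B) (Fm.iff X B) ∈ π) (h2 : X ∈ π) :
    RuleStep (nwG F) π B :=
  nw_step ⟨[imp (neg v1) (Fm.iff v2 v1), v2], v1⟩
    (by simp [nwR]) B B X X X
    (by simpa [Fm.subst, Fm.iff, v1, v2, s5] using ⟨h1, h2⟩) rfl

end steps

/-! ### The substitution used in a line -/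

/-- The first earlier line that gives `B` by a substitution, if there is one. -/
def nwS (pre : List Fm) (B : Fm) : List Fm :=
  (pre.filter (fun C => decide (C.subst (tsub (sfMT C B)) = B))).take 1

/-- The table of the substitution. -/
def nwT (pre : List Fm) (B : Fm) : List (Nm × Fm) := (nwS pre B).flatMap (fun C => sfMT C B)

theorem nwS_spec (pre : List Fm) (B : Fm) :
    (nwS pre B = [] ∧ ¬ SubstStep pre B) ∨
      ∃ C ∈ pre, nwS pre B = [C] ∧ nwT pre B = sfMT C B ∧ C.subst (tsub (sfMT C B)) = B := by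
  unfold nwT nwS
  cases h : pre.filter (fun C => decide (C.subst (tsub (sfMT C B)) = B)) with
  | nil =>
    left
    refine ⟨rfl, ?_⟩
    rintro ⟨C, hC, s, rfl⟩
    rw [List.filter_eq_nil_iff] at h
    exact h C hC (by rw [decide_eq_true_iff, sfMT_subst])
  | cons C l =>
    right
    have h1 : C ∈ pre.filter (fun C => decide (C.subst (tsub (sfMT C B)) = B)) := by
      rw [h]; exact List.mem_cons_self
    rw [List.mem_filter, decide_eq_true_iff] at h1
    exact ⟨C, h1.1, by simp, by simp, h1.2⟩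

/-- The lines with the tables of the substitutions. -/
def nwN (π : List Fm) : List (Fm × List (Nm × Fm)) :=
  (List.range π.length).map (fun m => (π.getD m (var []), nwT (π.take m) (π.getD m (var []))))

theorem nwN_length (π : List Fm) : (nwN π).length = π.length := by simp [nwN]

theorem nwN_fst (π : List Fm) : (nwN π).map Prod.fst = π := by
  apply List.ext_getElem
  · simp [nwN]
  · intro i h1 h2
    simp [nwN, h2]

theorem nwN_getElem {π : List Fm} {m : ℕ} (h : m < π.length) :
    (nwN π)[m]? = some (π[m], nwT (π.take m) π[m]) := by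
  unfold nwN
  rw [List.getElem?_map, List.getElem?_range h, Option.map_some, List.getD_eq_getElem _ _ h]

theorem nwN_take (π : List Fm) (m : ℕ) : ((nwN π).take m).map Prod.fst = π.take m := by
  rw [List.map_take, nwN_fst]

/-! ### The defining formulas -/

/-- The formula that defines the next value of `y`. -/
def nwP (y : Nm) (l : List (Fm × List (Nm × Fm))) : Fm :=
  l.foldr (fun p G => Fm.or (Fm.and (neg p.1) (tsub p.2 y)) (Fm.and p.1 G)) (var y)

/-- The renaming to stage `t`. -/
def nwRn (L t : ℕ) : Nm → Fm := fun y => var (fn L t y)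

theorem nwRn_vars {L t : ℕ} {G : Fm} {x : Nm} (h : x ∈ (G.subst (nwRn L t)).vars) :
    ∃ y ∈ G.vars, x = fn L t y := by
  induction G with
  | var w => exact ⟨w, rfl, h⟩
  | neg A ih => exact ih h
  | and A B ih1 ih2 =>
    rcases h with h | h
    · obtain ⟨y, hy, e⟩ := ih1 h; exact ⟨y, Or.inl hy, e⟩
    · obtain ⟨y, hy, e⟩ := ih2 h; exact ⟨y, Or.inr hy, e⟩
  | or A B ih1 ih2 =>
    rcases h with h | h
    · obtain ⟨y, hy, e⟩ := ih1 h; exact ⟨y, Or.inl hy, e⟩
    · obtain ⟨y, hy, e⟩ := ih2 h; exact ⟨y, Or.inr hy, e⟩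
  | imp A B ih1 ih2 =>
    rcases h with h | h
    · obtain ⟨y, hy, e⟩ := ih1 h; exact ⟨y, Or.inl hy, e⟩
    · obtain ⟨y, hy, e⟩ := ih2 h; exact ⟨y, Or.inr hy, e⟩

/-- The suffixes. -/
def nwTl {β : Type} (l : List β) : List (List β) :=
  (sp [] l).map (fun s => s.2.1 :: s.2.2) ++ [[]]

theorem nwTl_nil {β : Type} : nwTl ([] : List β) = [[]] := rfl

theorem nwTl_cons {β : Type} (a : β) (l : List β) : nwTl (a :: l) = (a :: l) :: nwTl l := by
  have key : ∀ (l pre pre' : List β), (sp pre l).map (fun s => s.2.1 :: s.2.2) =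
      (sp pre' l).map (fun s => s.2.1 :: s.2.2) := by
    intro l
    induction l with
    | nil => intro pre pre'; rfl
    | cons b l ih =>
      intro pre pre'
      simp only [sp, List.map_cons]
      rw [ih (pre ++ [b]) (pre' ++ [b])]
  unfold nwTl
  simp only [sp, List.map_cons, List.cons_append]
  rw [key l ([] ++ [a]) []]

/-! ### The value of the defining formula -/

/-- Under `K` the formula for the lines `l` is equivalent to `Z`. -/
def nwE (L t : ℕ) (K Z : Fm) (y : Nm) (l : List (Fm × List (Nm × Fm))) : Fm :=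
  imp K (Fm.iff ((nwP y l).subst (nwRn L t)) Z)

/-- The equivalences for all suffixes. -/
def nwCh (L t : ℕ) (K Z : Fm) (y : Nm) (l1 tl : List (Fm × List (Nm × Fm))) : List Fm :=
  (nwTl l1).reverse.map (fun s => nwE L t K Z y (s ++ tl))

theorem nwCh_just {F : List Rule} {L t : ℕ} {y : Nm} {p : Fm × List (Nm × Fm)}
    {l2 : List (Fm × List (Nm × Fm))} :
    ∀ {l1 : List (Fm × List (Nm × Fm))} {ρ : List Fm},
      (∀ q ∈ l1, q.1.subst (nwRn L t) ∈ ρ) →
      Just (RuleStep (nwG F)) ρ (nwCh L t (neg (p.1.subst (nwRn L t)))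
        ((tsub p.2 y).subst (nwRn L t)) y l1 (p :: l2)) ∧
      nwE L t (neg (p.1.subst (nwRn L t))) ((tsub p.2 y).subst (nwRn L t)) y (l1 ++ p :: l2) ∈
        nwCh L t (neg (p.1.subst (nwRn L t))) ((tsub p.2 y).subst (nwRn L t)) y l1 (p :: l2) := by
  intro l1
  induction l1 with
  | nil =>
    intro ρ _
    refine ⟨⟨Or.inr ?_, trivial⟩, by simp [nwCh, nwTl_nil]⟩
    exact nw_two
  | cons a l1 ih =>
    intro ρ h
    obtain ⟨j, m⟩ := ih (ρ := ρ) (fun q hq => h q (List.mem_cons_of_mem _ hq))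
    have e : nwCh L t (neg (p.1.subst (nwRn L t))) ((tsub p.2 y).subst (nwRn L t)) y (a :: l1)
        (p :: l2) = nwCh L t (neg (p.1.subst (nwRn L t))) ((tsub p.2 y).subst (nwRn L t)) y l1
        (p :: l2) ++ [nwE L t (neg (p.1.subst (nwRn L t))) ((tsub p.2 y).subst (nwRn L t)) y
          (a :: l1 ++ p :: l2)] := by
      unfold nwCh
      rw [nwTl_cons]
      simp
    rw [e]
    refine ⟨Just.append j ⟨Or.inr ?_, trivial⟩, List.mem_append_right _ (by simp)⟩
    exact nw_one (List.mem_append_left _ (h a (by simp))) (List.mem_append_right _ m)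

/-! ### One line of the derivation -/

/-- Lines for the case that the line `p` is false and was obtained from `C`. -/
def nwC (L t : ℕ) (l1 : List (Fm × List (Nm × Fm))) (p : Fm × List (Nm × Fm))
    (tl : List (Fm × List (Nm × Fm))) (C : Fm) : List Fm :=
  (nms C).flatMap (fun y =>
    nwCh L t (neg (p.1.subst (nwRn L t))) ((tsub p.2 y).subst (nwRn L t)) y l1 tl ++
    [imp (neg (p.1.subst (nwRn L t)))
      (Fm.iff (nwRn L (t + 1) y) ((tsub p.2 y).subst (nwRn L t)))]) ++
  replL (neg (p.1.subst (nwRn L t))) C (nwRn L (t + 1))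
    (fun y => (tsub p.2 y).subst (nwRn L t))

theorem nwC_just {F : List Rule} {L t : ℕ} {l1 l2 : List (Fm × List (Nm × Fm))}
    {p : Fm × List (Nm × Fm)} {C : Fm} {ρ : List Fm}
    (h1 : ∀ q ∈ l1, q.1.subst (nwRn L t) ∈ ρ)
    (h2 : ∀ y ∈ nms C, Fm.iff (nwRn L (t + 1) y)
      ((nwP y (l1 ++ p :: l2)).subst (nwRn L t)) ∈ ρ) :
    Just (RuleStep (nwG F)) ρ (nwC L t l1 p (p :: l2) C) ∧
      imp (neg (p.1.subst (nwRn L t))) (Fm.iff (C.subst (nwRn L (t + 1)))
        ((C.subst (tsub p.2)).subst (nwRn L t))) ∈ nwC L t l1 p (p :: l2) C := by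
  obtain ⟨j, m⟩ := replL_just (nwG_rich F) (neg (p.1.subst (nwRn L t))) (nwRn L (t + 1))
    (fun y => (tsub p.2 y).subst (nwRn L t)) C
    (ρ ++ (nms C).flatMap (fun y =>
      nwCh L t (neg (p.1.subst (nwRn L t))) ((tsub p.2 y).subst (nwRn L t)) y l1 (p :: l2) ++
      [imp (neg (p.1.subst (nwRn L t)))
        (Fm.iff (nwRn L (t + 1) y) ((tsub p.2 y).subst (nwRn L t)))])) (by
    intro x hx
    refine List.mem_append_right _ (List.mem_flatMap.2 ⟨x, mem_nms.2 hx, ?_⟩)
    exact List.mem_append_right _ (by simp))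
  constructor
  · unfold nwC
    refine Just.append (Just.flatMap (mono_ruleStep _) _ _ _ ?_) j
    intro y hy
    obtain ⟨j', m'⟩ := nwCh_just (F := F) (L := L) (t := t) (y := y) (p := p) (l2 := l2) h1
    refine Just.append j' ⟨Or.inr ?_, trivial⟩
    exact nw_three (List.mem_append_left _ (h2 y hy)) (List.mem_append_right _ m')
  · rw [Fm.subst_subst]
    exact List.mem_append_right _ m

/-- The lines for the line number `m` at stage `t`. -/
def nwM (L t : ℕ) (nd : List (Fm × List (Nm × Fm))) (m : ℕ) : List Fm :=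
  (nwS ((nd.take m).map Prod.fst) (nd.getD m (var [], [])).1).flatMap
    (fun C => nwC L t (nd.take m) (nd.getD m (var [], [])) (nd.drop m) C) ++
  [(nd.getD m (var [], [])).1.subst (nwRn L t)]

theorem deriv_getElem {step : List Fm → Fm → Prop} {π : List Fm} (h : Deriv step π) :
    ∀ m (hm : m < π.length), step (π.take m) π[m] := by
  induction h with
  | nil => intro m hm; simp at hm
  | @snoc π B h1 h2 ih =>
    intro m hm
    by_cases h3 : m < π.length
    · rw [List.take_append_of_le_length h3.le, List.getElem_append_left h3]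
      exact ih m h3
    · have h4 : m = π.length := by
        rw [List.length_append, List.length_singleton] at hm
        omega
      subst h4
      simpa using h2

theorem nwM_just {F : List Rule} {π : List Fm} (hD : Deriv (GS F) π) {L t m : ℕ} {ρ : List Fm}
    (hm : m < π.length) (h1 : ∀ y ∈ π.flatMap nms, Fm.iff (nwRn L (t + 1) y)
      ((nwP y (nwN π)).subst (nwRn L t)) ∈ ρ)
    (h2 : ∀ C ∈ π.take m, C.subst (nwRn L (t + 1)) ∈ ρ)
    (h3 : ∀ C ∈ π.take m, C.subst (nwRn L t) ∈ ρ) :
    Just (RuleStep (nwG F)) ρ (nwM L t (nwN π) m) ∧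
      π[m].subst (nwRn L t) ∈ nwM L t (nwN π) m := by
  have hN := nwN_getElem hm
  have hget : (nwN π).getD m (var [], []) = (π[m], nwT (π.take m) π[m]) := by
    rw [List.getD_eq_getElem?_getD, hN]
    rfl
  have hlen : m < (nwN π).length := by rw [nwN_length]; exact hm
  have hdrop : (nwN π).drop m = (π[m], nwT (π.take m) π[m]) :: (nwN π).drop (m + 1) := by
    rw [List.drop_eq_getElem_cons hlen]
    congr 1
    rw [List.getElem?_eq_getElem hlen, Option.some_inj] at hN
    exact hN
  unfold nwM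
  rw [hget, nwN_take, hdrop]
  refine ⟨?_, List.mem_append_right _ (by simp)⟩
  have hstep := deriv_getElem hD m hm
  rcases nwS_spec (π.take m) π[m] with ⟨e, hn⟩ | ⟨C, hC, e, e2, e3⟩
  · rw [e]
    refine ⟨Or.inr ?_, trivial⟩
    rcases hstep with h | h
    · have h4 := ruleStep_subst h (nwRn L t)
      have h5 : RuleStep (GG F) ρ (π[m].subst (nwRn L t)) := by
        refine mono_ruleStep _ _ _ _ ?_ (ruleStep_GG h4)
        intro D hDm
        obtain ⟨E, hE, rfl⟩ := List.mem_map.1 hDm
        exact h3 E hE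
      obtain ⟨r, hr, s, h6, h7⟩ := h5
      exact ⟨r, List.mem_append_left _ hr, s, h6, h7⟩
    · exact absurd h hn
  · rw [e, e2]
    have hCπ : C ∈ π := List.mem_of_mem_take hC
    obtain ⟨j, mm⟩ := nwC_just (F := F) (L := L) (t := t) (l1 := (nwN π).take m)
      (l2 := (nwN π).drop (m + 1)) (p := (π[m], sfMT C π[m])) (C := C) (ρ := ρ) (by
        intro q hq
        refine h3 q.1 ?_
        rw [← nwN_take]
        exact List.mem_map_of_mem hq) (by
        intro y hy
        have h5 : (nwN π).take m ++ (π[m], sfMT C π[m]) :: (nwN π).drop (m + 1) = nwN π := by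
          rw [← e2, ← hdrop, List.take_append_drop]
        rw [h5]
        exact h1 y (List.mem_flatMap.2 ⟨C, hCπ, hy⟩))
    rw [e3] at mm
    have e5 : [C].flatMap (fun C' => nwC L t ((nwN π).take m) (π[m], sfMT C π[m])
        ((π[m], sfMT C π[m]) :: (nwN π).drop (m + 1)) C') =
        nwC L t ((nwN π).take m) (π[m], sfMT C π[m])
        ((π[m], sfMT C π[m]) :: (nwN π).drop (m + 1)) C := by simp
    show Just (RuleStep (nwG F)) ρ ([C].flatMap (fun C' => nwC L t ((nwN π).take m)
      (π[m], sfMT C π[m]) ((π[m], sfMT C π[m]) :: (nwN π).drop (m + 1)) C') ++ _)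
    rw [e5]
    refine Just.append j ⟨Or.inr ?_, trivial⟩
    exact nw_four (X := C.subst (nwRn L (t + 1))) (List.mem_append_right _ mm)
      (List.mem_append_left _ (h2 C hC))

/-- The lines for the first `k` lines at stage `t`. -/
def nwB (L t : ℕ) (nd : List (Fm × List (Nm × Fm))) (k : ℕ) : List Fm :=
  (List.range k).flatMap (nwM L t nd)

theorem nwB_just {F : List Rule} {π : List Fm} (hD : Deriv (GS F) π) {L t : ℕ} {ρ : List Fm}
    (h1 : ∀ y ∈ π.flatMap nms, Fm.iff (nwRn L (t + 1) y)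
      ((nwP y (nwN π)).subst (nwRn L t)) ∈ ρ) (K : ℕ)
    (h2 : ∀ C ∈ π.take K, C.subst (nwRn L (t + 1)) ∈ ρ) :
    ∀ k, k ≤ K + 1 → k ≤ π.length →
      Just (RuleStep (nwG F)) ρ (nwB L t (nwN π) k) ∧
        ∀ C ∈ π.take k, C.subst (nwRn L t) ∈ nwB L t (nwN π) k := by
  intro k
  induction k with
  | zero => intro _ _; exact ⟨trivial, by simp⟩
  | succ k ih =>
    intro hk hk'
    obtain ⟨j, m⟩ := ih (by omega) (by omega)
    have e : nwB L t (nwN π) (k + 1) = nwB L t (nwN π) k ++ nwM L t (nwN π) k := by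
      unfold nwB
      rw [List.range_succ, List.flatMap_append]
      simp
    rw [e]
    obtain ⟨j2, m2⟩ := nwM_just hD (L := L) (t := t) (m := k) (ρ := ρ ++ nwB L t (nwN π) k)
      (by omega) (fun y hy => List.mem_append_left _ (h1 y hy))
      (fun C hC => List.mem_append_left _ (h2 C (by
        refine (List.take_sublist_take_left (by omega)).subset hC)))
      (fun C hC => List.mem_append_right _ (m C hC))
    refine ⟨Just.append j j2, ?_⟩
    intro C hC
    rw [List.take_succ_eq_append_getElem (by omega)] at hC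
    rcases List.mem_append.1 hC with hC | hC
    · exact List.mem_append_left _ (m C hC)
    · rw [List.mem_singleton] at hC
      subst hC
      exact List.mem_append_right _ m2

end Pool.Agent.H.MP_0447ec_lc.PS
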