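import Pool.Agent.H.MP_0447ec_lc.LV.BwB0

/-!
# From the substitution rule to bounded bandwidth: assembly
-/

namespace Pool.Agent.H.MP_0447ec_lc.PS

open Fm

/-! ### The extension lines -/

/-- The initial value of `y`. -/
def nwZ (A : Fm) (y : Nm) : Fm := if y ∈ nms A then var y else ct ((nms A).headD []) true

/-- The extension line for the copy `0` of `y`. -/
def nwXz (L : ℕ) (A : Fm) (y : Nm) : Fm := Fm.iff (nwRn L 0 y) (nwZ A y)

/-- The extension line for the copy `t + 1` of `y`. -/
def nwX (L t : ℕ) (nd : List (Fm × List (Nm × Fm))) (y : Nm) : Fm :=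
  Fm.iff (nwRn L (t + 1) y) ((nwP y nd).subst (nwRn L t))

/-- The extension lines. -/
def nwXs (L : ℕ) (A : Fm) (nd : List (Fm × List (Nm × Fm))) (ys : List Nm) (n : ℕ) : List Fm :=
  ys.map (nwXz L A) ++ (List.range n).flatMap (fun t => ys.map (nwX L t nd))

/-- The extension variables of the stages less than `n`. -/
def nwL (L : ℕ) (ys : List Nm) (n : ℕ) : List Nm := (List.range n).flatMap (fun t => ys.map (fn L t))

theorem nwZ_vars {A : Fm} {y x : Nm} (h : x ∈ (nwZ A y).vars) : x ∈ A.vars := by
  unfold nwZ at h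
  split_ifs at h with h1
  · simp only [Fm.vars, Set.mem_singleton_iff] at h
    subst h
    exact mem_nms.1 h1
  · have h2 : (nms A).headD [] ∈ nms A := by
      have h3 := nms_ne_nil A
      cases h4 : nms A with
      | nil => exact absurd h4 h3
      | cons a l => simp
    have h5 : x = (nms A).headD [] := by simpa [ct, Fm.vars] using h
    rw [h5]
    exact mem_nms.1 h2

theorem nwL_zero (L : ℕ) (ys : List Nm) : nwL L ys 0 = [] := rfl

theorem nwL_succ (L : ℕ) (ys : List Nm) (n : ℕ) :
    nwL L ys (n + 1) = nwL L ys n ++ ys.map (fn L n) := by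
  unfold nwL
  rw [List.range_succ, List.flatMap_append]
  simp

theorem nwL_length (L : ℕ) (ys : List Nm) (n : ℕ) : (nwL L ys n).length = n * ys.length := by
  induction n with
  | zero => simp [nwL_zero]
  | succ n ih => rw [nwL_succ, List.length_append, ih, List.length_map]; ring

theorem mem_nwL {L : ℕ} {ys : List Nm} {n : ℕ} {x : Nm} :
    x ∈ nwL L ys n ↔ ∃ t < n, ∃ y ∈ ys, fn L t y = x := by
  unfold nwL
  simp only [List.mem_flatMap, List.mem_range, List.mem_map]

theorem nwL_add (L : ℕ) (ys : List Nm) (n r : ℕ) : ∃ R, nwL L ys (n + r) = nwL L ys n ++ R := by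
  induction r with
  | zero => exact ⟨[], by simp⟩
  | succ r ih =>
    obtain ⟨R, hR⟩ := ih
    refine ⟨R ++ ys.map (fn L (n + r)), ?_⟩
    rw [← Nat.add_assoc, nwL_succ, hR, List.append_assoc]

/-- Introduction of the variables of one stage. -/
theorem narrow_stage {F : List Rule} {A : Fm} {b i : ℕ} {π : List Fm} {L₀ : List Nm}
    {f : Nm → Nm} {g : Nm → Fm} (h0 : NarrowDeriv F A b π L₀) (hi : i ≤ L₀.length) :
    ∀ ys : List Nm, ys.Nodup → (∀ y ∈ ys, ∀ z ∈ ys, f y = f z → y = z) →
      (∀ y ∈ ys, ∀ z ∈ ys, f y ∉ (g z).vars) → (∀ y ∈ ys, ∀ C ∈ π, f y ∉ C.vars) →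
      (∀ y ∈ ys, f y ∉ A.vars) → (∀ y ∈ ys, f y ∉ L₀) →
      (∀ y ∈ ys, ∀ x ∈ (g y).vars, x ∈ L₀ → x ∈ L₀.drop i) →
      L₀.length + ys.length ≤ b + i →
      NarrowDeriv F A b (π ++ ys.map (fun y => Fm.iff (var (f y)) (g y))) (L₀ ++ ys.map f) := by
  intro ys
  induction ys using List.reverseRecOn with
  | nil => intros; simpa using h0
  | append_singleton ys y ih =>
    intro hnd hf hg hp hA hL hw hb
    have hsub : ∀ z ∈ ys, z ∈ ys ++ [y] := fun z hz => List.mem_append_left _ hz
    have hy : y ∈ ys ++ [y] := by simp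
    have hyn : y ∉ ys := by
      intro h
      rw [List.nodup_append] at hnd
      exact hnd.2.2 y h y (by simp) rfl
    rw [List.length_append, List.length_singleton] at hb
    have h1 := ih (List.nodup_append.1 hnd).1 (fun z hz w hw => hf z (hsub z hz) w (hsub w hw))
      (fun z hz w hw => hg z (hsub z hz) w (hsub w hw)) (fun z hz => hp z (hsub z hz))
      (fun z hz => hA z (hsub z hz)) (fun z hz => hL z (hsub z hz)) (fun z hz => hw z (hsub z hz))
      (by omega)
    have e1 : π ++ (ys ++ [y]).map (fun y => Fm.iff (var (f y)) (g y)) =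
        (π ++ ys.map (fun y => Fm.iff (var (f y)) (g y))) ++ [Fm.iff (var (f y)) (g y)] := by simp
    have e2 : L₀ ++ (ys ++ [y]).map f = (L₀ ++ ys.map f) ++ [f y] := by simp
    rw [e1, e2]
    refine NarrowDeriv.ext i h1 (hg y hy y hy) ?_ (hA y hy) ?_
    · intro C hC
      rcases List.mem_append.1 hC with hC | hC
      · exact hp y hy C hC
      · obtain ⟨z, hz, rfl⟩ := List.mem_map.1 hC
        have h2 : f y ≠ f z := by
          intro e
          exact hyn (hf y hy z (hsub z hz) e ▸ hz)
        have h3 := hg y hy z (hsub z hz)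
        intro h4
        rcases h4 with (h4 | h4) | (h4 | h4)
        · exact h2 h4
        · exact h3 h4
        · exact h3 h4
        · exact h2 h4
    · have e3 : ((L₀ ++ ys.map f) ++ [f y]).drop i = L₀.drop i ++ (ys.map f ++ [f y]) := by
        rw [List.append_assoc, List.drop_append_of_le_length hi]
      intro x hx hxL
      rw [e3, List.take_of_length_le (by
        simp only [List.length_append, List.length_drop, List.length_map, List.length_singleton]
        omega)]
      rw [List.append_assoc] at hxL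
      rcases List.mem_append.1 hxL with hxL | hxL
      · refine List.mem_append_left _ ?_
        have h5 : x ∈ (g y).vars := by
          rcases hx with (hx | hx) | (hx | hx)
          · exact absurd (show f y ∈ L₀ from (Set.mem_singleton_iff.1 hx) ▸ hxL) (hL y hy)
          · exact hx
          · exact hx
          · exact absurd (show f y ∈ L₀ from (Set.mem_singleton_iff.1 hx) ▸ hxL) (hL y hy)
        exact hw y hy x h5 hxL
      · exact List.mem_append_right _ hxL

section

variable {F : List Rule} {A : Fm} {L : ℕ} {ys : List Nm} {nd : List (Fm × List (Nm × Fm))}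

theorem nw_not_vars (hA : ∀ x ∈ A.vars, x.length < L) (t : ℕ) (y : Nm) : fn L t y ∉ A.vars := by
  intro h
  have h1 := hA _ h
  have h2 := fn_length L t y
  omega

theorem nwXs_narrow (hys : ys.Nodup) (hA : ∀ x ∈ A.vars, x.length < L) :
    ∀ n, NarrowDeriv F A (2 * ys.length) (nwXs L A nd ys n) (nwL L ys (n + 1)) := by
  intro n
  induction n with
  | zero =>
    have h := narrow_stage (F := F) (A := A) (b := 2 * ys.length) (i := 0) (π := []) (L₀ := [])
      (f := fn L 0) (g := nwZ A) NarrowDeriv.nil le_rfl ys hys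
      (fun y _ z _ e => (fn_inj e).2) (fun y _ z _ h => nw_not_vars hA 0 y (nwZ_vars h))
      (by simp) (fun y _ => nw_not_vars hA 0 y) (by simp) (by simp) (by simp; omega)
    have e1 : nwXs L A nd ys 0 = [] ++ ys.map (fun y => Fm.iff (var (fn L 0 y)) (nwZ A y)) := by
      simp [nwXs, nwXz, nwRn]
    rw [e1, nwL_succ, nwL_zero]
    exact h
  | succ n ih =>
    have e1 : nwXs L A nd ys (n + 1) = nwXs L A nd ys n ++
        ys.map (fun y => Fm.iff (var (fn L (n + 1) y)) ((nwP y nd).subst (nwRn L n))) := by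
      unfold nwXs
      rw [List.range_succ, List.flatMap_append, ← List.append_assoc]
      simp [nwX, nwRn]
    rw [e1, nwL_succ L ys (n + 1)]
    refine narrow_stage ih (i := n * ys.length) ?_ ys hys ?_ ?_ ?_ ?_ ?_ ?_ ?_
    · rw [nwL_length]
      exact Nat.mul_le_mul_right _ (Nat.le_succ n)
    · exact fun y _ z _ e => (fn_inj e).2
    · intro y _ z _ h
      obtain ⟨w, _, e⟩ := nwRn_vars h
      have := (fn_inj e).1
      omega
    · intro y _ C hC h
      unfold nwXs at hC
      rcases List.mem_append.1 hC with hC | hC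
      · obtain ⟨z, _, rfl⟩ := List.mem_map.1 hC
        have h2 : fn L (n + 1) y ≠ fn L 0 z := by
          intro e
          have := (fn_inj e).1
          omega
        have h3 : fn L (n + 1) y ∉ (nwZ A z).vars := fun h => nw_not_vars hA _ y (nwZ_vars h)
        rcases h with (h | h) | (h | h)
        · exact h2 h
        · exact h3 h
        · exact h3 h
        · exact h2 h
      · rw [List.mem_flatMap] at hC
        obtain ⟨t, ht, hC⟩ := hC
        rw [List.mem_range] at ht
        obtain ⟨z, _, rfl⟩ := List.mem_map.1 hC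
        have h2 : fn L (n + 1) y ≠ fn L (t + 1) z := by
          intro e
          have := (fn_inj e).1
          omega
        have h3 : fn L (n + 1) y ∉ ((nwP z nd).subst (nwRn L t)).vars := by
          intro h
          obtain ⟨w, _, e⟩ := nwRn_vars h
          have := (fn_inj e).1
          omega
        rcases h with (h | h) | (h | h)
        · exact h2 h
        · exact h3 h
        · exact h3 h
        · exact h2 h
    · exact fun y _ => nw_not_vars hA _ y
    · intro y _ h
      obtain ⟨t, ht, z, _, e⟩ := mem_nwL.1 h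
      have := (fn_inj e).1
      omega
    · intro y _ x hx hxL
      rw [nwL_succ] at hxL ⊢
      rw [List.drop_append_of_le_length (by rw [nwL_length])]
      rcases List.mem_append.1 hxL with hxL | hxL
      · obtain ⟨w, _, e⟩ := nwRn_vars hx
        obtain ⟨t, ht, z, _, e'⟩ := mem_nwL.1 hxL
        have := (fn_inj (e'.trans e)).1
        omega
      · exact List.mem_append_right _ hxL
    · rw [nwL_length]
      ring_nf
      omega

/-- Formulas with variables of `A` and of two consecutive stages. -/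
def nwV (A : Fm) (L t : ℕ) (C : Fm) : Prop :=
  ∀ x ∈ C.vars, x ∈ A.vars ∨ ∃ y, x = fn L t y ∨ x = fn L (t + 1) y

theorem nwV_window (hA : ∀ x ∈ A.vars, x.length < L) {t n : ℕ} (ht : t + 2 ≤ n) {C : Fm}
    (h : nwV A L t C) : InWindow (nwL L ys n) (2 * ys.length) (t * ys.length) C := by
  intro x hx hxL
  obtain ⟨r, rfl⟩ : ∃ r, n = t + 2 + r := ⟨n - (t + 2), by omega⟩
  obtain ⟨R, hR⟩ := nwL_add L ys (t + 2) r
  have e : nwL L ys (t + 2 + r) = nwL L ys t ++ ((ys.map (fn L t) ++ ys.map (fn L (t + 1))) ++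
      R) := by
    rw [hR, nwL_succ, nwL_succ]
    simp
  obtain ⟨s, _, z, hz, hs⟩ := mem_nwL.1 hxL
  rw [e, List.drop_append_of_le_length (by rw [nwL_length]),
    List.drop_of_length_le (by rw [nwL_length]), List.nil_append,
    List.take_append_of_le_length (by simp; omega), List.take_of_length_le (by simp; omega)]
  rcases h x hx with h1 | ⟨y, h1 | h1⟩
  · rw [← hs] at h1
    exact absurd h1 (nw_not_vars hA s z)
  · rw [h1] at hs
    obtain ⟨e1, e2⟩ := fn_inj hs
    rw [h1, ← e2]
    exact List.mem_append_left _ (List.mem_map_of_mem hz)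
  · rw [h1] at hs
    obtain ⟨e1, e2⟩ := fn_inj hs
    rw [h1, ← e2]
    exact List.mem_append_right _ (List.mem_map_of_mem hz)

/-- The names of two consecutive stages. -/
def nwU (L t : ℕ) : Set Nm := {x | ∃ y, x = fn L t y ∨ x = fn L (t + 1) y}

theorem nwU_zero {t : ℕ} {G : Fm} : (G.subst (nwRn L t)).vars ⊆ nwU L t := by
  intro x hx
  obtain ⟨y, _, e⟩ := nwRn_vars hx
  exact ⟨y, Or.inl e⟩

theorem nwU_one {t : ℕ} {G : Fm} : (G.subst (nwRn L (t + 1))).vars ⊆ nwU L t := by
  intro x hx
  obtain ⟨y, _, e⟩ := nwRn_vars hx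
  exact ⟨y, Or.inr e⟩

theorem nwX_vars {t : ℕ} {y : Nm} : (nwX L t nd y).vars ⊆ nwU L t := by
  have h1 : (nwRn L (t + 1) y).vars ⊆ nwU L t := by
    intro x hx
    exact ⟨y, Or.inr hx⟩
  exact Set.union_subset (Set.union_subset h1 nwU_zero) (Set.union_subset nwU_zero h1)

theorem nwC_vars {t : ℕ} {l1 tl : List (Fm × List (Nm × Fm))} {p : Fm × List (Nm × Fm)}
    {C : Fm} : ∀ X ∈ nwC L t l1 p tl C, X.vars ⊆ nwU L t := by
  have un : ∀ {s t' : Set Nm}, s ⊆ nwU L t → t' ⊆ nwU L t → s ∪ t' ⊆ nwU L t :=
    fun h h' => Set.union_subset h h'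
  have hK : (neg (p.1.subst (nwRn L t))).vars ⊆ nwU L t := nwU_zero
  have h1 : ∀ y, (nwRn L (t + 1) y).vars ⊆ nwU L t := by
    intro y x hx
    exact ⟨y, Or.inr hx⟩
  intro X hX
  unfold nwC at hX
  rcases List.mem_append.1 hX with hX | hX
  · rw [List.mem_flatMap] at hX
    obtain ⟨y, _, hX⟩ := hX
    rcases List.mem_append.1 hX with hX | hX
    · unfold nwCh at hX
      obtain ⟨s, _, rfl⟩ := List.mem_map.1 hX
      exact un hK (un (un nwU_zero nwU_zero) (un nwU_zero nwU_zero))
    · rw [List.mem_singleton] at hX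
      subst hX
      exact un hK (un (un (h1 y) nwU_zero) (un nwU_zero (h1 y)))
  · unfold replL at hX
    obtain ⟨Y, _, rfl⟩ := List.mem_map.1 hX
    have h2 : (Y.subst (fun y => (tsub p.2 y).subst (nwRn L t))).vars ⊆ nwU L t :=
      sf_subst_subset (fun w _ => nwU_zero)
    exact un hK (un (un nwU_one h2) (un h2 nwU_one))

theorem nwB_vars {t k : ℕ} : ∀ X ∈ nwB L t nd k, X.vars ⊆ nwU L t := by
  intro X hX
  unfold nwB at hX
  rw [List.mem_flatMap] at hX
  obtain ⟨m, _, hX⟩ := hX
  unfold nwM at hX
  rcases List.mem_append.1 hX with hX | hX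
  · rw [List.mem_flatMap] at hX
    obtain ⟨C, _, hX⟩ := hX
    exact nwC_vars X hX
  · rw [List.mem_singleton] at hX
    subst hX
    exact nwU_zero

end

/-! ### The blocks -/

/-- The premises of the block number `j`. -/
def nwSg (L : ℕ) (π : List Fm) (nd : List (Fm × List (Nm × Fm))) (ys : List Nm) (j : ℕ) :
    List Fm :=
  ys.map (nwX L (π.length - 1 - j) nd) ++
    (π.take j).map (fun C => C.subst (nwRn L (π.length - 1 - j + 1)))

/-- The lines of the block number `j`. -/
def nwTa (L : ℕ) (π : List Fm) (nd : List (Fm × List (Nm × Fm))) (j : ℕ) : List Fm :=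
  nwB L (π.length - 1 - j) nd (j + 1)

/-- The premises of the last block. -/
def nwSf (L : ℕ) (A : Fm) (ys : List Nm) : List Fm :=
  ys.map (nwXz L A) ++ [A.subst (nwRn L 0)]

/-- The lines of the last block. -/
def nwTf (L : ℕ) (A : Fm) : List Fm :=
  (nms A).map (fun y => imp (ct ((nms A).headD []) true) (Fm.iff (nwRn L 0 y) (var y))) ++
  (replL (ct ((nms A).headD []) true) A (nwRn L 0) var ++
  [imp (ct ((nms A).headD []) true) (A.subst (nwRn L 0)), imp (ct ((nms A).headD []) true) A, A])

theorem nwTf_just {F : List Rule} {L : ℕ} {A : Fm} {ys : List Nm} (hys : ∀ y ∈ nms A, y ∈ ys) :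
    Just (RuleStep (nwG F)) (nwSf L A ys) (nwTf L A) := by
  have hG := nwG_rich F
  have hx : ∀ y ∈ nms A, Fm.iff (nwRn L 0 y) (var y) ∈ nwSf L A ys := by
    intro y hy
    refine List.mem_append_left _ (List.mem_map.2 ⟨y, hys y hy, ?_⟩)
    unfold nwXz nwZ
    rw [if_pos hy]
  have key : ∀ (l : List Nm) (ρ : List Fm), (∀ y ∈ l, Fm.iff (nwRn L 0 y) (var y) ∈ ρ) →
      Just (RuleStep (nwG F)) ρ (l.map (fun y =>
        imp (ct ((nms A).headD []) true) (Fm.iff (nwRn L 0 y) (var y)))) := by
    intro l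
    induction l with
    | nil => intro _ _; trivial
    | cons y l ih =>
      intro ρ h
      exact ⟨Or.inr (hG.weaken (h y (by simp))),
        ih _ (fun z hz => List.mem_append_left _ (h z (List.mem_cons_of_mem _ hz)))⟩
  obtain ⟨j, m⟩ := replL_just hG (ct ((nms A).headD []) true) (nwRn L 0) var A
    (nwSf L A ys ++ (nms A).map (fun y =>
        imp (ct ((nms A).headD []) true) (Fm.iff (nwRn L 0 y) (var y)))) (by
      intro x hx
      exact List.mem_append_right _ (List.mem_map.2 ⟨x, mem_nms.2 hx, rfl⟩))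
  rw [Fm.subst_var] at m
  refine Just.append (key _ _ hx) (Just.append j ⟨Or.inr (hG.weaken ?_),
    Or.inr (hG.iffMp (A := A.subst (nwRn L 0)) ?_ ?_),
    Or.inr (hG.strip (H := var ((nms A).headD [])) ?_), trivial⟩)
  · exact List.mem_append_left _ (List.mem_append_left _
      (List.mem_append_right _ (by simp)))
  · simp
  · exact List.mem_append_left _ (List.mem_append_right _ m)
  · simp [ct]

theorem nwTf_vars {L : ℕ} {A : Fm} : ∀ X ∈ nwTf L A, nwV A L 0 X := by
  have h0 : ∀ G : Fm, (G.subst (nwRn L 0)).vars ⊆ A.vars ∪ nwU L 0 :=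
    fun G => nwU_zero.trans Set.subset_union_right
  have hct : (ct ((nms A).headD []) true).vars ⊆ A.vars ∪ nwU L 0 := by
    intro x hx
    left
    have h2 : (nms A).headD [] ∈ nms A := by
      have h3 := nms_ne_nil A
      cases h4 : nms A with
      | nil => exact absurd h4 h3
      | cons a l => simp
    have h5 : x = (nms A).headD [] := by simpa [ct, Fm.vars] using hx
    rw [h5]
    exact mem_nms.1 h2
  have un : ∀ {s t' : Set Nm}, s ⊆ A.vars ∪ nwU L 0 → t' ⊆ A.vars ∪ nwU L 0 →
      s ∪ t' ⊆ A.vars ∪ nwU L 0 := fun h h' => Set.union_subset h h'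
  suffices h : ∀ X ∈ nwTf L A, X.vars ⊆ A.vars ∪ nwU L 0 by
    intro X hX x hx
    exact h X hX hx
  intro X hX
  unfold nwTf replL at hX
  simp only [List.mem_append, List.mem_map, List.mem_cons, List.not_mem_nil, or_false,
    List.mem_reverse] at hX
  rcases hX with ⟨y, hy, rfl⟩ | ⟨Y, hY, rfl⟩ | rfl | rfl | rfl
  · have h1 : (nwRn L 0 y).vars ⊆ A.vars ∪ nwU L 0 := by
      intro x hx
      exact Or.inr ⟨y, Or.inl hx⟩
    have h2 : (var y).vars ⊆ A.vars ∪ nwU L 0 := by
      intro x hx
      left
      rw [Set.mem_singleton_iff.1 hx]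
      exact mem_nms.1 hy
    exact un hct (un (un h1 h2) (un h2 h1))
  · have h2 : (Y.subst var).vars ⊆ A.vars ∪ nwU L 0 := by
      rw [Fm.subst_var]
      exact (sf_vars_subs hY).trans Set.subset_union_left
    exact un hct (un (un (h0 _) h2) (un h2 (h0 _)))
  · exact un hct (h0 _)
  · exact un hct Set.subset_union_left
  · exact Set.subset_union_left

theorem nw_app_append (π σ τ : List Fm) : app π (σ ++ τ) = app (app π σ) τ := by
  unfold app
  rw [List.foldl_append]

theorem nw_main {F : List Rule} {h : List Fm × List Fm → List Fm}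
    (hh : ∀ σ τ : List Fm, Just (RuleStep (nwG F)) σ τ →
        Just (RuleStep F) σ (h (σ, τ)) ∧ (∀ B ∈ τ, B ∈ h (σ, τ)) ∧
          ∀ C ∈ h (σ, τ), ∀ x ∈ C.vars, ∃ D ∈ σ ++ τ, x ∈ D.vars)
    {A : Fm} {π : List Fm} (hD : Deriv (GS F) π) {L : ℕ} (hA : ∀ x ∈ A.vars, x.length < L)
    {ys : List Nm} (hys : ys.Nodup) (hys' : ∀ y, y ∈ ys ↔ y ∈ π.flatMap nms) :
    ∀ j, j ≤ π.length →
      NarrowDeriv F A (2 * ys.length) (app (nwXs L A (nwN π) ys π.length)
        ((List.range j).flatMap (fun i => h (nwSg L π (nwN π) ys i, nwTa L π (nwN π) i))))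
        (nwL L ys (π.length + 1)) ∧
      ∀ C ∈ π.take j, C.subst (nwRn L (π.length - j)) ∈ app (nwXs L A (nwN π) ys π.length)
        ((List.range j).flatMap (fun i => h (nwSg L π (nwN π) ys i, nwTa L π (nwN π) i))) := by
  intro j
  induction j with
  | zero =>
    intro _
    refine ⟨?_, by simp⟩
    have := nwXs_narrow (F := F) (nd := nwN π) hys hA π.length
    simpa [app] using this
  | succ j ih =>
    intro hj
    obtain ⟨h1, h2⟩ := ih (by omega)
    have e : (List.range (j + 1)).flatMap
        (fun i => h (nwSg L π (nwN π) ys i, nwTa L π (nwN π) i)) =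
        (List.range j).flatMap (fun i => h (nwSg L π (nwN π) ys i, nwTa L π (nwN π) i)) ++
        h (nwSg L π (nwN π) ys j, nwTa L π (nwN π) j) := by
      rw [List.range_succ, List.flatMap_append]
      simp
    have ht : π.length - j = π.length - 1 - j + 1 := by omega
    have ht' : π.length - (j + 1) = π.length - 1 - j := by omega
    obtain ⟨j1, m1⟩ := nwB_just hD (L := L) (t := π.length - 1 - j)
      (ρ := nwSg L π (nwN π) ys j) (fun y hy => List.mem_append_left _
        (List.mem_map.2 ⟨y, (hys' y).2 hy, rfl⟩)) j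
      (fun C hC => List.mem_append_right _ (List.mem_map.2 ⟨C, hC, rfl⟩)) (j + 1) le_rfl hj
    obtain ⟨a1, a2, a3⟩ := hh _ _ j1
    rw [e, nw_app_append]
    have hXs : ∀ y ∈ ys, nwX L (π.length - 1 - j) (nwN π) y ∈ nwXs L A (nwN π) ys π.length := by
      intro y hy
      refine List.mem_append_right _ (List.mem_flatMap.2 ⟨π.length - 1 - j, ?_, ?_⟩)
      · rw [List.mem_range]
        omega
      · exact List.mem_map_of_mem hy
    have hσV : ∀ C ∈ nwSg L π (nwN π) ys j, C.vars ⊆ nwU L (π.length - 1 - j) := by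
      intro C hC
      rcases List.mem_append.1 hC with hC | hC
      · obtain ⟨y, _, rfl⟩ := List.mem_map.1 hC
        exact nwX_vars
      · obtain ⟨D, _, rfl⟩ := List.mem_map.1 hC
        exact nwU_one
    have hwin : ∀ C : Fm, C.vars ⊆ nwU L (π.length - 1 - j) →
        InWindow (nwL L ys (π.length + 1)) (2 * ys.length) ((π.length - 1 - j) * ys.length) C := by
      intro C hC
      exact nwV_window hA (by omega) (fun x hx => Or.inr (hC hx))
    constructor
    · refine narrow_app (i := (π.length - 1 - j) * ys.length) h1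
        (σ := nwSg L π (nwN π) ys j) ?_ ?_ a1
      · intro C hC
        refine ⟨?_, hwin C (hσV C hC)⟩
        rcases List.mem_append.1 hC with hC | hC
        · obtain ⟨y, hy, rfl⟩ := List.mem_map.1 hC
          exact mem_app.2 (Or.inl (hXs y hy))
        · obtain ⟨D, hD', rfl⟩ := List.mem_map.1 hC
          have := h2 D hD'
          rwa [ht] at this
      · intro C hC
        apply hwin
        intro x hx
        obtain ⟨D, hD', hx'⟩ := a3 C hC x hx
        rcases List.mem_append.1 hD' with hD' | hD'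
        · exact hσV D hD' hx'
        · exact nwB_vars D hD' hx'
    · intro C hC
      rw [ht']
      exact mem_app.2 (Or.inr (a2 _ (m1 C hC)))

end Pool.Agent.H.MP_0447ec_lc.PS
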