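import Pool.Agent.H.MP_0447ec_lc.LV.BwA2
import Pool.Agent.H.MP_0447ec_lc.LV.SubTime

/-!
# Linearly many variables and linear bandwidth
-/

namespace Pool.Agent.H.MP_0447ec_lc.PS

open Fm Pool.Agent.H.MP_0447ec_lc.PT

/-- Linearly many variables and linear bandwidth are equivalent, from the part that is proved in
another file. -/
theorem linear_iff_narrow_of {F : List Rule} (hF : IsFrege F)
    (hB : ∃ g : List Fm → List Fm, Poly g ∧ ∀ (A : Fm) (π : List Fm), SubstProof F A π →
      NarrowProof F A (2 * numVars π) (g π)) {Q : Fm → List Fm → Prop}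
    (hQ : ∀ A π, Q A π → π ≠ []) : LinearSimulates F Q ↔ NarrowSimulates F Q := by
  constructor
  · rintro ⟨c, f, hf, hf'⟩
    obtain ⟨g, hg, hg'⟩ := hB
    rw [tm2_iff_poly codeProof_eq codeProof_eq] at hf
    refine ⟨2 * c, fun π => g (f π), (tm2_iff_poly codeProof_eq codeProof_eq _).2
      (Poly.comp hg hf), ?_⟩
    intro A π hπ
    obtain ⟨h1, h2⟩ := hf' A π hπ
    refine (hg' A (f π) h1).mono ?_
    rw [Nat.mul_assoc]
    exact Nat.mul_le_mul_left _ h2
  · rintro ⟨c, f, hf, hf'⟩
    obtain ⟨g, hg, hg'⟩ := narrow_to_subst hF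
    rw [tm2_iff_poly codeProof_eq codeProof_eq] at hf
    have hp : Poly (fun π : List Fm => g (f π,
        c * ((dd (nms (lastF (f π)))).length + Nat.log 2 (sz π)))) := by
      have h1 : Poly (fun π : List Fm => Nat.log 2 (sz π)) :=
        Poly.log2 (Poly.szOf (by fun_prop))
      fun_prop
    refine ⟨c + 3, _, (tm2_iff_poly codeProof_eq codeProof_eq _).2 hp, ?_⟩
    intro A π hπ
    have h1 := hf' A π hπ
    have hl : lastF (f π) = A := lastF_eq h1.2
    rw [code_length] at h1 ⊢
    simp only [hl]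
    rw [numVars_one] at h1 ⊢
    obtain ⟨h2, h3⟩ := hg' A _ (f π) h1
    refine ⟨h2, h3.trans ?_⟩
    rw [numVars_one]
    have h4 := dd_nms_pos A
    have h5 : 1 ≤ Nat.log 2 (sz π) := Nat.log_pos (by norm_num) (two_le_sz (hQ A π hπ))
    nlinarith

end Pool.Agent.H.MP_0447ec_lc.PS
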