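import Pool.Agent.H.MP_0447ec_lc.LV.BwB
import Pool.Agent.H.MP_0447ec_lc.LV.BwC
import Pool.Agent.H.MP_0447ec_lc.LV.AsmA
import Pool.Agent.H.MP_0447ec_lc.LV.AsmB2

/-!
# The permutation rule and extended Frege proofs of linear bandwidth
-/

namespace Pool.Agent.H.MP_0447ec_lc.PS

open Fm Pool.Agent.H.MP_0447ec_lc.PT

/-- For a proof system `Q` that is p-closed under substitutions, `F` with the permutation rule
p-simulates `Q` if and only if extended Frege with linear bandwidth does. -/
theorem perm_iff_narrow {F : List Rule} (hF : IsFrege F) {Q : Fm → List Fm → Prop}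
    (hQ : ClosedUnderSubstitution Q) : PSimulates (PermProof F) Q ↔ NarrowSimulates F Q := by
  have h : LinearSimulates F Q ↔ NarrowSimulates F Q := by
    refine linear_iff_narrow_of hF (subst_to_narrow hF) ?_
    intro A π hπ e
    have := hQ.1 A π hπ
    rw [e] at this
    simp at this
  exact ⟨fun h1 => h.1 (asmA hF hQ h1), fun h1 => asmB hF hQ (h.2 h1)⟩

end Pool.Agent.H.MP_0447ec_lc.PS
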