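import Pool.Agent.H.MP_0447ec_lc.LV.Defs

/-!
# Extended Frege proofs of bounded bandwidth
-/

namespace Pool.Agent.H.MP_0447ec_lc.PS

open Fm

/-- Of the variables in the list `L`, the formula `C` contains only some of the `b` consecutive
ones with the numbers `i, ..., i + b - 1`. -/
def InWindow (L : List (List Bool)) (b i : ℕ) (C : Fm) : Prop :=
  ∀ x ∈ C.vars, x ∈ L → x ∈ (L.drop i).take b

/-- `π` consists of the first lines of a proof of `A` in `F` with the extension rule, `L` is the
list of the variables introduced by the extension rule, in the order of their introduction, and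
every inference has bandwidth at most `b`: its premises and its conclusion contain, of the
variables in `L`, only some of `b` consecutive ones. -/
inductive NarrowDeriv (F : List Rule) (A : Fm) (b : ℕ) : List Fm → List (List Bool) → Prop
  | nil : NarrowDeriv F A b [] []
  | rule {π : List Fm} {L : List (List Bool)} {B : Fm} (i : ℕ) (σ : List Fm) :
      NarrowDeriv F A b π L → (∀ C ∈ σ, C ∈ π ∧ InWindow L b i C) → InWindow L b i B →
      RuleStep F σ B → NarrowDeriv F A b (π ++ [B]) L
  | ext {π : List Fm} {L : List (List Bool)} {q : List Bool} {φ : Fm} (i : ℕ) :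
      NarrowDeriv F A b π L → q ∉ φ.vars → (∀ C ∈ π, q ∉ C.vars) → q ∉ A.vars →
      InWindow (L ++ [q]) b i (Fm.iff (var q) φ) →
      NarrowDeriv F A b (π ++ [Fm.iff (var q) φ]) (L ++ [q])

/-- `π` is a proof of `A` in `F` with the extension rule, and its bandwidth is at most `b`. -/
def NarrowProof (F : List Rule) (A : Fm) (b : ℕ) (π : List Fm) : Prop :=
  (∃ L : List (List Bool), NarrowDeriv F A b π L) ∧ π.getLast? = some A

/-- Extended Frege with linear bandwidth p-simulates the proof system `Q`: for some constant `c`
some function computable in polynomial time maps every `Q`-proof `π` of a formula `A` to an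
extended Frege proof of `A` of bandwidth at most `c * (n + log₂ |π|)`, where `n` is the number of
variables of `A` and `|π|` is the length of the binary code of `π`. -/
def NarrowSimulates (F : List Rule) (Q : Fm → List Fm → Prop) : Prop :=
  ∃ (c : ℕ) (f : List Fm → List Fm),
    Nonempty (Turing.TM2ComputableInPolyTime codeProof codeProof f) ∧
    ∀ (A : Fm) (π : List Fm), Q A π →
      NarrowProof F A (c * (numVars [A] + Nat.log 2 (codeProof π).length)) (f π)

end Pool.Agent.H.MP_0447ec_lc.PS
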