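import Pool.Agent.H.MP_0447ec_lc.LV.BwDefs
import Pool.Agent.H.MP_0447ec_lc.LV.Robust

/-!
# Bounded bandwidth: change of the rules, appending lines, cutting
-/

namespace Pool.Agent.H.MP_0447ec_lc.PS

open Fm Pool.Agent.H.MP_0447ec_lc.PT

/-! ### Change of the rules in the presence of hypotheses -/

/-- The step used for the hypotheses and for repeated lines. -/
def BwRStep (σ : List Fm) (π : List Fm) (B : Fm) : Prop := B ∈ σ ∨ B ∈ π

theorem mono_bwRStep (σ : List Fm) : Mono (BwRStep σ) := by
  rintro π π' B h (h1 | h1)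
  · exact Or.inl h1
  · exact Or.inr (h B h1)

theorem bwR_deriv {G : List Rule} {σ : List Fm} : ∀ {τ π : List Fm}, (∀ C ∈ σ, C ∈ π) →
    Deriv (fun ρ B => RuleStep G ρ B ∨ BwRStep σ ρ B) π → Just (RuleStep G) π τ →
    Deriv (fun ρ B => RuleStep G ρ B ∨ BwRStep σ ρ B) (π ++ τ) := by
  intro τ
  induction τ with
  | nil => intro π _ h _; simpa using h
  | cons C τ ih =>
    intro π hσ h hj
    have h1 : π ++ C :: τ = (π ++ [C]) ++ τ := by simp
    rw [h1]
    refine ih (fun D hD => List.mem_append_left _ (hσ D hD)) (Deriv.snoc h ?_) hj.2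
    rcases hj.1 with h2 | h2
    · exact Or.inr (Or.inr h2)
    · exact Or.inl h2

theorem bwR_self {G : List Rule} {σ : List Fm} : ∀ {π : List Fm}, (∀ C ∈ π, C ∈ σ) →
    Deriv (fun ρ B => RuleStep G ρ B ∨ BwRStep σ ρ B) π := by
  intro π
  induction π using List.reverseRecOn with
  | nil => intro _; exact Deriv.nil
  | append_singleton π C ih =>
    intro h
    exact Deriv.snoc (ih fun D hD => h D (List.mem_append_left _ hD))
      (Or.inr (Or.inl (h C (by simp))))

theorem bwR_just {F : List Rule} {σ : List Fm} : ∀ {τ π π' : List Fm}, (∀ C ∈ π, C ∈ π') →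
    (∀ C ∈ σ, C ∈ π') → Just (fun ρ B => RuleStep F ρ B ∨ BwRStep σ ρ B) π τ →
    Just (RuleStep F) π' τ := by
  intro τ
  induction τ with
  | nil => intro π π' _ _ _; trivial
  | cons C τ ih =>
    intro π π' h1 h2 hj
    refine ⟨?_, ih (π := π ++ [C]) ?_ ?_ hj.2⟩
    · rcases hj.1 with h3 | h3 | h3 | h3
      · exact Or.inl (h1 C h3)
      · exact Or.inr (mono_ruleStep F π π' C h1 h3)
      · exact Or.inl (h2 C h3)
      · exact Or.inl (h1 C h3)
    · intro D hD
      rcases List.mem_append.1 hD with hD | hD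
      · exact List.mem_append_left _ (h1 D hD)
      · exact List.mem_append_right _ hD
    · exact fun D hD => List.mem_append_left _ (h2 D hD)

/-- Lines justified by sound schematic rules from hypotheses can be justified by the rules of the
Frege system `F`, with additional lines and without new variables. -/
theorem robust_hyp {F G : List Rule} (hF : IsFrege F)
    (hG : ∀ r ∈ G, ∀ v : Nm → Prop, (∀ P ∈ r.prem, P.Eval v) → r.concl.Eval v) :
    ∃ h : List Fm × List Fm → List Fm, Poly h ∧
      ∀ σ τ : List Fm, Just (RuleStep G) σ τ →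
        Just (RuleStep F) σ (h (σ, τ)) ∧ (∀ B ∈ τ, B ∈ h (σ, τ)) ∧
          ∀ C ∈ h (σ, τ), ∀ x ∈ C.vars, ∃ D ∈ σ ++ τ, x ∈ D.vars := by
  obtain ⟨FD, hFD⟩ := exists_robOk hF hG
  refine ⟨fun p => robB FD ((p.1 ++ p.2).flatMap subs) (p.1 ++ p.2), ?_, ?_⟩
  · exact Poly.robB FD (by fun_prop) (by fun_prop)
  · intro σ τ hj
    have hD := bwR_deriv (σ := σ) (π := σ) (fun C hC => hC) (bwR_self fun C hC => hC) hj
    obtain ⟨j1, j2⟩ := robB_just hFD (mono_bwRStep σ) ((σ ++ τ).flatMap subs) hD
      (fun B hB E hE => List.mem_flatMap.2 ⟨B, hB, hE⟩)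
    refine ⟨bwR_just (π := []) (by simp) (fun C hC => hC) j1,
      fun B hB => j2 B (List.mem_append_right _ hB), ?_⟩
    exact robB_vars hFD (σ ++ τ) (fun B hB => hB)

/-! ### Appending lines -/

/-- A block of lines can be appended if the used old lines and all new lines lie in a window. -/
theorem narrow_app {F : List Rule} {A : Fm} {b i : ℕ} {L : List (List Bool)} :
    ∀ {τ σ π : List Fm}, NarrowDeriv F A b π L → (∀ C ∈ σ, C ∈ π ∧ InWindow L b i C) →
      (∀ C ∈ τ, InWindow L b i C) → Just (RuleStep F) σ τ →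
      NarrowDeriv F A b (app π τ) L := by
  intro τ
  induction τ with
  | nil => intro σ π h _ _ _; exact h
  | cons B τ ih =>
    intro σ π h hσ hτ hj
    have h1 : app π (B :: τ) = app (if B ∈ π then π else π ++ [B]) τ := rfl
    rw [h1]
    have hB := hτ B (by simp)
    have hτ' : ∀ C ∈ τ, InWindow L b i C := fun C hC => hτ C (List.mem_cons_of_mem _ hC)
    by_cases hBπ : B ∈ π
    · rw [if_pos hBπ]
      refine ih (σ := σ ++ [B]) h ?_ hτ' hj.2
      intro C hC
      rcases List.mem_append.1 hC with hC | hC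
      · exact hσ C hC
      · rw [List.mem_singleton] at hC
        subst hC
        exact ⟨hBπ, hB⟩
    · rw [if_neg hBπ]
      refine ih (σ := σ ++ [B]) ?_ ?_ hτ' hj.2
      · rcases hj.1 with h2 | h2
        · exact absurd (hσ B h2).1 hBπ
        · exact NarrowDeriv.rule i σ h hσ hB h2
      · intro C hC
        rcases List.mem_append.1 hC with hC | hC
        · exact ⟨List.mem_append_left _ (hσ C hC).1, (hσ C hC).2⟩
        · rw [List.mem_singleton] at hC
          subst hC
          exact ⟨List.mem_append_right _ (by simp), hB⟩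

/-! ### Cutting -/

theorem bwR_cutAt_snoc {B C : Fm} {π : List Fm} (hB : B ∈ π) :
    cutAt B (π ++ [C]) = cutAt B π := by
  unfold cutAt
  congr 1
  rw [List.takeWhile_append]
  split_ifs with h4
  · exfalso
    have h5 : List.takeWhile (fun C => !decide (C = B)) π = π :=
      List.IsPrefix.eq_of_length (List.takeWhile_prefix _) h4
    have h6 := List.takeWhile_eq_self_iff.1 h5 B hB
    simp at h6
  · rfl

theorem bwR_cutAt_last {B : Fm} {π : List Fm} (hB : B ∉ π) :
    cutAt B (π ++ [B]) = π ++ [B] := by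
  have h5 : List.takeWhile (fun C => !decide (C = B)) π = π := by
    rw [List.takeWhile_eq_self_iff]
    intro x hx
    have : x ≠ B := by rintro rfl; exact hB hx
    simpa using this
  unfold cutAt
  congr 1
  rw [List.takeWhile_append, if_pos (by rw [h5])]
  simp

/-- The lines up to the first occurrence of a line form again a proof. -/
theorem narrow_cutAt {F : List Rule} {A : Fm} {b : ℕ} {π : List Fm} {L : List (List Bool)}
    {B : Fm} (h : NarrowDeriv F A b π L) (hB : B ∈ π) :
    (∃ L', NarrowDeriv F A b (cutAt B π) L') ∧ (cutAt B π).getLast? = some B := by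
  refine ⟨?_, by simp [cutAt]⟩
  induction h with
  | nil => simp at hB
  | @rule π L C i σ h1 h2 h3 h4 ih =>
    by_cases hBπ : B ∈ π
    · rw [bwR_cutAt_snoc hBπ]
      exact ih hBπ
    · have hBC : B = C := by
        rcases List.mem_append.1 hB with hB | hB
        · exact absurd hB hBπ
        · simpa using hB
      subst hBC
      rw [bwR_cutAt_last hBπ]
      exact ⟨L, NarrowDeriv.rule i σ h1 h2 h3 h4⟩
  | @ext π L q φ i h1 h2 h3 h4 h5 ih =>
    by_cases hBπ : B ∈ π
    · rw [bwR_cutAt_snoc hBπ]
      exact ih hBπ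
    · have hBC : B = Fm.iff (var q) φ := by
        rcases List.mem_append.1 hB with hB | hB
        · exact absurd hB hBπ
        · simpa using hB
      subst hBC
      rw [bwR_cutAt_last hBπ]
      exact ⟨L ++ [q], NarrowDeriv.ext i h1 h2 h3 h4 h5⟩

end Pool.Agent.H.MP_0447ec_lc.PS
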