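import Pool.Agent.H.MP_0447ec_lc.LV.BwDefs
import Pool.Agent.H.MP_0447ec_lc.LV.ESub

/-!
# Substitutions in extended Frege proofs of bounded bandwidth
-/

namespace Pool.Agent.H.MP_0447ec_lc.PS

open Pool.Agent.H.MP_0447ec_lc.PT

theorem NarrowDeriv.not_mem {F : List Rule} {A : Fm} {b : ℕ} {π : List Fm} {L : List Nm}
    (h : NarrowDeriv F A b π L) : ∀ x ∈ L, x ∉ A.vars := by
  induction h with
  | nil => simp
  | rule i σ _ _ _ _ ih => exact ih
  | ext i _ _ _ h4 _ ih =>
    intro x hx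
    rcases List.mem_append.1 hx with hx | hx
    · exact ih x hx
    · rw [List.mem_singleton] at hx
      rw [hx]; exact h4

theorem InWindow.subst {A : Fm} {s : Nm → Fm} {r : Nm → Nm}
    (hr : ∀ x, x ∉ A.vars → ∀ y, y ≠ x → r x ∉ (s y).vars)
    {L : List Nm} (hL : ∀ x ∈ L, x ∉ A.vars) {b i : ℕ} {C : Fm} (h : InWindow L b i C) :
    InWindow (L.map r) b i (C.subst s) := by
  intro x hx hx'
  obtain ⟨y, hy, rfl⟩ := List.mem_map.1 hx'
  obtain ⟨z, hz, hx⟩ := vars_subst hx
  have hzy : z = y := by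
    by_contra hne
    exact hr y (hL y hy) z hne hx
  subst hzy
  rw [← List.map_drop, ← List.map_take]
  exact List.mem_map_of_mem (h z hz hy)

theorem narrow_deriv_subst {F : List Rule} {A : Fm} {b : ℕ} {s : Nm → Fm} {r : Nm → Nm}
    (hs : ∀ x, x ∉ A.vars → s x = Fm.var (r x))
    (hr : ∀ x, x ∉ A.vars → ∀ y, y ≠ x → r x ∉ (s y).vars) {π : List Fm} {L : List Nm}
    (h : NarrowDeriv F A b π L) :
    NarrowDeriv F (A.subst s) b (π.map (Fm.subst s)) (L.map r) := by
  have hv : ∀ (q : Nm), q ∉ A.vars → ∀ φ : Fm, q ∉ φ.vars → r q ∉ (φ.subst s).vars := by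
    intro q hq φ hφ hc
    obtain ⟨y, hy, hyv⟩ := vars_subst hc
    exact hr q hq y (by rintro rfl; exact hφ hy) hyv
  induction h with
  | nil => exact NarrowDeriv.nil
  | @rule π L B i σ h1 h2 h3 h4 ih =>
    rw [List.map_append, List.map_cons, List.map_nil]
    refine NarrowDeriv.rule i (σ.map (Fm.subst s)) ih ?_ (h3.subst hr h1.not_mem)
      (ruleStep_subst h4 s)
    intro C hC
    obtain ⟨C', hC', rfl⟩ := List.mem_map.1 hC
    exact ⟨List.mem_map_of_mem (h2 C' hC').1, (h2 C' hC').2.subst hr h1.not_mem⟩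
  | @ext π L q φ i h1 h3 h4 h5 h6 ih =>
    have hn := (NarrowDeriv.ext i h1 h3 h4 h5 h6).not_mem
    have h7 := h6.subst hr hn
    have e : (Fm.iff (Fm.var q) φ).subst s = Fm.iff (Fm.var (r q)) (φ.subst s) := by
      simp only [Fm.iff, Fm.subst, hs q h5]
    rw [List.map_append, List.map_cons, List.map_nil] at h7 ⊢
    rw [e] at h7 ⊢
    rw [List.map_append, List.map_cons, List.map_nil]
    refine NarrowDeriv.ext i ih (hv q h5 φ h3) ?_ (hv q h5 A h5) h7
    intro C hC
    obtain ⟨C', hC', rfl⟩ := List.mem_map.1 hC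
    exact hv q h5 C' (h4 C' hC')

/-- Extended Frege with bounded bandwidth is p-closed under substitutions given by tables. -/
theorem narrow_subst (F : List Rule) : ∃ g : List (Nm × Fm) × List Fm → List Fm, Poly g ∧
    ∀ (A : Fm) (b : ℕ) (π : List Fm) (t : List (Nm × Fm)), NarrowProof F A b π →
      NarrowProof F (A.subst (tsub t)) b (g (t, π)) := by
  refine ⟨efS, poly_efS, ?_⟩
  rintro A b π t ⟨⟨L, h1⟩, h2⟩
  have hl : lastF π = A := lastF_eq h2
  have e : efS (t, π) = π.map (Fm.subst (efT t (efL t A) A)) := by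
    rw [efS, hl]
  rw [e]
  refine ⟨⟨L.map (fun x => fn (efL t A) 0 x), ?_⟩, ?_⟩
  · rw [← efT_subst t (efL t A) A]
    refine narrow_deriv_subst (r := fun x => fn (efL t A) 0 x) ?_ ?_ h1
    · intro x hx
      rw [efT, if_neg (fun h => hx (mem_nms.1 h))]
    · intro x _ y hy hc
      unfold efT at hc
      split_ifs at hc with h3
      · have h4 := efL_spec (mem_nms.1 h3) hc
        have h5 := fn_length (efL t A) 0 x
        omega
      · simp only [Fm.vars, Set.mem_singleton_iff] at hc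
        exact hy (fn_inj hc).2.symm
  · rw [List.getLast?_map, h2, Option.map_some, efT_subst]

end Pool.Agent.H.MP_0447ec_lc.PS
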