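import Pool.Agent.H.MP_0447ec_lc.LV.EnginePoly

/-!
# From the padded formula to a disjunction of disjoint copies

`padX L A l` (PS/Alg.lean) is `I_K ∨ (... ∨ (I_1 ∨ A))`, `I_k = (q_k ↔ q_k')`,
`q_k = (l[k-1]).1`, `q_k' = nf L q_k` (see `padX_snoc`). Put `A^k = A.subst (var ∘ fn M k)`.
Let `d = fn M 0 []` (all names here of length at most `M` are different from `d`, from the names
`fn M k _`, `k ≥ 1`, and these are different for different `k`, `fn_inj`, `fn_length`).

1. `imp (ct d true) (padX L A l)` (`Rich.weaken`), then `K` times `Rich.orOut`: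
   `imp (cj d (¬I_1, ..., ¬I_K)) A =: Q_0` (the first one peeled off is `I_K`, and it is the
   innermost conjunct; `cj d` is right nested).
2. `Q_k := imp (cj d (¬A^1, ..., ¬A^k, ¬I_{k+1}, ..., ¬I_K)) A` from `Q_{k-1}`: let `Hk` be its
   hypothesis, `p_1, ..., p_n` the different variables of `A^k` (`dd (nms A)` mapped by
   `fn M k`; `dd` is in PS/Sim). `E_j := iff (var p_1) (var p_j)`, `j = 2..n`,
   `X_j := and E_{j+1} (and E_{j+2} (... (and E_n Hk)))`, `X_n = Hk`.
   (a) `imp X_1 A`: under `X_1` (all `E_j` hold): lines `projL X_1`; `imp X_1 (iff (var p_1) (var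
   p_1))`, `imp X_1 (iff (var p_j) (var p_1))` (`Rich.iffSymm`), `replL X_1 A^k var (fun _ => var
   p_1)`: `imp X_1 (iff A^k A')`, `A' = A.subst (fun _ => var p_1)`; `imp X_1 A'` is derived from
   `imp (ct d true) (ct d true)` by `li` to `imp (and (var p_1) X_1) A'` and to
   `imp (and (neg (var p_1)) X_1) A'` (`sm_eval`: `A'` is true when its only variable is known, as
   `A` is a tautology) and `Rich.cases`; then `imp X_1 A^k` (`Rich.iffMp` with `iffSymm`),
   `imp X_1 (neg A^k)` (projection), `imp X_1 A` (`Rich.absurd`).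
   (b) for `j = 2, ..., n`: `imp X_j A` from `imp (and E_j X_j) A` (which is `imp X_{j-1} A`) and
   `imp (and (neg E_j) X_j) A` by `Rich.cases`. The second one: `li` from `Q_{k-1}` to
   `imp (and (ct p_1 true) (and (ct p_j true) H_{k-1})) A` (`H_{k-1}` the hypothesis of
   `Q_{k-1}`), permutation `(q_k p_1)(q_k' p_j)` (PermStep; all four variables occur; they do not
   occur in `A`, in the `A^i`, `i < k`, in the `I_i`, `i > k`; `d` is not moved), then `li` to
   `imp (and (neg E_j) X_j) A`: the hypotheses of the permuted line are `ct q_k true`,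
   `ct q_k' true`, `¬A^i` (members), `neg (iff (var p_1) (var p_j))` (member), `¬I_i`
   (members); `sm K A = sm K A` trivially.
3. From `Q_K = imp (cj d (¬A^1, ..., ¬A^K)) A` by `K` times `Rich.orIn`:
   `imp (ct d true) (A^K ∨ (... (A^1 ∨ A)))`, then `Rich.strip`.
-/

namespace Pool.Agent.H.MP_0447ec_lc.PS

open Fm

/-- The copy of `A` with number `k`. -/
def cpy (M k : ℕ) (A : Fm) : Fm := A.subst (fun w => var (fn M k w))

/-- The disjunction of `A` and its first `K` copies. -/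
def cpyD (M : ℕ) (A : Fm) : ℕ → Fm
  | 0 => A
  | k + 1 => Fm.or (cpy M (k + 1) A) (cpyD M A k)

/-! ### Small tools -/

theorem cp_lift {G : List Rule} {π σ : List Fm} (h : Just (RuleStep G) π σ) :
    Just (FP G) π σ := Just.imp_step h (fun _ _ h => Or.inl h)

theorem cp_one {G : List Rule} {π : List Fm} {B : Fm} (h : RuleStep G π B) :
    Just (RuleStep G) π [B] := ⟨Or.inr h, trivial⟩

theorem cp_oneF {G : List Rule} {π : List Fm} {B : Fm} (h : RuleStep G π B) :
    Just (FP G) π [B] := ⟨Or.inr (Or.inl h), trivial⟩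

theorem cp_map {step : List Fm → Fm → Prop} (hm : Mono step) {α : Type} (f : α → Fm) :
    ∀ (l : List α) (π : List Fm), (∀ x ∈ l, f x ∈ π ∨ step π (f x)) → Just step π (l.map f) := by
  intro l
  induction l with
  | nil => intro _ _; trivial
  | cons x l ih =>
    intro π h
    refine ⟨h x (by simp), ih _ ?_⟩
    intro y hy
    rcases h y (List.mem_cons_of_mem _ hy) with h1 | h1
    · exact Or.inl (List.mem_append_left _ h1)
    · exact Or.inr (hm _ _ _ (fun C hC => List.mem_append_left _ hC) h1)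

theorem cp_exists_var (A : Fm) : ∃ x, x ∈ A.vars := by
  induction A with
  | var w => exact ⟨w, rfl⟩
  | neg A ih => exact ih
  | and A B ih _ => obtain ⟨x, hx⟩ := ih; exact ⟨x, Or.inl hx⟩
  | or A B ih _ => obtain ⟨x, hx⟩ := ih; exact ⟨x, Or.inl hx⟩
  | imp A B ih _ => obtain ⟨x, hx⟩ := ih; exact ⟨x, Or.inl hx⟩

theorem cp_vars_subst {A : Fm} {g : Nm → Nm} {x : Nm}
    (h : x ∈ (A.subst (fun w => var (g w))).vars) : ∃ y ∈ A.vars, x = g y := by
  induction A with
  | var w => exact ⟨w, rfl, h⟩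
  | neg A ih => exact ih h
  | and A B ih1 ih2 =>
    rcases h with h | h
    · obtain ⟨y, hy, e⟩ := ih1 h; exact ⟨y, Or.inl hy, e⟩
    · obtain ⟨y, hy, e⟩ := ih2 h; exact ⟨y, Or.inr hy, e⟩
  | or A B ih1 ih2 =>
    rcases h with h | h
    · obtain ⟨y, hy, e⟩ := ih1 h; exact ⟨y, Or.inl hy, e⟩
    · obtain ⟨y, hy, e⟩ := ih2 h; exact ⟨y, Or.inr hy, e⟩
  | imp A B ih1 ih2 =>
    rcases h with h | h
    · obtain ⟨y, hy, e⟩ := ih1 h; exact ⟨y, Or.inl hy, e⟩
    · obtain ⟨y, hy, e⟩ := ih2 h; exact ⟨y, Or.inr hy, e⟩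

theorem cp_cj_subst {d : Nm} {s : Nm → Fm} (hd : s d = var d) (Γ : List Fm) :
    (cj d Γ).subst s = cj d (Γ.map (Fm.subst s)) := by
  induction Γ with
  | nil => simp [cj_nil, ct, Fm.subst, hd]
  | cons A Γ ih => rw [cj_cons, List.map_cons, cj_cons, ← ih]; rfl

/-! ### A tautology with one variable -/

/-- Lines that derive the tautology `A'` with the only variable `p1`. -/
def cpOne (d p1 : Nm) (A' : Fm) : List Fm :=
  [imp (ct d true) (ct d true)] ++
    (li (Fm.and (lit p1 true) (ct d true)) (ct d true) (ct d true) A' ++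
      (li (Fm.and (lit p1 false) (ct d true)) (ct d true) (ct d true) A' ++
        [imp (ct d true) A', A']))

theorem cpOne_just {G : List Rule} (hG : Rich G) {d p1 : Nm} {A' : Fm}
    (hv : ∀ x ∈ A'.vars, x = p1) (ht : ∀ v : Nm → Prop, A'.Eval v) (π : List Fm) :
    Just (RuleStep G) π (cpOne d p1 A') ∧ A' ∈ cpOne d p1 A' := by
  have hsm : ∀ b : Bool, sm (litsOf (Fm.and (lit p1 b) (ct d true))) (ct d true) =
      sm (litsOf (Fm.and (lit p1 b) (ct d true))) A' := by
    intro b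
    rw [sm_ct]
    symm
    apply sm_eval (v := fun _ => b)
    · intro x hx
      rw [hv x hx]
      have : litsOf (Fm.and (lit p1 b) (ct d true)) = [(p1, b)] := by
        cases b <;> simp [litsOf, ands, lit, ct, litOf]
      rw [this]
      simp [lk]
    · simp [ht]
  refine ⟨?_, by simp [cpOne]⟩
  unfold cpOne
  refine Just.append (cp_one hG.refl) ?_
  obtain ⟨j1, m1⟩ := li_just hG (H := Fm.and (lit p1 true) (ct d true)) (H' := ct d true)
    (A := ct d true) (B := A') (π := π ++ [imp (ct d true) (ct d true)]) (by simp)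
    (okH_ct _ _) (hsm true)
  refine Just.append j1 ?_
  obtain ⟨j2, m2⟩ := li_just hG (H := Fm.and (lit p1 false) (ct d true)) (H' := ct d true)
    (A := ct d true) (B := A') (π := π ++ [imp (ct d true) (ct d true)] ++
      li (Fm.and (lit p1 true) (ct d true)) (ct d true) (ct d true) A') (by simp)
    (okH_ct _ _) (hsm false)
  refine Just.append j2 ⟨Or.inr (hG.cases (A := var p1) ?_ ?_), Or.inr ?_, trivial⟩
  · exact List.mem_append_left _ (List.mem_append_right _ m1)
  · exact List.mem_append_right _ m2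
  · exact hG.strip (H := var d) (List.mem_append_right _ (by simp [ct]))

/-! ### The case in which all variables of the copy are equivalent -/

/-- The equivalence of two variables. -/
def cpE (p1 p : Nm) : Fm := Fm.iff (var p1) (var p)

/-- The hypothesis `H` together with equivalences. -/
def cpX (d : Nm) (H : Fm) (p1 : Nm) (r : List Nm) : Fm := Fm.and (cj d (r.map (cpE p1))) H

theorem cpX_mem {d : Nm} {H : Fm} {p1 : Nm} {r : List Nm} {C : Fm} (h : C ∈ ands H) :
    C ∈ ands (cpX d H p1 r) := by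
  unfold cpX
  simp only [ands, List.mem_cons, List.mem_append]
  exact Or.inr (Or.inr h)

theorem cpX_memE {d : Nm} {H : Fm} {p1 p : Nm} {r : List Nm} (h : p ∈ r) :
    cpE p1 p ∈ ands (cpX d H p1 r) := by
  unfold cpX
  simp only [ands, List.mem_cons, List.mem_append]
  exact Or.inr (Or.inl (mem_ands_cj (List.mem_map_of_mem h) (self_mem_ands _)))

/-- Lines that derive `imp (cpX d H p1 rest) A` when the negated copy is a conjunct of `H`. -/
def cpA (d : Nm) (M k : ℕ) (A H : Fm) (p1 : Nm) (rest : List Nm) : List Fm :=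
  cpOne d p1 (A.subst (fun _ => var p1)) ++ (projL (cpX d H p1 rest) ++
    ([imp (cpX d H p1 rest) (Fm.iff (var p1) (var p1))] ++
      (rest.map (fun p => imp (cpX d H p1 rest) (Fm.iff (var p) (var p1))) ++
        (replL (cpX d H p1 rest) A (fun w => var (fn M k w)) (fun _ => var p1) ++
          [imp (cpX d H p1 rest) (Fm.iff (A.subst (fun _ => var p1)) (cpy M k A)),
            imp (cpX d H p1 rest) (A.subst (fun _ => var p1)),
            imp (cpX d H p1 rest) (cpy M k A), imp (cpX d H p1 rest) A]))))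

theorem cpA_just {G : List Rule} (hG : Rich G) {d : Nm} {M k : ℕ} {A H : Fm} {p1 : Nm}
    {rest : List Nm} (hB : neg (cpy M k A) ∈ ands H)
    (hv : ∀ x ∈ A.vars, fn M k x = p1 ∨ fn M k x ∈ rest) (ht : ∀ v : Nm → Prop, A.Eval v)
    (π : List Fm) : Just (RuleStep G) π (cpA d M k A H p1 rest) ∧
      imp (cpX d H p1 rest) A ∈ cpA d M k A H p1 rest := by
  refine ⟨?_, by simp [cpA]⟩
  unfold cpA
  obtain ⟨j1, m1⟩ := cpOne_just hG (d := d) (p1 := p1) (A' := A.subst (fun _ => var p1))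
    (by
      intro x hx
      obtain ⟨_, _, e⟩ := cp_vars_subst (g := fun _ => p1) hx
      exact e)
    (by intro v; rw [Fm.eval_subst]; exact ht _) π
  refine Just.append j1 (Just.append (projL_just hG _ _) (Just.append (cp_one hG.iffRefl) ?_))
  refine Just.append (cp_map (mono_ruleStep G) _ _ _ ?_) ?_
  · intro p hp
    refine Or.inr (hG.iffSymm ?_)
    refine List.mem_append_left _ (List.mem_append_right _ (mem_projL ?_))
    exact cpX_memE hp
  obtain ⟨j2, m2⟩ := replL_just hG (cpX d H p1 rest) (fun w => var (fn M k w))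
    (fun _ => var p1) A (π ++ cpOne d p1 (A.subst (fun _ => var p1)) ++
      projL (cpX d H p1 rest) ++ [imp (cpX d H p1 rest) (Fm.iff (var p1) (var p1))] ++
      rest.map (fun p => imp (cpX d H p1 rest) (Fm.iff (var p) (var p1)))) (by
    intro x hx
    rcases hv x hx with h | h
    · show imp _ (Fm.iff (var (fn M k x)) (var p1)) ∈ _
      rw [h]
      exact List.mem_append_left _ (List.mem_append_right _ (by simp))
    · exact List.mem_append_right _ (List.mem_map_of_mem
        (f := fun p => imp (cpX d H p1 rest) (Fm.iff (var p) (var p1))) h))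
  refine Just.append j2 ?_
  have n1 : A.subst (fun _ => var p1) ∈ π ++ cpOne d p1 (A.subst (fun _ => var p1)) ++
      projL (cpX d H p1 rest) ++ [imp (cpX d H p1 rest) (Fm.iff (var p1) (var p1))] ++
      rest.map (fun p => imp (cpX d H p1 rest) (Fm.iff (var p) (var p1))) ++
      replL (cpX d H p1 rest) A (fun w => var (fn M k w)) (fun _ => var p1) := by
    simp only [List.mem_append]
    exact Or.inl (Or.inl (Or.inl (Or.inl (Or.inr m1))))
  have n2 : imp (cpX d H p1 rest) (neg (cpy M k A)) ∈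
      π ++ cpOne d p1 (A.subst (fun _ => var p1)) ++
      projL (cpX d H p1 rest) ++ [imp (cpX d H p1 rest) (Fm.iff (var p1) (var p1))] ++
      rest.map (fun p => imp (cpX d H p1 rest) (Fm.iff (var p) (var p1))) ++
      replL (cpX d H p1 rest) A (fun w => var (fn M k w)) (fun _ => var p1) := by
    simp only [List.mem_append]
    exact Or.inl (Or.inl (Or.inl (Or.inr (mem_projL (cpX_mem hB)))))
  have n3 := List.mem_append_right
    (π ++ cpOne d p1 (A.subst (fun _ => var p1)) ++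
      projL (cpX d H p1 rest) ++ [imp (cpX d H p1 rest) (Fm.iff (var p1) (var p1))] ++
      rest.map (fun p => imp (cpX d H p1 rest) (Fm.iff (var p) (var p1)))) m2
  generalize π ++ cpOne d p1 (A.subst (fun _ => var p1)) ++
      projL (cpX d H p1 rest) ++ [imp (cpX d H p1 rest) (Fm.iff (var p1) (var p1))] ++
      rest.map (fun p => imp (cpX d H p1 rest) (Fm.iff (var p) (var p1))) ++
      replL (cpX d H p1 rest) A (fun w => var (fn M k w)) (fun _ => var p1) = σ at n1 n2 n3
  refine ⟨Or.inr (hG.iffSymm n3), Or.inr (hG.weaken (List.mem_append_left _ n1)),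
    Or.inr (hG.iffMp (A := A.subst (fun _ => var p1)) ?_ ?_),
    Or.inr (hG.absurd (A := cpy M k A) ?_ ?_), trivial⟩
  · simp
  · simp
  · simp
  · exact List.mem_append_left _ (List.mem_append_left _ (List.mem_append_left _ n2))

/-! ### The case in which two variables of the copy are not equivalent -/

/-- Lines that derive `imp (cpX d H p1 r) A` from `imp (cpX d H p1 (p :: r)) A`. -/
def cpB (d q q' : Nm) (A : Fm) (Γ1 Γ2 : List Fm) (H : Fm) (p1 p : Nm) (r : List Nm) : List Fm :=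
  li (Fm.and (ct p1 true) (Fm.and (ct p true)
      (cj d (Γ1 ++ neg (Fm.iff (var q) (var q')) :: Γ2))))
    (cj d (Γ1 ++ neg (Fm.iff (var q) (var q')) :: Γ2)) A A ++
  ([imp (Fm.and (ct q true) (Fm.and (ct q' true) (cj d (Γ1 ++ neg (cpE p1 p) :: Γ2)))) A] ++
  (li (Fm.and (neg (cpE p1 p)) (cpX d H p1 r))
    (Fm.and (ct q true) (Fm.and (ct q' true) (cj d (Γ1 ++ neg (cpE p1 p) :: Γ2)))) A A ++
  (li (Fm.and (cpE p1 p) (cpX d H p1 r)) (cpX d H p1 (p :: r)) A A ++
    [imp (cpX d H p1 r) A])))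

theorem cpB_just {G : List Rule} (hG : Rich G) {d q q' : Nm} {A : Fm} {Γ1 Γ2 : List Fm}
    {H : Fm} {p1 p : Nm} {r : List Nm} {π : List Fm}
    (h0 : imp (cj d (Γ1 ++ neg (Fm.iff (var q) (var q')) :: Γ2)) A ∈ π)
    (h1 : imp (cpX d H p1 (p :: r)) A ∈ π)
    (hH1 : ∀ C ∈ Γ1, C ∈ ands H) (hH2 : ∀ C ∈ Γ2, C ∈ ands H)
    (d1 : d ≠ q) (d2 : d ≠ q') (d3 : d ≠ p1) (d4 : d ≠ p)
    (e1 : q ≠ q') (e2 : q ≠ p1) (e3 : q ≠ p) (e4 : q' ≠ p1) (e5 : q' ≠ p) (e6 : p1 ≠ p)
    (hv : ∀ C, (C ∈ Γ1 ∨ C ∈ Γ2 ∨ C = A) →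
      q ∉ C.vars ∧ q' ∉ C.vars ∧ p1 ∉ C.vars ∧ p ∉ C.vars) :
    Just (FP G) π (cpB d q q' A Γ1 Γ2 H p1 p r) ∧
      imp (cpX d H p1 r) A ∈ cpB d q q' A Γ1 Γ2 H p1 p r := by
  refine ⟨?_, by simp [cpB]⟩
  unfold cpB
  obtain ⟨j1, m1⟩ := li_just hG
    (H := Fm.and (ct p1 true) (Fm.and (ct p true)
      (cj d (Γ1 ++ neg (Fm.iff (var q) (var q')) :: Γ2))))
    (H' := cj d (Γ1 ++ neg (Fm.iff (var q) (var q')) :: Γ2)) (A := A) (B := A) h0
    (okH_of_mem (by simp [ands, self_mem_ands])) rfl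
  refine Just.append (cp_lift j1) ?_
  -- the permutation
  let ρ : Equiv.Perm Nm := Equiv.swap p1 q * Equiv.swap p q'
  have r0 : ∀ x, x ≠ p1 → x ≠ q → x ≠ p → x ≠ q' → ρ x = x := by
    intro x x1 x2 x3 x4
    show Equiv.swap p1 q (Equiv.swap p q' x) = x
    rw [Equiv.swap_apply_of_ne_of_ne x3 x4, Equiv.swap_apply_of_ne_of_ne x1 x2]
  have r1 : ρ p1 = q := by
    show Equiv.swap p1 q (Equiv.swap p q' p1) = q
    rw [Equiv.swap_apply_of_ne_of_ne e6 e4.symm, Equiv.swap_apply_left]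
  have r2 : ρ q = p1 := by
    show Equiv.swap p1 q (Equiv.swap p q' q) = p1
    rw [Equiv.swap_apply_of_ne_of_ne e3 e1, Equiv.swap_apply_right]
  have r3 : ρ p = q' := by
    show Equiv.swap p1 q (Equiv.swap p q' p) = q'
    rw [Equiv.swap_apply_left, Equiv.swap_apply_of_ne_of_ne e4 e1.symm]
  have r4 : ρ q' = p := by
    show Equiv.swap p1 q (Equiv.swap p q' q') = p
    rw [Equiv.swap_apply_right, Equiv.swap_apply_of_ne_of_ne e6.symm e3.symm]
  have r5 : ρ d = d := r0 d d3 d1 d4 d2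
  have hself : ∀ C, (C ∈ Γ1 ∨ C ∈ Γ2 ∨ C = A) → C.subst (fun w => var (ρ w)) = C := by
    intro C hC
    obtain ⟨v1, v2, v3, v4⟩ := hv C hC
    apply Fm.subst_eq_self
    intro x hx
    show var (ρ x) = var x
    rw [r0 x (fun e => v3 (e ▸ hx)) (fun e => v1 (e ▸ hx)) (fun e => v4 (e ▸ hx))
      (fun e => v2 (e ▸ hx))]
  have hmap1 : Γ1.map (Fm.subst (fun w => var (ρ w))) = Γ1 := by
    conv_rhs => rw [← List.map_id Γ1]
    exact List.map_congr_left (fun C hC => hself C (Or.inl hC))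
  have hmap2 : Γ2.map (Fm.subst (fun w => var (ρ w))) = Γ2 := by
    conv_rhs => rw [← List.map_id Γ2]
    exact List.map_congr_left (fun C hC => hself C (Or.inr (Or.inl hC)))
  have hperm : imp (Fm.and (ct q true) (Fm.and (ct q' true)
      (cj d (Γ1 ++ neg (cpE p1 p) :: Γ2)))) A =
      (imp (Fm.and (ct p1 true) (Fm.and (ct p true)
        (cj d (Γ1 ++ neg (Fm.iff (var q) (var q')) :: Γ2)))) A).subst
          (fun w => var (ρ w)) := by
    have a1 : (cj d (Γ1 ++ neg (Fm.iff (var q) (var q')) :: Γ2)).subst (fun w => var (ρ w)) =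
        cj d (Γ1 ++ neg (cpE p1 p) :: Γ2) := by
      rw [cp_cj_subst (by rw [r5]), List.map_append, List.map_cons, hmap1, hmap2]
      simp only [Fm.iff, Fm.subst, r2, r4, cpE]
    simp only [Fm.subst, a1, hself A (Or.inr (Or.inr rfl)), ct, if_true, r1, r3]
  have jp : Just (FP G) (π ++ li (Fm.and (ct p1 true) (Fm.and (ct p true)
      (cj d (Γ1 ++ neg (Fm.iff (var q) (var q')) :: Γ2))))
      (cj d (Γ1 ++ neg (Fm.iff (var q) (var q')) :: Γ2)) A A)
      [imp (Fm.and (ct q true) (Fm.and (ct q' true)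
        (cj d (Γ1 ++ neg (cpE p1 p) :: Γ2)))) A] := by
    refine ⟨Or.inr (Or.inr ⟨_, List.mem_append_right _ m1, ρ, ?_, hperm⟩), trivial⟩
    intro x hx
    have hcjv : ∀ C ∈ Γ1 ++ neg (Fm.iff (var q) (var q')) :: Γ2, ∀ z ∈ C.vars,
        z ∈ (cj d (Γ1 ++ neg (Fm.iff (var q) (var q')) :: Γ2)).vars := by
      generalize Γ1 ++ neg (Fm.iff (var q) (var q')) :: Γ2 = Γ
      intro C hC z hz
      induction Γ with
      | nil => simp at hC
      | cons D Γ ih =>
        rw [cj_cons]
        rcases List.mem_cons.1 hC with rfl | hC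
        · exact Or.inl hz
        · exact Or.inr (ih hC)
    have hn : ∀ z ∈ (neg (Fm.iff (var q) (var q'))).vars,
        z ∈ (cj d (Γ1 ++ neg (Fm.iff (var q) (var q')) :: Γ2)).vars :=
      hcjv _ (by simp)
    have x1 : x ≠ p1 := by
      rintro rfl
      exact hx (Or.inl (Or.inl (by simp [ct, Fm.vars])))
    have x2 : x ≠ p := by
      rintro rfl
      exact hx (Or.inl (Or.inr (Or.inl (by simp [ct, Fm.vars]))))
    have x3 : x ≠ q := by
      rintro rfl
      exact hx (Or.inl (Or.inr (Or.inr (hn _ (by simp [Fm.iff, Fm.vars])))))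
    have x4 : x ≠ q' := by
      rintro rfl
      exact hx (Or.inl (Or.inr (Or.inr (hn _ (by simp [Fm.iff, Fm.vars])))))
    exact r0 x x1 x3 x2 x4
  refine Just.append jp ?_
  obtain ⟨j2, m2⟩ := li_just hG
    (H := Fm.and (neg (cpE p1 p)) (cpX d H p1 r))
    (H' := Fm.and (ct q true) (Fm.and (ct q' true) (cj d (Γ1 ++ neg (cpE p1 p) :: Γ2))))
    (A := A) (B := A)
    (π := π ++ li (Fm.and (ct p1 true) (Fm.and (ct p true)
      (cj d (Γ1 ++ neg (Fm.iff (var q) (var q')) :: Γ2))))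
      (cj d (Γ1 ++ neg (Fm.iff (var q) (var q')) :: Γ2)) A A ++
      [imp (Fm.and (ct q true) (Fm.and (ct q' true)
        (cj d (Γ1 ++ neg (cpE p1 p) :: Γ2)))) A]) (by simp)
    (by
      rw [okH_and, okH_and, okH_cj]
      refine ⟨okH_ct _ _, okH_ct _ _, ?_⟩
      intro C hC
      apply okH_of_mem
      simp only [ands, List.mem_cons, List.mem_append]
      rcases List.mem_append.1 hC with hC | hC
      · exact Or.inr (Or.inr (cpX_mem (hH1 C hC)))
      · rcases List.mem_cons.1 hC with rfl | hC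
        · exact Or.inr (Or.inl (by simp))
        · exact Or.inr (Or.inr (cpX_mem (hH2 C hC)))) rfl
  refine Just.append (cp_lift j2) ?_
  obtain ⟨j3, m3⟩ := li_just hG
    (H := Fm.and (cpE p1 p) (cpX d H p1 r)) (H' := cpX d H p1 (p :: r)) (A := A) (B := A)
    (π := π ++ li (Fm.and (ct p1 true) (Fm.and (ct p true)
      (cj d (Γ1 ++ neg (Fm.iff (var q) (var q')) :: Γ2))))
      (cj d (Γ1 ++ neg (Fm.iff (var q) (var q')) :: Γ2)) A A ++
      [imp (Fm.and (ct q true) (Fm.and (ct q' true)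
        (cj d (Γ1 ++ neg (cpE p1 p) :: Γ2)))) A] ++
      li (Fm.and (neg (cpE p1 p)) (cpX d H p1 r))
        (Fm.and (ct q true) (Fm.and (ct q' true)
          (cj d (Γ1 ++ neg (cpE p1 p) :: Γ2)))) A A)
    (List.mem_append_left _ (List.mem_append_left _ (List.mem_append_left _ h1)))
    (by
      show okH _ (Fm.and (cj d ((p :: r).map (cpE p1))) H)
      rw [okH_and, okH_cj]
      refine ⟨?_, okH_of_mem ?_⟩
      · intro C hC
        obtain ⟨p', hp', rfl⟩ := List.mem_map.1 hC
        apply okH_of_mem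
        rcases List.mem_cons.1 hp' with rfl | hp'
        · simp only [ands, List.mem_cons, List.mem_append]
          exact Or.inr (Or.inl (self_mem_ands _))
        · simp only [ands, List.mem_cons, List.mem_append]
          exact Or.inr (Or.inr (cpX_memE hp'))
      · simp only [ands, List.mem_cons, List.mem_append]
        exact Or.inr (Or.inr (cpX_mem (self_mem_ands _)))) rfl
  refine Just.append (cp_lift j3) (cp_oneF (hG.cases (A := cpE p1 p) ?_ ?_))
  · exact List.mem_append_right _ m3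
  · exact List.mem_append_left _ (List.mem_append_right _ m2)

theorem cpBs_just {G : List Rule} (hG : Rich G) {d q q' : Nm} {A : Fm} {Γ1 Γ2 : List Fm}
    {H : Fm} {p1 : Nm} (hH1 : ∀ C ∈ Γ1, C ∈ ands H) (hH2 : ∀ C ∈ Γ2, C ∈ ands H)
    (d1 : d ≠ q) (d2 : d ≠ q') (d3 : d ≠ p1) (e1 : q ≠ q') (e2 : q ≠ p1) (e4 : q' ≠ p1)
    (hv : ∀ C, (C ∈ Γ1 ∨ C ∈ Γ2 ∨ C = A) → q ∉ C.vars ∧ q' ∉ C.vars ∧ p1 ∉ C.vars) :
    ∀ (rest pre : List Nm) (π : List Fm),
    (∀ p ∈ rest, d ≠ p ∧ q ≠ p ∧ q' ≠ p ∧ p1 ≠ p ∧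
      ∀ C, (C ∈ Γ1 ∨ C ∈ Γ2 ∨ C = A) → p ∉ C.vars) →
    imp (cj d (Γ1 ++ neg (Fm.iff (var q) (var q')) :: Γ2)) A ∈ π →
    imp (cpX d H p1 rest) A ∈ π →
    Just (FP G) π ((sp pre rest).flatMap
      (fun x => cpB d q q' A Γ1 Γ2 H p1 x.2.1 x.2.2)) ∧
    imp (cpX d H p1 []) A ∈ π ++ (sp pre rest).flatMap
      (fun x => cpB d q q' A Γ1 Γ2 H p1 x.2.1 x.2.2) := by
  intro rest
  induction rest with
  | nil =>
    intro pre π _ _ h1
    exact ⟨trivial, List.mem_append_left _ h1⟩
  | cons p r ih =>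
    intro pre π hp h0 h1
    obtain ⟨a1, a2, a3, a4, a5⟩ := hp p (by simp)
    obtain ⟨j1, m1⟩ := cpB_just hG (r := r) h0 h1 hH1 hH2 d1 d2 d3 a1 e1 e2 a2 e4 a3 a4
      (fun C hC => ⟨(hv C hC).1, (hv C hC).2.1, (hv C hC).2.2, a5 C hC⟩)
    rw [sp, List.flatMap_cons]
    obtain ⟨j2, m2⟩ := ih (pre ++ [p]) (π ++ cpB d q q' A Γ1 Γ2 H p1 p r)
      (fun p' hp' => hp p' (List.mem_cons_of_mem _ hp')) (List.mem_append_left _ h0)
      (List.mem_append_right _ m1)
    refine ⟨Just.append j1 j2, ?_⟩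
    rw [← List.append_assoc]
    exact m2

/-- Lines that replace the hypothesis `¬(q ↔ q')` by the negation of copy `k`. -/
def cpS (d q q' : Nm) (M k : ℕ) (A : Fm) (Γ1 Γ2 : List Fm) : List Fm :=
  cpA d M k A (cj d (Γ1 ++ neg (cpy M k A) :: Γ2)) (fn M k ((dd (nms A)).headD []))
    ((dd (nms A)).tail.map (fn M k)) ++
  ((sp [] ((dd (nms A)).tail.map (fn M k))).flatMap
    (fun x => cpB d q q' A Γ1 Γ2 (cj d (Γ1 ++ neg (cpy M k A) :: Γ2))
      (fn M k ((dd (nms A)).headD [])) x.2.1 x.2.2) ++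
  li (cj d (Γ1 ++ neg (cpy M k A) :: Γ2))
    (cpX d (cj d (Γ1 ++ neg (cpy M k A) :: Γ2)) (fn M k ((dd (nms A)).headD [])) []) A A)

theorem cpS_just {G : List Rule} (hG : Rich G) {d q q' : Nm} {M k : ℕ} {A : Fm}
    {Γ1 Γ2 : List Fm} {π : List Fm} (ht : ∀ v : Nm → Prop, A.Eval v)
    (d1 : d ≠ q) (d2 : d ≠ q') (e1 : q ≠ q')
    (hv : ∀ C, (C ∈ Γ1 ∨ C ∈ Γ2 ∨ C = A) → q ∉ C.vars ∧ q' ∉ C.vars)
    (hf : ∀ x : Nm, d ≠ fn M k x ∧ q ≠ fn M k x ∧ q' ≠ fn M k x ∧
      ∀ C, (C ∈ Γ1 ∨ C ∈ Γ2 ∨ C = A) → fn M k x ∉ C.vars)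
    (h0 : imp (cj d (Γ1 ++ neg (Fm.iff (var q) (var q')) :: Γ2)) A ∈ π) :
    Just (FP G) π (cpS d q q' M k A Γ1 Γ2) ∧
      imp (cj d (Γ1 ++ neg (cpy M k A) :: Γ2)) A ∈ cpS d q q' M k A Γ1 Γ2 := by
  have hmem : ∀ C ∈ Γ1 ++ neg (cpy M k A) :: Γ2,
      C ∈ ands (cj d (Γ1 ++ neg (cpy M k A) :: Γ2)) := fun C hC =>
    mem_ands_cj hC (self_mem_ands C)
  obtain ⟨x0, hx0⟩ := cp_exists_var A
  have hne : dd (nms A) ≠ [] := by
    intro h
    have := mem_dd.2 (mem_nms.2 hx0)
    rw [h] at this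
    simp at this
  obtain ⟨y, ys, hy⟩ : ∃ y ys, dd (nms A) = y :: ys := List.exists_cons_of_ne_nil hne
  have hnd := nodup_dd (nms A)
  rw [hy, List.nodup_cons] at hnd
  unfold cpS
  rw [hy]
  simp only [List.headD_cons, List.tail_cons]
  obtain ⟨j1, m1⟩ := cpA_just hG (d := d) (M := M) (k := k) (A := A)
    (H := cj d (Γ1 ++ neg (cpy M k A) :: Γ2)) (p1 := fn M k y) (rest := ys.map (fn M k))
    (hmem _ (by simp))
    (by
      intro x hx
      have := mem_dd.2 (mem_nms.2 hx)
      rw [hy, List.mem_cons] at this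
      rcases this with rfl | h
      · exact Or.inl rfl
      · exact Or.inr (List.mem_map_of_mem h)) ht π
  obtain ⟨j2, m2⟩ := cpBs_just hG (d := d) (q := q) (q' := q') (A := A) (Γ1 := Γ1)
    (Γ2 := Γ2) (H := cj d (Γ1 ++ neg (cpy M k A) :: Γ2)) (p1 := fn M k y)
    (fun C hC => hmem C (by simp [hC])) (fun C hC => hmem C (by simp [hC])) d1 d2 (hf y).1 e1
    (hf y).2.1 (hf y).2.2.1
    (fun C hC => ⟨(hv C hC).1, (hv C hC).2, (hf y).2.2.2 C hC⟩)
    (ys.map (fn M k)) [] (π ++ cpA d M k A (cj d (Γ1 ++ neg (cpy M k A) :: Γ2)) (fn M k y)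
      (ys.map (fn M k)))
    (by
      intro p hp
      obtain ⟨z, hz, rfl⟩ := List.mem_map.1 hp
      refine ⟨(hf z).1, (hf z).2.1, (hf z).2.2.1, ?_, (hf z).2.2.2⟩
      intro e
      have := (fn_inj e).2
      subst this
      exact hnd.1 hz)
    (List.mem_append_left _ h0) (List.mem_append_right _ m1)
  refine ⟨?_, by simp [li]⟩
  refine Just.append (cp_lift j1) (Just.append j2 ?_)
  refine cp_lift (li_just hG m2 ?_ rfl).1
  show okH _ (Fm.and (cj d []) _)
  rw [okH_and]
  exact ⟨okH_ct _ _, okH_of_mem (self_mem_ands _)⟩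

/-! ### The three parts of the derivation -/

/-- The negated padding axiom. -/
def cpI (L : ℕ) (e : Nm × Fm) : Fm := neg (Fm.iff (var e.1) (var (nf L e.1)))

/-- The negations of the first `n` copies. -/
def cps (M n : ℕ) (A : Fm) : List Fm := (List.range n).map (fun i => neg (cpy M (i + 1) A))

theorem cps_succ (M n : ℕ) (A : Fm) : cps M (n + 1) A = cps M n A ++ [neg (cpy M (n + 1) A)] := by
  simp [cps, List.range_succ]

/-- First part: the padding axioms become hypotheses. -/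
def cpF (d : Nm) (L : ℕ) (l : List (Nm × Fm)) (A : Fm) : List Fm :=
  (sp [] l).reverse.map (fun y => imp (cj d ((y.2.1 :: y.2.2).map (cpI L))) (padX L A y.1))

theorem cpF_just {G : List Rule} (hG : Rich G) {d : Nm} {L : ℕ} {A : Fm} :
    ∀ (t pre : List (Nm × Fm)) (π : List Fm),
    imp (ct d true) (padX L A (pre ++ t)) ∈ π →
    Just (RuleStep G) π ((sp pre t).reverse.map
      (fun y => imp (cj d ((y.2.1 :: y.2.2).map (cpI L))) (padX L A y.1))) ∧
    imp (cj d (t.map (cpI L))) (padX L A pre) ∈ π ++ (sp pre t).reverse.map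
      (fun y => imp (cj d ((y.2.1 :: y.2.2).map (cpI L))) (padX L A y.1)) := by
  intro t
  induction t with
  | nil =>
    intro pre π h
    rw [List.append_nil] at h
    exact ⟨trivial, by simpa [sp, cj_nil] using h⟩
  | cons e t ih =>
    intro pre π h
    obtain ⟨j, m⟩ := ih (pre ++ [e]) π (by simpa using h)
    rw [sp, List.reverse_cons, List.map_append]
    refine ⟨Just.append j (cp_one ?_), by simp⟩
    rw [padX_snoc] at m
    exact hG.orOut m

/-- Second part: the padding axioms are replaced by negated copies. -/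
def cpM (d : Nm) (L M : ℕ) (l : List (Nm × Fm)) (A : Fm) : List Fm :=
  (sp [] l).flatMap (fun y => cpS d y.2.1.1 (nf L y.2.1.1) M (y.1.length + 1) A
    (cps M y.1.length A) (y.2.2.map (cpI L)))

theorem cpM_just {G : List Rule} (hG : Rich G) {L M : ℕ} {A : Fm}
    (hA : ∀ x ∈ A.vars, x.length < L) (hM : 2 * L ≤ M) (ht : ∀ v : Nm → Prop, A.Eval v) :
    ∀ (t pre : List (Nm × Fm)) (π : List Fm), (t.map Prod.fst).Nodup →
    (∀ e ∈ t, e.1.length < L) → (∀ e ∈ t, e.1 ∉ A.vars) →
    imp (cj (fn M 0 []) (cps M pre.length A ++ t.map (cpI L))) A ∈ π →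
    Just (FP G) π ((sp pre t).flatMap (fun y => cpS (fn M 0 []) y.2.1.1 (nf L y.2.1.1) M
      (y.1.length + 1) A (cps M y.1.length A) (y.2.2.map (cpI L)))) ∧
    imp (cj (fn M 0 []) (cps M (pre ++ t).length A)) A ∈
      π ++ (sp pre t).flatMap (fun y => cpS (fn M 0 []) y.2.1.1 (nf L y.2.1.1) M
      (y.1.length + 1) A (cps M y.1.length A) (y.2.2.map (cpI L))) := by
  intro t
  induction t with
  | nil =>
    intro pre π _ _ _ h
    refine ⟨trivial, ?_⟩
    simpa [sp] using h
  | cons e t ih =>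
    intro pre π hnd hl hnA h
    rw [List.map_cons, List.nodup_cons] at hnd
    have hlen := hl e (by simp)
    have hfl : ∀ (i : ℕ) (x : Nm), M < (fn M i x).length := fun i x => fn_length M i x
    have hd : ∀ (x : Nm), x.length ≤ M → ∀ (i : ℕ) (w : Nm), x ≠ fn M i w := by
      rintro x hx i w rfl
      have := hfl i w
      omega
    have hnfl : (nf L e.1).length ≤ M := by rw [nf_length]; omega
    have hel : e.1.length ≤ M := by omega
    -- the variables of the side formulas
    have hside : ∀ C, (C ∈ cps M pre.length A ∨ C ∈ t.map (cpI L) ∨ C = A) →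
        ∀ x ∈ C.vars, (∃ i w, 0 < i ∧ i < pre.length + 1 ∧ x = fn M i w) ∨
          (∃ e' ∈ t, x = e'.1 ∨ x = nf L e'.1) ∨ x ∈ A.vars := by
      rintro C (hC | hC | rfl) x hx
      · obtain ⟨i, hi, rfl⟩ := List.mem_map.1 hC
        rw [List.mem_range] at hi
        obtain ⟨w, _, e⟩ := cp_vars_subst (g := fn M (i + 1)) hx
        exact Or.inl ⟨i + 1, w, by omega, by omega, e⟩
      · obtain ⟨e', he', rfl⟩ := List.mem_map.1 hC
        refine Or.inr (Or.inl ⟨e', he', ?_⟩)
        simp only [cpI, Fm.iff, Fm.vars, Set.mem_union, Set.mem_singleton_iff] at hx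
        tauto
      · exact Or.inr (Or.inr hx)
    obtain ⟨j1, m1⟩ := cpS_just hG (d := fn M 0 []) (q := e.1) (q' := nf L e.1) (M := M)
      (k := pre.length + 1) (A := A) (Γ1 := cps M pre.length A) (Γ2 := t.map (cpI L)) (π := π)
      ht (hd _ hel 0 []).symm (hd _ hnfl 0 []).symm
      (by
        intro h
        have := congrArg List.length h
        rw [nf_length] at this
        omega)
      (by
        intro C hC
        constructor
        · intro hx
          rcases hside C hC _ hx with ⟨i, w, _, _, h⟩ | ⟨e', he', h | h⟩ | h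
          · exact hd _ hel i w h
          · exact hnd.1 (h ▸ List.mem_map_of_mem he')
          · have := congrArg List.length h
            rw [nf_length] at this
            omega
          · exact hnA e (by simp) h
        · intro hx
          rcases hside C hC _ hx with ⟨i, w, _, _, h⟩ | ⟨e', he', h | h⟩ | h
          · exact hd _ hnfl i w h
          · have := congrArg List.length h
            rw [nf_length] at this
            have := hl e' (List.mem_cons_of_mem _ he')
            omega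
          · exact hnd.1 (nf_inj h ▸ List.mem_map_of_mem he')
          · have := hA _ h
            rw [nf_length] at this
            omega)
      (by
        intro x
        refine ⟨?_, hd _ hel _ _, hd _ hnfl _ _, ?_⟩
        · intro h
          have := (fn_inj h).1
          omega
        · intro C hC hx
          rcases hside C hC _ hx with ⟨i, w, _, hi, h⟩ | ⟨e', he', h | h⟩ | h
          · have := (fn_inj h).1
            omega
          · have h1 := hl e' (List.mem_cons_of_mem _ he')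
            exact hd _ (by omega) _ _ h.symm
          · have h1 := hl e' (List.mem_cons_of_mem _ he')
            exact hd (nf L e'.1) (by rw [nf_length]; omega) _ _ h.symm
          · have h1 := hA _ h
            have h2 := hfl (pre.length + 1) x
            omega)
      (by simpa [cpI] using h)
    rw [sp, List.flatMap_cons]
    obtain ⟨j2, m2⟩ := ih (pre ++ [e]) (π ++ cpS (fn M 0 []) e.1 (nf L e.1) M (pre.length + 1) A
        (cps M pre.length A) (t.map (cpI L))) hnd.2
      (fun e' he' => hl e' (List.mem_cons_of_mem _ he'))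
      (fun e' he' => hnA e' (List.mem_cons_of_mem _ he'))
      (by
        rw [List.length_append, List.length_singleton, cps_succ, List.append_assoc,
          List.singleton_append]
        exact List.mem_append_right _ m1)
    refine ⟨Just.append j1 j2, ?_⟩
    rw [← List.append_assoc]
    simpa using m2

/-- Third part: the negated copies become disjuncts. -/
def cpL (d : Nm) (M K : ℕ) (A : Fm) : List Fm :=
  (List.range (K + 1)).map (fun k => imp (cj d ((cps M K A).drop k)) (cpyD M A k))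

theorem cpL_just {G : List Rule} (hG : Rich G) {d : Nm} {M K : ℕ} {A : Fm} {π : List Fm}
    (h : imp (cj d (cps M K A)) A ∈ π) :
    Just (RuleStep G) π (cpL d M K A ++ [cpyD M A K]) := by
  have key : ∀ n, n ≤ K → Just (RuleStep G) π ((List.range (n + 1)).map
      (fun k => imp (cj d ((cps M K A).drop k)) (cpyD M A k))) := by
    intro n
    induction n with
    | zero =>
      intro _
      exact ⟨Or.inl (by simpa [cpyD] using h), trivial⟩
    | succ n ih =>
      intro hn
      rw [List.range_succ, List.map_append]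
      refine Just.append (ih (by omega)) (cp_one ?_)
      apply hG.orIn
      refine List.mem_append_right _ (List.mem_map.2 ⟨n, by simp, ?_⟩)
      congr 1
      have hl : n < (cps M K A).length := by simp [cps]; omega
      rw [List.drop_eq_getElem_cons hl, cj_cons]
      simp [cps]
  refine Just.append (key K le_rfl) (cp_one (hG.strip (H := var d) ?_))
  refine List.mem_append_right _ (List.mem_map.2 ⟨K, by simp, ?_⟩)
  have : (cps M K A).drop K = [] := by
    apply List.drop_eq_nil_of_le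
    simp [cps]
  rw [this, cj_nil]
  rfl

/-! ### Polynomial time -/

section poly

open Pool.Agent.H.MP_0447ec_lc.PT

variable {α : Type} [Enc α]

@[fun_prop]
theorem Poly.cpy {M k : α → ℕ} {A : α → Fm} (hM : Poly M) (hk : Poly k) (hA : Poly A) :
    Poly (fun a => cpy (M a) (k a) (A a)) := by
  unfold PS.cpy
  exact Poly.substP (s := fun a w => Fm.var (PS.fn (M a) (k a) w)) (by fun_prop) hA

/-- The disjunction that is built from the inside. -/
def cpD (C0 : Fm) (Cs : List Fm) : Fm := Cs.foldl (fun X C => Fm.or C X) C0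

theorem sz_cpD (C0 : Fm) (Cs : List Fm) : sz (cpD C0 Cs) ≤ sz C0 + 20 * sz Cs := by
  induction Cs generalizing C0 with
  | nil => simp only [cpD, List.foldl_nil]; omega
  | cons C Cs ih =>
    have h1 := ih (Fm.or C C0)
    rw [sz_or] at h1
    rw [sz_lcons]
    have h2 : cpD C0 (C :: Cs) = cpD (Fm.or C C0) Cs := rfl
    rw [h2]
    have := sz_pos C
    omega

theorem cpyD_eq (M : ℕ) (A : Fm) (k : ℕ) :
    cpyD M A k = cpD A ((List.range k).map (fun i => cpy M (i + 1) A)) := by
  induction k with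
  | zero => rfl
  | succ k ih =>
    rw [List.range_succ, List.map_append]
    show Fm.or (cpy M (k + 1) A) (cpyD M A k) = _
    rw [ih]
    simp [cpD]

@[fun_prop]
theorem Poly.cpD {C0 : α → Fm} {Cs : α → List Fm} (h0 : Poly C0) (hs : Poly Cs) :
    Poly (fun a => cpD (C0 a) (Cs a)) := by
  unfold PS.cpD
  refine Poly.foldl (f := fun p : α × Fm × Fm => Fm.or p.2.2 p.2.1)
    (s0 := C0) (B := fun a => sz (C0 a) + 20 * sz (Cs a))
    (by fun_prop) hs h0 (h0.sz_le.add ((PBdd.const 20).mul hs.sz_le)) ?_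
  intro a l₁ l₂ h
  have h1 := sz_cpD (C0 a) l₁
  have h2 : sz l₁ ≤ sz (Cs a) := by
    rw [h]; exact sz_sublist_le (List.sublist_append_left _ _)
  have h3 : l₁.foldl (fun s b => (fun p : α × Fm × Fm => Fm.or p.2.2 p.2.1) (a, s, b)) (C0 a) =
      PS.cpD (C0 a) l₁ := rfl
  rw [h3]
  omega

@[fun_prop]
theorem Poly.cpyD {M k : α → ℕ} {A : α → Fm} (hM : Poly M) (hA : Poly A) (hk : Poly k) :
    Poly (fun a => cpyD (M a) (A a) (k a)) := by
  simp only [cpyD_eq]
  fun_prop

@[fun_prop]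
theorem Poly.cpOne {d p1 : α → Nm} {A' : α → Fm} (hd : Poly d) (hp : Poly p1) (hA : Poly A') :
    Poly (fun a => cpOne (d a) (p1 a) (A' a)) := by
  unfold PS.cpOne
  fun_prop

@[fun_prop]
theorem Poly.cpE {p1 p : α → Nm} (hp1 : Poly p1) (hp : Poly p) :
    Poly (fun a => cpE (p1 a) (p a)) := by
  unfold PS.cpE
  fun_prop

@[fun_prop]
theorem Poly.cpX {d : α → Nm} {H : α → Fm} {p1 : α → Nm} {r : α → List Nm} (hd : Poly d)
    (hH : Poly H) (hp : Poly p1) (hr : Poly r) :
    Poly (fun a => cpX (d a) (H a) (p1 a) (r a)) := by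
  unfold PS.cpX
  fun_prop

theorem Poly.cpSubst1 {p1 : α → Nm} {A : α → Fm} (hp : Poly p1) (hA : Poly A) :
    Poly (fun a => (A a).subst (fun _ => Fm.var (p1 a))) :=
  Poly.substP (s := fun a _ => Fm.var (p1 a)) (by fun_prop) hA

@[fun_prop]
theorem Poly.cpA {d : α → Nm} {M k : α → ℕ} {A H : α → Fm} {p1 : α → Nm} {r : α → List Nm}
    (hd : Poly d) (hM : Poly M) (hk : Poly k) (hA : Poly A) (hH : Poly H) (hp : Poly p1)
    (hr : Poly r) : Poly (fun a => cpA (d a) (M a) (k a) (A a) (H a) (p1 a) (r a)) := by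
  have h1 := Poly.cpSubst1 hp hA
  have h2 : Poly (fun a => PS.replL (PS.cpX (d a) (H a) (p1 a) (r a)) (A a)
      (fun w => Fm.var (PS.fn (M a) (k a) w)) (fun _ => Fm.var (p1 a))) :=
    Poly.replL (s := fun a w => Fm.var (PS.fn (M a) (k a) w)) (t := fun a _ => Fm.var (p1 a))
      (by fun_prop) hA (by fun_prop) (by fun_prop)
  have key : ∀ A' : α → Fm, Poly A' → Poly (fun a => PS.cpOne (d a) (p1 a) (A' a) ++
      (PS.projL (PS.cpX (d a) (H a) (p1 a) (r a)) ++
      ([imp (PS.cpX (d a) (H a) (p1 a) (r a)) (Fm.iff (var (p1 a)) (var (p1 a)))] ++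
      ((r a).map (fun p => imp (PS.cpX (d a) (H a) (p1 a) (r a))
        (Fm.iff (var p) (var (p1 a)))) ++
      (PS.replL (PS.cpX (d a) (H a) (p1 a) (r a)) (A a)
        (fun w => Fm.var (PS.fn (M a) (k a) w)) (fun _ => Fm.var (p1 a)) ++
      [imp (PS.cpX (d a) (H a) (p1 a) (r a)) (Fm.iff (A' a) (PS.cpy (M a) (k a) (A a))),
        imp (PS.cpX (d a) (H a) (p1 a) (r a)) (A' a),
        imp (PS.cpX (d a) (H a) (p1 a) (r a)) (PS.cpy (M a) (k a) (A a)),
        imp (PS.cpX (d a) (H a) (p1 a) (r a)) (A a)]))))) := by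
    intro A' hA'
    exact Poly.append (by fun_prop) (Poly.append (by fun_prop) (Poly.append (by fun_prop)
      (Poly.append (by fun_prop) (Poly.append h2 (by fun_prop)))))
  exact key _ h1

@[fun_prop]
theorem Poly.cpB {d q q' : α → Nm} {A : α → Fm} {Γ1 Γ2 : α → List Fm} {H : α → Fm}
    {p1 p : α → Nm} {r : α → List Nm} (hd : Poly d) (hq : Poly q) (hq' : Poly q') (hA : Poly A)
    (h1 : Poly Γ1) (h2 : Poly Γ2) (hH : Poly H) (hp1 : Poly p1) (hp : Poly p) (hr : Poly r) :
    Poly (fun a => cpB (d a) (q a) (q' a) (A a) (Γ1 a) (Γ2 a) (H a) (p1 a) (p a) (r a)) := by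
  unfold PS.cpB
  fun_prop

@[fun_prop]
theorem Poly.cpS {d q q' : α → Nm} {M k : α → ℕ} {A : α → Fm} {Γ1 Γ2 : α → List Fm}
    (hd : Poly d) (hq : Poly q) (hq' : Poly q') (hM : Poly M) (hk : Poly k) (hA : Poly A)
    (h1 : Poly Γ1) (h2 : Poly Γ2) :
    Poly (fun a => cpS (d a) (q a) (q' a) (M a) (k a) (A a) (Γ1 a) (Γ2 a)) := by
  unfold PS.cpS
  fun_prop

@[fun_prop]
theorem Poly.cpI {L : α → ℕ} {e : α → Nm × Fm} (hL : Poly L) (he : Poly e) :
    Poly (fun a => cpI (L a) (e a)) := by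
  unfold PS.cpI
  fun_prop

@[fun_prop]
theorem Poly.cps {M n : α → ℕ} {A : α → Fm} (hM : Poly M) (hn : Poly n) (hA : Poly A) :
    Poly (fun a => cps (M a) (n a) (A a)) := by
  unfold PS.cps
  fun_prop

@[fun_prop]
theorem Poly.cpF {d : α → Nm} {L : α → ℕ} {l : α → List (Nm × Fm)} {A : α → Fm} (hd : Poly d)
    (hL : Poly L) (hl : Poly l) (hA : Poly A) : Poly (fun a => cpF (d a) (L a) (l a) (A a)) := by
  unfold PS.cpF
  fun_prop

@[fun_prop]
theorem Poly.cpM {d : α → Nm} {L M : α → ℕ} {l : α → List (Nm × Fm)} {A : α → Fm} (hd : Poly d)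
    (hL : Poly L) (hM : Poly M) (hl : Poly l) (hA : Poly A) :
    Poly (fun a => cpM (d a) (L a) (M a) (l a) (A a)) := by
  unfold PS.cpM
  fun_prop

@[fun_prop]
theorem Poly.cpL {d : α → Nm} {M K : α → ℕ} {A : α → Fm} (hd : Poly d) (hM : Poly M)
    (hK : Poly K) (hA : Poly A) : Poly (fun a => cpL (d a) (M a) (K a) (A a)) := by
  unfold PS.cpL
  fun_prop

end poly

/-- The whole derivation. -/
def cpT (x : (ℕ × ℕ) × List (Nm × Fm) × Fm) : List Fm :=
  [imp (ct (fn x.1.2 0 []) true) (padX x.1.1 x.2.2 x.2.1)] ++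
    (cpF (fn x.1.2 0 []) x.1.1 x.2.1 x.2.2 ++
      (cpM (fn x.1.2 0 []) x.1.1 x.1.2 x.2.1 x.2.2 ++
        (cpL (fn x.1.2 0 []) x.1.2 x.2.1.length x.2.2 ++
          [cpyD x.1.2 x.2.2 x.2.1.length])))

theorem copies_main {G : List Rule} (hG : Rich G) :
    ∃ T : (ℕ × ℕ) × List (Nm × Fm) × Fm → List Fm, PT.Poly T ∧
    ∀ (L M : ℕ) (l : List (Nm × Fm)) (A : Fm),
      (l.map Prod.fst).Nodup → (∀ e ∈ l, e.1.length < L) → (∀ e ∈ l, e.1 ∉ A.vars) →
      (∀ x ∈ A.vars, x.length < L) → 2 * L ≤ M → (∀ v : Nm → Prop, A.Eval v) →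
      ∀ π : List Fm, padX L A l ∈ π →
        Just (FP G) π (T ((L, M), l, A)) ∧ cpyD M A l.length ∈ T ((L, M), l, A) := by
  refine ⟨cpT, by unfold cpT; fun_prop, ?_⟩
  intro L M l A hnd hl hnA hA hM ht π hπ
  refine ⟨?_, by simp [cpT]⟩
  show Just (FP G) π ([imp (ct (fn M 0 []) true) (padX L A l)] ++
    (cpF (fn M 0 []) L l A ++ (cpM (fn M 0 []) L M l A ++
      (cpL (fn M 0 []) M l.length A ++ [cpyD M A l.length]))))
  refine Just.append (cp_oneF (hG.weaken hπ)) ?_
  obtain ⟨j1, m1⟩ := cpF_just hG (d := fn M 0 []) (L := L) (A := A) l []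
    (π ++ [imp (ct (fn M 0 []) true) (padX L A l)]) (by simp)
  refine Just.append (cp_lift j1) ?_
  obtain ⟨j2, m2⟩ := cpM_just hG hA hM ht l []
    (π ++ [imp (ct (fn M 0 []) true) (padX L A l)] ++ cpF (fn M 0 []) L l A) hnd hl hnA
    m1
  exact Just.append j2 (cp_lift (cpL_just hG m2))

end Pool.Agent.H.MP_0447ec_lc.PS
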