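import Pool.Agent.H.MP_0447ec_lc.LV.Base
import Pool.Agent.H.MP_0447ec_lc.LV.EnginePoly

/-!
# From tokens to the variables themselves

`ac` lists the variables of `A` with distinct codes of length `c ≤ e` that are not all false,
`n = ac.length`. Let `Φ = AZ d L W ac n A` (variable `a` of `A` replaced by `a ∨ (some block
among 0..n-1 contains the code of a)`), and let
`HD i j` say that the first `i` variables of `A` are false, that each of the blocks
`0, ..., j-1` contains exactly one true variable and that the blocks `j, ..., n-1` are all false.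
`T i j := imp (HD i j) Φ`.
* `T n (j+1)`, `j < n`: `li` from the given line `imp (GH d L W (j+1)) Ss[j]`; the condition on
  `sm` is a hypothesis.
* `T n 0`: `Φ` is true under the literals of `HD n 0` (all variables except `d` are known, all
  false, and `A` is true when all variables are false): derive `ct d true` first (`Rich.impRefl`
  gives `imp (ct d true) (ct d true)`), then `li` from it to `imp (HD n 0) Φ`; here
  `sm K (ct d true) = (some true, var []) = sm K Φ`.
* `T i j` for `i < n`, `j ≤ i`, from `T (i+1) j` and `T (i+1) (j+1)`: let `a = ac[i].1`, `w` its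
  code, `pos = w ++ replicate (e - c) false`, `τ = Equiv.swap a (fn L j pos)` (both occur in the
  line `T (i+1) (j+1)`, which gets permuted by `τ`). `li` from the permuted line to
  `imp (and (var a) (HD i j)) Φ`: the hypotheses of the permuted line are: the literals `¬a'` of
  the first `i` variables, `¬ fn L j pos` (a member, as block `j` is off in `HD i j`), `zone` of
  the blocks `< j` (members), `zone` of block `j` with `fn L j pos` replaced by `a` (true: all its
  variables are known), the literals of the blocks `> j` (members). `sm K (Φ.subst τ) = sm K Φ`: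
  for the other variables `a'` of `A` (`Fm.subst_subst`, `sm_subst`): the member for block `j` is
  false on both sides (on the left the only true variable of the block has the number `pos`, and
  the code of `a'` differs from `w`; on the right the block is off, which reads as the word
  `false ... false`, which is not a code), the other members are not changed; for `a` both sides
  are true. Then `li` from `T (i+1) j` to `imp (and (neg (var a)) (HD i j)) Φ` and the line
  `T i j` (`Rich.cases`).
* finally `li` from `T 0 0` to `imp (cj d (all blocks off)) A`: under its literals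
  `dj d (..)` is false, so that `sm K (or (var a) ..) = sm K (var a)`.
It is convenient to prove lemmas on `sm K (cj d Γ)`, `sm K (dj d Γ)`: they only depend on the
`sm` of the members; false members of `dj` may be dropped; `zbit`, `zeq`, `zone` of a block all
of whose variables are known have the expected values.
-/

namespace Pool.Agent.H.MP_0447ec_lc.PS

open Fm

/-- The first `i` variables in `ac` are false, the blocks `< j` have exactly one true variable,
the blocks `j, ..., ac.length - 1` are off. -/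
def HD (d : Nm) (L : ℕ) (W : List (List Bool)) (ac : List (Nm × List Bool)) (i j : ℕ) : Fm :=
  cj d ((ac.take i).map (fun p => neg (var p.1)) ++
    (List.range j).map (fun J => zone d L J W) ++
    (List.range (ac.length - j)).flatMap (fun J => zoff L (j + J) W))

/-! ### Simplification of conjunctions and disjunctions -/

theorem dp_sm_cj_true {K : List (Nm × Bool)} {d : Nm} {Γ : List Fm}
    (h : ∀ A ∈ Γ, (sm K A).1 = some true) : sm K (cj d Γ) = (some true, var []) := by
  induction Γ with
  | nil => exact sm_ct K d true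
  | cons A Γ ih =>
    rw [cj_cons, sm_and, ih (fun B hB => h B (List.mem_cons_of_mem _ hB))]
    unfold smAnd
    rw [h A (by simp)]

theorem dp_sm_cj_false {K : List (Nm × Bool)} {d : Nm} {Γ : List Fm}
    (h : ∃ A ∈ Γ, (sm K A).1 = some false) : sm K (cj d Γ) = (some false, var []) := by
  induction Γ with
  | nil => simp at h
  | cons A Γ ih =>
    rw [cj_cons, sm_and]
    obtain ⟨B, hB, h1⟩ := h
    rcases List.mem_cons.1 hB with rfl | hB
    · unfold smAnd
      rw [h1]
    · rw [ih ⟨B, hB, h1⟩]
      unfold smAnd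
      rcases (sm K A).1 with _ | _ | _ <;> rfl

theorem dp_sm_dj_false {K : List (Nm × Bool)} {d : Nm} {Γ : List Fm}
    (h : ∀ A ∈ Γ, (sm K A).1 = some false) : sm K (dj d Γ) = (some false, var []) := by
  induction Γ with
  | nil => exact sm_ct K d false
  | cons A Γ ih =>
    rw [dj_cons, sm_or, ih (fun B hB => h B (List.mem_cons_of_mem _ hB))]
    unfold smOr
    rw [h A (by simp)]

theorem dp_sm_dj_true {K : List (Nm × Bool)} {d : Nm} {Γ : List Fm}
    (h : ∃ A ∈ Γ, (sm K A).1 = some true) : sm K (dj d Γ) = (some true, var []) := by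
  induction Γ with
  | nil => simp at h
  | cons A Γ ih =>
    rw [dj_cons, sm_or]
    obtain ⟨B, hB, h1⟩ := h
    rcases List.mem_cons.1 hB with rfl | hB
    · unfold smOr
      rw [h1]
    · rw [ih ⟨B, hB, h1⟩]
      unfold smOr
      rcases (sm K A).1 with _ | _ | _ <;> rfl

theorem dp_sm_dj_congr {α : Type} {K : List (Nm × Bool)} {d : Nm} {l : List α} {f g : α → Fm}
    (h : ∀ x ∈ l, sm K (f x) = sm K (g x)) : sm K (dj d (l.map f)) = sm K (dj d (l.map g)) := by
  induction l with
  | nil => rfl
  | cons x l ih =>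
    rw [List.map_cons, List.map_cons, dj_cons, dj_cons, sm_or, sm_or, h x (by simp),
      ih (fun y hy => h y (List.mem_cons_of_mem _ hy))]

theorem dp_ct_subst {d : Nm} {s : Nm → Fm} (hs : s d = var d) (c : Bool) :
    (ct d c).subst s = ct d c := by
  cases c <;> simp [ct, Fm.subst, hs]

theorem dp_cj_subst {d : Nm} {s : Nm → Fm} (hs : s d = var d) (Γ : List Fm) :
    (cj d Γ).subst s = cj d (Γ.map (Fm.subst s)) := by
  induction Γ with
  | nil => exact dp_ct_subst hs true
  | cons A Γ ih => rw [cj_cons, List.map_cons, cj_cons, ← ih]; rfl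

theorem dp_dj_subst {d : Nm} {s : Nm → Fm} (hs : s d = var d) (Γ : List Fm) :
    (dj d Γ).subst s = dj d (Γ.map (Fm.subst s)) := by
  induction Γ with
  | nil => exact dp_ct_subst hs false
  | cons A Γ ih => rw [dj_cons, List.map_cons, dj_cons, ← ih]; rfl

theorem dp_lit_subst {x : Nm} {b : Bool} {s : Nm → Fm} :
    (lit x b).subst s = if b then s x else neg (s x) := by
  cases b <;> rfl

theorem dp_mem_vars_cj {d : Nm} {Γ : List Fm} {A : Fm} {x : Nm} (hA : A ∈ Γ) (hx : x ∈ A.vars) :
    x ∈ (cj d Γ).vars := by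
  induction Γ with
  | nil => simp at hA
  | cons B Γ ih =>
    rw [cj_cons]
    rcases List.mem_cons.1 hA with rfl | hA
    · exact Or.inl hx
    · exact Or.inr (ih hA)

theorem dp_mem_vars_dj {d : Nm} {Γ : List Fm} {A : Fm} {x : Nm} (hA : A ∈ Γ) (hx : x ∈ A.vars) :
    x ∈ (dj d Γ).vars := by
  induction Γ with
  | nil => simp at hA
  | cons B Γ ih =>
    rw [dj_cons]
    rcases List.mem_cons.1 hA with rfl | hA
    · exact Or.inl hx
    · exact Or.inr (ih hA)

theorem dp_lit_mem_vars (x : Nm) (b : Bool) : x ∈ (lit x b).vars := by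
  cases b <;> exact rfl

/-- A simplification with a known value. -/
theorem dp_known {K : List (Nm × Bool)} {A : Fm} {b : Bool} :
    (sm K A).1 = some b ↔ sm K A = (some b, var []) :=
  ⟨sm_canon K A b, fun h => by rw [h]⟩

theorem dp_sm_neg {K : List (Nm × Bool)} {A : Fm} {b : Bool}
    (h : sm K A = (some b, var [])) : sm K (neg A) = (some (!b), var []) := by
  rw [sm_neg, h]; rfl

theorem dp_sm_lit {K : List (Nm × Bool)} {A : Fm} {b c : Bool}
    (h : sm K A = (some b, var [])) :
    sm K (if c then A else neg A) = (some (decide (b = c)), var []) := by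
  cases c
  · rw [if_neg (by simp), dp_sm_neg h]
    cases b <;> rfl
  · rw [if_pos rfl, h]
    cases b <;> rfl

/-- The value of a formula all of whose variables are replaced by formulas with known
values. -/
theorem dp_sm_subst_eval {K : List (Nm × Bool)} {A : Fm} {s : Nm → Fm} {v : Nm → Bool}
    (h : ∀ x ∈ A.vars, sm K (s x) = (some (v x), var [])) (b : Bool)
    (hb : A.Eval (fun x => v x = true) ↔ b = true) : sm K (A.subst s) = (some b, var []) := by
  induction A generalizing b with
  | var w =>
    have : v w = b := by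
      have hb' : v w = true ↔ b = true := hb
      rw [Bool.eq_iff_iff]; exact hb'
    have h1 := h w rfl
    rw [this] at h1
    exact h1
  | neg A ih =>
    have h1 := ih h (!b) (by simp only [Fm.Eval] at hb; cases b <;> simp_all)
    have h2 := dp_sm_neg h1
    rw [Bool.not_not] at h2
    exact h2
  | and A B ih1 ih2 =>
    simp only [Fm.subst]
    rw [sm_and]
    by_cases hA : A.Eval (fun x => v x = true)
    · rw [ih1 (fun x hx => h x (Or.inl hx)) true (by simp [hA])]
      rw [ih2 (fun x hx => h x (Or.inr hx)) b (by simp only [Fm.Eval] at hb; tauto)]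
      rfl
    · rw [ih1 (fun x hx => h x (Or.inl hx)) false (by simp [hA])]
      have : b = false := by
        simp only [Fm.Eval] at hb
        cases b <;> simp_all
      subst this; rfl
  | or A B ih1 ih2 =>
    simp only [Fm.subst]
    rw [sm_or]
    by_cases hA : A.Eval (fun x => v x = true)
    · rw [ih1 (fun x hx => h x (Or.inl hx)) true (by simp [hA])]
      have : b = true := by
        simp only [Fm.Eval] at hb
        cases b <;> simp_all
      subst this; rfl
    · rw [ih1 (fun x hx => h x (Or.inl hx)) false (by simp [hA])]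
      rw [ih2 (fun x hx => h x (Or.inr hx)) b (by simp only [Fm.Eval] at hb; tauto)]
      rfl
  | imp A B ih1 ih2 =>
    simp only [Fm.subst]
    rw [sm_imp]
    by_cases hA : A.Eval (fun x => v x = true)
    · rw [ih1 (fun x hx => h x (Or.inl hx)) true (by simp [hA])]
      rw [ih2 (fun x hx => h x (Or.inr hx)) b (by simp only [Fm.Eval] at hb; tauto)]
      rfl
    · rw [ih1 (fun x hx => h x (Or.inl hx)) false (by simp [hA])]
      have : b = true := by
        simp only [Fm.Eval] at hb
        cases b <;> simp_all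
      subst this; rfl

/-! ### Blocks with known values -/

section block

variable {K : List (Nm × Bool)} {d : Nm} {L J : ℕ} {W : List (List Bool)} {s : Nm → Fm}
  {β : List Bool → Bool}

theorem dp_zbit (hs : s d = var d) (h : ∀ v ∈ W, sm K (s (fn L J v)) = (some (β v), var []))
    (i : ℕ) : sm K ((zbit d L J W i).subst s) =
      (some (W.any (fun v => v.getD i false && β v)), var []) := by
  unfold zbit
  rw [dp_dj_subst hs, List.map_map]
  by_cases hex : ∃ v ∈ W, v.getD i false = true ∧ β v = true
  · have h1 : W.any (fun v => v.getD i false && β v) = true := by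
      rw [List.any_eq_true]
      obtain ⟨v, hv, h2, h3⟩ := hex
      exact ⟨v, hv, by rw [h2, h3]; rfl⟩
    rw [h1]
    apply dp_sm_dj_true
    obtain ⟨v, hv, h2, h3⟩ := hex
    refine ⟨s (fn L J v), ?_, ?_⟩
    · rw [List.mem_map]
      exact ⟨v, List.mem_filter.2 ⟨hv, h2⟩, rfl⟩
    · rw [h v hv, h3]
  · have h1 : W.any (fun v => v.getD i false && β v) = false := by
      rw [Bool.eq_false_iff]
      intro hc
      rw [List.any_eq_true] at hc
      obtain ⟨v, hv, h2⟩ := hc
      rw [Bool.and_eq_true] at h2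
      exact hex ⟨v, hv, h2⟩
    rw [h1]
    apply dp_sm_dj_false
    intro A hA
    rw [List.mem_map] at hA
    obtain ⟨v, hv, rfl⟩ := hA
    rw [List.mem_filter] at hv
    show (sm K (s (fn L J v))).1 = _
    rw [h v hv.1]
    have : β v = false := by
      rw [Bool.eq_false_iff]
      intro hc
      exact hex ⟨v, hv.1, hv.2, hc⟩
    rw [this]

theorem dp_zeq_true (hs : s d = var d)
    (h : ∀ v ∈ W, sm K (s (fn L J v)) = (some (β v), var [])) {w : List Bool}
    (hw : ∀ b i, (b, i) ∈ w.zipIdx → W.any (fun v => v.getD i false && β v) = b) :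
    sm K ((zeq d L J W w).subst s) = (some true, var []) := by
  unfold zeq
  rw [dp_cj_subst hs, List.map_map]
  apply dp_sm_cj_true
  intro A hA
  rw [List.mem_map] at hA
  obtain ⟨⟨b, i⟩, hp, rfl⟩ := hA
  have h1 := dp_zbit hs h i
  rw [hw b i hp] at h1
  show (sm K ((if b = true then zbit d L J W i else neg (zbit d L J W i)).subst s)).1 = _
  cases b
  · rw [if_neg (by simp)]
    show (sm K (neg ((zbit d L J W i).subst s))).1 = _
    rw [dp_sm_neg h1]; rfl
  · rw [if_pos rfl, h1]

theorem dp_zeq_false (hs : s d = var d)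
    (h : ∀ v ∈ W, sm K (s (fn L J v)) = (some (β v), var [])) {w : List Bool}
    (hw : ∃ b i, (b, i) ∈ w.zipIdx ∧ W.any (fun v => v.getD i false && β v) ≠ b) :
    sm K ((zeq d L J W w).subst s) = (some false, var []) := by
  unfold zeq
  rw [dp_cj_subst hs, List.map_map]
  apply dp_sm_cj_false
  obtain ⟨b, i, hp, hb⟩ := hw
  refine ⟨(if b = true then zbit d L J W i else neg (zbit d L J W i)).subst s, ?_, ?_⟩
  · rw [List.mem_map]
    exact ⟨(b, i), hp, rfl⟩
  · have h1 := dp_zbit hs h i
    cases b
    · rw [if_neg (by simp)]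
      show (sm K (neg ((zbit d L J W i).subst s))).1 = _
      rw [dp_sm_neg h1, (Bool.eq_not_of_ne hb : _ = !false)]; rfl
    · rw [if_pos rfl, h1, (Bool.eq_not_of_ne hb : _ = !true)]; rfl

theorem dp_zone_true (hs : s d = var d) {pos : List Bool} (hpos : pos ∈ W)
    (h : ∀ v ∈ W, sm K (s (fn L J v)) = (some (decide (v = pos)), var [])) :
    sm K ((zone d L J W).subst s) = (some true, var []) := by
  unfold zone
  rw [dp_dj_subst hs, List.map_map]
  apply dp_sm_dj_true
  refine ⟨(cj d (zat L J W pos)).subst s, ?_, ?_⟩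
  · rw [List.mem_map]
    exact ⟨pos, hpos, rfl⟩
  · rw [dp_cj_subst hs, dp_sm_cj_true]
    intro A hA
    unfold zat at hA
    rw [List.map_map, List.mem_map] at hA
    obtain ⟨v, hv, rfl⟩ := hA
    show (sm K ((lit (fn L J v) (decide (v = pos))).subst s)).1 = _
    rw [dp_lit_subst, dp_sm_lit (h v hv)]
    simp

end block

/-- The value at a position. -/
theorem dp_any_at {W : List (List Bool)} {pos : List Bool} (hpos : pos ∈ W) (i : ℕ) :
    W.any (fun v => v.getD i false && decide (v = pos)) = pos.getD i false := by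
  cases h : pos.getD i false
  · rw [Bool.eq_false_iff]
    intro hc
    rw [List.any_eq_true] at hc
    obtain ⟨v, hv, h2⟩ := hc
    rw [Bool.and_eq_true, decide_eq_true_iff] at h2
    rw [h2.2, h] at h2
    simp at h2
  · rw [List.any_eq_true]
    exact ⟨pos, hpos, by rw [h]; simp⟩

theorem dp_any_off {W : List (List Bool)} (i : ℕ) :
    W.any (fun v => v.getD i false && false) = false := by
  simp

/-- The codes and the position of a code. -/
theorem dp_match_self {w : List Bool} (k : ℕ) : ∀ b i, (b, i) ∈ w.zipIdx →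
    (w ++ List.replicate k false).getD i false = b := by
  intro b i h
  rw [List.mem_zipIdx_iff_getElem?] at h
  have h : w[i]? = some b := h
  rw [List.getD_eq_getElem?_getD, List.getElem?_append_left, h]
  · rfl
  · by_contra hc
    rw [List.getElem?_eq_none (by omega)] at h
    simp at h

theorem dp_match_other {w w' : List Bool} (hl : w'.length = w.length) (hne : w' ≠ w) (k : ℕ) :
    ∃ b i, (b, i) ∈ w'.zipIdx ∧ (w ++ List.replicate k false).getD i false ≠ b := by
  by_contra hcon
  push Not at hcon
  apply hne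
  apply List.ext_getElem? 
  intro i
  by_cases hi : i < w'.length
  · have h1 : w'[i]? = some w'[i] := List.getElem?_eq_getElem hi
    have h2 := hcon w'[i] i (by rw [List.mem_zipIdx_iff_getElem?]; exact h1)
    rw [List.getD_eq_getElem?_getD, List.getElem?_append_left (by omega),
      List.getElem?_eq_getElem (by omega : i < w.length)] at h2
    rw [h1, List.getElem?_eq_getElem (by omega : i < w.length)]
    simpa using h2.symm
  · rw [List.getElem?_eq_none (by omega), List.getElem?_eq_none (by omega)]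

theorem dp_match_off {w : List Bool} (h : true ∈ w) : ∃ b i, (b, i) ∈ w.zipIdx ∧ false ≠ b := by
  obtain ⟨i, hi, h1⟩ := List.getElem_of_mem h
  refine ⟨true, i, ?_, by simp⟩
  rw [List.mem_zipIdx_iff_getElem?]
  show w[i]? = some true
  rw [List.getElem?_eq_getElem hi, h1]

/-! ### The literals of the hypotheses -/

theorem dp_lit_ne_and {x : Nm} {b : Bool} {A B : Fm} : lit x b ≠ Fm.and A B := by
  cases b <;> simp [lit]

theorem dp_lit_ne_ct {x d : Nm} {b c : Bool} : lit x b ≠ ct d c := by
  cases b <;> cases c <;> simp [lit, ct]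

theorem dp_lit_ne_dj {x d : Nm} {b : Bool} {Γ : List Fm} : lit x b ≠ dj d Γ := by
  cases Γ with
  | nil => rw [dj_nil]; exact dp_lit_ne_ct
  | cons A Γ => cases b <;> simp [lit, dj_cons]

theorem dp_ands_dj {d : Nm} {Γ : List Fm} : ands (dj d Γ) = [dj d Γ] := by
  cases Γ with
  | nil => rfl
  | cons A Γ => rfl

theorem dp_lit_inj {x y : Nm} {b c : Bool} (h : lit x b = lit y c) : x = y ∧ b = c := by
  cases b <;> cases c <;> simp_all [lit]

theorem dp_lit_cj {x d : Nm} {b : Bool} {Γ : List Fm} (h : lit x b ∈ ands (cj d Γ)) :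
    ∃ A ∈ Γ, lit x b ∈ ands A := by
  induction Γ with
  | nil =>
    have h1 : ands (cj d []) = [ct d true] := rfl
    rw [h1, List.mem_singleton] at h
    exact absurd h dp_lit_ne_ct
  | cons A Γ ih =>
    rw [cj_cons, ands, List.mem_cons, List.mem_append] at h
    rcases h with h | h | h
    · exact absurd h dp_lit_ne_and
    · exact ⟨A, by simp, h⟩
    · obtain ⟨B, hB, h1⟩ := ih h
      exact ⟨B, List.mem_cons_of_mem _ hB, h1⟩

section HDfacts

variable {d : Nm} {L : ℕ} {W : List (List Bool)} {ac : List (Nm × List Bool)} {i j : ℕ}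

theorem dp_HD_neg {k : ℕ} (hk : k < i) (hka : k < ac.length) :
    neg (var (ac[k]'hka).1) ∈ ands (HD d L W ac i j) := by
  unfold HD
  refine mem_ands_cj (A := neg (var (ac[k]'hka).1)) ?_ (self_mem_ands _)
  refine List.mem_append_left _ (List.mem_append_left _ ?_)
  refine List.mem_map.2 ⟨ac[k]'hka, ?_, rfl⟩
  rw [List.mem_take_iff_getElem]
  exact ⟨k, by omega, rfl⟩

theorem dp_HD_zone {J : ℕ} (hJ : J < j) : zone d L J W ∈ ands (HD d L W ac i j) := by
  unfold HD
  refine mem_ands_cj (A := zone d L J W) ?_ (self_mem_ands _)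
  refine List.mem_append_left _ (List.mem_append_right _ ?_)
  exact List.mem_map.2 ⟨J, List.mem_range.2 hJ, rfl⟩

theorem dp_HD_off {J : ℕ} (hJ : j ≤ J) (hJn : J < ac.length) {v : List Bool} (hv : v ∈ W) :
    neg (var (fn L J v)) ∈ ands (HD d L W ac i j) := by
  unfold HD
  refine mem_ands_cj (A := neg (var (fn L J v))) ?_ (self_mem_ands _)
  refine List.mem_append_right _ ?_
  rw [List.mem_flatMap]
  refine ⟨J - j, List.mem_range.2 (by omega), ?_⟩
  rw [show j + (J - j) = J by omega]
  exact List.mem_map.2 ⟨v, hv, rfl⟩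

theorem dp_lit_HD {x : Nm} {b : Bool} (h : lit x b ∈ ands (HD d L W ac i j)) :
    b = false ∧ ((∃ (k : ℕ) (hk : k < ac.length), k < i ∧ x = (ac[k]'hk).1) ∨
      (∃ J, j ≤ J ∧ J < ac.length ∧ ∃ v ∈ W, x = fn L J v)) := by
  unfold HD at h
  obtain ⟨A, hA, h⟩ := dp_lit_cj h
  rw [List.mem_append, List.mem_append] at hA
  rcases hA with (hA | hA) | hA
  · rw [List.mem_map] at hA
    obtain ⟨p, hp, rfl⟩ := hA
    rw [List.mem_take_iff_getElem] at hp
    obtain ⟨k, hk, rfl⟩ := hp
    have h1 : lit x b = neg (var (ac[k]'(by omega)).1) := by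
      simpa [ands] using h
    obtain ⟨h2, h3⟩ := dp_lit_inj (c := false) h1
    exact ⟨h3, Or.inl ⟨k, by omega, by omega, h2⟩⟩
  · rw [List.mem_map] at hA
    obtain ⟨J, hJ, rfl⟩ := hA
    unfold zone at h
    rw [dp_ands_dj, List.mem_singleton] at h
    exact absurd h dp_lit_ne_dj
  · rw [List.mem_flatMap] at hA
    obtain ⟨J, hJ, hA⟩ := hA
    rw [List.mem_range] at hJ
    unfold zoff at hA
    rw [List.mem_map] at hA
    obtain ⟨v, hv, rfl⟩ := hA
    have h1 : lit x b = neg (var (fn L (j + J) v)) := by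
      simpa [ands] using h
    obtain ⟨h2, h3⟩ := dp_lit_inj (c := false) h1
    exact ⟨h3, Or.inr ⟨j + J, by omega, by omega, v, hv, h2⟩⟩

theorem dp_lk_false {H : Fm} {x : Nm} (h : neg (var x) ∈ ands H)
    (h2 : ∀ b, lit x b ∈ ands H → b = false) : lk (litsOf H) x = some false := by
  apply lk_eq
  · exact mem_litsOf.2 h
  · intro b hb
    exact h2 b (mem_litsOf.1 hb)

theorem dp_sm_var {K : List (Nm × Bool)} {x : Nm} {b : Bool} (h : lk K x = some b) :
    sm K (var x) = (some b, var []) := by
  rw [sm_var]; unfold smV; rw [h]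

theorem dp_okH_HD {H : Fm} {i' j' : ℕ} (hn1 : ∀ (k : ℕ) (hk : k < ac.length), k < i' →
      okH H (neg (var (ac[k]'hk).1)))
    (hn2 : ∀ J, J < j' → okH H (zone d L J W))
    (hn3 : ∀ J, j' ≤ J → J < ac.length → ∀ v ∈ W, okH H (neg (var (fn L J v)))) :
    okH H (HD d L W ac i' j') := by
  unfold HD
  rw [okH_cj]
  intro A hA
  rw [List.mem_append, List.mem_append] at hA
  rcases hA with (hA | hA) | hA
  · rw [List.mem_map] at hA
    obtain ⟨p, hp, rfl⟩ := hA
    rw [List.mem_take_iff_getElem] at hp
    obtain ⟨k, hk, rfl⟩ := hp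
    exact hn1 k (by omega) (by omega)
  · rw [List.mem_map] at hA
    obtain ⟨J, hJ, rfl⟩ := hA
    exact hn2 J (List.mem_range.1 hJ)
  · rw [List.mem_flatMap] at hA
    obtain ⟨J, hJ, hA⟩ := hA
    rw [List.mem_range] at hJ
    unfold zoff at hA
    rw [List.mem_map] at hA
    obtain ⟨v, hv, rfl⟩ := hA
    exact hn3 (j' + J) (by omega) (by omega) v hv

theorem dp_okH_HD_subst {H : Fm} {i' j' : ℕ} {s : Nm → Fm} (hs : s d = var d)
    (hn1 : ∀ (k : ℕ) (hk : k < ac.length), k < i' →
      okH H (neg (s (ac[k]'hk).1)))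
    (hn2 : ∀ J, J < j' → okH H ((zone d L J W).subst s))
    (hn3 : ∀ J, j' ≤ J → J < ac.length → ∀ v ∈ W, okH H (neg (s (fn L J v)))) :
    okH H ((HD d L W ac i' j').subst s) := by
  unfold HD
  rw [dp_cj_subst hs, okH_cj]
  intro A hA
  rw [List.mem_map] at hA
  obtain ⟨B, hB, rfl⟩ := hA
  rw [List.mem_append, List.mem_append] at hB
  rcases hB with (hA | hA) | hA
  · rw [List.mem_map] at hA
    obtain ⟨p, hp, rfl⟩ := hA
    rw [List.mem_take_iff_getElem] at hp
    obtain ⟨k, hk, rfl⟩ := hp
    exact hn1 k (by omega) (by omega)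
  · rw [List.mem_map] at hA
    obtain ⟨J, hJ, rfl⟩ := hA
    exact hn2 J (List.mem_range.1 hJ)
  · rw [List.mem_flatMap] at hA
    obtain ⟨J, hJ, hA⟩ := hA
    rw [List.mem_range] at hJ
    unfold zoff at hA
    rw [List.mem_map] at hA
    obtain ⟨v, hv, rfl⟩ := hA
    exact hn3 (j' + J) (by omega) (by omega) v hv

end HDfacts

/-! ### Exchanging two names -/

/-- The table that exchanges two names. -/
def dpT (a x : Nm) : List (Nm × Fm) := [(a, var x), (x, var a)]

theorem dp_tsub_dpT (a x y : Nm) : tsub (dpT a x) y = var (Equiv.swap a x y) := by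
  unfold dpT
  rw [tsub_cons, tsub_cons, tsub_nil, Equiv.swap_apply_def]
  by_cases h1 : y = a
  · subst h1; simp
  · by_cases h2 : y = x
    · subst h2
      rw [if_neg (fun h => h1 h.symm), if_pos rfl, if_neg h1, if_pos rfl]
    · rw [if_neg (fun h => h1 h.symm), if_neg (fun h => h2 h.symm), if_neg h1, if_neg h2]

theorem dp_permStep {π : List Fm} {C : Fm} {a x : Nm} (hC : C ∈ π) (ha : a ∈ C.vars)
    (hx : x ∈ C.vars) : PermStep π (C.subst (tsub (dpT a x))) := by
  refine ⟨C, hC, Equiv.swap a x, ?_, ?_⟩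
  · intro y hy
    apply Equiv.swap_apply_of_ne_of_ne
    · rintro rfl; exact hy ha
    · rintro rfl; exact hy hx
  · apply Fm.subst_congr
    intro y _
    exact dp_tsub_dpT a x y

/-- Variables of the members of the hypotheses. -/
theorem dp_vars_cj {d y : Nm} {Γ : List Fm} (h : y ∈ (cj d Γ).vars) :
    y = d ∨ ∃ A ∈ Γ, y ∈ A.vars := by
  induction Γ with
  | nil =>
    left
    have : (cj d []).vars = {d} ∪ {d} := rfl
    rw [this] at h
    rcases h with h | h <;> exact h
  | cons A Γ ih =>
    rw [cj_cons] at h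
    rcases h with h | h
    · exact Or.inr ⟨A, by simp, h⟩
    · rcases ih h with h | ⟨B, hB, h⟩
      · exact Or.inl h
      · exact Or.inr ⟨B, List.mem_cons_of_mem _ hB, h⟩

theorem dp_vars_dj {d y : Nm} {Γ : List Fm} (h : y ∈ (dj d Γ).vars) :
    y = d ∨ ∃ A ∈ Γ, y ∈ A.vars := by
  induction Γ with
  | nil =>
    left
    have : (dj d []).vars = {d} ∪ {d} := rfl
    rw [this] at h
    rcases h with h | h <;> exact h
  | cons A Γ ih =>
    rw [dj_cons] at h
    rcases h with h | h
    · exact Or.inr ⟨A, by simp, h⟩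
    · rcases ih h with h | ⟨B, hB, h⟩
      · exact Or.inl h
      · exact Or.inr ⟨B, List.mem_cons_of_mem _ hB, h⟩

theorem dp_lit_vars {x y : Nm} {b : Bool} (h : y ∈ (lit x b).vars) : y = x := by
  cases b <;> exact h

theorem dp_zone_vars {d y : Nm} {L J : ℕ} {W : List (List Bool)}
    (h : y ∈ (zone d L J W).vars) : y = d ∨ ∃ v, y = fn L J v := by
  unfold zone at h
  rcases dp_vars_dj h with h | ⟨A, hA, h⟩
  · exact Or.inl h
  · rw [List.mem_map] at hA
    obtain ⟨v, _, rfl⟩ := hA
    rcases dp_vars_cj h with h | ⟨B, hB, h⟩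
    · exact Or.inl h
    · unfold zat at hB
      rw [List.mem_map] at hB
      obtain ⟨v', _, rfl⟩ := hB
      exact Or.inr ⟨v', dp_lit_vars h⟩

theorem dp_zbit_vars {d y : Nm} {L J i : ℕ} {W : List (List Bool)}
    (h : y ∈ (zbit d L J W i).vars) : y = d ∨ ∃ v, y = fn L J v := by
  unfold zbit at h
  rcases dp_vars_dj h with h | ⟨A, hA, h⟩
  · exact Or.inl h
  · rw [List.mem_map] at hA
    obtain ⟨v, _, rfl⟩ := hA
    exact Or.inr ⟨v, h⟩

theorem dp_zeq_vars {d y : Nm} {L J : ℕ} {W : List (List Bool)} {w : List Bool}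
    (h : y ∈ (zeq d L J W w).vars) : y = d ∨ ∃ v, y = fn L J v := by
  unfold zeq at h
  rcases dp_vars_cj h with h | ⟨A, hA, h⟩
  · exact Or.inl h
  · rw [List.mem_map] at hA
    obtain ⟨⟨b, i⟩, _, rfl⟩ := hA
    cases b
    · exact dp_zbit_vars (i := i) h
    · exact dp_zbit_vars (i := i) h

/-! ### One step -/

/-- The position of a code in a block. -/
def dpPos (W : List (List Bool)) (w : List Bool) : List Bool :=
  w ++ List.replicate ((W.headD []).length - w.length) false

/-- The formula that is true, with the blocks. -/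
def dpPhi (d : Nm) (L : ℕ) (W : List (List Bool)) (n : ℕ) (p : Nm × List Bool) : Fm :=
  Fm.or (var p.1) (dj d ((List.range n).map (fun J => zeq d L J W p.2)))

theorem dp_AZ (d : Nm) (L : ℕ) (W : List (List Bool)) (ac : List (Nm × List Bool)) (n : ℕ)
    (A : Fm) : AZ d L W ac n A = A.subst (tsub (ac.map (fun p => (p.1, dpPhi d L W n p)))) := rfl

/-- The hypotheses on the data. -/
structure DpH (L : ℕ) (d : Nm) (W : List (List Bool)) (e c : ℕ) (ac : List (Nm × List Bool))
    (A : Fm) : Prop where
  W_mem : ∀ w, w ∈ W ↔ w.length = e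
  le : c ≤ e
  code : ∀ p ∈ ac, p.2.length = c ∧ true ∈ p.2
  snd_nodup : (ac.map Prod.snd).Nodup
  fst_nodup : (ac.map Prod.fst).Nodup
  len : ∀ p ∈ ac, p.1.length ≤ L
  dlen : d.length ≤ L
  dnot : d ∉ ac.map Prod.fst
  vars : ∀ x, x ∈ A.vars → x ∈ ac.map Prod.fst

section onestep

variable {L : ℕ} {d : Nm} {W : List (List Bool)} {e c : ℕ} {ac : List (Nm × List Bool)}
  {A : Fm}

theorem DpH.headlen (h : DpH L d W e c ac A) : (W.headD []).length = e := by
  cases hW : W with
  | nil =>
    have := (h.W_mem (List.replicate e false)).2 (by simp)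
    rw [hW] at this
    simp at this
  | cons w W' =>
    rw [List.headD_cons]
    exact (h.W_mem w).1 (by rw [hW]; simp)

theorem DpH.pos_eq (h : DpH L d W e c ac A) {p : Nm × List Bool} (hp : p ∈ ac) :
    dpPos W p.2 = p.2 ++ List.replicate (e - c) false := by
  unfold dpPos
  rw [h.headlen, (h.code p hp).1]

theorem DpH.pos_mem (h : DpH L d W e c ac A) {p : Nm × List Bool} (hp : p ∈ ac) :
    dpPos W p.2 ∈ W := by
  rw [h.pos_eq hp, h.W_mem, List.length_append, List.length_replicate, (h.code p hp).1]
  have := h.le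
  omega

theorem DpH.tsub_eq (h : DpH L d W e c ac A) {n : ℕ} {p : Nm × List Bool} (hp : p ∈ ac) :
    tsub (ac.map (fun p => (p.1, dpPhi d L W n p))) p.1 = dpPhi d L W n p := by
  apply tsub_of_mem
  · exact List.mem_map.2 ⟨p, hp, rfl⟩
  · rw [List.map_map]
    exact h.fst_nodup

theorem dp_ne_fn {L J : ℕ} {v : List Bool} {y : Nm} (hy : y.length ≤ L) : y ≠ fn L J v := by
  rintro rfl
  have := fn_length L J v
  omega

theorem DpH.swap_d (h : DpH L d W e c ac A) {p : Nm × List Bool} (hp : p ∈ ac) (j : ℕ)
    (v : List Bool) : tsub (dpT p.1 (fn L j v)) d = var d := by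
  rw [dp_tsub_dpT, Equiv.swap_apply_of_ne_of_ne]
  · rintro rfl
    exact h.dnot (List.mem_map_of_mem hp)
  · exact dp_ne_fn h.dlen

theorem DpH.swap_other (h : DpH L d W e c ac A) {p q : Nm × List Bool} (hq : q ∈ ac)
    (hne : q.1 ≠ p.1) (j : ℕ) (v : List Bool) :
    tsub (dpT p.1 (fn L j v)) q.1 = var q.1 := by
  rw [dp_tsub_dpT, Equiv.swap_apply_of_ne_of_ne hne]
  exact dp_ne_fn (h.len q hq)

theorem DpH.swap_fn (h : DpH L d W e c ac A) {p : Nm × List Bool} (hp : p ∈ ac) {j J : ℕ}
    {v v' : List Bool} (hne : J ≠ j ∨ v' ≠ v) :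
    tsub (dpT p.1 (fn L j v)) (fn L J v') = var (fn L J v') := by
  rw [dp_tsub_dpT, Equiv.swap_apply_of_ne_of_ne]
  · exact (dp_ne_fn (h.len p hp)).symm
  · intro he
    obtain ⟨h1, h2⟩ := fn_inj he
    rcases hne with hne | hne
    · exact hne h1
    · exact hne h2

theorem dp_swap_left (a x : Nm) : tsub (dpT a x) a = var x := by
  rw [dp_tsub_dpT, Equiv.swap_apply_left]

theorem dp_swap_right (a x : Nm) : tsub (dpT a x) x = var a := by
  rw [dp_tsub_dpT, Equiv.swap_apply_right]

/-- The swap does not change the other blocks. -/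
theorem DpH.zeq_swap (h : DpH L d W e c ac A) {p : Nm × List Bool} (hp : p ∈ ac) {j J : ℕ}
    {v : List Bool} (hne : J ≠ j) (w : List Bool) :
    (zeq d L J W w).subst (tsub (dpT p.1 (fn L j v))) = zeq d L J W w := by
  apply Fm.subst_eq_self
  intro y hy
  rcases dp_zeq_vars hy with rfl | ⟨v', rfl⟩
  · exact h.swap_d hp j v
  · exact h.swap_fn hp (Or.inl hne)

theorem DpH.zone_swap (h : DpH L d W e c ac A) {p : Nm × List Bool} (hp : p ∈ ac) {j J : ℕ}
    {v : List Bool} (hne : J ≠ j) :
    (zone d L J W).subst (tsub (dpT p.1 (fn L j v))) = zone d L J W := by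
  apply Fm.subst_eq_self
  intro y hy
  rcases dp_zone_vars hy with rfl | ⟨v', rfl⟩
  · exact h.swap_d hp j v
  · exact h.swap_fn hp (Or.inl hne)

/-- The block `j` after the exchange. -/
theorem DpH.block_swap (h : DpH L d W e c ac A) {p : Nm × List Bool} (hp : p ∈ ac) {j : ℕ}
    {pos : List Bool} {K : List (Nm × Bool)} (hKa : lk K p.1 = some true)
    (hK : ∀ v ∈ W, lk K (fn L j v) = some false) : ∀ v ∈ W,
    sm K (tsub (dpT p.1 (fn L j pos)) (fn L j v)) = (some (decide (v = pos)), var []) := by
  intro v hv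
  by_cases hvp : v = pos
  · subst hvp
    rw [dp_swap_right, dp_sm_var hKa]
    simp
  · rw [h.swap_fn hp (Or.inr hvp), dp_sm_var (hK v hv)]
    simp [hvp]

/-- The simplification of the formula is not changed by the exchange. -/
theorem DpH.sm_swap (h : DpH L d W e c ac A) {p : Nm × List Bool} (hp : p ∈ ac) {j n : ℕ}
    (hj : j < n) {K : List (Nm × Bool)} (hKa : lk K p.1 = some true)
    (hK : ∀ v ∈ W, lk K (fn L j v) = some false) :
    sm K ((AZ d L W ac n A).subst (tsub (dpT p.1 (fn L j (dpPos W p.2))))) =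
    sm K (AZ d L W ac n A) := by
  rw [dp_AZ, Fm.subst_subst]
  apply sm_subst
  intro y hy
  obtain ⟨q, hq, rfl⟩ := List.mem_map.1 (h.vars y hy)
  rw [h.tsub_eq hq]
  have hpos := h.pos_mem hp
  have hb := h.block_swap hp (pos := dpPos W p.2) hKa hK
  have hd := h.swap_d hp j (dpPos W p.2)
  have hsub : (dpPhi d L W n q).subst (tsub (dpT p.1 (fn L j (dpPos W p.2)))) =
      Fm.or (tsub (dpT p.1 (fn L j (dpPos W p.2))) q.1) (dj d ((List.range n).map
        (fun J => (zeq d L J W q.2).subst (tsub (dpT p.1 (fn L j (dpPos W p.2))))))) := by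
    unfold dpPhi
    show Fm.or _ ((dj d _).subst _) = _
    rw [dp_dj_subst hd, List.map_map]
    rfl
  rw [hsub]
  by_cases hqp : q.1 = p.1
  · have hqp2 : q.2 = p.2 := by
      have : q = p := by
        obtain ⟨k, hk, rfl⟩ := List.getElem_of_mem hq
        obtain ⟨k', hk', rfl⟩ := List.getElem_of_mem hp
        have h1 : (ac.map Prod.fst)[k]'(by simpa using hk) =
            (ac.map Prod.fst)[k']'(by simpa using hk') := by
          simpa using hqp
        have h2 := (List.Nodup.getElem_inj_iff h.fst_nodup).1 h1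
        subst h2
        rfl
      rw [this]
    rw [hqp, dp_swap_left, sm_or, dp_sm_var (hK _ hpos)]
    unfold dpPhi
    rw [sm_or, hqp, dp_sm_var hKa]
    rw [dp_sm_dj_true (Γ := (List.range n).map _)]
    · rfl
    · refine ⟨_, List.mem_map.2 ⟨j, List.mem_range.2 hj, rfl⟩, ?_⟩
      rw [dp_zeq_true hd hb]
      intro b i hbi
      rw [dp_any_at hpos, h.pos_eq hp]
      rw [hqp2] at hbi
      exact dp_match_self _ b i hbi
  · rw [h.swap_other hq hqp]
    unfold dpPhi
    rw [sm_or, sm_or]
    congr 1
    apply dp_sm_dj_congr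
    intro J _
    by_cases hJ : J = j
    · subst hJ
      have hne : q.2 ≠ p.2 := by
        intro he
        apply hqp
        have : q = p := by
          obtain ⟨k, hk, rfl⟩ := List.getElem_of_mem hq
          obtain ⟨k', hk', rfl⟩ := List.getElem_of_mem hp
          have h1 : (ac.map Prod.snd)[k]'(by simpa using hk) =
              (ac.map Prod.snd)[k']'(by simpa using hk') := by
            simpa using he
          have h2 := (List.Nodup.getElem_inj_iff h.snd_nodup).1 h1
          subst h2
          rfl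
        rw [this]
      rw [dp_zeq_false hd hb]
      · have h2 := dp_zeq_false (K := K) (d := d) (L := L) (J := J) (W := W) (s := var)
          (β := fun _ => false) (w := q.2) rfl (fun v hv => dp_sm_var (hK v hv)) (by
          obtain ⟨b, i, h1, h2⟩ := dp_match_off (h.code q hq).2
          refine ⟨b, i, h1, ?_⟩
          rw [dp_any_off]
          exact h2)
        rw [Fm.subst_var] at h2
        exact h2.symm
      · obtain ⟨b, i, h1, h2⟩ := dp_match_other (w := p.2) (w' := q.2)
          (by rw [(h.code p hp).1, (h.code q hq).1]) hne (e - c)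
        refine ⟨b, i, h1, ?_⟩
        rw [dp_any_at hpos, h.pos_eq hp]
        exact h2
    · rw [h.zeq_swap hp hJ]

end onestep

/-! ### The lines -/

/-- Lines for one pair `i, j`: the exchanged line and the two cases. -/
def dpStep (d : Nm) (L : ℕ) (W : List (List Bool)) (ac : List (Nm × List Bool)) (Φ : Fm)
    (i j : ℕ) (p : Nm × List Bool) : List Fm :=
  (imp (HD d L W ac (i + 1) (j + 1)) Φ).subst (tsub (dpT p.1 (fn L j (dpPos W p.2)))) ::
    (li (Fm.and (var p.1) (HD d L W ac i j))
      ((HD d L W ac (i + 1) (j + 1)).subst (tsub (dpT p.1 (fn L j (dpPos W p.2)))))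
      (Φ.subst (tsub (dpT p.1 (fn L j (dpPos W p.2))))) Φ ++
    (li (Fm.and (neg (var p.1)) (HD d L W ac i j)) (HD d L W ac (i + 1) j) Φ Φ ++
      [imp (HD d L W ac i j) Φ]))

section onestep2

variable {L : ℕ} {d : Nm} {W : List (List Bool)} {e c : ℕ} {ac : List (Nm × List Bool)}
  {A : Fm} {G : List Rule}

theorem DpH.step (h : DpH L d W e c ac A) (hG : Rich G) {i j : ℕ} (hi : i < ac.length)
    (hj : j ≤ i) {π : List Fm}
    (h1 : imp (HD d L W ac (i + 1) (j + 1)) (AZ d L W ac ac.length A) ∈ π)
    (h2 : imp (HD d L W ac (i + 1) j) (AZ d L W ac ac.length A) ∈ π) :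
    Just (FP G) π (dpStep d L W ac (AZ d L W ac ac.length A) i j (ac[i]'hi)) ∧
    imp (HD d L W ac i j) (AZ d L W ac ac.length A) ∈
      dpStep d L W ac (AZ d L W ac ac.length A) i j (ac[i]'hi) := by
  refine ⟨?_, by simp [dpStep]⟩
  have hp : ac[i]'hi ∈ ac := List.getElem_mem hi
  set p := ac[i]'hi with hpdef
  have hpos := h.pos_mem hp
  have hneq : ∀ (k : ℕ) (hk : k < ac.length), k ≠ i → (ac[k]'hk).1 ≠ p.1 := by
    intro k hk hki he
    apply hki
    have h3 : (ac.map Prod.fst)[k]'(by simpa using hk) =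
        (ac.map Prod.fst)[i]'(by simpa using hi) := by
      simpa using he
    exact (List.Nodup.getElem_inj_iff h.fst_nodup).1 h3
  have hd := h.swap_d hp j (dpPos W p.2)
  -- literals of the first hypothesis
  have hlit : ∀ x b, lit x b ∈ ands (Fm.and (var p.1) (HD d L W ac i j)) →
      (x = p.1 ∧ b = true) ∨ (b = false ∧
        ((∃ (k : ℕ) (hk : k < ac.length), k < i ∧ x = (ac[k]'hk).1) ∨
        (∃ J, j ≤ J ∧ J < ac.length ∧ ∃ v ∈ W, x = fn L J v))) := by
    intro x b hx
    rw [ands, List.mem_cons, List.mem_append] at hx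
    rcases hx with hx | hx | hx
    · exact absurd hx dp_lit_ne_and
    · left
      have : lit x b = var p.1 := by simpa [ands] using hx
      exact dp_lit_inj (c := true) this
    · exact Or.inr (dp_lit_HD hx)
  have hKa : lk (litsOf (Fm.and (var p.1) (HD d L W ac i j))) p.1 = some true := by
    apply lk_eq
    · rw [mem_litsOf]
      simp only [ands, List.mem_cons, List.mem_append]
      exact Or.inr (Or.inl (by simp [lit]))
    · intro b hb
      rw [mem_litsOf] at hb
      rcases hlit _ _ hb with hb | ⟨_, ⟨k, hk, hki, he⟩ | ⟨J, _, _, v, _, he⟩⟩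
      · exact hb.2
      · exact absurd he.symm (hneq k hk (by omega))
      · exact absurd he (dp_ne_fn (h.len p hp))
  have hK : ∀ v ∈ W, lk (litsOf (Fm.and (var p.1) (HD d L W ac i j))) (fn L j v) =
      some false := by
    intro v hv
    apply dp_lk_false
    · simp only [ands, List.mem_cons, List.mem_append]
      exact Or.inr (Or.inr (dp_HD_off le_rfl (by omega) hv))
    · intro b hb
      rcases hlit _ _ hb with hb | hb
      · exact absurd hb.1.symm (dp_ne_fn (h.len p hp))
      · exact hb.1
  refine ⟨Or.inr (Or.inr (dp_permStep h1 ?_ ?_)), ?_⟩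
  · left
    exact dp_mem_vars_cj (A := neg (var p.1))
      (List.mem_append_left _ (List.mem_append_left _ (List.mem_map.2
        ⟨p, by rw [List.mem_take_iff_getElem]; exact ⟨i, by omega, rfl⟩, rfl⟩))) rfl
  · left
    refine dp_mem_vars_cj (A := zone d L j W)
      (List.mem_append_left _ (List.mem_append_right _ (List.mem_map.2
        ⟨j, List.mem_range.2 (by omega), rfl⟩))) ?_
    refine dp_mem_vars_dj (A := cj d (zat L j W (dpPos W p.2))) (List.mem_map.2
      ⟨dpPos W p.2, hpos, rfl⟩) ?_
    exact dp_mem_vars_cj (A := lit (fn L j (dpPos W p.2)) (decide (dpPos W p.2 = dpPos W p.2)))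
      (List.mem_map.2 ⟨dpPos W p.2, hpos, rfl⟩) (dp_lit_mem_vars _ _)
  set π' := π ++ [(imp (HD d L W ac (i + 1) (j + 1)) (AZ d L W ac ac.length A)).subst
    (tsub (dpT p.1 (fn L j (dpPos W p.2))))] with hπ'
  have hm : ∀ C ∈ π, C ∈ π' := fun C hC => List.mem_append_left _ hC
  obtain ⟨j1, m1⟩ := li_just hG (H := Fm.and (var p.1) (HD d L W ac i j))
    (H' := (HD d L W ac (i + 1) (j + 1)).subst (tsub (dpT p.1 (fn L j (dpPos W p.2)))))
    (A := (AZ d L W ac ac.length A).subst (tsub (dpT p.1 (fn L j (dpPos W p.2)))))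
    (B := AZ d L W ac ac.length A) (π := π')
    (by rw [hπ']; exact List.mem_append_right _ (by simp [Fm.subst])) (by
      apply dp_okH_HD_subst hd
      · intro k hk hki
        by_cases hk' : k = i
        · subst hk'
          rw [← hpdef, dp_swap_left]
          apply okH_of_mem
          simp only [ands, List.mem_cons, List.mem_append]
          exact Or.inr (Or.inr (dp_HD_off le_rfl (by omega) hpos))
        · rw [h.swap_other (List.getElem_mem hk) (hneq k hk hk')]
          apply okH_of_mem
          simp only [ands, List.mem_cons, List.mem_append]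
          exact Or.inr (Or.inr (dp_HD_neg (by omega) hk))
      · intro J hJ
        by_cases hJ' : J = j
        · subst hJ'
          apply okH_of_sm
          rw [dp_zone_true hd hpos (h.block_swap hp hKa hK)]
        · rw [h.zone_swap hp hJ']
          apply okH_of_mem
          simp only [ands, List.mem_cons, List.mem_append]
          exact Or.inr (Or.inr (dp_HD_zone (by omega)))
      · intro J hJ hJn v hv
        rw [h.swap_fn hp (Or.inl (by omega))]
        apply okH_of_mem
        simp only [ands, List.mem_cons, List.mem_append]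
        exact Or.inr (Or.inr (dp_HD_off (by omega) hJn hv)))
    (h.sm_swap hp (by omega) hKa hK)
  obtain ⟨j2, m2⟩ := li_just hG (H := Fm.and (neg (var p.1)) (HD d L W ac i j))
    (H' := HD d L W ac (i + 1) j)
    (A := AZ d L W ac ac.length A)
    (B := AZ d L W ac ac.length A)
    (π := π' ++ li (Fm.and (var p.1) (HD d L W ac i j))
      ((HD d L W ac (i + 1) (j + 1)).subst (tsub (dpT p.1 (fn L j (dpPos W p.2)))))
      ((AZ d L W ac ac.length A).subst (tsub (dpT p.1 (fn L j (dpPos W p.2)))))
      (AZ d L W ac ac.length A))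
    (List.mem_append_left _ (hm _ h2)) (by
      apply dp_okH_HD
      · intro k hk hki
        apply okH_of_mem
        simp only [ands, List.mem_cons, List.mem_append]
        by_cases hk' : k = i
        · subst hk'
          exact Or.inr (Or.inl (by simp [hpdef]))
        · exact Or.inr (Or.inr (dp_HD_neg (by omega) hk))
      · intro J hJ
        apply okH_of_mem
        simp only [ands, List.mem_cons, List.mem_append]
        exact Or.inr (Or.inr (dp_HD_zone hJ))
      · intro J hJ hJn v hv
        apply okH_of_mem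
        simp only [ands, List.mem_cons, List.mem_append]
        exact Or.inr (Or.inr (dp_HD_off hJ hJn hv))) rfl
  refine Just.append (j1.imp_step (fun _ _ => Or.inl)) (Just.append
    (j2.imp_step (fun _ _ => Or.inl)) ⟨Or.inr (Or.inl (hG.cases (A := var p.1) ?_ ?_)), trivial⟩)
  · exact List.mem_append_left _ (List.mem_append_right _ m1)
  · exact List.mem_append_right _ m2

/-- Lines for all pairs with a given first index. -/
def dpRow (d : Nm) (L : ℕ) (W : List (List Bool)) (ac : List (Nm × List Bool)) (Φ : Fm)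
    (i : ℕ) : List Fm :=
  (List.range (i + 1)).flatMap (fun j => dpStep d L W ac Φ i j (ac.getD i ([], [])))

theorem DpH.row (h : DpH L d W e c ac A) (hG : Rich G) {i : ℕ} (hi : i < ac.length)
    {π : List Fm}
    (h1 : ∀ j ≤ i + 1, imp (HD d L W ac (i + 1) j) (AZ d L W ac ac.length A) ∈ π) :
    Just (FP G) π (dpRow d L W ac (AZ d L W ac ac.length A) i) ∧
    ∀ j ≤ i, imp (HD d L W ac i j) (AZ d L W ac ac.length A) ∈
      dpRow d L W ac (AZ d L W ac ac.length A) i := by
  have hg : ac.getD i ([], []) = ac[i]'hi := by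
    rw [List.getD_eq_getElem?_getD, List.getElem?_eq_getElem hi]; rfl
  unfold dpRow
  rw [hg]
  constructor
  · apply Just.flatMap (mono_perm G)
    intro j hj
    rw [List.mem_range] at hj
    exact (h.step hG hi (by omega) (h1 _ (by omega)) (h1 _ (by omega))).1
  · intro j hj
    rw [List.mem_flatMap]
    exact ⟨j, List.mem_range.2 (by omega),
      (h.step hG hi hj (h1 _ (by omega)) (h1 _ (by omega))).2⟩

/-- Lines for the last `m` first indices. -/
def dpRows (d : Nm) (L : ℕ) (W : List (List Bool)) (ac : List (Nm × List Bool)) (Φ : Fm)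
    (m : ℕ) : List Fm :=
  (List.range m).flatMap (fun t => dpRow d L W ac Φ (ac.length - 1 - t))

theorem DpH.rows (h : DpH L d W e c ac A) (hG : Rich G) {π : List Fm}
    (h1 : ∀ j ≤ ac.length, imp (HD d L W ac ac.length j) (AZ d L W ac ac.length A) ∈ π) :
    ∀ m ≤ ac.length, Just (FP G) π (dpRows d L W ac (AZ d L W ac ac.length A) m) ∧
    ∀ j ≤ ac.length - m, imp (HD d L W ac (ac.length - m) j) (AZ d L W ac ac.length A) ∈
      π ++ dpRows d L W ac (AZ d L W ac ac.length A) m := by
  intro m
  induction m with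
  | zero =>
    intro _
    exact ⟨trivial, fun j hj => List.mem_append_left _ (h1 j hj)⟩
  | succ m ih =>
    intro hm
    obtain ⟨j1, m1⟩ := ih (by omega)
    have e1 : dpRows d L W ac (AZ d L W ac ac.length A) (m + 1) =
        dpRows d L W ac (AZ d L W ac ac.length A) m ++
        dpRow d L W ac (AZ d L W ac ac.length A) (ac.length - (m + 1)) := by
      unfold dpRows
      rw [List.range_succ, List.flatMap_append]
      rw [show ac.length - (m + 1) = ac.length - 1 - m by omega]
      simp
    have e2 : ac.length - m = ac.length - (m + 1) + 1 := by omega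
    rw [e2] at m1
    obtain ⟨j2, m2⟩ := h.row hG (i := ac.length - (m + 1)) (by omega) m1
    rw [e1]
    refine ⟨Just.append j1 j2, ?_⟩
    intro j hj
    rw [← List.append_assoc]
    exact List.mem_append_right _ (m2 j hj)

/-- The first lines. -/
def dpTop (d : Nm) (L : ℕ) (W : List (List Bool)) (ac : List (Nm × List Bool)) (Φ : Fm)
    (Ss : List Fm) : List Fm :=
  (imp (ct d true) (ct d true) :: li (HD d L W ac ac.length 0) (ct d true) (ct d true) Φ) ++
    (List.range ac.length).flatMap (fun j =>
      li (HD d L W ac ac.length (j + 1)) (GH d L W (j + 1)) (Ss.getD j (var [])) Φ)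

theorem DpH.top0 (h : DpH L d W e c ac A) (hA : A.Eval (fun _ => False)) :
    sm (litsOf (HD d L W ac ac.length 0)) (AZ d L W ac ac.length A) = (some true, var []) := by
  rw [dp_AZ]
  apply dp_sm_subst_eval (v := fun _ => false)
  · intro y hy
    obtain ⟨q, hq, rfl⟩ := List.mem_map.1 (h.vars y hy)
    rw [h.tsub_eq hq]
    unfold dpPhi
    have hlk : ∀ J < ac.length, ∀ v ∈ W,
        lk (litsOf (HD d L W ac ac.length 0)) (fn L J v) = some false := by
      intro J hJ v hv
      exact dp_lk_false (dp_HD_off (Nat.zero_le _) hJ hv) (fun b hb => (dp_lit_HD hb).1)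
    rw [sm_or, dp_sm_dj_false (Γ := (List.range ac.length).map _)]
    · obtain ⟨k, hk, rfl⟩ := List.getElem_of_mem hq
      rw [dp_sm_var (dp_lk_false (dp_HD_neg hk hk) (fun b hb => (dp_lit_HD hb).1))]
      rfl
    · intro B hB
      rw [List.mem_map] at hB
      obtain ⟨J, hJ, rfl⟩ := hB
      rw [List.mem_range] at hJ
      have h2 := dp_zeq_false (K := litsOf (HD d L W ac ac.length 0)) (d := d) (L := L)
        (J := J) (W := W) (s := var)
        (β := fun _ => false) (w := q.2) rfl (fun v hv => dp_sm_var (hlk J hJ v hv)) (by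
        obtain ⟨b, i, h1, h2⟩ := dp_match_off (h.code q hq).2
        refine ⟨b, i, h1, ?_⟩
        rw [dp_any_off]
        exact h2)
      rw [Fm.subst_var] at h2
      rw [h2]
  · simpa using hA

theorem DpH.top (h : DpH L d W e c ac A) (hG : Rich G) (hA : A.Eval (fun _ => False))
    {Ss : List Fm} (hS : Ss.length = ac.length)
    (hsm : ∀ (j : ℕ) (hj : j < Ss.length),
        sm (litsOf (HD d L W ac ac.length (j + 1))) Ss[j] =
        sm (litsOf (HD d L W ac ac.length (j + 1))) (AZ d L W ac ac.length A))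
    {π : List Fm} (hπ : ∀ (j : ℕ) (hj : j < Ss.length), imp (GH d L W (j + 1)) Ss[j] ∈ π) :
    Just (FP G) π (dpTop d L W ac (AZ d L W ac ac.length A) Ss) ∧
    ∀ j ≤ ac.length, imp (HD d L W ac ac.length j) (AZ d L W ac ac.length A) ∈
      dpTop d L W ac (AZ d L W ac ac.length A) Ss := by
  obtain ⟨j1, m1⟩ := li_just hG (H := HD d L W ac ac.length 0) (H' := ct d true)
    (A := ct d true) (B := AZ d L W ac ac.length A) (π := π ++ [imp (ct d true) (ct d true)])
    (by simp) (okH_ct _ d) (by rw [h.top0 hA, sm_ct])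
  have key : ∀ j < ac.length, Just (RuleStep G) π
      (li (HD d L W ac ac.length (j + 1)) (GH d L W (j + 1)) (Ss.getD j (var []))
        (AZ d L W ac ac.length A)) ∧
      imp (HD d L W ac ac.length (j + 1)) (AZ d L W ac ac.length A) ∈
      li (HD d L W ac ac.length (j + 1)) (GH d L W (j + 1)) (Ss.getD j (var []))
        (AZ d L W ac ac.length A) := by
    intro j hj
    have hj' : j < Ss.length := by omega
    have hg : Ss.getD j (var []) = Ss[j]'hj' := by
      rw [List.getD_eq_getElem?_getD, List.getElem?_eq_getElem hj']; rfl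
    rw [hg]
    apply li_just hG (hπ j hj') _ (hsm j hj')
    unfold GH
    rw [okH_cj]
    intro B hB
    rw [List.mem_map] at hB
    obtain ⟨J, hJ, rfl⟩ := hB
    exact okH_of_mem (dp_HD_zone (List.mem_range.1 hJ))
  unfold dpTop
  constructor
  · refine Just.append (⟨Or.inr (Or.inl hG.refl), j1.imp_step (fun _ _ => Or.inl)⟩) ?_
    apply Just.flatMap (mono_perm G)
    intro j hj
    rw [List.mem_range] at hj
    exact Just.mono (mono_perm G) (fun C hC => List.mem_append_left _ hC)
      ((key j hj).1.imp_step (fun _ _ => Or.inl))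
  · intro j hj
    cases j with
    | zero => exact List.mem_append_left _ (List.mem_cons_of_mem _ m1)
    | succ j =>
      refine List.mem_append_right _ ?_
      rw [List.mem_flatMap]
      exact ⟨j, List.mem_range.2 (by omega), (key j (by omega)).2⟩

/-- The last lines. -/
def dpEnd (d : Nm) (L : ℕ) (W : List (List Bool)) (ac : List (Nm × List Bool)) (Φ A : Fm) :
    List Fm :=
  li (HD d L W ac 0 0) (HD d L W ac 0 0) Φ A

theorem dp_HD00 (d : Nm) (L : ℕ) (W : List (List Bool)) (ac : List (Nm × List Bool)) :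
    HD d L W ac 0 0 = cj d ((List.range ac.length).flatMap (fun J => zoff L J W)) := by
  unfold HD
  simp

theorem DpH.last (h : DpH L d W e c ac A) (hG : Rich G) {π : List Fm}
    (hπ : imp (HD d L W ac 0 0) (AZ d L W ac ac.length A) ∈ π) :
    Just (RuleStep G) π (dpEnd d L W ac (AZ d L W ac ac.length A) A) ∧
    imp (HD d L W ac 0 0) A ∈ dpEnd d L W ac (AZ d L W ac ac.length A) A := by
  apply li_just hG hπ (okH_of_mem (self_mem_ands _))
  have e1 : sm (litsOf (HD d L W ac 0 0)) A = sm (litsOf (HD d L W ac 0 0)) (A.subst var) := by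
    rw [Fm.subst_var]
  rw [e1, dp_AZ]
  apply sm_subst
  intro y hy
  obtain ⟨q, hq, rfl⟩ := List.mem_map.1 (h.vars y hy)
  rw [h.tsub_eq hq]
  have hlk : ∀ J < ac.length, ∀ v ∈ W,
      lk (litsOf (HD d L W ac 0 0)) (fn L J v) = some false := by
    intro J hJ v hv
    exact dp_lk_false (dp_HD_off (Nat.zero_le _) hJ hv) (fun b hb => (dp_lit_HD hb).1)
  unfold dpPhi
  rw [sm_or, dp_sm_dj_false (Γ := (List.range ac.length).map _)]
  · unfold smOr
    rcases h1 : (sm (litsOf (HD d L W ac 0 0)) (var q.1)).1 with _ | _ | _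
    · rfl
    · exact (sm_canon _ _ _ h1).symm
    · exact (sm_canon _ _ _ h1).symm
  · intro B hB
    rw [List.mem_map] at hB
    obtain ⟨J, hJ, rfl⟩ := hB
    rw [List.mem_range] at hJ
    have h2 := dp_zeq_false (K := litsOf (HD d L W ac 0 0)) (d := d) (L := L)
      (J := J) (W := W) (s := var)
      (β := fun _ => false) (w := q.2) rfl (fun v hv => dp_sm_var (hlk J hJ v hv)) (by
      obtain ⟨b, i, h1, h2⟩ := dp_match_off (h.code q hq).2
      refine ⟨b, i, h1, ?_⟩
      rw [dp_any_off]
      exact h2)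
    rw [Fm.subst_var] at h2
    rw [h2]

end onestep2

/-- All lines. -/
def dpAll (d : Nm) (L : ℕ) (W : List (List Bool)) (ac : List (Nm × List Bool))
    (Ss : List Fm) (A : Fm) : List Fm :=
  dpTop d L W ac (AZ d L W ac ac.length A) Ss ++
    (dpRows d L W ac (AZ d L W ac ac.length A) ac.length ++
      dpEnd d L W ac (AZ d L W ac ac.length A) A)

theorem dp_all {L : ℕ} {d : Nm} {W : List (List Bool)} {e c : ℕ} {ac : List (Nm × List Bool)}
    {A : Fm} {G : List Rule} (h : DpH L d W e c ac A) (hG : Rich G)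
    (hA : A.Eval (fun _ => False))
    {Ss : List Fm} (hS : Ss.length = ac.length)
    (hsm : ∀ (j : ℕ) (hj : j < Ss.length),
        sm (litsOf (HD d L W ac ac.length (j + 1))) Ss[j] =
        sm (litsOf (HD d L W ac ac.length (j + 1))) (AZ d L W ac ac.length A))
    {π : List Fm} (hπ : ∀ (j : ℕ) (hj : j < Ss.length), imp (GH d L W (j + 1)) Ss[j] ∈ π) :
    Just (FP G) π (dpAll d L W ac Ss A) ∧
      imp (cj d ((List.range ac.length).flatMap (fun J => zoff L J W))) A ∈
        dpAll d L W ac Ss A := by
  obtain ⟨j1, m1⟩ := h.top hG hA hS hsm hπ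
  obtain ⟨j2, m2⟩ := h.rows hG (π := π ++ dpTop d L W ac (AZ d L W ac ac.length A) Ss)
    (fun j hj => List.mem_append_right _ (m1 j hj)) ac.length le_rfl
  rw [Nat.sub_self] at m2
  obtain ⟨j3, m3⟩ := h.last hG (m2 0 le_rfl)
  unfold dpAll
  refine ⟨Just.append j1 (Just.append j2 (j3.imp_step (fun _ _ => Or.inl))), ?_⟩
  rw [← dp_HD00]
  exact List.mem_append_right _ (List.mem_append_right _ m3)

/-! ### Polynomial time -/

section poly

open PT

variable {α : Type} [Enc α]

@[fun_prop]
theorem Poly.HD {d : α → Nm} {L i j : α → ℕ} {W : α → List (List Bool)}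
    {ac : α → List (Nm × List Bool)} (hd : Poly d) (hL : Poly L) (hW : Poly W)
    (hac : Poly ac) (hi : Poly i) (hj : Poly j) :
    Poly (fun a => HD (d a) (L a) (W a) (ac a) (i a) (j a)) := by
  unfold PS.HD
  fun_prop

@[fun_prop]
theorem Poly.dpPos {W : α → List (List Bool)} {w : α → List Bool} (hW : Poly W)
    (hw : Poly w) : Poly (fun a => dpPos (W a) (w a)) := by
  unfold PS.dpPos
  fun_prop

@[fun_prop]
theorem Poly.dpT {a x : α → Nm} (ha : Poly a) (hx : Poly x) :
    Poly (fun t => dpT (a t) (x t)) := by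
  unfold PS.dpT
  fun_prop

@[fun_prop]
theorem Poly.dpStep {d : α → Nm} {L i j : α → ℕ} {W : α → List (List Bool)}
    {ac : α → List (Nm × List Bool)} {Φ : α → Fm} {p : α → Nm × List Bool}
    (hd : Poly d) (hL : Poly L) (hW : Poly W)
    (hac : Poly ac) (hΦ : Poly Φ) (hi : Poly i) (hj : Poly j) (hp : Poly p) :
    Poly (fun a => dpStep (d a) (L a) (W a) (ac a) (Φ a) (i a) (j a) (p a)) := by
  unfold PS.dpStep
  fun_prop

@[fun_prop]
theorem Poly.dpRow {d : α → Nm} {L i : α → ℕ} {W : α → List (List Bool)}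
    {ac : α → List (Nm × List Bool)} {Φ : α → Fm}
    (hd : Poly d) (hL : Poly L) (hW : Poly W)
    (hac : Poly ac) (hΦ : Poly Φ) (hi : Poly i) :
    Poly (fun a => dpRow (d a) (L a) (W a) (ac a) (Φ a) (i a)) := by
  unfold PS.dpRow
  fun_prop

@[fun_prop]
theorem Poly.dpRows {d : α → Nm} {L m : α → ℕ} {W : α → List (List Bool)}
    {ac : α → List (Nm × List Bool)} {Φ : α → Fm}
    (hd : Poly d) (hL : Poly L) (hW : Poly W)
    (hac : Poly ac) (hΦ : Poly Φ) (hm : Poly m) :
    Poly (fun a => dpRows (d a) (L a) (W a) (ac a) (Φ a) (m a)) := by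
  unfold PS.dpRows
  fun_prop

@[fun_prop]
theorem Poly.dpTop {d : α → Nm} {L : α → ℕ} {W : α → List (List Bool)}
    {ac : α → List (Nm × List Bool)} {Φ : α → Fm} {Ss : α → List Fm}
    (hd : Poly d) (hL : Poly L) (hW : Poly W)
    (hac : Poly ac) (hΦ : Poly Φ) (hS : Poly Ss) :
    Poly (fun a => dpTop (d a) (L a) (W a) (ac a) (Φ a) (Ss a)) := by
  unfold PS.dpTop
  fun_prop

@[fun_prop]
theorem Poly.dpEnd {d : α → Nm} {L : α → ℕ} {W : α → List (List Bool)}
    {ac : α → List (Nm × List Bool)} {Φ A : α → Fm}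
    (hd : Poly d) (hL : Poly L) (hW : Poly W)
    (hac : Poly ac) (hΦ : Poly Φ) (hA : Poly A) :
    Poly (fun a => dpEnd (d a) (L a) (W a) (ac a) (Φ a) (A a)) := by
  unfold PS.dpEnd
  fun_prop

@[fun_prop]
theorem Poly.dpAll {d : α → Nm} {L : α → ℕ} {W : α → List (List Bool)}
    {ac : α → List (Nm × List Bool)} {Ss : α → List Fm} {A : α → Fm}
    (hd : Poly d) (hL : Poly L) (hW : Poly W)
    (hac : Poly ac) (hS : Poly Ss) (hA : Poly A) :
    Poly (fun a => dpAll (d a) (L a) (W a) (ac a) (Ss a) (A a)) := by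
  unfold PS.dpAll
  fun_prop

end poly

theorem dp_main {G : List Rule} (hG : Rich G) :
    ∃ T : (ℕ × Nm × List (List Bool)) × List (Nm × List Bool) × List Fm × Fm → List Fm,
    PT.Poly T ∧
    ∀ (L : ℕ) (d : Nm) (W : List (List Bool)) (e c : ℕ) (ac : List (Nm × List Bool))
      (Ss : List Fm) (A : Fm),
      W.Nodup → (∀ w, w ∈ W ↔ w.length = e) → c ≤ e →
      (∀ p ∈ ac, p.2.length = c ∧ true ∈ p.2) → (ac.map Prod.snd).Nodup →
      (ac.map Prod.fst).Nodup → (∀ p ∈ ac, p.1.length ≤ L) → d.length ≤ L →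
      d ∉ ac.map Prod.fst → (∀ x, x ∈ A.vars ↔ x ∈ ac.map Prod.fst) →
      A.Eval (fun _ => False) → Ss.length = ac.length →
      (∀ (j : ℕ) (hj : j < Ss.length),
        sm (litsOf (HD d L W ac ac.length (j + 1))) Ss[j] =
        sm (litsOf (HD d L W ac ac.length (j + 1))) (AZ d L W ac ac.length A)) →
      ∀ π : List Fm, (∀ (j : ℕ) (hj : j < Ss.length), imp (GH d L W (j + 1)) Ss[j] ∈ π) →
        Just (FP G) π (T ((L, d, W), ac, Ss, A)) ∧
        imp (cj d ((List.range ac.length).flatMap (fun J => zoff L J W))) A ∈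
          T ((L, d, W), ac, Ss, A) := by
  refine ⟨fun q => dpAll q.1.2.1 q.1.1 q.1.2.2 q.2.1 q.2.2.1 q.2.2.2, by fun_prop, ?_⟩
  intro L d W e c ac Ss A _ hW hc hac hs hf hl hdl hd hv hA hS hsm π hπ
  exact dp_all ⟨hW, hc, hac, hs, hf, hl, hdl, hd, fun x hx => (hv x).1 hx⟩ hG hA hS hsm hπ

end Pool.Agent.H.MP_0447ec_lc.PS
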