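import Pool.Agent.H.MP_0447ec_lc.LV.DualDefs
import Pool.Agent.H.MP_0447ec_lc.LV.SliceBasic
import Pool.Agent.H.MP_0447ec_lc.LV.AsmB2
import Pool.Agent.H.MP_0447ec_lc.LV.Fin
import Pool.Agent.H.MP_0447ec_lc.LV.Reg0

/-!
# From the token form to dual rails

The blocks `0, ..., n - 1` of the token form are replaced, one after the other, by pairs of
variables: in block `J` the variable with the number `10...0` is exchanged with the first and the
variable with the number `0...0` with the second variable of pair `J`, and the other variables of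
the block are false by hypothesis. `dHyp` is the hypothesis after `J` of these steps.
-/

namespace Pool.Agent.H.MP_0447ec_lc.PS

open Fm Pool.Agent.H.MP_0447ec_lc.PT

/-! ### Exchange of two pairs of names -/

/-- The table that exchanges `z` with `a` and `z'` with `b`. -/
def T4 (z a z' b : Nm) : List (Nm × Fm) := [(z, var a), (a, var z), (z', var b), (b, var z')]

/-- The permutation that exchanges `z` with `a` and `z'` with `b`. -/
def P4 (z a z' b : Nm) : Equiv.Perm Nm := Equiv.swap z' b * Equiv.swap z a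

theorem P4_ne {z a z' b w : Nm} (h1 : w ≠ z) (h2 : w ≠ a) (h3 : w ≠ z') (h4 : w ≠ b) :
    P4 z a z' b w = w := by
  unfold P4
  rw [Equiv.Perm.mul_apply, Equiv.swap_apply_of_ne_of_ne h1 h2,
    Equiv.swap_apply_of_ne_of_ne h3 h4]

theorem tsub_T4 {z a z' b : Nm} (h1 : z ≠ a) (h2 : z ≠ z') (h3 : z ≠ b) (h4 : a ≠ z')
    (h5 : a ≠ b) (h6 : z' ≠ b) (w : Nm) : tsub (T4 z a z' b) w = var (P4 z a z' b w) := by
  unfold T4
  rw [tsub_cons, tsub_cons, tsub_cons, tsub_cons, tsub_nil]
  simp only
  by_cases e1 : z = w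
  · subst e1
    rw [if_pos rfl]
    unfold P4
    rw [Equiv.Perm.mul_apply, Equiv.swap_apply_left, Equiv.swap_apply_of_ne_of_ne h4 h5]
  · rw [if_neg e1]
    by_cases e2 : a = w
    · subst e2
      rw [if_pos rfl]
      unfold P4
      rw [Equiv.Perm.mul_apply, Equiv.swap_apply_right, Equiv.swap_apply_of_ne_of_ne h2 h3]
    · rw [if_neg e2]
      by_cases e3 : z' = w
      · subst e3
        rw [if_pos rfl]
        unfold P4
        rw [Equiv.Perm.mul_apply, Equiv.swap_apply_of_ne_of_ne h2.symm h4.symm,
          Equiv.swap_apply_left]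
      · rw [if_neg e3]
        by_cases e4 : b = w
        · subst e4
          rw [if_pos rfl]
          unfold P4
          rw [Equiv.Perm.mul_apply, Equiv.swap_apply_of_ne_of_ne h3.symm h5.symm,
            Equiv.swap_apply_right]
        · rw [if_neg e4, P4_ne (fun e => e1 e.symm) (fun e => e2 e.symm) (fun e => e3 e.symm)
            (fun e => e4 e.symm)]

/-! ### The hypotheses -/

/-- The hypothesis on the pair of `x`. -/
def rD (f : Bool) (x : Nm) : Fm :=
  if f then Fm.iff (neg (var (false :: x))) (neg (neg (var (true :: x))))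
  else Fm.iff (var (false :: x)) (neg (var (true :: x)))

/-- The formula that replaces `x`. -/
def rt (f : Bool) (x : Nm) : Fm := if f then neg (var (false :: x)) else var (false :: x)

/-- The hypotheses for one block. -/
def dComp (f : Bool) (d : Nm) (L : ℕ) (W : List (List Bool)) (J : ℕ) (p : Nm × ℕ) : List Fm :=
  if p.2 < J then rD f p.1 :: zoff L p.2 W else [zone d L p.2 W]

/-- The hypothesis after `J` steps. -/
def dHyp (f : Bool) (d : Nm) (L : ℕ) (W : List (List Bool)) (xs : List Nm) (J : ℕ) : Fm :=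
  cj d (xs.zipIdx.flatMap (fun p => dComp f d L W J p))

/-- The table after `J` steps. -/
def dTab (f : Bool) (d : Nm) (L : ℕ) (W : List (List Bool)) (xs : List Nm) (J : ℕ) :
    List (Nm × Fm) :=
  xs.zipIdx.map (fun p => (p.1, if p.2 < J then rt f p.1 else zbit d L p.2 W 0))

/-- The formula after `J` steps. -/
def dZ (f : Bool) (d : Nm) (L : ℕ) (W : List (List Bool)) (xs : List Nm) (A : Fm) (J : ℕ) : Fm :=
  A.subst (tsub (dTab f d L W xs J))

/-- The hypothesis with the names of the pair. -/
def dE (f : Bool) (d : Nm) (L : ℕ) (W : List (List Bool)) (xs : List Nm) (x : Nm) (J : ℕ) : Fm :=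
  Fm.and (Fm.and (ct (f :: x) true) (ct ((!f) :: x) true)) (dHyp f d L W xs J)

/-- The table of the exchange. -/
def dT (f : Bool) (L e : ℕ) (x : Nm) (J : ℕ) : List (Nm × Fm) :=
  T4 (fn L J (true :: List.replicate (e - 1) false)) (f :: x)
    (fn L J (List.replicate e false)) ((!f) :: x)

/-- Lines that derive anything from a hypothesis with a false conjunct `D`. -/
def contraL (H D B : Fm) : List Fm := projL H ++ (smL H (litsOf H) D ++ [imp H B])

theorem contraL_just {G : List Rule} (hG : Rich G) {H D B : Fm} {π : List Fm}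
    (h1 : D ∈ ands H) (h2 : (sm (litsOf H) D).1 = some false) :
    Just (RuleStep G) π (contraL H D B) ∧ imp H B ∈ contraL H D B := by
  refine ⟨?_, by simp [contraL]⟩
  refine Just.append (projL_just hG H π) ?_
  have hK : ∀ p ∈ litsOf H, imp H (lit p.1 p.2) ∈ π ++ projL H :=
    fun p hp => List.mem_append_right _ (mem_projL (mem_litsOf.1 hp))
  obtain ⟨j, m⟩ := smL_just hG H (litsOf H) D (π ++ projL H) hK
  refine Just.append j ⟨Or.inr ?_, trivial⟩
  refine hG.absurd (A := D) (List.mem_append_left _ (List.mem_append_right _ (mem_projL h1))) ?_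
  refine List.mem_append_right _ ?_
  have : stl H D (sm (litsOf H) D) = imp H (neg D) := by
    unfold stl; rw [h2]
  rwa [this] at m

/-- The words of length two. -/
def W2 : List (List Bool) := [[true, true], [true, false], [false, true], [false, false]]

theorem mem_W2 (w : List Bool) : w ∈ W2 ↔ w.length = 2 := by
  constructor
  · intro h
    simp only [W2, List.mem_cons, List.not_mem_nil, or_false] at h
    rcases h with rfl | rfl | rfl | rfl <;> rfl
  · intro h
    obtain ⟨a, b, rfl⟩ := List.length_eq_two.1 h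
    cases a <;> cases b <;> simp [W2]

/-- Lines for one value of the pair. -/
def dCase (f : Bool) (d : Nm) (L e : ℕ) (W : List (List Bool)) (xs : List Nm) (A : Fm) (x : Nm)
    (J : ℕ) (w : List Bool) : List Fm :=
  if w.headD false = w.tail.headD false then
    contraL (lw (dHyp f d L W xs (J + 1)) [f :: x, (!f) :: x] w) (rD f x)
      (dZ f d L W xs A (J + 1))
  else
    li (lw (dHyp f d L W xs (J + 1)) [f :: x, (!f) :: x] w)
      ((dE f d L W xs x J).subst (tsub (dT f L e x J)))
      ((dZ f d L W xs A J).subst (tsub (dT f L e x J)))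
      (dZ f d L W xs A (J + 1))

/-- Lines for one block. -/
def dStep (f : Bool) (d : Nm) (L e : ℕ) (W : List (List Bool)) (xs : List Nm) (A : Fm) (x : Nm)
    (J : ℕ) : List Fm :=
  li (dE f d L W xs x J) (dHyp f d L W xs J) (dZ f d L W xs A J) (dZ f d L W xs A J) ++
  ([(imp (dE f d L W xs x J) (dZ f d L W xs A J)).subst (tsub (dT f L e x J))] ++
  (W2.flatMap (fun w => dCase f d L e W xs A x J w) ++
  (splitL (dHyp f d L W xs (J + 1)) (dZ f d L W xs A (J + 1)) [f :: x, (!f) :: x] W2 ++
  [imp (dHyp f d L W xs (J + 1)) (dZ f d L W xs A (J + 1))])))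

/-- What is needed of the names. -/
structure DOk (d : Nm) (L e : ℕ) (W : List (List Bool)) (xs : List Nm) (A : Fm) : Prop where
  he : 0 < e
  hWn : W.Nodup
  hW : ∀ w, w ∈ W ↔ w.length = e
  hd : d.length = L
  hx : ∀ x ∈ xs, x.length + 1 < L
  hn : xs.Nodup
  hA : ∀ x ∈ A.vars, x ∈ xs

section spec

variable {f : Bool} {d : Nm} {L e : ℕ} {W : List (List Bool)} {xs : List Nm} {A : Fm}

theorem DOk.v_ne (h : DOk d L e W xs A) :
    (true :: List.replicate (e - 1) false : List Bool) ≠ List.replicate e false := by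
  have := h.he
  obtain ⟨k, rfl⟩ : ∃ k, e = k + 1 := ⟨e - 1, by omega⟩
  rw [List.replicate_succ]
  simp

theorem DOk.v1 (h : DOk d L e W xs A) :
    (true :: List.replicate (e - 1) false : List Bool) ∈ W := by
  have := h.he
  rw [h.hW]
  simp
  omega

theorem DOk.v0 (h : DOk d L e W xs A) : (List.replicate e false : List Bool) ∈ W := by
  rw [h.hW]; simp

/-- The permutation of the exchange. -/
def dP (f : Bool) (L e : ℕ) (x : Nm) (J : ℕ) : Equiv.Perm Nm :=
  P4 (fn L J (true :: List.replicate (e - 1) false)) (f :: x)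
    (fn L J (List.replicate e false)) ((!f) :: x)

theorem DOk.fn_ne (h : DOk d L e W xs A) {x : Nm} (hx : x ∈ xs) (g : Bool) (J : ℕ)
    (v : List Bool) : fn L J v ≠ g :: x := by
  intro e1
  have h1 := fn_length L J v
  have h2 := h.hx x hx
  rw [e1, List.length_cons] at h1
  omega

theorem DOk.fn_ne_d (h : DOk d L e W xs A) (J : ℕ) (v : List Bool) : fn L J v ≠ d := by
  intro e1
  have h1 := fn_length L J v
  have h2 := h.hd
  rw [e1] at h1
  omega

theorem DOk.d_ne (h : DOk d L e W xs A) {x : Nm} (hx : x ∈ xs) (g : Bool) : d ≠ g :: x := by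
  intro e1
  have h1 := h.hx x hx
  have h2 := h.hd
  rw [e1, List.length_cons] at h2
  omega

theorem DOk.tsub (h : DOk d L e W xs A) {x : Nm} (hx : x ∈ xs) (J : ℕ) (w : Nm) :
    PS.tsub (dT f L e x J) w = var (dP f L e x J w) := by
  unfold dT dP
  refine tsub_T4 (h.fn_ne hx _ _ _) ?_ (h.fn_ne hx _ _ _) (h.fn_ne hx _ _ _).symm ?_
    (h.fn_ne hx _ _ _) w
  · intro e1
    exact h.v_ne (fn_inj e1).2
  · intro e1
    have := (List.cons.inj e1).1
    cases f <;> simp at this

theorem DOk.dP_v1 (h : DOk d L e W xs A) {x : Nm} (hx : x ∈ xs) (J : ℕ) :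
    dP f L e x J (fn L J (true :: List.replicate (e - 1) false)) = f :: x := by
  unfold dP P4
  rw [Equiv.Perm.mul_apply, Equiv.swap_apply_left, Equiv.swap_apply_of_ne_of_ne]
  · exact (h.fn_ne hx _ _ _).symm
  · intro e1
    have := (List.cons.inj e1).1
    cases f <;> simp at this

theorem DOk.dP_v0 (h : DOk d L e W xs A) {x : Nm} (hx : x ∈ xs) (J : ℕ) :
    dP f L e x J (fn L J (List.replicate e false)) = (!f) :: x := by
  unfold dP P4
  rw [Equiv.Perm.mul_apply,
    Equiv.swap_apply_of_ne_of_ne (a := fn L J (true :: List.replicate (e - 1) false))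
      (b := f :: x) (fun e1 => h.v_ne (fn_inj e1).2.symm) (h.fn_ne hx _ _ _),
    Equiv.swap_apply_left]

theorem DOk.dP_fn (h : DOk d L e W xs A) {x : Nm} (hx : x ∈ xs) {J i : ℕ} {v : List Bool}
    (hv : i = J → v ≠ true :: List.replicate (e - 1) false ∧ v ≠ List.replicate e false) :
    dP f L e x J (fn L i v) = fn L i v := by
  refine P4_ne ?_ (h.fn_ne hx _ _ _) ?_ (h.fn_ne hx _ _ _)
  · intro e1
    obtain ⟨e2, e3⟩ := fn_inj e1
    exact (hv e2).1 e3
  · intro e1
    obtain ⟨e2, e3⟩ := fn_inj e1
    exact (hv e2).2 e3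

theorem DOk.dP_d (h : DOk d L e W xs A) {x : Nm} (hx : x ∈ xs) (J : ℕ) :
    dP f L e x J d = d :=
  P4_ne (h.fn_ne_d _ _).symm (h.d_ne hx _) (h.fn_ne_d _ _).symm (h.d_ne hx _)

theorem DOk.dP_r (h : DOk d L e W xs A) {x y : Nm} (hx : x ∈ xs) (hy : y ∈ xs) (hne : y ≠ x)
    (g : Bool) (J : ℕ) : dP f L e x J (g :: y) = g :: y :=
  P4_ne (h.fn_ne hy _ _ _).symm (fun e1 => hne (List.cons.inj e1).2) (h.fn_ne hy _ _ _).symm
    (fun e1 => hne (List.cons.inj e1).2)

/-! ### Effect of the exchange -/

theorem DOk.sub_self (h : DOk d L e W xs A) {x : Nm} (hx : x ∈ xs) {J : ℕ} {X : Fm}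
    (hX : ∀ y ∈ X.vars, dP f L e x J y = y) : X.subst (PS.tsub (dT f L e x J)) = X :=
  Fm.subst_eq_self fun y hy => by rw [h.tsub hx, hX y hy]

theorem vars_rD {g : Bool} {x y : Nm} (hy : y ∈ (rD g x).vars) : ∃ b, y = b :: x := by
  cases g
  · simp only [rD, Fm.iff, Fm.vars, Bool.false_eq_true, if_false, Set.mem_union,
      Set.mem_singleton_iff] at hy
    rcases hy with (hy | hy) | (hy | hy) <;> exact ⟨_, hy⟩
  · simp only [rD, Fm.iff, Fm.vars, if_true, Set.mem_union, Set.mem_singleton_iff] at hy
    rcases hy with (hy | hy) | (hy | hy) <;> exact ⟨_, hy⟩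

theorem vars_rt {g : Bool} {x y : Nm} (hy : y ∈ (rt g x).vars) : y = false :: x := by
  cases g
  · simpa [rt, Fm.vars] using hy
  · simpa [rt, Fm.vars] using hy

theorem DOk.sub_rD (h : DOk d L e W xs A) {x y : Nm} (hx : x ∈ xs) (hy : y ∈ xs) (hne : y ≠ x)
    (J : ℕ) : (rD f y).subst (PS.tsub (dT f L e x J)) = rD f y := by
  refine h.sub_self hx fun w hw => ?_
  obtain ⟨b, rfl⟩ := vars_rD hw
  exact h.dP_r hx hy hne b J

theorem DOk.sub_rt (h : DOk d L e W xs A) {x y : Nm} (hx : x ∈ xs) (hy : y ∈ xs) (hne : y ≠ x)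
    (J : ℕ) : (rt f y).subst (PS.tsub (dT f L e x J)) = rt f y := by
  refine h.sub_self hx fun w hw => ?_
  rw [vars_rt hw]
  exact h.dP_r hx hy hne _ J

theorem DOk.sub_zone (h : DOk d L e W xs A) {x : Nm} (hx : x ∈ xs) {i J : ℕ} (hi : i ≠ J) :
    (zone d L i W).subst (PS.tsub (dT f L e x J)) = zone d L i W := by
  refine h.sub_self hx fun w hw => ?_
  rcases dp_zone_vars hw with rfl | ⟨v, rfl⟩
  · exact h.dP_d hx J
  · exact h.dP_fn hx (fun e1 => absurd e1 hi)

theorem DOk.sub_zbit (h : DOk d L e W xs A) {x : Nm} (hx : x ∈ xs) {i J : ℕ} (hi : i ≠ J) :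
    (zbit d L i W 0).subst (PS.tsub (dT f L e x J)) = zbit d L i W 0 := by
  refine h.sub_self hx fun w hw => ?_
  rcases dp_zbit_vars hw with rfl | ⟨v, rfl⟩
  · exact h.dP_d hx J
  · exact h.dP_fn hx (fun e1 => absurd e1 hi)

theorem DOk.sub_zoff (h : DOk d L e W xs A) {x : Nm} (hx : x ∈ xs) {i J : ℕ} (hi : i ≠ J)
    {v : List Bool} : (neg (var (fn L i v))).subst (PS.tsub (dT f L e x J)) =
      neg (var (fn L i v)) := by
  refine h.sub_self hx fun w hw => ?_
  have hw' : w = fn L i v := hw
  rw [hw']
  exact h.dP_fn hx (fun e1 => absurd e1 hi)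

/-! ### Values -/

/-- The value of a variable of block `J` after the exchange. -/
def dVal (e : ℕ) (α β : Bool) (v : List Bool) : Bool :=
  if v = true :: List.replicate (e - 1) false then α
  else if v = List.replicate e false then β else false

/-- What is known after the exchange. -/
structure KOk (f : Bool) (L : ℕ) (W : List (List Bool)) (x : Nm) (J : ℕ) (α β : Bool)
    (K : List (Nm × Bool)) : Prop where
  a : lk K (f :: x) = some α
  b : lk K ((!f) :: x) = some β
  z : ∀ v ∈ W, lk K (fn L J v) = some false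

variable {x : Nm} {J : ℕ} {α β : Bool} {K : List (Nm × Bool)}

theorem DOk.sm_z (h : DOk d L e W xs A) (hx : x ∈ xs) (hK : KOk f L W x J α β K)
    {v : List Bool} (hv : v ∈ W) :
    sm K (PS.tsub (dT f L e x J) (fn L J v)) = (some (dVal e α β v), var []) := by
  rw [h.tsub hx]
  unfold dVal
  by_cases h1 : v = true :: List.replicate (e - 1) false
  · rw [if_pos h1, h1, h.dP_v1 hx]
    exact dp_sm_var hK.a
  · rw [if_neg h1]
    by_cases h2 : v = List.replicate e false
    · rw [if_pos h2, h2, h.dP_v0 hx]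
      exact dp_sm_var hK.b
    · rw [if_neg h2, h.dP_fn hx (fun _ => ⟨h1, h2⟩)]
      exact dp_sm_var (hK.z v hv)

theorem DOk.s_d (h : DOk d L e W xs A) (hx : x ∈ xs) (J : ℕ) :
    PS.tsub (dT f L e x J) d = var d := by rw [h.tsub hx, h.dP_d hx]

theorem DOk.sm_zone (h : DOk d L e W xs A) (hx : x ∈ xs) (hK : KOk f L W x J α β K)
    (hne : α ≠ β) :
    sm K ((zone d L J W).subst (PS.tsub (dT f L e x J))) = (some true, var []) := by
  unfold zone
  rw [Fin_sm_dj (s := PS.tsub (dT f L e x J)) W (fun v => cj d (zat L J W v))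
    (fun v => W.all (fun u => dVal e α β u == decide (u = v)))]
  · congr 2
    rw [List.any_eq_true]
    have hv1 := h.v1
    have hv0 := h.v0
    have hvn := h.v_ne
    cases α
    · have hβ : β = true := by cases β <;> simp_all
      subst hβ
      refine ⟨_, hv0, ?_⟩
      rw [List.all_eq_true]
      intro u hu
      unfold dVal
      by_cases h1 : u = true :: List.replicate (e - 1) false
      · subst h1
        simp [hvn]
      · by_cases h2 : u = List.replicate e false
        · simp [h2, hvn.symm]
        · simp [h1, h2]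
    · have hβ : β = false := by cases β <;> simp_all
      subst hβ
      refine ⟨_, hv1, ?_⟩
      rw [List.all_eq_true]
      intro u hu
      unfold dVal
      by_cases h1 : u = true :: List.replicate (e - 1) false
      · simp [h1]
      · by_cases h2 : u = List.replicate e false
        · simp [h1]
        · simp [h1]
  · intro v hv
    rw [subst_cj (h.s_d hx J)]
    unfold zat
    rw [List.map_map]
    refine sm_cj_val (fun u => (lit (fn L J u) (decide (u = v))).subst
      (PS.tsub (dT f L e x J))) (fun u => dVal e α β u == decide (u = v)) W ?_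
    intro u hu
    exact Fin_sm_lit (h.sm_z hx hK hu)

theorem DOk.sm_zbit (h : DOk d L e W xs A) (hx : x ∈ xs) (hK : KOk f L W x J α β K) :
    sm K ((zbit d L J W 0).subst (PS.tsub (dT f L e x J))) = (some α, var []) := by
  unfold zbit
  rw [Fin_sm_dj (s := PS.tsub (dT f L e x J)) _ (fun v => var (fn L J v))
    (fun v => dVal e α β v)]
  · congr 2
    rw [Bool.eq_iff_iff, List.any_eq_true]
    constructor
    · rintro ⟨v, hv, hv2⟩
      obtain ⟨hv1, hv3⟩ := List.mem_filter.1 hv
      unfold dVal at hv2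
      by_cases h1 : v = true :: List.replicate (e - 1) false
      · rwa [if_pos h1] at hv2
      · rw [if_neg h1] at hv2
        by_cases h2 : v = List.replicate e false
        · subst h2
          have := h.he
          obtain ⟨k, rfl⟩ : ∃ k, e = k + 1 := ⟨e - 1, by omega⟩
          simp [List.replicate_succ] at hv3
        · simp [h2] at hv2
    · intro hα
      refine ⟨_, List.mem_filter.2 ⟨h.v1, by simp⟩, ?_⟩
      unfold dVal
      rw [if_pos rfl]
      exact hα
  · intro v hv
    exact h.sm_z hx hK (List.mem_filter.1 hv).1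

theorem sm_rt (hK : KOk f L W x J α β K) (hne : α ≠ β) :
    sm K (rt f x) = (some α, var []) := by
  have ha := dp_sm_var hK.a
  have hb := dp_sm_var hK.b
  cases f
  · exact ha
  · have e1 : sm K (rt true x) = smN (sm K (var (false :: x))) := rfl
    rw [e1, show sm K (var (false :: x)) = (some β, var []) from hb]
    cases α <;> cases β <;> simp_all [smN]

theorem sm_rD (hK : KOk f L W x J α β K) :
    sm K (rD f x) = (some (decide (α ≠ β)), var []) := by
  have ha := dp_sm_var hK.a
  have hb := dp_sm_var hK.b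
  cases f
  · have e1 : sm K (rD false x) = smAnd
        (smImp (sm K (var (false :: x))) (smN (sm K (var (true :: x)))))
        (smImp (smN (sm K (var (true :: x)))) (sm K (var (false :: x)))) := rfl
    rw [e1, show sm K (var (false :: x)) = (some α, var []) from ha,
      show sm K (var (true :: x)) = (some β, var []) from hb]
    cases α <;> cases β <;> rfl
  · have e1 : sm K (rD true x) = smAnd
        (smImp (smN (sm K (var (false :: x)))) (smN (smN (sm K (var (true :: x))))))
        (smImp (smN (smN (sm K (var (true :: x))))) (smN (sm K (var (false :: x))))) := rfl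
    rw [e1, show sm K (var (true :: x)) = (some α, var []) from ha,
      show sm K (var (false :: x)) = (some β, var []) from hb]
    cases α <;> cases β <;> rfl

end spec

end Pool.Agent.H.MP_0447ec_lc.PS
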