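import Pool.Agent.H.MP_0447ec_lc.LV.DualA

/-!
# From the token form to dual rails: the derivation
-/

namespace Pool.Agent.H.MP_0447ec_lc.PS

open Fm Pool.Agent.H.MP_0447ec_lc.PT

section spec

variable {f : Bool} {d : Nm} {L e : ℕ} {W : List (List Bool)} {xs : List Nm} {A : Fm}
  {x : Nm} {J : ℕ} {α β : Bool}

/-! ### Literals of the hypotheses -/

theorem ands_rD (g : Bool) (y : Nm) (w : Nm) (b : Bool) : lit w b ∉ ands (rD g y) := by
  cases g <;> cases b <;> simp [rD, Fm.iff, ands, lit]

theorem lit_dHyp {w : Nm} {b : Bool} (h : lit w b ∈ ands (dHyp f d L W xs J)) :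
    b = false ∧ ∃ i, ∃ v, w = fn L i v := by
  unfold dHyp at h
  obtain ⟨X, hX, h⟩ := dp_lit_cj h
  obtain ⟨p, hp, hX⟩ := List.mem_flatMap.1 hX
  unfold dComp at hX
  split_ifs at hX with hJ
  · rcases List.mem_cons.1 hX with rfl | hX
    · exact absurd h (ands_rD _ _ _ _)
    · unfold zoff at hX
      obtain ⟨v, -, rfl⟩ := List.mem_map.1 hX
      have h1 : lit w b = lit (fn L p.2 v) false := by simpa [ands, lit] using h
      obtain ⟨h2, h3⟩ := dp_lit_inj h1
      exact ⟨h3, p.2, v, h2⟩
  · rw [List.mem_singleton] at hX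
    subst hX
    unfold zone at h
    rw [dp_ands_dj, List.mem_singleton] at h
    exact absurd h dp_lit_ne_dj

theorem lw_two (H : Fm) (a b : Nm) (α β : Bool) :
    lw H [a, b] [α, β] = Fm.and (lit a α) (Fm.and (lit b β) H) := rfl

theorem ands_lit (w : Nm) (b : Bool) : ands (lit w b) = [lit w b] := by cases b <;> rfl

theorem lit_lw {H : Fm} {a b w : Nm} {α β γ : Bool} :
    lit w γ ∈ ands (lw H [a, b] [α, β]) ↔
      (w = a ∧ γ = α) ∨ (w = b ∧ γ = β) ∨ lit w γ ∈ ands H := by
  rw [lw_two]
  simp only [ands, ands_lit, List.mem_cons, List.mem_append, List.not_mem_nil, or_false]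
  have n1 : ∀ X Y, lit w γ ≠ Fm.and X Y := by
    intro X Y
    cases γ <;> simp [lit]
  constructor
  · rintro (h | h | h | h | h)
    · exact absurd h (n1 _ _)
    · exact Or.inl (dp_lit_inj h)
    · exact absurd h (n1 _ _)
    · exact Or.inr (Or.inl (dp_lit_inj h))
    · exact Or.inr (Or.inr h)
  · rintro (⟨rfl, rfl⟩ | ⟨rfl, rfl⟩ | h)
    · exact Or.inr (Or.inl rfl)
    · exact Or.inr (Or.inr (Or.inr (Or.inl rfl)))
    · exact Or.inr (Or.inr (Or.inr (Or.inr h)))

/-- The index of a member. -/
theorem zi_mem {xs : List Nm} {J : ℕ} (hJ : J < xs.length) : (xs[J], J) ∈ xs.zipIdx := by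
  rw [List.mem_zipIdx_iff_getElem?]
  exact List.getElem?_eq_getElem hJ

theorem zi_get {xs : List Nm} {p : Nm × ℕ} (hp : p ∈ xs.zipIdx) :
    ∃ h : p.2 < xs.length, p.1 = xs[p.2] := by
  rw [List.mem_zipIdx_iff_getElem?] at hp
  obtain ⟨h1, h2⟩ := List.getElem?_eq_some_iff.1 hp
  exact ⟨h1, h2.symm⟩

theorem DOk.KOk (h : DOk d L e W xs A) (hJ : J < xs.length) :
    KOk f L W xs[J] J α β
      (litsOf (lw (dHyp f d L W xs (J + 1)) [f :: xs[J], (!f) :: xs[J]] [α, β])) := by
  have hx : xs[J] ∈ xs := List.getElem_mem _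
  refine ⟨?_, ?_, ?_⟩
  · refine lk_eq (mem_litsOf.2 (lit_lw.2 (Or.inl ⟨rfl, rfl⟩))) ?_
    intro b' hb'
    rcases lit_lw.1 (mem_litsOf.1 hb') with h1 | h1 | h1
    · exact h1.2
    · have := (List.cons.inj h1.1).1
      cases f <;> simp at this
    · obtain ⟨i, v, h2⟩ := (lit_dHyp h1).2
      exact absurd h2.symm (h.fn_ne hx _ _ _)
  · refine lk_eq (mem_litsOf.2 (lit_lw.2 (Or.inr (Or.inl ⟨rfl, rfl⟩)))) ?_
    intro b' hb'
    rcases lit_lw.1 (mem_litsOf.1 hb') with h1 | h1 | h1
    · have := (List.cons.inj h1.1).1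
      cases f <;> simp at this
    · exact h1.2
    · obtain ⟨i, v, h2⟩ := (lit_dHyp h1).2
      exact absurd h2.symm (h.fn_ne hx _ _ _)
  · intro v hv
    refine lk_eq (mem_litsOf.2 (lit_lw.2 (Or.inr (Or.inr ?_)))) ?_
    · unfold dHyp
      refine mem_ands_cj (A := neg (var (fn L J v))) ?_ (self_mem_ands _)
      rw [List.mem_flatMap]
      refine ⟨_, zi_mem hJ, ?_⟩
      unfold dComp
      rw [if_pos (Nat.lt_succ_self J)]
      exact List.mem_cons_of_mem _ (List.mem_map_of_mem (f := fun v => neg (var (fn L J v))) hv)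
    · intro b' hb'
      rcases lit_lw.1 (mem_litsOf.1 hb') with h1 | h1 | h1
      · exact absurd h1.1 (h.fn_ne hx _ _ _)
      · exact absurd h1.1 (h.fn_ne hx _ _ _)
      · exact (lit_dHyp h1).1

theorem ands_sub_lw {H X : Fm} {a b : Nm} {α β : Bool} (h : X ∈ ands H) :
    X ∈ ands (lw H [a, b] [α, β]) := mem_ands_lw h _ _

theorem DOk.get_ne (h : DOk d L e W xs A) {i : ℕ} (hi : i < xs.length) (hJ : J < xs.length)
    (hne : i ≠ J) : xs[i] ≠ xs[J] := fun e1 => hne ((List.Nodup.getElem_inj_iff h.hn).1 e1)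

/-- The hypothesis after the exchange. -/
theorem DOk.okH_sub (h : DOk d L e W xs A) (hJ : J < xs.length) (hne : α ≠ β) :
    okH (lw (dHyp f d L W xs (J + 1)) [f :: xs[J], (!f) :: xs[J]] [α, β])
      ((dE f d L W xs xs[J] J).subst (PS.tsub (dT f L e xs[J] J))) := by
  have hx : xs[J] ∈ xs := List.getElem_mem _
  have hK := h.KOk (f := f) (α := α) (β := β) hJ
  have e1 : (dE f d L W xs xs[J] J).subst (PS.tsub (dT f L e xs[J] J)) =
      Fm.and (Fm.and ((ct (f :: xs[J]) true).subst (PS.tsub (dT f L e xs[J] J)))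
        ((ct ((!f) :: xs[J]) true).subst (PS.tsub (dT f L e xs[J] J))))
        ((dHyp f d L W xs J).subst (PS.tsub (dT f L e xs[J] J))) := rfl
  rw [e1, okH_and, okH_and]
  refine ⟨⟨okH_of_sm ?_, okH_of_sm ?_⟩, ?_⟩
  · rw [Fin_sm_ct]
  · rw [Fin_sm_ct]
  · unfold dHyp
    rw [subst_cj (h.s_d hx J), okH_cj]
    intro X hX
    obtain ⟨Y, hY, rfl⟩ := List.mem_map.1 hX
    obtain ⟨p, hp, hY⟩ := List.mem_flatMap.1 hY
    obtain ⟨hp1, hp2⟩ := zi_get hp
    have hmem : ∀ Z, Z ∈ dComp f d L W (J + 1) p →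
        okH (lw (cj d (xs.zipIdx.flatMap (fun p => dComp f d L W (J + 1) p)))
          [f :: xs[J], (!f) :: xs[J]] [α, β]) Z := by
      intro Z hZ
      refine okH_of_mem (ands_sub_lw ?_)
      refine mem_ands_cj (A := Z) ?_ (self_mem_ands _)
      exact List.mem_flatMap.2 ⟨p, hp, hZ⟩
    unfold dComp at hY
    split_ifs at hY with hlt
    · have hpx : p.1 ∈ xs := by rw [hp2]; exact List.getElem_mem _
      have hpne : p.1 ≠ xs[J] := by
        rw [hp2]
        exact h.get_ne hp1 hJ (by omega)
      rcases List.mem_cons.1 hY with rfl | hY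
      · rw [h.sub_rD hx hpx hpne J]
        refine hmem _ ?_
        unfold dComp
        rw [if_pos (by omega)]
        simp
      · unfold zoff at hY
        obtain ⟨v, hv, rfl⟩ := List.mem_map.1 hY
        rw [h.sub_zoff hx (by omega)]
        refine hmem _ ?_
        unfold dComp
        rw [if_pos (by omega)]
        exact List.mem_cons_of_mem _
          (List.mem_map_of_mem (f := fun v => neg (var (fn L p.2 v))) hv)
    · rw [List.mem_singleton] at hY
      subst hY
      by_cases hpJ : p.2 = J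
      · rw [hpJ]
        refine okH_of_sm ?_
        have := h.sm_zone hx hK hne
        unfold dHyp at this
        rw [this]
      · rw [h.sub_zone hx hpJ]
        refine hmem _ ?_
        unfold dComp
        rw [if_neg (by omega)]
        simp

/-- The value of a table. -/
theorem DOk.tab (h : DOk d L e W xs A) {i : ℕ} (hi : i < xs.length) (J : ℕ) :
    PS.tsub (dTab f d L W xs J) xs[i] = if i < J then rt f xs[i] else zbit d L i W 0 := by
  refine tsub_of_mem (t := dTab f d L W xs J) ?_ ?_
  · exact List.mem_map_of_mem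
      (f := fun p : Nm × ℕ => (p.1, if p.2 < J then rt f p.1 else zbit d L p.2 W 0)) (zi_mem hi)
  · unfold dTab
    rw [List.map_map]
    have : (Prod.fst ∘ fun p : Nm × ℕ =>
        (p.1, if p.2 < J then rt f p.1 else zbit d L p.2 W 0)) = Prod.fst := rfl
    rw [this, List.zipIdx_map_fst]
    exact h.hn

theorem DOk.sm_dZ (h : DOk d L e W xs A) (hJ : J < xs.length) (hne : α ≠ β) :
    sm (litsOf (lw (dHyp f d L W xs (J + 1)) [f :: xs[J], (!f) :: xs[J]] [α, β]))
      ((dZ f d L W xs A J).subst (PS.tsub (dT f L e xs[J] J))) =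
    sm (litsOf (lw (dHyp f d L W xs (J + 1)) [f :: xs[J], (!f) :: xs[J]] [α, β]))
      (dZ f d L W xs A (J + 1)) := by
  have hx : xs[J] ∈ xs := List.getElem_mem _
  have hK := h.KOk (f := f) (α := α) (β := β) hJ
  unfold dZ
  rw [Fm.subst_subst]
  refine sm_subst fun y hy => ?_
  obtain ⟨i, hi, rfl⟩ := List.mem_iff_getElem.1 (h.hA y hy)
  rw [h.tab hi, h.tab hi]
  rcases Nat.lt_trichotomy i J with h1 | h1 | h1
  · rw [if_pos h1, if_pos (by omega),
      h.sub_rt hx (List.getElem_mem _) (h.get_ne hi hJ (by omega))]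
  · subst h1
    rw [if_neg (by omega), if_pos (by omega), h.sm_zbit hx hK, sm_rt hK hne]
  · rw [if_neg (by omega), if_neg (by omega), h.sub_zbit hx (by omega)]

theorem mem_vars_zone {v : List Bool} (hv : v ∈ W) : fn L J v ∈ (zone d L J W).vars := by
  unfold zone
  refine dp_mem_vars_dj (A := cj d (zat L J W v)) (List.mem_map_of_mem hv) ?_
  refine dp_mem_vars_cj (A := lit (fn L J v) (decide (v = v))) ?_ ?_
  · exact List.mem_map_of_mem (f := fun v' => lit (fn L J v') (decide (v' = v))) hv
  · simp [lit, Fm.vars]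

theorem DOk.step (h : DOk d L e W xs A) {G : List Rule} (hG : Rich G) (hJ : J < xs.length)
    {π : List Fm} (hπ : imp (dHyp f d L W xs J) (dZ f d L W xs A J) ∈ π) :
    Just (FP G) π (dStep f d L e W xs A xs[J] J) ∧
    imp (dHyp f d L W xs (J + 1)) (dZ f d L W xs A (J + 1)) ∈
      dStep f d L e W xs A xs[J] J := by
  have hx : xs[J] ∈ xs := List.getElem_mem _
  refine ⟨?_, by simp [dStep]⟩
  have toFP : ∀ {σ π' : List Fm}, Just (RuleStep G) π' σ → Just (FP G) π' σ :=
    fun hσ => Just.imp_step hσ fun _ _ h1 => Or.inl h1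
  unfold dStep
  -- first part
  have hok : okH (dE f d L W xs xs[J] J) (dHyp f d L W xs J) := by
    refine okH_of_mem ?_
    unfold dE
    simp only [ands, List.mem_cons, List.mem_append]
    exact Or.inr (Or.inr (self_mem_ands _))
  obtain ⟨j1, m1⟩ := li_just hG hπ hok rfl
  refine Just.append (toFP j1) ?_
  -- the exchange
  refine Just.append ⟨Or.inr (Or.inr ?_), trivial⟩ ?_
  · refine ⟨_, List.mem_append_right _ m1, dP f L e xs[J] J, ?_, ?_⟩
    · intro y hy
      by_contra hc
      apply hy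
      have hz : ∀ v ∈ W, fn L J v ∈ (dHyp f d L W xs J).vars := by
        intro v hv
        unfold dHyp
        refine dp_mem_vars_cj (A := zone d L J W) ?_ (mem_vars_zone hv)
        refine List.mem_flatMap.2 ⟨_, zi_mem hJ, ?_⟩
        unfold dComp
        rw [if_neg (by omega)]
        simp
      have hcase : y = fn L J (true :: List.replicate (e - 1) false) ∨ y = f :: xs[J] ∨
          y = fn L J (List.replicate e false) ∨ y = (!f) :: xs[J] := by
        by_contra hn
        simp only [not_or] at hn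
        exact hc (P4_ne hn.1 hn.2.1 hn.2.2.1 hn.2.2.2)
      rcases hcase with rfl | rfl | rfl | rfl
      · exact Or.inl (Or.inr (hz _ h.v1))
      · exact Or.inl (Or.inl (Or.inl (Or.inl rfl)))
      · exact Or.inl (Or.inr (hz _ h.v0))
      · exact Or.inl (Or.inl (Or.inr (Or.inl rfl)))
    · exact Fm.subst_congr fun y _ => h.tsub hx J y
  -- the cases
  have hcase : ∀ w ∈ W2, ∀ π' : List Fm,
      imp ((dE f d L W xs xs[J] J).subst (PS.tsub (dT f L e xs[J] J)))
        ((dZ f d L W xs A J).subst (PS.tsub (dT f L e xs[J] J))) ∈ π' →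
      Just (RuleStep G) π' (dCase f d L e W xs A xs[J] J w) ∧
      imp (lw (dHyp f d L W xs (J + 1)) [f :: xs[J], (!f) :: xs[J]] w)
        (dZ f d L W xs A (J + 1)) ∈ dCase f d L e W xs A xs[J] J w := by
    intro w hw π' hπ'
    rw [mem_W2] at hw
    obtain ⟨α, β, rfl⟩ := List.length_eq_two.1 hw
    unfold dCase
    by_cases hαβ : α = β
    · rw [if_pos (by simpa using hαβ)]
      refine contraL_just hG ?_ ?_
      · refine ands_sub_lw ?_
        unfold dHyp
        refine mem_ands_cj (A := rD f xs[J]) ?_ (self_mem_ands _)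
        refine List.mem_flatMap.2 ⟨_, zi_mem hJ, ?_⟩
        unfold dComp
        rw [if_pos (by omega)]
        simp
      · rw [sm_rD (h.KOk hJ)]
        simp [hαβ]
    · rw [if_neg (by simpa using hαβ)]
      exact li_just hG hπ' (h.okH_sub hJ hαβ) (h.sm_dZ hJ hαβ)
  have hX : ∀ π' : List Fm, imp ((dE f d L W xs xs[J] J).subst (PS.tsub (dT f L e xs[J] J)))
        ((dZ f d L W xs A J).subst (PS.tsub (dT f L e xs[J] J))) ∈
      π' ++ [(imp (dE f d L W xs xs[J] J) (dZ f d L W xs A J)).subst
        (PS.tsub (dT f L e xs[J] J))] :=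
    fun π' => List.mem_append_right _ (List.mem_singleton.2 rfl)
  refine Just.append (toFP (Just.flatMap (mono_ruleStep G) _ W2 _
    fun w hw => (hcase w hw _ (hX _)).1)) ?_
  have hall : ∀ w ∈ W2, imp (lw (dHyp f d L W xs (J + 1)) [f :: xs[J], (!f) :: xs[J]] w)
        (dZ f d L W xs A (J + 1)) ∈ W2.flatMap (fun w => dCase f d L e W xs A xs[J] J w) :=
    fun w hw => List.mem_flatMap.2 ⟨w, hw, (hcase w hw _ (hX [])).2⟩
  obtain ⟨j3, m3⟩ := splitL_just hG (H := dHyp f d L W xs (J + 1))
    (A := dZ f d L W xs A (J + 1)) (ys := [f :: xs[J], (!f) :: xs[J]]) (W := W2)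
    (π := π ++ li (dE f d L W xs xs[J] J) (dHyp f d L W xs J) (dZ f d L W xs A J)
      (dZ f d L W xs A J) ++ [(imp (dE f d L W xs xs[J] J) (dZ f d L W xs A J)).subst
        (PS.tsub (dT f L e xs[J] J))] ++ W2.flatMap (fun w => dCase f d L e W xs A xs[J] J w))
    (fun w => mem_W2 w) (fun w hw => List.mem_append_right _ (hall w hw))
  exact Just.append (toFP j3) ⟨Or.inl m3, trivial⟩

end spec

/-! ### All blocks -/

/-- Lines for all blocks. -/
def dAll (f : Bool) (d : Nm) (L e : ℕ) (W : List (List Bool)) (xs : List Nm) (A : Fm) :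
    List Fm := xs.zipIdx.flatMap (fun p => dStep f d L e W xs A p.1 p.2)

theorem DOk.all {f : Bool} {d : Nm} {L e : ℕ} {W : List (List Bool)} {xs : List Nm} {A : Fm}
    (h : DOk d L e W xs A) {G : List Rule} (hG : Rich G) :
    ∀ (l : List Nm) (J : ℕ), xs.drop J = l → ∀ π : List Fm,
      imp (dHyp f d L W xs J) (dZ f d L W xs A J) ∈ π →
      Just (FP G) π ((l.zipIdx J).flatMap (fun p => dStep f d L e W xs A p.1 p.2)) ∧
      imp (dHyp f d L W xs (J + l.length)) (dZ f d L W xs A (J + l.length)) ∈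
        π ++ (l.zipIdx J).flatMap (fun p => dStep f d L e W xs A p.1 p.2) := by
  intro l
  induction l with
  | nil =>
    intro J _ π hπ
    exact ⟨trivial, by simpa using hπ⟩
  | cons y l ih =>
    intro J hJl π hπ
    have hJ : J < xs.length := by
      by_contra hc
      rw [List.drop_eq_nil_of_le (by omega)] at hJl
      simp at hJl
    rw [List.drop_eq_getElem_cons hJ, List.cons.injEq] at hJl
    obtain ⟨h3, h4⟩ := hJl
    subst h3
    rw [List.zipIdx_cons, List.flatMap_cons]
    obtain ⟨j1, m1⟩ := h.step hG hJ hπ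
    obtain ⟨j2, m2⟩ := ih (J + 1) h4 (π ++ dStep f d L e W xs A xs[J] J)
      (List.mem_append_right _ m1)
    refine ⟨Just.append j1 j2, ?_⟩
    have e1 : J + (xs[J] :: l).length = J + 1 + l.length := by
      rw [List.length_cons]; omega
    rw [e1, ← List.append_assoc]
    exact m2

/-! ### The last hypotheses become premises -/

/-- Nested conjunction. -/
def nst (Z : Fm) (l : List Fm) : Fm := l.reverse.foldr Fm.and Z

/-- Nested implication. -/
def fimp (l : List Fm) (B : Fm) : Fm := l.foldr imp B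

/-- Lines for the premises. -/
def curL (Z B : Fm) (l : List Fm) : List Fm :=
  (List.range (l.length + 1)).map (fun k =>
    imp (nst Z (l.take (l.length - k))) (fimp (l.drop (l.length - k)) B))

theorem nst_snoc (Z : Fm) (l : List Fm) (D : Fm) : nst Z (l ++ [D]) = Fm.and D (nst Z l) := by
  simp [nst]

theorem curL_just {G : List Rule} (hG : Rich G) {Z B : Fm} {l : List Fm} {π : List Fm}
    (h : imp (nst Z l) B ∈ π) :
    Just (RuleStep G) π (curL Z B l) ∧ imp Z (fimp l B) ∈ curL Z B l := by
  have key : ∀ n ≤ l.length, Just (RuleStep G) π ((List.range (n + 1)).map (fun k =>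
      imp (nst Z (l.take (l.length - k))) (fimp (l.drop (l.length - k)) B))) := by
    intro n
    induction n with
    | zero =>
      intro _
      refine ⟨Or.inl ?_, trivial⟩
      simpa [fimp] using h
    | succ n ih =>
      intro hn
      rw [List.range_succ, List.map_append, List.map_cons, List.map_nil]
      refine Just.append (ih (by omega)) ⟨Or.inr ?_, trivial⟩
      have hlt : l.length - (n + 1) < l.length := by omega
      have e1 : l.take (l.length - n) = l.take (l.length - (n + 1)) ++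
          [l[l.length - (n + 1)]] := by
        have : l.length - n = l.length - (n + 1) + 1 := by omega
        rw [this, List.take_succ_eq_append_getElem hlt]
      have e2 : l.drop (l.length - (n + 1)) = l[l.length - (n + 1)] ::
          l.drop (l.length - n) := by
        have : l.length - n = l.length - (n + 1) + 1 := by omega
        rw [this, ← List.drop_eq_getElem_cons hlt]
      have hm : imp (nst Z (l.take (l.length - n))) (fimp (l.drop (l.length - n)) B) ∈
          π ++ (List.range (n + 1)).map (fun k =>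
            imp (nst Z (l.take (l.length - k))) (fimp (l.drop (l.length - k)) B)) :=
        List.mem_append_right _ (List.mem_map.2 ⟨n, by simp, rfl⟩)
      rw [e1, nst_snoc] at hm
      rw [e2]
      exact hG.curry hm
  refine ⟨key l.length le_rfl, ?_⟩
  unfold curL
  refine List.mem_map.2 ⟨l.length, by simp, ?_⟩
  simp [nst, fimp]

theorem mem_nst_Z (Z : Fm) (l : List Fm) {X : Fm} (h : X ∈ ands Z) : X ∈ ands (nst Z l) := by
  unfold nst
  induction l.reverse with
  | nil => exact h
  | cons D l ih =>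
    rw [List.foldr_cons, ands]
    exact List.mem_cons_of_mem _ (List.mem_append_right _ ih)

theorem mem_nst (Z : Fm) (l : List Fm) {X : Fm} (h : X ∈ l) : X ∈ ands (nst Z l) := by
  unfold nst
  have h' : X ∈ l.reverse := List.mem_reverse.2 h
  revert h'
  generalize l.reverse = m
  intro h'
  induction m with
  | nil => simp at h'
  | cons D l ih =>
    rw [List.foldr_cons, ands]
    rcases List.mem_cons.1 h' with rfl | h'
    · exact List.mem_cons_of_mem _ (List.mem_append_left _ (self_mem_ands _))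
    · exact List.mem_cons_of_mem _ (List.mem_append_right _ (ih h'))

/-! ### The whole derivation -/

/-- All variables of the blocks are false. -/
def dOff (d : Nm) (L : ℕ) (W : List (List Bool)) (xs : List Nm) : Fm :=
  cj d ((List.range xs.length).flatMap (fun J => zoff L J W))

/-- The whole derivation. -/
def dHalf (f : Bool) (d : Nm) (L e : ℕ) (W : List (List Bool)) (xs : List Nm)
    (bl : List (List Nm)) (A : Fm) : List Fm :=
  li (dHyp f d L W xs 0) (GH d L W xs.length) (A.subst (tsub (tblD d L W bl)))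
    (dZ f d L W xs A 0) ++
  (dAll f d L e W xs A ++
  (li (nst (dOff d L W xs) (xs.map (rD f))) (dHyp f d L W xs xs.length)
    (dZ f d L W xs A xs.length) (A.subst (rt f)) ++
  curL (dOff d L W xs) (A.subst (rt f)) (xs.map (rD f))))

theorem zi_flatten (d : Nm) (L : ℕ) (W : List (List Bool)) : ∀ (bl : List (List Nm)) (k : ℕ),
    ((bl.zipIdx k).flatMap (fun b => b.1.zipIdx.map
      (fun x => (x.1, zbit d L b.2 W x.2)))).map Prod.fst = bl.flatten := by
  intro bl
  induction bl with
  | nil => intro k; rfl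
  | cons b bl ih =>
    intro k
    rw [List.zipIdx_cons, List.flatMap_cons, List.map_append, ih, List.flatten_cons]
    congr 1
    rw [List.map_map]
    have : (Prod.fst ∘ fun x : Nm × ℕ => (x.1, zbit d L (b, k).2 W x.2)) = Prod.fst := rfl
    rw [this, List.zipIdx_map_fst]

theorem DOk.half {f : Bool} {d : Nm} {L e : ℕ} {W : List (List Bool)} {xs : List Nm} {A : Fm}
    (h : DOk d L e W xs A) {G : List Rule} (hG : Rich G) {bl : List (List Nm)}
    (hbl : bl.length = xs.length) (hbn : bl.flatten.Nodup)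
    (hpre : ∀ (J : ℕ) (h1 : J < xs.length) (h2 : J < bl.length), [xs[J]] <+: bl[J])
    {π : List Fm} (hπ : imp (GH d L W xs.length) (A.subst (PS.tsub (tblD d L W bl))) ∈ π) :
    Just (FP G) π (dHalf f d L e W xs bl A) ∧
    imp (dOff d L W xs) (fimp (xs.map (rD f)) (A.subst (rt f))) ∈
      dHalf f d L e W xs bl A := by
  have toFP : ∀ {σ π' : List Fm}, Just (RuleStep G) π' σ → Just (FP G) π' σ :=
    fun hσ => Just.imp_step hσ fun _ _ h1 => Or.inl h1
  -- the start
  have e0 : A.subst (PS.tsub (tblD d L W bl)) = dZ f d L W xs A 0 := by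
    unfold dZ
    refine Fm.subst_congr fun y hy => ?_
    obtain ⟨i, hi, rfl⟩ := List.mem_iff_getElem.1 (h.hA y hy)
    rw [h.tab hi, if_neg (Nat.not_lt_zero _)]
    have hi' : i < bl.length := by omega
    refine tsub_of_mem (t := tblD d L W bl) ?_ ?_
    · unfold tblD
      refine List.mem_flatMap.2 ⟨(bl[i], i), ?_, ?_⟩
      · rw [List.mem_zipIdx_iff_getElem?]
        exact List.getElem?_eq_getElem hi'
      · obtain ⟨t, ht⟩ := hpre i hi hi'
        have h2 : (xs[i], 0) ∈ bl[i].zipIdx := by
          rw [List.mem_zipIdx_iff_getElem?, ← ht]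
          rfl
        exact List.mem_map_of_mem (f := fun x : Nm × ℕ => (x.1, zbit d L i W x.2)) h2
    · unfold tblD
      rw [zi_flatten]
      exact hbn
  have ok0 : okH (dHyp f d L W xs 0) (GH d L W xs.length) := by
    unfold GH
    rw [okH_cj]
    intro X hX
    obtain ⟨J, hJ, rfl⟩ := List.mem_map.1 hX
    rw [List.mem_range] at hJ
    refine okH_of_mem ?_
    unfold dHyp
    refine mem_ands_cj (A := zone d L J W) ?_ (self_mem_ands _)
    refine List.mem_flatMap.2 ⟨_, zi_mem hJ, ?_⟩
    unfold dComp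
    rw [if_neg (Nat.not_lt_zero _)]
    simp
  obtain ⟨j0, m0⟩ := li_just hG hπ ok0
    (show sm (litsOf (dHyp f d L W xs 0)) (A.subst (PS.tsub (tblD d L W bl))) =
      sm (litsOf (dHyp f d L W xs 0)) (dZ f d L W xs A 0) by rw [e0])
  unfold dHalf
  set l0 := li (dHyp f d L W xs 0) (GH d L W xs.length) (A.subst (PS.tsub (tblD d L W bl)))
    (dZ f d L W xs A 0) with hl0
  -- the blocks
  obtain ⟨j1, m1⟩ := h.all (f := f) hG xs 0 rfl (π ++ l0) (List.mem_append_right _ m0)
  rw [Nat.zero_add] at m1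
  -- the end
  have ok2 : okH (nst (dOff d L W xs) (xs.map (rD f))) (dHyp f d L W xs xs.length) := by
    unfold dHyp
    rw [okH_cj]
    intro X hX
    obtain ⟨p, hp, hX⟩ := List.mem_flatMap.1 hX
    obtain ⟨hp1, hp2⟩ := zi_get hp
    unfold dComp at hX
    rw [if_pos hp1] at hX
    refine okH_of_mem ?_
    rcases List.mem_cons.1 hX with rfl | hX
    · refine mem_nst _ _ (List.mem_map_of_mem ?_)
      rw [hp2]
      exact List.getElem_mem _
    · refine mem_nst_Z _ _ ?_
      unfold dOff
      refine mem_ands_cj (A := X) ?_ (self_mem_ands _)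
      exact List.mem_flatMap.2 ⟨p.2, List.mem_range.2 hp1, hX⟩
  have e2 : dZ f d L W xs A xs.length = A.subst (rt f) := by
    unfold dZ
    refine Fm.subst_congr fun y hy => ?_
    obtain ⟨i, hi, rfl⟩ := List.mem_iff_getElem.1 (h.hA y hy)
    rw [h.tab hi, if_pos hi]
  obtain ⟨j2, m2⟩ := li_just hG (π := π ++ l0 ++ dAll f d L e W xs A) m1 ok2
    (show sm (litsOf (nst (dOff d L W xs) (xs.map (rD f)))) (dZ f d L W xs A xs.length) =
      sm (litsOf (nst (dOff d L W xs) (xs.map (rD f)))) (A.subst (rt f)) by rw [e2])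
  obtain ⟨j3, m3⟩ := curL_just hG (Z := dOff d L W xs) (B := A.subst (rt f))
    (l := xs.map (rD f)) (π := π ++ l0 ++ dAll f d L e W xs A ++
      li (nst (dOff d L W xs) (xs.map (rD f))) (dHyp f d L W xs xs.length)
    (dZ f d L W xs A xs.length) (A.subst (rt f))) (List.mem_append_right _ m2)
  refine ⟨Just.append (toFP j0) (Just.append j1 (Just.append (toFP j2) (toFP j3))), ?_⟩
  exact List.mem_append_right _ (List.mem_append_right _ (List.mem_append_right _ m3))

end Pool.Agent.H.MP_0447ec_lc.PS
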