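import Pool.Agent.H.MP_0447ec_lc.LV.DualP2

/-!
# From substitution Frege with few variables to the permutation rule on dual rails
-/

namespace Pool.Agent.H.MP_0447ec_lc.PS

open Fm Pool.Agent.H.MP_0447ec_lc.PT

/-- The functions that are used. -/
structure FnD where
  /-- from substitutions to constant substitutions -/
  sf : List Fm → List Fm
  /-- blocks -/
  Tb : (ℕ × ℕ × ℕ) × List (List Nm) × List Nm → List (List Nm)
  /-- the token form -/
  Tk : ℕ × Nm × List (List Bool) × List (List Nm) × List Fm → List Fm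
  /-- words -/
  Tw : ℕ × ℕ → List (List Bool)
  /-- negation of all variables -/
  Tfl : Nm × List Nm × Fm × List Fm → List Fm
  /-- elimination of the hypotheses -/
  Tel : Nm × List (Nm × Nm) × Fm → List Fm
  /-- change of the rules -/
  rb : List Fm → List Fm

namespace FnD

variable (q : FnD) (c : ℕ)

def xs (π : List Fm) : List Nm := varList (lastF π)
def e (π : List Fm) : ℕ := 2 * (c * Nat.log 2 (sz π)) + 2
def rgs (π : List Fm) : List (List Nm) := (xs π).map (fun x => [x])
def ot (π : List Fm) : List Nm :=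
  (dd ((q.sf π).flatMap nms)).filter (fun y => !(decide (y ∈ xs π)))
def bl (π : List Fm) : List (List Nm) :=
  q.Tb ((bdN ((rgs π).flatten ++ q.ot π), 1, e c π), rgs π, q.ot π)
def L (π : List Fm) : ℕ := bdN (xs π) + 2
def d (π : List Fm) : Nm := List.replicate (L π) true
def W (π : List Fm) : List (List Bool) := q.Tw (4 * sz π ^ (2 * c), e c π)
def tk (π : List Fm) : List Fm := q.Tk (L π, d π, q.W c π, q.bl c π, q.sf π)
def h1 (π : List Fm) : List Fm :=
  q.tk c π ++ dHalf false (d π) (L π) (e c π) (q.W c π) (xs π) (q.bl c π) (lastF π)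
def h2 (π : List Fm) : List Fm :=
  q.tk c π ++ dHalf true (d π) (L π) (e c π) (q.W c π) (xs π) (q.bl c π) (lastF π)
def zv (π : List Fm) : List (Nm × Nm) :=
  (List.range (xs π).length).flatMap (fun J => (q.W c π).map
    (fun v => (fn (L π) J v, fn (L π) ((xs π).length + J) v)))
def dr (π : List Fm) : Fm := fimp ((xs π).map (rD false)) ((lastF π).subst (rt false))
def fl (π : List Fm) : List Fm := q.Tfl (d π, (q.zv c π).map Prod.fst, dr π, q.h2 c π)
def el (π : List Fm) : List Fm := q.Tel (d π, q.zv c π, dr π)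
def out (π : List Fm) : List Fm :=
  q.rb (cutAt (dr π) (app [] ((q.h1 c π ++ q.fl c π) ++ q.el c π)))

structure IsPoly : Prop where
  hsf : Poly q.sf
  hTb : Poly q.Tb
  hTk : Poly q.Tk
  hTw : Poly q.Tw
  hTfl : Poly q.Tfl
  hTel : Poly q.Tel
  hrb : Poly q.rb

variable {q}

theorem pxs : Poly xs := by unfold xs varList; fun_prop
theorem pe : Poly (e c) := by unfold e; fun_prop
theorem prgs : Poly rgs := by
  have := pxs
  unfold rgs; fun_prop
theorem pot (h : q.IsPoly) : Poly q.ot := by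
  have := h.hsf; have := pxs
  unfold ot
  refine PT.Poly.filter (f := fun (x : List Fm) (y : Nm) => !(decide (y ∈ xs x)))
    (Poly.not (Poly.decMem (by fun_prop) (by fun_prop))) (by fun_prop)
theorem pbl (h : q.IsPoly) : Poly (q.bl c) := by
  have := pot h; have := h.hTb; have := prgs; have := pe c
  unfold bl; fun_prop
theorem pL : Poly L := by
  have := pxs
  unfold L; fun_prop
theorem pd : Poly d := by
  have := pL
  unfold d; fun_prop
theorem pW (h : q.IsPoly) : Poly (q.W c) := by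
  have := pe c; have := h.hTw
  have h1 : Poly (fun π : List Fm => sz π ^ (2 * c)) := Poly.powC (by fun_prop) _
  unfold W; fun_prop
theorem ptk (h : q.IsPoly) : Poly (q.tk c) := by
  have := pL; have := pd; have := pW c h; have := pbl c h; have := h.hsf; have := h.hTk
  unfold tk; fun_prop
theorem ph1 (h : q.IsPoly) : Poly (q.h1 c) := by
  have := pL; have := pd; have := pW c h; have := pbl c h; have := ptk c h; have := pe c
  have := pxs
  unfold h1; fun_prop
theorem ph2 (h : q.IsPoly) : Poly (q.h2 c) := by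
  have := pL; have := pd; have := pW c h; have := pbl c h; have := ptk c h; have := pe c
  have := pxs
  unfold h2; fun_prop
theorem pzv (h : q.IsPoly) : Poly (q.zv c) := by
  have := pL; have := pW c h; have := pxs
  unfold zv; fun_prop
theorem pdr : Poly dr := by
  have := pxs
  have h2 : Poly (fun π : List Fm => (lastF π).subst (rt false)) :=
    Poly.substP (s := fun _ : List Fm => rt false) (by fun_prop) (by fun_prop)
  unfold dr; fun_prop
theorem pfl (h : q.IsPoly) : Poly (q.fl c) := by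
  have := pd; have := pzv c h; have := ph2 c h; have := h.hTfl; have := pdr
  unfold fl; fun_prop
theorem pel (h : q.IsPoly) : Poly (q.el c) := by
  have := pd; have := pzv c h; have := h.hTel; have := pdr
  unfold el; fun_prop
theorem pout (h : q.IsPoly) : Poly (q.out c) := by
  have := ph1 c h; have := pfl c h; have := pel c h; have := h.hrb; have := pdr
  unfold out; fun_prop

/-- The specifications. -/
structure Spec (F : List Rule) (q : FnD) : Prop where
  sf : ∀ (A : Fm) (π : List Fm), Deriv (GS F) π → π.getLast? = some A →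
      Deriv (GC (GG F)) (q.sf π) ∧ (q.sf π).getLast? = some A ∧
      numVars (q.sf π) ≤ 2 * numVars π + 1
  Tb : ∀ (L c e : ℕ) (rgs : List (List Nm)) (oth : List Nm),
      (∀ ys ∈ rgs, ys.length = c) → c ≤ e → oth.length ≤ rgs.length * (e - c) →
      (rgs.flatten ++ oth).Nodup → (∀ x ∈ rgs.flatten ++ oth, x.length ≤ L) →
      (q.Tb ((L, c, e), rgs, oth)).length = rgs.length ∧
      (∀ b ∈ q.Tb ((L, c, e), rgs, oth), b.length = e) ∧
      (q.Tb ((L, c, e), rgs, oth)).flatten.Nodup ∧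
      (∀ x ∈ rgs.flatten ++ oth, x ∈ (q.Tb ((L, c, e), rgs, oth)).flatten) ∧
      (∀ (J : ℕ) (h1 : J < rgs.length) (h2 : J < (q.Tb ((L, c, e), rgs, oth)).length),
        rgs[J] <+: (q.Tb ((L, c, e), rgs, oth))[J])
  Tk : ∀ (L : ℕ) (d : Nm) (W : List (List Bool)) (e : ℕ) (bl : List (List Nm)) (σ : List Fm),
      W.Nodup → (∀ w, w ∈ W ↔ w.length = e) → (∀ b ∈ bl, b.length = e) → bl.flatten.Nodup →
      d.length ≤ L → Deriv (GC (GG F)) σ → (∀ C ∈ σ, ∀ x ∈ C.vars, x ∈ bl.flatten) →
      ∀ π : List Fm, Just (FP (GG (GG F))) π (q.Tk (L, d, W, bl, σ)) ∧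
        ∀ B ∈ σ, imp (GH d L W bl.length) (B.subst (tsub (tblD d L W bl))) ∈
          q.Tk (L, d, W, bl, σ)
  Tw : ∀ (cap e : ℕ), 2 ^ e ≤ cap → (q.Tw (cap, e)).Nodup ∧ (q.Tw (cap, e)).length = 2 ^ e ∧
      ∀ w, w ∈ q.Tw (cap, e) ↔ w.length = e
  Tfl : ∀ (d : Nm) (zs : List Nm) (A : Fm) (τ : List Fm), Just (FP (GG (GG F))) [] τ →
      imp (cj d (zs.map (fun z => neg (var z)))) (A.subst (fun w => neg (var w))) ∈ τ →
      ∀ π : List Fm, Just (FP (GG (GG F))) π (q.Tfl (d, zs, A, τ)) ∧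
        imp (cj d (zs.map var)) A ∈ q.Tfl (d, zs, A, τ)
  Tel : ∀ (d : Nm) (zv : List (Nm × Nm)) (A : Fm),
      (zv.map Prod.fst ++ zv.map Prod.snd).Nodup → d ∉ zv.map Prod.fst ++ zv.map Prod.snd →
      (∀ z ∈ zv.map Prod.fst ++ zv.map Prod.snd, z ∉ A.vars) →
      ∀ π : List Fm, imp (cj d (zv.map (fun p => neg (var p.1)))) A ∈ π →
        imp (cj d (zv.map (fun p => var p.1))) A ∈ π →
        Just (FP (GG (GG F))) π (q.Tel (d, zv, A)) ∧ A ∈ q.Tel (d, zv, A)
  rb : ∀ (Step : List Fm → Fm → Prop), Mono Step → ∀ (π : List Fm) (A : Fm),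
        Deriv (fun σ B => RuleStep (GG (GG F)) σ B ∨ Step σ B) π → π.getLast? = some A →
        Deriv (fun σ B => RuleStep F σ B ∨ Step σ B) (q.rb π) ∧ (q.rb π).getLast? = some A ∧
          ∀ C ∈ q.rb π, ∀ x ∈ C.vars, ∃ D ∈ π, x ∈ D.vars

end FnD

/-! ### The dual-rail version -/

theorem dualRail_eq (A : Fm) : dualRail A =
    fimp ((varList A).map (rD false)) (A.subst (rt false)) := by
  unfold dualRail fimp
  rw [List.foldr_map]
  rfl

theorem fimp_subst (l : List Fm) (B : Fm) (s : Nm → Fm) :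
    (fimp l B).subst s = fimp (l.map (Fm.subst s)) (B.subst s) := by
  induction l with
  | nil => rfl
  | cons D l ih =>
    show imp (D.subst s) ((fimp l B).subst s) = _
    rw [ih]
    rfl

theorem dualRail_neg (A : Fm) : (dualRail A).subst (fun w => neg (var w)) =
    fimp ((varList A).map (rD true)) (A.subst (rt true)) := by
  rw [dualRail_eq, fimp_subst, List.map_map, Fm.subst_subst]
  rfl

theorem vars_fimp {l : List Fm} {B : Fm} {y : Nm} (hy : y ∈ (fimp l B).vars) :
    (∃ D ∈ l, y ∈ D.vars) ∨ y ∈ B.vars := by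
  induction l with
  | nil => exact Or.inr hy
  | cons D l ih =>
    rcases hy with hy | hy
    · exact Or.inl ⟨D, by simp, hy⟩
    · rcases ih hy with ⟨E, hE, h⟩ | h
      · exact Or.inl ⟨E, List.mem_cons_of_mem _ hE, h⟩
      · exact Or.inr h

theorem vars_dualRail {A : Fm} {y : Nm} (hy : y ∈ (dualRail A).vars) :
    ∃ b, ∃ x ∈ varList A, y = b :: x := by
  rw [dualRail_eq] at hy
  rcases vars_fimp hy with ⟨D, hD, h⟩ | h
  · obtain ⟨x, hx, rfl⟩ := List.mem_map.1 hD
    obtain ⟨b, rfl⟩ := vars_rD h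
    exact ⟨b, x, hx, rfl⟩
  · obtain ⟨x, hx, h⟩ := vars_subst h
    exact ⟨false, x, mem_varList.2 hx, vars_rt h⟩


namespace FnD

section spec

variable {q : FnD} {c : ℕ} {F : List Rule} (h : Spec F q) {A : Fm} {π : List Fm}
  (hπ : SubstProof F A π) (hc : numVars π ≤ c * numVars [A] * Nat.log 2 (sz π))

include hπ in
theorem last : lastF π = A := lastF_eq hπ.2

include hπ in
theorem xs_eq : xs π = varList A := by unfold xs; rw [last hπ]

theorem mem_ot {y : Nm} : y ∈ q.ot π ↔ (∃ C ∈ q.sf π, y ∈ C.vars) ∧ y ∉ xs π := by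
  unfold ot
  rw [List.mem_filter, mem_dd, List.mem_flatMap]
  simp only [mem_nms, Bool.not_eq_true', decide_eq_false_iff_not]

theorem rgs_flatten (π : List Fm) : (rgs π).flatten = xs π := by
  unfold rgs
  induction xs π with
  | nil => rfl
  | cons x l ih => rw [List.map_cons, List.flatten_cons, ih]; rfl

include h hπ hc in
theorem ot_length : (q.ot π).length ≤ (rgs π).length * (e c π - 1) := by
  obtain ⟨-, -, h3⟩ := h.sf _ _ hπ.1 hπ.2
  have h1 : (q.ot π).length ≤ numVars (q.sf π) := by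
    rw [numVars_eq]
    exact List.length_filter_le _ _
  have h2 : (rgs π).length = numVars [A] := by
    unfold rgs
    rw [List.length_map, xs_eq hπ, numVars_one]
    rfl
  have h4 : 0 < numVars [A] := by rw [numVars_one]; exact dd_nms_pos A
  rw [h2]
  unfold e
  have h5 : 2 * (c * Nat.log 2 (sz π)) + 2 - 1 = 2 * (c * Nat.log 2 (sz π)) + 1 := by omega
  rw [h5]
  calc (q.ot π).length ≤ 2 * numVars π + 1 := h1.trans h3
    _ ≤ 2 * (c * numVars [A] * Nat.log 2 (sz π)) + numVars [A] := by omega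
    _ = numVars [A] * (2 * (c * Nat.log 2 (sz π)) + 1) := by ring

include h hπ hc in
theorem bl_spec : (q.bl c π).length = (xs π).length ∧ (∀ b ∈ q.bl c π, b.length = e c π) ∧
    (q.bl c π).flatten.Nodup ∧
    (∀ C ∈ q.sf π, ∀ x ∈ C.vars, x ∈ (q.bl c π).flatten) ∧
    (∀ (J : ℕ) (h1 : J < (xs π).length) (h2 : J < (q.bl c π).length),
        [(xs π)[J]] <+: (q.bl c π)[J]) := by
  obtain ⟨h1, h2, h3, h4, h5⟩ := h.Tb (bdN ((rgs π).flatten ++ q.ot π)) 1 (e c π) (rgs π)
    (q.ot π) (by
      intro ys hy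
      obtain ⟨x, -, rfl⟩ := List.mem_map.1 hy
      rfl) (by unfold e; omega) (ot_length h hπ hc)
    (by
      rw [rgs_flatten, List.nodup_append]
      refine ⟨?_, (nodup_dd _).filter _, ?_⟩
      · rw [xs_eq hπ]; exact varList_nodup A
      · rintro x hx y hy rfl
        exact (mem_ot.1 hy).2 hx)
    (fun x hx => le_bdN hx)
  have hl : (rgs π).length = (xs π).length := by unfold rgs; rw [List.length_map]
  refine ⟨by rw [← hl]; exact h1, h2, h3, ?_, ?_⟩
  · intro C hC x hx
    refine h4 x ?_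
    rw [List.mem_append, rgs_flatten]
    by_cases hx' : x ∈ xs π
    · exact Or.inl hx'
    · exact Or.inr (mem_ot.2 ⟨⟨C, hC, hx⟩, hx'⟩)
  · intro J hJ1 hJ2
    have h6 := h5 J (by rw [hl]; exact hJ1) hJ2
    have h7 : (rgs π)[J]'(by rw [hl]; exact hJ1) = [(xs π)[J]] := by
      unfold rgs
      rw [List.getElem_map]
    rwa [h7] at h6

include h hπ in
theorem W_spec : (q.W c π).Nodup ∧ ∀ w, w ∈ q.W c π ↔ w.length = e c π := by
  have h0 : sz π ≠ 0 := by have := sz_pos π; omega
  have h1 : 2 ^ e c π ≤ 4 * sz π ^ (2 * c) := by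
    have h2 := Nat.pow_log_le_self 2 h0
    calc 2 ^ e c π = 4 * (2 ^ Nat.log 2 (sz π)) ^ (2 * c) := by
          unfold e
          rw [← pow_mul, pow_add, mul_comm]
          congr 2
          ring
      _ ≤ 4 * sz π ^ (2 * c) := Nat.mul_le_mul_left _ (Nat.pow_le_pow_left h2 _)
  exact ⟨(h.Tw _ _ h1).1, (h.Tw _ _ h1).2.2⟩

theorem d_length (π : List Fm) : (d π).length = L π := by simp [d]

include h hπ in
theorem dok : DOk (d π) (L π) (e c π) (q.W c π) (xs π) A where
  he := by unfold e; omega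
  hWn := (W_spec h hπ).1
  hW := (W_spec h hπ).2
  hd := d_length π
  hx := fun x hx => by
    have := le_bdN hx
    unfold L
    omega
  hn := by rw [xs_eq hπ]; exact varList_nodup A
  hA := fun x hx => by rw [xs_eq hπ]; exact mem_varList.2 hx

include h hπ hc in
theorem tk_spec (τ : List Fm) : Just (FP (GG (GG F))) τ (q.tk c π) ∧
    imp (GH (d π) (L π) (q.W c π) (xs π).length)
      (A.subst (tsub (tblD (d π) (L π) (q.W c π) (q.bl c π)))) ∈ q.tk c π := by
  obtain ⟨s1, s2, -⟩ := h.sf _ _ hπ.1 hπ.2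
  obtain ⟨b1, b2, b3, b4, -⟩ := bl_spec h hπ hc
  obtain ⟨w1, w2⟩ := W_spec (c := c) h hπ
  obtain ⟨k1, k2⟩ := h.Tk (L π) (d π) (q.W c π) (e c π) (q.bl c π) (q.sf π) w1 w2 b2 b3
    (d_length π).le s1 b4 τ
  refine ⟨k1, ?_⟩
  have := k2 _ (List.mem_of_getLast? s2)
  rwa [b1] at this

theorem zoff_eq (π : List Fm) : dOff (d π) (L π) (q.W c π) (xs π) =
    cj (d π) ((q.zv c π).map (fun p => neg (var p.1))) := by
  unfold dOff zv zoff
  rw [List.map_flatMap]
  simp only [List.map_map, Function.comp_def]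

include h hπ hc in
theorem half_spec (f : Bool) (τ : List Fm) :
    Just (FP (GG (GG F))) τ (q.tk c π ++
      dHalf f (d π) (L π) (e c π) (q.W c π) (xs π) (q.bl c π) (lastF π)) ∧
    imp (cj (d π) ((q.zv c π).map (fun p => neg (var p.1))))
      (fimp ((xs π).map (rD f)) (A.subst (rt f))) ∈ q.tk c π ++
      dHalf f (d π) (L π) (e c π) (q.W c π) (xs π) (q.bl c π) (lastF π) := by
  obtain ⟨t1, t2⟩ := tk_spec h hπ hc τ
  obtain ⟨b1, b2, b3, b4, b5⟩ := bl_spec h hπ hc
  rw [last hπ, ← zoff_eq]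
  obtain ⟨j, m⟩ := (dok h hπ).half (f := f) (GG_rich (GG F)) b1 b3 b5
    (π := τ ++ q.tk c π) (List.mem_append_right _ t2)
  exact ⟨Just.append t1 j, List.mem_append_right _ m⟩

theorem mem_zv {z : Nm} : z ∈ (q.zv c π).map Prod.fst ++ (q.zv c π).map Prod.snd →
    L π < z.length := by
  intro hz
  unfold zv at hz
  rw [List.mem_append, List.map_flatMap, List.map_flatMap, List.mem_flatMap,
    List.mem_flatMap] at hz
  rcases hz with ⟨J, -, hz⟩ | ⟨J, -, hz⟩
  · rw [List.map_map] at hz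
    obtain ⟨v, -, rfl⟩ := List.mem_map.1 hz
    exact fn_length _ _ _
  · rw [List.map_map] at hz
    obtain ⟨v, -, rfl⟩ := List.mem_map.1 hz
    exact fn_length _ _ _

theorem zv_nodup (hW : (q.W c π).Nodup) :
    ((q.zv c π).map Prod.fst ++ (q.zv c π).map Prod.snd).Nodup := by
  have key : ∀ g : ℕ → ℕ, Function.Injective g →
      ((List.range (xs π).length).flatMap
        (fun J => (q.W c π).map (fun v => fn (L π) (g J) v))).Nodup := by
    intro g hg
    rw [List.nodup_flatMap]
    constructor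
    · intro j _
      refine List.Nodup.map ?_ hW
      intro v v' hv
      exact (fn_inj hv).2
    · refine List.nodup_range.imp ?_
      intro i j hij
      rw [Function.onFun, List.disjoint_left]
      intro x hx hx'
      obtain ⟨v, _, rfl⟩ := List.mem_map.1 hx
      obtain ⟨v', _, hv'⟩ := List.mem_map.1 hx'
      exact hij (hg (fn_inj hv').1.symm)
  unfold zv
  rw [List.map_flatMap, List.map_flatMap, List.nodup_append]
  simp only [List.map_map, Function.comp_def]
  refine ⟨key (fun J => J) (fun _ _ h => h), key (fun J => (xs π).length + J)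
    (fun _ _ h => Nat.add_left_cancel h), ?_⟩
  rintro x hx y hy rfl
  obtain ⟨J, hJ, hx⟩ := List.mem_flatMap.1 hx
  obtain ⟨J', -, hy⟩ := List.mem_flatMap.1 hy
  obtain ⟨v, _, rfl⟩ := List.mem_map.1 hx
  obtain ⟨v', _, hv'⟩ := List.mem_map.1 hy
  have h1 := (fn_inj hv').1
  rw [List.mem_range] at hJ
  omega

include hπ in
theorem dr_eq : dr π = dualRail A := by
  unfold dr
  rw [dualRail_eq, last hπ, xs_eq hπ]

include hπ in
theorem lt_L {y : Nm} (hy : y ∈ (dualRail A).vars) : y.length < L π := by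
  obtain ⟨b, x, hx, rfl⟩ := vars_dualRail hy
  rw [← xs_eq hπ] at hx
  have := le_bdN hx
  unfold L
  rw [List.length_cons]
  omega

include h hπ hc in
theorem out_spec : PermProof F (dualRail A) (q.out c π) := by
  obtain ⟨w1, w2⟩ := W_spec (c := c) h hπ
  obtain ⟨a1, a2⟩ := half_spec h hπ hc false []
  obtain ⟨b1, b2⟩ := half_spec h hπ hc true []
  rw [xs_eq hπ] at a2 b2
  rw [← dualRail_eq, ← xs_eq hπ] at a2
  rw [← dualRail_neg, ← xs_eq hπ] at b2
  have y1 : q.tk c π ++ dHalf false (d π) (L π) (e c π) (q.W c π) (xs π) (q.bl c π) (lastF π) =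
      q.h1 c π := rfl
  have y2 : q.tk c π ++ dHalf true (d π) (L π) (e c π) (q.W c π) (xs π) (q.bl c π) (lastF π) =
      q.h2 c π := rfl
  rw [y1] at a1 a2
  rw [y2] at b1 b2
  obtain ⟨f1, f2⟩ := h.Tfl (d π) ((q.zv c π).map Prod.fst) (dualRail A) (q.h2 c π) b1
    (by
      rw [List.map_map]
      exact b2) ([] ++ q.h1 c π)
  rw [List.map_map] at f2
  have e1 : q.fl c π = q.Tfl (d π, (q.zv c π).map Prod.fst, dualRail A, q.h2 c π) := by
    unfold fl; rw [dr_eq hπ]
  have e2 : q.el c π = q.Tel (d π, q.zv c π, dualRail A) := by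
    unfold el; rw [dr_eq hπ]
  obtain ⟨g1, g2⟩ := h.Tel (d π) (q.zv c π) (dualRail A) (zv_nodup w1)
    (fun hz => by
      have := mem_zv hz
      rw [d_length] at this
      omega)
    (fun z hz hz' => by
      have h1 := mem_zv hz
      have h2 := lt_L hπ hz'
      omega) ([] ++ (q.h1 c π ++ q.fl c π))
    (by
      rw [List.nil_append]
      exact List.mem_append_left _ a2)
    (by
      rw [List.nil_append]
      refine List.mem_append_right _ ?_
      rw [e1]
      exact f2)
  have j : Just (FP (GG (GG F))) [] ((q.h1 c π ++ q.fl c π) ++ q.el c π) := by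
    refine Just.append (Just.append a1 ?_) ?_
    · rw [e1]; exact f1
    · rw [e2]; exact g1
  have hD := deriv_app (mono_perm (GG (GG F))) Deriv.nil j
  have hm : dualRail A ∈ app [] ((q.h1 c π ++ q.fl c π) ++ q.el c π) :=
    mem_app.2 (Or.inr (List.mem_append_right _ (by rw [e2]; exact g2)))
  obtain ⟨c1, c2⟩ := deriv_cutAt hD hm
  obtain ⟨r1, r2, -⟩ := h.rb PermStep mono_permStep _ (dualRail A) c1 c2
  unfold out
  rw [dr_eq hπ]
  exact ⟨r1, r2⟩

end spec

end FnD

/-- Substitution Frege proofs with few variables become proofs of the dual-rail version with the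
permutation rule. -/
theorem dualA {F : List Rule} (hF : IsFrege F) (c : ℕ) :
    ∃ f : List Fm → List Fm, PT.Poly f ∧ ∀ (A : Fm) (π : List Fm), SubstProof F A π →
      numVars π ≤ c * numVars [A] * Nat.log 2 (sz π) → PermProof F (dualRail A) (f π) := by
  obtain ⟨sf, hsf, hsf'⟩ := sfcf_main F
  obtain ⟨Tb, hTb, hTb'⟩ := blocks_main
  obtain ⟨Tw, hTw, hTw'⟩ := words_main
  obtain ⟨Tk, hTk, hTk'⟩ := tok_main (GG F)
  obtain ⟨Tfl, hTfl, hTfl'⟩ := flip_main (GG_rich (GG F))
  obtain ⟨Tel, hTel, hTel'⟩ := elim_main (GG_rich (GG F))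
  obtain ⟨rb, hrb, hrb'⟩ := robust hF (GG_sound (isFrege_GG hF))
  let q : FnD := ⟨sf, Tb, Tk, Tw, Tfl, Tel, rb⟩
  have hp : q.IsPoly := ⟨hsf, hTb, hTk, hTw, hTfl, hTel, hrb⟩
  have hq : FnD.Spec F q := ⟨hsf', hTb', hTk', hTw', hTfl', hTel', hrb'⟩
  exact ⟨q.out c, FnD.pout c hp, fun A π hπ hc => FnD.out_spec hq hπ hc⟩

end Pool.Agent.H.MP_0447ec_lc.PS
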