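import Pool.Agent.H.MP_0447ec_lc.LV.DualB0
import Pool.Agent.H.MP_0447ec_lc.LV.DualC
import Pool.Agent.H.MP_0447ec_lc.LV.AsmA

/-!
# From dual rails to substitution Frege with few variables
-/

namespace Pool.Agent.H.MP_0447ec_lc.PS

open Fm Pool.Agent.H.MP_0447ec_lc.PT

/-! ### The formula with a given dual-rail version -/

/-- The formula with the dual-rail version `D`. -/
def dbU (D : Fm) : Fm :=
  (((dd (nms D)).filter (fun y => !(y.headD true))).foldl
    (fun B _ => (sfKids B).getD 1 B) D).subst (fun y => var y.tail)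

theorem dbU_fold (Z : Fm) : ∀ (l : List Fm) (l' : List Nm), l'.length = l.length →
    l'.foldl (fun B _ => (sfKids B).getD 1 B) (fimp l Z) = Z := by
  intro l
  induction l with
  | nil =>
    intro l' h
    rw [List.length_eq_zero_iff.1 h]
    rfl
  | cons D l ih =>
    intro l' h
    cases l' with
    | nil => simp at h
    | cons y l' =>
      rw [List.foldl_cons]
      exact ih l' (by simpa using h)

theorem vars_dualRail_iff {A : Fm} {y : Nm} : y ∈ (dualRail A).vars ↔
    ∃ b, ∃ x ∈ varList A, y = b :: x := by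
  refine ⟨vars_dualRail, ?_⟩
  rintro ⟨b, x, hx, rfl⟩
  rw [dualRail_eq]
  have key : ∀ l : List Fm, rD false x ∈ l → (b :: x) ∈ (fimp l (A.subst (rt false))).vars := by
    intro l
    induction l with
    | nil => intro h; simp at h
    | cons D l ih =>
      intro h
      rcases List.mem_cons.1 h with h | h
      · left
        rw [← h]
        cases b <;> simp [rD, Fm.iff, Fm.vars]
      · right
        exact ih h
  exact key _ (List.mem_map_of_mem hx)

theorem dbU_dualRail (A : Fm) : dbU (dualRail A) = A := by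
  have h1 : ((dd (nms (dualRail A))).filter (fun y => !(y.headD true))).length =
      ((varList A).map (rD false)).length := by
    have h2 : (varList A).length = ((varList A).map (fun x : Nm => false :: x)).length := by
      rw [List.length_map]
    rw [List.length_map, h2]
    refine List.Perm.length_eq ?_
    rw [List.perm_ext_iff_of_nodup ((nodup_dd _).filter _)
      ((varList_nodup A).map (fun x y h => (List.cons.inj h).2))]
    intro y
    rw [List.mem_filter, mem_dd, mem_nms, vars_dualRail_iff, List.mem_map]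
    constructor
    · rintro ⟨⟨b, x, hx, rfl⟩, h⟩
      refine ⟨x, hx, ?_⟩
      cases b
      · rfl
      · simp at h
    · rintro ⟨x, hx, rfl⟩
      exact ⟨⟨false, x, hx, rfl⟩, rfl⟩
  unfold dbU
  rw [dualRail_eq] at h1 ⊢
  rw [dbU_fold _ _ _ h1, Fm.subst_subst]
  exact Fm.subst_eq_self fun x _ => rfl

/-- The functions that are used. -/
structure FnU where
  /-- words -/
  Tw : ℕ × ℕ → List (List Bool)
  /-- codes -/
  Tc : List Nm → List (Nm × List Bool)
  /-- registers -/
  Tr : Nm × List (List Nm) × List (Nm × List Bool) × List (List Bool) × List Fm → List Fm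

namespace FnU

variable (q : FnU)

def xs (π : List Fm) : List Nm := varList (dbU (lastF π))
def L (π : List Fm) : ℕ := bdN (xs π)
def d (π : List Fm) : Nm := fn (L π) 0 []
def L2 (π : List Fm) : ℕ := L π + 2
def rl (π : List Fm) : List Nm := (xs π).flatMap (fun x => [false :: x, true :: x])
def oth (π : List Fm) : List Nm :=
  (dd (π.flatMap nms)).filter (fun x => !(decide (x ∈ rl π)))
def m (π : List Fm) : ℕ := (xs π).length + (oth π).length
def c (π : List Fm) : ℕ := Nat.log 2 (m π) + 1
def codes (π : List Fm) : List (List Bool) := (q.Tc (List.replicate (m π) [])).map Prod.snd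
def pre (π : List Fm) : List (List Bool) := (q.codes π).take (xs π).length
def cd (π : List Fm) : List (Nm × List Bool) :=
  ((xs π).zip (q.pre π)).flatMap
    (fun p => [(false :: p.1, p.2 ++ [true]), (true :: p.1, p.2 ++ [false])]) ++
  ((oth π).zip ((q.codes π).drop (xs π).length)).map (fun p => (p.1, p.2 ++ [false]))
def tb (π : List Fm) : List (List Nm) :=
  (List.range (xs π).length).map (fun j => (List.range (c π)).map
    (fun k => fn (L2 π) j (List.replicate k true)))
def regs (π : List Fm) : List (List Nm) := finR (tb π) (dbX (xs π))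
def W (π : List Fm) : List (List Bool) := q.Tw (4 * m π, c π + 1)
def out1 (π : List Fm) : List Fm := q.Tr (d π, regs π, q.cd π, q.W π, π)
def out2 (π : List Fm) : List Fm :=
  dbT (d π) (xs π) (tb π) (q.pre π) (q.cd π) (lastF π) (dbU (lastF π))
def out (π : List Fm) : List Fm :=
  cutAt (dbU (lastF π)) (app [] (q.out1 π ++ q.out2 π))

end FnU

section poly

variable {α : Type} [Enc α]

theorem sz_getD_le (B : Fm) : sz ((sfKids B).getD 1 B) ≤ sz B := by
  cases B with
  | var w => simp [sfKids]
  | neg A => simp [sfKids]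
  | and A B => simp [sfKids, sz_and]; omega
  | or A B => simp [sfKids, sz_or]; omega
  | imp A B => simp [sfKids, sz_imp]; omega

@[fun_prop]
theorem Poly.dbU {D : α → Fm} (h : Poly D) : Poly (fun a => dbU (D a)) := by
  have h1 : PT.Poly (fun a => ((PS.dd (PS.nms (D a))).filter
      (fun y => !(y.headD true))).foldl (fun B _ => (PS.sfKids B).getD 1 B) (D a)) := by
    refine Poly.foldl (f := fun p : α × Fm × Nm => (PS.sfKids p.2.1).getD 1 p.2.1)
      (l := fun a => (PS.dd (PS.nms (D a))).filter (fun y => !(y.headD true))) (s0 := D)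
      (B := fun a => sz (D a)) (by fun_prop) (by fun_prop) h h.sz_le ?_
    intro a l₁ l₂ _
    have key : ∀ (l : List Nm) (B : Fm),
        sz (l.foldl (fun B _ => (PS.sfKids B).getD 1 B) B) ≤ sz B := by
      intro l
      induction l with
      | nil => intro B; exact le_rfl
      | cons y l ih =>
        intro B
        rw [List.foldl_cons]
        exact (ih _).trans (sz_getD_le B)
    exact key l₁ (D a)
  unfold PS.dbU
  exact Poly.substP (s := fun (_ : α) (y : Nm) => var y.tail) (by fun_prop) h1

end poly

namespace FnU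

variable {q : FnU}

structure IsPoly (q : FnU) : Prop where
  hTw : Poly q.Tw
  hTc : Poly q.Tc
  hTr : Poly q.Tr

theorem pxs : Poly xs := by unfold xs varList; fun_prop
theorem pL : Poly L := by have := pxs; unfold L; fun_prop
theorem pd : Poly d := by have := pL; unfold d; fun_prop
theorem pL2 : Poly L2 := by have := pL; unfold L2; fun_prop
theorem prl : Poly rl := by have := pxs; unfold rl; fun_prop
theorem poth : Poly oth := by have := prl; unfold oth; fun_prop
theorem pm : Poly m := by have := pxs; have := poth; unfold m; fun_prop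
theorem pc : Poly c := by have := pm; unfold c; fun_prop
theorem pcodes (h : IsPoly q) : Poly q.codes := by
  have := pm; have := h.hTc
  unfold codes; fun_prop
theorem ppre (h : IsPoly q) : Poly q.pre := by
  have := pcodes h; have := pxs
  unfold pre; fun_prop
theorem pcd (h : IsPoly q) : Poly q.cd := by
  have := pcodes h; have := pxs; have := ppre h; have := poth
  unfold cd; fun_prop
theorem ptb : Poly tb := by have := pxs; have := pc; have := pL2; unfold tb; fun_prop
theorem pregs : Poly regs := by have := ptb; have := pxs; unfold regs; fun_prop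
theorem pW (h : IsPoly q) : Poly q.W := by
  have := pm; have := pc; have := h.hTw
  unfold W; fun_prop
theorem pout1 (h : IsPoly q) : Poly q.out1 := by
  have := pd; have := pregs; have := pcd h; have := pW h; have := h.hTr
  unfold out1; fun_prop
theorem pout2 (h : IsPoly q) : Poly q.out2 := by
  have := pd; have := pxs; have := ptb; have := ppre h; have := pcd h
  unfold out2; fun_prop
theorem pout (h : IsPoly q) : Poly q.out := by
  have := pout1 h; have := pout2 h
  unfold out; fun_prop

/-- The specifications. -/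
structure Spec (F : List Rule) (q : FnU) : Prop where
  Tw : ∀ (cap e : ℕ), 2 ^ e ≤ cap → (q.Tw (cap, e)).Nodup ∧ (q.Tw (cap, e)).length = 2 ^ e ∧
      ∀ w, w ∈ q.Tw (cap, e) ↔ w.length = e
  Tc : ∀ l : List Nm, (q.Tc l).map Prod.fst = l ∧ ((q.Tc l).map Prod.snd).Nodup ∧
      ∀ p ∈ q.Tc l, p.2.length = Nat.log 2 l.length + 1 ∧ true ∈ p.2
  Tr : ∀ (d : Nm) (regs : List (List Nm)) (cd : List (Nm × List Bool)) (W : List (List Bool))
      (r : ℕ) (ρ : List Fm),
      (∀ w, w ∈ W ↔ w.length = r) → (∀ ys ∈ regs, ys.length = r) → regs.flatten.Nodup →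
      d ∉ regs.flatten → (cd.map Prod.fst).Nodup → (cd.map Prod.snd).Nodup →
      (∀ p ∈ cd, p.2.length = r) → Deriv (FP F) ρ →
      (∀ C ∈ ρ, ∀ x ∈ C.vars, x ∈ cd.map Prod.fst) →
      ∀ π : List Fm, Just (GC (GG F)) π (q.Tr (d, regs, cd, W, ρ)) ∧
        (∀ B ∈ ρ, B.subst (tsub (regT d regs cd)) ∈ q.Tr (d, regs, cd, W, ρ)) ∧
        ∀ C ∈ q.Tr (d, regs, cd, W, ρ), ∀ x ∈ C.vars, x = d ∨ x ∈ regs.flatten

section spec

variable {F : List Rule} (h : Spec F q) {A : Fm} {π : List Fm}
  (hπ : PermProof F (dualRail A) π)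

include hπ in
theorem last : lastF π = dualRail A := lastF_eq hπ.2

include hπ in
theorem lastU : dbU (lastF π) = A := by rw [last hπ, dbU_dualRail]

include hπ in
theorem xs_eq : xs π = varList A := by unfold xs; rw [lastU hπ]

theorem xs_nodup (π : List Fm) : (xs π).Nodup := varList_nodup _

theorem mem_rl {y : Nm} : y ∈ rl π ↔ ∃ b, ∃ x ∈ xs π, y = b :: x := by
  unfold rl
  rw [List.mem_flatMap]
  constructor
  · rintro ⟨x, hx, h⟩
    simp only [List.mem_cons, List.not_mem_nil, or_false] at h
    rcases h with rfl | rfl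
    · exact ⟨false, x, hx, rfl⟩
    · exact ⟨true, x, hx, rfl⟩
  · rintro ⟨b, x, hx, rfl⟩
    refine ⟨x, hx, ?_⟩
    cases b <;> simp

theorem rl_nodup (π : List Fm) : (rl π).Nodup := by
  unfold rl
  rw [List.nodup_flatMap]
  constructor
  · intro x _
    simp
  · refine (xs_nodup π).imp ?_
    intro x y hxy
    rw [Function.onFun, List.disjoint_left]
    intro z hz hz'
    simp only [List.mem_cons, List.not_mem_nil, or_false] at hz hz'
    rcases hz with rfl | rfl
    · rcases hz' with e | e
      · exact hxy (List.cons.inj e).2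
      · exact hxy (List.cons.inj e).2
    · rcases hz' with e | e
      · exact hxy (List.cons.inj e).2
      · exact hxy (List.cons.inj e).2

theorem mem_oth {y : Nm} : y ∈ oth π ↔ (∃ C ∈ π, y ∈ C.vars) ∧ y ∉ rl π := by
  unfold oth
  rw [List.mem_filter, mem_dd, List.mem_flatMap]
  simp only [mem_nms, Bool.not_eq_true', decide_eq_false_iff_not]

theorem oth_nodup (π : List Fm) : (oth π).Nodup := (nodup_dd _).filter _

include h in
theorem codes_spec : (q.codes π).length = m π ∧ (q.codes π).Nodup ∧
    ∀ u ∈ q.codes π, u.length = c π := by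
  obtain ⟨h1, h2, h3⟩ := h.Tc (List.replicate (m π) [])
  refine ⟨?_, h2, ?_⟩
  · have := congrArg List.length h1
    unfold codes
    rw [List.length_map, List.length_replicate] at this
    rw [List.length_map, this]
  · intro u hu
    obtain ⟨p, hp, rfl⟩ := List.mem_map.1 hu
    rw [(h3 p hp).1, List.length_replicate]
    rfl

include h in
theorem pre_spec : (q.pre π).length = (xs π).length ∧ (q.pre π).Nodup ∧
    (∀ u ∈ q.pre π, u.length = c π) ∧
    ((q.codes π).drop (xs π).length).length = (oth π).length := by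
  obtain ⟨h1, h2, h3⟩ := codes_spec h (π := π)
  unfold pre
  refine ⟨?_, h2.sublist (List.take_sublist _ _), fun u hu => h3 u (List.mem_of_mem_take hu), ?_⟩
  · rw [List.length_take, h1]
    unfold m; omega
  · rw [List.length_drop, h1]
    unfold m; omega

include h in
theorem cd_fst : (q.cd π).map Prod.fst = rl π ++ oth π := by
  obtain ⟨h1, h2, h3, h4⟩ := pre_spec h (π := π)
  unfold cd
  rw [List.map_append]
  congr 1
  · unfold rl
    have : ∀ (l : List Nm) (m : List (List Bool)), m.length = l.length →
        ((l.zip m).flatMap (fun p : Nm × List Bool =>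
          [(false :: p.1, p.2 ++ [true]), (true :: p.1, p.2 ++ [false])])).map Prod.fst =
        l.flatMap (fun x => [false :: x, true :: x]) := by
      intro l
      induction l with
      | nil => intro m _; rfl
      | cons a l ih =>
        intro m hm
        cases m with
        | nil => simp at hm
        | cons u m =>
          rw [List.zip_cons_cons, List.flatMap_cons, List.map_append, ih m (by simpa using hm),
            List.flatMap_cons]
          rfl
    exact this _ _ h1
  · rw [List.map_map]
    have : ∀ (l : List Nm) (m : List (List Bool)), m.length = l.length →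
        (l.zip m).map (Prod.fst ∘ fun p : Nm × List Bool => (p.1, p.2 ++ [false])) = l := by
      intro l
      induction l with
      | nil => intro m _; rfl
      | cons a l ih =>
        intro m hm
        cases m with
        | nil => simp at hm
        | cons u m => simp [ih m (by simpa using hm)]
    exact this _ _ h4

include h in
theorem cd_fst_nodup : ((q.cd π).map Prod.fst).Nodup := by
  rw [cd_fst h, List.nodup_append]
  refine ⟨rl_nodup π, oth_nodup π, ?_⟩
  rintro x hx y hy rfl
  exact (mem_oth.1 hy).2 hx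

include h in
theorem cd_len {p : Nm × List Bool} (hp : p ∈ q.cd π) : p.2.length = c π + 1 := by
  obtain ⟨h1, h2, h3, h4⟩ := pre_spec h (π := π)
  unfold cd at hp
  rcases List.mem_append.1 hp with hp | hp
  · obtain ⟨a, ha, hp⟩ := List.mem_flatMap.1 hp
    have h5 := h3 a.2 (List.of_mem_zip ha).2
    simp only [List.mem_cons, List.not_mem_nil, or_false] at hp
    rcases hp with rfl | rfl <;> simp [h5]
  · obtain ⟨a, ha, rfl⟩ := List.mem_map.1 hp
    have h5 := (codes_spec h (π := π)).2.2 a.2 (List.mem_of_mem_drop (List.of_mem_zip ha).2)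
    simp [h5]

include h in
theorem cd_snd_nodup : ((q.cd π).map Prod.snd).Nodup := by
  obtain ⟨h1, h2, h3, h4⟩ := pre_spec h (π := π)
  obtain ⟨c1, c2, c3⟩ := codes_spec h (π := π)
  have h5 : (q.pre π ++ (q.codes π).drop (xs π).length).Nodup := by
    unfold pre
    rw [List.take_append_drop]
    exact c2
  rw [List.nodup_append] at h5
  have e1 : ∀ (l : List Nm) (m : List (List Bool)), m.length = l.length →
      ((l.zip m).flatMap (fun p : Nm × List Bool =>
        [(false :: p.1, p.2 ++ [true]), (true :: p.1, p.2 ++ [false])])).map Prod.snd =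
      m.flatMap (fun u => [u ++ [true], u ++ [false]]) := by
    intro l
    induction l with
    | nil =>
      intro m hm
      rw [List.length_eq_zero_iff.1 hm]
      rfl
    | cons a l ih =>
      intro m hm
      cases m with
      | nil => simp at hm
      | cons u m =>
        rw [List.zip_cons_cons, List.flatMap_cons, List.map_append, ih m (by simpa using hm),
          List.flatMap_cons]
        rfl
  have e2 : ∀ (l : List Nm) (m : List (List Bool)), m.length = l.length →
      ((l.zip m).map (fun p : Nm × List Bool => (p.1, p.2 ++ [false]))).map Prod.snd =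
        m.map (fun u => u ++ [false]) := by
    intro l
    induction l with
    | nil =>
      intro m hm
      rw [List.length_eq_zero_iff.1 hm]
      rfl
    | cons a l ih =>
      intro m hm
      cases m with
      | nil => simp at hm
      | cons u m =>
        have := ih m (by simpa using hm)
        rw [List.zip_cons_cons, List.map_cons, List.map_cons, this]
        rfl
  unfold cd
  rw [List.map_append, e1 _ _ h1, e2 _ _ h4, List.nodup_append]
  have hinj : ∀ {u v : List Bool} {a b : Bool}, u ++ [a] = v ++ [b] → u = v ∧ a = b := by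
    intro u v a b e
    have := List.append_inj' e rfl
    exact ⟨this.1, by simpa using this.2⟩
  refine ⟨?_, ?_, ?_⟩
  · rw [List.nodup_flatMap]
    constructor
    · intro u _
      simp
    · refine h2.imp ?_
      intro u v huv
      rw [Function.onFun, List.disjoint_left]
      intro z hz hz'
      simp only [List.mem_cons, List.not_mem_nil, or_false] at hz hz'
      rcases hz with rfl | rfl
      · rcases hz' with e | e
        · exact huv (hinj e).1
        · exact huv (hinj e).1
      · rcases hz' with e | e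
        · exact huv (hinj e).1
        · exact huv (hinj e).1
  · exact h5.2.1.map (fun u v e => (hinj e).1)
  · rintro x hx y hy rfl
    obtain ⟨u, hu, hx⟩ := List.mem_flatMap.1 hx
    obtain ⟨v, hv, rfl⟩ := List.mem_map.1 hy
    simp only [List.mem_cons, List.not_mem_nil, or_false] at hx
    have e : v = u := by
      rcases hx with e | e
      · exact (hinj e).1
      · exact (hinj e).1
    exact h5.2.2 u hu v hv e.symm

theorem tb_length : (tb π).length = (xs π).length := by simp [tb]

theorem tb_len {ys : List Nm} (hy : ys ∈ tb π) : ys.length = c π := by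
  obtain ⟨j, -, rfl⟩ := List.mem_map.1 hy
  simp

theorem mem_tb {x : Nm} : x ∈ (tb π).flatten ↔
    ∃ j < (xs π).length, ∃ k < c π, x = fn (L2 π) j (List.replicate k true) := by
  unfold tb
  simp only [List.mem_flatten, List.mem_map, List.mem_range]
  constructor
  · rintro ⟨ys, ⟨j, hj, rfl⟩, hx⟩
    obtain ⟨k, hk, rfl⟩ := List.mem_map.1 hx
    exact ⟨j, hj, k, List.mem_range.1 hk, rfl⟩
  · rintro ⟨j, hj, k, hk, rfl⟩
    exact ⟨_, ⟨j, hj, rfl⟩, List.mem_map_of_mem (List.mem_range.2 hk)⟩

theorem tb_nodup : (tb π).flatten.Nodup := by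
  unfold tb
  rw [← List.flatMap_def, List.nodup_flatMap]
  constructor
  · intro j _
    refine List.Nodup.map ?_ List.nodup_range
    intro k k' hk
    have := congrArg List.length (fn_inj hk).2
    simpa using this
  · refine List.nodup_range.imp ?_
    intro i j hij
    rw [Function.onFun, List.disjoint_left]
    intro x hx hx'
    obtain ⟨v, _, rfl⟩ := List.mem_map.1 hx
    obtain ⟨v', _, hv'⟩ := List.mem_map.1 hx'
    exact hij (fn_inj hv').1.symm

theorem lt_tb {x : Nm} (hx : x ∈ (tb π).flatten) : L2 π < x.length := by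
  obtain ⟨j, -, k, -, rfl⟩ := mem_tb.1 hx
  exact fn_length _ _ _

theorem le_L {x : Nm} (hx : x ∈ xs π) : x.length ≤ L π := le_bdN hx

theorem d_length : (d π).length = L2 π := by
  unfold d L2 fn
  simp

theorem all_nodup : ((tb π).flatten ++ xs π).Nodup := by
  rw [List.nodup_append]
  refine ⟨tb_nodup, xs_nodup π, ?_⟩
  rintro x hx y hy rfl
  have h1 := lt_tb hx
  have h2 := le_L hy
  unfold L2 at h1
  omega

theorem d_not_all : d π ∉ (tb π).flatten ++ xs π := by
  rw [List.mem_append, not_or]
  constructor
  · intro hx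
    have h1 := lt_tb hx
    rw [d_length] at h1
    omega
  · intro hx
    have h1 := le_L hx
    rw [d_length] at h1
    unfold L2 at h1
    omega

theorem regs_perm : (regs π).flatten.Perm ((tb π).flatten ++ xs π) := by
  unfold regs
  rw [← finR_eq]
  have := Fns.perm_zipWith_flatten (tb π) (dbX (xs π)) (by simp [tb_length, dbX])
  rwa [dbX_flatten] at this

theorem regs_len {ys : List Nm} (hy : ys ∈ regs π) : ys.length = c π + 1 := by
  unfold regs finR at hy
  obtain ⟨p, hp, rfl⟩ := List.mem_map.1 hy
  have h2 : p.2.length = 1 := by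
    obtain ⟨x, -, e⟩ := List.mem_map.1 (List.of_mem_zip hp).2
    rw [← e]
    rfl
  rw [List.length_append, tb_len (List.of_mem_zip hp).1, h2]

include hπ in
theorem xs_pos : 0 < (xs π).length := by
  rw [xs_eq hπ]
  exact varList_pos A

include h hπ in
theorem mem_W {v : List Bool} : v ∈ q.W π ↔ v.length = c π + 1 := by
  refine (h.Tw _ _ ?_).2.2 v
  unfold c
  rw [pow_add, pow_succ]
  have h1 := Nat.pow_log_le_self 2 (x := m π) (by
    have := xs_pos hπ
    unfold m; omega)
  omega

include h hπ in
theorem ok : DbOk (d π) (xs π) (tb π) (q.pre π) (q.cd π) (dualRail A) (c π) := by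
  obtain ⟨p1, p2, p3, p4⟩ := pre_spec h (π := π)
  refine ⟨fun ys hy => tb_len hy, p3, p2, tb_length, p1, all_nodup, cd_fst_nodup h, ?_, ?_⟩
  · intro J hJ hJ' b
    unfold cd
    refine List.mem_append_left _ (List.mem_flatMap.2 ⟨((xs π)[J], (q.pre π)[J]), ?_, ?_⟩)
    · rw [List.mem_iff_getElem]
      refine ⟨J, by rw [List.length_zip]; omega, ?_⟩
      rw [List.getElem_zip]
    · cases b <;> simp
  · intro y hy
    rw [xs_eq hπ]
    exact vars_dualRail hy

include h hπ in
theorem out1_spec (τ : List Fm) : Just (GC (GG F)) τ (q.out1 π) ∧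
    (dualRail A).subst (tsub (regT (d π) (regs π) (q.cd π))) ∈ q.out1 π ∧
    ∀ C ∈ q.out1 π, ∀ x ∈ C.vars, x = d π ∨ x ∈ (regs π).flatten := by
  obtain ⟨h1, h2, h3⟩ := h.Tr (d π) (regs π) (q.cd π) (q.W π) (c π + 1) π
    (fun _ => mem_W h hπ) (fun ys hy => regs_len hy) (regs_perm.nodup_iff.2 all_nodup)
    (fun hd => d_not_all (regs_perm.mem_iff.1 hd))
    (cd_fst_nodup h) (cd_snd_nodup h) (fun p hp => cd_len h hp) hπ.1
    (by
      intro C hC x hx
      rw [cd_fst h, List.mem_append]
      by_cases hz : x ∈ rl π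
      · exact Or.inl hz
      · exact Or.inr (mem_oth.2 ⟨⟨C, hC, hx⟩, hz⟩)) τ
  exact ⟨h1, h2 _ (List.mem_of_getLast? hπ.2), h3⟩

include h hπ in
theorem out2_spec (τ : List Fm)
    (hτ : (dualRail A).subst (tsub (regT (d π) (regs π) (q.cd π))) ∈ τ) :
    Just (GC (GG F)) τ (q.out2 π) ∧ A ∈ q.out2 π ∧
    ∀ C ∈ q.out2 π, ∀ x ∈ C.vars, x = d π ∨ x ∈ (tb π).flatten ∨ x ∈ xs π := by
  obtain ⟨p1, p2, p3, p4⟩ := pre_spec h (π := π)
  obtain ⟨j, mm⟩ := dbT_just (GG_rich F) (ok h hπ) (π := τ) hτ
  unfold out2
  rw [last hπ, dbU_dualRail]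
  refine ⟨j, mm, ?_⟩
  refine dbT_vars (P := fun x => x = d π ∨ x ∈ (tb π).flatten ∨ x ∈ xs π) ?_ ?_ ?_ ?_
    (Or.inl rfl) ?_
  · intro p hp
    rw [← finPs_fst (c := c π) (by rw [tb_length, p1]) (fun ys hy => tb_len hy) p3]
    exact List.mem_map_of_mem hp
  · intro y hy
    rw [cd_fst h, List.mem_append]
    obtain ⟨b, x, hx, rfl⟩ := vars_dualRail hy
    exact Or.inl (mem_rl.2 ⟨b, x, by rw [xs_eq hπ]; exact hx, rfl⟩)
  · intro y hy
    obtain ⟨b, x, hx, rfl⟩ := vars_dualRail hy
    rw [xs_eq hπ]
    exact hx
  · intro x hx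
    rw [xs_eq hπ]
    exact mem_varList.2 hx
  · intro x hx
    rw [dbX_flatten] at hx
    exact Or.inr hx

include h hπ in
theorem out_spec : Deriv (GC (GG F)) (q.out π) ∧ (q.out π).getLast? = some A ∧
    ∀ C ∈ q.out π, ∀ x ∈ C.vars, x ∈ d π :: ((tb π).flatten ++ xs π) := by
  obtain ⟨a1, a2, a3⟩ := out1_spec h hπ []
  obtain ⟨b1, b2, b3⟩ := out2_spec h hπ ([] ++ q.out1 π) (by simpa using a2)
  have j : Just (GC (GG F)) [] (q.out1 π ++ q.out2 π) := Just.append a1 b1
  have hD := deriv_app (mono_GC (GG F)) Deriv.nil j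
  have hA : A ∈ app [] (q.out1 π ++ q.out2 π) :=
    mem_app.2 (Or.inr (List.mem_append_right _ b2))
  obtain ⟨c1, c2⟩ := deriv_cutAt hD hA
  unfold out
  rw [lastU hπ]
  refine ⟨c1, c2, ?_⟩
  intro C hC x hx
  have hC' : C ∈ q.out1 π ∨ C ∈ q.out2 π := by
    have : C ∈ app [] (q.out1 π ++ q.out2 π) := by
      unfold cutAt at hC
      rcases List.mem_append.1 hC with hC | hC
      · exact (List.takeWhile_prefix _).subset hC
      · rw [List.mem_singleton] at hC
        rw [hC]; exact hA
    simpa using mem_app.1 this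
  rw [List.mem_cons, List.mem_append]
  rcases hC' with hC' | hC'
  · rcases a3 C hC' x hx with h1 | h1
    · exact Or.inl h1
    · exact Or.inr (List.mem_append.1 (regs_perm.mem_iff.1 h1))
  · exact b3 C hC' x hx

end spec

end FnU

/-- Proofs of the dual-rail version with the permutation rule become substitution Frege proofs
with few variables. -/
theorem dualB {F : List Rule} (hF : IsFrege F) :
    ∃ (c : ℕ) (f : List Fm → List Fm), Poly f ∧ ∀ (A : Fm) (π : List Fm),
      PermProof F (dualRail A) π →
      SubstProof F A (f π) ∧ numVars (f π) ≤ c * numVars [A] * Nat.log 2 (sz π) := by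
  obtain ⟨Tw, hTw, hTw'⟩ := words_main
  obtain ⟨Tc, hTc, hTc'⟩ := codes_main
  obtain ⟨Tr, hTr, hTr'⟩ := reg_main F
  obtain ⟨rb, hrb, hrb'⟩ := robust hF (GG_sound hF)
  let q : FnU := ⟨Tw, Tc, Tr⟩
  have hp : FnU.IsPoly q := ⟨hTw, hTc, hTr⟩
  have hs : FnU.Spec F q := ⟨hTw', hTc', hTr'⟩
  obtain ⟨K, hK0, hK⟩ := log_bound (pbdd_of_poly FnU.pm)
  refine ⟨2 * K + 2, fun π => rb (q.out π), Poly.comp hrb (FnU.pout hp), ?_⟩
  intro A π hπ
  obtain ⟨o1, o2, o3⟩ := FnU.out_spec hs hπ
  obtain ⟨r1, r2, r3⟩ := hrb' ConstStep mono_constStep (q.out π) A o1 o2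
  refine ⟨⟨?_, r2⟩, ?_⟩
  · have key : ∀ {τ : List Fm}, Deriv (fun σ B => RuleStep F σ B ∨ ConstStep σ B) τ →
        Deriv (fun σ B => RuleStep F σ B ∨ SubstStep σ B) τ := by
      intro τ hτ
      induction hτ with
      | nil => exact Deriv.nil
      | snoc _ h2 ih =>
        exact Deriv.snoc ih (h2.imp (fun h => h) (fun h => h.subst))
    exact key r1
  · have hn : numVars [A] = (FnU.xs π).length := by
      rw [numVars_one, FnU.xs_eq hπ]
      rfl
    have e1 : numVars (rb (q.out π)) ≤ numVars (q.out π) := numVars_mono r3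
    have e2 := numVars_le_length o3
    rw [List.length_cons, List.length_append,
      length_flatten_eq (fun ys hy => FnU.tb_len (π := π) hy), FnU.tb_length] at e2
    have e3 : FnU.c π ≤ K * (Nat.log 2 (sz π) + 1) := hK π
    have e5 : 0 < (FnU.xs π).length := FnU.xs_pos hπ
    have e7 : 1 ≤ Nat.log 2 (sz π) := by
      have h2 := two_le_sz (π := π) (by rintro rfl; simpa using hπ.2)
      exact Nat.log_pos (by norm_num) h2
    have e8 : (FnU.xs π).length * FnU.c π ≤
        (FnU.xs π).length * (K * (Nat.log 2 (sz π) + 1)) := Nat.mul_le_mul_left _ e3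
    rw [hn]
    have e9 : (FnU.xs π).length * (K * (Nat.log 2 (sz π) + 1)) ≤
        (FnU.xs π).length * (K * (2 * Nat.log 2 (sz π))) :=
      Nat.mul_le_mul_left _ (Nat.mul_le_mul_left _ (by omega))
    have e10 : (FnU.xs π).length + 1 ≤ 2 * (FnU.xs π).length * Nat.log 2 (sz π) := by
      nlinarith
    have e11 : (2 * K + 2) * (FnU.xs π).length * Nat.log 2 (sz π) =
        (FnU.xs π).length * (K * (2 * Nat.log 2 (sz π))) +
          2 * (FnU.xs π).length * Nat.log 2 (sz π) := by ring
    rw [e11]
    show numVars (rb (q.out π)) ≤ _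
    omega

end Pool.Agent.H.MP_0447ec_lc.PS
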