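import Pool.Agent.H.MP_0447ec_lc.LV.SliceDefs

/-!
# The dual-rail version of a formula
-/

namespace Pool.Agent.H.MP_0447ec_lc.PS

open Fm

/-- The dual-rail version of the formula `A` with the variables `x₁, ..., x_n`: it has the
variables `0x₁, 1x₁, ..., 0x_n, 1x_n`, and it is
`(0x₁ ↔ ¬ 1x₁) → ((0x₂ ↔ ¬ 1x₂) → ... ((0x_n ↔ ¬ 1x_n) → A(0x₁, ..., 0x_n)))`. -/
def dualRail (A : Fm) : Fm :=
  (varList A).foldr
    (fun x B => imp (Fm.iff (var (false :: x)) (neg (var (true :: x)))) B)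
    (A.subst (fun x => var (false :: x)))

end Pool.Agent.H.MP_0447ec_lc.PS
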