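import Pool.Agent.H.MP_0447ec_lc.LV.DualA2
import Pool.Agent.H.MP_0447ec_lc.LV.SliceBasic
import Pool.Agent.H.MP_0447ec_lc.LV.Fin
import Pool.Agent.H.MP_0447ec_lc.LV.DualDefs
import Pool.Agent.H.MP_0447ec_lc.LV.Count

/-!
# From dual rails to substitution Frege with few variables: the last lines
-/

namespace Pool.Agent.H.MP_0447ec_lc.PS

open Fm

/-! ### One case distinction -/

/-- The words of length one. -/
def dbV : List (List Bool) := [[true], [false]]

theorem mem_dbV (w : List Bool) : w ∈ dbV ↔ w.length = 1 := by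
  constructor
  · intro h
    simp only [dbV, List.mem_cons, List.not_mem_nil, or_false] at h
    rcases h with rfl | rfl <;> rfl
  · intro h
    obtain ⟨a, rfl⟩ := List.length_eq_one_iff.1 h
    cases a <;> simp [dbV]

/-- Lines that derive `Z'` from `Z`, if both simplify to the same under each value of `x`. -/
def dbStep (d : Nm) (Z Z' : Fm) (x : Nm) : List Fm :=
  dbV.flatMap (fun v0 => li0 d (lw (ct d true) [x] v0) Z Z') ++
    (splitL (ct d true) Z' [x] dbV ++ [Z'])

theorem dbStep_just {G : List Rule} (hG : Rich G) {d x : Nm} {Z Z' : Fm} {π : List Fm}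
    (h : Z ∈ π) (hs : ∀ v0 ∈ dbV, sm (litsOf (lw (ct d true) [x] v0)) Z =
      sm (litsOf (lw (ct d true) [x] v0)) Z') :
    Just (GC G) π (dbStep d Z Z' x) ∧ Z' ∈ dbStep d Z Z' x := by
  have step : ∀ v0 ∈ dbV, Just (RuleStep G) π (li0 d (lw (ct d true) [x] v0) Z Z') ∧
      imp (lw (ct d true) [x] v0) Z' ∈ li0 d (lw (ct d true) [x] v0) Z Z' :=
    fun v0 hv0 => li0_just hG h (hs v0 hv0)
  have hsp := splitL_just hG (H := ct d true) (A := Z') (ys := [x]) (W := dbV)
    (π := π ++ dbV.flatMap (fun v0 => li0 d (lw (ct d true) [x] v0) Z Z'))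
    (fun w => mem_dbV w) (by
      intro w hw
      exact List.mem_append_right _ (List.mem_flatMap.2 ⟨w, hw, (step w hw).2⟩))
  refine ⟨?_, by simp [dbStep]⟩
  unfold dbStep
  refine Just.append ?_ (Just.append ?_ ?_)
  · exact Just.imp_step (Just.flatMap (mono_ruleStep G) _ dbV π fun v0 hv0 => (step v0 hv0).1)
      fun σ B h => Or.inl h
  · exact Just.imp_step hsp.1 fun σ B h => Or.inl h
  · exact ⟨Or.inr (Or.inl (hG.strip (H := var d) hsp.2)), trivial⟩

/-! ### The formulas between the first and the last one -/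

/-- The registers without their first bits. -/
def dbX (xs : List Nm) : List (List Nm) := xs.map (fun x => [x])

/-- The values of the rails at the end. -/
def dbR (y : Nm) : Fm := if y.headD false = true then neg (var y.tail) else var y.tail

/-- The values of the rails after `J` steps. -/
def dbS (d : Nm) (xs : List Nm) (tb : List (List Nm)) (pre : List (List Bool))
    (cd : List (Nm × List Bool)) (J : ℕ) (y : Nm) : Fm :=
  if y.tail ∈ xs.take J then dbR y
  else (tsub (regT d (finR tb (dbX xs)) cd) y).subst (tsub (finP (finPs tb pre)))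

/-- The formula after `J` steps. -/
def dbZ (d : Nm) (xs : List Nm) (tb : List (List Nm)) (pre : List (List Bool))
    (cd : List (Nm × List Bool)) (D : Fm) (J : ℕ) : Fm := D.subst (dbS d xs tb pre cd J)

/-- The lines between the first and the last formula. -/
def dbAll (d : Nm) (xs : List Nm) (tb : List (List Nm)) (pre : List (List Bool))
    (cd : List (Nm × List Bool)) (D : Fm) : List Fm :=
  (List.range xs.length).flatMap (fun J => dbStep d (dbZ d xs tb pre cd D J)
    (dbZ d xs tb pre cd D (J + 1)) (xs.getD J []))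

section

variable {d : Nm} {xs : List Nm} {tb : List (List Nm)} {pre : List (List Bool)}
  {cd : List (Nm × List Bool)} {D : Fm} {c : ℕ}

theorem dbZ_zero : dbZ d xs tb pre cd D 0 =
    (D.subst (tsub (regT d (finR tb (dbX xs)) cd))).subst (tsub (finP (finPs tb pre))) := by
  rw [Fm.subst_subst]
  unfold dbZ
  refine Fm.subst_congr fun y _ => ?_
  unfold dbS
  rw [if_neg (by simp)]

theorem dbZ_end (hD : ∀ y ∈ D.vars, y.tail ∈ xs) : dbZ d xs tb pre cd D xs.length =
    D.subst dbR := by
  unfold dbZ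
  refine Fm.subst_congr fun y hy => ?_
  unfold dbS
  rw [List.take_length, if_pos (hD y hy)]

/-- The hypotheses. -/
structure DbOk (d : Nm) (xs : List Nm) (tb : List (List Nm)) (pre : List (List Bool))
    (cd : List (Nm × List Bool)) (D : Fm) (c : ℕ) : Prop where
  htb : ∀ ys ∈ tb, ys.length = c
  hpre : ∀ w ∈ pre, w.length = c
  hpn : pre.Nodup
  h1 : tb.length = xs.length
  h2 : pre.length = xs.length
  hnd : (tb.flatten ++ xs).Nodup
  hcd : (cd.map Prod.fst).Nodup
  hm : ∀ (J : ℕ) (hJ : J < xs.length) (hJ' : J < pre.length) (b : Bool),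
    (b :: xs[J], pre[J] ++ [!b]) ∈ cd
  hD : ∀ y ∈ D.vars, ∃ b, ∃ x ∈ xs, y = b :: x

theorem dbX_flatten : (dbX xs).flatten = xs := by
  unfold dbX
  induction xs with
  | nil => rfl
  | cons x xs ih => rw [List.map_cons, List.flatten_cons, ih]; rfl

theorem DbOk.step (h : DbOk d xs tb pre cd D c) {J : ℕ} (hJ : J < xs.length) :
    ∀ v0 ∈ dbV, sm (litsOf (lw (ct d true) [xs[J]] v0)) (dbZ d xs tb pre cd D J) =
      sm (litsOf (lw (ct d true) [xs[J]] v0)) (dbZ d xs tb pre cd D (J + 1)) := by
  intro v0 hv0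
  obtain ⟨β, rfl⟩ := List.length_eq_one_iff.1 ((mem_dbV v0).1 hv0)
  have hxn : xs.Nodup := (List.nodup_append.1 h.hnd).2.1
  have hJX : J < (dbX xs).length := by simpa [dbX] using hJ
  have hX : (dbX xs)[J] = [xs[J]] := by simp [dbX]
  have hJ' : J < pre.length := by rw [h.h2]; exact hJ
  unfold dbZ
  refine sm_subst fun y hy => ?_
  obtain ⟨b, x, hx, rfl⟩ := h.hD y hy
  unfold dbS
  rw [List.tail_cons, List.take_succ_eq_append_getElem hJ]
  by_cases h1 : x ∈ xs.take J
  · rw [if_pos h1, if_pos (List.mem_append_left _ h1)]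
  · rw [if_neg h1]
    by_cases h2 : x = xs[J]
    · subst h2
      rw [if_pos (List.mem_append_right _ (List.mem_singleton.2 rfl))]
      have e1 : tsub (regT d (finR tb (dbX xs)) cd) (b :: xs[J]) =
          anyr d (finR tb (dbX xs)) (pre[J] ++ [!b]) := by
        refine tsub_of_mem (t := regT d (finR tb (dbX xs)) cd) ?_ ?_
        · exact List.mem_map_of_mem (f := fun p : Nm × List Bool =>
            (p.1, anyr d (finR tb (dbX xs)) p.2)) (h.hm J hJ hJ' b)
        · have : (regT d (finR tb (dbX xs)) cd).map Prod.fst = cd.map Prod.fst := by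
            simp [regT]
          rw [this]; exact h.hcd
      have e2 := Fin_core (d := d) (tb := tb) (xb := dbX xs) (pre := pre) (b := 1) (c := c)
        (by
          intro ys hys
          obtain ⟨x, -, rfl⟩ := List.mem_map.1 hys
          rfl) h.htb h.hpre h.hpn (by simpa [dbX] using h.h1) (by simpa [dbX] using h.h2)
        (by rw [dbX_flatten]; exact h.hnd) hJX hJ' (v0 := [β]) (v := [!b]) rfl rfl
      rw [hX] at e2
      rw [e1, e2]
      have e3 : sm (litsOf (lw (ct d true) [xs[J]] [β])) (var xs[J]) = (some β, var []) :=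
        Fin_sm_var (List.nodup_singleton _) (by simp)
      cases b
      · have e4 : dbR (false :: xs[J]) = var xs[J] := by simp [dbR]
        rw [e4, e3]
        cases β <;> simp
      · have e4 : dbR (true :: xs[J]) = neg (var xs[J]) := by simp [dbR]
        rw [e4, sm_neg, e3]
        cases β <;> simp [smN]
    · rw [if_neg (by
        rw [List.mem_append, List.mem_singleton, not_or]
        exact ⟨h1, h2⟩)]

theorem dbAll_just {G : List Rule} (hG : Rich G) (h : DbOk d xs tb pre cd D c) {π : List Fm}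
    (h0 : dbZ d xs tb pre cd D 0 ∈ π) :
    Just (GC G) π (dbAll d xs tb pre cd D) ∧
      dbZ d xs tb pre cd D xs.length ∈ π ++ dbAll d xs tb pre cd D := by
  have key : ∀ n, n ≤ xs.length →
      Just (GC G) π ((List.range n).flatMap (fun J => dbStep d (dbZ d xs tb pre cd D J)
        (dbZ d xs tb pre cd D (J + 1)) (xs.getD J []))) ∧
      dbZ d xs tb pre cd D n ∈ π ++ (List.range n).flatMap (fun J =>
        dbStep d (dbZ d xs tb pre cd D J) (dbZ d xs tb pre cd D (J + 1)) (xs.getD J [])) := by
    intro n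
    induction n with
    | zero => intro _; exact ⟨trivial, List.mem_append_left _ h0⟩
    | succ n ih =>
      intro hn
      obtain ⟨j, m⟩ := ih (by omega)
      have hlt : n < xs.length := by omega
      rw [List.range_succ, List.flatMap_append]
      have e : [n].flatMap (fun J => dbStep d (dbZ d xs tb pre cd D J)
        (dbZ d xs tb pre cd D (J + 1)) (xs.getD J [])) =
          dbStep d (dbZ d xs tb pre cd D n) (dbZ d xs tb pre cd D (n + 1)) xs[n] := by
        simp [hlt]
      rw [e]
      obtain ⟨j2, m2⟩ := dbStep_just hG m (h.step hlt)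
      exact ⟨Just.append j j2, List.mem_append_right _ (List.mem_append_right _ m2)⟩
  exact key xs.length le_rfl

end

/-! ### The last step -/

theorem sm_fimp {K : List (Nm × Bool)} {l : List Fm} {B : Fm}
    (h : ∀ D ∈ l, (sm K D).1 = some true) : sm K (fimp l B) = sm K B := by
  induction l with
  | nil => rfl
  | cons D l ih =>
    have h1 : (sm K D).1 = some true := h D (by simp)
    show smImp (sm K D) (sm K (fimp l B)) = sm K B
    rw [ih (fun E hE => h E (List.mem_cons_of_mem _ hE))]
    rcases hs : sm K D with ⟨s, R⟩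
    rw [hs] at h1
    simp only at h1
    subst h1
    rfl

theorem sm_dbR (K : List (Nm × Bool)) (A : Fm) : sm K ((dualRail A).subst dbR) = sm K A := by
  have e0 : dualRail A = fimp ((varList A).map (rD false)) (A.subst (rt false)) := by
    unfold dualRail fimp
    rw [List.foldr_map]
    rfl
  have e1 : ∀ (l : List Fm) (B : Fm), (fimp l B).subst dbR =
      fimp (l.map (Fm.subst dbR)) (B.subst dbR) := by
    intro l B
    induction l with
    | nil => rfl
    | cons D l ih =>
      show imp (D.subst dbR) ((fimp l B).subst dbR) = _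
      rw [ih]
      rfl
  rw [e0, e1]
  have e2 : (A.subst (rt false)).subst dbR = A := by
    rw [Fm.subst_subst]
    refine Fm.subst_eq_self fun x _ => ?_
    simp [rt, dbR, Fm.subst]
  rw [e2]
  refine sm_fimp fun D hD => ?_
  rw [List.map_map] at hD
  obtain ⟨x, -, rfl⟩ := List.mem_map.1 hD
  have e3 : Fm.subst dbR (rD false x) = Fm.iff (var x) (neg (neg (var x))) := by
    simp [rD, dbR, Fm.iff, Fm.subst]
  show (sm K (Fm.subst dbR (rD false x))).1 = _
  rw [e3]
  have e4 : sm K (neg (neg (var x))) = sm K (var x) := by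
    rw [sm_neg, sm_neg, sm_var]
    unfold smV
    cases lk K x with
    | none => rfl
    | some b => cases b <;> rfl
  have e5 : sm K (imp (var x) (neg (neg (var x)))) = (some true, var []) :=
    sm_imp_self e4.symm
  have e6 : sm K (imp (neg (neg (var x))) (var x)) = (some true, var []) :=
    sm_imp_self e4
  unfold Fm.iff
  rw [sm_and, e5, e6]
  rfl

/-- The last lines. -/
def dbF (d : Nm) (D A : Fm) : List Fm := li0 d (ct d true) (D.subst dbR) A ++ [A]

theorem dbF_just {G : List Rule} (hG : Rich G) {d : Nm} {A : Fm} {π : List Fm}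
    (h : (dualRail A).subst dbR ∈ π) :
    Just (GC G) π (dbF d (dualRail A) A) ∧ A ∈ dbF d (dualRail A) A := by
  obtain ⟨j, m⟩ := li0_just hG (d := d) (H := ct d true) h (sm_dbR _ A)
  refine ⟨Just.append (Just.imp_step j fun σ B h => Or.inl h)
    ⟨Or.inr (Or.inl (hG.strip (H := var d) ?_)), trivial⟩, by simp [dbF]⟩
  exact List.mem_append_right _ m

/-- All lines. -/
def dbT (d : Nm) (xs : List Nm) (tb : List (List Nm)) (pre : List (List Bool))
    (cd : List (Nm × List Bool)) (D A : Fm) : List Fm :=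
  finC d (D.subst (tsub (regT d (finR tb (dbX xs)) cd))) (finPs tb pre) ++
    (dbZ d xs tb pre cd D 0 :: (dbAll d xs tb pre cd D ++ dbF d D A))

theorem dbT_just {G : List Rule} (hG : Rich G) {d : Nm} {xs : List Nm} {tb : List (List Nm)}
    {pre : List (List Bool)} {cd : List (Nm × List Bool)} {A : Fm} {c : ℕ}
    (h : DbOk d xs tb pre cd (dualRail A) c) {π : List Fm}
    (h0 : (dualRail A).subst (tsub (regT d (finR tb (dbX xs)) cd)) ∈ π) :
    Just (GC G) π (dbT d xs tb pre cd (dualRail A) A) ∧
      A ∈ dbT d xs tb pre cd (dualRail A) A := by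
  have hps : ((finPs tb pre).map Prod.fst).Nodup := by
    rw [finPs_fst (by rw [h.h1, h.h2]) h.htb h.hpre]
    exact (List.nodup_append.1 h.hnd).1
  obtain ⟨j1, m1⟩ := Fin_chain_just (G := G) (π := π) hps h0 _ le_rfl
  rw [List.take_length, ← dbZ_zero] at m1
  obtain ⟨j2, m2⟩ := dbAll_just hG h (π := π ++
    finC d ((dualRail A).subst (tsub (regT d (finR tb (dbX xs)) cd))) (finPs tb pre) ++
    [dbZ d xs tb pre cd (dualRail A) 0]) (List.mem_append_right _ (List.mem_singleton.2 rfl))
  rw [dbZ_end (fun y hy => by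
    obtain ⟨b, x, hx, rfl⟩ := h.hD y hy
    exact hx)] at m2
  obtain ⟨j3, m3⟩ := dbF_just hG (d := d) m2
  unfold dbT
  refine ⟨Just.append j1 ⟨Or.inl m1, Just.append j2 j3⟩, ?_⟩
  exact List.mem_append_right _ (List.mem_cons_of_mem _ (List.mem_append_right _ m3))

/-! ### Variables -/

theorem dbT_vars {P : Nm → Prop} {d : Nm} {xs : List Nm} {tb : List (List Nm)}
    {pre : List (List Bool)} {cd : List (Nm × List Bool)} {D A : Fm}
    (hps : ∀ q ∈ finPs tb pre, q.1 ∈ tb.flatten)
    (hD : ∀ y ∈ D.vars, y ∈ cd.map Prod.fst) (hD' : ∀ y ∈ D.vars, y.tail ∈ xs)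
    (hA : ∀ x ∈ A.vars, x ∈ xs)
    (hd : P d) (h : ∀ x, x ∈ tb.flatten ∨ x ∈ (dbX xs).flatten → P x) :
    ∀ C ∈ dbT d xs tb pre cd D A, Fin_vs P C := by
  have hps' : ∀ q ∈ finPs tb pre, P q.1 := fun q hq => h _ (Or.inl (hps q hq))
  have hxs : ∀ x ∈ xs, P x := fun x hx => h x (Or.inr (by rw [dbX_flatten]; exact hx))
  have hX : Fin_vs P (D.subst (tsub (regT d (finR tb (dbX xs)) cd))) :=
    Fin_vs_reg hd h (fun y hy => Or.inr (hD y hy))
  have hR : ∀ y, y.tail ∈ xs → Fin_vs P (dbR y) := by
    intro y hy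
    unfold dbR
    split_ifs
    · exact Fin_vs_neg.2 (Fin_vs_var.2 (hxs _ hy))
    · exact Fin_vs_var.2 (hxs _ hy)
  have hZ : ∀ J, Fin_vs P (dbZ d xs tb pre cd D J) := by
    intro J
    refine Fin_vs_subst fun y hy => ?_
    unfold dbS
    split_ifs with h1
    · exact hR y (List.mem_of_mem_take h1)
    · refine Fin_vs_finP ?_ hps'
      have := Fin_vs_reg (cd := cd) (B := var y) hd h
        (Fin_vs_var.2 (Or.inr (hD y hy)))
      exact this
  have hct : Fin_vs P (ct d true) := Fin_vs_ct.2 hd
  have hA' : Fin_vs P A := fun x hx => hxs x (hA x hx)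
  intro C hC
  unfold dbT at hC
  rw [List.mem_append, List.mem_cons, List.mem_append] at hC
  rcases hC with hC | rfl | hC | hC
  · obtain ⟨k, -, rfl⟩ := List.mem_map.1 hC
    exact Fin_vs_finP hX fun q hq => hps' q (List.mem_of_mem_take hq)
  · exact hZ 0
  · unfold dbAll at hC
    rw [List.mem_flatMap] at hC
    obtain ⟨J, hJ, hC⟩ := hC
    rw [List.mem_range] at hJ
    have hy : ∀ y ∈ [xs.getD J []], P y := by
      intro y hy
      rw [List.mem_singleton] at hy
      rw [hy, List.getD_eq_getElem _ _ hJ]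
      exact hxs _ (List.getElem_mem _)
    unfold dbStep at hC
    rw [List.mem_append, List.mem_append, List.mem_flatMap, List.mem_singleton] at hC
    rcases hC with ⟨v0, -, hC⟩ | hC | rfl
    · exact Fin_vs_li0 hd (Fin_vs_lw hct hy v0) (hZ _) (hZ _) C hC
    · exact Fin_vs_splitL hct (hZ _) hy _ C hC
    · exact hZ _
  · unfold dbF at hC
    rw [List.mem_append, List.mem_singleton] at hC
    rcases hC with hC | rfl
    · exact Fin_vs_li0 hd hct (Fin_vs_subst fun y hy => hR y (hD' y hy)) hA' C hC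
    · exact hA'

/-! ### Polynomial time -/

section poly

open Pool.Agent.H.MP_0447ec_lc.PT

variable {α : Type} [Enc α]

@[fun_prop]
theorem Poly.dbStep {d x : α → Nm} {Z Z' : α → Fm} (hd : Poly d) (hZ : Poly Z) (hZ' : Poly Z')
    (hx : Poly x) : Poly (fun a => dbStep (d a) (Z a) (Z' a) (x a)) := by
  unfold PS.dbStep
  fun_prop

@[fun_prop]
theorem Poly.dbX {xs : α → List Nm} (h : Poly xs) : Poly (fun a => dbX (xs a)) := by
  unfold PS.dbX
  fun_prop

@[fun_prop]
theorem Poly.dbR {y : α → Nm} (h : Poly y) : Poly (fun a => dbR (y a)) := by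
  unfold PS.dbR
  fun_prop

@[fun_prop]
theorem Poly.dbS {d y : α → Nm} {xs : α → List Nm} {tb : α → List (List Nm)}
    {pre : α → List (List Bool)} {cd : α → List (Nm × List Bool)} {J : α → ℕ}
    (hd : Poly d) (hxs : Poly xs) (htb : Poly tb) (hpre : Poly pre) (hcd : Poly cd)
    (hJ : Poly J) (hy : Poly y) :
    Poly (fun a => dbS (d a) (xs a) (tb a) (pre a) (cd a) (J a) (y a)) := by
  have h1 : PT.Poly (fun a => (PS.tsub (PS.regT (d a) (PS.finR (tb a) (PS.dbX (xs a))) (cd a))
      (y a)).subst (PS.tsub (PS.finP (PS.finPs (tb a) (pre a))))) :=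
    Poly.tsubst (by fun_prop) (by fun_prop)
  unfold PS.dbS
  fun_prop

@[fun_prop]
theorem Poly.dbZ {d : α → Nm} {xs : α → List Nm} {tb : α → List (List Nm)}
    {pre : α → List (List Bool)} {cd : α → List (Nm × List Bool)} {D : α → Fm} {J : α → ℕ}
    (hd : Poly d) (hxs : Poly xs) (htb : Poly tb) (hpre : Poly pre) (hcd : Poly cd)
    (hD : Poly D) (hJ : Poly J) :
    Poly (fun a => dbZ (d a) (xs a) (tb a) (pre a) (cd a) (D a) (J a)) :=
  Poly.substP (s := fun a => PS.dbS (d a) (xs a) (tb a) (pre a) (cd a) (J a)) (by fun_prop) hD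

@[fun_prop]
theorem Poly.dbAll {d : α → Nm} {xs : α → List Nm} {tb : α → List (List Nm)}
    {pre : α → List (List Bool)} {cd : α → List (Nm × List Bool)} {D : α → Fm}
    (hd : Poly d) (hxs : Poly xs) (htb : Poly tb) (hpre : Poly pre) (hcd : Poly cd)
    (hD : Poly D) : Poly (fun a => dbAll (d a) (xs a) (tb a) (pre a) (cd a) (D a)) := by
  unfold PS.dbAll
  fun_prop

@[fun_prop]
theorem Poly.dbF {d : α → Nm} {D A : α → Fm} (hd : Poly d) (hD : Poly D) (hA : Poly A) :
    Poly (fun a => dbF (d a) (D a) (A a)) := by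
  have h1 : PT.Poly (fun a => (D a).subst PS.dbR) :=
    Poly.substP (s := fun _ : α => PS.dbR) (by fun_prop) hD
  unfold PS.dbF
  fun_prop

@[fun_prop]
theorem Poly.dbT {d : α → Nm} {xs : α → List Nm} {tb : α → List (List Nm)}
    {pre : α → List (List Bool)} {cd : α → List (Nm × List Bool)} {D A : α → Fm}
    (hd : Poly d) (hxs : Poly xs) (htb : Poly tb) (hpre : Poly pre) (hcd : Poly cd)
    (hD : Poly D) (hA : Poly A) :
    Poly (fun a => dbT (d a) (xs a) (tb a) (pre a) (cd a) (D a) (A a)) := by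
  have h1 : PT.Poly (fun a => (D a).subst (PS.tsub (PS.regT (d a)
      (PS.finR (tb a) (PS.dbX (xs a))) (cd a)))) := Poly.tsubst (by fun_prop) hD
  unfold PS.dbT
  fun_prop

end poly

end Pool.Agent.H.MP_0447ec_lc.PS
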