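import Pool.Agent.H.MP_0447ec_lc.LV.DualB

/-!
# Dual rails: the two directions with Turing machines
-/

namespace Pool.Agent.H.MP_0447ec_lc.PS

open Fm Pool.Agent.H.MP_0447ec_lc.PT

/-- Proofs of the dual-rail version of `A` with the permutation rule correspond to substitution
Frege proofs of `A` with `O(n log s)` variables. -/
theorem dual_main {F : List Rule} (hF : IsFrege F) :
    (∀ c : ℕ, ∃ f : List Fm → List Fm,
      Nonempty (Turing.TM2ComputableInPolyTime codeProof codeProof f) ∧
      ∀ (A : Fm) (π : List Fm), SubstProof F A π →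
        numVars π ≤ c * numVars [A] * Nat.log 2 (codeProof π).length →
        PermProof F (dualRail A) (f π)) ∧
    ∃ (c : ℕ) (f : List Fm → List Fm),
      Nonempty (Turing.TM2ComputableInPolyTime codeProof codeProof f) ∧
      ∀ (A : Fm) (π : List Fm), PermProof F (dualRail A) π →
        SubstProof F A (f π) ∧
          numVars (f π) ≤ c * numVars [A] * Nat.log 2 (codeProof π).length := by
  constructor
  · intro c
    obtain ⟨f, hf, h⟩ := dualA hF c
    refine ⟨f, (tm2_iff_poly codeProof_eq codeProof_eq _).2 hf, ?_⟩
    intro A π hπ hc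
    rw [code_length] at hc
    exact h A π hπ hc
  · obtain ⟨c, f, hf, h⟩ := dualB hF
    refine ⟨c, f, (tm2_iff_poly codeProof_eq codeProof_eq _).2 hf, ?_⟩
    intro A π hπ
    rw [code_length]
    exact h A π hπ

end Pool.Agent.H.MP_0447ec_lc.PS
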