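import Pool.Agent.H.MP_0447ec_lc.LV.DualA2

/-!
# From the token form to dual rails: polynomial time
-/

namespace Pool.Agent.H.MP_0447ec_lc.PS

open Fm Pool.Agent.H.MP_0447ec_lc.PT

section poly

variable {α : Type} [Enc α]

@[fun_prop]
theorem Poly.T4 {z a z' b : α → Nm} (hz : Poly z) (ha : Poly a) (hz' : Poly z') (hb : Poly b) :
    Poly (fun i => T4 (z i) (a i) (z' i) (b i)) := by
  unfold PS.T4
  fun_prop

@[fun_prop]
theorem Poly.rD (f : Bool) {x : α → Nm} (hx : Poly x) : Poly (fun i => rD f (x i)) := by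
  unfold PS.rD
  cases f
  · simp only [Bool.false_eq_true, if_false]
    fun_prop
  · simp only [if_true]
    fun_prop

@[fun_prop]
theorem Poly.rt (f : Bool) {x : α → Nm} (hx : Poly x) : Poly (fun i => rt f (x i)) := by
  unfold PS.rt
  cases f
  · simp only [Bool.false_eq_true, if_false]
    fun_prop
  · simp only [if_true]
    fun_prop

@[fun_prop]
theorem Poly.dComp (f : Bool) {d : α → Nm} {L J : α → ℕ} {W : α → List (List Bool)}
    {p : α → Nm × ℕ} (hd : Poly d) (hL : Poly L) (hW : Poly W) (hJ : Poly J) (hp : Poly p) :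
    Poly (fun i => dComp f (d i) (L i) (W i) (J i) (p i)) := by
  unfold PS.dComp
  fun_prop

@[fun_prop]
theorem Poly.dHyp (f : Bool) {d : α → Nm} {L J : α → ℕ} {W : α → List (List Bool)}
    {xs : α → List Nm} (hd : Poly d) (hL : Poly L) (hW : Poly W) (hx : Poly xs) (hJ : Poly J) :
    Poly (fun i => dHyp f (d i) (L i) (W i) (xs i) (J i)) := by
  unfold PS.dHyp
  fun_prop

@[fun_prop]
theorem Poly.dTab (f : Bool) {d : α → Nm} {L J : α → ℕ} {W : α → List (List Bool)}
    {xs : α → List Nm} (hd : Poly d) (hL : Poly L) (hW : Poly W) (hx : Poly xs) (hJ : Poly J) :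
    Poly (fun i => dTab f (d i) (L i) (W i) (xs i) (J i)) := by
  unfold PS.dTab
  fun_prop

@[fun_prop]
theorem Poly.dZ (f : Bool) {d : α → Nm} {L J : α → ℕ} {W : α → List (List Bool)}
    {xs : α → List Nm} {A : α → Fm} (hd : Poly d) (hL : Poly L) (hW : Poly W) (hx : Poly xs)
    (hA : Poly A) (hJ : Poly J) :
    Poly (fun i => dZ f (d i) (L i) (W i) (xs i) (A i) (J i)) := by
  unfold PS.dZ
  exact Poly.tsubst (by fun_prop) hA

@[fun_prop]
theorem Poly.dE (f : Bool) {d : α → Nm} {L J : α → ℕ} {W : α → List (List Bool)}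
    {xs : α → List Nm} {x : α → Nm} (hd : Poly d) (hL : Poly L) (hW : Poly W) (hxs : Poly xs)
    (hx : Poly x) (hJ : Poly J) :
    Poly (fun i => dE f (d i) (L i) (W i) (xs i) (x i) (J i)) := by
  unfold PS.dE
  fun_prop

@[fun_prop]
theorem Poly.dT (f : Bool) {L e J : α → ℕ} {x : α → Nm} (hL : Poly L) (he : Poly e)
    (hx : Poly x) (hJ : Poly J) : Poly (fun i => dT f (L i) (e i) (x i) (J i)) := by
  unfold PS.dT
  fun_prop

@[fun_prop]
theorem Poly.contraL {H D B : α → Fm} (hH : Poly H) (hD : Poly D) (hB : Poly B) :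
    Poly (fun i => contraL (H i) (D i) (B i)) := by
  unfold PS.contraL
  fun_prop

@[fun_prop]
theorem Poly.dCase (f : Bool) {d : α → Nm} {L e J : α → ℕ} {W : α → List (List Bool)}
    {xs : α → List Nm} {A : α → Fm} {x : α → Nm} {w : α → List Bool} (hd : Poly d) (hL : Poly L)
    (he : Poly e) (hW : Poly W) (hxs : Poly xs) (hA : Poly A) (hx : Poly x) (hJ : Poly J)
    (hw : Poly w) :
    Poly (fun i => dCase f (d i) (L i) (e i) (W i) (xs i) (A i) (x i) (J i) (w i)) := by
  have h1 : PT.Poly (fun i => (PS.dE f (d i) (L i) (W i) (xs i) (x i) (J i)).subst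
      (PS.tsub (PS.dT f (L i) (e i) (x i) (J i)))) := Poly.tsubst (by fun_prop) (by fun_prop)
  have h2 : PT.Poly (fun i => (PS.dZ f (d i) (L i) (W i) (xs i) (A i) (J i)).subst
      (PS.tsub (PS.dT f (L i) (e i) (x i) (J i)))) := Poly.tsubst (by fun_prop) (by fun_prop)
  unfold PS.dCase
  fun_prop

end poly

end Pool.Agent.H.MP_0447ec_lc.PS
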