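import Pool.Agent.H.MP_0447ec_lc.LV.DualP

/-!
# From the token form to dual rails: polynomial time
-/

namespace Pool.Agent.H.MP_0447ec_lc.PS

open Fm Pool.Agent.H.MP_0447ec_lc.PT

section poly

variable {α : Type} [Enc α]

@[fun_prop]
theorem Poly.dStep (f : Bool) {d : α → Nm} {L e J : α → ℕ} {W : α → List (List Bool)}
    {xs : α → List Nm} {A : α → Fm} {x : α → Nm} (hd : Poly d) (hL : Poly L)
    (he : Poly e) (hW : Poly W) (hxs : Poly xs) (hA : Poly A) (hx : Poly x) (hJ : Poly J) :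
    Poly (fun i => dStep f (d i) (L i) (e i) (W i) (xs i) (A i) (x i) (J i)) := by
  have h1 : PT.Poly (fun i => (imp (PS.dE f (d i) (L i) (W i) (xs i) (x i) (J i))
      (PS.dZ f (d i) (L i) (W i) (xs i) (A i) (J i))).subst
      (PS.tsub (PS.dT f (L i) (e i) (x i) (J i)))) := Poly.tsubst (by fun_prop) (by fun_prop)
  have h2 : PT.Poly (fun i => W2.flatMap (fun w =>
      PS.dCase f (d i) (L i) (e i) (W i) (xs i) (A i) (x i) (J i) w)) := by fun_prop
  unfold PS.dStep
  fun_prop

@[fun_prop]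
theorem Poly.dAll (f : Bool) {d : α → Nm} {L e : α → ℕ} {W : α → List (List Bool)}
    {xs : α → List Nm} {A : α → Fm} (hd : Poly d) (hL : Poly L)
    (he : Poly e) (hW : Poly W) (hxs : Poly xs) (hA : Poly A) :
    Poly (fun i => dAll f (d i) (L i) (e i) (W i) (xs i) (A i)) := by
  unfold PS.dAll
  fun_prop

theorem sz_fand (Z : Fm) (l : List Fm) : sz (l.foldr Fm.and Z) ≤ sz Z + 7 * sz l := by
  induction l with
  | nil => simp only [List.foldr_nil]; omega
  | cons A l ih =>
    rw [List.foldr_cons, sz_and, sz_lcons]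
    have := sz_pos A
    omega

theorem sz_fimp (Z : Fm) (l : List Fm) : sz (l.foldr imp Z) ≤ sz Z + 11 * sz l := by
  induction l with
  | nil => simp only [List.foldr_nil]; omega
  | cons A l ih =>
    rw [List.foldr_cons, sz_imp, sz_lcons]
    have := sz_pos A
    omega

@[fun_prop]
theorem Poly.nst {Z : α → Fm} {l : α → List Fm} (hZ : Poly Z) (hl : Poly l) :
    Poly (fun i => nst (Z i) (l i)) := by
  unfold PS.nst
  refine Poly.foldr (f := fun p : α × Fm × Fm => Fm.and p.2.2 p.2.1)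
    (l := fun a => (l a).reverse) (s0 := Z) (B := fun a => sz (Z a) + 7 * sz ((l a).reverse))
    (by fun_prop) (by fun_prop) hZ
    (hZ.sz_le.add ((PBdd.const 7).mul (Poly.sz_le (by fun_prop)))) ?_
  intro a l₁ l₂ h
  have h1 := sz_fand (Z a) l₂
  have h2 : sz l₂ ≤ sz ((l a).reverse) := by
    rw [h]; exact sz_sublist_le (List.sublist_append_right _ _)
  have h3 : l₂.foldr (fun b s => (fun p : α × Fm × Fm => Fm.and p.2.2 p.2.1) (a, s, b))
      (Z a) = l₂.foldr Fm.and (Z a) := rfl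
  rw [h3]
  omega

@[fun_prop]
theorem Poly.fimp {Z : α → Fm} {l : α → List Fm} (hl : Poly l) (hZ : Poly Z) :
    Poly (fun i => fimp (l i) (Z i)) := by
  unfold PS.fimp
  refine Poly.foldr (f := fun p : α × Fm × Fm => imp p.2.2 p.2.1)
    (l := l) (s0 := Z) (B := fun a => sz (Z a) + 11 * sz (l a))
    (by fun_prop) (by fun_prop) hZ
    (hZ.sz_le.add ((PBdd.const 11).mul (Poly.sz_le (by fun_prop)))) ?_
  intro a l₁ l₂ h
  have h1 := sz_fimp (Z a) l₂
  have h2 : sz l₂ ≤ sz (l a) := by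
    rw [h]; exact sz_sublist_le (List.sublist_append_right _ _)
  have h3 : l₂.foldr (fun b s => (fun p : α × Fm × Fm => imp p.2.2 p.2.1) (a, s, b))
      (Z a) = l₂.foldr imp (Z a) := rfl
  rw [h3]
  omega

@[fun_prop]
theorem Poly.curL {Z B : α → Fm} {l : α → List Fm} (hZ : Poly Z) (hB : Poly B) (hl : Poly l) :
    Poly (fun i => curL (Z i) (B i) (l i)) := by
  unfold PS.curL
  fun_prop

@[fun_prop]
theorem Poly.dOff {d : α → Nm} {L : α → ℕ} {W : α → List (List Bool)} {xs : α → List Nm}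
    (hd : Poly d) (hL : Poly L) (hW : Poly W) (hxs : Poly xs) :
    Poly (fun i => dOff (d i) (L i) (W i) (xs i)) := by
  unfold PS.dOff
  fun_prop

@[fun_prop]
theorem Poly.dHalf (f : Bool) {d : α → Nm} {L e : α → ℕ} {W : α → List (List Bool)}
    {xs : α → List Nm} {bl : α → List (List Nm)} {A : α → Fm} (hd : Poly d) (hL : Poly L)
    (he : Poly e) (hW : Poly W) (hxs : Poly xs) (hbl : Poly bl) (hA : Poly A) :
    Poly (fun i => dHalf f (d i) (L i) (e i) (W i) (xs i) (bl i) (A i)) := by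
  have h1 : PT.Poly (fun i => (A i).subst (PS.tsub (PS.tblD (d i) (L i) (W i) (bl i)))) :=
    Poly.tsubst (by fun_prop) hA
  have h2 : PT.Poly (fun i => (A i).subst (PS.rt f)) :=
    Poly.substP (s := fun _ : α => PS.rt f) (by fun_prop) hA
  unfold PS.dHalf
  fun_prop

end poly

end Pool.Agent.H.MP_0447ec_lc.PS
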