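import Pool.Agent.H.MP_0447ec_lc.LV.EffDefs
import Pool.Agent.H.MP_0447ec_lc.LV.Above2
import Pool.Agent.H.MP_0447ec_lc.PS.Canon2

/-!
# Frege with the permutation rule effectively p-simulates extended Frege

`effF (A, m)` is the disjunction of `A` and `m` copies of `A` with pairwise disjoint variables, with
names that depend only on `A` and `m`. An extended Frege proof `π` of `A` with code length at most
`m` gives (`copies_main`) a proof with the permutation rule of the disjunction of `A` and `k ≤ m` of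
these copies; the others are added by weakening.
-/

namespace Pool.Agent.H.MP_0447ec_lc.PS

open Fm Pool.Agent.H.MP_0447ec_lc.PT

theorem codeQP_eq (x : (Fm × ℕ) × List Fm) : codeQueryProof x = (enc x).bits := by
  obtain ⟨q, π⟩ := x
  simp only [codeQueryProof, codeQuery_eq, codeProof_eq, enc_pair, D.bits]

/-! ### Sizes -/

theorem eff_flatten (l : List Nm) : l.flatten.length + 1 ≤ sz l := by
  induction l with
  | nil => simp
  | cons w l ih =>
    rw [List.flatten_cons, List.length_append, sz_lcons]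
    have := length_lt_sz w
    omega

theorem eff_lenB_le (π : List Fm) : lenB π ≤ sz π := by
  unfold lenB
  induction π with
  | nil => simp
  | cons C π ih =>
    rw [List.flatMap_cons, List.flatten_append, List.length_append, sz_lcons]
    have h1 := eff_flatten (nms C)
    have h2 := sz_nms_le C
    omega

/-- The size of a pair `(A, m)`, as a computable function. -/
def szQ (x : Fm × ℕ) : ℕ := ((enc x : D).bits).length

theorem szQ_eq (x : Fm × ℕ) : szQ x = sz x := D.bits_length _

theorem Poly.szQ : Poly PS.szQ := by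
  unfold PS.szQ
  exact Poly.length (Poly.comp (f := fun d : D => d.bits) Poly.bitsD (Poly.encD Poly.id))

theorem codeQuery_length (x : Fm × ℕ) : (codeQuery x).length = sz x := by
  rw [codeQuery_eq, D.bits_length]; rfl

/-! ### The disjunction of the copies -/

/-- The disjunction of `A` and `m` copies of `A`. -/
def effF (x : Fm × ℕ) : Fm := cpyD (2 * (x.2 + szF x.1)) x.1 x.2

theorem poly_effF : Poly effF := by
  unfold effF
  have h1 : Poly (fun x : Fm × ℕ => szF x.1) := Poly.comp Poly.szF Poly.fst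
  fun_prop

theorem eff_short {A : Fm} {m : ℕ} {x : Nm} (hx : x ∈ A.vars) : x.length ≤ 2 * (m + szF A) := by
  have h1 := length_lt_sz x
  have h2 := sz_name_le hx
  rw [szF_eq]
  omega

theorem effF_copies (A : Fm) (m : ℕ) : DisjointCopies A (effF (A, m)) m :=
  asc_disjointCopies (fun _ hx => eff_short hx) m

theorem eff_congr {A : Fm} {v v' : Nm → Prop} (h : ∀ x ∈ A.vars, (v x ↔ v' x)) :
    A.Eval v ↔ A.Eval v' := by
  induction A with
  | var w => exact h w rfl
  | neg A ih => exact not_congr (ih h)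
  | and A B ihA ihB =>
    exact and_congr (ihA fun x hx => h x (Or.inl hx)) (ihB fun x hx => h x (Or.inr hx))
  | or A B ihA ihB =>
    exact or_congr (ihA fun x hx => h x (Or.inl hx)) (ihB fun x hx => h x (Or.inr hx))
  | imp A B ihA ihB =>
    exact imp_congr (ihA fun x hx => h x (Or.inl hx)) (ihB fun x hx => h x (Or.inr hx))

/-- The name of which `x` is a copy. -/
def effStrip (M : ℕ) (x : Nm) : Nm :=
  if x.length ≤ M then x else (x.dropWhile (fun b => b)).tail

theorem effStrip_fn (M k : ℕ) (w : Nm) : effStrip M (fn M k w) = w := by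
  unfold effStrip
  rw [if_neg (by have := fn_length M k w; omega)]
  unfold fn
  have h : ∀ n : ℕ, (List.replicate n true ++ false :: w).dropWhile (fun b => b) = false :: w := by
    intro n
    induction n with
    | zero => simp
    | succ n ih => rw [List.replicate_succ, List.cons_append, List.dropWhile_cons_of_pos rfl, ih]
  rw [h]
  rfl

theorem eff_taut {M : ℕ} {A : Fm} (hM : ∀ x ∈ A.vars, x.length ≤ M) (k : ℕ) :
    (cpyD M A k).Taut ↔ A.Taut := by
  constructor
  · intro h v
    have h1 := h (fun x => v (effStrip M x))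
    have h2 : A.Eval (fun x => v (effStrip M x)) ↔ A.Eval v := by
      refine eff_congr fun x hx => ?_
      unfold effStrip
      rw [if_pos (hM x hx)]
    have h3 : ∀ j, (cpy M j A).Eval (fun x => v (effStrip M x)) ↔ A.Eval v := by
      intro j
      unfold cpy
      rw [Fm.eval_subst]
      refine eff_congr fun x _ => ?_
      show v (effStrip M (fn M j x)) ↔ v x
      rw [effStrip_fn]
    have h4 : ∀ j, (cpyD M A j).Eval (fun x => v (effStrip M x)) → A.Eval v := by
      intro j
      induction j with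
      | zero => exact h2.1
      | succ j ih =>
        rintro (h | h)
        · exact (h3 (j + 1)).1 h
        · exact ih h
    exact h4 k h1
  · intro h v
    induction k with
    | zero => exact h v
    | succ k ih => exact Or.inr ih

theorem effF_taut (A : Fm) (m : ℕ) : (effF (A, m)).Taut ↔ A.Taut :=
  eff_taut (fun _ hx => eff_short hx) m

/-! ### Weakening -/

/-- Lines that add the copies `k + 1, ..., k + n`. -/
def effW (M : ℕ) (A : Fm) (k n : ℕ) : List Fm :=
  (List.range n).flatMap (fun j =>
    [imp (neg (cpy M (k + j + 1) A)) (cpyD M A (k + j)), cpyD M A (k + j + 1)])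

theorem effW_just {G : List Rule} (hG : Rich G) {M : ℕ} {A : Fm} {k : ℕ} {π : List Fm}
    (h : cpyD M A k ∈ π) : ∀ n : ℕ, Just (RuleStep G) π (effW M A k n) ∧
      cpyD M A (k + n) ∈ cpyD M A k :: effW M A k n := by
  intro n
  induction n with
  | zero => exact ⟨trivial, List.mem_cons_self⟩
  | succ n ih =>
    obtain ⟨j1, m1⟩ := ih
    have m2 : cpyD M A (k + n) ∈ π ++ effW M A k n := by
      rcases List.mem_cons.1 m1 with m1 | m1
      · rw [m1]; exact List.mem_append_left _ h
      · exact List.mem_append_right _ m1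
    have e : effW M A k (n + 1) = effW M A k n ++
        [imp (neg (cpy M (k + n + 1) A)) (cpyD M A (k + n)), cpyD M A (k + n + 1)] := by
      unfold effW
      rw [List.range_succ, List.flatMap_append, List.flatMap_singleton]
    rw [e]
    refine ⟨Just.append j1 ⟨Or.inr (hG.weaken m2), Or.inr ?_, trivial⟩, ?_⟩
    · exact hG.orI (by simp)
    · rw [← Nat.add_assoc]; simp

section

variable {α : Type} [Enc α]

@[fun_prop]
theorem Poly.effW {M : α → ℕ} {A : α → Fm} {k n : α → ℕ} (hM : Poly M) (hA : Poly A)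
    (hk : Poly k) (hn : Poly n) : Poly (fun a => effW (M a) (A a) (k a) (n a)) := by
  unfold PS.effW
  exact PT.Poly.flatMap (f := fun (a : α) (j : ℕ) =>
    [imp (neg (PS.cpy (M a) (k a + j + 1) (A a))) (PS.cpyD (M a) (A a) (k a + j)),
      PS.cpyD (M a) (A a) (k a + j + 1)]) (by fun_prop) (by fun_prop)

end

/-! ### The effective simulation -/

theorem eff_main {F : List Rule} (hF : IsFrege F) :
    ∃ g : (Fm × ℕ) × List Fm → List Fm, Poly g ∧ ∀ (A : Fm) (m : ℕ) (π : List Fm),
      ExtProof F A π → (codeProof π).length ≤ m → PermProof F (effF (A, m)) (g ((A, m), π)) := by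
  obtain ⟨k⟩ := exists_kit hF
  obtain ⟨Tc, hTc, hTc'⟩ := copies_main (GG_rich F)
  obtain ⟨h, hh, hh'⟩ := asc_finish hF
  have hsz : Poly (fun x : (Fm × ℕ) × List Fm => szF x.1.1) :=
    Poly.comp Poly.szF (by fun_prop)
  have hM : Poly (fun x : (Fm × ℕ) × List Fm => 2 * (x.1.2 + szF x.1.1)) := by fun_prop
  refine ⟨fun x => h (effF x.1, T1 k x.2,
    Tc ((lenB x.2, 2 * (x.1.2 + szF x.1.1)), extL x.1.1 x.2, x.1.1) ++
      effW (2 * (x.1.2 + szF x.1.1)) x.1.1 (extL x.1.1 x.2).length
        (x.1.2 - (extL x.1.1 x.2).length)), ?_, ?_⟩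
  · refine Poly.comp hh (Poly.pair (Poly.comp poly_effF (by fun_prop))
      (Poly.pair (Poly.T1 k (by fun_prop)) (Poly.append (Poly.comp hTc ?_) ?_)))
    · exact Poly.pair (Poly.pair (by fun_prop) hM) (by fun_prop)
    · exact Poly.effW hM (by fun_prop) (by fun_prop) (by fun_prop)
  · intro A m π hπ hm
    rw [code_length] at hm
    have hA : A ∈ π := List.mem_of_getLast? hπ.2
    obtain ⟨c1, c2, c3⟩ := collect hπ.1
    have hlen : ∀ x ∈ A.vars, x.length < lenB π := fun x hx => lenB_spec hA hx
    obtain ⟨t1, t2⟩ := T1_spec k hπ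
    have hL := eff_lenB_le π
    have hk : (extL A π).length ≤ m := (extL_length A π).trans ((length_lt_sz π).le.trans hm)
    obtain ⟨u1, u2⟩ := hTc' (lenB π) (2 * (m + szF A)) (extL A π) A (good_nodup c2)
      (fun e he => lenB_spec (c3 e he) (by simp [eAx, Fm.iff, Fm.vars]))
      (fun e he => good_fst c2 he) hlen (by omega) (asc_ext_taut hF hπ) (T1 k π)
      (List.mem_of_getLast? t2)
    obtain ⟨w1, w2⟩ := effW_just (GG_rich F) (M := 2 * (m + szF A)) (A := A)
      (k := (extL A π).length)
      (π := T1 k π ++ Tc ((lenB π, 2 * (m + szF A)), extL A π, A))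
      (List.mem_append_right _ u2) (m - (extL A π).length)
    have e : (extL A π).length + (m - (extL A π).length) = m := by omega
    rw [e] at w2
    refine hh' _ _ _ t1 (Just.append u1 (w1.imp_step (fun _ _ h => Or.inl h))) ?_
    show cpyD (2 * (m + szF A)) A m ∈ _
    rcases List.mem_cons.1 w2 with w2 | w2
    · rw [w2]
      exact List.mem_append_left _ u2
    · exact List.mem_append_right _ w2

/-! ### Contraction in extended Frege -/

theorem eff_vars_ascOr {A : Fm} {x : Nm} (hx : x ∈ A.vars) : ∀ m : ℕ, x ∈ (ascOr A m).vars := by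
  intro m
  induction m with
  | zero => exact hx
  | succ m ih => rw [ascOr_succ]; exact Or.inl hx

theorem eff_just_hyp {F : List Rule} {X : Fm} : ∀ {σ π : List Fm}, X ∈ π →
    Just (fun τ C => RuleStep F τ C ∨ C = X) π σ → Just (RuleStep F) π σ := by
  intro σ
  induction σ with
  | nil => intro π _ _; trivial
  | cons C σ ih =>
    rintro π hX ⟨h1, h2⟩
    refine ⟨?_, ih (List.mem_append_left _ hX) h2⟩
    rcases h1 with h1 | h1 | h1
    · exact Or.inl h1
    · exact Or.inr h1
    · exact Or.inl (h1 ▸ hX)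

/-- Extended Frege is p-closed under the contraction of disjoint copies. -/
theorem ext_contract {F : List Rule} (hF : IsFrege F) : ClosedUnderContraction (ExtProof F) := by
  rw [asc_con_iff]
  obtain ⟨gs, hgs, hgs'⟩ := ef_subst F
  obtain ⟨rb, hrb, hrb'⟩ := robust hF (GG_sound hF)
  refine ⟨fun x => cutAt (x.headD (var [])) (app (gs (ascT (x.headD (var [])) (lastF x.tail), x.tail))
    (rb (cutAt (x.headD (var [])) (app []
      ([lastF (gs (ascT (x.headD (var [])) (lastF x.tail), x.tail))] ++
        ascL (x.headD (var [])) (lastF (gs (ascT (x.headD (var [])) (lastF x.tail), x.tail)))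
          (nms (lastF x.tail)).length))))), ?_, ?_⟩
  · have k1 : Poly (fun x : List Fm =>
        gs (ascT (x.headD (var [])) (lastF x.tail), x.tail)) := by
      refine Poly.comp hgs (Poly.pair ?_ (by fun_prop))
      unfold ascT
      refine PT.Poly.map (f := fun (_ : List Fm) (p : Nm × Nm) => (p.1, var p.2))
        (by fun_prop) ?_
      refine Poly.zip (by fun_prop) (PT.Poly.flatMap
        (f := fun (x : List Fm) (_ : Nm) => nms (x.headD (var []))) (by fun_prop) (by fun_prop))
    have k2 : Poly (fun x : List Fm =>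
        [lastF (gs (ascT (x.headD (var [])) (lastF x.tail), x.tail))] ++
        ascL (x.headD (var [])) (lastF (gs (ascT (x.headD (var [])) (lastF x.tail), x.tail)))
          (nms (lastF x.tail)).length) :=
      Poly.append (PT.Poly.lcons (Poly.lastF k1) (PT.Poly.const []))
        (Poly.ascL (by fun_prop) (Poly.lastF k1) (by fun_prop))
    exact Poly.cutAt (by fun_prop) (Poly.app k1 (Poly.comp hrb (Poly.cutAt (by fun_prop)
      (Poly.app (by fun_prop) k2))))
  · intro A B m π hD hπ
    have hl : lastF π = B := lastF_eq hπ.2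
    have e1 : (A :: π).tail = π := rfl
    have e2 : (A :: π).headD (var []) = A := rfl
    simp only [e1, e2, hl]
    obtain ⟨m1, m2⟩ := asc_rename_copies hD
    rw [asc_rename_eq] at m2
    have h1 := hgs' (ascT A B) _ _ hπ
    rw [show B.subst (tsub (ascT A B)) = ascOr A m from m2] at h1
    have hl2 := lastF_eq h1.2
    rw [hl2]
    generalize gs (ascT A B, π) = π1 at h1 hl2
    have hm2 : Mono (fun τ C => RuleStep (GG F) τ C ∨ C = ascOr A m) := by
      rintro τ τ' C hτ (h | h)
      · exact Or.inl (mono_ruleStep (GG F) τ τ' C hτ h)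
      · exact Or.inr h
    have j : Just (fun τ C => RuleStep (GG F) τ C ∨ C = ascOr A m) []
        ([ascOr A m] ++ ascL A (ascOr A m) (nms B).length) := by
      refine Just.append ⟨Or.inr (Or.inr rfl), trivial⟩ ?_
      exact (ascL_just (GG_rich F) m1 (by simp)).imp_step (fun _ _ h => Or.inl h)
    have hAm : A ∈ app [] ([ascOr A m] ++ ascL A (ascOr A m) (nms B).length) := by
      refine mem_app.2 (Or.inr (List.mem_append_right _ ?_))
      unfold ascL
      simp
    obtain ⟨d1, d2⟩ := deriv_cutAt (deriv_app hm2 Deriv.nil j) hAm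
    obtain ⟨r1, r2, -⟩ := hrb' (fun _ C => C = ascOr A m) (fun _ _ _ _ h => h) _ A d1 d2
    have hm : Mono (fun τ C => RuleStep F τ C ∨ C = ascOr A m) := by
      rintro τ τ' C hτ (h | h)
      · exact Or.inl (mono_ruleStep F τ τ' C hτ h)
      · exact Or.inr h
    have j2 := eff_just_hyp (List.mem_of_getLast? h1.2) (r1.just hm π1)
    have h2 : Deriv (fun σ B => RuleStep F σ B ∨ ExtStep A σ B) π1 := h1.1.imp_step (by
      rintro σ C (h | ⟨q, φ, a, b, c, d⟩)
      · exact Or.inl h
      · exact Or.inr ⟨q, φ, a, b, c, fun hq => d (eff_vars_ascOr hq m)⟩)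
    have h3 := deriv_app' (F := F) (step := fun σ B => RuleStep F σ B ∨ ExtStep A σ B)
      (fun _ _ h => Or.inl h) h2 j2
    exact deriv_cutAt h3 (mem_app.2 (Or.inr (List.mem_of_getLast? r2)))

/-! ### Effective p-simulation -/

theorem effSim_iff {P Q : Fm → List Fm → Prop} : EffectivelySimulates P Q ↔
    ∃ (f : Fm × ℕ → Fm) (p : Polynomial ℕ), Poly f ∧
      (∀ (A : Fm) (m : ℕ), (f (A, m)).Taut ↔ A.Taut) ∧
      ∀ (A : Fm) (m : ℕ), HasProofOfSize Q A m →
        HasProofOfSize P (f (A, m)) (p.eval (sz (A, m))) := by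
  unfold EffectivelySimulates
  constructor
  · rintro ⟨f, p, h1, h2, h3⟩
    refine ⟨f, p, (tm2_iff_poly codeQuery_eq codeFm_eq f).1 h1, h2, fun A m h => ?_⟩
    have := h3 A m h
    rwa [codeQuery_length] at this
  · rintro ⟨f, p, h1, h2, h3⟩
    refine ⟨f, p, (tm2_iff_poly codeQuery_eq codeFm_eq f).2 h1, h2, fun A m h => ?_⟩
    rw [codeQuery_length]
    exact h3 A m h

theorem HasProofOfSize.mono {P : Fm → List Fm → Prop} {A : Fm} {m n : ℕ}
    (h : HasProofOfSize P A m) (hmn : m ≤ n) : HasProofOfSize P A n := by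
  obtain ⟨π, h1, h2⟩ := h
  exact ⟨π, h1, h2.trans hmn⟩

theorem EffectivelySimulates.trans {P Q R : Fm → List Fm → Prop}
    (h1 : EffectivelySimulates P Q) (h2 : EffectivelySimulates Q R) :
    EffectivelySimulates P R := by
  rw [effSim_iff] at *
  obtain ⟨f1, p1, a1, b1, c1⟩ := h1
  obtain ⟨f2, p2, a2, b2, c2⟩ := h2
  have h : Poly (fun x : Fm × ℕ => (f2 x, p2.eval (szQ x))) :=
    Poly.pair a2 (Poly.evalP Poly.szQ p2)
  obtain ⟨B, hB⟩ := h.sz_le
  refine ⟨fun x => f1 (f2 x, p2.eval (szQ x)), p1.comp B, Poly.comp a1 h, ?_, ?_⟩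
  · intro A m
    exact (b1 _ _).trans (b2 A m)
  · intro A m hA
    have h3 := c1 _ _ (c2 A m hA)
    rw [← szQ_eq (A, m)] at h3
    refine h3.mono ?_
    rw [Polynomial.eval_comp]
    exact poly_mono p1 (hB (A, m))

theorem EffectivelySimulates.of_psim {P Q : Fm → List Fm → Prop} (h : PSimulates P Q) :
    EffectivelySimulates P Q := by
  rw [psim_iff] at h
  rw [effSim_iff]
  obtain ⟨e, he, he'⟩ := h
  obtain ⟨B, hB⟩ := he.sz_le
  refine ⟨fun x => x.1, B, Poly.fst, fun A m => Iff.rfl, ?_⟩
  rintro A m ⟨π, hπ, hm⟩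
  refine ⟨e π, he' A π hπ, ?_⟩
  rw [code_length] at hm ⊢
  refine (hB π).trans (poly_mono B ?_)
  rw [sz_pair, sz_nat]
  omega

theorem eff_perm_ext {F : List Rule} (hF : IsFrege F) :
    EffectivelySimulates (PermProof F) (ExtProof F) := by
  rw [effSim_iff]
  obtain ⟨g, hg, hg'⟩ := eff_main hF
  obtain ⟨B, hB⟩ := hg.sz_le
  refine ⟨effF, B.comp (2 * Polynomial.X), poly_effF, effF_taut, ?_⟩
  rintro A m ⟨π, hπ, hm⟩
  refine ⟨g ((A, m), π), hg' A m π hπ hm, ?_⟩
  rw [code_length] at hm ⊢
  refine (hB _).trans ?_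
  rw [Polynomial.eval_comp]
  refine poly_mono B ?_
  simp only [Polynomial.eval_mul, Polynomial.eval_X, Polynomial.eval_ofNat]
  rw [sz_pair, sz_pair, sz_nat]
  omega

/-- Frege with the permutation rule and extended Frege are effectively p-equivalent. -/
theorem eff_equiv {F : List Rule} (hF : IsFrege F) (P : Fm → List Fm → Prop) :
    (EffectivelySimulates P (PermProof F) ↔ EffectivelySimulates P (ExtProof F)) ∧
    (EffectivelySimulates (PermProof F) P ↔ EffectivelySimulates (ExtProof F) P) := by
  have h1 := eff_perm_ext hF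
  have h2 : EffectivelySimulates (ExtProof F) (PermProof F) := .of_psim (ext_simulates_perm hF)
  exact ⟨⟨fun h => h.trans h1, fun h => h.trans h2⟩, ⟨fun h => h2.trans h, fun h => h1.trans h⟩⟩

/-! ### Automatability -/

theorem automatable_iff {P : Fm → List Fm → Prop} : Automatable P ↔
    ∃ a : Fm × ℕ → List Fm, Poly a ∧ ∀ (A : Fm) (m : ℕ), HasProofOfSize P A m → P A (a (A, m)) := by
  unfold Automatable
  constructor
  · rintro ⟨a, h1, h2⟩
    exact ⟨a, (tm2_iff_poly codeQuery_eq codeProof_eq a).1 h1, h2⟩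
  · rintro ⟨a, h1, h2⟩
    exact ⟨a, (tm2_iff_poly codeQuery_eq codeProof_eq a).2 h1, h2⟩

theorem eff_automatable {F : List Rule} (hF : IsFrege F) (h : Automatable (PermProof F)) :
    Automatable (ExtProof F) := by
  rw [automatable_iff] at *
  obtain ⟨a, ha, ha'⟩ := h
  obtain ⟨g, hg, hg'⟩ := eff_main hF
  obtain ⟨B, hB⟩ := hg.sz_le
  obtain ⟨c, hc, hc'⟩ := asc_con_iff.1 (ext_contract hF)
  obtain ⟨e, he, he'⟩ := psim_iff.1 (ext_simulates_perm hF)
  refine ⟨fun x => c (x.1 :: e (a (effF x, B.eval (2 * szQ x)))), ?_, ?_⟩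
  · have h1 : Poly (fun x : Fm × ℕ => 2 * szQ x) := by
      have := Poly.szQ
      fun_prop
    exact Poly.comp hc (PT.Poly.lcons Poly.fst (Poly.comp he (Poly.comp ha
      (Poly.pair poly_effF (Poly.evalP h1 B)))))
  · rintro A m ⟨π, hπ, hm⟩
    refine hc' A (effF (A, m)) m _ (effF_copies A m) (he' _ _ (ha' _ _
      ⟨g ((A, m), π), hg' A m π hπ hm, ?_⟩))
    rw [code_length] at hm ⊢
    refine (hB _).trans (poly_mono B ?_)
    rw [szQ_eq, sz_pair, sz_pair, sz_nat]
    omega

/-- The explicit form of the effective simulation. -/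
theorem eff_explicit {F : List Rule} (hF : IsFrege F) :
    ∃ (f : Fm × ℕ → Fm) (g : (Fm × ℕ) × List Fm → List Fm),
      Nonempty (Turing.TM2ComputableInPolyTime codeQuery codeFm f) ∧
      Nonempty (Turing.TM2ComputableInPolyTime codeQueryProof codeProof g) ∧
      (∀ (A : Fm) (m : ℕ), DisjointCopies A (f (A, m)) m) ∧
      ∀ (A : Fm) (m : ℕ) (π : List Fm), ExtProof F A π → (codeProof π).length ≤ m →
        PermProof F (f (A, m)) (g ((A, m), π)) := by
  obtain ⟨g, hg, hg'⟩ := eff_main hF
  exact ⟨effF, g, (tm2_iff_poly codeQuery_eq codeFm_eq effF).2 poly_effF,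
    (tm2_iff_poly codeQP_eq codeProof_eq g).2 hg, effF_copies, hg'⟩

end Pool.Agent.H.MP_0447ec_lc.PS
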