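import Pool.Agent.H.MP_0447ec_lc.PS.DefsC
import Pool.Agent.H.MP_0447ec_lc.LV.CpDefs

/-!
# Effective p-simulation and automatability
-/

namespace Pool.Agent.H.MP_0447ec_lc.PS

open Fm

/-- Binary code of a formula with a number in unary and a sequence of formulas. -/
def codeQueryProof (x : (Fm × ℕ) × List Fm) : List Bool :=
  true :: (codeQuery x.1 ++ codeProof x.2)

/-- The proof system `P` effectively p-simulates the proof system `Q` (Pitassi and Santhanam): a
function `f(A, m)`, computable in polynomial time from `A` and `m` in unary, preserves both being a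
tautology and not being one, and whenever `A` has a `Q`-proof of size at most `m`, the formula
`f(A, m)` has a `P`-proof of size polynomial in the size of `A` and `m`. -/
def EffectivelySimulates (P Q : Fm → List Fm → Prop) : Prop :=
  ∃ (f : Fm × ℕ → Fm) (p : Polynomial ℕ),
    Nonempty (Turing.TM2ComputableInPolyTime codeQuery codeFm f) ∧
    (∀ (A : Fm) (m : ℕ), (f (A, m)).Taut ↔ A.Taut) ∧
    ∀ (A : Fm) (m : ℕ), HasProofOfSize Q A m →
      HasProofOfSize P (f (A, m)) (p.eval (codeQuery (A, m)).length)

/-- The proof system `P` is automatable: some function computable in polynomial time maps every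
formula `A` with a `P`-proof of size at most `m`, together with `m` in unary, to a `P`-proof of
`A`. -/
def Automatable (P : Fm → List Fm → Prop) : Prop :=
  ∃ a : Fm × ℕ → List Fm, Nonempty (Turing.TM2ComputableInPolyTime codeQuery codeProof a) ∧
    ∀ (A : Fm) (m : ℕ), HasProofOfSize P A m → P A (a (A, m))


end Pool.Agent.H.MP_0447ec_lc.PS
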