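import Pool.Agent.H.MP_0447ec_lc.PS.PolyAlg

/-!
# A calculus of simple inferences

Simplification of formulas under known literals, weakening, case distinctions.
-/

namespace Pool.Agent.H.MP_0447ec_lc.PS

open Fm

/-! ### Formulas -/

/-- A truth constant, written with the variable `x`. -/
def ct (x : Nm) (c : Bool) : Fm := if c then imp (var x) (var x) else neg (imp (var x) (var x))

/-- A literal. -/
def lit (x : Nm) (b : Bool) : Fm := if b then var x else neg (var x)

/-- Conjunction of a list. -/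
def cj (d : Nm) (Γ : List Fm) : Fm := Γ.foldr Fm.and (ct d true)

/-- Disjunction of a list. -/
def dj (d : Nm) (Γ : List Fm) : Fm := Γ.foldr Fm.or (ct d false)

theorem cj_nil (d : Nm) : cj d [] = ct d true := rfl
theorem cj_cons (d : Nm) (A : Fm) (Γ : List Fm) : cj d (A :: Γ) = Fm.and A (cj d Γ) := rfl
theorem dj_nil (d : Nm) : dj d [] = ct d false := rfl
theorem dj_cons (d : Nm) (A : Fm) (Γ : List Fm) : dj d (A :: Γ) = Fm.or A (dj d Γ) := rfl

theorem eval_ct (x : Nm) (c : Bool) (v : Nm → Prop) : (ct x c).Eval v ↔ c = true := by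
  cases c <;> simp [ct, Fm.Eval]

theorem eval_lit (x : Nm) (b : Bool) (v : Nm → Prop) : (lit x b).Eval v ↔ (v x ↔ b = true) := by
  cases b <;> simp [lit, Fm.Eval]

theorem eval_cj (d : Nm) (Γ : List Fm) (v : Nm → Prop) :
    (cj d Γ).Eval v ↔ ∀ A ∈ Γ, A.Eval v := by
  induction Γ with
  | nil => simp [cj_nil, eval_ct]
  | cons A Γ ih => rw [cj_cons]; simp [Fm.Eval, ih]

theorem eval_dj (d : Nm) (Γ : List Fm) (v : Nm → Prop) :
    (dj d Γ).Eval v ↔ ∃ A ∈ Γ, A.Eval v := by
  induction Γ with
  | nil => simp [dj_nil, eval_ct]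
  | cons A Γ ih => rw [dj_cons]; simp [Fm.Eval, ih]

/-- The conjuncts of a formula, at all depths. -/
def ands : Fm → List Fm
  | Fm.and A B => Fm.and A B :: (ands A ++ ands B)
  | Fm.var w => [Fm.var w]
  | Fm.neg A => [Fm.neg A]
  | Fm.or A B => [Fm.or A B]
  | Fm.imp A B => [Fm.imp A B]

theorem self_mem_ands (A : Fm) : A ∈ ands A := by cases A <;> simp [ands]

theorem mem_ands_cj {d : Nm} {Γ : List Fm} {A B : Fm} (h : A ∈ Γ) (hB : B ∈ ands A) :
    B ∈ ands (cj d Γ) := by
  induction Γ with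
  | nil => simp at h
  | cons C Γ ih =>
    rw [cj_cons, ands]
    simp only [List.mem_cons, List.mem_append]
    rcases List.mem_cons.1 h with rfl | h
    · exact Or.inr (Or.inl hB)
    · exact Or.inr (Or.inr (ih h))

/-- The literal that a formula is, if it is one. -/
def litOf : Fm → Option (Nm × Bool)
  | Fm.var x => some (x, true)
  | Fm.neg (Fm.var x) => some (x, false)
  | _ => none

theorem litOf_eq {X : Fm} {p : Nm × Bool} (h : litOf X = some p) : X = lit p.1 p.2 := by
  unfold litOf at h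
  split at h
  · simp only [Option.some.injEq] at h; subst h; rfl
  · simp only [Option.some.injEq] at h; subst h; rfl
  · simp at h

theorem litOf_lit (x : Nm) (b : Bool) : litOf (lit x b) = some (x, b) := by
  cases b <;> rfl

/-- The literals among the conjuncts. -/
def litsOf (H : Fm) : List (Nm × Bool) := (ands H).flatMap (fun X => (litOf X).toList)

theorem mem_litsOf {H : Fm} {p : Nm × Bool} : p ∈ litsOf H ↔ lit p.1 p.2 ∈ ands H := by
  unfold litsOf
  rw [List.mem_flatMap]
  constructor
  · rintro ⟨X, hX, hp⟩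
    rw [Option.mem_toList] at hp
    rw [← litOf_eq hp]; exact hX
  · intro h
    exact ⟨_, h, by rw [Option.mem_toList, litOf_lit]⟩

/-- The value of a variable in a list of literals. -/
def lk (K : List (Nm × Bool)) (x : Nm) : Option Bool :=
  (K.filter (fun p => decide (p.1 = x))).head?.map Prod.snd

theorem lk_mem {K : List (Nm × Bool)} {x : Nm} {b : Bool} (h : lk K x = some b) :
    (x, b) ∈ K := by
  unfold lk at h
  rw [Option.map_eq_some_iff] at h
  obtain ⟨p, hp, rfl⟩ := h
  have := List.mem_of_mem_head? hp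
  rw [List.mem_filter, decide_eq_true_iff] at this
  obtain ⟨h1, rfl⟩ := this
  exact h1

/-- `K` is consistent and contains `(x, b)`, so the value of `x` is `b`. -/
theorem lk_eq {K : List (Nm × Bool)} {x : Nm} {b : Bool} (h : (x, b) ∈ K)
    (hc : ∀ b', (x, b') ∈ K → b' = b) : lk K x = some b := by
  unfold lk
  cases hh : (K.filter (fun p => decide (p.1 = x))).head? with
  | none =>
    rw [List.head?_eq_none_iff, List.filter_eq_nil_iff] at hh
    exact absurd (by simp) (hh _ h)
  | some p =>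
    have := List.mem_of_mem_head? hh
    rw [List.mem_filter, decide_eq_true_iff] at this
    obtain ⟨h1, rfl⟩ := this
    obtain ⟨x, b'⟩ := p
    rw [Option.map_some, hc b' h1]

theorem lk_none {K : List (Nm × Bool)} {x : Nm} (h : ∀ b, (x, b) ∉ K) : lk K x = none := by
  cases hh : lk K x with
  | none => rfl
  | some b => exact absurd (lk_mem hh) (h b)

/-! ### Simplification under known literals -/

/-- Negation, with removal of a double negation. -/
def negS : Fm → Fm
  | Fm.neg R => R
  | R => Fm.neg R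

/-- Simplification of a variable. -/
def smV (K : List (Nm × Bool)) (w : Nm) : Option Bool × Fm :=
  match lk K w with
  | some b => (some b, var [])
  | none => (none, var w)

/-- Simplification of a negation. -/
def smN (p : Option Bool × Fm) : Option Bool × Fm :=
  match p.1 with
  | some b => (some (!b), var [])
  | none => (none, negS p.2)

/-- Simplification of a conjunction. -/
def smAnd (p q : Option Bool × Fm) : Option Bool × Fm :=
  match p.1, q.1 with
  | some false, _ => (some false, var [])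
  | some true, _ => q
  | none, some false => (some false, var [])
  | none, some true => p
  | none, none => (none, Fm.and p.2 q.2)

/-- Simplification of a disjunction. -/
def smOr (p q : Option Bool × Fm) : Option Bool × Fm :=
  match p.1, q.1 with
  | some true, _ => (some true, var [])
  | some false, _ => q
  | none, some true => (some true, var [])
  | none, some false => p
  | none, none => (none, Fm.or p.2 q.2)

/-- Simplification of an implication. -/
def smImp (p q : Option Bool × Fm) : Option Bool × Fm :=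
  match p.1, q.1 with
  | some false, _ => (some true, var [])
  | some true, _ => q
  | none, some true => (some true, var [])
  | none, some false => (none, Fm.neg p.2)
  | none, none => if p.2 = q.2 then (some true, var []) else (none, Fm.imp p.2 q.2)

/-- Simplification of a formula with a binary main connective. -/
def smB (n : ℕ) (p q : Option Bool × Fm) : Option Bool × Fm :=
  if n = 2 then smAnd p q else if n = 3 then smOr p q else smImp p q

/-- Simplification of a formula under known literals: a truth value or a formula. -/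
def sm (K : List (Nm × Bool)) (A : Fm) : Option Bool × Fm := fmFold (smV K) smN smB A

theorem sm_var (K : List (Nm × Bool)) (w : Nm) : sm K (var w) = smV K w := rfl
theorem sm_neg (K : List (Nm × Bool)) (A : Fm) : sm K (neg A) = smN (sm K A) := rfl
theorem sm_and (K : List (Nm × Bool)) (A B : Fm) :
    sm K (Fm.and A B) = smAnd (sm K A) (sm K B) := rfl
theorem sm_or (K : List (Nm × Bool)) (A B : Fm) :
    sm K (Fm.or A B) = smOr (sm K A) (sm K B) := rfl
theorem sm_imp (K : List (Nm × Bool)) (A B : Fm) :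
    sm K (imp A B) = smImp (sm K A) (sm K B) := rfl

/-- Simplification is compositional. -/
theorem sm_subst {K : List (Nm × Bool)} {A : Fm} {s t : Nm → Fm}
    (h : ∀ x ∈ A.vars, sm K (s x) = sm K (t x)) : sm K (A.subst s) = sm K (A.subst t) := by
  induction A with
  | var n => exact h n rfl
  | neg A ih => simp only [Fm.subst, sm_neg]; rw [ih h]
  | and A B ih1 ih2 =>
    simp only [Fm.subst, sm_and]
    rw [ih1 (fun x hx => h x (Or.inl hx)), ih2 (fun x hx => h x (Or.inr hx))]
  | or A B ih1 ih2 =>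
    simp only [Fm.subst, sm_or]
    rw [ih1 (fun x hx => h x (Or.inl hx)), ih2 (fun x hx => h x (Or.inr hx))]
  | imp A B ih1 ih2 =>
    simp only [Fm.subst, sm_imp]
    rw [ih1 (fun x hx => h x (Or.inl hx)), ih2 (fun x hx => h x (Or.inr hx))]

/-- The result of the simplification is canonical: for a truth value the formula is `var []`. -/
theorem sm_canon (K : List (Nm × Bool)) (A : Fm) (b : Bool) (h : (sm K A).1 = some b) :
    sm K A = (some b, var []) := by
  induction A generalizing b with
  | var w =>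
    rw [sm_var] at h ⊢
    unfold smV at h ⊢
    cases hl : lk K w with
    | none => simp [hl] at h
    | some c => simp only [hl] at h ⊢; rw [h]
  | neg A ih =>
    rw [sm_neg] at h ⊢
    unfold smN at h ⊢
    cases hl : (sm K A).1 with
    | none => simp [hl] at h
    | some c => simp only [hl] at h ⊢; rw [h]
  | and A B ih1 ih2 =>
    rw [sm_and] at h ⊢
    unfold smAnd at h ⊢
    rcases h1 : (sm K A).1 with _ | _ | _ <;> rcases h2 : (sm K B).1 with _ | _ | _ <;>
      simp only [h1, h2, Option.some.injEq, reduceCtorEq] at h ⊢ <;>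
      first
      | (subst h; first | rfl | exact ih2 _ h2 | exact ih1 _ h1)
  | or A B ih1 ih2 =>
    rw [sm_or] at h ⊢
    unfold smOr at h ⊢
    rcases h1 : (sm K A).1 with _ | _ | _ <;> rcases h2 : (sm K B).1 with _ | _ | _ <;>
      simp only [h1, h2, Option.some.injEq, reduceCtorEq] at h ⊢ <;>
      first
      | (subst h; first | rfl | exact ih2 _ h2 | exact ih1 _ h1)
  | imp A B ih1 ih2 =>
    rw [sm_imp] at h ⊢
    unfold smImp at h ⊢
    rcases h1 : (sm K A).1 with _ | _ | _ <;> rcases h2 : (sm K B).1 with _ | _ | _ <;>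
      simp only [h1, h2, Option.some.injEq, reduceCtorEq] at h ⊢ <;>
      first
      | (subst h; first | rfl | exact ih2 _ h2)
      | (split_ifs at h ⊢ with h3 <;> simp_all)

/-- If all variables of a formula are known, it simplifies to its value. -/
theorem sm_eval {K : List (Nm × Bool)} {A : Fm} {v : Nm → Bool}
    (h : ∀ x ∈ A.vars, lk K x = some (v x)) (b : Bool)
    (hb : A.Eval (fun x => v x = true) ↔ b = true) : sm K A = (some b, var []) := by
  induction A generalizing b with
  | var w =>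
    rw [sm_var]; unfold smV
    rw [h w rfl]
    have : v w = b := by
      have hb' : v w = true ↔ b = true := hb
      rw [Bool.eq_iff_iff]; exact hb'
    simp [this]
  | neg A ih =>
    rw [sm_neg, ih h (!b) (by simp only [Fm.Eval] at hb; cases b <;> simp_all)]
    simp [smN]
  | and A B ih1 ih2 =>
    rw [sm_and]
    by_cases hA : A.Eval (fun x => v x = true)
    · rw [ih1 (fun x hx => h x (Or.inl hx)) true (by simp [hA])]
      rw [ih2 (fun x hx => h x (Or.inr hx)) b (by simp only [Fm.Eval] at hb; tauto)]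
      rfl
    · rw [ih1 (fun x hx => h x (Or.inl hx)) false (by simp [hA])]
      have : b = false := by
        simp only [Fm.Eval] at hb
        cases b <;> simp_all
      subst this; rfl
  | or A B ih1 ih2 =>
    rw [sm_or]
    by_cases hA : A.Eval (fun x => v x = true)
    · rw [ih1 (fun x hx => h x (Or.inl hx)) true (by simp [hA])]
      have : b = true := by
        simp only [Fm.Eval] at hb
        cases b <;> simp_all
      subst this; rfl
    · rw [ih1 (fun x hx => h x (Or.inl hx)) false (by simp [hA])]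
      rw [ih2 (fun x hx => h x (Or.inr hx)) b (by simp only [Fm.Eval] at hb; tauto)]
      rfl
  | imp A B ih1 ih2 =>
    rw [sm_imp]
    by_cases hA : A.Eval (fun x => v x = true)
    · rw [ih1 (fun x hx => h x (Or.inl hx)) true (by simp [hA])]
      rw [ih2 (fun x hx => h x (Or.inr hx)) b (by simp only [Fm.Eval] at hb; tauto)]
      rfl
    · rw [ih1 (fun x hx => h x (Or.inl hx)) false (by simp [hA])]
      have : b = true := by
        simp only [Fm.Eval] at hb
        cases b <;> simp_all
      subst this; rfl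

/-- Implications between formulas with the same simplification are true. -/
theorem sm_imp_self {K : List (Nm × Bool)} {A B : Fm} (h : sm K A = sm K B) :
    sm K (imp A B) = (some true, var []) := by
  rw [sm_imp, ← h]
  unfold smImp
  rcases h1 : (sm K A).1 with _ | _ | _
  · simp
  · simp
  · simp only [h1]; exact sm_canon K A true h1

theorem sm_ct (K : List (Nm × Bool)) (x : Nm) (c : Bool) : sm K (ct x c) = (some c, var []) := by
  cases c
  · show smN (sm K (imp (var x) (var x))) = _
    rw [sm_imp_self rfl]; rfl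
  · exact sm_imp_self rfl

/-! ### Status lines -/

/-- The line that states the result `p` of the simplification of `X` under the hypothesis `H`. -/
def stl (H X : Fm) (p : Option Bool × Fm) : Fm :=
  match p.1 with
  | some true => imp H X
  | some false => imp H (neg X)
  | none => imp H (Fm.iff X p.2)

/-! ### The rules -/

/-- The rules for the simplification of a formula with a binary main connective. -/
def stRule (n : ℕ) (s1 s2 : Option Bool) : Rule :=
  ⟨[stl v0 v1 (s1, v3), stl v0 v2 (s2, v4)], stl v0 (conn n v1 v2) (smB n (s1, v3) (s2, v4))⟩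

/-- The possible results of a simplification. -/
def ob : List (Option Bool) := [none, some true, some false]

/-- Basic rules. -/
def BR : List Rule :=
  [2, 3, 4].flatMap (fun n => ob.flatMap (fun s1 => ob.map (fun s2 => stRule n s1 s2))) ++
  [⟨[imp v0 (Fm.iff v1 v3), imp v0 (Fm.iff v2 v3)], imp v0 (imp v1 v2)⟩,
   ⟨[], imp v0 v0⟩,
   ⟨[imp v0 (Fm.and v1 v2)], imp v0 v1⟩,
   ⟨[imp v0 (Fm.and v1 v2)], imp v0 v2⟩,
   ⟨[], imp v0 (Fm.iff v1 v1)⟩,
   ⟨[imp v0 v1], imp v0 (neg (neg v1))⟩,
   ⟨[imp v0 (Fm.iff v1 v2)], imp v0 (Fm.iff (neg v1) (neg v2))⟩,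
   ⟨[imp v0 (Fm.iff v1 (neg v2))], imp v0 (Fm.iff (neg v1) v2)⟩,
   ⟨[imp v0 v1, imp v0 v2], imp v0 (Fm.and v1 v2)⟩,
   ⟨[imp v0 v1, imp v1 v2], imp v0 v2⟩,
   ⟨[imp v0 v1, imp v0 (Fm.iff v1 v3), imp v0 (Fm.iff v2 v3)], imp v0 v2⟩,
   ⟨[imp v0 v1, imp v0 (neg v1)], imp v0 v2⟩,
   ⟨[imp (Fm.and v1 v0) v2], imp v0 (imp v1 v2)⟩,
   ⟨[imp v0 (imp v1 v3), imp v0 (imp v2 v3)], imp v0 (imp (Fm.or v1 v2) v3)⟩,
   ⟨[], imp v0 (imp (neg (imp v1 v1)) v2)⟩,
   ⟨[imp v0 v1, imp v0 (imp v1 v2)], imp v0 v2⟩,
   ⟨[imp (Fm.and v1 v0) v2, imp (Fm.and (neg v1) v0) v2], imp v0 v2⟩,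
   ⟨[imp (imp v0 v0) v1], v1⟩,
   ⟨[v1], imp v0 v1⟩,
   ⟨[imp v0 v1, imp v0 (Fm.iff v1 v2)], imp v0 v2⟩,
   ⟨[], imp v0 (imp v1 v1)⟩,
   ⟨[imp v0 (Fm.iff v1 v2), imp v0 (Fm.iff v3 v4)],
     imp v0 (Fm.iff (conn 2 v1 v3) (conn 2 v2 v4))⟩,
   ⟨[imp v0 (Fm.iff v1 v2), imp v0 (Fm.iff v3 v4)],
     imp v0 (Fm.iff (conn 3 v1 v3) (conn 3 v2 v4))⟩,
   ⟨[imp v0 (Fm.iff v1 v2), imp v0 (Fm.iff v3 v4)],
     imp v0 (Fm.iff (conn 4 v1 v3) (conn 4 v2 v4))⟩,
   ⟨[imp v0 v1, imp v0 v2], imp v0 (Fm.iff v1 v2)⟩,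
   ⟨[imp v0 (neg v1), imp v0 (neg v2)], imp v0 (Fm.iff v1 v2)⟩,
   ⟨[imp (neg v0) v1], Fm.or v0 v1⟩,
   ⟨[Fm.or v0 v1], imp (neg v0) v1⟩,
   ⟨[v0, imp v0 v1], v1⟩,
   ⟨[imp v0 (Fm.iff v1 v2)], imp v0 (Fm.iff v2 v1)⟩,
   ⟨[imp v0 (Fm.or v1 v2)], imp (Fm.and (neg v1) v0) v2⟩,
   ⟨[imp (Fm.and (neg v1) v0) v2], imp v0 (Fm.or v1 v2)⟩]

theorem stl_eval (H X : Fm) (p : Option Bool × Fm) (v : Nm → Prop) :
    (stl H X p).Eval v ↔ (H.Eval v → match p.1 with
      | some b => (X.Eval v ↔ b = true)
      | none => (X.Eval v ↔ p.2.Eval v)) := by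
  rcases p with ⟨_ | _ | _, R⟩ <;> simp [stl, Fm.Eval, Fm.iff] <;> tauto

theorem BR_sound : ∀ r ∈ BR, ∀ v : Nm → Prop, (∀ P ∈ r.prem, P.Eval v) → r.concl.Eval v := by
  intro r hr v hv
  unfold BR at hr
  rw [List.mem_append] at hr
  rcases hr with hr | hr
  · simp only [List.mem_flatMap, List.mem_map] at hr
    obtain ⟨n, hn, s1, h1, s2, h2, rfl⟩ := hr
    have e1 := hv _ (List.mem_cons_self)
    have e2 := hv _ (List.mem_cons_of_mem _ List.mem_cons_self)
    clear hv
    simp only [List.mem_cons, List.not_mem_nil, or_false] at hn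
    rw [stl_eval] at e1 e2
    show (stl v0 (conn n v1 v2) (smB n (s1, v3) (s2, v4))).Eval v
    rw [stl_eval]
    intro h0
    have e1 := e1 h0
    have e2 := e2 h0
    rcases hn with rfl | rfl | rfl <;> rcases s1 with _ | _ | _ <;> rcases s2 with _ | _ | _ <;>
      simp [smB, smAnd, smOr, smImp, conn, Fm.Eval, v0, v1, v2, v3, v4] at e1 e2 ⊢ <;>
      tauto
  · simp only [List.mem_cons, List.not_mem_nil, or_false] at hr
    rcases hr with rfl | rfl | rfl | rfl | rfl | rfl | rfl | rfl | rfl | rfl | rfl | rfl | rfl |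
      rfl | rfl | rfl | rfl | rfl | rfl | rfl | rfl | rfl | rfl | rfl | rfl | rfl | rfl | rfl |
      rfl | rfl | rfl | rfl <;>
      simp [Fm.Eval, Fm.iff, conn, v0, v1, v2, v3, v4] at hv ⊢ <;>
      tauto

section steps

variable {G : List Rule} {π : List Fm} {H A B C R S : Fm}

/-- The set of rules contains the basic rules. -/
def Rich (G : List Rule) : Prop := ∀ r ∈ BR, r ∈ G

theorem Rich.step (hG : Rich G) (r : Rule) (hr : r ∈ BR) (X0 X1 X2 X3 X4 : Fm)
    (hp : ∀ P ∈ r.prem, P.subst (s5 X0 X1 X2 X3 X4) ∈ π)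
    {D : Fm} (hD : r.concl.subst (s5 X0 X1 X2 X3 X4) = D) : RuleStep G π D :=
  ⟨r, hG r hr, s5 X0 X1 X2 X3 X4, hp, hD⟩

theorem Rich.refl (hG : Rich G) : RuleStep G π (imp H H) :=
  hG.step ⟨[], imp v0 v0⟩ (by simp [BR]) H H H H H (by simp) rfl

theorem Rich.left (hG : Rich G) (h : imp H (Fm.and A B) ∈ π) : RuleStep G π (imp H A) :=
  hG.step ⟨[imp v0 (Fm.and v1 v2)], imp v0 v1⟩ (by simp [BR]) H A B H H
    (by simpa [Fm.subst, v0, v1, v2, s5] using h) rfl

theorem Rich.right (hG : Rich G) (h : imp H (Fm.and A B) ∈ π) : RuleStep G π (imp H B) :=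
  hG.step ⟨[imp v0 (Fm.and v1 v2)], imp v0 v2⟩ (by simp [BR]) H A B H H
    (by simpa [Fm.subst, v0, v1, v2, s5] using h) rfl

theorem Rich.iffRefl (hG : Rich G) : RuleStep G π (imp H (Fm.iff A A)) :=
  hG.step ⟨[], imp v0 (Fm.iff v1 v1)⟩ (by simp [BR]) H A H H H (by simp) rfl

theorem Rich.negneg (hG : Rich G) (h : imp H A ∈ π) : RuleStep G π (imp H (neg (neg A))) :=
  hG.step ⟨[imp v0 v1], imp v0 (neg (neg v1))⟩ (by simp [BR]) H A H H H
    (by simpa [Fm.subst, v0, v1, s5] using h) rfl

theorem Rich.iffNeg (hG : Rich G) (h : imp H (Fm.iff A B) ∈ π) :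
    RuleStep G π (imp H (Fm.iff (neg A) (neg B))) :=
  hG.step ⟨[imp v0 (Fm.iff v1 v2)], imp v0 (Fm.iff (neg v1) (neg v2))⟩ (by simp [BR]) H A B H H
    (by simpa [Fm.subst, Fm.iff, v0, v1, v2, s5] using h) rfl

theorem Rich.iffNeg' (hG : Rich G) (h : imp H (Fm.iff A (neg B)) ∈ π) :
    RuleStep G π (imp H (Fm.iff (neg A) B)) :=
  hG.step ⟨[imp v0 (Fm.iff v1 (neg v2))], imp v0 (Fm.iff (neg v1) v2)⟩ (by simp [BR]) H A B H H
    (by simpa [Fm.subst, Fm.iff, v0, v1, v2, s5] using h) rfl

theorem Rich.andI (hG : Rich G) (h1 : imp H A ∈ π) (h2 : imp H B ∈ π) :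
    RuleStep G π (imp H (Fm.and A B)) :=
  hG.step ⟨[imp v0 v1, imp v0 v2], imp v0 (Fm.and v1 v2)⟩ (by simp [BR]) H A B H H
    (by simpa [Fm.subst, v0, v1, v2, s5] using ⟨h1, h2⟩) rfl

theorem Rich.trans (hG : Rich G) (h1 : imp H A ∈ π) (h2 : imp A B ∈ π) :
    RuleStep G π (imp H B) :=
  hG.step ⟨[imp v0 v1, imp v1 v2], imp v0 v2⟩ (by simp [BR]) H A B H H
    (by simpa [Fm.subst, v0, v1, v2, s5] using ⟨h1, h2⟩) rfl

theorem Rich.viaIff (hG : Rich G) (h1 : imp H A ∈ π) (h2 : imp H (Fm.iff A R) ∈ π)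
    (h3 : imp H (Fm.iff B R) ∈ π) : RuleStep G π (imp H B) :=
  hG.step ⟨[imp v0 v1, imp v0 (Fm.iff v1 v3), imp v0 (Fm.iff v2 v3)], imp v0 v2⟩ (by simp [BR])
    H A B R H (by simpa [Fm.subst, Fm.iff, v0, v1, v2, v3, s5] using ⟨h1, h2, h3⟩) rfl

theorem Rich.absurd (hG : Rich G) (h1 : imp H A ∈ π) (h2 : imp H (neg A) ∈ π) :
    RuleStep G π (imp H B) :=
  hG.step ⟨[imp v0 v1, imp v0 (neg v1)], imp v0 v2⟩ (by simp [BR]) H A B H H
    (by simpa [Fm.subst, v0, v1, v2, s5] using ⟨h1, h2⟩) rfl

theorem Rich.curry (hG : Rich G) (h : imp (Fm.and A H) B ∈ π) : RuleStep G π (imp H (imp A B)) :=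
  hG.step ⟨[imp (Fm.and v1 v0) v2], imp v0 (imp v1 v2)⟩ (by simp [BR]) H A B H H
    (by simpa [Fm.subst, v0, v1, v2, s5] using h) rfl

theorem Rich.orE (hG : Rich G) (h1 : imp H (imp A C) ∈ π) (h2 : imp H (imp B C) ∈ π) :
    RuleStep G π (imp H (imp (Fm.or A B) C)) :=
  hG.step ⟨[imp v0 (imp v1 v3), imp v0 (imp v2 v3)], imp v0 (imp (Fm.or v1 v2) v3)⟩
    (by simp [BR]) H A B C H
    (by simpa [Fm.subst, v0, v1, v2, v3, s5] using ⟨h1, h2⟩) rfl

theorem Rich.exfalso (hG : Rich G) : RuleStep G π (imp H (imp (neg (imp A A)) B)) :=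
  hG.step ⟨[], imp v0 (imp (neg (imp v1 v1)) v2)⟩ (by simp [BR]) H A B H H (by simp) rfl

theorem Rich.mp (hG : Rich G) (h1 : imp H A ∈ π) (h2 : imp H (imp A B) ∈ π) :
    RuleStep G π (imp H B) :=
  hG.step ⟨[imp v0 v1, imp v0 (imp v1 v2)], imp v0 v2⟩ (by simp [BR]) H A B H H
    (by simpa [Fm.subst, v0, v1, v2, s5] using ⟨h1, h2⟩) rfl

theorem Rich.cases (hG : Rich G) (h1 : imp (Fm.and A H) B ∈ π)
    (h2 : imp (Fm.and (neg A) H) B ∈ π) : RuleStep G π (imp H B) :=
  hG.step ⟨[imp (Fm.and v1 v0) v2, imp (Fm.and (neg v1) v0) v2], imp v0 v2⟩ (by simp [BR])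
    H A B H H (by simpa [Fm.subst, v0, v1, v2, s5] using ⟨h1, h2⟩) rfl

theorem Rich.strip (hG : Rich G) (h : imp (imp H H) A ∈ π) : RuleStep G π A :=
  hG.step ⟨[imp (imp v0 v0) v1], v1⟩ (by simp [BR]) H A H H H
    (by simpa [Fm.subst, v0, v1, s5] using h) rfl

theorem Rich.weaken (hG : Rich G) (h : A ∈ π) : RuleStep G π (imp H A) :=
  hG.step ⟨[v1], imp v0 v1⟩ (by simp [BR]) H A H H H
    (by simpa [Fm.subst, v1, s5] using h) rfl

theorem Rich.iffMp (hG : Rich G) (h1 : imp H A ∈ π) (h2 : imp H (Fm.iff A B) ∈ π) :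
    RuleStep G π (imp H B) :=
  hG.step ⟨[imp v0 v1, imp v0 (Fm.iff v1 v2)], imp v0 v2⟩ (by simp [BR]) H A B H H
    (by simpa [Fm.subst, Fm.iff, v0, v1, v2, s5] using ⟨h1, h2⟩) rfl

theorem Rich.impRefl (hG : Rich G) : RuleStep G π (imp H (imp A A)) :=
  hG.step ⟨[], imp v0 (imp v1 v1)⟩ (by simp [BR]) H A H H H (by simp) rfl

theorem Rich.impEq (hG : Rich G) (h1 : imp H (Fm.iff A R) ∈ π) (h2 : imp H (Fm.iff B R) ∈ π) :
    RuleStep G π (imp H (imp A B)) :=
  hG.step ⟨[imp v0 (Fm.iff v1 v3), imp v0 (Fm.iff v2 v3)], imp v0 (imp v1 v2)⟩ (by simp [BR])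
    H A B R H (by simpa [Fm.subst, Fm.iff, v0, v1, v2, v3, s5] using ⟨h1, h2⟩) rfl

theorem Rich.iffT (hG : Rich G) (h1 : imp H A ∈ π) (h2 : imp H B ∈ π) :
    RuleStep G π (imp H (Fm.iff A B)) :=
  hG.step ⟨[imp v0 v1, imp v0 v2], imp v0 (Fm.iff v1 v2)⟩ (by simp [BR]) H A B H H
    (by simpa [Fm.subst, v0, v1, v2, s5] using ⟨h1, h2⟩) rfl

theorem Rich.iffF (hG : Rich G) (h1 : imp H (neg A) ∈ π) (h2 : imp H (neg B) ∈ π) :
    RuleStep G π (imp H (Fm.iff A B)) :=
  hG.step ⟨[imp v0 (neg v1), imp v0 (neg v2)], imp v0 (Fm.iff v1 v2)⟩ (by simp [BR]) H A B H H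
    (by simpa [Fm.subst, v0, v1, v2, s5] using ⟨h1, h2⟩) rfl

theorem Rich.iffSymm (hG : Rich G) (h : imp H (Fm.iff A B) ∈ π) :
    RuleStep G π (imp H (Fm.iff B A)) :=
  hG.step ⟨[imp v0 (Fm.iff v1 v2)], imp v0 (Fm.iff v2 v1)⟩ (by simp [BR]) H A B H H
    (by simpa [Fm.subst, Fm.iff, v0, v1, v2, s5] using h) rfl

theorem Rich.orI (hG : Rich G) (h : imp (neg A) B ∈ π) : RuleStep G π (Fm.or A B) :=
  hG.step ⟨[imp (neg v0) v1], Fm.or v0 v1⟩ (by simp [BR]) A B A A A
    (by simpa [Fm.subst, v0, v1, s5] using h) rfl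

theorem Rich.orD (hG : Rich G) (h : Fm.or A B ∈ π) : RuleStep G π (imp (neg A) B) :=
  hG.step ⟨[Fm.or v0 v1], imp (neg v0) v1⟩ (by simp [BR]) A B A A A
    (by simpa [Fm.subst, v0, v1, s5] using h) rfl

theorem Rich.mp0 (hG : Rich G) (h1 : A ∈ π) (h2 : imp A B ∈ π) : RuleStep G π B :=
  hG.step ⟨[v0, imp v0 v1], v1⟩ (by simp [BR]) A B A A A
    (by simpa [Fm.subst, v0, v1, s5] using ⟨h1, h2⟩) rfl

theorem Rich.orOut (hG : Rich G) (h : imp H (Fm.or A B) ∈ π) :
    RuleStep G π (imp (Fm.and (neg A) H) B) :=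
  hG.step ⟨[imp v0 (Fm.or v1 v2)], imp (Fm.and (neg v1) v0) v2⟩ (by simp [BR]) H A B H H
    (by simpa [Fm.subst, v0, v1, v2, s5] using h) rfl

theorem Rich.orIn (hG : Rich G) (h : imp (Fm.and (neg A) H) B ∈ π) :
    RuleStep G π (imp H (Fm.or A B)) :=
  hG.step ⟨[imp (Fm.and (neg v1) v0) v2], imp v0 (Fm.or v1 v2)⟩ (by simp [BR]) H A B H H
    (by simpa [Fm.subst, v0, v1, v2, s5] using h) rfl

theorem Rich.cong (hG : Rich G) (n : ℕ) (hn : n = 2 ∨ n = 3 ∨ n = 4)
    (h1 : imp H (Fm.iff A B) ∈ π) (h2 : imp H (Fm.iff C R) ∈ π) :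
    RuleStep G π (imp H (Fm.iff (conn n A C) (conn n B R))) := by
  rcases hn with rfl | rfl | rfl
  · exact hG.step ⟨[imp v0 (Fm.iff v1 v2), imp v0 (Fm.iff v3 v4)],
      imp v0 (Fm.iff (conn 2 v1 v3) (conn 2 v2 v4))⟩ (by simp [BR]) H A B C R
      (by simpa [Fm.subst, Fm.iff, v0, v1, v2, v3, v4, s5] using ⟨h1, h2⟩) rfl
  · exact hG.step ⟨[imp v0 (Fm.iff v1 v2), imp v0 (Fm.iff v3 v4)],
      imp v0 (Fm.iff (conn 3 v1 v3) (conn 3 v2 v4))⟩ (by simp [BR]) H A B C R
      (by simpa [Fm.subst, Fm.iff, v0, v1, v2, v3, v4, s5] using ⟨h1, h2⟩) rfl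
  · exact hG.step ⟨[imp v0 (Fm.iff v1 v2), imp v0 (Fm.iff v3 v4)],
      imp v0 (Fm.iff (conn 4 v1 v3) (conn 4 v2 v4))⟩ (by simp [BR]) H A B C R
      (by simpa [Fm.subst, Fm.iff, v0, v1, v2, v3, v4, s5] using ⟨h1, h2⟩) rfl

theorem mem_stRule (n : ℕ) (hn : n = 2 ∨ n = 3 ∨ n = 4) (s1 s2 : Option Bool) :
    stRule n s1 s2 ∈ BR := by
  unfold BR
  refine List.mem_append_left _ ?_
  simp only [List.mem_flatMap, List.mem_map]
  refine ⟨n, by simpa using hn, s1, ?_, s2, ?_, rfl⟩
  · rcases s1 with _ | _ | _ <;> simp [ob]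
  · rcases s2 with _ | _ | _ <;> simp [ob]

theorem Rich.st2 (hG : Rich G) (n : ℕ) (hn : n = 2 ∨ n = 3 ∨ n = 4) (p q : Option Bool × Fm)
    (h1 : stl H A p ∈ π) (h2 : stl H B q ∈ π) :
    RuleStep G π (stl H (conn n A B) (smB n p q)) := by
  obtain ⟨s1, R1⟩ := p
  obtain ⟨s2, R2⟩ := q
  by_cases h0 : n = 4 ∧ s1 = none ∧ s2 = none ∧ R1 = R2
  · obtain ⟨rfl, rfl, rfl, rfl⟩ := h0
    have : stl H (conn 4 A B) (smB 4 (none, R1) (none, R1)) = imp H (imp A B) := by
      simp [smB, smImp, stl, conn]
    rw [this]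
    exact hG.impEq h1 h2
  · refine hG.step (stRule n s1 s2) (mem_stRule n hn s1 s2) H A B R1 R2 ?_ ?_
    · intro P hP
      simp only [stRule, List.mem_cons, List.not_mem_nil, or_false] at hP
      rcases hP with rfl | rfl
      · have : (stl v0 v1 (s1, v3)).subst (s5 H A B R1 R2) = stl H A (s1, R1) := by
          rcases s1 with _ | _ | _ <;> rfl
        rw [this]; exact h1
      · have : (stl v0 v2 (s2, v4)).subst (s5 H A B R1 R2) = stl H B (s2, R2) := by
          rcases s2 with _ | _ | _ <;> rfl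
        rw [this]; exact h2
    · rcases hn with rfl | rfl | rfl <;> rcases s1 with _ | _ | _ <;>
        rcases s2 with _ | _ | _ <;>
        simp_all [stRule, smB, smAnd, smOr, smImp, stl, conn, Fm.subst, Fm.iff, v0, v1, v2, v3,
          v4, s5]

theorem Rich.stN (hG : Rich G) (p : Option Bool × Fm) (h : stl H A p ∈ π) :
    RuleStep G π (stl H (neg A) (smN p)) ∨ stl H (neg A) (smN p) ∈ π := by
  rcases p with ⟨_ | _ | _, R⟩
  · left
    by_cases hR : ∃ R', R = neg R'
    · obtain ⟨R', rfl⟩ := hR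
      exact hG.iffNeg' h
    · have : negS R = neg R := by
        cases R with
        | neg R' => exact (hR ⟨R', rfl⟩).elim
        | _ => rfl
      show RuleStep G π (imp H (Fm.iff (neg A) (negS R)))
      rw [this]
      exact hG.iffNeg h
  · right; exact h
  · left; exact hG.negneg h

end steps

/-! ### Derivations -/

/-- Status lines of all subformulas. -/
def smL (H : Fm) (K : List (Nm × Bool)) (A : Fm) : List Fm :=
  (subs A).reverse.map (fun X => stl H X (sm K X))

theorem smL_just {G : List Rule} (hG : Rich G) (H : Fm) (K : List (Nm × Bool)) (A : Fm) :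
    ∀ π : List Fm, (∀ p ∈ K, imp H (lit p.1 p.2) ∈ π) →
    Just (RuleStep G) π (smL H K A) ∧ stl H A (sm K A) ∈ smL H K A := by
  have bin : ∀ (n : ℕ), (n = 2 ∨ n = 3 ∨ n = 4) → ∀ (A B : Fm) (π : List Fm),
      (Just (RuleStep G) π (smL H K A) ∧ stl H A (sm K A) ∈ smL H K A) →
      (∀ π : List Fm, (∀ p ∈ K, imp H (lit p.1 p.2) ∈ π) →
        Just (RuleStep G) π (smL H K B) ∧ stl H B (sm K B) ∈ smL H K B) →
      (∀ π : List Fm, (∀ p ∈ K, imp H (lit p.1 p.2) ∈ π) →
        Just (RuleStep G) π (smL H K A) ∧ stl H A (sm K A) ∈ smL H K A) →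
      (∀ p ∈ K, imp H (lit p.1 p.2) ∈ π) →
      (sm K (conn n A B) = smB n (sm K A) (sm K B)) →
      Just (RuleStep G) π (smL H K B ++ smL H K A ++
        [stl H (conn n A B) (sm K (conn n A B))]) := by
    intro n hn A B π _ ihB ihA hπ e
    obtain ⟨j2, m2⟩ := ihB π hπ
    obtain ⟨j1, m1⟩ := ihA (π ++ smL H K B) (fun p hp => List.mem_append_left _ (hπ p hp))
    refine Just.append (Just.append j2 j1) ⟨Or.inr ?_, trivial⟩
    rw [e]
    refine hG.st2 n hn _ _ ?_ ?_
    · exact List.mem_append_right _ (List.mem_append_right _ m1)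
    · exact List.mem_append_right _ (List.mem_append_left _ m2)
  induction A with
  | var w =>
    intro π hπ
    refine ⟨⟨?_, trivial⟩, by simp [smL, subs]⟩
    show stl H (var w) (smV K w) ∈ π ∨ RuleStep G π (stl H (var w) (smV K w))
    unfold smV
    cases hl : lk K w with
    | none => right; exact hG.iffRefl
    | some b =>
      left
      have := hπ _ (lk_mem hl)
      cases b <;> exact this
  | neg A ih =>
    intro π hπ
    obtain ⟨j, m⟩ := ih π hπ
    have e : smL H K (neg A) = smL H K A ++ [stl H (neg A) (sm K (neg A))] := by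
      simp [smL, subs]
    rw [e]
    refine ⟨Just.append j ⟨?_, trivial⟩, by simp⟩
    rw [sm_neg]
    exact (hG.stN _ (List.mem_append_right _ m)).symm
  | and A B ihA ihB =>
    intro π hπ
    have e : smL H K (Fm.and A B) = smL H K B ++ smL H K A ++
        [stl H (conn 2 A B) (sm K (conn 2 A B))] := by
      simp [smL, subs, conn_two]
    rw [e]
    exact ⟨bin 2 (by simp) A B π (ihA π hπ) ihB ihA hπ rfl, by simp [conn_two]⟩
  | or A B ihA ihB =>
    intro π hπ
    have e : smL H K (Fm.or A B) = smL H K B ++ smL H K A ++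
        [stl H (conn 3 A B) (sm K (conn 3 A B))] := by
      simp [smL, subs, conn_three]
    rw [e]
    exact ⟨bin 3 (by simp) A B π (ihA π hπ) ihB ihA hπ rfl, by simp [conn_three]⟩
  | imp A B ihA ihB =>
    intro π hπ
    have e : smL H K (imp A B) = smL H K B ++ smL H K A ++
        [stl H (conn 4 A B) (sm K (conn 4 A B))] := by
      simp [smL, subs, conn_four]
    rw [e]
    exact ⟨bin 4 (by simp) A B π (ihA π hπ) ihB ihA hπ rfl, by simp [conn_four]⟩

/-- The equivalences between the two instances of all subformulas of `S`. -/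
def replL (H S : Fm) (s t : Nm → Fm) : List Fm :=
  (subs S).reverse.map (fun X => imp H (Fm.iff (X.subst s) (X.subst t)))

theorem replL_just {G : List Rule} (hG : Rich G) (H : Fm) (s t : Nm → Fm) (S : Fm) :
    ∀ π : List Fm, (∀ x ∈ S.vars, imp H (Fm.iff (s x) (t x)) ∈ π) →
    Just (RuleStep G) π (replL H S s t) ∧
      imp H (Fm.iff (S.subst s) (S.subst t)) ∈ replL H S s t := by
  have bin : ∀ (n : ℕ), (n = 2 ∨ n = 3 ∨ n = 4) → ∀ (A B : Fm) (π : List Fm),
      (∀ π : List Fm, (∀ x ∈ A.vars, imp H (Fm.iff (s x) (t x)) ∈ π) →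
        Just (RuleStep G) π (replL H A s t) ∧
          imp H (Fm.iff (A.subst s) (A.subst t)) ∈ replL H A s t) →
      (∀ π : List Fm, (∀ x ∈ B.vars, imp H (Fm.iff (s x) (t x)) ∈ π) →
        Just (RuleStep G) π (replL H B s t) ∧
          imp H (Fm.iff (B.subst s) (B.subst t)) ∈ replL H B s t) →
      (∀ x ∈ A.vars ∪ B.vars, imp H (Fm.iff (s x) (t x)) ∈ π) →
      Just (RuleStep G) π (replL H B s t ++ replL H A s t ++
        [imp H (Fm.iff (conn n (A.subst s) (B.subst s)) (conn n (A.subst t) (B.subst t)))]) := by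
    intro n hn A B π ihA ihB hπ
    obtain ⟨j2, m2⟩ := ihB π (fun x hx => hπ x (Or.inr hx))
    obtain ⟨j1, m1⟩ := ihA (π ++ replL H B s t)
      (fun x hx => List.mem_append_left _ (hπ x (Or.inl hx)))
    refine Just.append (Just.append j2 j1) ⟨Or.inr ?_, trivial⟩
    exact hG.cong n hn (List.mem_append_right _ (List.mem_append_right _ m1))
      (List.mem_append_right _ (List.mem_append_left _ m2))
  induction S with
  | var w =>
    intro π hπ
    exact ⟨⟨Or.inl (hπ w rfl), trivial⟩, by simp [replL, subs]⟩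
  | neg A ih =>
    intro π hπ
    obtain ⟨j, m⟩ := ih π hπ
    have e : replL H (neg A) s t = replL H A s t ++
        [imp H (Fm.iff (neg (A.subst s)) (neg (A.subst t)))] := by
      simp [replL, subs, Fm.subst]
    rw [e]
    refine ⟨Just.append j ⟨Or.inr ?_, trivial⟩, by simp [Fm.subst]⟩
    exact hG.iffNeg (List.mem_append_right _ m)
  | and A B ihA ihB =>
    intro π hπ
    have e : replL H (Fm.and A B) s t = replL H B s t ++ replL H A s t ++
        [imp H (Fm.iff (conn 2 (A.subst s) (B.subst s)) (conn 2 (A.subst t) (B.subst t)))] := by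
      simp [replL, subs, Fm.subst, conn_two]
    rw [e]
    exact ⟨bin 2 (by simp) A B π ihA ihB hπ, by simp [conn_two, Fm.subst]⟩
  | or A B ihA ihB =>
    intro π hπ
    have e : replL H (Fm.or A B) s t = replL H B s t ++ replL H A s t ++
        [imp H (Fm.iff (conn 3 (A.subst s) (B.subst s)) (conn 3 (A.subst t) (B.subst t)))] := by
      simp [replL, subs, Fm.subst, conn_three]
    rw [e]
    exact ⟨bin 3 (by simp) A B π ihA ihB hπ, by simp [conn_three, Fm.subst]⟩
  | imp A B ihA ihB =>
    intro π hπ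
    have e : replL H (imp A B) s t = replL H B s t ++ replL H A s t ++
        [imp H (Fm.iff (conn 4 (A.subst s) (B.subst s)) (conn 4 (A.subst t) (B.subst t)))] := by
      simp [replL, subs, Fm.subst, conn_four]
    rw [e]
    exact ⟨bin 4 (by simp) A B π ihA ihB hπ, by simp [conn_four, Fm.subst]⟩

/-- Projections of the hypothesis. -/
def projL (H : Fm) : List Fm := (ands H).map (fun X => imp H X)

theorem projL_just {G : List Rule} (hG : Rich G) (H : Fm) (π : List Fm) :
    Just (RuleStep G) π (projL H) := by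
  have key : ∀ (X : Fm) (π : List Fm), (imp H X ∈ π ∨ X = H) →
      Just (RuleStep G) π ((ands X).map (fun X => imp H X)) := by
    intro X
    induction X with
    | and A B ihA ihB =>
      intro π h
      simp only [ands, List.map_cons, List.map_append]
      refine ⟨?_, ?_⟩
      · rcases h with h | h
        · exact Or.inl h
        · rw [h]; exact Or.inr hG.refl
      · have hm : imp H (Fm.and A B) ∈ π ++ [imp H (Fm.and A B)] := by simp
        -- the first conjunct
        have hA : Just (RuleStep G) (π ++ [imp H (Fm.and A B)])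
            ((ands A).map (fun X => imp H X)) := by
          have hcons : ∀ (A : Fm), RuleStep G (π ++ [imp H (Fm.and A B)]) (imp H A) →
              ∀ τ : List Fm, Just (RuleStep G) (π ++ [imp H (Fm.and A B)]) τ →
              True := fun _ _ _ _ => trivial
          have h2 := ihA (π ++ [imp H (Fm.and A B)] ++ [imp H A]) (Or.inl (by simp))
          have h3 : ∃ τ, (ands A).map (fun X => imp H X) = imp H A :: τ := by
            cases A <;> simp [ands]
          obtain ⟨τ, hτ⟩ := h3
          rw [hτ] at h2 ⊢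
          refine ⟨Or.inr (hG.left hm), ?_⟩
          refine Just.mono (mono_ruleStep G) ?_ h2.2
          intro C hC
          simp only [List.mem_append, List.mem_singleton] at hC ⊢
          tauto
        refine Just.append hA ?_
        have h2 := ihB (π ++ [imp H (Fm.and A B)] ++ (ands A).map (fun X => imp H X) ++
          [imp H B]) (Or.inl (by simp))
        have h3 : ∃ τ, (ands B).map (fun X => imp H X) = imp H B :: τ := by
          cases B <;> simp [ands]
        obtain ⟨τ, hτ⟩ := h3
        rw [hτ] at h2 ⊢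
        refine ⟨Or.inr (hG.right (A := A) (List.mem_append_left _ hm)), ?_⟩
        refine Just.mono (mono_ruleStep G) ?_ h2.2
        intro C hC
        simp only [List.mem_append, List.mem_singleton] at hC ⊢
        tauto
    | var w =>
      intro π h
      refine ⟨?_, trivial⟩
      rcases h with h | h
      · exact Or.inl h
      · rw [h]; exact Or.inr hG.refl
    | neg A _ =>
      intro π h
      refine ⟨?_, trivial⟩
      rcases h with h | h
      · exact Or.inl h
      · rw [h]; exact Or.inr hG.refl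
    | or A B _ _ =>
      intro π h
      refine ⟨?_, trivial⟩
      rcases h with h | h
      · exact Or.inl h
      · rw [h]; exact Or.inr hG.refl
    | imp A B _ _ =>
      intro π h
      refine ⟨?_, trivial⟩
      rcases h with h | h
      · exact Or.inl h
      · rw [h]; exact Or.inr hG.refl
  exact key H π (Or.inr rfl)

theorem mem_projL {H X : Fm} (h : X ∈ ands H) : imp H X ∈ projL H :=
  List.mem_map_of_mem h

/-- Every conjunct of `H'` is a conjunct of `H` or true under the literals of `H`. -/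
def okH (H : Fm) : Fm → Prop
  | Fm.and A B => Fm.and A B ∈ ands H ∨ (okH H A ∧ okH H B)
  | A => A ∈ ands H ∨ (sm (litsOf H) A).1 = some true

theorem okH_iff_of_not_and {H A : Fm} (h : ∀ B C, A ≠ Fm.and B C) :
    okH H A ↔ (A ∈ ands H ∨ (sm (litsOf H) A).1 = some true) := by
  cases A with
  | and B C => exact absurd rfl (h B C)
  | _ => rfl

theorem ands_trans {H A B : Fm} (h : Fm.and A B ∈ ands H) : A ∈ ands H ∧ B ∈ ands H := by
  induction H with
  | and C D ihC ihD =>
    simp only [ands, List.mem_cons, List.mem_append] at h ⊢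
    rcases h with h | h | h
    · injection h with h1 h2
      subst h1 h2
      exact ⟨Or.inr (Or.inl (self_mem_ands _)), Or.inr (Or.inr (self_mem_ands _))⟩
    · exact ⟨Or.inr (Or.inl (ihC h).1), Or.inr (Or.inl (ihC h).2)⟩
    · exact ⟨Or.inr (Or.inr (ihD h).1), Or.inr (Or.inr (ihD h).2)⟩
  | var w => simp [ands] at h
  | neg A _ => simp [ands] at h
  | or A B _ _ => simp [ands] at h
  | imp A B _ _ => simp [ands] at h

theorem okH_of_mem {H A : Fm} (h : A ∈ ands H) : okH H A := by
  cases A with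
  | and B C => exact Or.inl h
  | _ => exact Or.inl h

theorem okH_of_sm {H A : Fm} (h : (sm (litsOf H) A).1 = some true) : okH H A := by
  induction A with
  | and B C ihB ihC =>
    rw [sm_and] at h
    unfold smAnd at h
    right
    rcases h1 : (sm (litsOf H) B).1 with _ | _ | _ <;>
      rcases h2 : (sm (litsOf H) C).1 with _ | _ | _ <;>
      simp only [h1, h2, Option.some.injEq, reduceCtorEq] at h
    exact ⟨ihB h1, ihC h2⟩
  | _ => exact Or.inr h

theorem okH_and {H A B : Fm} : okH H (Fm.and A B) ↔ okH H A ∧ okH H B := by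
  constructor
  · rintro (h | h)
    · exact ⟨okH_of_mem (ands_trans h).1, okH_of_mem (ands_trans h).2⟩
    · exact h
  · exact Or.inr

theorem okH_ct (H : Fm) (d : Nm) : okH H (ct d true) :=
  okH_of_sm (by rw [sm_ct])

theorem okH_cj {H : Fm} {d : Nm} {Γ : List Fm} : okH H (cj d Γ) ↔ ∀ A ∈ Γ, okH H A := by
  induction Γ with
  | nil => simp [cj_nil, okH_ct]
  | cons A Γ ih => rw [cj_cons, okH_and, ih]; simp

/-- Lines that derive `H'` from `H`. -/
def hypL (H H' : Fm) : List Fm :=
  (ands H').reverse.flatMap (fun X => smL H (litsOf H) X ++ [imp H X])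

theorem hypL_just {G : List Rule} (hG : Rich G) (H H' : Fm) : okH H H' →
    ∀ π : List Fm, (∀ X ∈ ands H, imp H X ∈ π) →
    Just (RuleStep G) π (hypL H H') ∧ imp H H' ∈ hypL H H' := by
  have base : ∀ X : Fm, (X ∈ ands H ∨ (sm (litsOf H) X).1 = some true) → ∀ π : List Fm,
      (∀ X ∈ ands H, imp H X ∈ π) →
      Just (RuleStep G) π (smL H (litsOf H) X ++ [imp H X]) := by
    intro X hX π hπ
    obtain ⟨j, m⟩ := smL_just hG H (litsOf H) X π (fun p hp => hπ _ (mem_litsOf.1 hp))
    refine Just.append j ⟨Or.inl ?_, trivial⟩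
    rcases hX with hX | hX
    · exact List.mem_append_left _ (hπ X hX)
    · refine List.mem_append_right _ ?_
      have : stl H X (sm (litsOf H) X) = imp H X := by
        unfold stl; rw [hX]
      rwa [this] at m
  induction H' with
  | and A B ihA ihB =>
    intro h π hπ
    rw [okH_and] at h
    have e : hypL H (Fm.and A B) = hypL H B ++ (hypL H A ++
        (smL H (litsOf H) (Fm.and A B) ++ [imp H (Fm.and A B)])) := by
      simp [hypL, ands]
    rw [e]
    obtain ⟨j1, m1⟩ := ihB h.2 π hπ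
    obtain ⟨j2, m2⟩ := ihA h.1 (π ++ hypL H B) (fun X hX => List.mem_append_left _ (hπ X hX))
    refine ⟨Just.append j1 (Just.append j2 ?_), by simp⟩
    obtain ⟨j3, m3⟩ := smL_just hG H (litsOf H) (Fm.and A B) (π ++ hypL H B ++ hypL H A)
      (fun p hp => List.mem_append_left _ (List.mem_append_left _ (hπ _ (mem_litsOf.1 hp))))
    refine Just.append j3 ⟨Or.inr (hG.andI ?_ ?_), trivial⟩
    · exact List.mem_append_left _ (List.mem_append_right _ m2)
    · exact List.mem_append_left _ (List.mem_append_left _ (List.mem_append_right _ m1))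
  | var w =>
    intro h π hπ
    have e : hypL H (var w) = smL H (litsOf H) (var w) ++ [imp H (var w)] := by
      simp [hypL, ands]
    rw [e]
    exact ⟨base _ h π hπ, by simp⟩
  | neg A _ =>
    intro h π hπ
    have e : hypL H (neg A) = smL H (litsOf H) (neg A) ++ [imp H (neg A)] := by
      simp [hypL, ands]
    rw [e]
    exact ⟨base _ h π hπ, by simp⟩
  | or A B _ _ =>
    intro h π hπ
    have e : hypL H (Fm.or A B) = smL H (litsOf H) (Fm.or A B) ++ [imp H (Fm.or A B)] := by
      simp [hypL, ands]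
    rw [e]
    exact ⟨base _ h π hπ, by simp⟩
  | imp A B _ _ =>
    intro h π hπ
    have e : hypL H (imp A B) = smL H (litsOf H) (imp A B) ++ [imp H (imp A B)] := by
      simp [hypL, ands]
    rw [e]
    exact ⟨base _ h π hπ, by simp⟩

/-- Lines that derive `imp H B` from `imp H' A`. -/
def li (H H' A B : Fm) : List Fm :=
  projL H ++ (hypL H H' ++ ([imp H A] ++ (smL H (litsOf H) A ++ (smL H (litsOf H) B ++
    [imp H B]))))

theorem li_just {G : List Rule} (hG : Rich G) {H H' A B : Fm} {π : List Fm}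
    (h : imp H' A ∈ π) (h1 : okH H H') (h2 : sm (litsOf H) A = sm (litsOf H) B) :
    Just (RuleStep G) π (li H H' A B) ∧ imp H B ∈ li H H' A B := by
  refine ⟨?_, by simp [li]⟩
  have hp := projL_just hG H π
  refine Just.append hp ?_
  obtain ⟨j1, m1⟩ := hypL_just hG H H' h1 (π ++ projL H)
    (fun X hX => List.mem_append_right _ (mem_projL hX))
  refine Just.append j1 ?_
  refine Just.append (⟨Or.inr (hG.trans (List.mem_append_right _ m1)
    (List.mem_append_left _ (List.mem_append_left _ h))), trivial⟩) ?_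
  have hK : ∀ p ∈ litsOf H, imp H (lit p.1 p.2) ∈ π ++ projL H :=
    fun p hp => List.mem_append_right _ (mem_projL (mem_litsOf.1 hp))
  obtain ⟨j2, m2⟩ := smL_just hG H (litsOf H) A (π ++ projL H ++ hypL H H' ++ [imp H A])
    (fun p hp => List.mem_append_left _ (List.mem_append_left _ (hK p hp)))
  refine Just.append j2 ?_
  obtain ⟨j3, m3⟩ := smL_just hG H (litsOf H) B
    (π ++ projL H ++ hypL H H' ++ [imp H A] ++ smL H (litsOf H) A)
    (fun p hp => List.mem_append_left _ (List.mem_append_left _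
      (List.mem_append_left _ (hK p hp))))
  refine Just.append j3 ?_
  have a1 : imp H A ∈ π ++ projL H ++ hypL H H' ++ [imp H A] ++ smL H (litsOf H) A ++
      smL H (litsOf H) B := by simp
  have a2 : stl H A (sm (litsOf H) A) ∈ π ++ projL H ++ hypL H H' ++ [imp H A] ++
      smL H (litsOf H) A ++ smL H (litsOf H) B :=
    List.mem_append_left _ (List.mem_append_right _ m2)
  have a3 : stl H B (sm (litsOf H) A) ∈ π ++ projL H ++ hypL H H' ++ [imp H A] ++
      smL H (litsOf H) A ++ smL H (litsOf H) B := by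
    rw [h2]
    exact List.mem_append_right _ m3
  generalize π ++ projL H ++ hypL H H' ++ [imp H A] ++ smL H (litsOf H) A ++
      smL H (litsOf H) B = σ at a1 a2 a3
  refine ⟨?_, trivial⟩
  rcases hs : sm (litsOf H) A with ⟨_ | _ | _, R⟩
  · rw [hs] at a2 a3
    exact Or.inr (hG.viaIff a1 a2 a3)
  · rw [hs] at a2
    exact Or.inr (hG.absurd a1 a2)
  · rw [hs] at a3
    exact Or.inl a3

/-- Lines that derive `imp H B` from `A`. -/
def li0 (d : Nm) (H A B : Fm) : List Fm := imp (ct d true) A :: li H (ct d true) A B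

theorem li0_just {G : List Rule} (hG : Rich G) {d : Nm} {H A B : Fm} {π : List Fm}
    (h : A ∈ π) (h2 : sm (litsOf H) A = sm (litsOf H) B) :
    Just (RuleStep G) π (li0 d H A B) ∧ imp H B ∈ li0 d H A B := by
  obtain ⟨j, m⟩ := li_just hG (H := H) (H' := ct d true) (A := A) (B := B)
    (π := π ++ [imp (ct d true) A]) (by simp) (okH_ct H d) h2
  exact ⟨⟨Or.inr (hG.weaken h), j⟩, List.mem_cons_of_mem _ m⟩

/-! ### Cases on a disjunction -/

/-- The suffixes of a list, the shortest first. -/
def sfx : List Fm → List (List Fm)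
  | [] => [[]]
  | A :: Γ => sfx Γ ++ [A :: Γ]

/-- Lines that derive `imp H A` from `imp (and X H) A` for all `X` in `Xs`, when the disjunction
of `Xs` is a conjunct of `H`. -/
def caseL (d : Nm) (H A : Fm) (Xs : List Fm) : List Fm :=
  Xs.map (fun X => imp H (imp X A)) ++ ((sfx Xs).map (fun Γ => imp H (imp (dj d Γ) A)) ++
    (projL H ++ [imp H A]))

theorem caseL_just {G : List Rule} (hG : Rich G) {d : Nm} {H A : Fm} {Xs : List Fm}
    {π : List Fm} (h : ∀ X ∈ Xs, imp (Fm.and X H) A ∈ π) (hd : dj d Xs ∈ ands H) :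
    Just (RuleStep G) π (caseL d H A Xs) ∧ imp H A ∈ caseL d H A Xs := by
  refine ⟨?_, by simp [caseL]⟩
  have j1 : ∀ (Ys : List Fm), (∀ X ∈ Ys, imp (Fm.and X H) A ∈ π) → ∀ π', (∀ C ∈ π, C ∈ π') →
      Just (RuleStep G) π' (Ys.map (fun X => imp H (imp X A))) := by
    intro Ys
    induction Ys with
    | nil => intro _ _ _; trivial
    | cons X Ys ih =>
      intro h π' hπ'
      exact ⟨Or.inr (hG.curry (hπ' _ (h X (by simp)))),
        ih (fun Y hY => h Y (List.mem_cons_of_mem _ hY)) _
          (fun C hC => List.mem_append_left _ (hπ' C hC))⟩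
  have j2 : ∀ (Ys : List Fm) (π' : List Fm), (∀ X ∈ Ys, imp H (imp X A) ∈ π') →
      Just (RuleStep G) π' ((sfx Ys).map (fun Γ => imp H (imp (dj d Γ) A))) ∧
      imp H (imp (dj d Ys) A) ∈ (sfx Ys).map (fun Γ => imp H (imp (dj d Γ) A)) := by
    intro Ys
    induction Ys with
    | nil =>
      intro π' _
      exact ⟨⟨Or.inr hG.exfalso, trivial⟩, by simp [sfx]⟩
    | cons X Ys ih =>
      intro π' h
      obtain ⟨j, m⟩ := ih π' (fun Y hY => h Y (List.mem_cons_of_mem _ hY))
      simp only [sfx, List.map_append, List.map_cons, List.map_nil]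
      refine ⟨Just.append j ⟨Or.inr ?_, trivial⟩, by simp⟩
      rw [dj_cons]
      exact hG.orE (List.mem_append_left _ (h X (by simp))) (List.mem_append_right _ m)
  refine Just.append (j1 Xs h π (fun C hC => hC)) ?_
  obtain ⟨j3, m3⟩ := j2 Xs (π ++ Xs.map (fun X => imp H (imp X A))) (by
    intro X hX
    exact List.mem_append_right _ (List.mem_map_of_mem (f := fun X => imp H (imp X A)) hX))
  refine Just.append j3 (Just.append (projL_just hG H _) ⟨Or.inr ?_, trivial⟩)
  exact hG.mp (List.mem_append_right _ (mem_projL hd))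
    (List.mem_append_left _ (List.mem_append_right _ m3))

/-! ### Cases on the values of a list of variables -/

/-- All words of a given length. -/
def words : ℕ → List (List Bool)
  | 0 => [[]]
  | n + 1 => (words n).map (fun w => true :: w) ++ (words n).map (fun w => false :: w)

theorem mem_words {n : ℕ} {w : List Bool} : w ∈ words n ↔ w.length = n := by
  induction n generalizing w with
  | zero => simp [words]
  | succ n ih =>
    cases w with
    | nil => simp [words]
    | cons b w => cases b <;> simp [words, ih]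

/-- The hypothesis `H` with literals for the values `w` of the variables `ys`. -/
def lw (H : Fm) (ys : List Nm) (w : List Bool) : Fm :=
  (ys.zip w).foldr (fun p X => Fm.and (lit p.1 p.2) X) H

theorem lw_cons (H : Fm) (y : Nm) (ys : List Nm) (b : Bool) (w : List Bool) :
    lw H (y :: ys) (b :: w) = Fm.and (lit y b) (lw H ys w) := rfl

theorem mem_ands_lw {H X : Fm} (h : X ∈ ands H) (ys : List Nm) (w : List Bool) :
    X ∈ ands (lw H ys w) := by
  unfold lw
  induction ys.zip w with
  | nil => exact h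
  | cons p l ih =>
    simp only [List.foldr_cons, ands, List.mem_cons, List.mem_append]
    exact Or.inr (Or.inr ih)

theorem lit_mem_ands_lw {H : Fm} {ys : List Nm} {w : List Bool} {p : Nm × Bool}
    (h : p ∈ ys.zip w) : lit p.1 p.2 ∈ ands (lw H ys w) := by
  unfold lw
  generalize ys.zip w = l at h
  induction l with
  | nil => simp at h
  | cons q l ih =>
    simp only [List.foldr_cons, ands, List.mem_cons, List.mem_append]
    rcases List.mem_cons.1 h with rfl | h
    · exact Or.inr (Or.inl (self_mem_ands _))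
    · exact Or.inr (Or.inr (ih h))

/-- Lines that derive `imp H A` from `imp (lw H ys w) A` for all words `w` of the right
length; the list `W` has to contain exactly these words. -/
def splitL (H A : Fm) : List Nm → List (List Bool) → List Fm
  | [], _ => []
  | _ :: ys, W => (W.map List.tail).map (fun w => imp (lw H ys w) A) ++
      splitL H A ys (W.map List.tail)

theorem splitL_just {G : List Rule} (hG : Rich G) {H A : Fm} : ∀ {ys : List Nm}
    {W : List (List Bool)} {π : List Fm},
    (∀ w, w ∈ W ↔ w.length = ys.length) → (∀ w ∈ W, imp (lw H ys w) A ∈ π) →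
    Just (RuleStep G) π (splitL H A ys W) ∧ imp H A ∈ π ++ splitL H A ys W := by
  intro ys
  induction ys with
  | nil =>
    intro W π hW h
    exact ⟨trivial, List.mem_append_left _ (h [] ((hW []).2 rfl))⟩
  | cons y ys ih =>
    intro W π hW h
    have hW' : ∀ w, w ∈ W.map List.tail ↔ w.length = ys.length := by
      intro w
      rw [List.mem_map]
      constructor
      · rintro ⟨w', hw', rfl⟩
        have := (hW w').1 hw'
        rw [List.length_tail, this]
        simp
      · intro hw
        exact ⟨true :: w, (hW _).2 (by simp [hw]), rfl⟩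
    have j1 : Just (RuleStep G) π ((W.map List.tail).map (fun w => imp (lw H ys w) A)) := by
      have key : ∀ (V : List (List Bool)), (∀ w ∈ V, w.length = ys.length) → ∀ π',
          (∀ C ∈ π, C ∈ π') → Just (RuleStep G) π' (V.map (fun w => imp (lw H ys w) A)) := by
        intro V
        induction V with
        | nil => intro _ _ _; trivial
        | cons w V ihV =>
          intro hV π' hπ'
          refine ⟨Or.inr ?_, ihV (fun w' hw' => hV w' (List.mem_cons_of_mem _ hw')) _
            (fun C hC => List.mem_append_left _ (hπ' C hC))⟩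
          have hw : w.length = ys.length := hV w (by simp)
          have h1 := h (true :: w) ((hW _).2 (by simp [hw]))
          have h2 := h (false :: w) ((hW _).2 (by simp [hw]))
          exact hG.cases (hπ' _ h1) (hπ' _ h2)
      exact key _ (fun w hw => (hW' w).1 hw) π (fun C hC => hC)
    obtain ⟨j2, m2⟩ := ih (W := W.map List.tail)
      (π := π ++ (W.map List.tail).map (fun w => imp (lw H ys w) A)) hW' (by
      intro w hw
      exact List.mem_append_right _ (List.mem_map_of_mem (f := fun w => imp (lw H ys w) A) hw))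
    refine ⟨Just.append j1 j2, ?_⟩
    rw [splitL, ← List.append_assoc]
    exact m2

/-! ### Case distinction on one formula -/

/-- From `imp (and X H) A` and `imp (and (neg X) H) A` the line `imp H A` follows. -/
theorem caseB_just {G : List Rule} (hG : Rich G) {H A X : Fm} {π : List Fm}
    (h1 : imp (Fm.and X H) A ∈ π) (h2 : imp (Fm.and (neg X) H) A ∈ π) :
    Just (RuleStep G) π [imp H A] := ⟨Or.inr (hG.cases h1 h2), trivial⟩

/-! ### Rule sets -/

/-- A rule with an additional hypothesis. -/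
def shiftR (r : Rule) : Rule :=
  ⟨r.prem.map (fun P => imp v0 (shiftF P)), imp v0 (shiftF r.concl)⟩

/-- The rules of `F`, the same rules with a hypothesis, and the basic rules. -/
def GG (F : List Rule) : List Rule := F ++ F.map shiftR ++ BR

theorem GG_rich (F : List Rule) : Rich (GG F) := fun _ hr => List.mem_append_right _ hr

theorem GG_sound {F : List Rule} (hF : IsFrege F) :
    ∀ r ∈ GG F, ∀ v : Nm → Prop, (∀ P ∈ r.prem, P.Eval v) → r.concl.Eval v := by
  intro r hr v hv
  rcases List.mem_append.1 hr with hr | hr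
  · rcases List.mem_append.1 hr with hr | hr
    · exact hF.sound r hr v hv
    · obtain ⟨r', hr', rfl⟩ := List.mem_map.1 hr
      intro h0
      show (shiftF r'.concl).Eval v
      rw [shiftF_eval]
      apply hF.sound r' hr'
      intro P hP
      have := hv _ (List.mem_map_of_mem (f := fun P => imp v0 (shiftF P)) hP) h0
      rwa [shiftF_eval] at this
  · exact BR_sound r hr v hv

theorem ruleStep_GG {F : List Rule} {π : List Fm} {B : Fm} (h : RuleStep F π B) :
    RuleStep (GG F) π B := by
  obtain ⟨r, hr, s, h1, h2⟩ := h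
  exact ⟨r, List.mem_append_left _ (List.mem_append_left _ hr), s, h1, h2⟩

/-- A rule of `F` under a hypothesis and after a substitution. -/
theorem ruleStep_hyp {F : List Rule} {π σ : List Fm} {B : Fm} (h : RuleStep F π B) (H : Fm)
    (t : Nm → Fm) (hσ : ∀ C ∈ π, imp H (C.subst t) ∈ σ) :
    RuleStep (GG F) σ (imp H (B.subst t)) := by
  obtain ⟨r, hr, s, h1, h2⟩ := h
  refine ⟨shiftR r, List.mem_append_left _ (List.mem_append_right _
    (List.mem_map_of_mem hr)), hs H (fun n => (s n).subst t), ?_, ?_⟩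
  · intro P hP
    obtain ⟨P', hP', rfl⟩ := List.mem_map.1 hP
    show imp H ((shiftF P').subst (hs H (fun n => (s n).subst t))) ∈ σ
    rw [shiftF_subst, ← Fm.subst_subst]
    exact hσ _ (h1 P' hP')
  · show imp H ((shiftF r.concl).subst (hs H (fun n => (s n).subst t))) = _
    rw [shiftF_subst, ← Fm.subst_subst, h2]

end Pool.Agent.H.MP_0447ec_lc.PS
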