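import Pool.Agent.H.MP_0447ec_lc.LV.SliceDefs
import Pool.Agent.H.MP_0447ec_lc.PS.DefsC

/-!
# Substitution Frege proofs of all slices
-/

namespace Pool.Agent.H.MP_0447ec_lc.PS

open Fm

/-- All slices with the numbers `j = 1, ..., n` of `A` and of `A` with negated variables, where `n`
is the number of variables of `A`, have substitution Frege proofs of length at most `s` with at
most `j * log₂ s` different variables. -/
def SliceProofs (F : List Rule) (A : Fm) (s : ℕ) : Prop :=
  ∀ j : ℕ, 0 < j → j ≤ (varList A).length → ∀ B : Fm, B = slice A j ∨ B = slice (negVars A) j →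
    ∃ σ : List Fm, SubstProof F B σ ∧ (codeProof σ).length ≤ s ∧ numVars σ ≤ j * Nat.log 2 s

end Pool.Agent.H.MP_0447ec_lc.PS
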