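import Pool.Agent.H.MP_0447ec_lc.LV.BwDefs

/-!
# The bandwidth of extended Frege proofs; codes with a number in unary
-/

namespace Pool.Agent.H.MP_0447ec_lc.PS

/-- The bandwidth of a proof `π` of `A` in `F` with the extension rule: the least `b` such that
the proof can be read in such a way that every inference contains, of the variables introduced by
the extension rule, in the order of their introduction, only some of `b` consecutive ones. -/
noncomputable def bandwidth (F : List Rule) (A : Fm) (π : List Fm) : ℕ :=
  sInf {b : ℕ | NarrowProof F A b π}

/-- Binary code of a sequence of formulas together with a number in unary. -/
def codeProofNat (x : List Fm × ℕ) : List Bool :=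
  true :: (codeProof x.1 ++ ((List.replicate x.2 [true, false]).flatten ++ [false]))

end Pool.Agent.H.MP_0447ec_lc.PS
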